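import Mathlib

/-!
# One measurement determines a disk or a ball: notions used in the statement

`R^d` is `EuclideanSpace ℝ (Fin d)`; a vector field is given by its components
`u : Fin d → EuclideanSpace ℝ (Fin d) → ℝ`, its gradient by `G k i = ∂ᵢ u_k`.
-/

set_option autoImplicit false

open MeasureTheory
open scoped ContDiff

namespace Pool.Agent.MP_0643f8_an.U

/-- the partial derivative `∂ᵢ φ` -/
noncomputable def pd {d : ℕ} (i : Fin d) (φ : EuclideanSpace ℝ (Fin d) → ℝ)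
    (x : EuclideanSpace ℝ (Fin d)) : ℝ :=
  fderiv ℝ φ x (EuclideanSpace.single i (1 : ℝ))

/-- `φ` is smooth with compact support -/
def IsTest {d : ℕ} (φ : EuclideanSpace ℝ (Fin d) → ℝ) : Prop :=
  ContDiff ℝ ∞ φ ∧ HasCompactSupport φ

/-- `u ∈ W^{1,2}(Ω)` with weak gradient `G` -/
structure IsW12 {d : ℕ} (Ω : Set (EuclideanSpace ℝ (Fin d)))
    (u : Fin d → EuclideanSpace ℝ (Fin d) → ℝ)
    (G : Fin d → Fin d → EuclideanSpace ℝ (Fin d) → ℝ) : Prop where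
  memLp : ∀ k, MemLp (u k) 2 (volume.restrict Ω)
  memLp_grad : ∀ k i, MemLp (G k i) 2 (volume.restrict Ω)
  weak : ∀ φ : EuclideanSpace ℝ (Fin d) → ℝ, IsTest φ → tsupport φ ⊆ Ω →
    ∀ k i, ∫ x in Ω, u k x * pd i φ x = - ∫ x in Ω, G k i x * φ x

/-- the function equal to `b` on `D` and to `a` off `D` -/
noncomputable def coef {d : ℕ} (D : Set (EuclideanSpace ℝ (Fin d))) (a b : ℝ)
    (x : EuclideanSpace ℝ (Fin d)) : ℝ :=
  a + D.indicator (fun _ => b - a) x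

/-- `u` (with weak gradient `G`) is a solution in `W^{1,2}(Ω)` of the transmission problem with
inclusion `D`, Lame constants `lam, mu` off `D` and `lam', mu'` on `D`, and Neumann datum `g` on
the boundary of `Ω`, whose surface measure is `σ`: for all smooth `φ` (also at the boundary)
`∫_Ω λ_D (∇·u)(∇·φ) + μ_D (∇u + ∇uᵀ) : ∇φ = ∫ g · φ dσ`. -/
structure IsWeakSolution {d : ℕ} (Ω D : Set (EuclideanSpace ℝ (Fin d)))
    (lam mu lam' mu' : ℝ) (σ : Measure (EuclideanSpace ℝ (Fin d)))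
    (g : Fin d → EuclideanSpace ℝ (Fin d) → ℝ)
    (u : Fin d → EuclideanSpace ℝ (Fin d) → ℝ)
    (G : Fin d → Fin d → EuclideanSpace ℝ (Fin d) → ℝ) : Prop where
  w12 : IsW12 Ω u G
  weak : ∀ φ : Fin d → EuclideanSpace ℝ (Fin d) → ℝ, (∀ k, IsTest (φ k)) →
    ∫ x in Ω, (coef D lam lam' x * (∑ k, G k k x) * (∑ k, pd k (φ k) x) +
      coef D mu mu' x * ∑ k, ∑ i, (G k i x + G i k x) * pd i (φ k) x) =
    ∫ x, ∑ k, g k x * φ k x ∂σ

/-- two fields of `W^{1,2}(Ω)` have the same trace on the boundary of `Ω`: Green's formula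
`∫_Ω w ∂ᵢφ = - ∫_Ω ∂ᵢw φ` holds for their difference `w` and all smooth `φ`, without a boundary
term (for a Lipschitz domain the boundary term is `∫_∂Ω w φ Nᵢ`) -/
def SameTrace {d : ℕ} (Ω : Set (EuclideanSpace ℝ (Fin d)))
    (u₁ : Fin d → EuclideanSpace ℝ (Fin d) → ℝ)
    (G₁ : Fin d → Fin d → EuclideanSpace ℝ (Fin d) → ℝ)
    (u₂ : Fin d → EuclideanSpace ℝ (Fin d) → ℝ)
    (G₂ : Fin d → Fin d → EuclideanSpace ℝ (Fin d) → ℝ) : Prop :=
  ∀ φ : EuclideanSpace ℝ (Fin d) → ℝ, IsTest φ → ∀ k i,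
    ∫ x in Ω, (u₁ k x - u₂ k x) * pd i φ x = - ∫ x in Ω, (G₁ k i x - G₂ k i x) * φ x

end Pool.Agent.MP_0643f8_an.U
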