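import Mathlib
import Pool.Agent.Lib.MP_0643f8_an.U.St

/-!
# Basic notions for the uniqueness proof
-/

set_option autoImplicit false

open MeasureTheory Metric Set Filter Topology
open scoped ContDiff

namespace Pool.Agent.MP_0643f8_an.U

/-- Euclidean space -/
abbrev EE (d : ℕ) := EuclideanSpace ℝ (Fin d)

variable {d : ℕ}

/-- `f` is smooth and harmonic on the open set `U` -/
def Hm (U : Set (EE d)) (f : EE d → ℝ) : Prop :=
  ContDiffOn ℝ ∞ f U ∧ ∀ x ∈ U, ∑ i, pd i (pd i f) x = 0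

/-- the Euler operator `x · ∇` -/
noncomputable def eul {F : Type*} [NormedAddCommGroup F] [NormedSpace ℝ F] (f : EE d → F)
    (x : EE d) : F := fderiv ℝ f x x

/-- `f = O(|x|^m)` at `0` -/
def VanO {F : Type*} [NormedAddCommGroup F] (m : ℕ) (f : EE d → F) : Prop :=
  ∃ C δ : ℝ, 0 < δ ∧ ∀ x, ‖x‖ < δ → ‖f x‖ ≤ C * ‖x‖ ^ m

/-- open and star-shaped about `0` -/
def StarO (U : Set (EE d)) : Prop :=
  IsOpen U ∧ (0 : EE d) ∈ U ∧ ∀ x ∈ U, ∀ t : ℝ, 0 ≤ t → t ≤ 1 → t • x ∈ U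

/-- open and stable under the dilations `x ↦ t x`, `t ≥ 1` -/
def OutO (U : Set (EE d)) : Prop :=
  IsOpen U ∧ ∀ x ∈ U, ∀ t : ℝ, 1 ≤ t → t • x ∈ U

/-- the inversion `x ↦ x / |x|²` -/
noncomputable def inv (x : EE d) : EE d := (‖x‖ ^ 2)⁻¹ • x

/-- the Kelvin transform -/
noncomputable def kel (f : EE d → ℝ) (x : EE d) : ℝ := (‖x‖ ^ (d - 2))⁻¹ * f (inv x)

/-- the image of `U` under the inversion -/
def RS (U : Set (EE d)) : Set (EE d) := {x | x ≠ 0 ∧ inv x ∈ U}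

/-- the divergence -/
noncomputable def dv (u : Fin d → EE d → ℝ) (x : EE d) : ℝ := ∑ k, pd k (u k) x

/-- `u` solves the Lame system `μ Δu + (λ+μ) ∇(∇·u) = 0` on `U`, where `κ = (λ+μ)/(2μ)`:
`u = Φ - κ x θ` with `Φ` and `θ = ∇·u` harmonic -/
def IsLame (κ : ℝ) (U : Set (EE d)) (u : Fin d → EE d → ℝ) : Prop :=
  ∃ (θ : EE d → ℝ) (Φ : Fin d → EE d → ℝ), Hm U θ ∧ (∀ k, Hm U (Φ k)) ∧
    (∀ x ∈ U, ∀ k, u k x = Φ k x - κ * (x k * θ x)) ∧ ∀ x ∈ U, dv u x = θ x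

/-- the stress `λ (tr G) δ_ik + μ (G_ki + G_ik)` for `G k i = ∂ᵢ u_k` -/
noncomputable def sig (lam mu : ℝ) (G : Fin d → Fin d → EE d → ℝ) (i k : Fin d) (x : EE d) : ℝ :=
  lam * (if i = k then ∑ j, G j j x else 0) + mu * (G k i x + G i k x)

/-- the gradient matrix of a field -/
noncomputable def grd (u : Fin d → EE d → ℝ) (k i : Fin d) (x : EE d) : ℝ := pd i (u k) x

/-- the constants of the problem -/
structure Cst (d : ℕ) where
  /-- background `λ` -/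
  lam : ℝ
  /-- background `μ` -/
  mu : ℝ
  /-- inclusion `λ` -/
  lam' : ℝ
  /-- inclusion `μ` -/
  mu' : ℝ
  hd : 2 ≤ d
  hmu : 0 < mu
  hlam : 0 < (d : ℝ) * lam + 2 * mu
  hlam' : 0 < lam'
  hmu' : 0 < mu'
  hsign : 0 ≤ (lam - lam') * (mu - mu')
  hne : mu' ≠ mu

/-- `κ` of the background -/
noncomputable def Cst.kap (C : Cst d) : ℝ := (C.lam + C.mu) / (2 * C.mu)

/-- `κ` of the inclusion -/
noncomputable def Cst.kap' (C : Cst d) : ℝ := (C.lam' + C.mu') / (2 * C.mu')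

/-! ### weak notions -/

/-- locally square integrable on `V` -/
def L2loc (V : Set (EE d)) (f : EE d → ℝ) : Prop :=
  ∀ K : Set (EE d), IsCompact K → K ⊆ V → MemLp f 2 (volume.restrict K)

/-- `u ∈ H¹_loc(V)` with weak gradient `G` -/
def WD (V : Set (EE d)) (u : EE d → ℝ) (G : Fin d → EE d → ℝ) : Prop :=
  L2loc V u ∧ (∀ i, L2loc V (G i)) ∧ ∀ φ : EE d → ℝ, IsTest φ → tsupport φ ⊆ V →
    ∀ i, ∫ x, u x * pd i φ x = - ∫ x, G i x * φ x

/-- the stress for the coefficients of the inclusion `D` -/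
noncomputable def sigD (C : Cst d) (D : Set (EE d)) (G : Fin d → Fin d → EE d → ℝ) (i k : Fin d)
    (x : EE d) : ℝ :=
  coef D C.lam C.lam' x * (if i = k then ∑ j, G j j x else 0) +
    coef D C.mu C.mu' x * (G k i x + G i k x)

/-- the weak equation `div (C_D e(u)) = 0` on `V` -/
def WEq (C : Cst d) (D V : Set (EE d)) (G : Fin d → Fin d → EE d → ℝ) : Prop :=
  ∀ φ : EE d → ℝ, IsTest φ → tsupport φ ⊆ V → ∀ k, ∫ x, ∑ i, sigD C D G i k x * pd i φ x = 0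

/-- the shadow of `Fin d → EE d → ℝ` under the affine map `y ↦ c + r y` -/
def aff (c : EE d) (r : ℝ) (u : Fin d → EE d → ℝ) (k : Fin d) (y : EE d) : ℝ := u k (c + r • y)

end Pool.Agent.MP_0643f8_an.U
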