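import Mathlib
import Pool.Agent.Lib.MP_0643f8_an.U.Base

/-!
# Calculus rules for the derivatives `pd i f`

Everything is elementary; `pd i f x = fderiv ℝ f x (EuclideanSpace.single i 1)`.
-/

set_option autoImplicit false

open MeasureTheory Metric Set Filter Topology
open scoped ContDiff

namespace Pool.Agent.MP_0643f8_an.U

variable {d : ℕ}

private theorem calc_pd_def (i : Fin d) (f : EE d → ℝ) (x : EE d) :
    pd i f x = fderiv ℝ f x (EuclideanSpace.single i (1 : ℝ)) := rfl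

theorem pd_congr {f g : EE d → ℝ} {x : EE d} (h : f =ᶠ[𝓝 x] g) (i : Fin d) :
    pd i f =ᶠ[𝓝 x] pd i g := by
  have h1 := h.fderiv (𝕜 := ℝ)
  filter_upwards [h1] with y hy
  rw [calc_pd_def, calc_pd_def, hy]

theorem pd_const (c : ℝ) (i : Fin d) (x : EE d) : pd i (fun _ => c) x = 0 := by
  rw [calc_pd_def]
  simp

private theorem calc_hasFDerivAt_coord (k : Fin d) (x : EE d) :
    HasFDerivAt (fun y : EE d => y k) (EuclideanSpace.proj k : EE d →L[ℝ] ℝ) x :=
  (EuclideanSpace.proj k : EE d →L[ℝ] ℝ).hasFDerivAt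

theorem pd_coord (i k : Fin d) (x : EE d) :
    pd i (fun y : EE d => y k) x = if i = k then 1 else 0 := by
  rw [calc_pd_def, (calc_hasFDerivAt_coord k x).fderiv]
  show (EuclideanSpace.single i (1 : ℝ) : EE d) k = _
  rw [PiLp.single_apply]
  simp only [eq_comm]

private theorem calc_hasFDerivAt_normsq (x : EE d) :
    HasFDerivAt (fun y : EE d => ‖y‖ ^ 2) (2 • (innerSL ℝ x)) x :=
  (hasStrictFDerivAt_norm_sq x).hasFDerivAt

theorem pd_normsq (i : Fin d) (x : EE d) : pd i (fun y : EE d => ‖y‖ ^ 2) x = 2 * x i := by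
  rw [calc_pd_def, (calc_hasFDerivAt_normsq x).fderiv]
  simp [innerSL_apply_apply, EuclideanSpace.inner_single_right]

theorem pd_add {f g : EE d → ℝ} {x : EE d} (hf : DifferentiableAt ℝ f x)
    (hg : DifferentiableAt ℝ g x) (i : Fin d) :
    pd i (fun y => f y + g y) x = pd i f x + pd i g x := by
  rw [calc_pd_def, calc_pd_def, calc_pd_def, fderiv_fun_add hf hg]
  rfl

theorem pd_sub {f g : EE d → ℝ} {x : EE d} (hf : DifferentiableAt ℝ f x)
    (hg : DifferentiableAt ℝ g x) (i : Fin d) :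
    pd i (fun y => f y - g y) x = pd i f x - pd i g x := by
  rw [calc_pd_def, calc_pd_def, calc_pd_def, fderiv_fun_sub hf hg]
  rfl

theorem pd_sum {ι : Type*} (s : Finset ι) {f : ι → EE d → ℝ} {x : EE d}
    (hf : ∀ j ∈ s, DifferentiableAt ℝ (f j) x) (i : Fin d) :
    pd i (fun y => ∑ j ∈ s, f j y) x = ∑ j ∈ s, pd i (f j) x := by
  rw [calc_pd_def, fderiv_fun_sum hf, sum_apply]
  rfl

theorem pd_cmul {f : EE d → ℝ} {x : EE d} (hf : DifferentiableAt ℝ f x) (c : ℝ) (i : Fin d) :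
    pd i (fun y => c * f y) x = c * pd i f x := by
  rw [calc_pd_def, calc_pd_def, fderiv_const_mul hf c]
  rfl

theorem pd_mul {f g : EE d → ℝ} {x : EE d} (hf : DifferentiableAt ℝ f x)
    (hg : DifferentiableAt ℝ g x) (i : Fin d) :
    pd i (fun y => f y * g y) x = f x * pd i g x + g x * pd i f x := by
  rw [calc_pd_def, calc_pd_def, calc_pd_def, fderiv_fun_mul hf hg]
  rfl

/-- chain rule for affine maps -/
theorem pd_affine {f : EE d → ℝ} {c : EE d} {r : ℝ} {y : EE d}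
    (hf : DifferentiableAt ℝ f (c + r • y)) (i : Fin d) :
    pd i (fun z => f (c + r • z)) y = r * pd i f (c + r • y) := by
  have h1 : HasFDerivAt (fun z : EE d => c + r • z) (r • ContinuousLinearMap.id ℝ (EE d)) y :=
    ((hasFDerivAt_id y).const_smul r).const_add c
  have h2 := HasFDerivAt.comp (g := f) (f := fun z : EE d => c + r • z) y hf.hasFDerivAt h1
  have h3 : fderiv ℝ (fun z => f (c + r • z)) y =
      (fderiv ℝ f (c + r • y)).comp (r • ContinuousLinearMap.id ℝ (EE d)) := h2.fderiv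
  rw [calc_pd_def, calc_pd_def, h3]
  simp

private theorem calc_diff_fderiv {f : EE d → ℝ} {x : EE d} (hf : ContDiffAt ℝ 2 f x) :
    DifferentiableAt ℝ (fderiv ℝ f) x := by
  have h1 : ContDiffAt ℝ 1 (fderiv ℝ f) x := hf.fderiv_right (by norm_num)
  exact h1.differentiableAt (by norm_num)

private theorem calc_diff {f : EE d → ℝ} {x : EE d} (hf : ContDiffAt ℝ 2 f x) :
    DifferentiableAt ℝ f x := hf.differentiableAt (by norm_num)

private theorem calc_hasFDerivAt_pd {f : EE d → ℝ} {x : EE d} (hf : ContDiffAt ℝ 2 f x)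
    (j : Fin d) : HasFDerivAt (pd j f)
      ((fderiv ℝ (fderiv ℝ f) x).flip (EuclideanSpace.single j (1 : ℝ))) x := by
  have h1 := (calc_diff_fderiv hf).hasFDerivAt
  have h2 := h1.clm_apply (hasFDerivAt_const (EuclideanSpace.single j (1 : ℝ) : EE d) x)
  have h3 : (fderiv ℝ f x).comp (0 : EE d →L[ℝ] EE d) +
      (fderiv ℝ (fderiv ℝ f) x).flip (EuclideanSpace.single j (1 : ℝ)) =
      (fderiv ℝ (fderiv ℝ f) x).flip (EuclideanSpace.single j (1 : ℝ)) := by
    simp
  rw [h3] at h2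
  exact h2

private theorem calc_pd_pd {f : EE d → ℝ} {x : EE d} (hf : ContDiffAt ℝ 2 f x) (i j : Fin d) :
    pd i (pd j f) x = fderiv ℝ (fderiv ℝ f) x (EuclideanSpace.single i (1 : ℝ))
      (EuclideanSpace.single j (1 : ℝ)) := by
  rw [calc_pd_def, (calc_hasFDerivAt_pd hf j).fderiv]
  rfl

private theorem calc_symm {f : EE d → ℝ} {x : EE d} (hf : ContDiffAt ℝ 2 f x) (v w : EE d) :
    fderiv ℝ (fderiv ℝ f) x v w = fderiv ℝ (fderiv ℝ f) x w v := by
  have h1 : IsSymmSndFDerivAt ℝ f x := hf.isSymmSndFDerivAt (by simp)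
  exact h1 v w

theorem pd_comm {f : EE d → ℝ} {x : EE d} (hf : ContDiffAt ℝ 2 f x) (i j : Fin d) :
    pd i (pd j f) x = pd j (pd i f) x := by
  rw [calc_pd_pd hf, calc_pd_pd hf, calc_symm hf]

theorem fderiv_eq_sum (f : EE d → ℝ) (x v : EE d) : fderiv ℝ f x v = ∑ i, v i * pd i f x := by
  have h1 : v = ∑ i, v i • (EuclideanSpace.single i (1 : ℝ) : EE d) := by
    have h2 := (EuclideanSpace.basisFun (Fin d) ℝ).sum_repr v
    simpa only [EuclideanSpace.basisFun_repr, EuclideanSpace.basisFun_apply] using h2.symm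
  conv_lhs => rw [h1]
  rw [map_sum]
  refine Finset.sum_congr rfl fun i _ => ?_
  rw [map_smul, smul_eq_mul]
  rfl

theorem eul_eq_sum (f : EE d → ℝ) (x : EE d) : eul f x = ∑ i, x i * pd i f x :=
  fderiv_eq_sum f x x

theorem pd_contDiffOn {U : Set (EE d)} (hU : IsOpen U) {f : EE d → ℝ} (hf : ContDiffOn ℝ ∞ f U)
    (i : Fin d) : ContDiffOn ℝ ∞ (pd i f) U := by
  have h1 : ContDiffOn ℝ ∞ (fderiv ℝ f) U := hf.fderiv_of_isOpen hU (by simp)
  exact h1.clm_apply contDiffOn_const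

theorem eul_contDiffOn {U : Set (EE d)} (hU : IsOpen U) {f : EE d → ℝ}
    (hf : ContDiffOn ℝ ∞ f U) : ContDiffOn ℝ ∞ (eul f) U := by
  have h1 : ContDiffOn ℝ ∞ (fderiv ℝ f) U := hf.fderiv_of_isOpen hU (by simp)
  exact h1.clm_apply contDiffOn_id

/-- `∂ᵢ (E f) = E (∂ᵢ f) + ∂ᵢ f` -/
theorem pd_eul {f : EE d → ℝ} {x : EE d} (hf : ContDiffAt ℝ 2 f x) (i : Fin d) :
    pd i (eul f) x = eul (pd i f) x + pd i f x := by
  have h1 := (calc_diff_fderiv hf).hasFDerivAt
  have h2 := h1.clm_apply (hasFDerivAt_id x)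
  have h3 : fderiv ℝ (eul f) x = (fderiv ℝ f x).comp (ContinuousLinearMap.id ℝ (EE d)) +
      (fderiv ℝ (fderiv ℝ f) x).flip x := h2.fderiv
  rw [calc_pd_def, h3]
  unfold eul
  rw [(calc_hasFDerivAt_pd hf i).fderiv]
  show fderiv ℝ f x (EuclideanSpace.single i (1 : ℝ)) +
      fderiv ℝ (fderiv ℝ f) x (EuclideanSpace.single i (1 : ℝ)) x =
    fderiv ℝ (fderiv ℝ f) x x (EuclideanSpace.single i (1 : ℝ)) + pd i f x
  rw [calc_symm hf, calc_pd_def, add_comm]

theorem eul_congr {f g : EE d → ℝ} {x : EE d} (h : f =ᶠ[𝓝 x] g) : eul f =ᶠ[𝓝 x] eul g := by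
  have h1 := h.fderiv (𝕜 := ℝ)
  filter_upwards [h1] with y hy
  unfold eul
  rw [hy]

theorem eul_add {f g : EE d → ℝ} {x : EE d} (hf : DifferentiableAt ℝ f x)
    (hg : DifferentiableAt ℝ g x) : eul (fun y => f y + g y) x = eul f x + eul g x := by
  unfold eul
  rw [fderiv_fun_add hf hg]
  rfl

theorem eul_cmul {f : EE d → ℝ} {x : EE d} (hf : DifferentiableAt ℝ f x) (c : ℝ) :
    eul (fun y => c * f y) x = c * eul f x := by
  unfold eul
  rw [fderiv_const_mul hf c]
  rfl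

theorem eul_mul {f g : EE d → ℝ} {x : EE d} (hf : DifferentiableAt ℝ f x)
    (hg : DifferentiableAt ℝ g x) : eul (fun y => f y * g y) x = f x * eul g x + g x * eul f x := by
  unfold eul
  rw [fderiv_fun_mul hf hg]
  rfl

theorem eul_coord (k : Fin d) (x : EE d) : eul (fun y : EE d => y k) x = x k := by
  unfold eul
  rw [(calc_hasFDerivAt_coord k x).fderiv]
  rfl

theorem eul_normsq (x : EE d) : eul (fun y : EE d => ‖y‖ ^ 2) x = 2 * ‖x‖ ^ 2 := by
  unfold eul
  rw [(calc_hasFDerivAt_normsq x).fderiv]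
  simp [innerSL_apply_apply]

theorem normsq_eq_sum (x : EE d) : ‖x‖ ^ 2 = ∑ i, x i ^ 2 :=
  EuclideanSpace.real_norm_sq_eq x

private theorem calc_ev {f : EE d → ℝ} {x : EE d} (hf : ContDiffAt ℝ 2 f x) :
    ∀ᶠ y in 𝓝 x, DifferentiableAt ℝ f y := by
  filter_upwards [hf.eventually (by simp)] with y hy
  exact calc_diff hy

/-- Leibniz rule for the Laplacian -/
theorem lap_mul {f g : EE d → ℝ} {x : EE d} (hf : ContDiffAt ℝ 2 f x) (hg : ContDiffAt ℝ 2 g x) :
    ∑ i, pd i (pd i (fun y => f y * g y)) x =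
      f x * ∑ i, pd i (pd i g) x + 2 * ∑ i, pd i f x * pd i g x + g x * ∑ i, pd i (pd i f) x := by
  have key : ∀ i, pd i (pd i (fun y => f y * g y)) x =
      f x * pd i (pd i g) x + 2 * (pd i f x * pd i g x) + g x * pd i (pd i f) x := by
    intro i
    have h1 : pd i (fun y => f y * g y) =ᶠ[𝓝 x] fun y => f y * pd i g y + g y * pd i f y := by
      filter_upwards [calc_ev hf, calc_ev hg] with y h2 h3
      exact pd_mul h2 h3 i
    have hf1 := calc_diff hf
    have hg1 := calc_diff hg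
    have hf2 := (calc_hasFDerivAt_pd hf i).differentiableAt
    have hg2 := (calc_hasFDerivAt_pd hg i).differentiableAt
    have a1 : DifferentiableAt ℝ (fun y => f y * pd i g y) x := hf1.mul hg2
    have a2 : DifferentiableAt ℝ (fun y => g y * pd i f y) x := hg1.mul hf2
    rw [(pd_congr h1 i).self_of_nhds, pd_add a1 a2, pd_mul hf1 hg2, pd_mul hg1 hf2]
    ring
  rw [Finset.sum_congr rfl fun i _ => key i, Finset.sum_add_distrib, Finset.sum_add_distrib,
    Finset.mul_sum, Finset.mul_sum, Finset.mul_sum]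

private theorem calc_contDiff_coord (k : Fin d) (x : EE d) :
    ContDiffAt ℝ 2 (fun y : EE d => y k) x :=
  (EuclideanSpace.proj k : EE d →L[ℝ] ℝ).contDiff.contDiffAt

theorem lap_coord_mul {f : EE d → ℝ} {x : EE d} (hf : ContDiffAt ℝ 2 f x) (k : Fin d) :
    ∑ i, pd i (pd i (fun y => y k * f y)) x = x k * ∑ i, pd i (pd i f) x + 2 * pd k f x := by
  rw [lap_mul (calc_contDiff_coord k x) hf]
  have h1 : ∀ i : Fin d, pd i (pd i (fun y : EE d => y k)) x = 0 := by
    intro i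
    have h2 : pd i (fun y : EE d => y k) = fun _ => if i = k then 1 else 0 :=
      funext fun y => pd_coord i k y
    rw [h2, pd_const]
  have h3 : ∑ i, pd i (fun y : EE d => y k) x * pd i f x = pd k f x := by
    rw [Finset.sum_eq_single k]
    · rw [pd_coord, if_pos rfl, one_mul]
    · intro i _ hi
      rw [pd_coord, if_neg hi, zero_mul]
    · intro h
      exact absurd (Finset.mem_univ k) h
  rw [h3, Finset.sum_eq_zero fun i _ => h1 i, mul_zero, add_zero]

theorem lap_normsq_mul {f : EE d → ℝ} {x : EE d} (hf : ContDiffAt ℝ 2 f x) :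
    ∑ i, pd i (pd i (fun y => ‖y‖ ^ 2 * f y)) x =
      ‖x‖ ^ 2 * ∑ i, pd i (pd i f) x + 4 * eul f x + 2 * d * f x := by
  have hn : ContDiffAt ℝ 2 (fun y : EE d => ‖y‖ ^ 2) x := (contDiff_norm_sq ℝ).contDiffAt
  rw [lap_mul hn hf]
  have h1 : ∀ i : Fin d, pd i (pd i (fun y : EE d => ‖y‖ ^ 2)) x = 2 := by
    intro i
    have h2 : pd i (fun y : EE d => ‖y‖ ^ 2) = fun y => 2 * y i :=
      funext fun y => pd_normsq i y
    rw [h2, pd_cmul (calc_diff (calc_contDiff_coord i x)), pd_coord, if_pos rfl, mul_one]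
  have h3 : ∑ i, pd i (fun y : EE d => ‖y‖ ^ 2) x * pd i f x = 2 * eul f x := by
    rw [eul_eq_sum, Finset.mul_sum]
    refine Finset.sum_congr rfl fun i _ => ?_
    rw [pd_normsq]
    ring
  rw [h3, Finset.sum_congr rfl fun i _ => h1 i, Finset.sum_const, Finset.card_univ,
    Fintype.card_fin, nsmul_eq_mul]
  ring

end Pool.Agent.MP_0643f8_an.U
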