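import Mathlib
import Pool.Agent.Lib.MP_0643f8_an.U.Calc

/-!
# Closure properties of smooth harmonic functions

All proofs are short consequences of the calculus rules in `Calc`. In this file `f` and `g` are
smooth on open sets, so all derivatives exist there.
-/

set_option autoImplicit false

open MeasureTheory Metric Set Filter Topology
open scoped ContDiff

namespace Pool.Agent.MP_0643f8_an.U

variable {d : ℕ} {A B : Set (EE d)} {f g : EE d → ℝ}

private theorem h02_le : (2 : WithTop ℕ∞) ≤ ∞ := by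
  norm_cast

private theorem h02_lap_congr {f g : EE d → ℝ} {x : EE d} (h : f =ᶠ[𝓝 x] g) :
    ∑ i, pd i (pd i f) x = ∑ i, pd i (pd i g) x :=
  Finset.sum_congr rfl fun i _ => (pd_congr (pd_congr h i) i).self_of_nhds

private theorem h02_diff_pd {f : EE d → ℝ} {x : EE d} (hf : ContDiffAt ℝ 2 f x) (i : Fin d) :
    DifferentiableAt ℝ (pd i f) x := by
  have h1 : DifferentiableAt ℝ (fderiv ℝ f) x :=
    (hf.fderiv_right (m := 1) (by norm_num)).differentiableAt (by norm_num)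
  unfold pd
  exact h1.clm_apply (differentiableAt_const _)

private theorem h02_ev_diff {f : EE d → ℝ} {x : EE d} (hf : ContDiffAt ℝ 2 f x) :
    ∀ᶠ y in 𝓝 x, DifferentiableAt ℝ f y := by
  filter_upwards [hf.eventually (by simp)] with y hy
  exact hy.differentiableAt (by norm_num)

private theorem h02_lap_add {f g : EE d → ℝ} {x : EE d} (hf : ContDiffAt ℝ 2 f x)
    (hg : ContDiffAt ℝ 2 g x) : ∑ i, pd i (pd i (fun y => f y + g y)) x =
      ∑ i, pd i (pd i f) x + ∑ i, pd i (pd i g) x := by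
  rw [← Finset.sum_add_distrib]
  refine Finset.sum_congr rfl fun i _ => ?_
  have h1 : pd i (fun y => f y + g y) =ᶠ[𝓝 x] fun y => pd i f y + pd i g y := by
    filter_upwards [h02_ev_diff hf, h02_ev_diff hg] with y h2 h3
    exact pd_add h2 h3 i
  rw [(pd_congr h1 i).self_of_nhds]
  exact pd_add (h02_diff_pd hf i) (h02_diff_pd hg i) i

private theorem h02_lap_cmul {f : EE d → ℝ} {x : EE d} (hf : ContDiffAt ℝ 2 f x) (c : ℝ) :
    ∑ i, pd i (pd i (fun y => c * f y)) x = c * ∑ i, pd i (pd i f) x := by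
  rw [Finset.mul_sum]
  refine Finset.sum_congr rfl fun i _ => ?_
  have h1 : pd i (fun y => c * f y) =ᶠ[𝓝 x] fun y => c * pd i f y := by
    filter_upwards [h02_ev_diff hf] with y h2
    exact pd_cmul h2 c i
  rw [(pd_congr h1 i).self_of_nhds]
  exact pd_cmul (h02_diff_pd hf i) c i

private theorem h02_lap_sum {ι : Type*} (s : Finset ι) {F : ι → EE d → ℝ} {x : EE d}
    (hF : ∀ j ∈ s, ContDiffAt ℝ 2 (F j) x) : ∑ i, pd i (pd i (fun y => ∑ j ∈ s, F j y)) x =
      ∑ j ∈ s, ∑ i, pd i (pd i (F j)) x := by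
  classical
  rw [Finset.sum_comm]
  refine Finset.sum_congr rfl fun i _ => ?_
  have h0 : ∀ᶠ y in 𝓝 x, ∀ j ∈ s, DifferentiableAt ℝ (F j) y := by
    rw [Filter.eventually_all_finset]
    intro j hj
    exact h02_ev_diff (hF j hj)
  have h1 : pd i (fun y => ∑ j ∈ s, F j y) =ᶠ[𝓝 x] fun y => ∑ j ∈ s, pd i (F j) y := by
    filter_upwards [h0] with y hy
    exact pd_sum s hy i
  rw [(pd_congr h1 i).self_of_nhds]
  exact pd_sum s (fun j hj => h02_diff_pd (hF j hj) i) i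

theorem hm_mono (hf : Hm A f) (h : B ⊆ A) : Hm B f := by
  exact ⟨hf.1.mono h, fun x hx => hf.2 x (h hx)⟩

theorem hm_congr (hf : Hm A f) (hA : IsOpen A) (h : ∀ x ∈ A, g x = f x) : Hm A g := by
  refine ⟨hf.1.congr h, fun x hx => ?_⟩
  have h1 : g =ᶠ[𝓝 x] f := by
    filter_upwards [hA.mem_nhds hx] with y hy using h y hy
  rw [h02_lap_congr h1]
  exact hf.2 x hx

/-- harmonicity is local -/
theorem hm_of_local (h : ∀ x ∈ A, ∃ B, IsOpen B ∧ x ∈ B ∧ Hm B f) : Hm A f := by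
  refine ⟨fun x hx => ?_, fun x hx => ?_⟩
  · obtain ⟨B, hB, hxB, hfB⟩ := h x hx
    exact (hfB.1.contDiffAt (hB.mem_nhds hxB)).contDiffWithinAt
  · obtain ⟨B, hB, hxB, hfB⟩ := h x hx
    exact hfB.2 x hxB

theorem hm_contDiffAt (hf : Hm A f) (hA : IsOpen A) {x : EE d} (hx : x ∈ A) :
    ContDiffAt ℝ ∞ f x := by
  exact hf.1.contDiffAt (hA.mem_nhds hx)

theorem hm_contDiffAt2 (hf : Hm A f) (hA : IsOpen A) {x : EE d} (hx : x ∈ A) :
    ContDiffAt ℝ 2 f x := by
  exact (hm_contDiffAt hf hA hx).of_le h02_le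

theorem hm_diffAt (hf : Hm A f) (hA : IsOpen A) {x : EE d} (hx : x ∈ A) :
    DifferentiableAt ℝ f x := by
  exact (hm_contDiffAt2 hf hA hx).differentiableAt (by norm_num)

theorem hm_const (A : Set (EE d)) (c : ℝ) : Hm A (fun _ => c) := by
  refine ⟨contDiffOn_const, fun x _ => ?_⟩
  apply Finset.sum_eq_zero
  intro i _
  have h1 : pd i (fun _ : EE d => c) = fun _ => 0 := by
    funext y
    exact pd_const c i y
  rw [h1]
  exact pd_const 0 i x

theorem hm_coord (A : Set (EE d)) (k : Fin d) : Hm A (fun y => y k) := by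
  refine ⟨ContDiff.contDiffOn (by fun_prop), fun x _ => ?_⟩
  apply Finset.sum_eq_zero
  intro i _
  have h1 : pd i (fun y : EE d => y k) = fun _ => if i = k then 1 else 0 := by
    funext y
    exact pd_coord i k y
  rw [h1]
  exact pd_const _ i x

theorem hm_add (hA : IsOpen A) (hf : Hm A f) (hg : Hm A g) : Hm A (fun x => f x + g x) := by
  refine ⟨hf.1.add hg.1, fun x hx => ?_⟩
  rw [h02_lap_add (hm_contDiffAt2 hf hA hx) (hm_contDiffAt2 hg hA hx), hf.2 x hx, hg.2 x hx,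
    add_zero]

private theorem h02_hm_cmul (hA : IsOpen A) (hf : Hm A f) (c : ℝ) : Hm A (fun x => c * f x) := by
  refine ⟨contDiffOn_const.mul hf.1, fun x hx => ?_⟩
  rw [h02_lap_cmul (hm_contDiffAt2 hf hA hx), hf.2 x hx, mul_zero]

theorem hm_sub (hA : IsOpen A) (hf : Hm A f) (hg : Hm A g) : Hm A (fun x => f x - g x) := by
  have h1 := hm_add hA hf (h02_hm_cmul hA hg (-1))
  refine hm_congr h1 hA fun x _ => ?_
  ring

theorem hm_cmul (hA : IsOpen A) (hf : Hm A f) (c : ℝ) : Hm A (fun x => c * f x) := by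
  refine ⟨contDiffOn_const.mul hf.1, fun x hx => ?_⟩
  rw [h02_lap_cmul (hm_contDiffAt2 hf hA hx), hf.2 x hx, mul_zero]

theorem hm_sum {ι : Type*} (s : Finset ι) (hA : IsOpen A) {F : ι → EE d → ℝ}
    (hF : ∀ j ∈ s, Hm A (F j)) : Hm A (fun x => ∑ j ∈ s, F j x) := by
  classical
  refine ⟨ContDiffOn.sum fun j hj => (hF j hj).1, fun x hx => ?_⟩
  rw [h02_lap_sum s fun j hj => hm_contDiffAt2 (hF j hj) hA hx]
  exact Finset.sum_eq_zero fun j hj => (hF j hj).2 x hx

theorem hm_pd (hA : IsOpen A) (hf : Hm A f) (i : Fin d) : Hm A (pd i f) := by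
  refine ⟨pd_contDiffOn hA hf.1 i, fun x hx => ?_⟩
  have h1 : ∀ j, pd j (pd j (pd i f)) x = pd i (pd j (pd j f)) x := by
    intro j
    have h2 : pd j (pd i f) =ᶠ[𝓝 x] pd i (pd j f) := by
      filter_upwards [hA.mem_nhds hx] with y hy
      exact pd_comm (hm_contDiffAt2 hf hA hy) j i
    rw [(pd_congr h2 j).self_of_nhds]
    have h3 : ContDiffAt ℝ 2 (pd j f) x :=
      ((pd_contDiffOn hA hf.1 j).contDiffAt (hA.mem_nhds hx)).of_le h02_le
    exact pd_comm h3 j i
  rw [Finset.sum_congr rfl fun j _ => h1 j]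
  have h4 : ∀ j ∈ (Finset.univ : Finset (Fin d)), DifferentiableAt ℝ (pd j (pd j f)) x := by
    intro j _
    exact ((pd_contDiffOn hA (pd_contDiffOn hA hf.1 j) j).contDiffAt (hA.mem_nhds hx)).differentiableAt
      (by simp)
  rw [← pd_sum _ h4]
  have h5 : (fun y => ∑ j, pd j (pd j f) y) =ᶠ[𝓝 x] fun _ => 0 := by
    filter_upwards [hA.mem_nhds hx] with y hy
    exact hf.2 y hy
  rw [(pd_congr h5 i).self_of_nhds]
  exact pd_const 0 i x

private theorem h02_hm_xdot (hA : IsOpen A) {Φ : Fin d → EE d → ℝ} (hΦ : ∀ k, Hm A (Φ k))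
    (hdiv : ∀ x ∈ A, dv Φ x = 0) : Hm A (fun x => ∑ k, x k * Φ k x) := by
  have hk : ∀ k, ContDiffOn ℝ ∞ (fun x : EE d => x k * Φ k x) A := fun k =>
    ContDiffOn.mul (ContDiff.contDiffOn (by fun_prop)) (hΦ k).1
  refine ⟨ContDiffOn.sum fun k _ => hk k, fun x hx => ?_⟩
  rw [h02_lap_sum _ fun k _ => ((hk k).contDiffAt (hA.mem_nhds hx)).of_le
    h02_le]
  rw [Finset.sum_congr rfl fun k _ => lap_coord_mul (hm_contDiffAt2 (hΦ k) hA hx) k]
  rw [Finset.sum_add_distrib, ← Finset.mul_sum]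
  have h2 : ∑ k, pd k (Φ k) x = 0 := hdiv x hx
  rw [h2, mul_zero, add_zero]
  apply Finset.sum_eq_zero
  intro k _
  rw [(hΦ k).2 x hx, mul_zero]

theorem hm_eul (hA : IsOpen A) (hf : Hm A f) : Hm A (eul f) := by
  have h1 := h02_hm_xdot hA (Φ := fun k => pd k f) (fun k => hm_pd hA hf k) (fun x hx => hf.2 x hx)
  exact hm_congr h1 hA fun x _ => eul_eq_sum f x

/-- `x · Φ` is harmonic if all `Φ k` are and `∇ · Φ = 0` -/
theorem hm_xdot (hA : IsOpen A) {Φ : Fin d → EE d → ℝ} (hΦ : ∀ k, Hm A (Φ k))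
    (hdiv : ∀ x ∈ A, dv Φ x = 0) : Hm A (fun x => ∑ k, x k * Φ k x) := by
  have hk : ∀ k, ContDiffOn ℝ ∞ (fun x : EE d => x k * Φ k x) A := fun k =>
    ContDiffOn.mul (ContDiff.contDiffOn (by fun_prop)) (hΦ k).1
  refine ⟨ContDiffOn.sum fun k _ => hk k, fun x hx => ?_⟩
  rw [h02_lap_sum _ fun k _ => ((hk k).contDiffAt (hA.mem_nhds hx)).of_le
    h02_le]
  rw [Finset.sum_congr rfl fun k _ => lap_coord_mul (hm_contDiffAt2 (hΦ k) hA hx) k]
  rw [Finset.sum_add_distrib, ← Finset.mul_sum]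
  have h2 : ∑ k, pd k (Φ k) x = 0 := hdiv x hx
  rw [h2, mul_zero, add_zero]
  apply Finset.sum_eq_zero
  intro k _
  rw [(hΦ k).2 x hx, mul_zero]

theorem hm_affine (hA : IsOpen A) (hf : Hm A f) (c : EE d) {r : ℝ} (hr : r ≠ 0) :
    Hm {y : EE d | c + r • y ∈ A} (fun y => f (c + r • y)) := by
  have hcont : Continuous fun y : EE d => c + r • y := by fun_prop
  have hS : IsOpen {y : EE d | c + r • y ∈ A} := hA.preimage hcont
  refine ⟨?_, fun y hy => ?_⟩
  · have h1 : ContDiff ℝ ∞ fun y : EE d => c + r • y := by fun_prop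
    exact hf.1.comp h1.contDiffOn fun y hy => hy
  · have h2 : ∀ i, pd i (pd i (fun y => f (c + r • y))) y =
        r ^ 2 * pd i (pd i f) (c + r • y) := by
      intro i
      have h3 : pd i (fun y => f (c + r • y)) =ᶠ[𝓝 y] fun z => r * pd i f (c + r • z) := by
        filter_upwards [hS.mem_nhds hy] with z hz
        exact pd_affine (hm_diffAt hf hA hz) i
      rw [(pd_congr h3 i).self_of_nhds]
      have h4 : DifferentiableAt ℝ (pd i f) (c + r • y) :=
        h02_diff_pd (hm_contDiffAt2 hf hA hy) i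
      have h5 : DifferentiableAt ℝ (fun z : EE d => pd i f (c + r • z)) y :=
        DifferentiableAt.comp (g := pd i f) (f := fun z : EE d => c + r • z) y h4 (by fun_prop)
      rw [pd_cmul h5, pd_affine h4]
      ring
    rw [Finset.sum_congr rfl fun i _ => h2 i, ← Finset.mul_sum, hf.2 _ hy, mul_zero]

/-- a smooth function vanishing at `0` is `O(|x|)` -/
theorem vanO_one (hf : ContDiffAt ℝ ∞ f 0) (h0 : f 0 = 0) : VanO 1 f := by
  have h1 : DifferentiableAt ℝ f 0 := hf.differentiableAt (by simp)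
  obtain ⟨C, hC⟩ := h1.isBigO_sub.bound
  obtain ⟨δ, hδ, hball⟩ := Metric.eventually_nhds_iff.mp hC
  refine ⟨C, δ, hδ, fun x hx => ?_⟩
  have h2 := hball (y := x) (by rwa [dist_zero_right])
  rw [h0, sub_zero, sub_zero] at h2
  rwa [pow_one]

/-- a smooth function vanishing at `0` with its gradient is `O(|x|²)` -/
theorem vanO_two (hf : ContDiffAt ℝ ∞ f 0) (h0 : f 0 = 0) (h1 : ∀ i, pd i f 0 = 0) :
    VanO 2 f := by
  have hf2 : ContDiffAt ℝ 2 f 0 := hf.of_le h02_le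
  have hD0 : fderiv ℝ f 0 = 0 := by
    ext v
    rw [fderiv_eq_sum]
    simp [h1]
  have hD : DifferentiableAt ℝ (fderiv ℝ f) 0 :=
    (hf2.fderiv_right (m := 1) (by norm_num)).differentiableAt (by norm_num)
  obtain ⟨C, hC⟩ := hD.isBigO_sub.bound
  have hev : ∀ᶠ y in 𝓝 (0 : EE d), DifferentiableAt ℝ f y := h02_ev_diff hf2
  obtain ⟨δ, hδ, hball⟩ := Metric.eventually_nhds_iff.mp (hC.and hev)
  refine ⟨|C|, δ, hδ, fun x hx => ?_⟩
  have hsub : ∀ y ∈ closedBall (0 : EE d) ‖x‖, dist y 0 < δ := by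
    intro y hy
    rw [mem_closedBall] at hy
    linarith
  have h2 : ∀ y ∈ closedBall (0 : EE d) ‖x‖, DifferentiableAt ℝ f y := fun y hy =>
    (hball (hsub y hy)).2
  have h3 : ∀ y ∈ closedBall (0 : EE d) ‖x‖, ‖fderiv ℝ f y‖ ≤ |C| * ‖x‖ := by
    intro y hy
    have h4 := (hball (hsub y hy)).1
    rw [hD0, sub_zero, sub_zero] at h4
    have h5 : ‖y‖ ≤ ‖x‖ := by
      rw [mem_closedBall, dist_zero_right] at hy
      exact hy
    calc ‖fderiv ℝ f y‖ ≤ C * ‖y‖ := h4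
      _ ≤ |C| * ‖y‖ := mul_le_mul_of_nonneg_right (le_abs_self C) (norm_nonneg _)
      _ ≤ |C| * ‖x‖ := mul_le_mul_of_nonneg_left h5 (abs_nonneg C)
  have h6 := Convex.norm_image_sub_le_of_norm_fderiv_le h2 h3 (convex_closedBall 0 ‖x‖)
    (mem_closedBall_self (norm_nonneg x)) (y := x) (by rw [mem_closedBall, dist_zero_right])
  rw [h0, sub_zero, sub_zero] at h6
  calc ‖f x‖ ≤ |C| * ‖x‖ * ‖x‖ := h6
    _ = |C| * ‖x‖ ^ 2 := by ring

/-- conversely -/
theorem zero_of_vanO_one (h : VanO 1 f) : f 0 = 0 := by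
  obtain ⟨C, δ, hδ, hb⟩ := h
  have h1 := hb 0 (by rwa [norm_zero])
  rw [norm_zero, pow_one, mul_zero] at h1
  exact norm_le_zero_iff.mp h1

theorem zero_of_vanO_two (h : VanO 2 f) : f 0 = 0 ∧ ∀ i, pd i f 0 = 0 := by
  obtain ⟨C, δ, hδ, hb⟩ := h
  constructor
  · have h1 := hb 0 (by rwa [norm_zero])
    rw [norm_zero, zero_pow (by norm_num), mul_zero] at h1
    exact norm_le_zero_iff.mp h1
  · intro i
    have h2 : f =O[𝓝 (0 : EE d)] fun x => ‖x - 0‖ ^ 2 := by
      apply Asymptotics.IsBigO.of_bound C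
      filter_upwards [Metric.ball_mem_nhds (0 : EE d) hδ] with x hx
      rw [mem_ball, dist_zero_right] at hx
      rw [sub_zero, norm_pow, norm_norm]
      exact hb x hx
    have h3 : HasFDerivAt f (0 : EE d →L[ℝ] ℝ) 0 := h2.hasFDerivAt (by norm_num)
    unfold pd
    rw [h3.fderiv]
    rfl

end Pool.Agent.MP_0643f8_an.U
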