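import Mathlib
import Pool.Agent.Lib.MP_0643f8_an.U.H02_Basic

/-!
# Polynomials in the Euler operator

`pE P f = P(E) f = ∑ₙ aₙ Eⁿ f` for `P = ∑ aₙ Xⁿ`, `E = x · ∇`. All functions below are smooth on
an open set `A` and the statements are at points of `A`.
-/

set_option autoImplicit false

open MeasureTheory Metric Set Filter Topology Polynomial
open scoped ContDiff

namespace Pool.Agent.MP_0643f8_an.U

variable {d : ℕ} {𝕜 : Type*} [NontriviallyNormedField 𝕜] [NormedAlgebra ℝ 𝕜]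

/-- `P(E) f` -/
noncomputable def pE (P : 𝕜[X]) (f : EE d → 𝕜) (x : EE d) : 𝕜 :=
  P.sum fun n a => a * ((eul : (EE d → 𝕜) → EE d → 𝕜)^[n] f) x

variable {A : Set (EE d)} {f g : EE d → 𝕜}

theorem eulF_contDiffOn (hA : IsOpen A) (hf : ContDiffOn ℝ ∞ f A) :
    ContDiffOn ℝ ∞ (eul f) A := by
  have h1 : ContDiffOn ℝ ∞ (fderiv ℝ f) A := hf.fderiv_of_isOpen hA (by simp)
  exact h1.clm_apply contDiffOn_id

theorem eulF_congr {x : EE d} (h : f =ᶠ[𝓝 x] g) : eul f =ᶠ[𝓝 x] eul g := by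
  filter_upwards [h.fderiv (𝕜 := ℝ)] with y hy
  unfold eul
  rw [hy]

private theorem e0_iter_contDiffOn (hA : IsOpen A) (hf : ContDiffOn ℝ ∞ f A) (n : ℕ) :
    ContDiffOn ℝ ∞ ((eul : (EE d → 𝕜) → EE d → 𝕜)^[n] f) A := by
  induction n with
  | zero => exact hf
  | succ n ih =>
    rw [Function.iterate_succ_apply']
    exact eulF_contDiffOn hA ih

private theorem e0_iter_congr {x : EE d} (h : f =ᶠ[𝓝 x] g) (n : ℕ) :
    ((eul : (EE d → 𝕜) → EE d → 𝕜)^[n] f) =ᶠ[𝓝 x] ((eul : (EE d → 𝕜) → EE d → 𝕜)^[n] g) := by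
  induction n with
  | zero => exact h
  | succ n ih =>
    rw [Function.iterate_succ_apply', Function.iterate_succ_apply']
    exact eulF_congr ih

private theorem e0_diff (hA : IsOpen A) (hf : ContDiffOn ℝ ∞ f A) {x : EE d} (hx : x ∈ A) :
    DifferentiableAt ℝ f x :=
  (hf.contDiffAt (hA.mem_nhds hx)).differentiableAt (by simp)

private theorem e0_eul_congr_on (hA : IsOpen A) (h : ∀ x ∈ A, f x = g x) {x : EE d} (hx : x ∈ A) :
    eul f x = eul g x := by
  have h1 : f =ᶠ[𝓝 x] g := by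
    filter_upwards [hA.mem_nhds hx] with y hy
    exact h y hy
  exact (eulF_congr h1).self_of_nhds

theorem pE_contDiffOn (hA : IsOpen A) (hf : ContDiffOn ℝ ∞ f A) (P : 𝕜[X]) :
    ContDiffOn ℝ ∞ (pE P f) A := by
  have h : pE P f = fun x => ∑ n ∈ P.support, P.coeff n *
      ((eul : (EE d → 𝕜) → EE d → 𝕜)^[n] f) x := by
    funext x
    unfold pE
    rw [Polynomial.sum_def]
  rw [h]
  refine ContDiffOn.sum fun n _ => ?_
  exact contDiffOn_const.mul (e0_iter_contDiffOn hA hf n)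

theorem pE_zero_left (f : EE d → 𝕜) (x : EE d) : pE (0 : 𝕜[X]) f x = 0 := by
  unfold pE
  exact Polynomial.sum_zero_index _

theorem pE_C (a : 𝕜) (f : EE d → 𝕜) (x : EE d) : pE (C a) f x = a * f x := by
  unfold pE
  rw [Polynomial.sum_C_index (by rw [zero_mul])]
  rfl

theorem pE_one (f : EE d → 𝕜) (x : EE d) : pE (1 : 𝕜[X]) f x = f x := by
  rw [← C_1, pE_C, one_mul]

private theorem pE_monomial (n : ℕ) (a : 𝕜) (f : EE d → 𝕜) (x : EE d) :
    pE (monomial n a) f x = a * ((eul : (EE d → 𝕜) → EE d → 𝕜)^[n] f) x := by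
  unfold pE
  rw [Polynomial.sum_monomial_index _ _ (by rw [zero_mul])]

theorem pE_X (f : EE d → 𝕜) (x : EE d) : pE (X : 𝕜[X]) f x = eul f x := by
  rw [← monomial_one_one_eq_X, pE_monomial, one_mul]
  rfl

theorem pE_add_left (P Q : 𝕜[X]) (f : EE d → 𝕜) (x : EE d) :
    pE (P + Q) f x = pE P f x + pE Q f x := by
  unfold pE
  exact Polynomial.sum_add_index P Q _ (fun i => zero_mul _) (fun a b c => add_mul _ _ _)

theorem pE_C_mul (a : 𝕜) (P : 𝕜[X]) (f : EE d → 𝕜) (x : EE d) :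
    pE (C a * P) f x = a * pE P f x := by
  induction P using Polynomial.induction_on' with
  | add p q hp hq => rw [mul_add, pE_add_left, pE_add_left, hp, hq, mul_add]
  | monomial n b => rw [C_mul_monomial, pE_monomial, pE_monomial, mul_assoc]

theorem pE_neg_left (P : 𝕜[X]) (f : EE d → 𝕜) (x : EE d) : pE (-P) f x = - pE P f x := by
  have h : -P = C (-1) * P := by
    rw [C_neg, C_1, neg_one_mul]
  rw [h, pE_C_mul, neg_one_mul]

theorem pE_sub_left (P Q : 𝕜[X]) (f : EE d → 𝕜) (x : EE d) :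
    pE (P - Q) f x = pE P f x - pE Q f x := by
  rw [sub_eq_add_neg, pE_add_left, pE_neg_left, ← sub_eq_add_neg]

theorem pE_congr {x : EE d} (h : f =ᶠ[𝓝 x] g) (P : 𝕜[X]) : pE P f =ᶠ[𝓝 x] pE P g := by
  have h1 : ∀ᶠ y in 𝓝 x, ∀ n ∈ P.support, ((eul : (EE d → 𝕜) → EE d → 𝕜)^[n] f) y =
      ((eul : (EE d → 𝕜) → EE d → 𝕜)^[n] g) y := by
    rw [Filter.eventually_all_finset]
    exact fun n _ => e0_iter_congr h n
  filter_upwards [h1] with y hy
  unfold pE
  rw [Polynomial.sum_def, Polynomial.sum_def]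
  exact Finset.sum_congr rfl fun n hn => by rw [hy n hn]

private theorem e0_iter_add (hA : IsOpen A) (hf : ContDiffOn ℝ ∞ f A) (hg : ContDiffOn ℝ ∞ g A)
    (n : ℕ) : ∀ x ∈ A, ((eul : (EE d → 𝕜) → EE d → 𝕜)^[n] (fun y => f y + g y)) x =
      ((eul : (EE d → 𝕜) → EE d → 𝕜)^[n] f) x + ((eul : (EE d → 𝕜) → EE d → 𝕜)^[n] g) x := by
  induction n with
  | zero => intro x _; rfl
  | succ n ih =>
    intro x hx
    rw [Function.iterate_succ_apply', Function.iterate_succ_apply', Function.iterate_succ_apply',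
      e0_eul_congr_on hA ih hx]
    have h1 := e0_diff hA (e0_iter_contDiffOn hA hf n) hx
    have h2 := e0_diff hA (e0_iter_contDiffOn hA hg n) hx
    unfold eul at h1 h2 ⊢
    rw [fderiv_fun_add h1 h2]
    rfl

private theorem e0_iter_cmul (hA : IsOpen A) (hf : ContDiffOn ℝ ∞ f A) (c : 𝕜)
    (n : ℕ) : ∀ x ∈ A, ((eul : (EE d → 𝕜) → EE d → 𝕜)^[n] (fun y => c * f y)) x =
      c * ((eul : (EE d → 𝕜) → EE d → 𝕜)^[n] f) x := by
  induction n with
  | zero => intro x _; rfl
  | succ n ih =>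
    intro x hx
    rw [Function.iterate_succ_apply', Function.iterate_succ_apply', e0_eul_congr_on hA ih hx]
    have h1 := e0_diff hA (e0_iter_contDiffOn hA hf n) hx
    unfold eul at h1 ⊢
    rw [fderiv_const_mul h1]
    rfl

theorem pE_add (hA : IsOpen A) (hf : ContDiffOn ℝ ∞ f A) (hg : ContDiffOn ℝ ∞ g A) (P : 𝕜[X])
    {x : EE d} (hx : x ∈ A) : pE P (fun y => f y + g y) x = pE P f x + pE P g x := by
  induction P using Polynomial.induction_on' with
  | add p q hp hq =>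
    rw [pE_add_left, pE_add_left, pE_add_left, hp, hq]
    ring
  | monomial n b =>
    rw [pE_monomial, pE_monomial, pE_monomial, e0_iter_add hA hf hg n x hx, mul_add]

theorem pE_cmul (hA : IsOpen A) (hf : ContDiffOn ℝ ∞ f A) (c : 𝕜) (P : 𝕜[X])
    {x : EE d} (hx : x ∈ A) : pE P (fun y => c * f y) x = c * pE P f x := by
  induction P using Polynomial.induction_on' with
  | add p q hp hq =>
    rw [pE_add_left, pE_add_left, hp, hq]
    ring
  | monomial n b =>
    rw [pE_monomial, pE_monomial, e0_iter_cmul hA hf c n x hx]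
    ring

theorem pE_sub (hA : IsOpen A) (hf : ContDiffOn ℝ ∞ f A) (hg : ContDiffOn ℝ ∞ g A) (P : 𝕜[X])
    {x : EE d} (hx : x ∈ A) : pE P (fun y => f y - g y) x = pE P f x - pE P g x := by
  have h1 : (fun y => f y - g y) = fun y => f y + (-1) * g y := by
    funext y
    ring
  rw [h1, pE_add hA hf (contDiffOn_const.mul hg) P hx, pE_cmul hA hg (-1) P hx]
  ring

/-- `(X P)(E) f = E (P(E) f)` -/
theorem eul_pE (hA : IsOpen A) (hf : ContDiffOn ℝ ∞ f A) (P : 𝕜[X]) {x : EE d} (hx : x ∈ A) :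
    eul (pE P f) x = pE (X * P) f x := by
  induction P using Polynomial.induction_on' with
  | add p q hp hq =>
    have h1 : pE (p + q) f = fun y => pE p f y + pE q f y := by
      funext y
      exact pE_add_left p q f y
    have h2 := e0_diff hA (pE_contDiffOn hA hf p) hx
    have h3 := e0_diff hA (pE_contDiffOn hA hf q) hx
    rw [mul_add, pE_add_left, ← hp, ← hq, h1]
    unfold eul
    rw [fderiv_fun_add h2 h3]
    rfl
  | monomial n b =>
    have h1 : pE (monomial n b) f = fun y => b * ((eul : (EE d → 𝕜) → EE d → 𝕜)^[n] f) y := by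
      funext y
      exact pE_monomial n b f y
    have h2 := e0_diff hA (e0_iter_contDiffOn hA hf n) hx
    rw [X_mul_monomial, pE_monomial, h1, Function.iterate_succ_apply']
    have h3 : eul (fun y => b * ((eul : (EE d → 𝕜) → EE d → 𝕜)^[n] f) y) x =
        b * eul ((eul : (EE d → 𝕜) → EE d → 𝕜)^[n] f) x := by
      show fderiv ℝ (fun y => b * ((eul : (EE d → 𝕜) → EE d → 𝕜)^[n] f) y) x x =
        b * fderiv ℝ ((eul : (EE d → 𝕜) → EE d → 𝕜)^[n] f) x x
      rw [fderiv_const_mul h2]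
      rfl
    exact h3

/-- `(P Q)(E) f = P(E) (Q(E) f)` -/
theorem pE_mul (hA : IsOpen A) (hf : ContDiffOn ℝ ∞ f A) (P Q : 𝕜[X]) {x : EE d} (hx : x ∈ A) :
    pE (P * Q) f x = pE P (pE Q f) x := by
  have hQ := pE_contDiffOn hA hf Q
  have hmon : ∀ (n : ℕ) (a : 𝕜), ∀ x ∈ A,
      pE (monomial n a * Q) f x = pE (monomial n a) (pE Q f) x := by
    intro n a
    induction n with
    | zero =>
      intro x _
      rw [monomial_zero_left, pE_C_mul, pE_C]
    | succ n ih =>
      intro x hx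
      rw [← X_mul_monomial, mul_assoc, ← eul_pE hA hf _ hx, ← eul_pE hA hQ _ hx]
      exact e0_eul_congr_on hA ih hx
  induction P using Polynomial.induction_on' with
  | add p q hp hq => rw [add_mul, pE_add_left, pE_add_left, hp, hq]
  | monomial n b => exact hmon n b x hx

private theorem e0_hm_iter {f : EE d → ℝ} (hA : IsOpen A) (hf : Hm A f) (n : ℕ) :
    Hm A ((eul : (EE d → ℝ) → EE d → ℝ)^[n] f) := by
  induction n with
  | zero => exact hf
  | succ n ih =>
    rw [Function.iterate_succ_apply']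
    exact hm_eul hA ih

theorem hm_pE {f : EE d → ℝ} (hA : IsOpen A) (hf : Hm A f) (P : ℝ[X]) : Hm A (pE P f) := by
  have h : pE P f = fun x => ∑ n ∈ P.support, P.coeff n *
      ((eul : (EE d → ℝ) → EE d → ℝ)^[n] f) x := by
    funext x
    unfold pE
    rw [Polynomial.sum_def]
  rw [h]
  exact hm_sum _ hA fun n _ => hm_cmul hA (e0_hm_iter hA hf n) _

/-- at the origin `P(E)` is the multiplication by `P(0)` -/
theorem pE_at_zero (hA : IsOpen A) (h0 : (0 : EE d) ∈ A) (hf : ContDiffOn ℝ ∞ f A) (P : 𝕜[X]) :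
    pE P f 0 = P.eval 0 * f 0 := by
  induction P using Polynomial.induction_on' with
  | add p q hp hq => rw [pE_add_left, hp, hq, eval_add, add_mul]
  | monomial n b =>
    rw [pE_monomial]
    cases n with
    | zero =>
      rw [monomial_zero_left, eval_C]
      rfl
    | succ n =>
      rw [Function.iterate_succ_apply']
      unfold eul
      rw [map_zero, mul_zero, eval_monomial, zero_pow (Nat.succ_ne_zero n), mul_zero, zero_mul]

private theorem e0_pd_iter {f : EE d → ℝ} (hA : IsOpen A) (h0 : (0 : EE d) ∈ A) (hf : Hm A f)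
    (i : Fin d) (n : ℕ) : pd i ((eul : (EE d → ℝ) → EE d → ℝ)^[n] f) 0 = pd i f 0 := by
  induction n with
  | zero => rfl
  | succ n ih =>
    rw [Function.iterate_succ_apply', pd_eul (hm_contDiffAt2 (e0_hm_iter hA hf n) hA h0) i, ih]
    unfold eul
    rw [map_zero, zero_add]

private theorem e0_pd_pE {f : EE d → ℝ} (hA : IsOpen A) (h0 : (0 : EE d) ∈ A) (hf : Hm A f)
    (i : Fin d) (h : pd i f 0 = 0) (P : ℝ[X]) : pd i (pE P f) 0 = 0 := by
  have h1 : pE P f = fun x => ∑ n ∈ P.support, P.coeff n *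
      ((eul : (EE d → ℝ) → EE d → ℝ)^[n] f) x := by
    funext x
    unfold pE
    rw [Polynomial.sum_def]
  have h2 : ∀ n, DifferentiableAt ℝ ((eul : (EE d → ℝ) → EE d → ℝ)^[n] f) 0 := fun n =>
    hm_diffAt (e0_hm_iter hA hf n) hA h0
  rw [h1, pd_sum (f := fun n x => P.coeff n * ((eul : (EE d → ℝ) → EE d → ℝ)^[n] f) x) _
    (fun n _ => (h2 n).const_mul _) i]
  refine Finset.sum_eq_zero fun n _ => ?_
  rw [pd_cmul (h2 n), e0_pd_iter hA h0 hf i n, h, mul_zero]

/-- `P(E)` preserves the order of vanishing at the origin -/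
theorem vanO_pE {f : EE d → ℝ} (hA : IsOpen A) (h0 : (0 : EE d) ∈ A) (hf : Hm A f) {m : ℕ}
    (hm : m = 1 ∨ m = 2) (h : VanO m f) (P : ℝ[X]) : VanO m (pE P f) := by
  have h1 := hm_contDiffAt (hm_pE hA hf P) hA h0
  rcases hm with rfl | rfl
  · refine vanO_one h1 ?_
    rw [pE_at_zero hA h0 hf.1, zero_of_vanO_one h, mul_zero]
  · obtain ⟨h2, h3⟩ := zero_of_vanO_two h
    refine vanO_two h1 ?_ fun i => e0_pd_pE hA h0 hf i (h3 i) P
    rw [pE_at_zero hA h0 hf.1, h2, mul_zero]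

end Pool.Agent.MP_0643f8_an.U
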