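import Mathlib
import Pool.Agent.Lib.MP_0643f8_an.U.H02_Basic

/-!
# The Kelvin transform

`kel f x = |x|^{2-d} f (x/|x|²)`. For `x ≠ 0` one has, with `y = inv x`,
`∂ⱼ(yᵢ) = (δᵢⱼ - 2 xᵢ xⱼ/|x|²)/|x|²`, and `Δ (kel f) x = |x|^{-2-d} (Δ f) (inv x)`.
-/

set_option autoImplicit false

open MeasureTheory Metric Set Filter Topology
open scoped ContDiff

namespace Pool.Agent.MP_0643f8_an.U

variable {d : ℕ} {A : Set (EE d)} {f g : EE d → ℝ}

private theorem h6_le : (2 : WithTop ℕ∞) ≤ ∞ := by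
  norm_cast

private theorem h6_nsq {x : EE d} (hx : x ≠ 0) : ‖x‖ ^ 2 ≠ 0 := pow_ne_zero 2 (norm_ne_zero_iff.mpr hx)

private theorem h6_nsq_pos {x : EE d} (hx : x ≠ 0) : 0 < ‖x‖ ^ 2 := pow_pos (norm_pos_iff.mpr hx) 2

private theorem h6_norm_inv_aux {x : EE d} (hx : x ≠ 0) : ‖inv x‖ = ‖x‖⁻¹ := by
  have h := norm_pos_iff.mpr hx
  unfold inv
  rw [norm_smul, norm_inv, norm_pow, norm_norm]
  field_simp

theorem inv_inv' {x : EE d} (hx : x ≠ 0) : inv (inv x) = x := by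
  have h := norm_pos_iff.mpr hx
  show (‖inv x‖ ^ 2)⁻¹ • ((‖x‖ ^ 2)⁻¹ • x) = x
  rw [h6_norm_inv_aux hx, smul_smul]
  have : ((‖x‖⁻¹) ^ 2)⁻¹ * (‖x‖ ^ 2)⁻¹ = 1 := by field_simp
  rw [this, one_smul]

theorem inv_ne_zero' {x : EE d} (hx : x ≠ 0) : inv x ≠ 0 := by
  rw [← norm_pos_iff, h6_norm_inv_aux hx]
  exact inv_pos.mpr (norm_pos_iff.mpr hx)

theorem norm_inv' {x : EE d} (hx : x ≠ 0) : ‖inv x‖ = ‖x‖⁻¹ := h6_norm_inv_aux hx

theorem inv_of_norm_one {x : EE d} (hx : ‖x‖ = 1) : inv x = x := by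
  unfold inv
  rw [hx]
  simp

private theorem h6_inv_contDiffAt {x : EE d} (hx : x ≠ 0) : ContDiffAt ℝ ∞ (inv : EE d → EE d) x := by
  have h : ContDiffAt ℝ ∞ (fun y : EE d => (‖y‖ ^ 2)⁻¹) x :=
    ((contDiffAt_norm ℝ hx).pow 2).inv (h6_nsq hx)
  exact h.smul contDiffAt_id

theorem isOpen_RS (hA : IsOpen A) : IsOpen (RS A) := by
  have h : ContinuousOn (inv : EE d → EE d) {x | x ≠ 0} := fun x hx =>
    (h6_inv_contDiffAt hx).continuousAt.continuousWithinAt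
  have h2 := h.isOpen_inter_preimage isOpen_ne hA
  exact h2

private theorem h6_pd_comp {φ : ℝ → ℝ} {φ' : ℝ} {h : EE d → ℝ} {x : EE d}
    (hφ : HasDerivAt φ φ' (h x)) (hh : DifferentiableAt ℝ h x) (i : Fin d) :
    pd i (fun y => φ (h y)) x = φ' * pd i h x := by
  have h1 := hφ.comp_hasFDerivAt x hh.hasFDerivAt
  unfold pd
  have h2 : fderiv ℝ (fun y => φ (h y)) x = φ' • fderiv ℝ h x := h1.fderiv
  rw [h2]
  rfl

private theorem h6_nsq_diff (x : EE d) : DifferentiableAt ℝ (fun y : EE d => ‖y‖ ^ 2) x :=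
  (differentiableAt_id.norm_sq ℝ)

private theorem h6_pd_inv {x : EE d} (hx : x ≠ 0) (i : Fin d) :
    pd i (fun y : EE d => (‖y‖ ^ 2)⁻¹) x = -(2 * x i) * ((‖x‖ ^ 2)⁻¹) ^ 2 := by
  rw [h6_pd_comp (φ := fun s => s⁻¹) (hasDerivAt_inv (h6_nsq hx)) (h6_nsq_diff x) i, pd_normsq]
  field_simp

private theorem h6_inv_diff {x : EE d} (hx : x ≠ 0) :
    DifferentiableAt ℝ (fun y : EE d => (‖y‖ ^ 2)⁻¹) x :=
  (h6_nsq_diff x).inv (h6_nsq hx)

private theorem h6_pd_rpow (p : ℝ) {x : EE d} (hx : x ≠ 0) (i : Fin d) :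
    pd i (fun y : EE d => (‖y‖ ^ 2) ^ p) x = p * (‖x‖ ^ 2) ^ (p - 1) * (2 * x i) := by
  rw [h6_pd_comp (φ := fun s => s ^ p) (Real.hasDerivAt_rpow_const (Or.inl (h6_nsq hx)))
    (h6_nsq_diff x) i, pd_normsq]

private theorem h6_rpow_cd (p : ℝ) {x : EE d} (hx : x ≠ 0) :
    ContDiffAt ℝ ∞ (fun y : EE d => (‖y‖ ^ 2) ^ p) x :=
  ((contDiffAt_norm ℝ hx).pow 2).rpow_const_of_ne (h6_nsq hx)

private theorem h6_rpow_diff (p : ℝ) {x : EE d} (hx : x ≠ 0) :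
    DifferentiableAt ℝ (fun y : EE d => (‖y‖ ^ 2) ^ p) x :=
  (h6_rpow_cd p hx).differentiableAt (by simp)

/-- derivative of `h ∘ inv` -/
private theorem h6_star {h : EE d → ℝ} {x : EE d} (hx : x ≠ 0)
    (hh : DifferentiableAt ℝ h (inv x)) (i : Fin d) :
    pd i (fun y => h (inv y)) x =
      (‖x‖ ^ 2)⁻¹ * pd i h (inv x) - 2 * (x i * ((‖x‖ ^ 2)⁻¹ * eul h (inv x))) := by
  have hi : DifferentiableAt ℝ (inv : EE d → EE d) x :=
    (h6_inv_contDiffAt hx).differentiableAt (by simp)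
  have h1 : fderiv ℝ (fun y => h (inv y)) x = (fderiv ℝ h (inv x)).comp (fderiv ℝ inv x) :=
    fderiv_comp x hh hi
  have h2 : fderiv ℝ (inv : EE d → EE d) x (EuclideanSpace.single i (1 : ℝ)) =
      (‖x‖ ^ 2)⁻¹ • EuclideanSpace.single i (1 : ℝ) +
        (-(2 * x i) * ((‖x‖ ^ 2)⁻¹) ^ 2) • x := by
    have h3 : HasFDerivAt (inv : EE d → EE d)
        ((‖x‖ ^ 2)⁻¹ • ContinuousLinearMap.id ℝ (EE d) +
          (fderiv ℝ (fun y : EE d => (‖y‖ ^ 2)⁻¹) x).smulRight x) x :=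
      (h6_inv_diff hx).hasFDerivAt.smul (hasFDerivAt_id x)
    rw [h3.fderiv]
    have h4 := h6_pd_inv hx i
    unfold pd at h4
    simp only [add_apply, smul_apply,
      ContinuousLinearMap.id_apply, ContinuousLinearMap.smulRight_apply]
    rw [h4]
  have h5 : x = (‖x‖ ^ 2) • inv x := by
    unfold inv
    rw [smul_smul, mul_inv_cancel₀ (h6_nsq hx), one_smul]
  have h6 : fderiv ℝ h (inv x) x = ‖x‖ ^ 2 * eul h (inv x) := by
    have : fderiv ℝ h (inv x) x = fderiv ℝ h (inv x) ((‖x‖ ^ 2) • inv x) := by rw [← h5]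
    rw [this, map_smul, smul_eq_mul]
    rfl
  unfold pd
  rw [h1, ContinuousLinearMap.comp_apply, h2, map_add, map_smul, map_smul, h6, smul_eq_mul,
    smul_eq_mul]
  have hn := h6_nsq hx
  field_simp
  ring

private theorem h6_star_diff {h : EE d → ℝ} {x : EE d} (hx : x ≠ 0)
    (hh : DifferentiableAt ℝ h (inv x)) : DifferentiableAt ℝ (fun y => h (inv y)) x :=
  hh.comp x ((h6_inv_contDiffAt hx).differentiableAt (by simp))

/-- the exponent -/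
private noncomputable def h6p (d : ℕ) : ℝ := -((d : ℝ) - 2) / 2

private theorem h6_wt (hd : 2 ≤ d) {x : EE d} (hx : x ≠ 0) :
    (‖x‖ ^ (d - 2))⁻¹ = (‖x‖ ^ 2) ^ (h6p d) := by
  have hn : 0 ≤ ‖x‖ := norm_nonneg x
  rw [← Real.rpow_natCast ‖x‖ 2, ← Real.rpow_mul hn, ← Real.rpow_natCast ‖x‖ (d - 2),
    ← Real.rpow_neg hn]
  congr 1
  unfold h6p
  rw [Nat.cast_sub hd]
  push_cast
  ring

private theorem h6_kel_eq (hd : 2 ≤ d) (f : EE d → ℝ) {x : EE d} (hx : x ≠ 0) :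
    kel f =ᶠ[𝓝 x] fun y => (‖y‖ ^ 2) ^ (h6p d) * f (inv y) := by
  filter_upwards [isOpen_ne.mem_nhds hx] with y hy
  unfold kel
  rw [h6_wt hd hy]

private theorem h6_sum_xD (h : EE d → ℝ) {x : EE d} (hx : x ≠ 0) :
    ∑ i, x i * pd i h (inv x) = ‖x‖ ^ 2 * eul h (inv x) := by
  rw [eul_eq_sum, Finset.mul_sum]
  refine Finset.sum_congr rfl (fun i _ => ?_)
  have : inv x i = (‖x‖ ^ 2)⁻¹ * x i := rfl
  rw [this]
  have hn := h6_nsq hx
  field_simp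

/-- Laplacian of `f ∘ inv` -/
private theorem h6_lap_star {x : EE d} (hA : IsOpen A) (hf : Hm A f) (hx : x ∈ RS A) :
    ∑ i, pd i (pd i (fun y => f (inv y))) x =
      (4 - 2 * (d : ℝ)) * ((‖x‖ ^ 2)⁻¹ * eul f (inv x)) := by
  obtain ⟨hx0, hxA⟩ := hx
  have hev : ∀ i, pd i (fun y => f (inv y)) =ᶠ[𝓝 x] fun y =>
      (‖y‖ ^ 2)⁻¹ * pd i f (inv y) - 2 * (y i * ((‖y‖ ^ 2)⁻¹ * eul f (inv y))) := by
    intro i
    filter_upwards [(isOpen_RS hA).mem_nhds (show x ∈ RS A from ⟨hx0, hxA⟩)] with y hy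
    exact h6_star hy.1 (hm_diffAt hf hA hy.2) i
  have hpdf : ∀ i, DifferentiableAt ℝ (fun y => pd i f (inv y)) x := fun i =>
    h6_star_diff hx0 (hm_diffAt (hm_pd hA hf i) hA hxA)
  have heulf : DifferentiableAt ℝ (fun y => eul f (inv y)) x :=
    h6_star_diff hx0 (hm_diffAt (hm_eul hA hf) hA hxA)
  have hcoord : ∀ i : Fin d, DifferentiableAt ℝ (fun y : EE d => y i) x := fun i =>
    hm_diffAt (hm_coord univ i) isOpen_univ (mem_univ x)
  have ha := h6_inv_diff hx0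
  set a := (‖x‖ ^ 2)⁻¹ with hadef
  have key : ∀ i, pd i (pd i (fun y => f (inv y))) x =
      a ^ 2 * pd i (pd i f) (inv x) + (-2 * a ^ 2) * (x i * eul (pd i f) (inv x)) +
      (-2 * a ^ 2) * (x i * pd i f (inv x)) + (-2 * a ^ 2) * (x i * pd i (eul f) (inv x)) +
      (4 * a ^ 2 * (eul (eul f) (inv x) + eul f (inv x))) * (x i ^ 2) +
      (-2 * a * eul f (inv x)) := by
    intro i
    rw [(pd_congr (hev i) i).eq_of_nhds]
    have hm1 : DifferentiableAt ℝ (fun y : EE d => (‖y‖ ^ 2)⁻¹ * pd i f (inv y)) x :=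
      ha.mul (hpdf i)
    have hm2 : DifferentiableAt ℝ (fun y : EE d => (‖y‖ ^ 2)⁻¹ * eul f (inv y)) x :=
      ha.mul heulf
    have hm3 : DifferentiableAt ℝ (fun y : EE d => y i * ((‖y‖ ^ 2)⁻¹ * eul f (inv y))) x :=
      (hcoord i).mul hm2
    rw [pd_sub hm1 (hm3.const_mul 2), pd_cmul hm3, pd_mul ha (hpdf i), pd_mul (hcoord i) hm2,
      pd_mul ha heulf, pd_coord, if_pos rfl, h6_pd_inv hx0,
      h6_star hx0 (hm_diffAt (hm_pd hA hf i) hA hxA), h6_star hx0 (hm_diffAt (hm_eul hA hf) hA hxA)]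
    ring
  rw [Finset.sum_congr rfl (fun i _ => key i)]
  simp only [Finset.sum_add_distrib, ← Finset.mul_sum, Finset.sum_const, Finset.card_univ,
    Fintype.card_fin, nsmul_eq_mul]
  have h1 : ∑ i, pd i (pd i f) (inv x) = 0 := hf.2 _ hxA
  have h2 := h6_sum_xD f hx0
  have h3 := h6_sum_xD (eul f) hx0
  have h4 : ∑ i, x i * eul (pd i f) (inv x) =
      ∑ i, x i * pd i (eul f) (inv x) - ∑ i, x i * pd i f (inv x) := by
    rw [← Finset.sum_sub_distrib]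
    refine Finset.sum_congr rfl (fun i _ => ?_)
    rw [pd_eul (hm_contDiffAt2 hf hA hxA) i]
    ring
  rw [h4, h1, h2, h3, ← normsq_eq_sum]
  have h5 : a * ‖x‖ ^ 2 = 1 := inv_mul_cancel₀ (h6_nsq hx0)
  generalize ‖x‖ ^ 2 = ρ at h5
  generalize eul f (inv x) = e1
  generalize eul (eul f) (inv x) = e2
  have h6 : a ^ 2 * ρ = a := by rw [sq, mul_assoc, h5, mul_one]
  linear_combination (-2 * e2 + 2 * e1 - 2 * e1 - 2 * e2 + 4 * e2 + 4 * e1) * h6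


/-- the Euler operator of `f ∘ inv` -/
private theorem h6_eul_star {x : EE d} (hx : x ≠ 0) (hh : DifferentiableAt ℝ f (inv x)) :
    eul (fun y => f (inv y)) x = - eul f (inv x) := by
  rw [eul_eq_sum]
  have h1 : ∀ i, x i * pd i (fun y => f (inv y)) x =
      (‖x‖ ^ 2)⁻¹ * (x i * pd i f (inv x)) + (-2 * ((‖x‖ ^ 2)⁻¹ * eul f (inv x))) * x i ^ 2 := by
    intro i
    rw [h6_star hx hh i]
    ring
  rw [Finset.sum_congr rfl (fun i _ => h1 i), Finset.sum_add_distrib, ← Finset.mul_sum,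
    ← Finset.mul_sum, h6_sum_xD f hx, ← normsq_eq_sum]
  have hn := h6_nsq hx
  field_simp
  ring

private theorem h6_rpow_sub_one (p : ℝ) {x : EE d} (hx : x ≠ 0) :
    (‖x‖ ^ 2) ^ (p - 1) = (‖x‖ ^ 2) ^ p * (‖x‖ ^ 2)⁻¹ := by
  rw [Real.rpow_sub_one (h6_nsq hx), div_eq_mul_inv]

private theorem h6_lap_W {x : EE d} (hx : x ≠ 0) :
    ∑ i, pd i (pd i (fun y : EE d => (‖y‖ ^ 2) ^ (h6p d))) x = 0 := by
  set p := h6p d with hp
  have hcoord : ∀ i : Fin d, DifferentiableAt ℝ (fun y : EE d => y i) x := fun i =>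
    hm_diffAt (hm_coord univ i) isOpen_univ (mem_univ x)
  have key : ∀ i, pd i (pd i (fun y : EE d => (‖y‖ ^ 2) ^ p)) x =
      2 * p * (‖x‖ ^ 2) ^ (p - 1) + (4 * p * (p - 1) * (‖x‖ ^ 2) ^ (p - 1 - 1)) * x i ^ 2 := by
    intro i
    have hev : pd i (fun y : EE d => (‖y‖ ^ 2) ^ p) =ᶠ[𝓝 x] fun y =>
        (2 * p) * (y i * (‖y‖ ^ 2) ^ (p - 1)) := by
      filter_upwards [isOpen_ne.mem_nhds hx] with y hy
      rw [h6_pd_rpow p hy]
      ring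
    rw [(pd_congr hev i).self_of_nhds]
    have hm : DifferentiableAt ℝ (fun y : EE d => y i * (‖y‖ ^ 2) ^ (p - 1)) x :=
      (hcoord i).mul (h6_rpow_diff (p - 1) hx)
    rw [pd_cmul hm, pd_mul (hcoord i) (h6_rpow_diff (p - 1) hx), pd_coord, if_pos rfl,
      h6_pd_rpow (p - 1) hx]
    ring
  rw [Finset.sum_congr rfl (fun i _ => key i), Finset.sum_add_distrib, Finset.sum_const,
    Finset.card_univ, Fintype.card_fin, nsmul_eq_mul, ← Finset.mul_sum,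
    ← normsq_eq_sum, h6_rpow_sub_one (p - 1) hx]
  have hn := h6_nsq hx
  have h1 : (‖x‖ ^ 2) ^ (p - 1) * (‖x‖ ^ 2)⁻¹ * ‖x‖ ^ 2 = (‖x‖ ^ 2) ^ (p - 1) := by
    field_simp
  have h2 : 2 * p = 2 - d := by
    rw [hp, h6p]
    ring
  calc (d : ℝ) * (2 * p * (‖x‖ ^ 2) ^ (p - 1)) +
        4 * p * (p - 1) * ((‖x‖ ^ 2) ^ (p - 1) * (‖x‖ ^ 2)⁻¹) * ‖x‖ ^ 2
      = (d : ℝ) * (2 * p * (‖x‖ ^ 2) ^ (p - 1)) +
        4 * p * (p - 1) * ((‖x‖ ^ 2) ^ (p - 1) * (‖x‖ ^ 2)⁻¹ * ‖x‖ ^ 2) := by ring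
    _ = (2 * p) * (‖x‖ ^ 2) ^ (p - 1) * (d + (2 * p) - 2) := by rw [h1]; ring
    _ = 0 := by rw [h2]; ring

/-- the Kelvin transform of a harmonic function is harmonic -/
theorem hm_kel (hd : 2 ≤ d) (hA : IsOpen A) (hf : Hm A f) : Hm (RS A) (kel f) := by
  have hcd : ∀ x ∈ RS A, ContDiffAt ℝ ∞ (fun y => f (inv y)) x := fun x hx =>
    (hm_contDiffAt hf hA hx.2).comp x (h6_inv_contDiffAt hx.1)
  refine ⟨fun x hx => ?_, fun x hx => ?_⟩
  · have h1 : ContDiffAt ℝ ∞ (fun y => (‖y‖ ^ 2) ^ (h6p d) * f (inv y)) x :=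
      (h6_rpow_cd (h6p d) hx.1).mul (hcd x hx)
    exact (h1.congr_of_eventuallyEq (h6_kel_eq hd f hx.1)).contDiffWithinAt
  · have h1 : ∀ i, pd i (pd i (kel f)) x =
        pd i (pd i (fun y => (‖y‖ ^ 2) ^ (h6p d) * f (inv y))) x := by
      intro i
      have h3 := pd_congr (h6_kel_eq hd f hx.1) i
      exact (pd_congr h3 i).self_of_nhds
    have hW : ContDiffAt ℝ 2 (fun y : EE d => (‖y‖ ^ 2) ^ (h6p d)) x :=
      (h6_rpow_cd (h6p d) hx.1).of_le h6_le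
    have hF : ContDiffAt ℝ 2 (fun y => f (inv y)) x :=
      (hcd x hx).of_le h6_le
    rw [Finset.sum_congr rfl (fun i _ => h1 i), lap_mul hW hF, h6_lap_W hx.1,
      h6_lap_star hA hf hx]
    have h4 : ∑ i, pd i (fun y : EE d => (‖y‖ ^ 2) ^ (h6p d)) x * pd i (fun y => f (inv y)) x =
        (2 * h6p d * ((‖x‖ ^ 2) ^ (h6p d) * (‖x‖ ^ 2)⁻¹)) * (- eul f (inv x)) := by
      rw [← h6_eul_star hx.1 (hm_diffAt hf hA hx.2), eul_eq_sum, Finset.mul_sum]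
      refine Finset.sum_congr rfl (fun i _ => ?_)
      rw [h6_pd_rpow _ hx.1, h6_rpow_sub_one _ hx.1]
      ring
    rw [h4]
    unfold h6p
    ring

theorem kel_kel {x : EE d} (hd : 2 ≤ d) (hx : x ≠ 0) : kel (kel f) x = f x := by
  unfold kel
  rw [inv_inv' hx, norm_inv' hx]
  have h := norm_pos_iff.mpr hx
  have h1 : ‖x‖ ^ (d - 2) ≠ 0 := pow_ne_zero _ h.ne'
  rw [inv_pow, inv_inv, ← mul_assoc, inv_mul_cancel₀ h1, one_mul]

theorem kel_const_mul (c : ℝ) (f : EE d → ℝ) (x : EE d) :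
    kel (fun y => c * f y) x = c * kel f x := by
  unfold kel
  ring

theorem kel_add (f g : EE d → ℝ) (x : EE d) :
    kel (fun y => f y + g y) x = kel f x + kel g x := by
  unfold kel
  ring

/-- `E (kel f) = - kel (E f + (d-2) f)` -/
theorem eul_kel (hd : 2 ≤ d) {x : EE d} (hx : x ≠ 0) (hf : DifferentiableAt ℝ f (inv x)) :
    eul (kel f) x = - kel (fun y => eul f y + ((d : ℝ) - 2) * f y) x := by
  rw [(eul_congr (h6_kel_eq hd f hx)).self_of_nhds,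
    eul_mul (h6_rpow_diff (h6p d) hx) (h6_star_diff hx hf), h6_eul_star hx hf]
  have h1 : eul (fun y : EE d => (‖y‖ ^ 2) ^ (h6p d)) x = 2 * h6p d * (‖x‖ ^ 2) ^ (h6p d) := by
    rw [eul_eq_sum]
    have h2 : ∀ i, x i * pd i (fun y : EE d => (‖y‖ ^ 2) ^ (h6p d)) x =
        (2 * h6p d * ((‖x‖ ^ 2) ^ (h6p d) * (‖x‖ ^ 2)⁻¹)) * x i ^ 2 := by
      intro i
      rw [h6_pd_rpow _ hx, h6_rpow_sub_one _ hx]
      ring
    rw [Finset.sum_congr rfl (fun i _ => h2 i), ← Finset.mul_sum, ← normsq_eq_sum]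
    have hn := h6_nsq hx
    field_simp
  rw [h1]
  unfold kel
  rw [h6_wt hd hx]
  unfold h6p
  ring

/-- the gradient of the Kelvin transform in general: with `y = inv x`,
`∂ₖ (kel f) x = |x|^{-d} (∂ₖ f (y) - yₖ |y|^{-2} (2 E f y + (d - 2) f y))` -/
theorem pd_kel (hd : 2 ≤ d) {x : EE d} (hx : x ≠ 0) (hf : DifferentiableAt ℝ f (inv x))
    (k : Fin d) : pd k (kel f) x = (‖x‖ ^ d)⁻¹ *
      (pd k f (inv x) - inv x k * ‖x‖ ^ 2 *
        (2 * eul f (inv x) + ((d : ℝ) - 2) * f (inv x))) := by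
  rw [(pd_congr (h6_kel_eq hd f hx) k).self_of_nhds,
    pd_mul (h6_rpow_diff (h6p d) hx) (h6_star_diff hx hf), h6_star hx hf, h6_pd_rpow _ hx,
    h6_rpow_sub_one _ hx, ← h6_wt hd hx]
  have h := norm_pos_iff.mpr hx
  have h1 : ‖x‖ ^ d = ‖x‖ ^ (d - 2) * ‖x‖ ^ 2 := by
    rw [← pow_add, Nat.sub_add_cancel hd]
  have h2 : inv x k = (‖x‖ ^ 2)⁻¹ * x k := rfl
  have hn := h6_nsq hx
  have hW : ‖x‖ ^ (d - 2) ≠ 0 := pow_ne_zero _ h.ne'
  rw [h1, h2]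
  unfold h6p
  field_simp
  ring

/-- the gradient of the Kelvin transform on the unit sphere -/
theorem pd_kel_sphere (hd : 2 ≤ d) {x : EE d} (hx : ‖x‖ = 1) (hf : DifferentiableAt ℝ f x)
    (k : Fin d) : pd k (kel f) x = pd k f x - x k * (2 * eul f x + ((d : ℝ) - 2) * f x) := by
  have hx0 : x ≠ 0 := by
    intro h
    rw [h, norm_zero] at hx
    exact zero_ne_one hx
  have hi := inv_of_norm_one hx
  have hf' : DifferentiableAt ℝ f (inv x) := by rw [hi]; exact hf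
  rw [pd_kel hd hx0 hf' k, hi, hx]
  ring

/-- components of a field with `x · T = 0` and `∇ · T = 0`: the same holds for the Kelvin
transforms -/
theorem kel_tor (hd : 2 ≤ d) (hA : IsOpen A) {T : Fin d → EE d → ℝ} (hT : ∀ k, Hm A (T k))
    (hx : ∀ x ∈ A, ∑ k, x k * T k x = 0) (hdiv : ∀ x ∈ A, dv T x = 0) :
    (∀ x ∈ RS A, ∑ k, x k * kel (T k) x = 0) ∧ ∀ x ∈ RS A, dv (fun k => kel (T k)) x = 0 := by
  have hxc : ∀ (x : EE d), x ≠ 0 → ∀ k, x k = ‖x‖ ^ 2 * inv x k := by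
    intro x hx0 k
    have h2 : inv x k = (‖x‖ ^ 2)⁻¹ * x k := rfl
    have hn := h6_nsq hx0
    rw [h2]
    field_simp
  constructor
  · intro x hxR
    have h1 : ∀ k, x k * kel (T k) x =
        (‖x‖ ^ 2 * (‖x‖ ^ (d - 2))⁻¹) * (inv x k * T k (inv x)) := by
      intro k
      unfold kel
      rw [hxc x hxR.1 k]
      ring
    rw [Finset.sum_congr rfl (fun k _ => h1 k), ← Finset.mul_sum, hx _ hxR.2, mul_zero]
  · intro x hxR
    have hy := hxR.2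
    have hTd : ∀ k, DifferentiableAt ℝ (T k) (inv x) := fun k => hm_diffAt (hT k) hA hy
    have hcoord : ∀ k : Fin d, DifferentiableAt ℝ (fun y : EE d => y k) (inv x) := fun k =>
      hm_diffAt (hm_coord univ k) isOpen_univ (mem_univ _)
    have h0 : ∑ k, inv x k * T k (inv x) = 0 := hx _ hy
    have hE : ∑ k, inv x k * eul (T k) (inv x) = 0 := by
      have h1 : (fun y => ∑ k, y k * T k y) =ᶠ[𝓝 (inv x)] fun _ => 0 := by
        filter_upwards [hA.mem_nhds hy] with y hy'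
        exact hx y hy'
      have h2 : eul (fun y => ∑ k, y k * T k y) (inv x) = 0 := by
        rw [(eul_congr h1).self_of_nhds]
        unfold eul
        simp
      have h3 : eul (fun y => ∑ k, y k * T k y) (inv x) =
          ∑ k, (inv x k * eul (T k) (inv x) + T k (inv x) * inv x k) := by
        have h4 : fderiv ℝ (fun y : EE d => ∑ k, y k * T k y) (inv x) =
            ∑ k, fderiv ℝ (fun y : EE d => y k * T k y) (inv x) :=
          fderiv_fun_sum (fun k _ => (hcoord k).mul (hTd k))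
        show fderiv ℝ (fun y : EE d => ∑ k, y k * T k y) (inv x) (inv x) = _
        rw [h4, sum_apply]
        refine Finset.sum_congr rfl (fun k _ => ?_)
        have h5 := eul_mul (hcoord k) (hTd k)
        rw [eul_coord] at h5
        exact h5
      rw [h3, Finset.sum_add_distrib] at h2
      have h6 : ∑ k, T k (inv x) * inv x k = 0 := by
        rw [← h0]
        exact Finset.sum_congr rfl (fun k _ => mul_comm _ _)
      rw [h6, add_zero] at h2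
      exact h2
    have hD : ∑ k, pd k (T k) (inv x) = 0 := hdiv _ hy
    show ∑ k, pd k (kel (T k)) x = 0
    have h1 : ∀ k, pd k (kel (T k)) x =
        (‖x‖ ^ d)⁻¹ * pd k (T k) (inv x) +
        (-((‖x‖ ^ d)⁻¹ * ‖x‖ ^ 2 * 2)) * (inv x k * eul (T k) (inv x)) +
        (-((‖x‖ ^ d)⁻¹ * ‖x‖ ^ 2 * ((d : ℝ) - 2))) * (inv x k * T k (inv x)) := by
      intro k
      rw [pd_kel hd hxR.1 (hTd k) k]
      ring
    rw [Finset.sum_congr rfl (fun k _ => h1 k), Finset.sum_add_distrib, Finset.sum_add_distrib,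
      ← Finset.mul_sum, ← Finset.mul_sum, ← Finset.mul_sum, hD, hE, h0]
    ring

private theorem h6_abs_coord (x : EE d) (k : Fin d) : |x k| ≤ ‖x‖ := by
  have h := PiLp.norm_apply_le x k
  rwa [Real.norm_eq_abs] at h

/-- decay of the Kelvin transform -/
theorem kel_decay (hd : 2 ≤ d) {m : ℕ} (hf : VanO m f) :
    ∃ C R : ℝ, 0 < R ∧ ∀ x : EE d, R < ‖x‖ → |kel f x| ≤ C * (‖x‖ ^ (d - 2 + m))⁻¹ := by
  obtain ⟨C, δ, hδ, hb⟩ := hf
  refine ⟨C, δ⁻¹, inv_pos.mpr hδ, fun x hx => ?_⟩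
  have hx1 : 0 < ‖x‖ := lt_trans (inv_pos.mpr hδ) hx
  have hx0 : x ≠ 0 := norm_pos_iff.mp hx1
  have h1 : ‖inv x‖ < δ := by
    rw [norm_inv' hx0]
    exact inv_lt_of_inv_lt₀ hδ hx
  have h2 := hb _ h1
  rw [norm_inv' hx0, Real.norm_eq_abs] at h2
  unfold kel
  rw [abs_mul, abs_of_nonneg (inv_nonneg.mpr (pow_nonneg hx1.le _))]
  calc (‖x‖ ^ (d - 2))⁻¹ * |f (inv x)| ≤ (‖x‖ ^ (d - 2))⁻¹ * (C * ‖x‖⁻¹ ^ m) :=
        mul_le_mul_of_nonneg_left h2 (inv_nonneg.mpr (pow_nonneg hx1.le _))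
    _ = C * (‖x‖ ^ (d - 2 + m))⁻¹ := by
        rw [pow_add, mul_inv, inv_pow]
        ring

/-- decay of the gradient of the Kelvin transform, for `f` smooth and harmonic near `0` -/
theorem pd_kel_decay (hd : 2 ≤ d) {m : ℕ} (hm : 1 ≤ m) (hf : VanO m f)
    (hf' : ∀ i, VanO (m - 1) (pd i f)) (hdiff : ∀ᶠ x in 𝓝 (0 : EE d), DifferentiableAt ℝ f x)
    (k : Fin d) :
    ∃ C R : ℝ, 0 < R ∧ ∀ x : EE d, R < ‖x‖ → |pd k (kel f) x| ≤ C * (‖x‖ ^ (d - 1 + m))⁻¹ := by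
  obtain ⟨C0, δ0, hδ0, hb0⟩ := hf
  choose C1 δ1 hδ1 hb1 using hf'
  obtain ⟨δ2, hδ2, hb2⟩ := Metric.eventually_nhds_iff.mp hdiff
  -- a common radius
  obtain ⟨δ3, hδ3, hle3⟩ : ∃ δ3 : ℝ, 0 < δ3 ∧ ∀ i, δ3 ≤ δ1 i := by
    have hne : (Finset.univ : Finset (Fin d)).Nonempty := ⟨k, Finset.mem_univ k⟩
    refine ⟨Finset.univ.inf' hne δ1, ?_, fun i => Finset.inf'_le _ (Finset.mem_univ i)⟩
    rw [Finset.lt_inf'_iff]
    exact fun i _ => hδ1 i
  set δ := min δ0 (min δ2 δ3) with hδdef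
  have hδ : 0 < δ := lt_min hδ0 (lt_min hδ2 hδ3)
  refine ⟨C1 k + (2 * ∑ i, C1 i + ((d : ℝ) - 2) * C0), δ⁻¹, inv_pos.mpr hδ, fun x hx => ?_⟩
  have hx1 : 0 < ‖x‖ := lt_trans (inv_pos.mpr hδ) hx
  have hx0 : x ≠ 0 := norm_pos_iff.mp hx1
  have h1 : ‖inv x‖ < δ := by
    rw [norm_inv' hx0]
    exact inv_lt_of_inv_lt₀ hδ hx
  have hy1 : ‖inv x‖ = ‖x‖⁻¹ := norm_inv' hx0
  set y := inv x with hydef
  have hypos : 0 < ‖y‖ := by rw [hy1]; exact inv_pos.mpr hx1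
  have a0 : |f y| ≤ C0 * ‖y‖ ^ m := by
    have := hb0 y (lt_of_lt_of_le h1 (min_le_left _ _))
    rwa [Real.norm_eq_abs] at this
  have a1 : ∀ i, |pd i f y| ≤ C1 i * ‖y‖ ^ (m - 1) := by
    intro i
    have := hb1 i y (lt_of_lt_of_le h1 (le_trans (min_le_right _ _)
      (le_trans (min_le_right _ _) (hle3 i))))
    rwa [Real.norm_eq_abs] at this
  have a2 : DifferentiableAt ℝ f y := by
    refine hb2 ?_
    rw [dist_zero_right]
    exact lt_of_lt_of_le h1 (le_trans (min_le_right _ _) (min_le_left _ _))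
  have hpm : ‖y‖ * ‖y‖ ^ (m - 1) = ‖y‖ ^ m := by
    rw [← pow_succ', Nat.sub_add_cancel hm]
  have a3 : |eul f y| ≤ (∑ i, C1 i) * ‖y‖ ^ m := by
    rw [eul_eq_sum, Finset.sum_mul]
    refine le_trans (Finset.abs_sum_le_sum_abs _ _) (Finset.sum_le_sum fun i _ => ?_)
    rw [abs_mul]
    calc |y i| * |pd i f y| ≤ ‖y‖ * (C1 i * ‖y‖ ^ (m - 1)) :=
          mul_le_mul (h6_abs_coord y i) (a1 i) (abs_nonneg _) (norm_nonneg _)
      _ = C1 i * (‖y‖ * ‖y‖ ^ (m - 1)) := by ring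
      _ = C1 i * ‖y‖ ^ m := by rw [hpm]
  have hd2 : (0 : ℝ) ≤ (d : ℝ) - 2 := by
    have : (2 : ℝ) ≤ d := by exact_mod_cast hd
    linarith
  have a4 : |2 * eul f y + ((d : ℝ) - 2) * f y| ≤
      (2 * ∑ i, C1 i + ((d : ℝ) - 2) * C0) * ‖y‖ ^ m := by
    calc |2 * eul f y + ((d : ℝ) - 2) * f y| ≤ |2 * eul f y| + |((d : ℝ) - 2) * f y| :=
          abs_add_le _ _
      _ = 2 * |eul f y| + ((d : ℝ) - 2) * |f y| := by
          rw [abs_mul, abs_mul, abs_of_nonneg hd2, abs_of_pos (by norm_num : (0 : ℝ) < 2)]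
      _ ≤ 2 * ((∑ i, C1 i) * ‖y‖ ^ m) + ((d : ℝ) - 2) * (C0 * ‖y‖ ^ m) :=
          add_le_add (mul_le_mul_of_nonneg_left a3 (by norm_num))
            (mul_le_mul_of_nonneg_left a0 hd2)
      _ = _ := by ring
  rw [pd_kel hd hx0 a2 k, abs_mul, abs_of_nonneg (inv_nonneg.mpr (pow_nonneg hx1.le _))]
  have hxy : ‖x‖ * ‖y‖ = 1 := by rw [hy1]; exact mul_inv_cancel₀ hx1.ne'
  have a5 : |y k * ‖x‖ ^ 2 * (2 * eul f y + ((d : ℝ) - 2) * f y)| ≤
      (2 * ∑ i, C1 i + ((d : ℝ) - 2) * C0) * ‖y‖ ^ (m - 1) := by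
    rw [abs_mul, abs_mul, abs_of_nonneg (pow_nonneg hx1.le 2)]
    have b1 : |y k| * ‖x‖ ^ 2 ≤ ‖x‖ := by
      calc |y k| * ‖x‖ ^ 2 ≤ ‖y‖ * ‖x‖ ^ 2 :=
            mul_le_mul_of_nonneg_right (h6_abs_coord y k) (pow_nonneg hx1.le 2)
        _ = ‖x‖ * (‖x‖ * ‖y‖) := by ring
        _ = ‖x‖ := by rw [hxy, mul_one]
    calc |y k| * ‖x‖ ^ 2 * |2 * eul f y + ((d : ℝ) - 2) * f y|
        ≤ ‖x‖ * ((2 * ∑ i, C1 i + ((d : ℝ) - 2) * C0) * ‖y‖ ^ m) :=
          mul_le_mul b1 a4 (abs_nonneg _) hx1.le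
      _ = (2 * ∑ i, C1 i + ((d : ℝ) - 2) * C0) * ((‖x‖ * ‖y‖) * ‖y‖ ^ (m - 1)) := by
          rw [← hpm]; ring
      _ = _ := by rw [hxy, one_mul]
  have a6 : |pd k f y - y k * ‖x‖ ^ 2 * (2 * eul f y + ((d : ℝ) - 2) * f y)| ≤
      (C1 k + (2 * ∑ i, C1 i + ((d : ℝ) - 2) * C0)) * ‖y‖ ^ (m - 1) := by
    calc |pd k f y - y k * ‖x‖ ^ 2 * (2 * eul f y + ((d : ℝ) - 2) * f y)|
        ≤ |pd k f y| + |y k * ‖x‖ ^ 2 * (2 * eul f y + ((d : ℝ) - 2) * f y)| := abs_sub _ _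
      _ ≤ C1 k * ‖y‖ ^ (m - 1) + (2 * ∑ i, C1 i + ((d : ℝ) - 2) * C0) * ‖y‖ ^ (m - 1) :=
          add_le_add (a1 k) a5
      _ = _ := by ring
  calc (‖x‖ ^ d)⁻¹ * |pd k f y - y k * ‖x‖ ^ 2 * (2 * eul f y + ((d : ℝ) - 2) * f y)|
      ≤ (‖x‖ ^ d)⁻¹ * ((C1 k + (2 * ∑ i, C1 i + ((d : ℝ) - 2) * C0)) * ‖y‖ ^ (m - 1)) :=
        mul_le_mul_of_nonneg_left a6 (inv_nonneg.mpr (pow_nonneg hx1.le _))
    _ = (C1 k + (2 * ∑ i, C1 i + ((d : ℝ) - 2) * C0)) * (‖x‖ ^ (d - 1 + m))⁻¹ := by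
        have e1 : d - 1 + m = d + (m - 1) := by omega
        rw [e1, pow_add, mul_inv, hy1, inv_pow]
        ring

/-- the preimage in the inversion: complement of a compact set -/
theorem compl_inv_isOpen {K : Set (EE d)} (hK : IsCompact K) (h0 : (0 : EE d) ∈ K) :
    IsOpen {x : EE d | x = 0 ∨ inv x ∉ K} := by
  obtain ⟨R, hR⟩ := hK.isBounded.subset_closedBall (0 : EE d)
  set R' := max R 1 with hR'
  have hRpos : 0 < R' := lt_of_lt_of_le one_pos (le_max_right _ _)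
  have h1 : {x : EE d | x = 0 ∨ inv x ∉ K} = RS Kᶜ ∪ ball (0 : EE d) R'⁻¹ := by
    ext x
    simp only [mem_ofPred_eq, mem_union, mem_ball, dist_zero_right]
    constructor
    · intro h
      by_cases hx : x = 0
      · right
        rw [hx, norm_zero]
        exact inv_pos.mpr hRpos
      · left
        rcases h with h | h
        · exact absurd h hx
        · exact ⟨hx, h⟩
    · intro h
      rcases h with h | h
      · exact Or.inr h.2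
      · by_cases hx : x = 0
        · exact Or.inl hx
        · right
          intro hmem
          have h2 := hR hmem
          rw [mem_closedBall, dist_zero_right, norm_inv' hx] at h2
          have h3 : R' < ‖x‖⁻¹ := (lt_inv_comm₀ hRpos (norm_pos_iff.mpr hx)).mpr h
          exact absurd (lt_of_lt_of_le h3 (le_trans h2 (le_max_left _ _))) (lt_irrefl _)
  rw [h1]
  exact (isOpen_RS hK.isClosed.isOpen_compl).union isOpen_ball

end Pool.Agent.MP_0643f8_an.U
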