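import Mathlib
import Pool.Agent.Lib.MP_0643f8_an.U.E0_PE
import Pool.Agent.Lib.MP_0643f8_an.U.H06_Kelvin

/-!
# Polynomials in the Euler operator and the Kelvin transform, complexification
-/

set_option autoImplicit false

open MeasureTheory Metric Set Filter Topology Polynomial
open scoped ContDiff

namespace Pool.Agent.MP_0643f8_an.U

variable {d : ℕ} {A : Set (EE d)}

private theorem pE_monomial' {𝕜 : Type*} [NontriviallyNormedField 𝕜] [NormedAlgebra ℝ 𝕜]
    (n : ℕ) (a : 𝕜) (f : EE d → 𝕜) (x : EE d) :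
    pE (monomial n a) f x = a * ((eul : (EE d → 𝕜) → EE d → 𝕜)^[n] f) x := by
  unfold pE
  rw [Polynomial.sum_monomial_index]
  simp

private theorem eul_iter_congr {𝕜 : Type*} [NontriviallyNormedField 𝕜] [NormedAlgebra ℝ 𝕜]
    {f g : EE d → 𝕜} {x : EE d} (h : f =ᶠ[𝓝 x] g) (n : ℕ) :
    (eul : (EE d → 𝕜) → EE d → 𝕜)^[n] f =ᶠ[𝓝 x] (eul : (EE d → 𝕜) → EE d → 𝕜)^[n] g := by
  induction n with
  | zero => simpa using h
  | succ n ih =>
    rw [Function.iterate_succ_apply', Function.iterate_succ_apply']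
    exact eulF_congr ih

private theorem eul_iter_contDiffOn {𝕜 : Type*} [NontriviallyNormedField 𝕜] [NormedAlgebra ℝ 𝕜]
    (hA : IsOpen A) {f : EE d → 𝕜} (hf : ContDiffOn ℝ ∞ f A) (n : ℕ) :
    ContDiffOn ℝ ∞ ((eul : (EE d → 𝕜) → EE d → 𝕜)^[n] f) A := by
  induction n with
  | zero => simpa using hf
  | succ n ih =>
    rw [Function.iterate_succ_apply']
    exact eulF_contDiffOn hA ih

private theorem eul_clm {𝕜 𝕜' : Type*} [NontriviallyNormedField 𝕜] [NormedAlgebra ℝ 𝕜]
    [NontriviallyNormedField 𝕜'] [NormedAlgebra ℝ 𝕜'] (L : 𝕜 →L[ℝ] 𝕜')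
    {f : EE d → 𝕜} {x : EE d} (hf : DifferentiableAt ℝ f x) :
    eul (fun y => L (f y)) x = L (eul f x) := by
  unfold eul
  have h : HasFDerivAt (fun y => L (f y)) (L.comp (fderiv ℝ f x)) x :=
    L.hasFDerivAt.comp x hf.hasFDerivAt
  rw [h.fderiv]
  rfl

private theorem eul_iter_clm {𝕜 𝕜' : Type*} [NontriviallyNormedField 𝕜] [NormedAlgebra ℝ 𝕜]
    [NontriviallyNormedField 𝕜'] [NormedAlgebra ℝ 𝕜'] (L : 𝕜 →L[ℝ] 𝕜') (hA : IsOpen A)
    {f : EE d → 𝕜} (hf : ContDiffOn ℝ ∞ f A) (n : ℕ) :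
    ∀ x ∈ A, ((eul : (EE d → 𝕜') → EE d → 𝕜')^[n] (fun y => L (f y))) x =
      L (((eul : (EE d → 𝕜) → EE d → 𝕜)^[n] f) x) := by
  induction n with
  | zero => intro x _; rfl
  | succ n ih =>
    intro x hx
    rw [Function.iterate_succ_apply', Function.iterate_succ_apply']
    have h1 : ((eul : (EE d → 𝕜') → EE d → 𝕜')^[n] (fun y => L (f y))) =ᶠ[𝓝 x]
        (fun y => L (((eul : (EE d → 𝕜) → EE d → 𝕜)^[n] f) y)) := by
      filter_upwards [hA.mem_nhds hx] with y hy
      exact ih y hy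
    rw [(eulF_congr h1).self_of_nhds]
    apply eul_clm
    exact ((eul_iter_contDiffOn hA hf n).contDiffAt (hA.mem_nhds hx)).differentiableAt
      (by simp)

/-- `P(E) (kel f) = kel (P(-E-(d-2)) f)`, by `eul_kel` and induction on `P` -/
theorem pE_kel (hd : 2 ≤ d) (hA : IsOpen A) {f : EE d → ℝ} (hf : Hm A f) (P : ℝ[X])
    {x : EE d} (hx : x ∈ RS A) :
    pE P (kel f) x = kel (pE (P.comp (-X - C ((d : ℝ) - 2))) f) x := by
  set Q : ℝ[X] := -X - C ((d : ℝ) - 2) with hQ
  have hQf : ∀ (g : EE d → ℝ) (y : EE d), pE Q g y = -(eul g y + ((d : ℝ) - 2) * g y) := by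
    intro g y
    rw [hQ, pE_sub_left, pE_neg_left, pE_X, pE_C]
    ring
  have hRS : IsOpen (RS A) := isOpen_RS hA
  have hkey : ∀ n : ℕ, ∀ g : EE d → ℝ, Hm A g → ∀ z ∈ RS A,
      ((eul : (EE d → ℝ) → EE d → ℝ)^[n] (kel g)) z = kel (pE (Q ^ n) g) z := by
    intro n
    induction n with
    | zero =>
      intro g _ z _
      simp only [Function.iterate_zero, id_eq, pow_zero]
      unfold kel
      rw [pE_one]
    | succ n ih =>
      intro g hg z hz
      rw [Function.iterate_succ_apply]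
      have hQg : Hm A (pE Q g) := hm_pE hA hg Q
      have h1 : eul (kel g) =ᶠ[𝓝 z] kel (pE Q g) := by
        filter_upwards [hRS.mem_nhds hz] with w hw
        rw [eul_kel hd hw.1 (hm_diffAt hg hA hw.2)]
        unfold kel
        rw [hQf]
        ring
      rw [(eul_iter_congr h1 n).self_of_nhds, ih (pE Q g) hQg z hz]
      unfold kel
      rw [← pE_mul hA hg.1 (Q ^ n) Q hz.2, pow_succ]
  induction P using Polynomial.induction_on' with
  | add p q hp hq =>
    rw [pE_add_left, hp, hq, Polynomial.add_comp]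
    unfold kel
    rw [pE_add_left]
    ring
  | monomial n a =>
    rw [pE_monomial', hkey n f hf x hx, Polynomial.monomial_comp]
    unfold kel
    rw [pE_C_mul]
    ring

/-- complexification of a real function -/
theorem pE_ofReal (hA : IsOpen A) {f : EE d → ℝ} (hf : ContDiffOn ℝ ∞ f A) (P : ℝ[X])
    {x : EE d} (hx : x ∈ A) :
    pE (P.map (algebraMap ℝ ℂ)) (fun y => (f y : ℂ)) x = ((pE P f x : ℝ) : ℂ) := by
  induction P using Polynomial.induction_on' with
  | add p q hp hq =>
    rw [Polynomial.map_add, pE_add_left, hp, hq, pE_add_left]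
    push_cast
    rfl
  | monomial n a =>
    rw [Polynomial.map_monomial, pE_monomial', pE_monomial']
    have h := eul_iter_clm Complex.ofRealCLM hA hf n x hx
    simp only [Complex.ofRealCLM_apply] at h
    rw [h]
    simp

/-- real parts -/
theorem pE_re (hA : IsOpen A) {f : EE d → ℂ} (hf : ContDiffOn ℝ ∞ f A) (P : ℝ[X])
    {x : EE d} (hx : x ∈ A) :
    (pE (P.map (algebraMap ℝ ℂ)) f x).re = pE P (fun y => (f y).re) x := by
  induction P using Polynomial.induction_on' with
  | add p q hp hq =>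
    rw [Polynomial.map_add, pE_add_left, Complex.add_re, hp, hq, pE_add_left]
  | monomial n a =>
    rw [Polynomial.map_monomial, pE_monomial', pE_monomial']
    have h := eul_iter_clm Complex.reCLM hA hf n x hx
    simp only [Complex.reCLM_apply] at h
    rw [h]
    simp

/-- a complex function whose real and imaginary parts are harmonic -/
def HC (A : Set (EE d)) (f : EE d → ℂ) : Prop :=
  Hm A (fun x => (f x).re) ∧ Hm A (fun x => (f x).im)

theorem hc_contDiffOn {f : EE d → ℂ} (hf : HC A f) : ContDiffOn ℝ ∞ f A := by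
  have h1 : ContDiffOn ℝ ∞ (fun x => ((f x).re : ℂ)) A :=
    Complex.ofRealCLM.contDiff.comp_contDiffOn hf.1.1
  have h2 : ContDiffOn ℝ ∞ (fun x => ((f x).im : ℂ)) A :=
    Complex.ofRealCLM.contDiff.comp_contDiffOn hf.2.1
  have h3 : f = fun x => ((f x).re : ℂ) + ((f x).im : ℂ) * Complex.I := by
    funext x
    exact (Complex.re_add_im (f x)).symm
  rw [h3]
  exact h1.add (h2.mul contDiffOn_const)

theorem hc_cmul (hA : IsOpen A) {f : EE d → ℂ} (hf : HC A f) (c : ℂ) :
    HC A (fun x => c * f x) := by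
  constructor
  · refine hm_congr (hm_sub hA (hm_cmul hA hf.1 c.re) (hm_cmul hA hf.2 c.im)) hA
      (fun x _ => ?_)
    simp [Complex.mul_re]
  · refine hm_congr (hm_add hA (hm_cmul hA hf.2 c.re) (hm_cmul hA hf.1 c.im)) hA
      (fun x _ => ?_)
    simp [Complex.mul_im]

private theorem hc_eul_iter (hA : IsOpen A) {f : EE d → ℂ} (hf : HC A f) (n : ℕ) :
    HC A ((eul : (EE d → ℂ) → EE d → ℂ)^[n] f) := by
  have hreal : ∀ g : EE d → ℝ, Hm A g → Hm A ((eul : (EE d → ℝ) → EE d → ℝ)^[n] g) := by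
    intro g hg
    induction n with
    | zero => simpa using hg
    | succ n ih =>
      rw [Function.iterate_succ_apply']
      exact hm_eul hA ih
  constructor
  · refine hm_congr (hreal _ hf.1) hA (fun x hx => ?_)
    exact (eul_iter_clm Complex.reCLM hA (hc_contDiffOn hf) n x hx).symm
  · refine hm_congr (hreal _ hf.2) hA (fun x hx => ?_)
    exact (eul_iter_clm Complex.imCLM hA (hc_contDiffOn hf) n x hx).symm

theorem hc_pE (hA : IsOpen A) {f : EE d → ℂ} (hf : HC A f) (P : ℂ[X]) : HC A (pE P f) := by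
  induction P using Polynomial.induction_on' with
  | add p q hp hq =>
    constructor
    · refine hm_congr (hm_add hA hp.1 hq.1) hA (fun x _ => ?_)
      rw [pE_add_left, Complex.add_re]
    · refine hm_congr (hm_add hA hp.2 hq.2) hA (fun x _ => ?_)
      rw [pE_add_left, Complex.add_im]
  | monomial n a =>
    have h := hc_cmul hA (hc_eul_iter hA hf n) a
    constructor
    · refine hm_congr h.1 hA (fun x _ => ?_)
      rw [pE_monomial']
    · refine hm_congr h.2 hA (fun x _ => ?_)
      rw [pE_monomial']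

theorem hc_sub (hA : IsOpen A) {f g : EE d → ℂ} (hf : HC A f) (hg : HC A g) :
    HC A (fun x => f x - g x) := by
  constructor
  · refine hm_congr (hm_sub hA hf.1 hg.1) hA (fun x _ => ?_)
    rw [Complex.sub_re]
  · refine hm_congr (hm_sub hA hf.2 hg.2) hA (fun x _ => ?_)
    rw [Complex.sub_im]

theorem hc_ofReal {f : EE d → ℝ} (hf : Hm A f) : HC A (fun x => (f x : ℂ)) := by
  constructor
  · have : (fun x => ((f x : ℂ)).re) = f := by funext x; exact Complex.ofReal_re _
    rw [this]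
    exact hf
  · have : (fun x => ((f x : ℂ)).im) = fun _ => (0 : ℝ) := by
      funext x; exact Complex.ofReal_im _
    rw [this]
    exact hm_const A 0

end Pool.Agent.MP_0643f8_an.U
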