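import Mathlib
import Pool.Agent.Lib.MP_0643f8_an.U.Base

/-!
# Uniqueness for `E f = r f`

Along the ray through `x ∈ A`, `φ(t) = f (t x)`, `0 < t ≤ 1`, satisfies `t φ'(t) = r φ(t)`, so
`t^{-r} φ(t)` is constant; it tends to `0` for `t → 0` because `|φ(t)| ≤ C t^m |x|^m` and
`r.re < m`.
-/

set_option autoImplicit false

open MeasureTheory Metric Set Filter Topology
open scoped ContDiff

namespace Pool.Agent.MP_0643f8_an.U

variable {d : ℕ}

theorem ray_zero {A : Set (EE d)} (hA : StarO A) {f : EE d → ℂ}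
    (hf : ∀ x ∈ A, DifferentiableAt ℝ f x) (r : ℂ) {m : ℕ} (hr : r.re < m)
    (hm : VanO m f) (h : ∀ x ∈ A, eul f x = r * f x) : ∀ x ∈ A, f x = 0 := by
  intro x hx
  obtain ⟨C, δ, hδ, hC⟩ := hm
  have hray : ∀ t : ℝ, 0 < t → t ≤ 1 → t • x ∈ A := fun t h0 h1 => hA.2.2 x hx t h0.le h1
  set ψ : ℝ → ℂ := fun t => ((t : ℂ)) ^ (-r) * f (t • x) with hψ
  have hder : ∀ t : ℝ, 0 < t → t ≤ 1 → HasDerivAt ψ 0 t := by
    intro t h0 h1
    have ht : (t : ℂ) ≠ 0 := by exact_mod_cast h0.ne'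
    have e1 : HasDerivAt (fun y : ℝ => ((y : ℂ)) ^ (-r)) ((-r) * (t : ℂ) ^ (-r - 1)) t := by
      have := ((hasDerivAt_id (t : ℂ)).cpow_const (c := -r)
        (Complex.ofReal_mem_slitPlane.2 h0)).comp_ofReal
      simpa using this
    have e2 : HasDerivAt (fun y : ℝ => f (y • x)) (fderiv ℝ f (t • x) x) t := by
      have e3 : HasDerivAt (fun y : ℝ => y • x) x t := by
        simpa using (hasDerivAt_id t).smul_const x
      exact (hf _ (hray t h0 h1)).hasFDerivAt.comp_hasDerivAt t e3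
    have e4 : fderiv ℝ f (t • x) x = (t : ℂ)⁻¹ * (r * f (t • x)) := by
      have e5 := h _ (hray t h0 h1)
      unfold eul at e5
      rw [map_smul, Complex.real_smul] at e5
      rw [← e5, ← mul_assoc, inv_mul_cancel₀ ht, one_mul]
    have e6 := e1.mul e2
    have e7 : (-r) * (t : ℂ) ^ (-r - 1) * f (t • x) + (t : ℂ) ^ (-r) * (fderiv ℝ f (t • x) x) = 0 := by
      rw [e4, Complex.cpow_sub _ _ ht, Complex.cpow_one]
      field_simp
      ring
    rw [e7] at e6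
    exact e6
  have hconst : ∀ s : ℝ, 0 < s → s ≤ 1 → ψ 1 = ψ s := by
    intro s h0 h1
    refine constant_of_has_deriv_right_zero (f := ψ) (a := s) (b := 1) ?_ ?_ 1 ⟨h1, le_rfl⟩
    · intro t ht
      exact (hder t (h0.trans_le ht.1) ht.2).continuousAt.continuousWithinAt
    · intro t ht
      exact (hder t (h0.trans_le ht.1) ht.2.le).hasDerivWithinAt
  have hψ1 : ψ 1 = f x := by simp [hψ]
  have hlim : Tendsto (fun s : ℝ => C * ‖x‖ ^ m * s ^ ((m : ℝ) - r.re)) (𝓝[>] 0)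
      (𝓝 (C * ‖x‖ ^ m * 0)) := by
    apply Tendsto.const_mul
    have hpos : 0 < (m : ℝ) - r.re := by linarith
    have := (Real.continuousAt_rpow_const 0 ((m : ℝ) - r.re) (Or.inr hpos.le)).tendsto
    rw [Real.zero_rpow hpos.ne'] at this
    exact this.mono_left nhdsWithin_le_nhds
  rw [mul_zero] at hlim
  have hbd : ∀ᶠ s : ℝ in 𝓝[>] 0, ‖f x‖ ≤ C * ‖x‖ ^ m * s ^ ((m : ℝ) - r.re) := by
    have h1 : ∀ᶠ s : ℝ in 𝓝[>] 0, s < 1 := nhdsWithin_le_nhds (eventually_lt_nhds one_pos)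
    have h2 : ∀ᶠ s : ℝ in 𝓝[>] 0, s * ‖x‖ < δ := by
      have : Tendsto (fun s : ℝ => s * ‖x‖) (𝓝[>] 0) (𝓝 (0 * ‖x‖)) :=
        ((continuous_id.mul continuous_const).tendsto 0).mono_left nhdsWithin_le_nhds
      rw [zero_mul] at this
      exact this.eventually (eventually_lt_nhds hδ)
    filter_upwards [self_mem_nhdsWithin, h1, h2] with s hs0 hs1 hs2
    rw [mem_Ioi] at hs0
    rw [← hψ1, hconst s hs0 hs1.le, hψ]
    have hn : ‖s • x‖ = s * ‖x‖ := by rw [norm_smul, Real.norm_of_nonneg hs0.le]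
    have hb := hC (s • x) (by rw [hn]; exact hs2)
    rw [norm_mul, Complex.norm_cpow_eq_rpow_re_of_pos hs0]
    rw [hn, mul_pow] at hb
    calc s ^ (-r).re * ‖f (s • x)‖ ≤ s ^ (-r).re * (C * (s ^ m * ‖x‖ ^ m)) :=
          mul_le_mul_of_nonneg_left hb (Real.rpow_nonneg hs0.le _)
      _ = C * ‖x‖ ^ m * (s ^ (m : ℝ) * s ^ (-r).re) := by
          rw [Real.rpow_natCast]; ring
      _ = C * ‖x‖ ^ m * s ^ ((m : ℝ) - r.re) := by
          rw [← Real.rpow_add hs0, Complex.neg_re, sub_eq_add_neg]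
  have := ge_of_tendsto hlim hbd
  exact norm_le_zero_iff.1 this

theorem ray_zero_real {A : Set (EE d)} (hA : StarO A) {f : EE d → ℝ}
    (hf : ∀ x ∈ A, DifferentiableAt ℝ f x) (r : ℝ) {m : ℕ} (hr : r < m)
    (hm : VanO m f) (h : ∀ x ∈ A, eul f x = r * f x) : ∀ x ∈ A, f x = 0 := by
  have hfd : ∀ x ∈ A, HasFDerivAt (fun y => ((f y : ℝ) : ℂ))
      (Complex.ofRealCLM.comp (fderiv ℝ f x)) x := by
    intro x hx
    exact Complex.ofRealCLM.hasFDerivAt.comp x (hf x hx).hasFDerivAt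
  have hmain := ray_zero hA (f := fun y => ((f y : ℝ) : ℂ))
    (fun x hx => (hfd x hx).differentiableAt) (r : ℂ) (m := m) (by simpa using hr) ?_ ?_
  · intro x hx
    exact_mod_cast hmain x hx
  · obtain ⟨C, δ, hδ, hC⟩ := hm
    refine ⟨C, δ, hδ, fun x hx => ?_⟩
    rw [Complex.norm_real]
    exact hC x hx
  · intro x hx
    unfold eul
    rw [(hfd x hx).fderiv]
    have := h x hx
    unfold eul at this
    simp only [ContinuousLinearMap.comp_apply, Complex.ofRealCLM_apply]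
    rw [this]
    push_cast
    ring

end Pool.Agent.MP_0643f8_an.U
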