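import Mathlib
import Pool.Agent.Lib.MP_0643f8_an.U.H02_Basic
import Pool.Agent.Lib.MP_47b33c_an.HLim

/-!
# Mathlib's harmonic functions are smooth

`HarmonicOnNhd` asks for `C²` and `Δ f = 0`. The mean value property of
`Pool.Agent.Lib.MP_47b33c_an.mvp` (weights `wt k y = (max 0 (1 - |y|²))^k`, any `k ≥ 1`)
writes `f`, near each point `x₀` of the open set `A`, as `f x = S⁻¹ ∫ f (x + r y) wt k y dy`
`= S⁻¹ r^{-d} ∫ f z * wt k ((z - x)/r) dz` with `S = ∫ wt k > 0` and `r` fixed small; `wt (m+1)` is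
of class `C^m` with compact support, so `f` is of class `C^m` near `x₀` (differentiate the
convolution: `HasCompactSupport.contDiff_convolution_left` and variants; multiply `f` by an
indicator or a cut-off first). As `m` is arbitrary, `f` is `C^∞` near `x₀`.
The two Laplacians agree for `C²` functions
(`laplacian_eq_iteratedFDeriv_orthonormalBasis` with `EuclideanSpace.basisFun`).
-/

set_option autoImplicit false

open MeasureTheory Metric Set Filter Topology InnerProductSpace
open scoped ContDiff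

namespace Pool.Agent.MP_0643f8_an.U

variable {d : ℕ}

open Pool.Agent.Lib.MP_47b33c_an in
private theorem h01_lap {f : EE d → ℝ} {x : EE d} (hf : ContDiffAt ℝ 2 f x) :
    Laplacian.laplacian f x = ∑ i, pd i (pd i f) x := by
  rw [a3_laplacian_eq]
  refine Finset.sum_congr rfl fun i _ => ?_
  rw [a3_second f hf, EuclideanSpace.basisFun_apply]
  rfl

theorem harmonic_of_hm {A : Set (EE d)} (hA : IsOpen A) {f : EE d → ℝ} (hf : Hm A f) :
    HarmonicOnNhd f A := by
  have hc : ∀ x ∈ A, ContDiffAt ℝ 2 f x := fun x hx =>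
    (hf.1.contDiffAt (hA.mem_nhds hx)).of_le (WithTop.coe_le_coe.2 le_top)
  intro x hx
  refine ⟨hc x hx, ?_⟩
  filter_upwards [hA.mem_nhds hx] with y hy
  rw [h01_lap (hc y hy), hf.2 y hy]
  rfl

private theorem h01_contDiff_pow (m : ℕ) :
    ContDiff ℝ m (fun t : ℝ => (max 0 t) ^ (m + 1)) := by
  induction m with
  | zero =>
    rw [Nat.cast_zero, contDiff_zero]
    fun_prop
  | succ m ih =>
    have h1 : ((m + 1 : ℕ) : WithTop ℕ∞) = (m : WithTop ℕ∞) + 1 := by push_cast; rfl
    rw [h1, contDiff_succ_iff_deriv]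
    refine ⟨fun s => (Pool.Agent.Lib.MP_47b33c_an.a3_hasDerivAt_pow (m + 1) (by omega)
      s).differentiableAt, by simp, ?_⟩
    have h : deriv (fun t : ℝ => (max 0 t) ^ (m + 1 + 1)) =
        fun s : ℝ => (((m + 1 : ℕ) : ℝ) + 1) * (max 0 s) ^ (m + 1) :=
      funext fun s => (Pool.Agent.Lib.MP_47b33c_an.a3_hasDerivAt_pow (m + 1) (by omega) s).deriv
    rw [h]
    exact contDiff_const.mul ih

open Pool.Agent.Lib.MP_47b33c_an in
private theorem h01_contDiff_wt (m : ℕ) : ContDiff ℝ m (wt (m + 1) : EE d → ℝ) := by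
  have h : (wt (m + 1) : EE d → ℝ) =
      (fun t : ℝ => (max 0 t) ^ (m + 1)) ∘ fun y : EE d => 1 - ‖y‖ ^ 2 := rfl
  rw [h]
  exact (h01_contDiff_pow m).comp (contDiff_const.sub (contDiff_norm_sq ℝ))

open Pool.Agent.Lib.MP_47b33c_an in
private theorem h01_smooth (hd : 2 ≤ d) {A : Set (EE d)} (hA : IsOpen A) {f : EE d → ℝ}
    (hf : HarmonicOnNhd f A) (m : ℕ) {x₀ : EE d} (hx₀ : x₀ ∈ A) : ContDiffAt ℝ m f x₀ := by
  obtain ⟨ρ, hρ, hρA⟩ := Metric.nhds_basis_closedBall.mem_iff.1 (hA.mem_nhds hx₀)
  set r : ℝ := ρ / 2 with hr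
  have hr0 : 0 < r := by positivity
  set g : EE d → ℝ := indicator (closedBall x₀ ρ) f with hg
  set K : EE d → ℝ := fun y => wt (m + 1) (r⁻¹ • y) with hK
  have hfc : ContinuousOn f (closedBall x₀ ρ) := fun x hx =>
    (hf x (hρA hx)).1.continuousAt.continuousWithinAt
  have hgi : Integrable g := by
    rw [hg, integrable_indicator_iff measurableSet_closedBall]
    exact hfc.integrableOn_compact (isCompact_closedBall x₀ ρ)
  have hKc : ContDiff ℝ m K := (h01_contDiff_wt m).comp (contDiff_const_smul _)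
  have hKs : HasCompactSupport K :=
    (a3_wt_hasCompactSupport (m + 1) (by omega)).comp_homeomorph (Homeomorph.smulOfNeZero r⁻¹
      (inv_ne_zero hr0.ne'))
  have hconv : ContDiff ℝ m (MeasureTheory.convolution K g (ContinuousLinearMap.mul ℝ ℝ)
      (volume : Measure (EE d))) :=
    hKs.contDiff_convolution_left (ContinuousLinearMap.mul ℝ ℝ) (n := (m : ℕ∞))
      (by exact_mod_cast hKc) hgi.locallyIntegrable
  set S : ℝ := ∫ y : EE d, wt (m + 1) y with hS
  have hSpos : 0 < S := wt_integral_pos hd (m + 1) (by omega)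
  set c : ℝ := |((-r) ^ Module.finrank ℝ (EE d))⁻¹| with hc
  have key : ∀ x ∈ ball x₀ r, f x = S⁻¹ * (c * (MeasureTheory.convolution K g
      (ContinuousLinearMap.mul ℝ ℝ) (volume : Measure (EE d))) x) := by
    intro x hx
    rw [mem_ball] at hx
    have hsub : closedBall x r ⊆ closedBall x₀ ρ := by
      intro z hz
      rw [mem_closedBall] at hz ⊢
      have := dist_triangle z x x₀
      have : r + r = ρ := by rw [hr]; ring
      linarith
    have h1 := mvp hd (m + 1) (by omega) hr0.le (fun z hz => hf z (hρA (hsub hz)))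
      (x := x) (u := f)
    have h2 : (∫ y : EE d, f (x + r • y) * wt (m + 1) y) =
        ∫ y : EE d, (fun t => K t * g (x - t)) ((-r) • y) := by
      refine integral_congr_ae (Eventually.of_forall fun y => ?_)
      have e1 : K ((-r) • y) = wt (m + 1) y := by
        have e2 : r⁻¹ • (-r) • y = -y := by
          rw [smul_smul, mul_neg, inv_mul_cancel₀ hr0.ne', neg_one_smul]
        simp only [hK, e2]
        simp only [wt, norm_neg]
      have e3 : x - (-r) • y = x + r • y := by rw [neg_smul, sub_neg_eq_add]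
      simp only [e1, e3]
      by_cases hy : ‖y‖ ≤ 1
      · have hmem : x + r • y ∈ closedBall x₀ ρ := hsub (a6_mem hr0.le hy)
        rw [hg, indicator_of_mem hmem]
        ring
      · rw [wt_eq_zero (m + 1) (by omega) (not_le.1 hy).le]
        simp
    have h4 := MeasureTheory.Measure.integral_comp_smul (volume : Measure (EE d))
      (fun t => K t * g (x - t)) (-r)
    rw [h2, h4] at h1
    have h3 : (MeasureTheory.convolution K g (ContinuousLinearMap.mul ℝ ℝ)
        (volume : Measure (EE d))) x = ∫ t, K t * g (x - t) := rfl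
    rw [h3]
    rw [smul_eq_mul] at h1
    rw [h1, ← hS]
    field_simp
  have hev : f =ᶠ[𝓝 x₀] fun x => S⁻¹ * (c * (MeasureTheory.convolution K g
      (ContinuousLinearMap.mul ℝ ℝ) (volume : Measure (EE d))) x) := by
    filter_upwards [ball_mem_nhds x₀ hr0] with x hx using key x hx
  refine ContDiffAt.congr_of_eventuallyEq ?_ hev
  exact (contDiff_const.mul (contDiff_const.mul hconv)).contDiffAt

theorem hm_of_harmonic (hd : 2 ≤ d) {A : Set (EE d)} (hA : IsOpen A) {f : EE d → ℝ}
    (hf : HarmonicOnNhd f A) : Hm A f := by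
  refine ⟨?_, ?_⟩
  · intro x hx
    refine ContDiffAt.contDiffWithinAt ?_
    rw [contDiffAt_infty]
    exact fun m => h01_smooth hd hA hf m hx
  · intro x hx
    rw [← h01_lap (hf x hx).1]
    exact (hf x hx).2.eq_of_nhds

end Pool.Agent.MP_0643f8_an.U
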