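import Mathlib
import Pool.Agent.Lib.MP_0643f8_an.U.H01_Bridge

/-!
# Integrals of harmonic functions depending on a parameter

From `Pool.Agent.Lib.MP_47b33c_an.harmonic_integral` and the bridge `H01_Bridge`.
-/

set_option autoImplicit false

open MeasureTheory Metric Set Filter Topology
open scoped ContDiff

namespace Pool.Agent.MP_0643f8_an.U

variable {d : ℕ}

theorem hm_integral (hd : 2 ≤ d) {T : Type} [MeasurableSpace T] (μ : Measure T)
    [IsFiniteMeasure μ] {K : T → EE d → ℝ} (hK : Measurable (Function.uncurry K))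
    {A : Set (EE d)} (hA : IsOpen A) (hh : ∀ t, Hm A (K t))
    (hb : ∀ x ∈ A, ∃ C : ℝ, ∀ᶠ y in 𝓝 x, ∀ t, |K t y| ≤ C) :
    Hm A (fun x => ∫ t, K t x ∂μ) :=
  hm_of_harmonic hd hA (Pool.Agent.Lib.MP_47b33c_an.harmonic_integral hd μ hK hA
    (fun t => harmonic_of_hm hA (hh t)) hb)

/-- the same for an integral over `Ioc 0 1` with an integrable weight `w ≥ 0`; the integrand
needs to be good only for `t ∈ Ioc 0 1` and `x ∈ A` (multiply it by the indicator of
`Ioc 0 1 ×ˢ A` and use the measure with density `w`) -/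
theorem hm_integral_Ioc (hd : 2 ≤ d) {a b : ℝ} (w : ℝ → ℝ) (hw : IntegrableOn w (Ioc a b))
    (hw0 : ∀ t ∈ Ioc a b, 0 ≤ w t) {K : ℝ → EE d → ℝ} {A : Set (EE d)} (hA : IsOpen A)
    (hK : ContinuousOn (Function.uncurry K) (Ioc a b ×ˢ A))
    (hh : ∀ t ∈ Ioc a b, Hm A (K t))
    (hb : ∀ x ∈ A, ∃ C : ℝ, ∀ᶠ y in 𝓝 x, ∀ t ∈ Ioc a b, |K t y| ≤ C) :
    Hm A (fun x => ∫ t in Ioc a b, w t * K t x) := by
  classical
  set S : Set (ℝ × EE d) := Ioc a b ×ˢ A with hS
  have hSm : MeasurableSet S := measurableSet_Ioc.prod hA.measurableSet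
  set K' : ℝ → EE d → ℝ := fun t x => S.indicator (Function.uncurry K) (t, x) with hK'
  have hK'm : Measurable (Function.uncurry K') := by
    have h1 : Function.uncurry K' = S.indicator (Function.uncurry K) := by
      funext p
      rfl
    rw [h1]
    have h2 : S.indicator (Function.uncurry K) = S.piecewise (Function.uncurry K) 0 := by
      funext p
      by_cases hp : p ∈ S
      · simp [hp]
      · simp [hp]
    rw [h2]
    exact hK.measurable_piecewise continuousOn_const hSm
  have hK'eq : ∀ t ∈ Ioc a b, ∀ x ∈ A, K' t x = K t x := by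
    intro t ht x hx
    simp only [hK']
    rw [indicator_of_mem (show (t, x) ∈ S from ⟨ht, hx⟩)]
    rfl
  have hK'zero : ∀ t, t ∉ Ioc a b → ∀ x, K' t x = 0 := by
    intro t ht x
    simp only [hK']
    exact indicator_of_notMem (fun h => ht h.1) _
  have hh' : ∀ t, Hm A (K' t) := by
    intro t
    by_cases ht : t ∈ Ioc a b
    · exact hm_congr (hh t ht) hA (fun x hx => hK'eq t ht x hx)
    · exact hm_congr (hm_const A 0) hA (fun x hx => hK'zero t ht x)
  have hb' : ∀ x ∈ A, ∃ C : ℝ, ∀ᶠ y in 𝓝 x, ∀ t, |K' t y| ≤ C := by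
    intro x hx
    obtain ⟨C, hC⟩ := hb x hx
    refine ⟨max C 0, ?_⟩
    filter_upwards [hC, hA.mem_nhds hx] with y hy hyA t
    by_cases ht : t ∈ Ioc a b
    · rw [hK'eq t ht y hyA]
      exact (hy t ht).trans (le_max_left _ _)
    · rw [hK'zero t ht y, abs_zero]
      exact le_max_right _ _
  -- the measure with density `w`
  set μ : Measure ℝ := (volume.restrict (Ioc a b)).withDensity (fun t => ENNReal.ofReal (w t))
    with hμ
  have : IsFiniteMeasure μ := by
    rw [hμ]
    exact isFiniteMeasure_withDensity_ofReal hw.2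
  have hmain := hm_integral hd μ hK'm hA hh' hb'
  refine hm_congr hmain hA (fun x hx => ?_)
  have hwm : AEMeasurable (fun t => Real.toNNReal (w t)) (volume.restrict (Ioc a b)) :=
    hw.1.aemeasurable.real_toNNReal
  have h1 : ∫ t, K' t x ∂μ = ∫ t in Ioc a b, (Real.toNNReal (w t)) • K' t x := by
    rw [hμ]
    exact integral_withDensity_eq_integral_smul₀ hwm _
  rw [h1]
  refine setIntegral_congr_fun measurableSet_Ioc (fun t ht => ?_)
  show w t * K t x = (Real.toNNReal (w t)) • K' t x
  rw [hK'eq t ht x hx, NNReal.smul_def, Real.coe_toNNReal _ (hw0 t ht), smul_eq_mul]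

end Pool.Agent.MP_0643f8_an.U
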