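import Mathlib
import Pool.Agent.Lib.MP_0643f8_an.U.E1_Kel
import Pool.Agent.Lib.MP_0643f8_an.U.H07_Integral

/-!
# Solving `E f - r f = g`, `g = O(|x|^m)`, `m > Re r`

`f x = ∫_0^1 t^{-r-1} g (t x) dt`. Write the integrand as
`t^{m - Re r - 1} * (t^{-i Im r} t^{-m} g (t x))`: the first factor is an integrable weight, the
second one is bounded for `t ∈ (0,1]`, locally uniformly in `x ∈ A` (near `t = 0` by
`|g (t x)| ≤ C t^m |x|^m`, otherwise by compactness), and its real and imaginary parts are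
harmonic in `x` (`hm_affine`), so `hm_integral_Ioc` gives `HC A f`. For the equation,
`f (s x) = s^r ∫_0^s u^{-r-1} g (u x) du` for `0 < s ≤ 1 + ε` (`ε` such that `(1+ε) x ∈ A`, `A` is
open), differentiate at `s = 1`. Finally `|f x| ≤ C |x|^m / (m - Re r)` near `0`.
-/

set_option autoImplicit false

open MeasureTheory Metric Set Filter Topology
open scoped ContDiff

namespace Pool.Agent.MP_0643f8_an.U

variable {d : ℕ}

private lemma e3_norm (r : ℂ) {t : ℝ} (ht : 0 < t) :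
    ‖(t : ℂ) ^ (-r - 1)‖ = t ^ (-r.re - 1) := by
  rw [Complex.norm_cpow_eq_rpow_re_of_pos ht]
  simp

private lemma e3_w_int {m : ℕ} {ρ : ℝ} (h : ρ < m) :
    IntegrableOn (fun t : ℝ => t ^ ((m : ℝ) - ρ - 1)) (Ioc 0 1) := by
  have h1 : IntervalIntegrable (fun t : ℝ => t ^ ((m : ℝ) - ρ - 1)) volume 0 1 :=
    intervalIntegral.intervalIntegrable_rpow' (by linarith)
  exact (intervalIntegrable_iff_integrableOn_Ioc_of_le zero_le_one).mp h1

private lemma e3_local {A : Set (EE d)} (hA : StarO A) {m : ℕ} {g : EE d → ℂ}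
    (hg : ContinuousOn g A) (hm : VanO m g) {x : EE d} (hx : x ∈ A) :
    ∃ C : ℝ, 0 ≤ C ∧ ∀ᶠ y in 𝓝 x, ∀ t ∈ Ioc (0 : ℝ) 1, ‖g (t • y)‖ ≤ C * t ^ m := by
  obtain ⟨C0, δ, hδ, hC0⟩ := hm
  obtain ⟨ρ, hρ, hball⟩ := Metric.nhds_basis_closedBall.mem_iff.mp (hA.1.mem_nhds hx)
  have hcomp : IsCompact ((fun q : ℝ × EE d => q.1 • q.2) '' (Icc (0 : ℝ) 1 ×ˢ closedBall x ρ)) :=
    (isCompact_Icc.prod (isCompact_closedBall x ρ)).image (by fun_prop)
  have hsub : ((fun q : ℝ × EE d => q.1 • q.2) '' (Icc (0 : ℝ) 1 ×ˢ closedBall x ρ)) ⊆ A := by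
    rintro _ ⟨⟨t, y⟩, ⟨ht, hy⟩, rfl⟩
    exact hA.2.2 y (hball hy) t ht.1 ht.2
  obtain ⟨B, hB⟩ := hcomp.exists_bound_of_continuousOn (hg.mono hsub)
  have hR : 0 < ‖x‖ + ρ + 1 := by positivity
  set R := ‖x‖ + ρ + 1 with hRdef
  have ht0 : 0 < δ / R := div_pos hδ hR
  refine ⟨|C0| * R ^ m + |B| / (δ / R) ^ m, by positivity, ?_⟩
  filter_upwards [Metric.closedBall_mem_nhds x hρ] with y hy t ht
  have hyR : ‖y‖ ≤ R := by
    have h1 : ‖y‖ ≤ ‖x‖ + ‖y - x‖ := by
      have := norm_add_le x (y - x)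
      rwa [add_sub_cancel] at this
    have h2 : ‖y - x‖ ≤ ρ := by rw [← dist_eq_norm]; exact mem_closedBall.mp hy
    linarith
  have htm : 0 < t ^ m := pow_pos ht.1 m
  rcases lt_or_ge (t * R) δ with hlt | hge
  · have hn : ‖t • y‖ = t * ‖y‖ := by rw [norm_smul, Real.norm_eq_abs, abs_of_pos ht.1]
    have h1 : ‖t • y‖ < δ := by
      rw [hn]
      exact lt_of_le_of_lt (mul_le_mul_of_nonneg_left hyR ht.1.le) hlt
    have h2 := hC0 _ h1
    rw [hn, mul_pow] at h2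
    calc ‖g (t • y)‖ ≤ C0 * (t ^ m * ‖y‖ ^ m) := h2
      _ ≤ |C0| * (t ^ m * ‖y‖ ^ m) := mul_le_mul_of_nonneg_right (le_abs_self _) (by positivity)
      _ ≤ |C0| * (t ^ m * R ^ m) := by
          refine mul_le_mul_of_nonneg_left (mul_le_mul_of_nonneg_left ?_ htm.le) (abs_nonneg _)
          exact pow_le_pow_left₀ (norm_nonneg _) hyR m
      _ = |C0| * R ^ m * t ^ m := by ring
      _ ≤ (|C0| * R ^ m + |B| / (δ / R) ^ m) * t ^ m := by
          refine mul_le_mul_of_nonneg_right ?_ htm.le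
          have : 0 ≤ |B| / (δ / R) ^ m := by positivity
          linarith
  · have h1 : δ / R ≤ t := by
      rw [div_le_iff₀ hR]
      exact hge
    have h2 : ‖g (t • y)‖ ≤ B :=
      hB _ ⟨(t, y), ⟨⟨ht.1.le, ht.2⟩, hy⟩, rfl⟩
    have h3 : (δ / R) ^ m ≤ t ^ m := pow_le_pow_left₀ ht0.le h1 m
    have h4 : 0 < (δ / R) ^ m := pow_pos ht0 m
    calc ‖g (t • y)‖ ≤ |B| := h2.trans (le_abs_self _)
      _ = |B| / (δ / R) ^ m * (δ / R) ^ m := (div_mul_cancel₀ _ h4.ne').symm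
      _ ≤ |B| / (δ / R) ^ m * t ^ m := mul_le_mul_of_nonneg_left h3 (by positivity)
      _ ≤ (|C0| * R ^ m + |B| / (δ / R) ^ m) * t ^ m := by
          refine mul_le_mul_of_nonneg_right ?_ htm.le
          have : 0 ≤ |C0| * R ^ m := by positivity
          linarith

private lemma e3_cpow_cont (r : ℂ) : ContinuousOn (fun t : ℝ => (t : ℂ) ^ (-r - 1)) (Ioi 0) := by
  intro t ht
  refine ContinuousAt.continuousWithinAt ?_
  refine (Complex.continuous_ofReal.continuousAt).cpow continuousAt_const ?_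
  exact Complex.ofReal_mem_slitPlane.mpr ht

/-- the integrand -/
private lemma e3_bound {m : ℕ} (r : ℂ) {t C : ℝ} (ht : 0 < t) {z : ℂ} (hz : ‖z‖ ≤ C * t ^ m) :
    ‖(t : ℂ) ^ (-r - 1) * z‖ ≤ C * t ^ ((m : ℝ) - r.re - 1) := by
  rw [norm_mul, e3_norm r ht]
  calc t ^ (-r.re - 1) * ‖z‖ ≤ t ^ (-r.re - 1) * (C * t ^ m) :=
        mul_le_mul_of_nonneg_left hz (by positivity)
    _ = C * (t ^ (-r.re - 1) * t ^ (m : ℝ)) := by rw [Real.rpow_natCast]; ring
    _ = C * t ^ ((m : ℝ) - r.re - 1) := by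
        rw [← Real.rpow_add ht]
        congr 2
        ring

private lemma e3_F_cont {A : Set (EE d)} (r : ℂ) {g : EE d → ℂ}
    (hg : ContinuousOn g A) (x : EE d) :
    ContinuousOn (fun u : ℝ => (u : ℂ) ^ (-r - 1) * g (u • x)) {u : ℝ | 0 < u ∧ u • x ∈ A} := by
  refine ((e3_cpow_cont r).mono (fun u hu => hu.1)).mul ?_
  exact hg.comp (by fun_prop) (fun u hu => hu.2)

private lemma e3_int {A : Set (EE d)} (hA : StarO A) (r : ℂ) {m : ℕ} (hr : r.re < m)
    {g : EE d → ℂ} (hg : ContinuousOn g A) (hm : VanO m g) {x : EE d} (hx : x ∈ A) :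
    IntegrableOn (fun u : ℝ => (u : ℂ) ^ (-r - 1) * g (u • x)) (Ioc 0 1) := by
  obtain ⟨C, -, hC⟩ := e3_local hA hg hm hx
  have hCx := hC.self_of_nhds
  refine Integrable.mono' ((e3_w_int hr).const_mul C) ?_ ?_
  · refine ContinuousOn.aestronglyMeasurable ?_ measurableSet_Ioc
    exact (e3_F_cont r hg x).mono (fun u hu => ⟨hu.1, hA.2.2 x hx u hu.1.le hu.2⟩)
  · refine (ae_restrict_iff' measurableSet_Ioc).mpr (Eventually.of_forall fun t ht => ?_)
    exact e3_bound r ht.1 (hCx t ht)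

private lemma e3_smul_hm {A : Set (EE d)} (hA : StarO A) {g : EE d → ℝ} (hg : Hm A g) {t : ℝ}
    (ht : t ∈ Ioc (0 : ℝ) 1) : Hm A (fun y => g (t • y)) := by
  have h := hm_affine hA.1 hg 0 (ne_of_gt ht.1)
  simp only [zero_add] at h
  exact hm_mono h (fun y hy => hA.2.2 y hy t ht.1.le ht.2)

/-- the weight -/
private noncomputable def e3w (r : ℂ) (m : ℕ) (t : ℝ) : ℝ := t ^ ((m : ℝ) - r.re - 1)

/-- the remaining factor -/
private noncomputable def e3k (r : ℂ) (m : ℕ) (t : ℝ) : ℂ :=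
  ((e3w r m t)⁻¹ : ℝ) * (t : ℂ) ^ (-r - 1)

private lemma e3w_pos (r : ℂ) (m : ℕ) {t : ℝ} (ht : 0 < t) : 0 < e3w r m t := by
  unfold e3w
  positivity

private lemma e3_split (r : ℂ) (m : ℕ) {t : ℝ} (ht : 0 < t) (z : ℂ) :
    (e3w r m t : ℂ) * (e3k r m t * z) = (t : ℂ) ^ (-r - 1) * z := by
  unfold e3k
  have h : (e3w r m t : ℂ) ≠ 0 := by exact_mod_cast (e3w_pos r m ht).ne'
  push_cast
  field_simp

private lemma e3k_norm (r : ℂ) (m : ℕ) {t C : ℝ} (ht : 0 < t) {z : ℂ} (hz : ‖z‖ ≤ C * t ^ m) :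
    ‖e3k r m t * z‖ ≤ C := by
  have hw := e3w_pos r m ht
  have h1 := e3_bound (m := m) r ht hz
  rw [← e3_split r m ht z, norm_mul, Complex.norm_real, Real.norm_eq_abs, abs_of_pos hw] at h1
  have h2 : t ^ ((m : ℝ) - r.re - 1) = e3w r m t := rfl
  rw [h2, mul_comm C] at h1
  exact le_of_mul_le_mul_left h1 hw

private lemma e3w_cont (r : ℂ) (m : ℕ) : ContinuousOn (e3w r m) (Ioi 0) := by
  intro t ht
  refine ContinuousAt.continuousWithinAt ?_
  exact Real.continuousAt_rpow_const _ _ (Or.inl (ne_of_gt ht))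

private lemma e3k_cont (r : ℂ) (m : ℕ) : ContinuousOn (e3k r m) (Ioi 0) := by
  unfold e3k
  refine ContinuousOn.mul ?_ (e3_cpow_cont r)
  refine Complex.continuous_ofReal.comp_continuousOn ?_
  exact (e3w_cont r m).inv₀ (fun t ht => (e3w_pos r m ht).ne')

private lemma e3_K_cont {A : Set (EE d)} (hA : StarO A) (r : ℂ) (m : ℕ)
    {g : EE d → ℂ} (hg : ContinuousOn g A) :
    ContinuousOn (fun q : ℝ × EE d => e3k r m q.1 * g (q.1 • q.2)) (Ioc 0 1 ×ˢ A) := by
  refine ContinuousOn.mul ?_ ?_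
  · exact (e3k_cont r m).comp continuousOn_fst (fun q hq => hq.1.1)
  · exact hg.comp (by fun_prop) (fun q hq => hA.2.2 q.2 hq.2 q.1 hq.1.1.le hq.1.2)

private lemma e3_hc (hd : 2 ≤ d) {A : Set (EE d)} (hA : StarO A) (r : ℂ) {m : ℕ} (hr : r.re < m)
    {g : EE d → ℂ} (hg : HC A g) (hm : VanO m g) :
    HC A (fun x => ∫ t in Ioc (0 : ℝ) 1, (t : ℂ) ^ (-r - 1) * g (t • x)) := by
  have hgc : ContinuousOn g A := (hc_contDiffOn hg).continuousOn
  have hw : IntegrableOn (e3w r m) (Ioc 0 1) := e3_w_int hr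
  have hw0 : ∀ t ∈ Ioc (0 : ℝ) 1, 0 ≤ e3w r m t := fun t ht => (e3w_pos r m ht.1).le
  have hb : ∀ x ∈ A, ∃ C : ℝ, ∀ᶠ y in 𝓝 x, ∀ t ∈ Ioc (0 : ℝ) 1, ‖e3k r m t * g (t • y)‖ ≤ C := by
    intro x hx
    obtain ⟨C, -, hC⟩ := e3_local hA hgc hm hx
    refine ⟨C, ?_⟩
    filter_upwards [hC] with y hy t ht
    exact e3k_norm r m ht.1 (hy t ht)
  have hre := hm_integral_Ioc hd (a := 0) (b := 1) (e3w r m) hw hw0
    (K := fun t x => (e3k r m t * g (t • x)).re) hA.1
    (Complex.continuous_re.comp_continuousOn (e3_K_cont hA r m hgc))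
    (by
      intro t ht
      have h1 := hm_sub hA.1 (hm_cmul hA.1 (e3_smul_hm hA hg.1 ht) (e3k r m t).re)
        (hm_cmul hA.1 (e3_smul_hm hA hg.2 ht) (e3k r m t).im)
      exact h1)
    (by
      intro x hx
      obtain ⟨C, hC⟩ := hb x hx
      refine ⟨C, ?_⟩
      filter_upwards [hC] with y hy t ht
      exact (Complex.abs_re_le_norm _).trans (hy t ht))
  have him := hm_integral_Ioc hd (a := 0) (b := 1) (e3w r m) hw hw0
    (K := fun t x => (e3k r m t * g (t • x)).im) hA.1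
    (Complex.continuous_im.comp_continuousOn (e3_K_cont hA r m hgc))
    (by
      intro t ht
      have h1 := hm_add hA.1 (hm_cmul hA.1 (e3_smul_hm hA hg.2 ht) (e3k r m t).re)
        (hm_cmul hA.1 (e3_smul_hm hA hg.1 ht) (e3k r m t).im)
      exact h1)
    (by
      intro x hx
      obtain ⟨C, hC⟩ := hb x hx
      refine ⟨C, ?_⟩
      filter_upwards [hC] with y hy t ht
      exact (Complex.abs_im_le_norm _).trans (hy t ht))
  constructor
  · refine hm_congr hre hA.1 (fun x hx => ?_)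
    have hI := e3_int hA r hr hgc hm hx
    have h2 := integral_re (𝕜 := ℂ) hI
    simp only [RCLike.re_eq_complex_re] at h2
    rw [← h2]
    refine setIntegral_congr_fun measurableSet_Ioc (fun t ht => ?_)
    beta_reduce
    rw [← e3_split r m ht.1, Complex.re_ofReal_mul]
  · refine hm_congr him hA.1 (fun x hx => ?_)
    have hI := e3_int hA r hr hgc hm hx
    have h2 := integral_im (𝕜 := ℂ) hI
    simp only [RCLike.im_eq_complex_im] at h2
    rw [← h2]
    refine setIntegral_congr_fun measurableSet_Ioc (fun t ht => ?_)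
    beta_reduce
    rw [← e3_split r m ht.1, Complex.im_ofReal_mul]

private lemma e3_subst (r : ℂ) (g : EE d → ℂ) (x : EE d) {s : ℝ} (hs : 0 < s) :
    ∫ t in Ioc (0 : ℝ) 1, (t : ℂ) ^ (-r - 1) * g (t • s • x) =
      (s : ℂ) ^ r * ∫ u in (0 : ℝ)..s, (u : ℂ) ^ (-r - 1) * g (u • x) := by
  have hs0 : (s : ℂ) ≠ 0 := by exact_mod_cast hs.ne'
  have h1 := intervalIntegral.integral_comp_mul_right (a := 0) (b := 1)
    (fun u : ℝ => (u : ℂ) ^ (-r - 1) * g (u • x)) hs.ne'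
  rw [zero_mul, one_mul] at h1
  have h2 : ∫ t in Ioc (0 : ℝ) 1, (t : ℂ) ^ (-r - 1) * g (t • s • x) =
      (s : ℂ) ^ (r + 1) * ∫ t in (0 : ℝ)..1, ((t * s : ℝ) : ℂ) ^ (-r - 1) * g ((t * s) • x) := by
    rw [intervalIntegral.integral_of_le zero_le_one, ← integral_const_mul]
    refine setIntegral_congr_fun measurableSet_Ioc (fun t ht => ?_)
    beta_reduce
    rw [smul_smul, Complex.ofReal_mul, Complex.mul_cpow_ofReal_nonneg ht.1.le hs.le]
    have h3 : (s : ℂ) ^ (r + 1) * (s : ℂ) ^ (-r - 1) = 1 := by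
      rw [← Complex.cpow_add _ _ hs0]
      have : r + 1 + (-r - 1) = 0 := by ring
      rw [this, Complex.cpow_zero]
    calc (t : ℂ) ^ (-r - 1) * g ((t * s) • x)
        = ((s : ℂ) ^ (r + 1) * (s : ℂ) ^ (-r - 1)) * ((t : ℂ) ^ (-r - 1) * g ((t * s) • x)) := by
          rw [h3, one_mul]
      _ = _ := by ring
  rw [h2, h1, Complex.real_smul, ← mul_assoc]
  congr 1
  rw [Complex.cpow_add _ _ hs0, Complex.cpow_one]
  push_cast
  field_simp

theorem inv1 (hd : 2 ≤ d) {A : Set (EE d)} (hA : StarO A) (r : ℂ) {m : ℕ} (hr : r.re < m)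
    {g : EE d → ℂ} (hg : HC A g) (hm : VanO m g) :
    ∃ f : EE d → ℂ, HC A f ∧ VanO m f ∧ ∀ x ∈ A, eul f x - r * f x = g x := by
  have hgc : ContinuousOn g A := (hc_contDiffOn hg).continuousOn
  have hfc := e3_hc hd hA r hr hg hm
  refine ⟨fun x => ∫ t in Ioc (0 : ℝ) 1, (t : ℂ) ^ (-r - 1) * g (t • x), hfc, ?_, ?_⟩
  · obtain ⟨C, δ, hδ, hC⟩ := hm
    refine ⟨C * ∫ t in Ioc (0 : ℝ) 1, t ^ ((m : ℝ) - r.re - 1), δ, hδ, fun x hx => ?_⟩
    have h1 : ∀ t ∈ Ioc (0 : ℝ) 1, ‖(t : ℂ) ^ (-r - 1) * g (t • x)‖ ≤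
        (C * ‖x‖ ^ m) * t ^ ((m : ℝ) - r.re - 1) := by
      intro t ht
      refine e3_bound r ht.1 ?_
      have hn : ‖t • x‖ = t * ‖x‖ := by rw [norm_smul, Real.norm_eq_abs, abs_of_pos ht.1]
      have h2 : ‖t • x‖ < δ := by
        rw [hn]
        refine lt_of_le_of_lt ?_ hx
        have := mul_le_mul_of_nonneg_right ht.2 (norm_nonneg x)
        rwa [one_mul] at this
      have h3 := hC _ h2
      rw [hn, mul_pow] at h3
      refine h3.trans (le_of_eq ?_)
      ring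
    have h2 := norm_integral_le_of_norm_le (μ := volume.restrict (Ioc (0 : ℝ) 1))
      (f := fun t : ℝ => (t : ℂ) ^ (-r - 1) * g (t • x))
      ((e3_w_int hr).const_mul (C * ‖x‖ ^ m))
      ((ae_restrict_iff' measurableSet_Ioc).mpr (Eventually.of_forall h1))
    rw [integral_const_mul] at h2
    refine h2.trans (le_of_eq ?_)
    ring
  · intro x hx
    set f : EE d → ℂ := fun x => ∫ t in Ioc (0 : ℝ) 1, (t : ℂ) ^ (-r - 1) * g (t • x) with hf
    have hdiff : DifferentiableAt ℝ f x :=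
      ((hc_contDiffOn hfc).contDiffAt (hA.1.mem_nhds hx)).differentiableAt (by simp)
    have hleft : HasDerivAt (fun s : ℝ => f (s • x)) (eul f x) 1 := by
      have h1 : HasDerivAt (fun s : ℝ => s • x) x 1 := by
        have := (hasDerivAt_id (1 : ℝ)).smul_const x
        simpa using this
      have h2 : HasFDerivAt f (fderiv ℝ f x) ((1 : ℝ) • x) := by
        rw [one_smul]
        exact hdiff.hasFDerivAt
      exact h2.comp_hasDerivAt 1 h1
    have hopen : IsOpen {u : ℝ | 0 < u ∧ u • x ∈ A} := by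
      refine IsOpen.inter isOpen_Ioi ?_
      exact hA.1.preimage (by fun_prop)
    have hmem : (1 : ℝ) ∈ {u : ℝ | 0 < u ∧ u • x ∈ A} := ⟨one_pos, by rwa [one_smul]⟩
    have hcont := e3_F_cont r hgc x
    have hint := e3_int hA r hr hgc hm hx
    have hFTC : HasDerivAt (fun s : ℝ => ∫ u in (0 : ℝ)..s, (u : ℂ) ^ (-r - 1) * g (u • x))
        (((1 : ℝ) : ℂ) ^ (-r - 1) * g ((1 : ℝ) • x)) 1 :=
      intervalIntegral.integral_hasDerivAt_right
        ((intervalIntegrable_iff_integrableOn_Ioc_of_le zero_le_one).mpr hint)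
        (hcont.stronglyMeasurableAtFilter hopen 1 hmem)
        (hcont.continuousAt (hopen.mem_nhds hmem))
    have hpow : HasDerivAt (fun s : ℝ => (s : ℂ) ^ r) r 1 := by
      have h1 : HasDerivAt (fun z : ℂ => z ^ r) (r * (1 : ℂ) ^ (r - 1) * 1) ((1 : ℝ) : ℂ) := by
        have := (hasDerivAt_id ((1 : ℝ) : ℂ)).cpow_const (c := r)
          (by simp [Complex.one_mem_slitPlane])
        simpa using this
      have h2 := h1.comp_ofReal
      simpa using h2
    have hright := hpow.mul hFTC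
    have heq : (fun s : ℝ => f (s • x)) =ᶠ[𝓝 1] fun s : ℝ =>
        (s : ℂ) ^ r * ∫ u in (0 : ℝ)..s, (u : ℂ) ^ (-r - 1) * g (u • x) := by
      filter_upwards [isOpen_Ioi.mem_nhds (mem_Ioi.mpr one_pos)] with s hs
      exact e3_subst r g x hs
    have hder := (hright.congr_of_eventuallyEq heq).unique hleft
    have hfx : f x = ∫ u in (0 : ℝ)..1, (u : ℂ) ^ (-r - 1) * g (u • x) := by
      rw [intervalIntegral.integral_of_le zero_le_one]
    rw [← hder]
    simp only [Complex.ofReal_one, Complex.one_cpow, one_mul, one_smul]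
    rw [hfx]
    ring

end Pool.Agent.MP_0643f8_an.U
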