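import Mathlib
import Pool.Agent.Lib.MP_0643f8_an.U.H01_Bridge

/-!
# Gradient estimate

`f x ∫ wt k = ∫ f (x + r y) wt k y dy` (mean value property, applied to `∂ᵢ f`, harmonic on the
same set by `hm_pd`), and `∫ (∂ᵢ f)(x + r y) wt k y dy = - r⁻¹ ∫ f (x + r y) ∂ᵢ (wt k) y dy` by
integration by parts (use `k = 3`, `wt 3` is `C²` with compact support in the closed unit ball).
-/

set_option autoImplicit false

open MeasureTheory Metric Set Filter Topology
open scoped ContDiff

namespace Pool.Agent.MP_0643f8_an.U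

open Pool.Agent.Lib.MP_47b33c_an in
private theorem grad_ibp {d : ℕ} (hd : 2 ≤ d) {A : Set (EE d)} {f : EE d → ℝ} {x : EE d} {r : ℝ}
    (hA : IsOpen A) (hf : Hm A f) (hr : 0 < r) (hx : closedBall x r ⊆ A) (i : Fin d) :
    r * (pd i f x * ∫ y : EE d, wt 3 y) =
      6 * ∫ y : EE d, f (x + r • y) * (y i * wt 2 y) := by
  set v : EE d := EuclideanSpace.basisFun (Fin d) ℝ i with hv
  have hv' : v = EuclideanSpace.single i (1 : ℝ) := by
    rw [hv, EuclideanSpace.basisFun_apply]
  have habs : |r| ≤ r := (abs_of_pos hr).le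
  have hmem : ∀ y ∈ closedBall (0 : EE d) 1, x + r • y ∈ A := by
    intro y hy
    rw [mem_closedBall, dist_zero_right] at hy
    exact hx (a4_mem habs hy)
  have hpd : Hm A (pd i f) := hm_pd hA hf i
  have hmv := mvp hd 3 (by norm_num) hr.le
    (fun z hz => harmonic_of_hm hA hpd z (hx hz))
  -- continuity
  have c0 : ContinuousOn (fun y : EE d => f (x + r • y)) (closedBall 0 1) :=
    a4_comp_cont habs fun y hy => (hm_diffAt hf hA (hx hy)).continuousAt
  have c1 : ContinuousOn (fun y : EE d => pd i f (x + r • y)) (closedBall 0 1) :=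
    a4_comp_cont habs fun y hy => (hm_diffAt hpd hA (hx hy)).continuousAt
  have h3 : ∀ y ∈ closedBall (0 : EE d) 1, HasFDerivAt (fun y : EE d => f (x + r • y))
      (r • fderiv ℝ f (x + r • y)) y := by
    intro y hy
    have h4 : HasFDerivAt (fun y : EE d => x + r • y) (r • ContinuousLinearMap.id ℝ (EE d)) y :=
      ((hasFDerivAt_id y).const_smul r).const_add x
    have h5 := ((hm_diffAt hf hA (hmem y hy))).hasFDerivAt.comp y h4
    refine h5.congr_fderiv ?_
    ext w
    simp
  have h4 : ∀ y ∈ closedBall (0 : EE d) 1, fderiv ℝ (fun y : EE d => f (x + r • y)) y v =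
      r * pd i f (x + r • y) := by
    intro y hy
    rw [(h3 y hy).fderiv]
    unfold pd
    rw [← hv']
    rfl
  have hsub : tsupport (wt 3 : EE d → ℝ) ⊆ closedBall 0 1 := by
    refine closure_minimal (fun y hy => ?_) isClosed_closedBall
    rw [mem_closedBall, dist_zero_right]
    by_contra hcon
    exact hy (wt_eq_zero 3 (by norm_num) (not_le.1 hcon).le)
  have i0 : Integrable (fun y : EE d => f (x + r • y) * (y i * wt 2 y)) := by
    have h := a4_integrable 2 (by norm_num) (c0.mul (g := fun y : EE d => y i) (by fun_prop))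
    refine h.congr (Eventually.of_forall fun y => ?_)
    simp only [Pi.mul_apply, mul_assoc]
  have hw : ∀ y : EE d, fderiv ℝ (wt 3 : EE d → ℝ) y v = -6 * (y i * wt 2 y) := by
    intro y
    have h := a4_fderiv_wt 2 (by norm_num) y i
    rw [hv]
    refine h.trans ?_
    norm_num
  have e1 : ∫ y : EE d, f (x + r • y) * fderiv ℝ (wt 3 : EE d → ℝ) y v =
      -∫ y : EE d, fderiv ℝ (fun y : EE d => f (x + r • y)) y v * wt 3 y := by
    refine integral_mul_fderiv_eq_neg_fderiv_mul_of_integrable ?_ ?_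
      (a4_integrable 3 (by norm_num) c0) (fun y hy => (h3 y (hsub hy)).differentiableAt)
      fun y _ => (wt_hasFDerivAt 2 (by norm_num) y).differentiableAt
    · refine a4_integrable 3 (by norm_num) ((continuousOn_const (c := r)).mul c1 |>.congr ?_)
      intro y hy
      exact h4 y hy
    · refine (i0.const_mul (-6)).congr (Eventually.of_forall fun y => ?_)
      dsimp only
      rw [hw y]
      ring
  have e2 : ∫ y : EE d, f (x + r • y) * fderiv ℝ (wt 3 : EE d → ℝ) y v =
      -6 * ∫ y : EE d, f (x + r • y) * (y i * wt 2 y) := by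
    rw [← integral_const_mul]
    refine integral_congr_ae (Eventually.of_forall fun y => ?_)
    dsimp only
    rw [hw y]
    ring
  have e3 : ∫ y : EE d, fderiv ℝ (fun y : EE d => f (x + r • y)) y v * wt 3 y =
      r * ∫ y : EE d, pd i f (x + r • y) * wt 3 y := by
    rw [← integral_const_mul]
    refine integral_congr_ae (Eventually.of_forall fun y => ?_)
    dsimp only
    rcases le_or_gt ‖y‖ 1 with hy | hy
    · rw [h4 y (by rw [mem_closedBall, dist_zero_right]; exact hy)]
      ring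
    · rw [wt_eq_zero 3 (by norm_num) hy.le, mul_zero, mul_zero, mul_zero]
  rw [e2, e3, hmv] at e1
  linarith

open Pool.Agent.Lib.MP_47b33c_an in
private theorem grad_pd {d : ℕ} (hd : 2 ≤ d) {A : Set (EE d)} {f : EE d → ℝ} {x : EE d} {r M : ℝ}
    (hA : IsOpen A) (hf : Hm A f) (hr : 0 < r) (hx : closedBall x r ⊆ A)
    (hM : ∀ y ∈ closedBall x r, |f y| ≤ M) (i : Fin d) :
    |pd i f x| ≤ 6 * (∫ y : EE d, wt 2 y) / (∫ y : EE d, wt 3 y) * M / r := by
  have hS : 0 < ∫ y : EE d, wt 3 y := wt_integral_pos hd 3 (by norm_num)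
  have h1 := grad_ibp hd hA hf hr hx i
  have h2 : |∫ y : EE d, f (x + r • y) * (y i * wt 2 y)| ≤ M * ∫ y : EE d, wt 2 y := by
    rw [← Real.norm_eq_abs, ← integral_const_mul]
    apply norm_integral_le_of_norm_le ((wt_integrable 2 (by norm_num)).const_mul M)
    refine Eventually.of_forall fun y => ?_
    rcases le_or_gt ‖y‖ 1 with hy | hy
    · rw [norm_mul, norm_mul, Real.norm_of_nonneg (wt_nonneg 2 y), Real.norm_eq_abs]
      have h3 : |f (x + r • y)| ≤ M := hM _ (a4_mem (abs_of_pos hr).le hy)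
      have h4 : ‖y i‖ ≤ 1 := (PiLp.norm_apply_le y i).trans hy
      have h5 : ‖y i‖ * wt 2 y ≤ 1 * wt 2 y := mul_le_mul_of_nonneg_right h4 (wt_nonneg 2 y)
      rw [one_mul] at h5
      exact mul_le_mul h3 h5 (mul_nonneg (norm_nonneg _) (wt_nonneg 2 y)) ((abs_nonneg _).trans h3)
    · rw [wt_eq_zero 2 (by norm_num) hy.le]
      simp
  have h3 : r * (|pd i f x| * ∫ y : EE d, wt 3 y) =
      6 * |∫ y : EE d, f (x + r • y) * (y i * wt 2 y)| := by
    have h4 := congrArg abs h1
    rw [abs_mul, abs_mul, abs_mul, abs_of_pos hr, abs_of_pos hS,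
      abs_of_pos (by norm_num : (0 : ℝ) < 6)] at h4
    exact h4
  rw [div_mul_eq_mul_div, div_div, le_div_iff₀ (mul_pos hS hr)]
  linarith

theorem grad_est {d : ℕ} (hd : 2 ≤ d) : ∃ C : ℝ, 1 ≤ C ∧ ∀ (A : Set (EE d)) (f : EE d → ℝ)
    (x : EE d) (r M : ℝ), IsOpen A → Hm A f → 0 < r → closedBall x r ⊆ A →
    (∀ y ∈ closedBall x r, |f y| ≤ M) → ‖fderiv ℝ f x‖ ≤ C * M / r := by
  set K : ℝ := 6 * (∫ y : EE d, Pool.Agent.Lib.MP_47b33c_an.wt 2 y) /
    (∫ y : EE d, Pool.Agent.Lib.MP_47b33c_an.wt 3 y) with hK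
  refine ⟨max 1 (d * K), le_max_left _ _, ?_⟩
  intro A f x r M hA hf hr hx hM
  have hM0 : 0 ≤ M := (abs_nonneg _).trans (hM x (mem_closedBall_self hr.le))
  have key : ∀ i, |pd i f x| ≤ K * M / r := fun i => grad_pd hd hA hf hr hx hM i
  have hle : (d * K) * M / r ≤ max 1 (d * K) * M / r := by
    apply div_le_div_of_nonneg_right _ hr.le
    exact mul_le_mul_of_nonneg_right (le_max_right _ _) hM0
  refine le_trans ?_ hle
  have hi0 : Nonempty (Fin d) := ⟨⟨0, by omega⟩⟩
  have hK0 : 0 ≤ K * M / r := (abs_nonneg _).trans (key hi0.some)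
  apply ContinuousLinearMap.opNorm_le_bound
  · have : (d * K) * M / r = d * (K * M / r) := by ring
    rw [this]
    exact mul_nonneg (Nat.cast_nonneg _) hK0
  · intro v
    rw [fderiv_eq_sum, Real.norm_eq_abs]
    refine (Finset.abs_sum_le_sum_abs _ _).trans ?_
    have h1 : ∀ i ∈ Finset.univ, |v i * pd i f x| ≤ ‖v‖ * (K * M / r) := by
      intro i _
      rw [abs_mul]
      have h2 : |v i| ≤ ‖v‖ := by
        rw [← Real.norm_eq_abs]
        exact PiLp.norm_apply_le v i
      exact mul_le_mul h2 (key i) (abs_nonneg _) (norm_nonneg _)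
    refine (Finset.sum_le_sum h1).trans (le_of_eq ?_)
    rw [Finset.sum_const, Finset.card_univ, Fintype.card_fin, nsmul_eq_mul]
    ring

end Pool.Agent.MP_0643f8_an.U
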