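import Mathlib
import Pool.Agent.Lib.MP_0643f8_an.U.H03_Grad

/-!
# Identity theorem for harmonic functions

Step 1 (`iter_bound`): for a vector `v` let `D f x = fderiv ℝ f x v = ∑ i, v i * pd i f x` (again
harmonic). With `C` from `grad_est`: if `|f| ≤ M` on `ball c ρ` then for every `m` and every
`x ∈ ball c (ρ / 2)`, `|(D^[m] f) x| ≤ M * (2 * C * m * ‖v‖ / ρ) ^ m` (apply the gradient estimate
`m` times on balls of radius `ρ / (2 m)` (a slightly smaller radius to stay inside), going through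
the balls of radius `ρ - j ρ / (2 m)`).

Step 2 (`ident_ball`): if `f` vanishes near `c` and `x ∈ ball c (ρ * a)`, `a = 1 / (8 * C)`, then
`f x = 0`: the function `t ↦ f (c + t (x - c))` on `[0,1]` has all derivatives `0` at `0` and its
`m`-th derivative is `D^[m] f` at the point, so by Taylor's formula
`|f x| ≤ M (2 C m |x-c|/ρ)^m / m! ≤ M (2 C e |x - c| / ρ)^m → 0` (use `m^m / m! ≤ e^m`).

Step 3 (`ident`): the interior of the zero set is relatively closed.
-/

set_option autoImplicit false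

open MeasureTheory Metric Set Filter Topology
open scoped ContDiff

namespace Pool.Agent.MP_0643f8_an.U

variable {d : ℕ}

private theorem hm_dir {A : Set (EE d)} (hA : IsOpen A) {f : EE d → ℝ} (hf : Hm A f) (v : EE d) :
    Hm A (fun y => fderiv ℝ f y v) := by
  have h : (fun y => fderiv ℝ f y v) = fun y => ∑ i, v i * pd i f y := by
    funext y
    have h1 : v = ∑ i, v i • (EuclideanSpace.single i (1 : ℝ)) := by
      ext k
      simp [Finset.sum_apply, Pi.single_apply]
    conv_lhs => rw [h1]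
    rw [map_sum]
    refine Finset.sum_congr rfl (fun i _ => ?_)
    rw [map_smul, smul_eq_mul]
    rfl
  rw [h]
  exact hm_sum Finset.univ hA (fun j _ => hm_cmul hA (hm_pd hA hf j) (v j))

private theorem hm_iter {A : Set (EE d)} (hA : IsOpen A) {f : EE d → ℝ} (hf : Hm A f) (v : EE d)
    (j : ℕ) : Hm A ((fun g : EE d → ℝ => fun y => fderiv ℝ g y v)^[j] f) := by
  induction j with
  | zero => simpa using hf
  | succ n ih =>
    rw [Function.iterate_succ_apply']
    exact hm_dir hA ih v

theorem iter_bound (hd : 2 ≤ d) : ∃ C : ℝ, 1 ≤ C ∧ ∀ (f : EE d → ℝ) (c v : EE d) (ρ M : ℝ),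
    0 < ρ → Hm (ball c ρ) f → (∀ y ∈ ball c ρ, |f y| ≤ M) → ∀ m : ℕ, 1 ≤ m →
    ∀ x ∈ ball c (ρ / 2), |((fun g : EE d → ℝ => fun y => fderiv ℝ g y v)^[m] f) x| ≤
      M * (C * m * ‖v‖ / ρ) ^ m := by
  obtain ⟨C, hC1, hC⟩ := grad_est hd
  refine ⟨4 * C, by linarith, ?_⟩
  intro f c v ρ M hρ hf hM m hm
  have hm0 : (0 : ℝ) < m := by exact_mod_cast hm
  have hr : 0 < ρ / (4 * m) := by positivity
  have key : ∀ j : ℕ, j ≤ m → ∀ y ∈ ball c (ρ - j * (2 * (ρ / (4 * m)))),
      |((fun g : EE d → ℝ => fun y => fderiv ℝ g y v)^[j] f) y| ≤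
        M * (4 * C * m * ‖v‖ / ρ) ^ j := by
    intro j
    induction j with
    | zero =>
      intro _ y hy
      simp only [Nat.cast_zero, zero_mul, sub_zero] at hy
      simpa using hM y hy
    | succ n ih =>
      intro hn y hy
      have ih' := ih (by omega)
      have hsub : closedBall y (ρ / (4 * m)) ⊆ ball c (ρ - n * (2 * (ρ / (4 * m)))) := by
        intro z hz
        rw [mem_closedBall] at hz
        rw [mem_ball] at hy ⊢
        have h1 := dist_triangle z y c
        push_cast at hy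
        linarith
      have hsub2 : closedBall y (ρ / (4 * m)) ⊆ ball c ρ := by
        refine hsub.trans (ball_subset_ball ?_)
        have : 0 ≤ (n : ℝ) * (2 * (ρ / (4 * m))) := by positivity
        linarith
      have h2 := hC (ball c ρ) _ y (ρ / (4 * m)) (M * (4 * C * m * ‖v‖ / ρ) ^ n) isOpen_ball
        (hm_iter isOpen_ball hf v n) hr hsub2 (fun z hz => ih' z (hsub hz))
      rw [Function.iterate_succ_apply']
      have h3 : |fderiv ℝ ((fun g : EE d → ℝ => fun y => fderiv ℝ g y v)^[n] f) y v| ≤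
          ‖fderiv ℝ ((fun g : EE d → ℝ => fun y => fderiv ℝ g y v)^[n] f) y‖ * ‖v‖ := by
        rw [← Real.norm_eq_abs]
        exact ContinuousLinearMap.le_opNorm _ _
      refine h3.trans ((mul_le_mul_of_nonneg_right h2 (norm_nonneg _)).trans (le_of_eq ?_))
      rw [pow_succ]
      field_simp
  intro x hx
  refine key m le_rfl x ?_
  have h4 : ρ - m * (2 * (ρ / (4 * m))) = ρ / 2 := by
    field_simp
    ring
  rw [h4]
  exact hx

private theorem taylor_zero (g : ℕ → ℝ → ℝ) (m : ℕ) (B : ℝ)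
    (hd : ∀ j < m, ∀ t ∈ Icc (0 : ℝ) 1, HasDerivAt (g j) (g (j + 1) t) t)
    (h0 : ∀ j < m, g j 0 = 0) (hB : ∀ t ∈ Icc (0 : ℝ) 1, |g m t| ≤ B) :
    ∀ k : ℕ, k ≤ m → ∀ t ∈ Icc (0 : ℝ) 1, |g (m - k) t| ≤ B * t ^ k / k.factorial := by
  intro k
  induction k with
  | zero =>
    intro _ t ht
    simpa using hB t ht
  | succ n ih =>
    intro hn t ht
    have ih' := ih (by omega)
    have hj : m - (n + 1) < m := by omega
    have hj1 : m - (n + 1) + 1 = m - n := by omega
    have hder : ∀ s ∈ Icc (0 : ℝ) 1, HasDerivAt (g (m - (n + 1))) (g (m - n) s) s := by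
      intro s hs
      have := hd (m - (n + 1)) hj s hs
      rwa [hj1] at this
    have hb : ∀ s : ℝ, HasDerivAt (fun s : ℝ => B * s ^ (n + 1) / (n + 1).factorial)
        (B * s ^ n / n.factorial) s := by
      intro s
      have h1 := ((hasDerivAt_pow (n + 1) s).const_mul B).div_const ((n + 1).factorial : ℝ)
      refine h1.congr_deriv ?_
      rw [Nat.factorial_succ]
      push_cast
      have h2 : (n.factorial : ℝ) ≠ 0 := by positivity
      have h3 : ((n : ℝ) + 1) ≠ 0 := by positivity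
      field_simp
    have := image_norm_le_of_norm_deriv_right_le_deriv_boundary (f := g (m - (n + 1)))
      (f' := fun s => g (m - n) s) (a := 0) (b := 1)
      (B := fun s : ℝ => B * s ^ (n + 1) / (n + 1).factorial)
      (B' := fun s : ℝ => B * s ^ n / n.factorial)
      (fun s hs => (hder s hs).continuousAt.continuousWithinAt)
      (fun s hs => (hder s ⟨hs.1, hs.2.le⟩).hasDerivWithinAt)
      (by rw [h0 _ hj]; simp) hb
      (fun s hs => by
        rw [Real.norm_eq_abs]
        exact ih' s ⟨hs.1, hs.2.le⟩) ht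
    rw [Real.norm_eq_abs] at this
    exact this

private theorem iter_zero {f : EE d → ℝ} {c : EE d} (h : f =ᶠ[𝓝 c] (fun _ => 0)) (v : EE d)
    (j : ℕ) : ((fun g : EE d → ℝ => fun y => fderiv ℝ g y v)^[j] f) =ᶠ[𝓝 c] (fun _ => 0) := by
  induction j with
  | zero => simpa using h
  | succ n ih =>
    rw [Function.iterate_succ_apply']
    filter_upwards [ih.eventuallyEq_nhds] with y hy
    have h1 := Filter.EventuallyEq.fderiv_eq (𝕜 := ℝ) hy
    rw [h1]
    simp

theorem ident_ball (hd : 2 ≤ d) : ∃ a : ℝ, 0 < a ∧ a ≤ 1 ∧ ∀ (f : EE d → ℝ) (c : EE d) (ρ : ℝ),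
    0 < ρ → Hm (ball c ρ) f → f =ᶠ[𝓝 c] (fun _ => 0) → ∀ x ∈ ball c (a * ρ), f x = 0 := by
  obtain ⟨C, hC1, hC⟩ := iter_bound hd
  have hC0 : 0 < C := by linarith
  refine ⟨1 / (16 * C), by positivity, ?_, ?_⟩
  · rw [div_le_one (by positivity)]
    linarith
  intro f c ρ hρ hf h0 x hx
  have hρ2 : 0 < ρ / 2 := by positivity
  -- bound on the half ball
  have hcont : ContinuousOn f (closedBall c (ρ / 2)) :=
    (hf.1.continuousOn).mono (closedBall_subset_ball (by linarith))
  obtain ⟨M, hM⟩ := (isCompact_closedBall c (ρ / 2)).exists_bound_of_continuousOn hcont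
  have hM' : ∀ y ∈ ball c (ρ / 2), |f y| ≤ M := fun y hy => by
    have := hM y (ball_subset_closedBall hy)
    rwa [Real.norm_eq_abs] at this
  have hM0 : 0 ≤ M := (abs_nonneg _).trans (hM' c (mem_ball_self hρ2))
  have hf2 : Hm (ball c (ρ / 2)) f := hm_mono hf (ball_subset_ball (by linarith))
  obtain ⟨v, hv⟩ : ∃ v : EE d, v = x - c := ⟨_, rfl⟩
  have hvn : ‖v‖ < 1 / (16 * C) * ρ := by
    rw [hv, ← dist_eq_norm]
    exact mem_ball.1 hx
  have hvρ : ‖v‖ < ρ / 4 := by
    refine hvn.trans_le ?_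
    have : 1 / (16 * C) ≤ 1 / 4 := by
      rw [div_le_div_iff₀ (by positivity) (by norm_num)]
      linarith
    nlinarith
  have hmem : ∀ t ∈ Icc (0 : ℝ) 1, c + t • v ∈ ball c (ρ / 2 / 2) := by
    intro t ht
    rw [mem_ball, dist_eq_norm, add_sub_cancel_left, norm_smul, Real.norm_of_nonneg ht.1]
    have := mul_le_mul_of_nonneg_right ht.2 (norm_nonneg v)
    linarith
  have hmem2 : ∀ t ∈ Icc (0 : ℝ) 1, c + t • v ∈ ball c ρ := fun t ht =>
    ball_subset_ball (by linarith) (hmem t ht)
  have hbd : ∀ m : ℕ, 1 ≤ m → |f x| ≤ M * (1 / 2) ^ m := by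
    intro m hm
    have hm0 : (0 : ℝ) < m := by exact_mod_cast hm
    have h1 := taylor_zero
      (fun j t => ((fun g : EE d → ℝ => fun y => fderiv ℝ g y v)^[j] f) (c + t • v)) m
      (M * (C * m * ‖v‖ / (ρ / 2)) ^ m) ?_ ?_ ?_ m le_rfl 1 (by simp)
    · simp only [Nat.sub_self, Function.iterate_zero, id_eq, one_smul, one_pow, mul_one] at h1
      have h2 : c + v = x := by rw [hv]; abel
      rw [h2] at h1
      refine h1.trans ?_
      have h3 : C * m * ‖v‖ / (ρ / 2) ≤ m / 8 := by
        rw [div_le_div_iff₀ (by positivity) (by norm_num)]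
        have h4 : C * ‖v‖ ≤ ρ / 16 := by
          have h5 := mul_le_mul_of_nonneg_left hvn.le hC0.le
          have h6 : C * (1 / (16 * C) * ρ) = ρ / 16 := by
            field_simp
          linarith
        nlinarith
      have h4 : (C * m * ‖v‖ / (ρ / 2)) ^ m ≤ (m / 8 : ℝ) ^ m :=
        pow_le_pow_left₀ (by positivity) h3 m
      have h5 : (m : ℝ) ^ m / m.factorial ≤ Real.exp m := Real.pow_div_factorial_le_exp _ hm0.le m
      have h6 : Real.exp m ≤ 4 ^ m := by
        rw [← Real.exp_one_pow m]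
        refine pow_le_pow_left₀ (Real.exp_pos 1).le ?_ m
        have := Real.exp_one_lt_d9
        linarith
      have h7 : (0 : ℝ) < m.factorial := by positivity
      calc M * (C * m * ‖v‖ / (ρ / 2)) ^ m / m.factorial
          ≤ M * (m / 8 : ℝ) ^ m / m.factorial := by gcongr
        _ = M * ((m : ℝ) ^ m / m.factorial) * (1 / 8) ^ m := by
            rw [div_pow, one_div_pow]
            ring
        _ ≤ M * 4 ^ m * (1 / 8) ^ m := by
            have := h5.trans h6
            gcongr
        _ = M * (1 / 2) ^ m := by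
            rw [mul_assoc, ← mul_pow]
            norm_num
    · intro j _ t ht
      have hH := hm_iter isOpen_ball hf v j
      have hdf : DifferentiableAt ℝ ((fun g : EE d → ℝ => fun y => fderiv ℝ g y v)^[j] f)
          (c + t • v) := hm_diffAt hH isOpen_ball (hmem2 t ht)
      have hline : HasDerivAt (fun t : ℝ => c + t • v) v t := by
        have := ((hasDerivAt_id t).smul_const v).const_add c
        simpa using this
      have := hdf.hasFDerivAt.comp_hasDerivAt t hline
      rw [Function.iterate_succ_apply']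
      exact this
    · intro j _
      have h1 := (iter_zero h0 v j).eq_of_nhds
      simpa using h1
    · intro t ht
      exact hC f c v (ρ / 2) M hρ2 hf2 hM' m hm _ (hmem t ht)
  have hlim : Tendsto (fun m : ℕ => M * (1 / 2 : ℝ) ^ m) atTop (𝓝 (M * 0)) :=
    (tendsto_pow_atTop_nhds_zero_of_lt_one (by norm_num) (by norm_num)).const_mul M
  have h9 : |f x| ≤ M * 0 := ge_of_tendsto hlim (by
    filter_upwards [eventually_ge_atTop 1] with m hm
    exact hbd m hm)
  rw [mul_zero] at h9
  exact abs_nonpos_iff.1 h9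

/-- identity theorem -/
theorem ident (hd : 2 ≤ d) {A : Set (EE d)} (hA : IsOpen A) (hAc : IsPreconnected A)
    {f : EE d → ℝ} (hf : Hm A f) {x₀ : EE d} (hx₀ : x₀ ∈ A) (h0 : f =ᶠ[𝓝 x₀] (fun _ => 0)) :
    ∀ x ∈ A, f x = 0 := by
  obtain ⟨a, ha0, ha1, ha⟩ := ident_ball hd
  have hu : IsOpen {x : EE d | f =ᶠ[𝓝 x] (fun _ => 0)} := isOpen_setOfPred_eventually_nhds
  have hsub : A ⊆ {x : EE d | f =ᶠ[𝓝 x] (fun _ => 0)} := by
    refine hAc.subset_of_closure_inter_subset hu ⟨x₀, hx₀, h0⟩ ?_
    rintro x ⟨hx, hxA⟩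
    obtain ⟨ρ, hρ, hball⟩ := Metric.isOpen_iff.1 hA x hxA
    obtain ⟨c, hc, hcx⟩ := Metric.mem_closure_iff.1 hx (a * (ρ / 2)) (by positivity)
    have hcx2 : dist x c < ρ / 2 := by nlinarith
    have hsubc : ball c (ρ / 2) ⊆ A := by
      intro y hy
      refine hball ?_
      rw [mem_ball] at hy ⊢
      have := dist_triangle y c x
      rw [dist_comm c x] at this
      linarith
    have hz := ha f c (ρ / 2) (by positivity) (hm_mono hf hsubc) hc
    show ∀ᶠ y in 𝓝 x, f y = 0
    filter_upwards [isOpen_ball.mem_nhds (mem_ball.2 hcx)] with y hy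
    exact hz y hy
  intro x hx
  exact (hsub hx).eq_of_nhds

end Pool.Agent.MP_0643f8_an.U
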