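import Mathlib
import Pool.Agent.Lib.MP_0643f8_an.U.H04_Ident

/-!
# Identity theorem along segments and rays

For a connected set `S ⊆ A`, `A` open, use the connected component of `A` containing `S`
(`IsOpen.connectedComponentIn`, `isPreconnected_connectedComponentIn`,
`IsPreconnected.subset_connectedComponentIn`).
-/

set_option autoImplicit false

open MeasureTheory Metric Set Filter Topology
open scoped ContDiff

namespace Pool.Agent.MP_0643f8_an.U

variable {d : ℕ}

theorem ident_conn (hd : 2 ≤ d) {A S : Set (EE d)} (hA : IsOpen A) (hSA : S ⊆ A)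
    (hS : IsPreconnected S) {f : EE d → ℝ} (hf : Hm A f) {x₀ : EE d} (hx₀ : x₀ ∈ S)
    (h0 : f =ᶠ[𝓝 x₀] (fun _ => 0)) : ∀ x ∈ S, f =ᶠ[𝓝 x] (fun _ => 0) := by
  intro x hx
  have hBo : IsOpen (connectedComponentIn A x₀) := hA.connectedComponentIn
  have hBA : connectedComponentIn A x₀ ⊆ A := connectedComponentIn_subset A x₀
  have hSB : S ⊆ connectedComponentIn A x₀ := hS.subset_connectedComponentIn hx₀ hSA
  have hfB : Hm (connectedComponentIn A x₀) f :=
    ⟨hf.1.mono hBA, fun y hy => hf.2 y (hBA hy)⟩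
  have hz := ident hd hBo isPreconnected_connectedComponentIn hfB (hSB hx₀) h0
  filter_upwards [hBo.mem_nhds (hSB hx)] with y hy
  exact hz y hy

/-- on a star-shaped open set -/
theorem ident_star (hd : 2 ≤ d) {A : Set (EE d)} (hA : StarO A) {f : EE d → ℝ} (hf : Hm A f)
    (h0 : f =ᶠ[𝓝 0] (fun _ => 0)) : ∀ x ∈ A, f x = 0 := by
  intro x hx
  have hS : IsPreconnected ((fun t : ℝ => t • x) '' Icc 0 1) :=
    isPreconnected_Icc.image _ (continuous_id.smul continuous_const).continuousOn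
  have hSA : (fun t : ℝ => t • x) '' Icc 0 1 ⊆ A := by
    rintro _ ⟨t, ht, rfl⟩
    exact hA.2.2 x hx t ht.1 ht.2
  have h1 := ident_conn hd hA.1 hSA hS hf (x₀ := 0)
    ⟨0, ⟨le_rfl, zero_le_one⟩, zero_smul ℝ x⟩ h0 x ⟨1, ⟨zero_le_one, le_rfl⟩, one_smul ℝ x⟩
  exact h1.self_of_nhds

/-- along rays going to infinity inside `A`: `f` vanishes at the points of `A` of large norm -/
theorem ident_ray (hd : 2 ≤ d) {A : Set (EE d)} (hA : IsOpen A) {f : EE d → ℝ} (hf : Hm A f)
    {R : ℝ} (h0 : ∀ x ∈ A, R < ‖x‖ → f x = 0) {x v : EE d} (hv : v ≠ 0)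
    (hray : ∀ t : ℝ, 0 ≤ t → x + t • v ∈ A) : f x = 0 := by
  have hS : IsPreconnected ((fun t : ℝ => x + t • v) '' Ici 0) :=
    isPreconnected_Ici.image _
      (continuous_const.add (continuous_id.smul continuous_const)).continuousOn
  have hSA : (fun t : ℝ => x + t • v) '' Ici 0 ⊆ A := by
    rintro _ ⟨t, ht, rfl⟩
    exact hray t ht
  have hvp : 0 < ‖v‖ := norm_pos_iff.2 hv
  set T : ℝ := (|R| + ‖x‖ + 1) / ‖v‖ with hT
  have hT0 : 0 ≤ T := by positivity
  have hTR : R < ‖x + T • v‖ := by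
    have h1 : ‖T • v‖ = |R| + ‖x‖ + 1 := by
      rw [norm_smul, Real.norm_of_nonneg hT0, hT, div_mul_cancel₀ _ hvp.ne']
    have h2 : ‖T • v‖ ≤ ‖x + T • v‖ + ‖x‖ := by
      have := norm_sub_le (x + T • v) x
      rwa [add_sub_cancel_left] at this
    have h3 := le_abs_self R
    linarith
  have hnear : f =ᶠ[𝓝 (x + T • v)] (fun _ => 0) := by
    have ho : IsOpen (A ∩ {y : EE d | R < ‖y‖}) :=
      hA.inter (isOpen_lt continuous_const continuous_norm)
    filter_upwards [ho.mem_nhds ⟨hray T hT0, hTR⟩] with y hy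
    exact h0 y hy.1 hy.2
  have h1 := ident_conn hd hA hSA hS hf (x₀ := x + T • v) ⟨T, hT0, rfl⟩ hnear x
    ⟨0, self_mem_Ici, by simp⟩
  exact h1.self_of_nhds

/-- on an open set stable under the dilations of ratio `≥ 1` -/
theorem ident_out (hd : 2 ≤ d) {A : Set (EE d)} (hA : OutO A) (hA0 : (0 : EE d) ∉ A)
    {f : EE d → ℝ} (hf : Hm A f) {R : ℝ} (h0 : ∀ x ∈ A, R < ‖x‖ → f x = 0) :
    ∀ x ∈ A, f x = 0 := by
  intro x hx
  have hx0 : x ≠ 0 := fun h => hA0 (h ▸ hx)
  refine ident_ray hd hA.1 hf h0 hx0 (fun t ht => ?_)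
  have : x + t • x = (1 + t) • x := by rw [add_smul, one_smul]
  rw [this]
  exact hA.2 x hx (1 + t) (by linarith)

end Pool.Agent.MP_0643f8_an.U
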