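import Mathlib
import Pool.Agent.Lib.MP_0643f8_an.U.E1_Kel
import Pool.Agent.Lib.MP_0643f8_an.U.H07_Integral
import Pool.Agent.Lib.MP_0643f8_an.U.H05_Ident2

/-!
# Extension of solutions of `E f - r f = g`

`f` solves `E f - r f = g` near `0` and `g` is harmonic on the star-shaped open set `A`. Choose
`δ > 0` such that `ball 0 δ ⊆ A`, `f` is harmonic and the equation holds there. For `x ∈ A` and
`0 < t ≤ 1` with `t |x| < δ` put `F t x = t^{-r} f (t x) + ∫_t^1 s^{-r-1} g (s x) ds`. It does not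
depend on `t` (its derivative in `t` is `t^{-r-1} (E f - r f - g)(t x) = 0`). So
`f' x := F (δ / (2 (δ + ‖x‖))) x` equals, near each `x₀ ∈ A`, the function `F t₀` with `t₀` fixed
(for example `t₀ = δ / (2 (δ + ‖x₀‖ + 1))`), which is harmonic by `hm_affine` and
`hm_integral_Ioc`. Near `0` one may take `t = 1`, so `f' = f` there. The function
`E f' - r f' - g` is harmonic on `A` (real and imaginary parts) and vanishes near `0`, so it
vanishes on `A` by `ident_star`.
-/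

set_option autoImplicit false

open MeasureTheory Metric Set Filter Topology
open scoped ContDiff

namespace Pool.Agent.MP_0643f8_an.U

variable {d : ℕ}

/-- the integrand -/
private noncomputable def eG (r : ℂ) (g : EE d → ℂ) (s : ℝ) (x : EE d) : ℂ :=
  (s : ℂ) ^ (-r - 1) * g (s • x)

/-- the candidate -/
private noncomputable def eF (r : ℂ) (f g : EE d → ℂ) (t : ℝ) (x : EE d) : ℂ :=
  (t : ℂ) ^ (-r) * f (t • x) + ∫ s in t..1, eG r g s x

private theorem eG_cont {A : Set (EE d)} (hA : StarO A) (r : ℂ) {g : EE d → ℂ}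
    (hg : ContinuousOn g A) :
    ContinuousOn (Function.uncurry (eG r g)) (Ioc 0 1 ×ˢ A) := by
  unfold eG Function.uncurry
  apply ContinuousOn.mul
  · intro p hp
    have h1 : ContinuousAt (fun s : ℝ => (s : ℂ) ^ (-r - 1)) p.1 := by
      have h2 : HasDerivAt (fun y : ℝ => ((y : ℂ)) ^ (-r - 1)) _ p.1 :=
        ((hasDerivAt_id (p.1 : ℂ)).cpow_const (c := -r - 1)
        (Complex.ofReal_mem_slitPlane.2 hp.1.1)).comp_ofReal
      exact h2.continuousAt
    exact (h1.comp (continuous_fst.continuousAt)).continuousWithinAt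
  · refine hg.comp (f := fun p : ℝ × EE d => p.1 • p.2)
      (continuous_fst.smul continuous_snd).continuousOn ?_
    rintro ⟨s, x⟩ ⟨hs, hx⟩
    exact hA.2.2 x hx s hs.1.le hs.2

private theorem eG_cont_s {A : Set (EE d)} (hA : StarO A) (r : ℂ) {g : EE d → ℂ}
    (hg : ContinuousOn g A) {x : EE d} (hx : x ∈ A) {t : ℝ} (ht : 0 < t) {t' : ℝ}
    (ht' : t' ≤ 1) :
    ContinuousOn (fun s => eG r g s x) (Icc t t') := by
  have h1 := eG_cont hA r hg
  refine h1.comp (f := fun s : ℝ => (s, x)) (by fun_prop) ?_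
  intro s hs
  exact ⟨⟨ht.trans_le hs.1, hs.2.trans ht'⟩, hx⟩

private theorem eF_indep {A : Set (EE d)} (hA : StarO A) (r : ℂ) {f g : EE d → ℂ}
    (hg : ContinuousOn g A) {δ : ℝ} (hf : ∀ y ∈ ball (0 : EE d) δ, DifferentiableAt ℝ f y)
    (h : ∀ y ∈ ball (0 : EE d) δ, eul f y - r * f y = g y) {x : EE d} (hx : x ∈ A)
    {t₁ t₂ : ℝ} (h0 : 0 < t₁) (h12 : t₁ ≤ t₂) (h2 : t₂ ≤ 1) (hxd : t₂ * ‖x‖ < δ) :
    eF r f g t₁ x = eF r f g t₂ x := by
  have hmem : ∀ s ∈ Icc t₁ t₂, s • x ∈ ball (0 : EE d) δ := by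
    intro s hs
    rw [mem_ball_zero_iff, norm_smul, Real.norm_of_nonneg (h0.le.trans hs.1)]
    exact (mul_le_mul_of_nonneg_right hs.2 (norm_nonneg x)).trans_lt hxd
  have hder : ∀ s ∈ uIcc t₁ t₂, HasDerivAt (fun s : ℝ => ((s : ℂ)) ^ (-r) * f (s • x))
      (eG r g s x) s := by
    intro s hs
    rw [uIcc_of_le h12] at hs
    have hs0 : 0 < s := h0.trans_le hs.1
    have hsc : (s : ℂ) ≠ 0 := by exact_mod_cast hs0.ne'
    have e1 : HasDerivAt (fun y : ℝ => ((y : ℂ)) ^ (-r)) ((-r) * (s : ℂ) ^ (-r - 1)) s := by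
      have := ((hasDerivAt_id (s : ℂ)).cpow_const (c := -r)
        (Complex.ofReal_mem_slitPlane.2 hs0)).comp_ofReal
      simpa using this
    have e2 : HasDerivAt (fun y : ℝ => f (y • x)) (fderiv ℝ f (s • x) x) s := by
      have e3 : HasDerivAt (fun y : ℝ => y • x) x s := by
        simpa using (hasDerivAt_id s).smul_const x
      exact (hf _ (hmem s hs)).hasFDerivAt.comp_hasDerivAt s e3
    have e4 : fderiv ℝ f (s • x) x = (s : ℂ)⁻¹ * (g (s • x) + r * f (s • x)) := by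
      have e5 := h _ (hmem s hs)
      unfold eul at e5
      rw [map_smul, Complex.real_smul] at e5
      rw [← e5, sub_add_cancel, ← mul_assoc, inv_mul_cancel₀ hsc, one_mul]
    have e6 := e1.mul e2
    have e7 : (-r) * (s : ℂ) ^ (-r - 1) * f (s • x) +
        (s : ℂ) ^ (-r) * (fderiv ℝ f (s • x) x) = eG r g s x := by
      unfold eG
      rw [e4, Complex.cpow_sub _ _ hsc, Complex.cpow_one]
      field_simp
      ring
    rw [e7] at e6
    exact e6
  have hint1 : IntervalIntegrable (fun s => eG r g s x) volume t₁ t₂ := by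
    apply ContinuousOn.intervalIntegrable
    rw [uIcc_of_le h12]
    exact eG_cont_s hA r hg hx h0 h2
  have hint2 : IntervalIntegrable (fun s => eG r g s x) volume t₂ 1 := by
    apply ContinuousOn.intervalIntegrable
    rw [uIcc_of_le h2]
    exact eG_cont_s hA r hg hx (h0.trans_le h12) le_rfl
  have h3 := intervalIntegral.integral_eq_sub_of_hasDerivAt hder hint1
  have h4 := intervalIntegral.integral_add_adjacent_intervals hint1 hint2
  unfold eF
  rw [← h4, h3]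
  ring

private theorem hm_intG (hd : 2 ≤ d) {A : Set (EE d)} (hA : StarO A) {t : ℝ} (ht : 0 < t)
    {K : ℝ → EE d → ℝ} (hK : ContinuousOn (Function.uncurry K) (Ioc 0 1 ×ˢ A))
    (hh : ∀ s ∈ Ioc (0 : ℝ) 1, Hm A (K s)) :
    Hm A (fun x => ∫ s in Ioc t 1, K s x) := by
  have hsub : Ioc t 1 ⊆ Ioc (0 : ℝ) 1 := Ioc_subset_Ioc_left ht.le
  have hmain := hm_integral_Ioc hd (a := t) (b := 1) (fun _ => 1)
    (integrableOn_const (by simp)) (fun _ _ => zero_le_one) (K := K) hA.1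
    (hK.mono (prod_mono hsub subset_rfl)) (fun s hs => hh s (hsub hs)) ?_
  · simpa using hmain
  · intro x hx
    obtain ⟨ε, hε, hεA⟩ := Metric.isOpen_iff.1 hA.1 x hx
    have hcb : closedBall x (ε / 2) ⊆ A := (closedBall_subset_ball (by linarith)).trans hεA
    have hcomp : IsCompact (Icc t 1 ×ˢ closedBall x (ε / 2)) :=
      isCompact_Icc.prod (isCompact_closedBall x (ε / 2))
    have hcont : ContinuousOn (Function.uncurry K) (Icc t 1 ×ˢ closedBall x (ε / 2)) := by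
      apply hK.mono
      rintro ⟨s, y⟩ ⟨hs, hy⟩
      exact ⟨⟨ht.trans_le hs.1, hs.2⟩, hcb hy⟩
    obtain ⟨C, hC⟩ := hcomp.exists_bound_of_continuousOn hcont
    refine ⟨C, ?_⟩
    filter_upwards [closedBall_mem_nhds x (half_pos hε)] with y hy s hs
    exact hC (s, y) ⟨Ioc_subset_Icc_self hs, hy⟩

private theorem hm_scale {A : Set (EE d)} {u : EE d → ℝ} {B : Set (EE d)} (hA : IsOpen A)
    (hu : Hm A u) {s : ℝ} (hs : s ≠ 0) (hB : ∀ x ∈ B, s • x ∈ A) :
    Hm B (fun x => u (s • x)) := by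
  have h1 := hm_affine hA hu 0 hs
  simp only [zero_add] at h1
  exact hm_mono h1 hB

private theorem hc_eF (hd : 2 ≤ d) {A : Set (EE d)} (hA : StarO A) (r : ℂ)
    {f g : EE d → ℂ} (hg : HC A g) {δ : ℝ} (hf : HC (ball 0 δ) f) {t : ℝ} (ht : 0 < t)
    (ht1 : t ≤ 1) :
    HC (A ∩ {x | t * ‖x‖ < δ}) (eF r f g t) := by
  have hBo : IsOpen (A ∩ {x : EE d | t * ‖x‖ < δ}) :=
    hA.1.inter (isOpen_lt (continuous_const.mul continuous_norm) continuous_const)
  have hmem : ∀ x ∈ A ∩ {x : EE d | t * ‖x‖ < δ}, t • x ∈ ball (0 : EE d) δ := by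
    rintro x ⟨_, hx⟩
    rw [mem_ball_zero_iff, norm_smul, Real.norm_of_nonneg ht.le]
    exact hx
  have hgc : ContinuousOn g A := (hc_contDiffOn hg).continuousOn
  have ha : HC (A ∩ {x | t * ‖x‖ < δ}) (fun x => (t : ℂ) ^ (-r) * f (t • x)) := by
    apply hc_cmul hBo
    exact ⟨hm_scale isOpen_ball hf.1 ht.ne' hmem, hm_scale isOpen_ball hf.2 ht.ne' hmem⟩
  have hGs : ∀ s ∈ Ioc (0 : ℝ) 1, HC A (eG r g s) := by
    intro s hs
    unfold eG
    apply hc_cmul hA.1
    have hm : ∀ x ∈ A, s • x ∈ A := fun x hx => hA.2.2 x hx s hs.1.le hs.2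
    exact ⟨hm_scale hA.1 hg.1 hs.1.ne' hm, hm_scale hA.1 hg.2 hs.1.ne' hm⟩
  have hGc := eG_cont hA r hgc
  have hint : ∀ x ∈ A, IntegrableOn (fun s => eG r g s x) (Ioc t 1) := by
    intro x hx
    exact ((eG_cont_s hA r hgc hx ht le_rfl).integrableOn_Icc).mono_set Ioc_subset_Icc_self
  have hre : Hm A (fun x => (∫ s in t..1, eG r g s x).re) := by
    refine hm_congr (hm_intG hd hA ht (K := fun s x => (eG r g s x).re)
      (Complex.continuous_re.comp_continuousOn hGc) (fun s hs => (hGs s hs).1)) hA.1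
      (fun x hx => ?_)
    rw [intervalIntegral.integral_of_le ht1]
    exact (integral_re (hint x hx)).symm
  have him : Hm A (fun x => (∫ s in t..1, eG r g s x).im) := by
    refine hm_congr (hm_intG hd hA ht (K := fun s x => (eG r g s x).im)
      (Complex.continuous_im.comp_continuousOn hGc) (fun s hs => (hGs s hs).2)) hA.1
      (fun x hx => ?_)
    rw [intervalIntegral.integral_of_le ht1]
    exact (integral_im (hint x hx)).symm
  constructor
  · refine hm_congr (hm_add hBo ha.1 (hm_mono hre inter_subset_left)) hBo (fun x _ => ?_)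
    unfold eF
    rw [Complex.add_re]
  · refine hm_congr (hm_add hBo ha.2 (hm_mono him inter_subset_left)) hBo (fun x _ => ?_)
    unfold eF
    rw [Complex.add_im]

theorem ext1 (hd : 2 ≤ d) {A : Set (EE d)} (hA : StarO A) (r : ℂ)
    {f g : EE d → ℂ} (hg : HC A g) {δ : ℝ} (hδ : 0 < δ) (hf : HC (ball 0 δ) f)
    (h : (fun x => eul f x - r * f x) =ᶠ[𝓝 0] g) :
    ∃ f' : EE d → ℂ, HC A f' ∧ f' =ᶠ[𝓝 0] f ∧ ∀ x ∈ A, eul f' x - r * f' x = g x := by
  -- shrink `δ`
  obtain ⟨δ₁, hδ₁, h1⟩ := Metric.eventually_nhds_iff_ball.1 h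
  obtain ⟨δ₂, hδ₂, h2⟩ := Metric.isOpen_iff.1 hA.1 0 hA.2.1
  set ρ : ℝ := min δ (min δ₁ δ₂) with hρ
  have hρ0 : 0 < ρ := lt_min hδ (lt_min hδ₁ hδ₂)
  have hρ1 : ball (0 : EE d) ρ ⊆ ball 0 δ := ball_subset_ball (min_le_left _ _)
  have hρ2 : ball (0 : EE d) ρ ⊆ ball 0 δ₁ :=
    ball_subset_ball ((min_le_right _ _).trans (min_le_left _ _))
  have hρ3 : ball (0 : EE d) ρ ⊆ A :=
    (ball_subset_ball ((min_le_right _ _).trans (min_le_right _ _))).trans h2
  have hgc : ContinuousOn g A := (hc_contDiffOn hg).continuousOn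
  have hf' : HC (ball 0 ρ) f := ⟨hm_mono hf.1 hρ1, hm_mono hf.2 hρ1⟩
  have hfd : ∀ y ∈ ball (0 : EE d) ρ, DifferentiableAt ℝ f y := fun y hy =>
    ((hc_contDiffOn hf').contDiffAt (isOpen_ball.mem_nhds hy)).differentiableAt (by simp)
  have heq : ∀ y ∈ ball (0 : EE d) ρ, eul f y - r * f y = g y := fun y hy => h1 y (hρ2 hy)
  set τ : EE d → ℝ := fun x => min 1 (ρ / (2 * (‖x‖ + 1))) with hτ
  have hτ0 : ∀ x, 0 < τ x := fun x => lt_min one_pos (by positivity)
  have hτ1 : ∀ x, τ x ≤ 1 := fun x => min_le_left _ _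
  have hτ2 : ∀ x, τ x * ‖x‖ < ρ := by
    intro x
    have h3 : τ x ≤ ρ / (2 * (‖x‖ + 1)) := min_le_right _ _
    have h4 : ρ / (2 * (‖x‖ + 1)) * ‖x‖ < ρ := by
      rw [div_mul_eq_mul_div, div_lt_iff₀ (by positivity)]
      nlinarith [norm_nonneg x]
    exact (mul_le_mul_of_nonneg_right h3 (norm_nonneg x)).trans_lt h4
  have hind : ∀ x ∈ A, ∀ t : ℝ, 0 < t → t ≤ 1 → t * ‖x‖ < ρ →
      eF r f g (τ x) x = eF r f g t x := by
    intro x hx t ht0 ht1 htx
    rcases le_total (τ x) t with hle | hle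
    · exact eF_indep hA r hgc hfd heq hx (hτ0 x) hle ht1 htx
    · exact (eF_indep hA r hgc hfd heq hx ht0 hle (hτ1 x) (hτ2 x)).symm
  set F : EE d → ℂ := fun x => eF r f g (τ x) x with hF
  have hFnear : ∀ x ∈ ball (0 : EE d) ρ, F x = f x := by
    intro x hx
    have h3 := hind x (hρ3 hx) 1 one_pos le_rfl (by simpa using hx)
    rw [hF]
    simp only
    rw [h3]
    unfold eF
    simp
  have hlocal : ∀ x ∈ A, ∃ B, IsOpen B ∧ x ∈ B ∧ HC B F := by
    intro x₀ hx₀
    set t₀ : ℝ := min 1 (ρ / (2 * (‖x₀‖ + 1))) with ht₀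
    have ht00 : 0 < t₀ := hτ0 x₀
    have hBo : IsOpen (A ∩ {x : EE d | t₀ * ‖x‖ < ρ}) :=
      hA.1.inter (isOpen_lt (continuous_const.mul continuous_norm) continuous_const)
    refine ⟨A ∩ {x | t₀ * ‖x‖ < ρ}, hBo, ⟨hx₀, hτ2 x₀⟩, ?_⟩
    have h3 := hc_eF hd hA r hg hf' ht00 (hτ1 x₀)
    have h4 : ∀ x ∈ A ∩ {x : EE d | t₀ * ‖x‖ < ρ}, F x = eF r f g t₀ x := by
      rintro x ⟨hxA, hx⟩
      exact hind x hxA t₀ ht00 (hτ1 x₀) hx
    exact ⟨hm_congr h3.1 hBo (fun x hx => by rw [h4 x hx]),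
      hm_congr h3.2 hBo (fun x hx => by rw [h4 x hx])⟩
  have hFA : HC A F := by
    constructor
    · refine hm_of_local (fun x hx => ?_)
      obtain ⟨B, hB, hxB, hFB⟩ := hlocal x hx
      exact ⟨B, hB, hxB, hFB.1⟩
    · refine hm_of_local (fun x hx => ?_)
      obtain ⟨B, hB, hxB, hFB⟩ := hlocal x hx
      exact ⟨B, hB, hxB, hFB.2⟩
  have hFf : F =ᶠ[𝓝 0] f := by
    filter_upwards [ball_mem_nhds (0 : EE d) hρ0] with x hx
    exact hFnear x hx
  refine ⟨F, hFA, hFf, ?_⟩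
  have hE : HC A (eul F) := by
    have h3 := hc_pE hA.1 hFA Polynomial.X
    have h4 : pE Polynomial.X F = eul F := by
      funext x
      exact pE_X F x
    rw [h4] at h3
    exact h3
  have hD : HC A (fun x => (eul F x - r * F x) - g x) :=
    hc_sub hA.1 (hc_sub hA.1 hE (hc_cmul hA.1 hFA r)) hg
  have hD0 : (fun x => (eul F x - r * F x) - g x) =ᶠ[𝓝 0] fun _ => 0 := by
    filter_upwards [eulF_congr hFf, hFf, h] with x hx1 hx2 hx3
    rw [hx1, hx2, ← hx3, sub_self]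
  have hz1 := ident_star hd hA hD.1 (by
    filter_upwards [hD0] with x hx
    rw [hx, Complex.zero_re])
  have hz2 := ident_star hd hA hD.2 (by
    filter_upwards [hD0] with x hx
    rw [hx, Complex.zero_im])
  intro x hx
  have h5 : (eul F x - r * F x) - g x = 0 := Complex.ext (hz1 x hx) (hz2 x hx)
  exact sub_eq_zero.1 h5

end Pool.Agent.MP_0643f8_an.U
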