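import Mathlib
import Pool.Agent.Lib.MP_0643f8_an.U.E3_Inv1
import Pool.Agent.Lib.MP_0643f8_an.U.E4_Ext1

/-!
# Solving and extending `P(E) f = g` for real polynomials `P`

Complexify (`pE_ofReal`, `hc_ofReal`), split `P.map (algebraMap ℝ ℂ) = C a * ∏ (X - C rᵢ)`
(`IsAlgClosed`, `Polynomial.Splits`), use `inv1` / `ext1` for each root (induction on the multiset of
roots, with `pE_mul`), and take real parts (`pE_re`).
-/

set_option autoImplicit false

open MeasureTheory Metric Set Filter Topology Polynomial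
open scoped ContDiff

namespace Pool.Agent.MP_0643f8_an.U

variable {d : ℕ}

/-- `P ≠ 0` and all complex roots of `P` have real part `< m` -/
def RootsLt (m : ℕ) (P : ℝ[X]) : Prop :=
  P ≠ 0 ∧ ∀ z : ℂ, (P.map (algebraMap ℝ ℂ)).eval z = 0 → z.re < m

private lemma e5_lin (r : ℂ) (f : EE d → ℂ) (x : EE d) :
    pE (X - C r : ℂ[X]) f x = eul f x - r * f x := by
  rw [pE_sub_left, pE_X, pE_C]

private lemma e5_ev {A : Set (EE d)} (hA : IsOpen A) {x : EE d} (hx : x ∈ A) {f g : EE d → ℂ}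
    (h : ∀ y ∈ A, f y = g y) : f =ᶠ[𝓝 x] g :=
  Filter.eventually_of_mem (hA.mem_nhds hx) h

private lemma e5_inv_prod (hd : 2 ≤ d) {A : Set (EE d)} (hA : StarO A) {m : ℕ} (s : Multiset ℂ) :
    (∀ r ∈ s, r.re < m) → ∀ g : EE d → ℂ, HC A g → VanO m g →
    ∃ f : EE d → ℂ, HC A f ∧ VanO m f ∧
      ∀ x ∈ A, pE (s.map (fun r => (X - C r : ℂ[X]))).prod f x = g x := by
  induction s using Multiset.induction_on with
  | empty =>
    intro _ g hg hm
    refine ⟨g, hg, hm, fun x _ => ?_⟩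
    simp only [Multiset.map_zero, Multiset.prod_zero]
    exact pE_one g x
  | cons r s ih =>
    intro hs g hg hm
    obtain ⟨f1, hf1, hv1, he1⟩ := inv1 hd hA r (hs r (Multiset.mem_cons_self r s)) hg hm
    obtain ⟨f, hf, hv, he⟩ := ih (fun r' hr' => hs r' (Multiset.mem_cons_of_mem hr')) f1 hf1 hv1
    refine ⟨f, hf, hv, fun x hx => ?_⟩
    rw [Multiset.map_cons, Multiset.prod_cons, pE_mul hA.1 (hc_contDiffOn hf) _ _ hx,
      (pE_congr (e5_ev hA.1 hx he) _).eq_of_nhds, e5_lin]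
    exact he1 x hx

private lemma e5_ext_prod (hd : 2 ≤ d) {A : Set (EE d)} (hA : StarO A) {δ : ℝ} (hδ : 0 < δ)
    (s : Multiset ℂ) :
    ∀ f g : EE d → ℂ, HC A g → HC (ball 0 δ) f →
    pE (s.map (fun r => (X - C r : ℂ[X]))).prod f =ᶠ[𝓝 0] g →
    ∃ f' : EE d → ℂ, HC A f' ∧ f' =ᶠ[𝓝 0] f ∧
      ∀ x ∈ A, pE (s.map (fun r => (X - C r : ℂ[X]))).prod f' x = g x := by
  induction s using Multiset.induction_on with
  | empty =>
    intro f g hg hf h
    simp only [Multiset.map_zero, Multiset.prod_zero] at h ⊢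
    refine ⟨g, hg, ?_, fun x _ => pE_one g x⟩
    filter_upwards [h] with x hx
    rw [← hx, pE_one]
  | cons r s ih =>
    intro f g hg hf h
    rw [Multiset.map_cons, Multiset.prod_cons] at h
    set Q := (s.map (fun r => (X - C r : ℂ[X]))).prod with hQ
    have hF : HC (ball 0 δ) (pE Q f) := hc_pE isOpen_ball hf Q
    have h1 : (fun x => eul (pE Q f) x - r * pE Q f x) =ᶠ[𝓝 0] g := by
      filter_upwards [h, isOpen_ball.mem_nhds (mem_ball_self hδ)] with x hx hxb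
      rw [← hx, pE_mul isOpen_ball (hc_contDiffOn hf) _ _ hxb, e5_lin]
    obtain ⟨F', hF', hFe, hFA⟩ := ext1 hd hA r hg hδ hF h1
    obtain ⟨f', hf', hfe, hfA⟩ := ih f F' hF' hf hFe.symm
    refine ⟨f', hf', hfe, fun x hx => ?_⟩
    rw [Multiset.map_cons, Multiset.prod_cons, pE_mul hA.1 (hc_contDiffOn hf') _ _ hx,
      (pE_congr (e5_ev hA.1 hx hfA) _).eq_of_nhds, e5_lin]
    exact hFA x hx

private lemma e5_fact (P : ℝ[X]) :
    P.map (algebraMap ℝ ℂ) = C (P.map (algebraMap ℝ ℂ)).leadingCoeff *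
      ((P.map (algebraMap ℝ ℂ)).roots.map (fun r => (X - C r : ℂ[X]))).prod :=
  (IsAlgClosed.splits (P.map (algebraMap ℝ ℂ))).eq_prod_roots

private lemma e5_map_ne {P : ℝ[X]} (hP : P ≠ 0) : P.map (algebraMap ℝ ℂ) ≠ 0 :=
  (Polynomial.map_ne_zero_iff (algebraMap ℝ ℂ).injective).mpr hP

private lemma e5_vanO_ofReal {m : ℕ} {g : EE d → ℝ} (c : ℂ) (h : VanO m g) :
    VanO m (fun x => c * (g x : ℂ)) := by
  obtain ⟨K, δ, hδ, hK⟩ := h
  refine ⟨‖c‖ * K, δ, hδ, fun x hx => ?_⟩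
  rw [norm_mul, Complex.norm_real, mul_assoc]
  exact mul_le_mul_of_nonneg_left (hK x hx) (norm_nonneg _)

private lemma e5_vanO_re {m : ℕ} {f : EE d → ℂ} (h : VanO m f) :
    VanO m (fun x => (f x).re) := by
  obtain ⟨K, δ, hδ, hK⟩ := h
  refine ⟨K, δ, hδ, fun x hx => ?_⟩
  exact (Complex.abs_re_le_norm (f x)).trans (hK x hx)

theorem inv_exists (hd : 2 ≤ d) {A : Set (EE d)} (hA : StarO A) {m : ℕ} {P : ℝ[X]}
    (hP : RootsLt m P) {g : EE d → ℝ} (hg : Hm A g) (hm : VanO m g) :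
    ∃ f : EE d → ℝ, Hm A f ∧ VanO m f ∧ ∀ x ∈ A, pE P f x = g x := by
  have hne := e5_map_ne hP.1
  have ha : (P.map (algebraMap ℝ ℂ)).leadingCoeff ≠ 0 := Polynomial.leadingCoeff_ne_zero.mpr hne
  have hfac := e5_fact P
  generalize (P.map (algebraMap ℝ ℂ)).leadingCoeff = a at ha hfac
  obtain ⟨f, hf, hv, he⟩ := e5_inv_prod hd hA (m := m) (P.map (algebraMap ℝ ℂ)).roots
    (fun r hr => hP.2 r (by
      have := (Polynomial.mem_roots hne).mp hr
      exact this))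
    (fun x => a⁻¹ * (g x : ℂ)) (hc_cmul hA.1 (hc_ofReal hg) _) (e5_vanO_ofReal _ hm)
  refine ⟨fun x => (f x).re, hf.1, e5_vanO_re hv, fun x hx => ?_⟩
  rw [← pE_re hA.1 (hc_contDiffOn hf) P hx, hfac, pE_C_mul, he x hx, mul_inv_cancel_left₀ ha,
    Complex.ofReal_re]

theorem ext_exists (hd : 2 ≤ d) {A : Set (EE d)} (hA : StarO A) {P : ℝ[X]} (hP : P ≠ 0)
    {f g : EE d → ℝ} (hg : Hm A g) {δ : ℝ} (hδ : 0 < δ) (hf : Hm (ball 0 δ) f)
    (h : pE P f =ᶠ[𝓝 0] g) :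
    ∃ f' : EE d → ℝ, Hm A f' ∧ f' =ᶠ[𝓝 0] f ∧ ∀ x ∈ A, pE P f' x = g x := by
  have hne := e5_map_ne hP
  have ha : (P.map (algebraMap ℝ ℂ)).leadingCoeff ≠ 0 := Polynomial.leadingCoeff_ne_zero.mpr hne
  have hfac := e5_fact P
  generalize (P.map (algebraMap ℝ ℂ)).leadingCoeff = a at ha hfac
  obtain ⟨f', hf', hfe, hfA⟩ := e5_ext_prod hd hA hδ (P.map (algebraMap ℝ ℂ)).roots
    (fun x => (f x : ℂ)) (fun x => a⁻¹ * (g x : ℂ)) (hc_cmul hA.1 (hc_ofReal hg) _)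
    (hc_ofReal hf) (by
      filter_upwards [h, isOpen_ball.mem_nhds (mem_ball_self hδ)] with x hx hxb
      have h1 := pE_ofReal isOpen_ball hf.1 P hxb
      rw [hfac, pE_C_mul, hx] at h1
      rw [← h1, inv_mul_cancel_left₀ ha])
  refine ⟨fun x => (f' x).re, hf'.1, ?_, fun x hx => ?_⟩
  · filter_upwards [hfe] with x hx
    rw [hx, Complex.ofReal_re]
  · rw [← pE_re hA.1 (hc_contDiffOn hf') P hx, hfac, pE_C_mul, hfA x hx,
      mul_inv_cancel_left₀ ha, Complex.ofReal_re]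

end Pool.Agent.MP_0643f8_an.U
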