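import Mathlib
import Pool.Agent.Lib.MP_0643f8_an.U.E5_Poly

/-!
# Location of roots
-/

set_option autoImplicit false

open Polynomial

namespace Pool.Agent.MP_0643f8_an.U

theorem rootsLt_mul {m : ℕ} {P Q : ℝ[X]} (hP : RootsLt m P) (hQ : RootsLt m Q) :
    RootsLt m (P * Q) := by
  refine ⟨mul_ne_zero hP.1 hQ.1, fun z hz => ?_⟩
  rw [Polynomial.map_mul, eval_mul] at hz
  rcases mul_eq_zero.mp hz with h | h
  · exact hP.2 z h
  · exact hQ.2 z h

theorem rootsLt_C (m : ℕ) {c : ℝ} (hc : c ≠ 0) : RootsLt m (C c) := by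
  refine ⟨by simpa using hc, fun z hz => ?_⟩
  rw [Polynomial.map_C, eval_C] at hz
  exact absurd (by simpa using hz) hc

theorem rootsLt_lin {m : ℕ} {a b : ℝ} (ha : 0 < a) (h : 0 < a * m + b) :
    RootsLt m (C a * X + C b) := by
  refine ⟨?_, fun z hz => ?_⟩
  · intro h0
    have h1 := congrArg (fun P : ℝ[X] => P.coeff 1) h0
    simp at h1
    exact ha.ne' h1
  · simp only [Polynomial.map_add, Polynomial.map_mul, Polynomial.map_C, Polynomial.map_X,
      eval_add, eval_mul, eval_C, eval_X] at hz
    have h1 := congrArg Complex.re hz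
    simp at h1
    by_contra hlt
    push Not at hlt
    nlinarith

/-- roots of `a X² + b X + c`: if `z` is a root and `w = z - m` then
`a w² + (2 a m + b) w + (a m² + b m + c) = 0` has positive coefficients; a real root is negative,
and a pair of non-real roots has real part `-(2 a m + b)/(2 a) < 0` -/
theorem rootsLt_quad {m : ℕ} {a b c : ℝ} (ha : 0 < a) (h1 : 0 < 2 * a * m + b)
    (h2 : 0 < a * m ^ 2 + b * m + c) : RootsLt m (C a * X ^ 2 + C b * X + C c) := by
  refine ⟨?_, fun z hz => ?_⟩
  · intro h0
    have h3 := congrArg (fun P : ℝ[X] => P.coeff 2) h0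
    simp at h3
    exact ha.ne' h3
  · simp only [Polynomial.map_add, Polynomial.map_mul, Polynomial.map_pow, Polynomial.map_C,
      Polynomial.map_X, eval_add, eval_mul, eval_pow, eval_C, eval_X] at hz
    have hr := congrArg Complex.re hz
    have hi := congrArg Complex.im hz
    simp [pow_two] at hr hi
    by_contra hlt
    push Not at hlt
    have hi2 : z.im * (2 * a * z.re + b) = 0 := by linarith
    have hpos : 0 < 2 * a * z.re + b := by nlinarith
    have hy : z.im = 0 := (mul_eq_zero.mp hi2).resolve_right hpos.ne'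
    rw [hy] at hr
    have hm : 0 ≤ z.re - m := by linarith
    nlinarith [mul_nonneg ha.le (mul_nonneg hm hm), mul_nonneg h1.le hm]

end Pool.Agent.MP_0643f8_an.U
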