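import Mathlib
import Pool.Agent.Lib.MP_0643f8_an.U.Base

/-!
# The geometric configuration

`F₁` is the (compact, star-shaped about `c₁`) set off which the exterior field of the first ball
extends; the background field extends off the set `V₁` of the inversions of the points of
`F₁ \ {c₁}`; the same for the second ball.
-/

set_option autoImplicit false

open Metric Set

namespace Pool.Agent.MP_0643f8_an.U

variable {d : ℕ}

/-- inversion in the sphere of centre `c` and radius `r` -/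
noncomputable def iv (c : EE d) (r : ℝ) (x : EE d) : EE d := c + (r ^ 2 / ‖x - c‖ ^ 2) • (x - c)

/-- the facts about the first ball (used also with the two balls exchanged):
* `a`: the outward ray from a point of `F₁ \ {c₁}` meets `F₂`;
* `a0`: it meets the intersection of the balls;
* `b`: the segment from `c₁` to the inversion of a point of `F₁ \ {c₁}` meets `V₂`;
* `b0`: it is not contained in the union of the balls. -/
structure Geo (c₁ c₂ : EE d) (r₁ r₂ : ℝ) (F₁ F₂ : Set (EE d)) : Prop where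
  hr : 0 < r₁
  cpt : IsCompact F₁
  mem : c₁ ∈ F₁
  star : ∀ x ∈ F₁, ∀ t : ℝ, 0 ≤ t → t ≤ 1 → c₁ + t • (x - c₁) ∈ F₁
  sub : F₁ ⊆ ball c₁ r₁
  a : ∀ x ∈ F₁, x ≠ c₁ → ∃ t : ℝ, 1 ≤ t ∧ c₁ + t • (x - c₁) ∈ F₂
  a0 : ∀ x ∈ F₁, x ≠ c₁ → ∃ t : ℝ, 1 ≤ t ∧
    c₁ + t • (x - c₁) ∈ closedBall c₁ r₁ ∩ closedBall c₂ r₂
  b : (closedBall c₁ r₁ ∩ closedBall c₂ r₂).Nonempty → ∀ x ∈ F₁, x ≠ c₁ →
    ∃ t : ℝ, 0 ≤ t ∧ t ≤ 1 ∧ c₁ + t • (iv c₁ r₁ x - c₁) ≠ c₂ ∧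
      iv c₂ r₂ (c₁ + t • (iv c₁ r₁ x - c₁)) ∈ F₂
  b0 : ∀ x ∈ F₁, x ≠ c₁ → ∃ t : ℝ, 0 ≤ t ∧ t ≤ 1 ∧
    c₁ + t • (iv c₁ r₁ x - c₁) ∉ closedBall c₁ r₁ ∪ closedBall c₂ r₂

end Pool.Agent.MP_0643f8_an.U
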