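import Mathlib
import Pool.Agent.Lib.MP_0643f8_an.U.G0_Defs

/-!
# Elementary facts about the configuration

* `iv_out`: for `x ∈ F₁ \ {c₁}`, `y = iv c₁ r₁ x` is in neither closed ball. `‖y - c₁‖ = r₁²/‖x - c₁‖
  > r₁`. If `y ∈ closedBall c₂ r₂`: by `a0` a point `f` of the ray from `c₁` through `x` (and `y`)
  lies in both closed balls; `‖f - c₁‖ ≤ r₁ < ‖y - c₁‖`, so `f ∈ [c₁, y]`,
  `[c₁, f] ⊆ closedBall c₁ r₁`, `[f, y] ⊆ closedBall c₂ r₂`, against `b0`.
* `v_out`: the same for the point `v` in `b` (`v = iv c₂ r₂ f'`, `f' = iv c₂ r₂ v ∈ F₂ \ {c₂}`: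
  apply `iv_out` with the balls exchanged).
-/

set_option autoImplicit false

open Metric Set

namespace Pool.Agent.MP_0643f8_an.U

variable {d : ℕ} {c₁ c₂ : EE d} {r₁ r₂ : ℝ} {F₁ F₂ : Set (EE d)}

private theorem g1_sub (c x : EE d) (r : ℝ) : iv c r x - c = (r ^ 2 / ‖x - c‖ ^ 2) • (x - c) := by
  unfold iv
  abel

private theorem g1_pos {c x : EE d} (hx : x ≠ c) : 0 < ‖x - c‖ :=
  norm_pos_iff.2 (sub_ne_zero.2 hx)

private theorem g1_norm {c x : EE d} {r : ℝ} (hx : x ≠ c) : ‖iv c r x - c‖ = r ^ 2 / ‖x - c‖ := by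
  have h := g1_pos hx
  rw [g1_sub, norm_smul, Real.norm_eq_abs, abs_of_nonneg (by positivity)]
  field_simp

theorem iv_iv {c x : EE d} {r : ℝ} (hr : 0 < r) (hx : x ≠ c) : iv c r (iv c r x) = x := by
  have h := g1_pos hx
  have h1 : iv c r (iv c r x) = c + (r ^ 2 / ‖iv c r x - c‖ ^ 2) • (iv c r x - c) := rfl
  rw [h1, g1_norm hx, g1_sub, smul_smul]
  have h2 : r ^ 2 / (r ^ 2 / ‖x - c‖) ^ 2 * (r ^ 2 / ‖x - c‖ ^ 2) = 1 := by
    field_simp
  rw [h2, one_smul]
  abel

theorem iv_ne {c x : EE d} {r : ℝ} (hr : 0 < r) (hx : x ≠ c) : iv c r x ≠ c := by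
  have h := g1_pos hx
  rw [← sub_ne_zero, g1_sub]
  exact smul_ne_zero (by positivity) (sub_ne_zero.2 hx)

theorem iv_norm {c x : EE d} {r : ℝ} (hx : x ≠ c) : ‖iv c r x - c‖ = r ^ 2 / ‖x - c‖ :=
  g1_norm hx

theorem iv_out (h : Geo c₁ c₂ r₁ r₂ F₁ F₂) {x : EE d} (hx : x ∈ F₁) (hxc : x ≠ c₁) :
    iv c₁ r₁ x ∉ closedBall c₁ r₁ ∪ closedBall c₂ r₂ := by
  have hr := h.hr
  have hn := g1_pos hxc
  have hxb : ‖x - c₁‖ < r₁ := by
    have := h.sub hx
    rwa [mem_ball, dist_eq_norm] at this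
  have hyn : r₁ < ‖iv c₁ r₁ x - c₁‖ := by
    rw [g1_norm hxc, lt_div_iff₀ hn]
    nlinarith
  intro hmem
  rcases hmem with hmem | hmem
  · rw [mem_closedBall, dist_eq_norm] at hmem
    linarith
  · obtain ⟨t, ht1, htf⟩ := h.a0 x hx hxc
    obtain ⟨t', ht0', ht1', hz⟩ := h.b0 x hx hxc
    obtain ⟨hf1, hf2⟩ := htf
    set s : ℝ := r₁ ^ 2 / ‖x - c₁‖ ^ 2 with hs
    have hs0 : 0 < s := by positivity
    have hsn : s * ‖x - c₁‖ = ‖iv c₁ r₁ x - c₁‖ := by
      rw [g1_norm hxc, hs]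
      field_simp
    have htn : t * ‖x - c₁‖ ≤ r₁ := by
      rw [mem_closedBall, dist_eq_norm, add_sub_cancel_left, norm_smul, Real.norm_eq_abs,
        abs_of_nonneg (by linarith)] at hf1
      exact hf1
    have hts : t < s := by
      have h1 : t * ‖x - c₁‖ < s * ‖x - c₁‖ := by
        rw [hsn]
        linarith
      exact lt_of_mul_lt_mul_right h1 hn.le
    have hy : iv c₁ r₁ x = c₁ + s • (x - c₁) := rfl
    have hzz : c₁ + t' • (iv c₁ r₁ x - c₁) = c₁ + (t' * s) • (x - c₁) := by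
      rw [g1_sub, smul_smul]
    rw [hzz] at hz
    have hts' : t' * s ≤ s := by nlinarith
    rcases le_or_gt (t' * s) t with hle | hlt
    · refine hz (Or.inl ?_)
      rw [mem_closedBall, dist_eq_norm, add_sub_cancel_left, norm_smul, Real.norm_eq_abs,
        abs_of_nonneg (by positivity)]
      have := mul_le_mul_of_nonneg_right hle hn.le
      linarith
    · refine hz (Or.inr ?_)
      have hst : 0 < s - t := by linarith
      have ha0 : 0 ≤ (s - t' * s) / (s - t) := div_nonneg (by linarith) hst.le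
      have hb0 : 0 ≤ (t' * s - t) / (s - t) := div_nonneg (by linarith) hst.le
      have hab : (s - t' * s) / (s - t) + (t' * s - t) / (s - t) = 1 := by
        rw [← add_div, div_eq_one_iff_eq hst.ne']
        ring
      have hcomb := convex_closedBall c₂ r₂ hf2 hmem ha0 hb0 hab
      have he : ((s - t' * s) / (s - t)) • (c₁ + t • (x - c₁)) +
          ((t' * s - t) / (s - t)) • iv c₁ r₁ x = c₁ + (t' * s) • (x - c₁) := by
        rw [hy, smul_add, smul_add, smul_smul, smul_smul, add_add_add_comm, ← add_smul, ← add_smul]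
        have e1 : (s - t' * s) / (s - t) + (t' * s - t) / (s - t) = 1 := by
          rw [← add_div, div_eq_one_iff_eq hst.ne']
          ring
        have e2 : (s - t' * s) / (s - t) * t + (t' * s - t) / (s - t) * s = t' * s := by
          field_simp
          ring
        rw [e1, e2, one_smul]
      rw [he] at hcomb
      exact hcomb

/-- the point of `b` is in neither closed ball -/
theorem v_out (h' : Geo c₂ c₁ r₂ r₁ F₂ F₁) {v : EE d} (hv : v ≠ c₂) (hv' : iv c₂ r₂ v ∈ F₂) :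
    v ∉ closedBall c₁ r₁ ∪ closedBall c₂ r₂ := by
  have h1 := iv_out h' hv' (iv_ne h'.hr hv)
  rw [iv_iv h'.hr hv, union_comm] at h1
  exact h1

end Pool.Agent.MP_0643f8_an.U
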