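import Mathlib
import Pool.Agent.Lib.MP_0643f8_an.U.G1_Geo

/-!
# The other centre is not in `F₁`

Suppose `c₂ ∈ F₁`. `c₁ ≠ c₂` (otherwise one of the balls contains the other). Let
`δ = dist c₁ c₂`, `e = (c₂ - c₁)/δ` and `s₁ = max {s | c₁ + s e ∈ F₁} ≥ δ`, `x = c₁ + s₁ e`
(`F₁` is compact). The balls meet by `a0`, so `δ ≤ r₁ + r₂`.
* `b` for `x`: `v = c₁ + u e`, `0 ≤ u ≤ r₁²/s₁`, `v ≠ c₂`, `iv c₂ r₂ v ∈ F₂`. By `v_out`, `v` is in
  neither closed ball; `closedBall c₁ r₁` contains the `c₁ + u e` with `0 ≤ u ≤ r₁` and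
  `closedBall c₂ r₂` those with `δ - r₂ ≤ u ≤ δ + r₂`, and `δ - r₂ ≤ r₁`, so `u > δ + r₂`. So
  `iv c₂ r₂ v = c₂ + (r₂²/(u-δ)) e ∈ F₂`; let `s₂ = max {s | c₂ + s e ∈ F₂} ≥ r₂²/(u-δ) > 0`. Then
  `δ + r₂²/s₂ ≤ u ≤ r₁²/s₁`.
* `a` (balls exchanged) for `c₂ + s₂ e ∈ F₂`: `c₂ + t s₂ e ∈ F₁` with `t ≥ 1`, so
  `δ + s₂ ≤ δ + t s₂ ≤ s₁`.
Hence `r₁² ≥ s₁ (δ + r₂²/s₂) ≥ (δ + s₂)(δ + r₂²/s₂) = δ² + r₂² + δ (s₂ + r₂²/s₂) ≥ (δ + r₂)²`,
against `r₁ < δ + r₂`.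
-/

set_option autoImplicit false

open Metric Set

namespace Pool.Agent.MP_0643f8_an.U

variable {d : ℕ} {c₁ c₂ : EE d} {r₁ r₂ : ℝ} {F₁ F₂ : Set (EE d)}

/-- the last point of a compact set on a ray -/
private theorem g2_last {c e : EE d} {r : ℝ} {F : Set (EE d)} (hF : IsCompact F)
    (hsub : F ⊆ ball c r) (he : ‖e‖ = 1) {s : ℝ} (hs : c + s • e ∈ F) :
    ∃ m : ℝ, c + m • e ∈ F ∧ ∀ t : ℝ, c + t • e ∈ F → t ≤ m := by
  have hcl : IsClosed {t : ℝ | c + t • e ∈ F} :=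
    hF.isClosed.preimage (by fun_prop : Continuous fun t : ℝ => c + t • e)
  have hbd : BddAbove {t : ℝ | c + t • e ∈ F} := by
    refine ⟨r, fun t ht => ?_⟩
    have h1 := hsub ht
    rw [mem_ball, dist_eq_norm, add_sub_cancel_left, norm_smul, he, mul_one,
      Real.norm_eq_abs] at h1
    exact (le_abs_self t).trans h1.le
  exact ⟨sSup {t : ℝ | c + t • e ∈ F}, hcl.csSup_mem ⟨s, hs⟩ hbd, fun t ht => le_csSup hbd ht⟩

/-- the inversion of a point of a ray -/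
private theorem g2_iv {c e : EE d} (he : ‖e‖ = 1) (r : ℝ) {s : ℝ} (hs : 0 < s) :
    iv c r (c + s • e) = c + (r ^ 2 / s) • e := by
  unfold iv
  rw [add_sub_cancel_left, norm_smul, he, mul_one, Real.norm_of_nonneg hs.le, smul_smul]
  congr 2
  field_simp

theorem centre_not_mem (h : Geo c₁ c₂ r₁ r₂ F₁ F₂) (h' : Geo c₂ c₁ r₂ r₁ F₂ F₁)
    (h1 : r₁ < dist c₁ c₂ + r₂) (h2 : r₂ < dist c₁ c₂ + r₁) : c₂ ∉ F₁ := by
  intro hmem
  have hr₁ := h.hr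
  have hr₂ := h'.hr
  have hne : c₁ ≠ c₂ := by
    rintro rfl
    rw [dist_self] at h1 h2
    linarith
  obtain ⟨δ, hδ⟩ : ∃ δ : ℝ, δ = dist c₁ c₂ := ⟨_, rfl⟩
  rw [← hδ] at h1 h2
  have hδ0 : 0 < δ := hδ ▸ dist_pos.2 hne
  have hδr : δ < r₁ := by
    have := h.sub hmem
    rw [mem_ball, dist_comm, ← hδ] at this
    exact this
  set e : EE d := δ⁻¹ • (c₂ - c₁) with he
  have hen : ‖e‖ = 1 := by
    rw [he, norm_smul, ← dist_eq_norm, dist_comm, ← hδ, norm_inv, Real.norm_of_nonneg hδ0.le,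
      inv_mul_cancel₀ hδ0.ne']
  have he0 : e ≠ 0 := by
    intro h0
    rw [h0, norm_zero] at hen
    exact zero_ne_one hen
  have hc₂ : c₂ = c₁ + δ • e := by
    rw [he, smul_smul, mul_inv_cancel₀ hδ0.ne', one_smul]
    abel
  have hinter : (closedBall c₁ r₁ ∩ closedBall c₂ r₂).Nonempty :=
    ⟨c₂, ball_subset_closedBall (h.sub hmem), mem_closedBall_self hr₂.le⟩
  obtain ⟨s₁, hs₁, hmax₁⟩ := g2_last h.cpt h.sub hen (hc₂ ▸ hmem)
  have hδs : δ ≤ s₁ := hmax₁ δ (hc₂ ▸ hmem)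
  have hs₁0 : 0 < s₁ := hδ0.trans_le hδs
  have hx : c₁ + s₁ • e ≠ c₁ := by
    intro h0
    have : s₁ • e = 0 := by simpa using h0
    exact (smul_ne_zero hs₁0.ne' he0) this
  obtain ⟨t, ht0, ht1, hv, hvF⟩ := h.b hinter _ hs₁ hx
  rw [g2_iv hen r₁ hs₁0, add_sub_cancel_left, smul_smul] at hv hvF
  set u : ℝ := t * (r₁ ^ 2 / s₁) with hu
  have hu0 : 0 ≤ u := by positivity
  have hus : s₁ * u ≤ r₁ ^ 2 := by
    have h3 : u ≤ 1 * (r₁ ^ 2 / s₁) := mul_le_mul_of_nonneg_right ht1 (by positivity)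
    rw [one_mul, le_div_iff₀ hs₁0] at h3
    linarith
  have hout := v_out h' hv hvF
  rw [mem_union, not_or] at hout
  have hu1 : r₁ < u := by
    have h3 := hout.1
    rw [mem_closedBall, dist_eq_norm, add_sub_cancel_left, norm_smul, hen, mul_one,
      Real.norm_of_nonneg hu0, not_le] at h3
    exact h3
  have hsub : c₁ + u • e - c₂ = (u - δ) • e := by
    rw [hc₂, sub_smul]
    abel
  have hw0 : 0 < u - δ := by linarith
  have hu2 : r₂ < u - δ := by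
    have h3 := hout.2
    rw [mem_closedBall, dist_eq_norm, hsub, norm_smul, hen, mul_one,
      Real.norm_of_nonneg hw0.le, not_le] at h3
    exact h3
  have hveq : c₁ + u • e = c₂ + (u - δ) • e := by
    rw [← hsub]
    abel
  rw [hveq, g2_iv hen r₂ hw0] at hvF
  obtain ⟨s₂, hs₂, hmax₂⟩ := g2_last h'.cpt h'.sub hen hvF
  have hs₂w : r₂ ^ 2 ≤ s₂ * (u - δ) := by
    have h3 := hmax₂ _ hvF
    rwa [div_le_iff₀ hw0] at h3
  have hs₂0 : 0 < s₂ := by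
    have h3 := hmax₂ _ hvF
    exact (by positivity : 0 < r₂ ^ 2 / (u - δ)).trans_le h3
  have hx₂ : c₂ + s₂ • e ≠ c₂ := by
    intro h0
    have : s₂ • e = 0 := by simpa using h0
    exact (smul_ne_zero hs₂0.ne' he0) this
  obtain ⟨t₂, ht₂, hF⟩ := h'.a _ hs₂ hx₂
  have hF' : c₁ + (δ + t₂ * s₂) • e ∈ F₁ := by
    have h3 : c₂ + t₂ • (c₂ + s₂ • e - c₂) = c₁ + (δ + t₂ * s₂) • e := by
      rw [add_sub_cancel_left, smul_smul, add_smul, ← add_assoc, ← hc₂]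
    rw [← h3]
    exact hF
  have h4 := hmax₁ _ hF'
  have h5 : δ + s₂ ≤ s₁ := by nlinarith
  set w : ℝ := u - δ with hw
  have hu3 : u = δ + w := by rw [hw]; ring
  have h6 : (δ + s₂) * (δ + w) ≤ r₁ ^ 2 := by
    rw [hu3] at hus
    have : (δ + s₂) * (δ + w) ≤ s₁ * (δ + w) := mul_le_mul_of_nonneg_right h5 (by linarith)
    linarith
  have h7 : 2 * r₂ ≤ s₂ + w := by
    by_contra hcon
    push Not at hcon
    have h8 : (s₂ + w) ^ 2 < (2 * r₂) ^ 2 := by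
      apply pow_lt_pow_left₀ hcon (by linarith) two_ne_zero
    nlinarith [sq_nonneg (s₂ - w)]
  have h8 : (δ + r₂) ^ 2 ≤ r₁ ^ 2 := by
    nlinarith
  have h9 : δ + r₂ ≤ r₁ := (sq_le_sq₀ (by linarith) hr₁.le).1 h8
  linarith

end Pool.Agent.MP_0643f8_an.U
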