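import Mathlib
import Pool.Agent.Lib.MP_0643f8_an.U.G2_Centre

/-!
# All points are on the axis

`co x = ⟪x - c₂, c₁ - c₂⟫ / (‖x - c₂‖ ‖c₁ - c₂‖)` is the cosine of the angle at `c₂`. It is
continuous on the compact set `F₁` (`c₂ ∉ F₁`), with a minimum `m` at some `y ∈ F₁`. By `a` for the
exchanged balls (each `f ∈ F₂ \ {c₂}` has a point of `F₁` on its ray from `c₂`, with the same
cosine), `co f ≥ m` for `f ∈ F₂ \ {c₂}`.

If `y = c₁`, `m = 1`. Otherwise `b` for `y` gives `v = c₁ + t (iv c₁ r₁ y - c₁)`, `v ≠ c₂`,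
`iv c₂ r₂ v ∈ F₂`, so `co v = co (iv c₂ r₂ v) ≥ m`; `v` is outside `closedBall c₁ r₁` (`v_out`) and `y`
inside, both on the same ray from `c₁`, so `y = (1-τ) c₁ + τ v` with `0 < τ < 1`. With
`A = c₁ - c₂`, `B = v - c₂`, `c = co v`:
`co y - c = ((1-τ)‖A‖ + τ‖B‖ c - c ‖(1-τ)A + τB‖)/‖(1-τ)A + τB‖`. If `c ≥ 0` this is
`≥ (1-τ)‖A‖(1-c)/‖..‖`; if `c < 0`, `≥ (1-τ)‖A‖(1-c²)/‖..‖`
(`‖(1-τ)A+τB‖ ≥ ⟪(1-τ)A+τB, B⟫/‖B‖`). As `co y = m ≤ c`, `c = 1` or `c = -1`. If `c = 1` then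
`v` and `c₁` are on the same ray from `c₂`, so is `y`, and `m = 1`. If `c = -1` then `m = -1`, `y` is
on the ray from `c₂` opposite to `c₁`, so `c₂` is on the segment from `c₁` to `y ∈ F₁` and
`c₂ ∈ F₁`, against `centre_not_mem`. So `m = 1`.
-/

set_option autoImplicit false

open Metric Set
open scoped RealInnerProductSpace

namespace Pool.Agent.MP_0643f8_an.U

variable {d : ℕ} {c₁ c₂ : EE d} {r₁ r₂ : ℝ} {F₁ F₂ : Set (EE d)}

/-- the angle at the origin increases along the segment from `A` to `B` -/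
theorem angle_step {A B : EE d} (hA : A ≠ 0) (hB : B ≠ 0) {τ : ℝ} (h0 : 0 < τ) (h1 : τ < 1)
    (hne : (1 - τ) • A + τ • B ≠ 0)
    (h : ⟪(1 - τ) • A + τ • B, A⟫ * ‖B‖ ≤ ⟪B, A⟫ * ‖(1 - τ) • A + τ • B‖) :
    ⟪B, A⟫ = ‖B‖ * ‖A‖ ∨ ⟪B, A⟫ = -(‖B‖ * ‖A‖) := by
  have hA0 : 0 < ‖A‖ := norm_pos_iff.2 hA
  have hB0 : 0 < ‖B‖ := norm_pos_iff.2 hB
  have hτ : 0 < 1 - τ := by linarith
  have hcs : |⟪B, A⟫| ≤ ‖B‖ * ‖A‖ := abs_real_inner_le_norm B A
  have e1 : ⟪(1 - τ) • A + τ • B, A⟫ = (1 - τ) * ‖A‖ ^ 2 + τ * ⟪B, A⟫ := by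
    rw [inner_add_left, real_inner_smul_left, real_inner_smul_left, real_inner_self_eq_norm_sq]
  have e2 : ⟪(1 - τ) • A + τ • B, B⟫ = (1 - τ) * ⟪B, A⟫ + τ * ‖B‖ ^ 2 := by
    rw [inner_add_left, real_inner_smul_left, real_inner_smul_left, real_inner_self_eq_norm_sq,
      real_inner_comm]
  have e3 : ⟪(1 - τ) • A + τ • B, B⟫ ≤ ‖(1 - τ) • A + τ • B‖ * ‖B‖ := real_inner_le_norm _ _
  have e4 : ‖(1 - τ) • A + τ • B‖ ≤ (1 - τ) * ‖A‖ + τ * ‖B‖ := by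
    refine (norm_add_le _ _).trans (le_of_eq ?_)
    rw [norm_smul, norm_smul, Real.norm_of_nonneg hτ.le, Real.norm_of_nonneg h0.le]
  rw [e1] at h
  rw [e2] at e3
  set p : ℝ := ⟪B, A⟫ with hp
  set n : ℝ := ‖(1 - τ) • A + τ • B‖ with hn
  set a : ℝ := ‖A‖ with ha
  set b : ℝ := ‖B‖ with hb
  rw [abs_le] at hcs
  rcases le_or_gt 0 p with hp0 | hp0
  · left
    have h3 : p * n ≤ p * ((1 - τ) * a + τ * b) := mul_le_mul_of_nonneg_left e4 hp0
    have h4 : (1 - τ) * a * (b * a) ≤ (1 - τ) * a * p := by nlinarith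
    have h5 : b * a ≤ p := le_of_mul_le_mul_left h4 (mul_pos hτ hA0)
    exact le_antisymm hcs.2 h5
  · right
    have h3 : p * (n * b) ≤ p * ((1 - τ) * p + τ * b ^ 2) :=
      mul_le_mul_of_nonpos_left e3 hp0.le
    have h4 : ((1 - τ) * a ^ 2 + τ * p) * b * b ≤ p * n * b :=
      mul_le_mul_of_nonneg_right h hB0.le
    have h5 : (1 - τ) * (b * a) ^ 2 ≤ (1 - τ) * p ^ 2 := by nlinarith
    have h6 : (b * a) ^ 2 ≤ p ^ 2 := le_of_mul_le_mul_left h5 hτ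
    have h7 : b * a ≤ -p := by
      have h8 : (b * a) ^ 2 ≤ (-p) ^ 2 := by rw [neg_sq]; exact h6
      exact (sq_le_sq₀ (by positivity) (by linarith)).1 h8
    linarith [hcs.1]

/-- the cosine of the angle at `c₂`, times `‖c₁ - c₂‖` -/
private noncomputable def g3co (c A x : EE d) : ℝ := ⟪x - c, A⟫ / ‖x - c‖

private theorem g3co_smul (c A w : EE d) {t : ℝ} (ht : 0 < t) :
    g3co c A (c + t • w) = g3co c A (c + w) := by
  unfold g3co
  rw [add_sub_cancel_left, add_sub_cancel_left, real_inner_smul_left, norm_smul,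
    Real.norm_of_nonneg ht.le, mul_div_mul_left _ _ ht.ne']

private theorem g3_ray {c A x : EE d} (hA : A ≠ 0) (hx : x ≠ c) (h : ‖A‖ ≤ g3co c A x) :
    ∃ s : ℝ, 0 < s ∧ x = c + s • A := by
  have hA0 : 0 < ‖A‖ := norm_pos_iff.2 hA
  have hx0 : 0 < ‖x - c‖ := norm_pos_iff.2 (sub_ne_zero.2 hx)
  unfold g3co at h
  rw [le_div_iff₀ hx0] at h
  have h1 : ⟪x - c, A⟫ = ‖x - c‖ * ‖A‖ := by
    refine le_antisymm (real_inner_le_norm _ _) ?_
    rw [mul_comm]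
    exact h
  rw [inner_eq_norm_mul_iff_real] at h1
  refine ⟨‖x - c‖ / ‖A‖, div_pos hx0 hA0, ?_⟩
  have h2 : x - c = (‖x - c‖ / ‖A‖) • A := by
    rw [div_eq_inv_mul, mul_smul, ← h1, smul_smul, inv_mul_cancel₀ hA0.ne', one_smul]
  rw [← h2]
  abel

private theorem g3co_ray {c A : EE d} (hA : A ≠ 0) {s : ℝ} (hs : 0 < s) :
    g3co c A (c + s • A) = ‖A‖ := by
  have hA0 : ‖A‖ ≠ 0 := norm_ne_zero_iff.2 hA
  rw [g3co_smul c A A hs]
  unfold g3co
  rw [add_sub_cancel_left, real_inner_self_eq_norm_sq, pow_two, mul_div_assoc, div_self hA0,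
    mul_one]

private theorem g3_min (h : Geo c₁ c₂ r₁ r₂ F₁ F₂) (h' : Geo c₂ c₁ r₂ r₁ F₂ F₁)
    (h1 : r₁ < dist c₁ c₂ + r₂) (h2 : r₂ < dist c₁ c₂ + r₁)
    (hne : (closedBall c₁ r₁ ∩ closedBall c₂ r₂).Nonempty) {y : EE d} (hy : y ∈ F₁)
    (hmin : ∀ x ∈ F₁, g3co c₂ (c₁ - c₂) y ≤ g3co c₂ (c₁ - c₂) x) :
    g3co c₂ (c₁ - c₂) y = ‖c₁ - c₂‖ := by
  have hc₂ : c₂ ∉ F₁ := centre_not_mem h h' h1 h2
  have hA : c₁ - c₂ ≠ 0 := by
    intro h0
    exact hc₂ (sub_eq_zero.1 h0 ▸ h.mem)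
  have hF₂ : ∀ f ∈ F₂, f ≠ c₂ → g3co c₂ (c₁ - c₂) y ≤ g3co c₂ (c₁ - c₂) f := by
    intro f hf hfc
    obtain ⟨t, ht, hF⟩ := h'.a f hf hfc
    have h3 := hmin _ hF
    rw [g3co_smul c₂ (c₁ - c₂) (f - c₂) (one_pos.trans_le ht), add_sub_cancel] at h3
    exact h3
  by_cases hyc : y = c₁
  · rw [hyc]
    have h3 : c₁ = c₂ + (1 : ℝ) • (c₁ - c₂) := by
      rw [one_smul]
      abel
    conv_lhs => rw [h3]
    rw [add_sub_cancel_left, one_smul]
    have h4 := g3co_ray (c := c₂) hA one_pos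
    rw [one_smul] at h4
    exact h4
  · obtain ⟨t, ht0, ht1, hv, hvF⟩ := h.b hne y hy hyc
    set v : EE d := c₁ + t • (iv c₁ r₁ y - c₁) with hvdef
    have hyn : 0 < ‖y - c₁‖ := norm_pos_iff.2 (sub_ne_zero.2 hyc)
    have hyr : ‖y - c₁‖ < r₁ := by
      have h3 := h.sub hy
      rwa [mem_ball, dist_eq_norm] at h3
    have hout := v_out h' hv hvF
    rw [mem_union, not_or, mem_closedBall, dist_eq_norm, not_le] at hout
    -- `v = c₁ + k (y - c₁)`, `k > 1`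
    set k : ℝ := t * (r₁ ^ 2 / ‖y - c₁‖ ^ 2) with hk
    have hk0 : 0 ≤ k := by positivity
    have hvk : v - c₁ = k • (y - c₁) := by
      rw [hvdef, add_sub_cancel_left]
      unfold iv
      rw [add_sub_cancel_left, smul_smul]
    have hk1 : 1 < k := by
      have h3 := hout.1
      rw [hvk, norm_smul, Real.norm_of_nonneg hk0] at h3
      by_contra hcon
      push Not at hcon
      have h4 : k * ‖y - c₁‖ ≤ 1 * ‖y - c₁‖ := mul_le_mul_of_nonneg_right hcon hyn.le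
      linarith
    have hk0' : 0 < k := one_pos.trans hk1
    set τ : ℝ := k⁻¹ with hτ
    have hτ0 : 0 < τ := inv_pos.2 hk0'
    have hτ1 : τ < 1 := inv_lt_one_of_one_lt₀ hk1
    have hyv : y - c₂ = (1 - τ) • (c₁ - c₂) + τ • (v - c₂) := by
      have h3 : y - c₁ = τ • (v - c₁) := by
        rw [hvk, smul_smul, hτ, inv_mul_cancel₀ hk0'.ne', one_smul]
      have h4 : y - c₂ = (y - c₁) + (c₁ - c₂) := by abel
      have h5 : v - c₂ = (v - c₁) + (c₁ - c₂) := by abel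
      rw [h4, h5, h3, smul_add, sub_smul, one_smul]
      abel
    have hB : v - c₂ ≠ 0 := sub_ne_zero.2 hv
    have hy2 : y ≠ c₂ := fun h0 => hc₂ (h0 ▸ hy)
    have hC : (1 - τ) • (c₁ - c₂) + τ • (v - c₂) ≠ 0 := by
      rw [← hyv]
      exact sub_ne_zero.2 hy2
    have hcov : g3co c₂ (c₁ - c₂) y ≤ g3co c₂ (c₁ - c₂) v := by
      have h3 := hF₂ _ hvF (iv_ne h'.hr hv)
      unfold iv at h3
      rw [g3co_smul c₂ (c₁ - c₂) (v - c₂) (div_pos (pow_pos h'.hr 2)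
        (pow_pos (norm_pos_iff.2 hB) 2)), add_sub_cancel] at h3
      exact h3
    have hB0 : 0 < ‖v - c₂‖ := norm_pos_iff.2 hB
    have hC0 : 0 < ‖(1 - τ) • (c₁ - c₂) + τ • (v - c₂)‖ := norm_pos_iff.2 hC
    have hcov' := hcov
    unfold g3co at hcov'
    rw [hyv, div_le_div_iff₀ hC0 hB0] at hcov'
    have hA0 : 0 < ‖c₁ - c₂‖ := norm_pos_iff.2 hA
    rcases angle_step hA hB hτ0 hτ1 hC hcov' with hplus | hminus
    · -- same direction
      have h3 : ‖c₁ - c₂‖ ≤ g3co c₂ (c₁ - c₂) v := by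
        unfold g3co
        rw [le_div_iff₀ hB0, hplus, mul_comm]
      obtain ⟨β, hβ, hvβ⟩ := g3_ray hA hv h3
      have h4 : y = c₂ + ((1 - τ) + τ * β) • (c₁ - c₂) := by
        have h5 : v - c₂ = β • (c₁ - c₂) := by
          conv_lhs => rw [hvβ]
          rw [add_sub_cancel_left]
        have h6 : y = c₂ + (y - c₂) := by abel
        rw [h6, hyv, h5, smul_smul, ← add_smul]
      rw [h4]
      exact g3co_ray hA (by
        have : 0 < τ * β := mul_pos hτ0 hβ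
        linarith)
    · -- opposite direction
      exfalso
      have h3 : ⟪v - c₂, -(c₁ - c₂)⟫ = ‖v - c₂‖ * ‖-(c₁ - c₂)‖ := by
        rw [inner_neg_right, hminus, norm_neg, neg_neg]
      rw [inner_eq_norm_mul_iff_real, norm_neg, smul_neg] at h3
      set β : ℝ := ‖v - c₂‖ / ‖c₁ - c₂‖ with hβ
      have hβ0 : 0 < β := div_pos hB0 hA0
      have h5 : v - c₂ = -(β • (c₁ - c₂)) := by
        rw [hβ, div_eq_inv_mul, mul_smul, ← smul_neg, ← h3, smul_smul, inv_mul_cancel₀ hA0.ne',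
          one_smul]
      set γ : ℝ := (1 - τ) - τ * β with hγ
      have h6 : y - c₂ = γ • (c₁ - c₂) := by
        rw [hyv, h5, smul_neg, smul_smul, ← sub_eq_add_neg, ← sub_smul]
      have h7 : g3co c₂ (c₁ - c₂) v = -‖c₁ - c₂‖ := by
        unfold g3co
        rw [hminus, neg_div, mul_comm, mul_div_assoc, div_self hB0.ne', mul_one]
      have h8 : γ < 0 := by
        by_contra hcon
        push Not at hcon
        rcases hcon.eq_or_lt with h9 | h9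
        · rw [← h9, zero_smul] at h6
          exact hy2 (sub_eq_zero.1 h6)
        · have h10 : y = c₂ + γ • (c₁ - c₂) := by
            rw [← h6]
            abel
          rw [h7, h10, g3co_ray hA h9] at hcov
          linarith
      refine hc₂ ?_
      have h9 := h.star y hy (1 / (1 - γ)) (by
        apply div_nonneg zero_le_one
        linarith) (by
        rw [div_le_one (by linarith)]
        linarith)
      have h10 : c₁ + (1 / (1 - γ)) • (y - c₁) = c₂ := by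
        have h11 : y - c₁ = (γ - 1) • (c₁ - c₂) := by
          have h12 : y - c₁ = (y - c₂) - (c₁ - c₂) := by abel
          rw [h12, h6, sub_smul γ (1 : ℝ) (c₁ - c₂), one_smul]
        have h13 : (1 / (1 - γ)) * (γ - 1) = -1 := by
          have : (1 - γ) ≠ 0 := by linarith
          field_simp
          ring
        rw [h11, smul_smul, h13, neg_one_smul]
        abel
      rwa [h10] at h9

/-- all points of `F₁`, and of `F₂` other than `c₂`, are on the ray from `c₂` through `c₁` -/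
theorem on_axis (h : Geo c₁ c₂ r₁ r₂ F₁ F₂) (h' : Geo c₂ c₁ r₂ r₁ F₂ F₁)
    (h1 : r₁ < dist c₁ c₂ + r₂) (h2 : r₂ < dist c₁ c₂ + r₁)
    (hne : (closedBall c₁ r₁ ∩ closedBall c₂ r₂).Nonempty) :
    (∀ x ∈ F₁, ∃ s : ℝ, 0 < s ∧ x = c₂ + s • (c₁ - c₂)) ∧
      ∀ x ∈ F₂, x ≠ c₂ → ∃ s : ℝ, 0 < s ∧ x = c₂ + s • (c₁ - c₂) := by
  have hc₂ : c₂ ∉ F₁ := centre_not_mem h h' h1 h2
  have hA : c₁ - c₂ ≠ 0 := by
    intro h0
    exact hc₂ (sub_eq_zero.1 h0 ▸ h.mem)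
  have hcont : ContinuousOn (g3co c₂ (c₁ - c₂)) F₁ := by
    unfold g3co
    refine ContinuousOn.div (by fun_prop) (by fun_prop) fun x hx => ?_
    exact norm_ne_zero_iff.2 (sub_ne_zero.2 fun h0 => hc₂ (h0 ▸ hx))
  obtain ⟨y, hy, hmin⟩ := h.cpt.exists_isMinOn ⟨c₁, h.mem⟩ hcont
  have hmin' : ∀ x ∈ F₁, g3co c₂ (c₁ - c₂) y ≤ g3co c₂ (c₁ - c₂) x := fun x hx => hmin hx
  have hm := g3_min h h' h1 h2 hne hy hmin'
  constructor
  · intro x hx
    refine g3_ray hA (fun h0 => hc₂ (h0 ▸ hx)) ?_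
    rw [← hm]
    exact hmin' x hx
  · intro x hx hxc
    refine g3_ray hA hxc ?_
    obtain ⟨t, ht, hF⟩ := h'.a x hx hxc
    have h3 := hmin' _ hF
    rw [g3co_smul c₂ (c₁ - c₂) (x - c₂) (one_pos.trans_le ht), add_sub_cancel, hm] at h3
    exact h3

end Pool.Agent.MP_0643f8_an.U
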