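import Mathlib
import Pool.Agent.Lib.MP_0643f8_an.U.G3_Axis

/-!
# Both sets are reduced to the centres

If the balls do not meet, `a0` gives `F₁ = {c₁}`. Otherwise, by `on_axis` and its mirror image,
`F₁ ⊆ [c₁, c₂)` and `F₂ ⊆ (c₁, c₂]`: a point `x = c₂ + s (c₁ - c₂)`, `s > 0`, of `F₂` is also
`x = c₁ + s' (c₂ - c₁)` with `s' > 0`, so `s = 1 - s' < 1`. Suppose `x = c₁ + s (c₂ - c₁) ∈ F₁` with
`0 < s < 1`. By `b`, `v = c₁ + u (c₂ - c₁)`, `u ≥ 0`, with `v ≠ c₂` and `iv c₂ r₂ v ∈ F₂ \ {c₂}`, which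
is on the open segment `(c₁, c₂)`; so `v = c₂ - s' (c₂ - c₁)`, `s' > 0`, `u = 1 - s' < 1`: `v` is on
the segment `[c₁, c₂]`, which is contained in the union of the closed balls (they meet, so
`dist c₁ c₂ ≤ r₁ + r₂`), against `v_out`.
-/

set_option autoImplicit false

open Metric Set

namespace Pool.Agent.MP_0643f8_an.U

variable {d : ℕ} {c₁ c₂ : EE d} {r₁ r₂ : ℝ} {F₁ F₂ : Set (EE d)}

theorem segment_sub (hr₁ : 0 < r₁) (hr₂ : 0 < r₂)
    (hne : (closedBall c₁ r₁ ∩ closedBall c₂ r₂).Nonempty) :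
    segment ℝ c₁ c₂ ⊆ closedBall c₁ r₁ ∪ closedBall c₂ r₂ := by
  obtain ⟨z, hz1, hz2⟩ := hne
  rw [mem_closedBall] at hz1 hz2
  have hd : dist c₁ c₂ ≤ r₁ + r₂ := by
    have := dist_triangle_left c₁ c₂ z
    linarith
  intro x hx
  rw [segment_eq_image'] at hx
  obtain ⟨t, ⟨ht0, ht1⟩, rfl⟩ := hx
  have e1 : dist (c₁ + t • (c₂ - c₁)) c₁ = t * dist c₁ c₂ := by
    rw [dist_eq_norm, add_sub_cancel_left, norm_smul, Real.norm_of_nonneg ht0, dist_comm c₁ c₂,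
      dist_eq_norm]
  have e2 : dist (c₁ + t • (c₂ - c₁)) c₂ = (1 - t) * dist c₁ c₂ := by
    have e3 : c₁ + t • (c₂ - c₁) - c₂ = (1 - t) • (c₁ - c₂) := by
      rw [sub_smul, one_smul, smul_sub, smul_sub]
      abel
    rw [dist_eq_norm, e3, norm_smul, Real.norm_of_nonneg (by linarith), dist_eq_norm]
  rw [mem_union, mem_closedBall, mem_closedBall, e1, e2]
  by_contra hcon
  push Not at hcon
  linarith [hcon.1, hcon.2]

private theorem g4_one (h : Geo c₁ c₂ r₁ r₂ F₁ F₂) (h' : Geo c₂ c₁ r₂ r₁ F₂ F₁)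
    (h1 : r₁ < dist c₁ c₂ + r₂) (h2 : r₂ < dist c₁ c₂ + r₁) : F₁ = {c₁} := by
  rw [Set.eq_singleton_iff_unique_mem]
  refine ⟨h.mem, fun x hx => ?_⟩
  by_contra hxc
  by_cases hne : (closedBall c₁ r₁ ∩ closedBall c₂ r₂).Nonempty
  · have hne' : (closedBall c₂ r₂ ∩ closedBall c₁ r₁).Nonempty := by
      rwa [inter_comm]
    have hc₂ : c₂ ∉ F₁ := centre_not_mem h h' h1 h2
    have hA : c₂ - c₁ ≠ 0 := by
      intro h0
      exact hc₂ ((sub_eq_zero.1 h0).symm ▸ h.mem)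
    obtain ⟨-, ax2⟩ := on_axis h h' h1 h2 hne
    obtain ⟨-, ax1⟩ := on_axis h' h (by rw [dist_comm]; exact h2) (by rw [dist_comm]; exact h1)
      hne'
    obtain ⟨s, hs, hxs⟩ := ax1 x hx hxc
    obtain ⟨t, ht0, ht1, hv, hvF⟩ := h.b hne x hx hxc
    set v : EE d := c₁ + t • (iv c₁ r₁ x - c₁) with hvdef
    set u : ℝ := t * (r₁ ^ 2 / ‖x - c₁‖ ^ 2) * s with hu
    have hu0 : 0 ≤ u := by positivity
    have hvu : v = c₁ + u • (c₂ - c₁) := by
      rw [hvdef]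
      unfold iv
      rw [add_sub_cancel_left]
      have h3 : x - c₁ = s • (c₂ - c₁) := by
        conv_lhs => rw [hxs]
        rw [add_sub_cancel_left]
      rw [hu, mul_smul, ← h3, smul_smul]
    have hout := v_out h' hv hvF
    obtain ⟨s', hs', hgs⟩ := ax2 _ hvF (iv_ne h'.hr hv)
    have hvn : 0 < ‖v - c₂‖ := norm_pos_iff.2 (sub_ne_zero.2 hv)
    set k : ℝ := r₂ ^ 2 / ‖v - c₂‖ ^ 2 with hk
    have hk0 : 0 < k := div_pos (pow_pos h'.hr 2) (pow_pos hvn 2)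
    have h4 : k • (v - c₂) = s' • (c₁ - c₂) := by
      have h5 : iv c₂ r₂ v = c₂ + k • (v - c₂) := rfl
      rw [h5] at hgs
      exact add_left_cancel hgs
    have h5 : v - c₂ = (u - 1) • (c₂ - c₁) := by
      rw [hvu, sub_smul, one_smul]
      abel
    have h6 : (k * (u - 1) + s') • (c₂ - c₁) = 0 := by
      rw [add_smul, mul_smul, ← h5, h4, ← smul_add]
      have : c₁ - c₂ + (c₂ - c₁) = 0 := by abel
      rw [this, smul_zero]
    have h7 : k * (u - 1) + s' = 0 := (smul_eq_zero.1 h6).resolve_right hA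
    have h8 : u < 1 := by
      by_contra hcon
      push Not at hcon
      have : 0 ≤ k * (u - 1) := mul_nonneg hk0.le (by linarith)
      linarith
    refine hout (segment_sub h.hr h'.hr hne ?_)
    rw [segment_eq_image', hvu]
    exact ⟨u, ⟨hu0, h8.le⟩, rfl⟩
  · obtain ⟨t, -, ht⟩ := h.a0 x hx hxc
    exact hne ⟨_, ht⟩

theorem geo_final (h : Geo c₁ c₂ r₁ r₂ F₁ F₂) (h' : Geo c₂ c₁ r₂ r₁ F₂ F₁)
    (h1 : r₁ < dist c₁ c₂ + r₂) (h2 : r₂ < dist c₁ c₂ + r₁) : F₁ = {c₁} ∧ F₂ = {c₂} :=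
  ⟨g4_one h h' h1 h2, g4_one h' h (by rw [dist_comm]; exact h2) (by rw [dist_comm]; exact h1)⟩

end Pool.Agent.MP_0643f8_an.U
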