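import Mathlib
import Pool.Agent.Lib.MP_0643f8_an.U.H02_Basic

/-!
# Solutions of the Lame system: closure properties

`isLame_iff` is the canonical form: `θ = dv u` and `Φ k = u k + κ x_k dv u`.
-/

set_option autoImplicit false

open MeasureTheory Metric Set Filter Topology
open scoped ContDiff

namespace Pool.Agent.MP_0643f8_an.U

variable {d : ℕ} {A B : Set (EE d)} {κ : ℝ} {u v : Fin d → EE d → ℝ}

private theorem l1_le : (2 : WithTop ℕ∞) ≤ ∞ := by
  norm_cast

private theorem l1_lap_congr {f g : EE d → ℝ} {x : EE d} (h : f =ᶠ[𝓝 x] g) :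
    ∑ i, pd i (pd i f) x = ∑ i, pd i (pd i g) x :=
  Finset.sum_congr rfl fun i _ => (pd_congr (pd_congr h i) i).self_of_nhds

private theorem l1_diff_pd {f : EE d → ℝ} {x : EE d} (hf : ContDiffAt ℝ 2 f x) (i : Fin d) :
    DifferentiableAt ℝ (pd i f) x := by
  have h1 : DifferentiableAt ℝ (fderiv ℝ f) x :=
    (hf.fderiv_right (m := 1) (by norm_num)).differentiableAt (by norm_num)
  unfold pd
  exact h1.clm_apply (differentiableAt_const _)

private theorem l1_ev_diff {f : EE d → ℝ} {x : EE d} (hf : ContDiffAt ℝ 2 f x) :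
    ∀ᶠ y in 𝓝 x, DifferentiableAt ℝ f y := by
  filter_upwards [hf.eventually (by simp)] with y hy
  exact hy.differentiableAt (by norm_num)

private theorem l1_lap_add {f g : EE d → ℝ} {x : EE d} (hf : ContDiffAt ℝ 2 f x)
    (hg : ContDiffAt ℝ 2 g x) : ∑ i, pd i (pd i (fun y => f y + g y)) x =
      ∑ i, pd i (pd i f) x + ∑ i, pd i (pd i g) x := by
  rw [← Finset.sum_add_distrib]
  refine Finset.sum_congr rfl fun i _ => ?_
  have h1 : pd i (fun y => f y + g y) =ᶠ[𝓝 x] fun y => pd i f y + pd i g y := by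
    filter_upwards [l1_ev_diff hf, l1_ev_diff hg] with y h2 h3
    exact pd_add h2 h3 i
  rw [(pd_congr h1 i).self_of_nhds]
  exact pd_add (l1_diff_pd hf i) (l1_diff_pd hg i) i

private theorem l1_lap_cmul {f : EE d → ℝ} {x : EE d} (hf : ContDiffAt ℝ 2 f x) (c : ℝ) :
    ∑ i, pd i (pd i (fun y => c * f y)) x = c * ∑ i, pd i (pd i f) x := by
  rw [Finset.mul_sum]
  refine Finset.sum_congr rfl fun i _ => ?_
  have h1 : pd i (fun y => c * f y) =ᶠ[𝓝 x] fun y => c * pd i f y := by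
    filter_upwards [l1_ev_diff hf] with y h2
    exact pd_cmul h2 c i
  rw [(pd_congr h1 i).self_of_nhds]
  exact pd_cmul (l1_diff_pd hf i) c i

private theorem l1_dv_add {x : EE d} (hu : ∀ k, DifferentiableAt ℝ (u k) x)
    (hv : ∀ k, DifferentiableAt ℝ (v k) x) :
    dv (fun k y => u k y + v k y) x = dv u x + dv v x := by
  unfold dv
  rw [← Finset.sum_add_distrib]
  exact Finset.sum_congr rfl fun k _ => pd_add (hu k) (hv k) k

private theorem l1_dv_sub {x : EE d} (hu : ∀ k, DifferentiableAt ℝ (u k) x)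
    (hv : ∀ k, DifferentiableAt ℝ (v k) x) :
    dv (fun k y => u k y - v k y) x = dv u x - dv v x := by
  unfold dv
  rw [← Finset.sum_sub_distrib]
  exact Finset.sum_congr rfl fun k _ => pd_sub (hu k) (hv k) k

private theorem l1_dv_cmul {x : EE d} (hu : ∀ k, DifferentiableAt ℝ (u k) x) (c : ℝ) :
    dv (fun k y => c * u k y) x = c * dv u x := by
  unfold dv
  rw [Finset.mul_sum]
  exact Finset.sum_congr rfl fun k _ => pd_cmul (hu k) c k

private theorem l1_dv_dil (c : ℝ) (x : EE d) : dv (fun k (y : EE d) => c * y k) x = c * d := by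
  rw [l1_dv_cmul (u := fun k (y : EE d) => y k) (fun k => by fun_prop)]
  unfold dv
  simp only [pd_coord, if_true]
  simp

theorem dv_congr {x : EE d} (h : ∀ k, u k =ᶠ[𝓝 x] v k) : dv u =ᶠ[𝓝 x] dv v := by
  have h1 : ∀ᶠ y in 𝓝 x, ∀ k, pd k (u k) y = pd k (v k) y :=
    eventually_all.2 fun k => pd_congr (h k) k
  filter_upwards [h1] with y hy
  unfold dv
  exact Finset.sum_congr rfl fun k _ => hy k

private theorem l1_ev (hA : IsOpen A) {x : EE d} (hx : x ∈ A)
    (h : ∀ y ∈ A, ∀ k, v k y = u k y) (k : Fin d) : v k =ᶠ[𝓝 x] u k := by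
  filter_upwards [hA.mem_nhds hx] with y hy
  exact h y hy k

theorem isLame_iff (hA : IsOpen A) : IsLame κ A u ↔
    Hm A (dv u) ∧ ∀ k, Hm A (fun x => u k x + κ * (x k * dv u x)) := by
  constructor
  · rintro ⟨θ, Φ, hθ, hΦ, hu, hdv⟩
    refine ⟨hm_congr hθ hA hdv, fun k => hm_congr (hΦ k) hA fun x hx => ?_⟩
    rw [hu x hx k, hdv x hx]
    ring
  · rintro ⟨h1, h2⟩
    refine ⟨dv u, fun k x => u k x + κ * (x k * dv u x), h1, h2, fun x _ k => ?_, fun x _ => rfl⟩
    ring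

private theorem l1_coord_mul {f : EE d → ℝ} (hf : ContDiffOn ℝ ∞ f A) (k : Fin d) :
    ContDiffOn ℝ ∞ (fun x : EE d => x k * f x) A :=
  ContDiffOn.mul (ContDiff.contDiffOn (by fun_prop)) hf

theorem lame_smooth (hA : IsOpen A) (hu : IsLame κ A u) (k : Fin d) :
    ContDiffOn ℝ ∞ (u k) A := by
  rw [isLame_iff hA] at hu
  have h1 := (hu.2 k).1.sub (contDiffOn_const (c := κ).mul (l1_coord_mul hu.1.1 k))
  refine h1.congr fun x _ => ?_
  ring

private theorem l1_diff (hA : IsOpen A) (hu : IsLame κ A u) {x : EE d} (hx : x ∈ A) (k : Fin d) :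
    DifferentiableAt ℝ (u k) x :=
  (((lame_smooth hA hu k).contDiffAt (hA.mem_nhds hx)).of_le l1_le).differentiableAt (by norm_num)

theorem lame_mono (hu : IsLame κ A u) (h : B ⊆ A) : IsLame κ B u := by
  obtain ⟨θ, Φ, hθ, hΦ, hu, hdv⟩ := hu
  exact ⟨θ, Φ, hm_mono hθ h, fun k => hm_mono (hΦ k) h, fun x hx => hu x (h hx),
    fun x hx => hdv x (h hx)⟩

theorem lame_congr (hA : IsOpen A) (hu : IsLame κ A u) (h : ∀ x ∈ A, ∀ k, v k x = u k x) :
    IsLame κ A v := by
  obtain ⟨θ, Φ, hθ, hΦ, hu, hdv⟩ := hu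
  refine ⟨θ, Φ, hθ, hΦ, fun x hx k => ?_, fun x hx => ?_⟩
  · rw [h x hx k, hu x hx k]
  · rw [(dv_congr (l1_ev hA hx h)).self_of_nhds, hdv x hx]

theorem lame_of_local (hA : IsOpen A)
    (h : ∀ x ∈ A, ∃ B, IsOpen B ∧ x ∈ B ∧ IsLame κ B u) : IsLame κ A u := by
  rw [isLame_iff hA]
  constructor
  · refine hm_of_local fun x hx => ?_
    obtain ⟨B, hB, hxB, hl⟩ := h x hx
    exact ⟨B, hB, hxB, ((isLame_iff hB).1 hl).1⟩
  · intro k
    refine hm_of_local fun x hx => ?_
    obtain ⟨B, hB, hxB, hl⟩ := h x hx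
    exact ⟨B, hB, hxB, ((isLame_iff hB).1 hl).2 k⟩

theorem lame_add (hA : IsOpen A) (hu : IsLame κ A u) (hv : IsLame κ A v) :
    IsLame κ A (fun k x => u k x + v k x) := by
  have hd : ∀ x ∈ A, dv (fun k x => u k x + v k x) x = dv u x + dv v x := fun x hx =>
    l1_dv_add (l1_diff hA hu hx) (l1_diff hA hv hx)
  have hu' := (isLame_iff hA).1 hu
  have hv' := (isLame_iff hA).1 hv
  rw [isLame_iff hA]
  refine ⟨hm_congr (hm_add hA hu'.1 hv'.1) hA hd, fun k => ?_⟩
  refine hm_congr (hm_add hA (hu'.2 k) (hv'.2 k)) hA fun x hx => ?_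
  rw [hd x hx]
  ring

theorem lame_sub (hA : IsOpen A) (hu : IsLame κ A u) (hv : IsLame κ A v) :
    IsLame κ A (fun k x => u k x - v k x) := by
  have hd : ∀ x ∈ A, dv (fun k x => u k x - v k x) x = dv u x - dv v x := fun x hx =>
    l1_dv_sub (l1_diff hA hu hx) (l1_diff hA hv hx)
  have hu' := (isLame_iff hA).1 hu
  have hv' := (isLame_iff hA).1 hv
  rw [isLame_iff hA]
  refine ⟨hm_congr (hm_sub hA hu'.1 hv'.1) hA hd, fun k => ?_⟩
  refine hm_congr (hm_sub hA (hu'.2 k) (hv'.2 k)) hA fun x hx => ?_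
  rw [hd x hx]
  ring

theorem lame_cmul (hA : IsOpen A) (hu : IsLame κ A u) (c : ℝ) :
    IsLame κ A (fun k x => c * u k x) := by
  have hd : ∀ x ∈ A, dv (fun k x => c * u k x) x = c * dv u x := fun x hx =>
    l1_dv_cmul (l1_diff hA hu hx) c
  have hu' := (isLame_iff hA).1 hu
  rw [isLame_iff hA]
  refine ⟨hm_congr (hm_cmul hA hu'.1 c) hA hd, fun k => ?_⟩
  refine hm_congr (hm_cmul hA (hu'.2 k) c) hA fun x hx => ?_
  rw [hd x hx]
  ring

/-- a field with harmonic components and zero divergence is a Lame field for every `κ` -/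
theorem lame_of_hm (hA : IsOpen A) (hu : ∀ k, Hm A (u k)) (h : ∀ x ∈ A, dv u x = 0) :
    IsLame κ A u := by
  rw [isLame_iff hA]
  refine ⟨hm_congr (hm_const A 0) hA h, fun k => ?_⟩
  refine hm_congr (hu k) hA fun x hx => ?_
  rw [h x hx]
  ring

/-- a Lame field with zero divergence has harmonic components -/
theorem hm_of_lame (hA : IsOpen A) (hu : IsLame κ A u) (h : ∀ x ∈ A, dv u x = 0) :
    ∀ k, Hm A (u k) := by
  intro k
  refine hm_congr (((isLame_iff hA).1 hu).2 k) hA fun x hx => ?_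
  rw [h x hx]
  ring

theorem hm_dv (hA : IsOpen A) (hu : IsLame κ A u) : Hm A (dv u) :=
  ((isLame_iff hA).1 hu).1

theorem lame_const (h : Fin d → ℝ) : IsLame κ A (fun k _ => h k) := by
  refine ⟨fun _ => 0, fun k _ => h k, hm_const A 0, fun k => hm_const A (h k), fun x _ k => ?_,
    fun x _ => ?_⟩
  · ring
  · unfold dv
    exact Finset.sum_eq_zero fun k _ => pd_const (h k) k x

/-- the dilation `c x` -/
theorem lame_dil (c : ℝ) : IsLame κ A (fun k x => c * x k) := by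
  have h1 : IsLame κ (univ : Set (EE d)) (fun k x => c * x k) := by
    rw [isLame_iff isOpen_univ]
    refine ⟨hm_congr (hm_const univ (c * d)) isOpen_univ fun x _ => l1_dv_dil c x, fun k => ?_⟩
    refine hm_congr (hm_cmul isOpen_univ (hm_coord univ k) (c + κ * (c * d))) isOpen_univ
      fun x _ => ?_
    rw [l1_dv_dil]
    ring
  exact lame_mono h1 (subset_univ A)

/-- the gradient of a harmonic function -/
theorem lame_grad (hA : IsOpen A) {b : EE d → ℝ} (hb : Hm A b) :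
    IsLame κ A (fun k => pd k b) ∧ ∀ x ∈ A, dv (fun k => pd k b) x = 0 := by
  have h : ∀ x ∈ A, dv (fun k => pd k b) x = 0 := fun x hx => hb.2 x hx
  exact ⟨lame_of_hm hA (fun k => hm_pd hA hb k) h, h⟩

/-- change of variables `y ↦ c + r y` -/
theorem lame_aff (hA : IsOpen A) (hu : IsLame κ A u) (c : EE d) {r : ℝ} (hr : r ≠ 0) :
    IsLame κ {y : EE d | c + r • y ∈ A} (aff c r u) := by
  have hcont : Continuous fun y : EE d => c + r • y := by fun_prop
  have hS : IsOpen {y : EE d | c + r • y ∈ A} := hA.preimage hcont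
  have hu' := (isLame_iff hA).1 hu
  have hd : ∀ y ∈ {y : EE d | c + r • y ∈ A}, dv (aff c r u) y = r * dv u (c + r • y) := by
    intro y hy
    unfold dv
    rw [Finset.mul_sum]
    exact Finset.sum_congr rfl fun k _ => pd_affine (l1_diff hA hu hy k) k
  have h1 := hm_affine hA hu'.1 c hr
  rw [isLame_iff hS]
  refine ⟨hm_congr (hm_cmul hS h1 r) hS hd, fun k => ?_⟩
  have h2 := hm_affine hA (hu'.2 k) c hr
  refine hm_congr (hm_sub hS h2 (hm_cmul hS h1 (κ * c k))) hS fun y hy => ?_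
  rw [hd y hy]
  simp only [aff, PiLp.add_apply, PiLp.smul_apply, smul_eq_mul]
  ring

theorem dv_add {x : EE d} (hu : ∀ k, DifferentiableAt ℝ (u k) x)
    (hv : ∀ k, DifferentiableAt ℝ (v k) x) :
    dv (fun k y => u k y + v k y) x = dv u x + dv v x := l1_dv_add hu hv

theorem dv_sub {x : EE d} (hu : ∀ k, DifferentiableAt ℝ (u k) x)
    (hv : ∀ k, DifferentiableAt ℝ (v k) x) :
    dv (fun k y => u k y - v k y) x = dv u x - dv v x := l1_dv_sub hu hv

theorem dv_cmul {x : EE d} (hu : ∀ k, DifferentiableAt ℝ (u k) x) (c : ℝ) :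
    dv (fun k y => c * u k y) x = c * dv u x := l1_dv_cmul hu c

theorem dv_dil (c : ℝ) (x : EE d) : dv (fun k (y : EE d) => c * y k) x = c * d := l1_dv_dil c x

/-- the pointwise equation `μ Δu_k + (λ+μ) ∂_k (∇·u) = 0`, with `κ = (λ+μ)/(2μ)` -/
theorem lame_pointwise (hA : IsOpen A) (hu : IsLame κ A u) {x : EE d} (hx : x ∈ A) (k : Fin d) :
    ∑ i, pd i (pd i (u k)) x + 2 * κ * pd k (dv u) x = 0 := by
  have hu' := (isLame_iff hA).1 hu
  have hθ := hm_contDiffAt2 hu'.1 hA hx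
  have huk : ContDiffAt ℝ 2 (u k) x :=
    ((lame_smooth hA hu k).contDiffAt (hA.mem_nhds hx)).of_le l1_le
  have hxk : ContDiffAt ℝ 2 (fun y : EE d => y k * dv u y) x :=
    ((l1_coord_mul hu'.1.1 k).contDiffAt (hA.mem_nhds hx)).of_le l1_le
  have h1 := (hu'.2 k).2 x hx
  rw [l1_lap_add huk (contDiffAt_const.mul hxk), l1_lap_cmul hxk, lap_coord_mul hθ, hu'.1.2 x hx]
    at h1
  rw [← h1]
  ring

end Pool.Agent.MP_0643f8_an.U
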