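import Mathlib
import Pool.Agent.Lib.MP_0643f8_an.U.L1_Lame
import Pool.Agent.Lib.MP_0643f8_an.U.H05_Ident2

/-!
# Identity theorem for Lame fields

By `isLame_iff` and the identity theorems for the harmonic functions `dv u` and
`u k + κ x_k dv u`: if `u` vanishes near a point, so do they.
-/

set_option autoImplicit false

open MeasureTheory Metric Set Filter Topology
open scoped ContDiff

namespace Pool.Agent.MP_0643f8_an.U

variable {d : ℕ} {κ : ℝ} {u v : Fin d → EE d → ℝ}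

private theorem l2_dv_zero {w : Fin d → EE d → ℝ} {x : EE d}
    (h : ∀ k, w k =ᶠ[𝓝 x] fun _ => 0) : dv w =ᶠ[𝓝 x] fun _ => 0 := by
  have h1 := dv_congr (u := w) (v := fun _ _ => 0) h
  refine h1.trans (Filter.Eventually.of_forall fun y => ?_)
  unfold dv
  exact Finset.sum_eq_zero fun k _ => pd_const 0 k y

private theorem l2_phi_zero {w : Fin d → EE d → ℝ} {x : EE d}
    (h : ∀ k, w k =ᶠ[𝓝 x] fun _ => 0) (k : Fin d) :
    (fun y => w k y + κ * (y k * dv w y)) =ᶠ[𝓝 x] fun _ => 0 := by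
  filter_upwards [h k, l2_dv_zero h] with y h1 h2
  rw [h1, h2]
  ring

private theorem l2_sub {x : EE d} (h : ∀ k, u k =ᶠ[𝓝 x] v k) (k : Fin d) :
    (fun y => u k y - v k y) =ᶠ[𝓝 x] fun _ => 0 := by
  filter_upwards [h k] with y hy
  rw [hy, sub_self]

theorem lame_ident_conn (hd : 2 ≤ d) {A S : Set (EE d)} (hA : IsOpen A) (hSA : S ⊆ A)
    (hS : IsPreconnected S) (hu : IsLame κ A u) (hv : IsLame κ A v) {x₀ : EE d} (hx₀ : x₀ ∈ S)
    (h0 : ∀ k, u k =ᶠ[𝓝 x₀] v k) : ∀ x ∈ S, ∀ k, u k =ᶠ[𝓝 x] v k := by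
  intro x hx k
  have hw := (isLame_iff hA).1 (lame_sub hA hu hv)
  have h1 := ident_conn hd hA hSA hS hw.1 hx₀ (l2_dv_zero (l2_sub h0)) x hx
  have h2 := ident_conn hd hA hSA hS (hw.2 k) hx₀ (l2_phi_zero (l2_sub h0) k) x hx
  filter_upwards [h1, h2] with y h3 h4
  rw [h3] at h4
  linarith

theorem lame_ident_star (hd : 2 ≤ d) {A : Set (EE d)} (hA : StarO A) (hu : IsLame κ A u)
    (hv : IsLame κ A v) (h0 : ∀ k, u k =ᶠ[𝓝 0] v k) : ∀ x ∈ A, ∀ k, u k x = v k x := by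
  intro x hx k
  have hw := (isLame_iff hA.1).1 (lame_sub hA.1 hu hv)
  have h1 := ident_star hd hA hw.1 (l2_dv_zero (l2_sub h0)) x hx
  have h2 := ident_star hd hA (hw.2 k) (l2_phi_zero (l2_sub h0) k) x hx
  simp only [h1] at h2
  linarith

private theorem l2_far {A : Set (EE d)} (hA : IsOpen A) {R : ℝ}
    (h0 : ∀ x ∈ A, R < ‖x‖ → ∀ k, u k x = v k x) {x : EE d} (hx : x ∈ A) (hR : R < ‖x‖) :
    ∀ k, u k =ᶠ[𝓝 x] v k := by
  intro k
  have ho : IsOpen (A ∩ {y : EE d | R < ‖y‖}) :=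
    hA.inter (isOpen_lt continuous_const continuous_norm)
  filter_upwards [ho.mem_nhds ⟨hx, hR⟩] with y hy
  exact h0 y hy.1 hy.2 k

theorem lame_ident_ray (hd : 2 ≤ d) {A : Set (EE d)} (hA : IsOpen A) (hu : IsLame κ A u)
    (hv : IsLame κ A v) {R : ℝ} (h0 : ∀ x ∈ A, R < ‖x‖ → ∀ k, u k x = v k x) {x w : EE d}
    (hw : w ≠ 0) (hray : ∀ t : ℝ, 0 ≤ t → x + t • w ∈ A) : ∀ k, u k x = v k x := by
  intro k
  have hs := (isLame_iff hA).1 (lame_sub hA hu hv)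
  have h1 := ident_ray hd hA hs.1 (R := R)
    (fun y hy hR => (l2_dv_zero (l2_sub (l2_far hA h0 hy hR))).self_of_nhds) hw hray
  have h2 := ident_ray hd hA (hs.2 k) (R := R)
    (fun y hy hR => (l2_phi_zero (l2_sub (l2_far hA h0 hy hR)) k).self_of_nhds) hw hray
  simp only [h1] at h2
  linarith

theorem lame_ident_out (hd : 2 ≤ d) {A : Set (EE d)} (hA : OutO A) (hA0 : (0 : EE d) ∉ A)
    (hu : IsLame κ A u) (hv : IsLame κ A v) {R : ℝ}
    (h0 : ∀ x ∈ A, R < ‖x‖ → ∀ k, u k x = v k x) : ∀ x ∈ A, ∀ k, u k x = v k x := by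
  intro x hx
  have hx0 : x ≠ 0 := fun h => hA0 (h ▸ hx)
  refine lame_ident_ray hd hA.1 hu hv h0 hx0 (fun t ht => ?_)
  have : x + t • x = (1 + t) • x := by rw [add_smul, one_smul]
  rw [this]
  exact hA.2 x hx (1 + t) (by linarith)

end Pool.Agent.MP_0643f8_an.U
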