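import Mathlib
import Pool.Agent.Lib.MP_0643f8_an.U.L1_Lame
import Pool.Agent.Lib.MP_0643f8_an.U.H06_Kelvin

/-!
# The radial exterior field `c x / |x|^d`
-/

set_option autoImplicit false

open MeasureTheory Metric Set Filter Topology
open scoped ContDiff

namespace Pool.Agent.MP_0643f8_an.U

variable {d : ℕ} {κ : ℝ}

/-- `c x / |x|^d` -/
noncomputable def pole (c : ℝ) (k : Fin d) (x : EE d) : ℝ := c * (x k / ‖x‖ ^ d)

private theorem l3_diff_norm {x : EE d} (hx : x ≠ 0) :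
    DifferentiableAt ℝ (fun y : EE d => ‖y‖) x :=
  (contDiffAt_norm ℝ hx (n := 1)).differentiableAt (by norm_num)

private theorem l3_pd_norm {x : EE d} (hx : x ≠ 0) (i : Fin d) :
    pd i (fun y : EE d => ‖y‖) x = x i / ‖x‖ := by
  have hn := l3_diff_norm hx
  have h1 := pd_mul hn hn i
  have h2 : (fun y : EE d => ‖y‖ * ‖y‖) = fun y => ‖y‖ ^ 2 := by
    funext y
    ring
  rw [h2, pd_normsq] at h1
  have h0 : ‖x‖ ≠ 0 := norm_ne_zero_iff.2 hx
  field_simp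
  linarith

private theorem l3_diff_pow {x : EE d} (hx : x ≠ 0) (n : ℕ) :
    DifferentiableAt ℝ (fun y : EE d => ‖y‖ ^ n) x := (l3_diff_norm hx).pow n

private theorem l3_pd_pow {x : EE d} (hx : x ≠ 0) (n : ℕ) (i : Fin d) :
    pd i (fun y : EE d => ‖y‖ ^ n) x = n * ‖x‖ ^ n * x i / ‖x‖ ^ 2 := by
  have h0 : ‖x‖ ≠ 0 := norm_ne_zero_iff.2 hx
  induction n with
  | zero => simp [pd_const]
  | succ n ih =>
    have h1 : (fun y : EE d => ‖y‖ ^ (n + 1)) = fun y => ‖y‖ ^ n * ‖y‖ := by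
      funext y
      rw [pow_succ]
    rw [h1, pd_mul (l3_diff_pow hx n) (l3_diff_norm hx), ih, l3_pd_norm hx, pow_succ]
    field_simp
    push_cast
    ring

private theorem l3_diff_coord (k : Fin d) (x : EE d) :
    DifferentiableAt ℝ (fun y : EE d => y k) x :=
  (EuclideanSpace.proj k : EE d →L[ℝ] ℝ).differentiableAt

theorem pd_pole (c : ℝ) {x : EE d} (hx : x ≠ 0) (i k : Fin d) :
    pd i (pole c k) x = c * ((if i = k then 1 else 0) / ‖x‖ ^ d -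
      d * (x i * x k) / ‖x‖ ^ (d + 2)) := by
  have h0 : ‖x‖ ≠ 0 := norm_ne_zero_iff.2 hx
  have hd : DifferentiableAt ℝ (fun y : EE d => y k / ‖y‖ ^ d) x := by
    have h5 : DifferentiableAt ℝ (fun y : EE d => (‖y‖ ^ d)⁻¹) x :=
      (l3_diff_pow hx d).inv (pow_ne_zero d h0)
    have h6 : (fun y : EE d => y k / ‖y‖ ^ d) = fun y => y k * (‖y‖ ^ d)⁻¹ := by
      funext y
      rw [div_eq_mul_inv]
    rw [h6]
    exact (l3_diff_coord k x).fun_mul h5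
  have h1 : (fun y : EE d => y k / ‖y‖ ^ d * ‖y‖ ^ d) =ᶠ[𝓝 x] fun y => y k := by
    filter_upwards [isOpen_ne.mem_nhds hx] with y hy
    have hy0 : ‖y‖ ≠ 0 := norm_ne_zero_iff.2 hy
    field_simp
  have h2 := (pd_congr h1 i).self_of_nhds
  rw [pd_mul hd (l3_diff_pow hx d), l3_pd_pow hx, pd_coord] at h2
  have h3 : pd i (pole c k) x = c * pd i (fun y : EE d => y k / ‖y‖ ^ d) x := pd_cmul hd c i
  rw [h3]
  congr 1
  have h4 : ‖x‖ ^ d ≠ 0 := pow_ne_zero d h0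
  rw [eq_sub_iff_add_eq, eq_div_iff h4, ← h2, pow_add]
  field_simp
  ring

theorem dv_pole (hd : 2 ≤ d) (c : ℝ) {x : EE d} (hx : x ≠ 0) :
    dv (pole c : Fin d → EE d → ℝ) x = 0 := by
  have h0 : ‖x‖ ≠ 0 := norm_ne_zero_iff.2 hx
  unfold dv
  have h1 : ∀ k : Fin d, pd k (pole c k) x = c * (1 / ‖x‖ ^ d) -
      c * (d / ‖x‖ ^ (d + 2)) * x k ^ 2 := by
    intro k
    rw [pd_pole c hx, if_pos rfl]
    ring
  have h2 : ∑ k : Fin d, c * (d / ‖x‖ ^ (d + 2)) * x k ^ 2 =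
      c * (d / ‖x‖ ^ (d + 2)) * ‖x‖ ^ 2 := by
    rw [normsq_eq_sum, Finset.mul_sum]
  rw [Finset.sum_congr rfl fun k _ => h1 k, Finset.sum_sub_distrib, h2,
    Finset.sum_const, Finset.card_univ, Fintype.card_fin, nsmul_eq_mul, pow_add]
  field_simp
  ring

theorem lame_pole (hd : 2 ≤ d) (c : ℝ) : IsLame κ {x : EE d | x ≠ 0} (pole c) := by
  have hA : IsOpen {x : EE d | x ≠ 0} := isOpen_ne
  refine lame_of_hm hA (fun k => ?_) (fun x hx => dv_pole hd c hx)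
  have h1 : Hm (RS (univ : Set (EE d))) (kel (fun y : EE d => y k)) :=
    hm_kel hd isOpen_univ (hm_coord univ k)
  have h2 : RS (univ : Set (EE d)) = {x : EE d | x ≠ 0} := by
    ext x
    simp [RS]
  rw [h2] at h1
  refine hm_congr (hm_cmul hA h1 c) hA fun x hx => ?_
  have h0 : ‖x‖ ≠ 0 := norm_ne_zero_iff.2 hx
  have h3 : kel (fun y : EE d => y k) x = (‖x‖ ^ (d - 2))⁻¹ * ((‖x‖ ^ 2)⁻¹ * x k) := rfl
  have h4 : ‖x‖ ^ d = ‖x‖ ^ (d - 2) * ‖x‖ ^ 2 := by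
    rw [← pow_add]
    congr 1
    omega
  rw [h3]
  unfold pole
  rw [h4]
  field_simp

end Pool.Agent.MP_0643f8_an.U
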