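import Mathlib
import Pool.Agent.Lib.MP_0643f8_an.U.L1_Lame
import Pool.Agent.Lib.MP_0643f8_an.U.E0_PE

/-!
# The fields `x (2E+d-2) g - |x|² ∇g + (1-|x|²) ∇ρ`

For `g`, `ρ` harmonic: the first two terms form a field with harmonic components
(`Δ(x_k h) = 2 ∂_k h`, `Δ(|x|² ∂_k g) = 2 d ∂_k g + 4 E ∂_k g = ∂_k (4 E + 2 d - 4) g`), the
divergence is `(E+d-2)(2E+d) g - 2 E ρ`, and `Δ((1-|x|²) ∂_k ρ) = - ∂_k (4E + 2d - 4) ρ`. Hence
with `θ` the divergence, `Δ (u_k + κ x_k θ) = - ∂_k (4E+2d-4) ρ + 2 κ ∂_k θ`, which vanishes if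
`(λ+μ) θ = 2 μ (2E+d-2) ρ`, `κ = (λ+μ)/(2μ)`; this is the hypothesis of `lame_Wf`.
-/

set_option autoImplicit false

open MeasureTheory Metric Set Filter Topology Polynomial
open scoped ContDiff

namespace Pool.Agent.MP_0643f8_an.U

variable {d : ℕ}

/-- the field `x (2E+d-2) g - |x|² ∇g + (1-|x|²) ∇ρ` -/
noncomputable def Wf (g ρ : EE d → ℝ) (k : Fin d) (x : EE d) : ℝ :=
  x k * (2 * eul g x + ((d : ℝ) - 2) * g x) - ‖x‖ ^ 2 * pd k g x + (1 - ‖x‖ ^ 2) * pd k ρ x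

variable {A : Set (EE d)} {g ρ : EE d → ℝ}

private theorem l4_coord (k : Fin d) : ContDiff ℝ ∞ (fun y : EE d => y k) := by fun_prop

private theorem l4_normsq : ContDiff ℝ ∞ (fun y : EE d => ‖y‖ ^ 2) := contDiff_norm_sq ℝ

private theorem l4_diff {U : Set (EE d)} {f : EE d → ℝ} (hA : IsOpen U) (hf : ContDiffOn ℝ ∞ f U)
    {x : EE d} (hx : x ∈ U) : DifferentiableAt ℝ f x :=
  (hf.contDiffAt (hA.mem_nhds hx)).differentiableAt (by simp)

private theorem l4_lap_sub {U : Set (EE d)} {a b : EE d → ℝ} (hA : IsOpen U)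
    (ha : ContDiffOn ℝ ∞ a U) (hb : ContDiffOn ℝ ∞ b U) {x : EE d} (hx : x ∈ U) :
    ∑ i, pd i (pd i (fun y => a y - b y)) x =
      ∑ i, pd i (pd i a) x - ∑ i, pd i (pd i b) x := by
  rw [← Finset.sum_sub_distrib]
  refine Finset.sum_congr rfl (fun i _ => ?_)
  have h1 : pd i (fun y => a y - b y) =ᶠ[𝓝 x] fun y => pd i a y - pd i b y := by
    filter_upwards [hA.mem_nhds hx] with y hy
    exact pd_sub (l4_diff hA ha hy) (l4_diff hA hb hy) i
  rw [(pd_congr h1 i).self_of_nhds]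
  exact pd_sub (l4_diff hA (pd_contDiffOn hA ha i) hx) (l4_diff hA (pd_contDiffOn hA hb i) hx) i

private theorem l4_H (hA : IsOpen A) (hg : Hm A g) :
    Hm A (fun x => 2 * eul g x + ((d : ℝ) - 2) * g x) :=
  hm_add hA (hm_cmul hA (hm_eul hA hg) 2) (hm_cmul hA hg ((d : ℝ) - 2))

private theorem l4_core (hA : IsOpen A) (hg : Hm A g) (k : Fin d) :
    Hm A (fun x => x k * (2 * eul g x + ((d : ℝ) - 2) * g x) - ‖x‖ ^ 2 * pd k g x) := by
  have hH := l4_H hA hg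
  have hp := hm_pd hA hg k
  have c1 : ContDiffOn ℝ ∞ (fun x : EE d => x k * (2 * eul g x + ((d : ℝ) - 2) * g x)) A :=
    (l4_coord k).contDiffOn.mul hH.1
  have c2 : ContDiffOn ℝ ∞ (fun x : EE d => ‖x‖ ^ 2 * pd k g x) A :=
    l4_normsq.contDiffOn.mul hp.1
  refine ⟨c1.sub c2, fun x hx => ?_⟩
  rw [l4_lap_sub hA c1 c2 hx, lap_coord_mul (hm_contDiffAt2 hH hA hx) k,
    lap_normsq_mul (hm_contDiffAt2 hp hA hx), hH.2 x hx, hp.2 x hx]
  have e1 : pd k (fun x => 2 * eul g x + ((d : ℝ) - 2) * g x) x =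
      2 * pd k (eul g) x + ((d : ℝ) - 2) * pd k g x := by
    have d1 : DifferentiableAt ℝ (eul g) x := hm_diffAt (hm_eul hA hg) hA hx
    have d2 : DifferentiableAt ℝ g x := hm_diffAt hg hA hx
    rw [pd_add (d1.const_mul 2) (d2.const_mul _), pd_cmul d1, pd_cmul d2]
  rw [e1, pd_eul (hm_contDiffAt2 hg hA hx) k]
  ring

theorem Wf_smooth (hA : IsOpen A) (hg : Hm A g) (hρ : Hm A ρ) (k : Fin d) :
    ContDiffOn ℝ ∞ (Wf g ρ k) A := by
  have h1 := (l4_core hA hg k).1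
  have h2 : ContDiffOn ℝ ∞ (fun x : EE d => (1 - ‖x‖ ^ 2) * pd k ρ x) A :=
    (contDiffOn_const.sub l4_normsq.contDiffOn).mul (hm_pd hA hρ k).1
  exact h1.add h2

theorem dv_Wf (hA : IsOpen A) (hg : Hm A g) (hρ : Hm A ρ) {x : EE d} (hx : x ∈ A) :
    dv (Wf g ρ) x =
      pE ((X + C ((d : ℝ) - 2)) * (2 * X + C (d : ℝ))) g x - 2 * eul ρ x := by
  have hH := l4_H hA hg
  have hE := hm_eul hA hg
  -- the divergence
  have hk : ∀ k, pd k (Wf g ρ k) x =
      x k * pd k (fun x => 2 * eul g x + ((d : ℝ) - 2) * g x) x +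
        (2 * eul g x + ((d : ℝ) - 2) * g x) -
      (‖x‖ ^ 2 * pd k (pd k g) x + pd k g x * (2 * x k)) +
      ((1 - ‖x‖ ^ 2) * pd k (pd k ρ) x - pd k ρ x * (2 * x k)) := by
    intro k
    have dH : DifferentiableAt ℝ (fun x => 2 * eul g x + ((d : ℝ) - 2) * g x) x :=
      hm_diffAt hH hA hx
    have dc : DifferentiableAt ℝ (fun y : EE d => y k) x := (l4_coord k).differentiable (by simp) x
    have dn : DifferentiableAt ℝ (fun y : EE d => ‖y‖ ^ 2) x := l4_normsq.differentiable (by simp) x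
    have dg : DifferentiableAt ℝ (pd k g) x := hm_diffAt (hm_pd hA hg k) hA hx
    have dρ : DifferentiableAt ℝ (pd k ρ) x := hm_diffAt (hm_pd hA hρ k) hA hx
    have d1n : DifferentiableAt ℝ (fun y : EE d => 1 - ‖y‖ ^ 2) x :=
      (differentiableAt_const _).sub dn
    have e0 : pd k (fun y : EE d => 1 - ‖y‖ ^ 2) x = - (2 * x k) := by
      rw [pd_sub (differentiableAt_const _) dn, pd_const, pd_normsq]
      ring
    have e1 : pd k (Wf g ρ k) x =
        pd k (fun y => y k * (2 * eul g y + ((d : ℝ) - 2) * g y) - ‖y‖ ^ 2 * pd k g y) x +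
          pd k (fun y => (1 - ‖y‖ ^ 2) * pd k ρ y) x :=
      pd_add ((dc.mul dH).sub (dn.mul dg)) (d1n.mul dρ) k
    have dm1 : DifferentiableAt ℝ (fun y : EE d => y k * (2 * eul g y + ((d : ℝ) - 2) * g y)) x :=
      dc.mul dH
    have dm2 : DifferentiableAt ℝ (fun y : EE d => ‖y‖ ^ 2 * pd k g y) x := dn.mul dg
    rw [e1, pd_sub dm1 dm2, pd_mul dc dH, pd_mul dn dg, pd_mul d1n dρ, pd_normsq,
      pd_coord, if_pos rfl, e0]
    ring
  have hdv : dv (Wf g ρ) x = ∑ k, pd k (Wf g ρ k) x := rfl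
  have s1 : ∑ k, x k * pd k (fun x => 2 * eul g x + ((d : ℝ) - 2) * g x) x =
      2 * eul (eul g) x + ((d : ℝ) - 2) * eul g x := by
    rw [← eul_eq_sum]
    have d1 : DifferentiableAt ℝ (eul g) x := hm_diffAt hE hA hx
    have d2 : DifferentiableAt ℝ g x := hm_diffAt hg hA hx
    rw [eul_add (d1.const_mul 2) (d2.const_mul _), eul_cmul d1, eul_cmul d2]
  have s2 : ∑ k, pd k g x * (2 * x k) = 2 * eul g x := by
    rw [eul_eq_sum, Finset.mul_sum]
    exact Finset.sum_congr rfl (fun i _ => by ring)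
  have s3 : ∑ k, pd k ρ x * (2 * x k) = 2 * eul ρ x := by
    rw [eul_eq_sum, Finset.mul_sum]
    exact Finset.sum_congr rfl (fun i _ => by ring)
  obtain ⟨h0, hh0⟩ : ∃ h0 : ℝ, h0 = 2 * eul g x + ((d : ℝ) - 2) * g x := ⟨_, rfl⟩
  have s4 : ∑ _k : Fin d, h0 = d * h0 := by
    rw [Finset.sum_const, Finset.card_univ, Fintype.card_fin, nsmul_eq_mul]
  have e2 : dv (Wf g ρ) x = 2 * eul (eul g) x + ((d : ℝ) - 2) * eul g x +
      d * (2 * eul g x + ((d : ℝ) - 2) * g x) - 2 * eul g x - 2 * eul ρ x := by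
    rw [hdv, Finset.sum_congr rfl (fun k _ => hk k), ← hh0]
    simp only [Finset.sum_add_distrib, Finset.sum_sub_distrib]
    rw [s1, s2, s3, s4, ← Finset.mul_sum, ← Finset.mul_sum, hg.2 x hx, hρ.2 x hx]
    ring
  have e3 : pE ((X + C ((d : ℝ) - 2)) * (2 * X + C (d : ℝ))) g x =
      2 * eul (eul g) x + (3 * (d : ℝ) - 4) * eul g x + d * ((d : ℝ) - 2) * g x := by
    have e4 : (X + C ((d : ℝ) - 2)) * (2 * X + C (d : ℝ)) =
        C 2 * (X * X) + C (3 * (d : ℝ) - 4) * X + C ((d : ℝ) * ((d : ℝ) - 2)) := by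
      simp only [map_sub, map_mul, map_add, map_ofNat]
      ring
    rw [e4, pE_add_left, pE_add_left, pE_C_mul, pE_C_mul, pE_C, pE_X, pE_mul hA hg.1 _ _ hx, pE_X]
    have e5 : pE (X : ℝ[X]) g = eul g := funext (fun y => pE_X g y)
    rw [e5]
  rw [e2, e3]
  ring

theorem lame_Wf (hA : IsOpen A) (hg : Hm A g) (hρ : Hm A ρ) {lam mu : ℝ} (hmu : mu ≠ 0)
    (h : ∀ x ∈ A, 2 * mu * (2 * eul ρ x + ((d : ℝ) - 2) * ρ x) =
      (lam + mu) * (pE ((X + C ((d : ℝ) - 2)) * (2 * X + C (d : ℝ))) g x - 2 * eul ρ x)) :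
    IsLame ((lam + mu) / (2 * mu)) A (Wf g ρ) := by
  rw [isLame_iff hA]
  constructor
  · have h1 : Hm A (fun x => pE ((X + C ((d : ℝ) - 2)) * (2 * X + C (d : ℝ))) g x -
        2 * eul ρ x) := by
      refine hm_sub hA ?_ (hm_cmul hA (hm_eul hA hρ) 2)
      have h2 : Hm A (fun x => 2 * eul (eul g) x + (3 * (d : ℝ) - 4) * eul g x +
          d * ((d : ℝ) - 2) * g x) :=
        hm_add hA (hm_add hA (hm_cmul hA (hm_eul hA (hm_eul hA hg)) 2)
          (hm_cmul hA (hm_eul hA hg) _)) (hm_cmul hA hg _)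
      refine hm_congr h2 hA (fun x hx => ?_)
      have h0 : Hm A (fun _ : EE d => (0 : ℝ)) := hm_const A 0
      have e1 := dv_Wf hA hg h0 hx
      have e4 : (X + C ((d : ℝ) - 2)) * (2 * X + C (d : ℝ)) =
          C 2 * (X * X) + C (3 * (d : ℝ) - 4) * X + C ((d : ℝ) * ((d : ℝ) - 2)) := by
        simp only [map_sub, map_mul, map_add, map_ofNat]
        ring
      rw [e4, pE_add_left, pE_add_left, pE_C_mul, pE_C_mul, pE_C, pE_X,
        pE_mul hA hg.1 _ _ hx, pE_X]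
      have e5 : pE (X : ℝ[X]) g = eul g := funext (fun y => pE_X g y)
      rw [e5]
    exact hm_congr h1 hA (fun x hx => dv_Wf hA hg hρ hx)
  · intro k
    have hG : Hm A (fun x => g x + ρ x) := hm_add hA hg hρ
    have h1 := hm_add hA (l4_core hA hG k) (hm_pd hA hρ k)
    refine hm_congr h1 hA (fun x hx => ?_)
    have dg : DifferentiableAt ℝ g x := hm_diffAt hg hA hx
    have dρ : DifferentiableAt ℝ ρ x := hm_diffAt hρ hA hx
    have e1 : (lam + mu) / (2 * mu) * (x k * dv (Wf g ρ) x) =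
        x k * (2 * eul ρ x + ((d : ℝ) - 2) * ρ x) := by
      have e2 := h x hx
      rw [← dv_Wf hA hg hρ hx] at e2
      have e3 : (2 * eul ρ x + ((d : ℝ) - 2) * ρ x) =
          (lam + mu) * dv (Wf g ρ) x / (2 * mu) := by
        rw [← e2]
        field_simp
      rw [e3]
      ring
    rw [e1, eul_add dg dρ, pd_add dg dρ]
    unfold Wf
    ring

/-- `x · W = (E+d-2) ...`: the radial component of the field, for `ρ = 0`:
`x · (x (2E+d-2) g - |x|² ∇g) = |x|² (E + d - 2) g` -/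
theorem xdot_Wf_zero (hA : IsOpen A) (hg : Hm A g) {x : EE d} (hx : x ∈ A) :
    ∑ k, x k * Wf g (fun _ => 0) k x = ‖x‖ ^ 2 * (eul g x + ((d : ℝ) - 2) * g x) := by
  have h1 : ∀ k, x k * Wf g (fun _ => 0) k x =
      x k ^ 2 * (2 * eul g x + ((d : ℝ) - 2) * g x) - ‖x‖ ^ 2 * (x k * pd k g x) := by
    intro k
    unfold Wf
    rw [pd_const]
    ring
  rw [Finset.sum_congr rfl (fun k _ => h1 k), Finset.sum_sub_distrib, ← Finset.sum_mul,
    ← Finset.mul_sum, ← normsq_eq_sum, ← eul_eq_sum]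
  ring

theorem Wf_congr {g' ρ' : EE d → ℝ} {x : EE d} (hg : g' =ᶠ[𝓝 x] g) (hρ : ρ' =ᶠ[𝓝 x] ρ)
    (k : Fin d) : Wf g' ρ' k =ᶠ[𝓝 x] Wf g ρ k := by
  filter_upwards [hg, eul_congr hg, pd_congr hg k, pd_congr hρ k] with y h1 h2 h3 h4
  unfold Wf
  rw [h1, h2, h3, h4]

end Pool.Agent.MP_0643f8_an.U
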