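import Mathlib
import Pool.Agent.Lib.MP_0643f8_an.U.L2_Ident

/-!
# Fields with zero strain, stress
-/

set_option autoImplicit false

open MeasureTheory Metric Set Filter Topology
open scoped ContDiff

namespace Pool.Agent.MP_0643f8_an.U

variable {d : ℕ} {A : Set (EE d)} {κ : ℝ} {u : Fin d → EE d → ℝ}

private theorem l5_le : (2 : WithTop ℕ∞) ≤ ∞ := WithTop.coe_le_coe.2 le_top

/-- the strain components of a Lame field are smooth and the strain satisfies an identity
theorem: if it vanishes near one point of a connected subset `S` of `A`, it vanishes near all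
points of `S`. (Zero strain near a point gives zero second derivatives there, so `dv u = 0` near
the point, hence `dv u = 0` near `S`; then the `u k` are harmonic near `S`, their derivatives too,
and so are `∂_i u_k + ∂_k u_i`.) -/
theorem strain_ident (hd : 2 ≤ d) (hA : IsOpen A) {S : Set (EE d)} (hSA : S ⊆ A)
    (hS : IsPreconnected S) (hu : IsLame κ A u) {x₀ : EE d} (hx₀ : x₀ ∈ S)
    (h0 : ∀ i k, ∀ᶠ x in 𝓝 x₀, pd i (u k) x + pd k (u i) x = 0) :
    ∀ x ∈ S, ∀ i k, ∀ᶠ y in 𝓝 x, pd i (u k) y + pd k (u i) y = 0 := by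
  -- the divergence vanishes near `S`
  have h1 : dv u =ᶠ[𝓝 x₀] fun _ => 0 := by
    have h2 : ∀ᶠ x in 𝓝 x₀, ∀ k, pd k (u k) x + pd k (u k) x = 0 :=
      Filter.eventually_all.2 fun k => h0 k k
    filter_upwards [h2] with x hx
    have h3 : ∀ k, pd k (u k) x = 0 := fun k => by linarith [hx k]
    simp only [dv, h3, Finset.sum_const_zero]
  have h2 := ident_conn hd hA hSA hS (hm_dv hA hu) hx₀ h1
  -- the open set of points near which the divergence vanishes
  obtain ⟨A', hA'def⟩ : ∃ A' : Set (EE d), A' = A ∩ {x | dv u =ᶠ[𝓝 x] fun _ => 0} := ⟨_, rfl⟩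
  have hA' : IsOpen A' := by
    rw [hA'def]
    exact hA.inter isOpen_setOfPred_eventually_nhds
  have hA'A : A' ⊆ A := by rw [hA'def]; exact inter_subset_left
  have hSA' : S ⊆ A' := fun x hx => by
    rw [hA'def]
    exact ⟨hSA hx, h2 x hx⟩
  have hdv : ∀ x ∈ A', dv u x = 0 := fun x hx => by
    rw [hA'def] at hx
    exact hx.2.self_of_nhds
  have hHm : ∀ k, Hm A' (u k) := hm_of_lame hA' (lame_mono hu hA'A) hdv
  intro x hx i k
  have h4 : Hm A' (fun y => pd i (u k) y + pd k (u i) y) :=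
    hm_add hA' (hm_pd hA' (hHm k) i) (hm_pd hA' (hHm i) k)
  exact ident_conn hd hA' hSA' hS h4 hx₀ (h0 i k) x hx

/-- zero strain on a preconnected open set: the gradient is constant
(`∂ⱼ∂ᵢu_k = ∂ⱼe_ik + ∂ᵢe_jk - ∂_k e_ij` with `e_ik = (∂_i u_k + ∂_k u_i)/2`) -/
theorem strain_zero (hA : IsOpen A) (hAc : IsPreconnected A) (hu : ∀ k, ContDiffOn ℝ ∞ (u k) A)
    (h0 : ∀ x ∈ A, ∀ i k, pd i (u k) x + pd k (u i) x = 0) :
    ∃ a : Fin d → Fin d → ℝ, ∀ x ∈ A, ∀ i k, pd i (u k) x = a i k := by
  have hsm : ∀ i k, ContDiffOn ℝ ∞ (pd i (u k)) A := fun i k => pd_contDiffOn hA (hu k) i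
  have hdiff : ∀ i k, ∀ x ∈ A, DifferentiableAt ℝ (pd i (u k)) x := fun i k x hx =>
    ((hsm i k).contDiffAt (hA.mem_nhds hx)).differentiableAt (by simp)
  -- second derivatives
  have hsym : ∀ x ∈ A, ∀ j i k, pd j (pd i (u k)) x = pd i (pd j (u k)) x := by
    intro x hx j i k
    refine pd_comm ?_ j i
    exact ((hu k).contDiffAt (hA.mem_nhds hx)).of_le l5_le
  have hanti : ∀ x ∈ A, ∀ j i k, pd j (pd i (u k)) x + pd j (pd k (u i)) x = 0 := by
    intro x hx j i k
    rw [← pd_add (hdiff i k x hx) (hdiff k i x hx) j]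
    have h1 : (fun y => pd i (u k) y + pd k (u i) y) =ᶠ[𝓝 x] fun _ => 0 := by
      filter_upwards [hA.mem_nhds hx] with y hy using h0 y hy i k
    rw [(pd_congr h1 j).self_of_nhds, pd_const]
  have hzero : ∀ x ∈ A, ∀ j i k, pd j (pd i (u k)) x = 0 := by
    intro x hx j i k
    have a1 := hanti x hx j i k
    have a2 := hsym x hx j k i
    have a3 := hanti x hx k j i
    have a4 := hsym x hx k i j
    have a5 := hanti x hx i k j
    have a6 := hsym x hx i j k
    linarith
  have hconst : ∀ x ∈ A, ∀ y ∈ A, ∀ i k, pd i (u k) x = pd i (u k) y := by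
    intro x hx y hy i k
    refine hA.is_const_of_fderiv_eq_zero (𝕜 := ℝ) hAc
      (fun z hz => (hdiff i k z hz).differentiableWithinAt) (fun z hz => ?_) hx hy
    ext v
    rw [fderiv_eq_sum]
    simp [hzero z hz]
  rcases A.eq_empty_or_nonempty with he | ⟨x₁, hx₁⟩
  · exact ⟨fun _ _ => 0, fun x hx => by rw [he] at hx; exact absurd hx (notMem_empty x)⟩
  · exact ⟨fun i k => pd i (u k) x₁, fun x hx i k => hconst x hx x₁ hx₁ i k⟩

/-- the stress of a Lame field is divergence free -/
theorem stress_div (hA : IsOpen A) {lam mu : ℝ} (hmu : mu ≠ 0)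
    (hu : IsLame ((lam + mu) / (2 * mu)) A u) {x : EE d} (hx : x ∈ A) (k : Fin d) :
    ∑ i, pd i (sig lam mu (grd u) i k) x = 0 := by
  have hsmu : ∀ k, ContDiffOn ℝ ∞ (u k) A := fun k => lame_smooth hA hu k
  have hsm : ∀ i k, ContDiffOn ℝ ∞ (pd i (u k)) A := fun i k => pd_contDiffOn hA (hsmu k) i
  have hdiff : ∀ i k, DifferentiableAt ℝ (pd i (u k)) x := fun i k =>
    ((hsm i k).contDiffAt (hA.mem_nhds hx)).differentiableAt (by simp)
  have hdv : DifferentiableAt ℝ (dv u) x := hm_diffAt (hm_dv hA hu) hA hx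
  have h1 : ∀ i, pd i (sig lam mu (grd u) i k) x =
      (if i = k then lam * pd k (dv u) x else 0) +
        mu * (pd i (pd i (u k)) x + pd i (pd k (u i)) x) := by
    intro i
    have h2 : sig lam mu (grd u) i k = fun y => (if i = k then lam * dv u y else 0) +
        mu * (pd i (u k) y + pd k (u i) y) := by
      funext y
      unfold sig grd dv
      split_ifs <;> ring
    have h3 : DifferentiableAt ℝ (fun y => pd i (u k) y + pd k (u i) y) x :=
      (hdiff i k).add (hdiff k i)
    rw [h2]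
    by_cases hik : i = k
    · subst hik
      simp only [if_true]
      rw [pd_add (hdv.const_mul lam) (h3.const_mul mu), pd_cmul hdv, pd_cmul h3,
        pd_add (hdiff i i) (hdiff i i)]
    · simp only [hik, if_false, zero_add]
      rw [pd_cmul h3, pd_add (hdiff i k) (hdiff k i)]
  rw [Finset.sum_congr rfl fun i _ => h1 i, Finset.sum_add_distrib, Finset.sum_ite_eq',
    if_pos (Finset.mem_univ k), ← Finset.mul_sum, Finset.sum_add_distrib]
  have h4 : ∑ i, pd i (pd k (u i)) x = pd k (dv u) x := by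
    have h5 : dv u = fun y => ∑ i, pd i (u i) y := rfl
    rw [h5, pd_sum Finset.univ (fun i _ => hdiff i i) k]
    refine Finset.sum_congr rfl fun i _ => ?_
    refine pd_comm ?_ i k
    exact ((hsmu i).contDiffAt (hA.mem_nhds hx)).of_le l5_le
  rw [h4]
  have h6 := lame_pointwise hA hu hx k
  have h7 : ∑ i, pd i (pd i (u k)) x = -((lam + mu) / mu * pd k (dv u) x) := by
    have h8 : 2 * ((lam + mu) / (2 * mu)) = (lam + mu) / mu := by
      field_simp
    rw [h8] at h6
    linarith
  rw [h7]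
  field_simp
  ring

/-- the strain of an affine change of variables -/
theorem grd_aff {c : EE d} {r : ℝ} {y : EE d} (hu : ∀ k, DifferentiableAt ℝ (u k) (c + r • y))
    (k i : Fin d) : grd (aff c r u) k i y = r * grd u k i (c + r • y) := by
  exact pd_affine (hu k) i

end Pool.Agent.MP_0643f8_an.U
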