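import Mathlib
import Pool.Agent.Lib.MP_0643f8_an.U.L2_Ident
import Pool.Agent.Lib.MP_0643f8_an.U.H03_Grad

/-!
# Liouville theorems

`hm_liouville`: gradient estimate on balls of radius `r → ∞`.
`lame_liouville`: by the mean value property of `θ = dv u` and integration by parts,
`θ x ∫ wt 3 = ∫ θ (x + r y) wt 3 y dy = - r⁻¹ ∑ k ∫ u_k (x + r y) ∂_k (wt 3) y dy = O(1/r)`, so
`θ = 0`, hence the `u k` are harmonic, bounded, tend to `0`.
-/

set_option autoImplicit false

open MeasureTheory Metric Set Filter Topology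
open scoped ContDiff

namespace Pool.Agent.MP_0643f8_an.U

variable {d : ℕ} {κ : ℝ}

/-- a harmonic function of logarithmic growth is constant -/
theorem hm_liouville (hd : 2 ≤ d) {f : EE d → ℝ} (hf : Hm univ f) {C : ℝ}
    (h : ∀ x, |f x| ≤ C * (1 + Real.log (1 + ‖x‖))) (x y : EE d) : f x = f y := by
  obtain ⟨K, hK1, hK⟩ := grad_est hd
  have hC : 0 ≤ C := by
    have h1 := h 0
    rw [norm_zero, add_zero, Real.log_one, add_zero, mul_one] at h1
    exact (abs_nonneg _).trans h1
  have hdiff : Differentiable ℝ f := fun z => hm_diffAt hf isOpen_univ (mem_univ z)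
  refine is_const_of_fderiv_eq_zero (𝕜 := ℝ) hdiff (fun z => ?_) x y
  set c : ℝ := 1 + ‖z‖ with hc
  have hc1 : 1 ≤ c := by
    rw [hc]
    linarith [norm_nonneg z]
  have hbound : ∀ᶠ s : ℝ in atTop, ‖fderiv ℝ f z‖ ≤
      K * (C * (Real.log s ^ 0 / (1 * s + (-c)) + Real.log s ^ 1 / (1 * s + (-c)))) := by
    filter_upwards [eventually_gt_atTop (c + 1)] with s hs
    have hr : 0 < s - c := by linarith
    have h1 := hK univ f z (s - c) (C * (1 + Real.log s)) isOpen_univ hf hr (subset_univ _) (by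
      intro w hw
      refine (h w).trans ?_
      refine mul_le_mul_of_nonneg_left ?_ hC
      have h2 : ‖w‖ ≤ ‖z‖ + (s - c) := by
        have h3 : ‖w - z‖ ≤ s - c := by
          rw [← dist_eq_norm]
          exact mem_closedBall.1 hw
        have h4 : ‖w‖ ≤ ‖w - z‖ + ‖z‖ := by
          have := norm_add_le (w - z) z
          rwa [sub_add_cancel] at this
        linarith
      have h5 : 1 + ‖w‖ ≤ s := by
        rw [hc] at h2
        linarith
      have h6 : 0 < 1 + ‖w‖ := by linarith [norm_nonneg w]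
      have := Real.log_le_log h6 h5
      linarith)
    refine h1.trans (le_of_eq ?_)
    rw [pow_zero, pow_one, one_mul, ← sub_eq_add_neg]
    field_simp
  have hlim : Tendsto (fun s : ℝ => K * (C * (Real.log s ^ 0 / (1 * s + (-c)) +
      Real.log s ^ 1 / (1 * s + (-c))))) atTop (𝓝 (K * (C * (0 + 0)))) :=
    (((Real.tendsto_pow_log_div_mul_add_atTop 1 (-c) 0 one_ne_zero).add
      (Real.tendsto_pow_log_div_mul_add_atTop 1 (-c) 1 one_ne_zero)).const_mul C).const_mul K
  rw [add_zero, mul_zero, mul_zero] at hlim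
  exact norm_le_zero_iff.1 (ge_of_tendsto hlim hbound)

open Pool.Agent.Lib.MP_47b33c_an in
private theorem l6_ibp {v : EE d → ℝ} (hv : ContDiffOn ℝ ∞ v univ) {x : EE d} {r : ℝ}
    (_hr : 0 < r) (i : Fin d) :
    Integrable (fun y : EE d => pd i v (x + r • y) * wt 3 y) ∧
    r * ∫ y : EE d, pd i v (x + r • y) * wt 3 y =
      6 * ∫ y : EE d, v (x + r • y) * (y i * wt 2 y) := by
  set w : EE d := EuclideanSpace.basisFun (Fin d) ℝ i with hw0
  have hw' : w = EuclideanSpace.single i (1 : ℝ) := by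
    rw [hw0, EuclideanSpace.basisFun_apply]
  have hpd : ContDiffOn ℝ ∞ (pd i v) univ := pd_contDiffOn isOpen_univ hv i
  have hvd : ∀ y, DifferentiableAt ℝ v y := fun y =>
    (hv.contDiffAt univ_mem).differentiableAt (by simp)
  -- continuity
  have hvc : Continuous v := continuousOn_univ.1 hv.continuousOn
  have hpc : Continuous (pd i v) := continuousOn_univ.1 hpd.continuousOn
  have c0 : ContinuousOn (fun y : EE d => v (x + r • y)) (closedBall 0 1) :=
    (hvc.comp (by fun_prop)).continuousOn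
  have c1 : ContinuousOn (fun y : EE d => pd i v (x + r • y)) (closedBall 0 1) :=
    (hpc.comp (by fun_prop)).continuousOn
  have h3 : ∀ y : EE d, HasFDerivAt (fun y : EE d => v (x + r • y))
      (r • fderiv ℝ v (x + r • y)) y := by
    intro y
    have h4 : HasFDerivAt (fun y : EE d => x + r • y) (r • ContinuousLinearMap.id ℝ (EE d)) y :=
      ((hasFDerivAt_id y).const_smul r).const_add x
    have h5 := (hvd (x + r • y)).hasFDerivAt.comp y h4
    refine h5.congr_fderiv ?_
    ext w
    simp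
  have h4 : ∀ y : EE d, fderiv ℝ (fun y : EE d => v (x + r • y)) y w =
      r * pd i v (x + r • y) := by
    intro y
    rw [(h3 y).fderiv]
    unfold pd
    rw [← hw']
    rfl
  have i1 : Integrable (fun y : EE d => pd i v (x + r • y) * wt 3 y) :=
    a4_integrable 3 (by norm_num) c1
  have i0 : Integrable (fun y : EE d => v (x + r • y) * (y i * wt 2 y)) := by
    have h := a4_integrable 2 (by norm_num) (c0.mul (g := fun y : EE d => y i) (by fun_prop))
    refine h.congr (Eventually.of_forall fun y => ?_)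
    simp only [Pi.mul_apply, mul_assoc]
  have hw : ∀ y : EE d, fderiv ℝ (wt 3 : EE d → ℝ) y w = -6 * (y i * wt 2 y) := by
    intro y
    have h := a4_fderiv_wt 2 (by norm_num) y i
    rw [hw0]
    refine h.trans ?_
    norm_num
  refine ⟨i1, ?_⟩
  have e1 : ∫ y : EE d, v (x + r • y) * fderiv ℝ (wt 3 : EE d → ℝ) y w =
      -∫ y : EE d, fderiv ℝ (fun y : EE d => v (x + r • y)) y w * wt 3 y := by
    refine integral_mul_fderiv_eq_neg_fderiv_mul_of_integrable ?_ ?_
      (a4_integrable 3 (by norm_num) c0) (fun y _ => (h3 y).differentiableAt)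
      fun y _ => (wt_hasFDerivAt 2 (by norm_num) y).differentiableAt
    · refine (i1.const_mul r).congr (Eventually.of_forall fun y => ?_)
      dsimp only
      rw [h4 y]
      ring
    · refine (i0.const_mul (-6)).congr (Eventually.of_forall fun y => ?_)
      dsimp only
      rw [hw y]
      ring
  have e2 : ∫ y : EE d, v (x + r • y) * fderiv ℝ (wt 3 : EE d → ℝ) y w =
      -6 * ∫ y : EE d, v (x + r • y) * (y i * wt 2 y) := by
    rw [← integral_const_mul]
    refine integral_congr_ae (Eventually.of_forall fun y => ?_)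
    dsimp only
    rw [hw y]
    ring
  have e3 : ∫ y : EE d, fderiv ℝ (fun y : EE d => v (x + r • y)) y w * wt 3 y =
      r * ∫ y : EE d, pd i v (x + r • y) * wt 3 y := by
    rw [← integral_const_mul]
    refine integral_congr_ae (Eventually.of_forall fun y => ?_)
    dsimp only
    rw [h4 y]
    ring
  rw [e2, e3] at e1
  linarith

open Pool.Agent.Lib.MP_47b33c_an in
private theorem l6_int_bound {v : EE d → ℝ} {M : ℝ} (hM : ∀ y, |v y| ≤ M) (x : EE d) (r : ℝ)
    (i : Fin d) : |∫ y : EE d, v (x + r • y) * (y i * wt 2 y)| ≤ M * ∫ y : EE d, wt 2 y := by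
  rw [← Real.norm_eq_abs, ← integral_const_mul]
  apply norm_integral_le_of_norm_le ((wt_integrable 2 (by norm_num)).const_mul M)
  refine Eventually.of_forall fun y => ?_
  rcases le_or_gt ‖y‖ 1 with hy | hy
  · rw [norm_mul, norm_mul, Real.norm_of_nonneg (wt_nonneg 2 y), Real.norm_eq_abs]
    have h3 : |v (x + r • y)| ≤ M := hM _
    have h4 : ‖y i‖ ≤ 1 := (PiLp.norm_apply_le y i).trans hy
    have h5 : ‖y i‖ * wt 2 y ≤ 1 * wt 2 y := mul_le_mul_of_nonneg_right h4 (wt_nonneg 2 y)
    rw [one_mul] at h5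
    exact mul_le_mul h3 h5 (mul_nonneg (norm_nonneg _) (wt_nonneg 2 y)) ((abs_nonneg _).trans h3)
  · rw [wt_eq_zero 2 (by norm_num) hy.le]
    simp

open Pool.Agent.Lib.MP_47b33c_an in
private theorem l6_dv (hd : 2 ≤ d) {u : Fin d → EE d → ℝ} (hu : IsLame κ univ u) {M : ℝ}
    (hM : ∀ y, ∀ k, |u k y| ≤ M) (x : EE d) : dv u x = 0 := by
  have hθ : Hm univ (dv u) := hm_dv isOpen_univ hu
  have hsm : ∀ k, ContDiffOn ℝ ∞ (u k) univ := fun k => lame_smooth isOpen_univ hu k
  have hS : 0 < ∫ y : EE d, wt 3 y := wt_integral_pos hd 3 (by norm_num)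
  set S : ℝ := ∫ y : EE d, wt 3 y with hSdef
  set S2 : ℝ := ∫ y : EE d, wt 2 y with hS2
  have key : ∀ r : ℝ, 0 < r → r * (|dv u x| * S) ≤ 6 * (d * (M * S2)) := by
    intro r hr
    have hmv := mvp hd 3 (by norm_num) hr.le (u := dv u) (x := x)
      (fun z _ => harmonic_of_hm isOpen_univ hθ z (mem_univ z))
    have e1 : ∫ y : EE d, dv u (x + r • y) * wt 3 y =
        ∑ k, ∫ y : EE d, pd k (u k) (x + r • y) * wt 3 y := by
      rw [← integral_finsetSum _ fun k _ => (l6_ibp (hsm k) hr k).1]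
      refine integral_congr_ae (Eventually.of_forall fun y => ?_)
      dsimp only
      unfold dv
      rw [Finset.sum_mul]
    have e2 : r * (dv u x * S) =
        ∑ k, 6 * ∫ y : EE d, u k (x + r • y) * (y k * wt 2 y) := by
      rw [hSdef, ← hmv, e1, Finset.mul_sum]
      exact Finset.sum_congr rfl fun k _ => (l6_ibp (hsm k) hr k).2
    have e3 : |r * (dv u x * S)| = r * (|dv u x| * S) := by
      rw [abs_mul, abs_mul, abs_of_pos hr, abs_of_pos hS]
    rw [← e3, e2]
    refine (Finset.abs_sum_le_sum_abs _ _).trans ?_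
    have e4 : ∀ k ∈ (Finset.univ : Finset (Fin d)),
        |6 * ∫ y : EE d, u k (x + r • y) * (y k * wt 2 y)| ≤ 6 * (M * S2) := by
      intro k _
      rw [abs_mul, abs_of_pos (by norm_num : (0 : ℝ) < 6)]
      exact mul_le_mul_of_nonneg_left (l6_int_bound (fun y => hM y k) x r k) (by norm_num)
    refine (Finset.sum_le_sum e4).trans (le_of_eq ?_)
    rw [Finset.sum_const, Finset.card_univ, Fintype.card_fin, nsmul_eq_mul]
    ring
  by_contra hne
  have hpos : 0 < |dv u x| * S := mul_pos (abs_pos.2 hne) hS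
  have h1 := key ((6 * (d * (M * S2)) + 1) / (|dv u x| * S) + 1 / (|dv u x| * S)) 
  have h0 := key 1 one_pos
  rw [one_mul] at h0
  have h2 : 0 < (6 * (d * (M * S2)) + 1) / (|dv u x| * S) + 1 / (|dv u x| * S) := by
    have h3 : 0 ≤ 6 * (d * (M * S2)) := hpos.le.trans h0
    positivity
  have h4 := h1 h2
  rw [← add_div, div_mul_cancel₀ _ hpos.ne'] at h4
  linarith

theorem lame_liouville (hd : 2 ≤ d) {u : Fin d → EE d → ℝ} (hu : IsLame κ univ u) {C R : ℝ}
    (h : ∀ x, R < ‖x‖ → ∀ k, |u k x| ≤ C * ‖x‖⁻¹) (k : Fin d) (x : EE d) : u k x = 0 := by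
  have hsm : ∀ k, ContDiffOn ℝ ∞ (u k) univ := fun k => lame_smooth isOpen_univ hu k
  have hcont : ∀ k, Continuous (u k) := fun k => continuousOn_univ.1 (hsm k).continuousOn
  -- boundedness
  have hbd : ∃ M : ℝ, ∀ y, ∀ k, |u k y| ≤ M := by
    have h1 : ∀ k, ∃ M : ℝ, ∀ y ∈ closedBall (0 : EE d) (max R 1), |u k y| ≤ M := by
      intro k
      obtain ⟨M, hM⟩ := (isCompact_closedBall (0 : EE d) (max R 1)).exists_bound_of_continuousOn
        (hcont k).continuousOn
      exact ⟨M, fun y hy => hM y hy⟩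
    choose M hM using h1
    refine ⟨(∑ k, |M k|) + |C|, fun y k => ?_⟩
    by_cases hy : y ∈ closedBall (0 : EE d) (max R 1)
    · calc |u k y| ≤ M k := hM k y hy
        _ ≤ |M k| := le_abs_self _
        _ ≤ ∑ k, |M k| := Finset.single_le_sum (f := fun k => |M k|)
            (fun j _ => abs_nonneg _) (Finset.mem_univ k)
        _ ≤ (∑ k, |M k|) + |C| := le_add_of_nonneg_right (abs_nonneg _)
    · rw [mem_closedBall, dist_zero_right, not_le, max_lt_iff] at hy
      have h2 : ‖y‖⁻¹ ≤ 1 := inv_le_one_of_one_le₀ hy.2.le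
      have h3 : 0 ≤ ‖y‖⁻¹ := inv_nonneg.2 (norm_nonneg y)
      calc |u k y| ≤ C * ‖y‖⁻¹ := h y hy.1 k
        _ ≤ |C| * ‖y‖⁻¹ := mul_le_mul_of_nonneg_right (le_abs_self C) h3
        _ ≤ |C| * 1 := mul_le_mul_of_nonneg_left h2 (abs_nonneg C)
        _ = |C| := mul_one _
        _ ≤ (∑ k, |M k|) + |C| := le_add_of_nonneg_left
            (Finset.sum_nonneg fun j _ => abs_nonneg _)
  obtain ⟨M, hM⟩ := hbd
  have hdv : ∀ y ∈ (univ : Set (EE d)), dv u y = 0 := fun y _ => l6_dv hd hu hM y
  have hh : Hm univ (u k) := hm_of_lame isOpen_univ hu hdv k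
  have hM0 : 0 ≤ M := (abs_nonneg _).trans (hM 0 k)
  have hconst : ∀ y, u k x = u k y := by
    intro y
    refine hm_liouville hd hh (C := M) (fun z => ?_) x y
    refine (hM z k).trans ?_
    have h1 : 0 ≤ Real.log (1 + ‖z‖) := Real.log_nonneg (by linarith [norm_nonneg z])
    nlinarith
  -- the limit at infinity is `0`
  by_contra hne
  have hpos : 0 < |u k x| := abs_pos.2 hne
  set t : ℝ := max (R + 1) ((|C| + 1) / |u k x|) with ht
  have ht1 : R < t := lt_of_lt_of_le (by linarith) (le_max_left _ _)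
  have ht2 : (|C| + 1) / |u k x| ≤ t := le_max_right _ _
  have ht0 : 0 < t := lt_of_lt_of_le (div_pos (by positivity) hpos) ht2
  have hn : ‖(EuclideanSpace.single k t : EE d)‖ = t := by
    rw [EuclideanSpace.norm_single, Real.norm_of_nonneg ht0.le]
  have h1 := h (EuclideanSpace.single k t : EE d) (by rw [hn]; exact ht1) k
  rw [← hconst, hn] at h1
  have h2 : |u k x| * t ≤ C := by
    have := mul_le_mul_of_nonneg_right h1 ht0.le
    rwa [mul_assoc, inv_mul_cancel₀ ht0.ne', mul_one] at this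
  rw [div_le_iff₀ hpos] at ht2
  have h3 := le_abs_self C
  linarith

end Pool.Agent.MP_0643f8_an.U
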