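import Mathlib
import Pool.Agent.Lib.MP_0643f8_an.U.L5_Strain

/-!
# Topology of complements of balls

* `shell_conn`: `{x | r < ‖x - c‖ < ρ}` is the image of `Ioo r ρ ×ˢ sphere 0 1`, the sphere is
  connected for `d ≥ 2` (`isPreconnected_sphere`).
* `compl_conn`: if `Ω` is open and connected and contains the closed ball, `Ω` minus the closed
  ball is preconnected: in a separation into relatively open `U₁, U₂` the shell around the ball
  (connected) is in one of them, say `U₁`; then `U₁ ∪ closedBall` and `U₂` separate `Ω`.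
* `ray_out`: a point outside two closed balls is on a ray to infinity outside both: with
  `a_j = c_j - x ≠ 0` take `v = -(a₁/‖a₁‖ + a₂/‖a₂‖)` if it is not `0`; otherwise any `v ≠ 0`
  orthogonal to `a₁`. In both cases `⟪v, a_j⟫ ≤ 0`, so `‖x + t v - c_j‖ ≥ ‖a_j‖`.
-/

set_option autoImplicit false

open MeasureTheory Metric Set Filter Topology
open scoped ContDiff RealInnerProductSpace

namespace Pool.Agent.MP_0643f8_an.U

variable {d : ℕ}

private theorem m1_rank (hd : 2 ≤ d) : 1 < Module.rank ℝ (EE d) := by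
  have h : 1 < Module.finrank ℝ (EE d) := by
    rw [finrank_euclideanSpace_fin]; omega
  exact Module.lt_rank_of_lt_finrank h

private theorem m1_conn (hd : 2 ≤ d) (c : EE d) {I : Set ℝ} (hI : IsPreconnected I)
    (hpos : ∀ t ∈ I, 0 < t) : IsPreconnected {x : EE d | ‖x - c‖ ∈ I} := by
  have h1 : IsPreconnected (I ×ˢ sphere (0 : EE d) 1) :=
    hI.prod (isPreconnected_sphere (m1_rank hd) 0 1)
  have h2 : IsPreconnected ((fun p : ℝ × EE d => c + p.1 • p.2) '' (I ×ˢ sphere (0 : EE d) 1)) :=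
    h1.image _ (by fun_prop)
  convert h2 using 1
  ext x
  constructor
  · intro hx
    have hx' : ‖x - c‖ ∈ I := hx
    have hn : 0 < ‖x - c‖ := hpos _ hx'
    refine ⟨(‖x - c‖, ‖x - c‖⁻¹ • (x - c)), ⟨hx', ?_⟩, ?_⟩
    · simp [norm_smul, hn.ne']
    · simp only
      rw [smul_smul, mul_inv_cancel₀ hn.ne', one_smul]
      abel
  · rintro ⟨⟨t, v⟩, ⟨ht, hv⟩, rfl⟩
    have hv' : ‖v‖ = 1 := by simpa using hv
    have ht' : t ∈ I := ht
    have ht0 : 0 < t := hpos _ ht'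
    change ‖c + t • v - c‖ ∈ I
    rw [add_sub_cancel_left, norm_smul, hv', mul_one, Real.norm_of_nonneg ht0.le]
    exact ht'

theorem shell_conn (hd : 2 ≤ d) (c : EE d) {r ρ : ℝ} (hr : 0 < r) :
    IsPreconnected {x : EE d | r < ‖x - c‖ ∧ ‖x - c‖ < ρ} :=
  m1_conn hd c (I := Ioo r ρ) isPreconnected_Ioo (fun _ ht => hr.trans ht.1)

theorem ext_conn (hd : 2 ≤ d) (c : EE d) {r : ℝ} (hr : 0 ≤ r) :
    IsPreconnected {x : EE d | r < ‖x - c‖} :=
  m1_conn hd c (I := Ioi r) isPreconnected_Ioi (fun _ ht => lt_of_le_of_lt hr ht)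

theorem compl_conn (hd : 2 ≤ d) {Ω : Set (EE d)} (hΩ : IsOpen Ω) (hc : IsPreconnected Ω)
    {c : EE d} {r : ℝ} (hr : 0 < r) (hb : closedBall c r ⊆ Ω) :
    IsPreconnected (Ω \ closedBall c r) := by
  obtain ⟨δ, hδ, hsub⟩ :=
    (isCompact_closedBall c r).exists_thickening_subset_open hΩ hb
  have hball : ball c (r + δ) ⊆ Ω := by
    refine Subset.trans ?_ hsub
    intro x hx
    rcases le_or_gt (dist x c) r with h | h
    · exact self_subset_thickening hδ _ (mem_closedBall.2 h)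
    · rw [mem_thickening_iff]
      have hd0 : 0 < dist x c := hr.trans h
      refine ⟨c + (r / dist x c) • (x - c), ?_, ?_⟩
      · rw [mem_closedBall, dist_eq_norm, add_sub_cancel_left, norm_smul, ← dist_eq_norm,
          Real.norm_of_nonneg (by positivity), div_mul_cancel₀ _ hd0.ne']
      · have h3 : x - (c + (r / dist x c) • (x - c)) = (1 - r / dist x c) • (x - c) := by
          rw [sub_smul, one_smul]; abel
        have h4 : 0 ≤ 1 - r / dist x c := by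
          rw [sub_nonneg, div_le_one hd0]; exact h.le
        have h5 : (1 - r / dist x c) * dist x c < δ := by
          rw [sub_mul, div_mul_cancel₀ _ hd0.ne', one_mul]
          have := mem_ball.1 hx
          linarith
        rw [dist_eq_norm, h3, norm_smul, Real.norm_of_nonneg h4, ← dist_eq_norm x c]
        exact h5
  set s := Ω \ closedBall c r with hs
  have hso : IsOpen s := hΩ.sdiff isClosed_closedBall
  have hA : IsPreconnected {x : EE d | r < ‖x - c‖ ∧ ‖x - c‖ < r + δ} := shell_conn hd c hr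
  have hAs : {x : EE d | r < ‖x - c‖ ∧ ‖x - c‖ < r + δ} ⊆ s := by
    intro x hx
    refine ⟨hball (by rw [mem_ball, dist_eq_norm]; exact hx.2), ?_⟩
    rw [mem_closedBall, dist_eq_norm, not_le]
    exact hx.1
  rw [isPreconnected_iff_subset_of_disjoint]
  have key : ∀ u v : Set (EE d), IsOpen u → IsOpen v → s ⊆ u ∪ v → s ∩ (u ∩ v) = ∅ →
      {x : EE d | r < ‖x - c‖ ∧ ‖x - c‖ < r + δ} ⊆ u → s ⊆ u := by
    intro u v hu hv hcov hdis hAu
    have hu' : IsOpen ((u ∩ s) ∪ ball c (r + δ)) := (hu.inter hso).union isOpen_ball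
    have hv' : IsOpen (v ∩ s) := hv.inter hso
    have hcov' : Ω ⊆ ((u ∩ s) ∪ ball c (r + δ)) ∪ (v ∩ s) := by
      intro x hx
      by_cases h : x ∈ closedBall c r
      · exact Or.inl (Or.inr (mem_ball.2 (lt_of_le_of_lt (mem_closedBall.1 h) (by linarith))))
      · have hxs : x ∈ s := ⟨hx, h⟩
        rcases hcov hxs with h1 | h1
        · exact Or.inl (Or.inl ⟨h1, hxs⟩)
        · exact Or.inr ⟨h1, hxs⟩
    have hdis' : Ω ∩ (((u ∩ s) ∪ ball c (r + δ)) ∩ (v ∩ s)) = ∅ := by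
      rw [eq_empty_iff_forall_notMem]
      rintro x ⟨_, h1, h2, h3⟩
      rcases h1 with h1 | h1
      · exact (eq_empty_iff_forall_notMem.1 hdis x) ⟨h3, h1.1, h2⟩
      · refine (eq_empty_iff_forall_notMem.1 hdis x) ⟨h3, hAu ⟨?_, ?_⟩, h2⟩
        · have := h3.2
          rwa [mem_closedBall, dist_eq_norm, not_le] at this
        · rwa [mem_ball, dist_eq_norm] at h1
    rcases isPreconnected_iff_subset_of_disjoint.1 hc _ _ hu' hv' hcov' hdis' with h | h
    · intro x hx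
      rcases h hx.1 with h1 | h1
      · exact h1.1
      · refine hAu ⟨?_, ?_⟩
        · have := hx.2
          rwa [mem_closedBall, dist_eq_norm, not_le] at this
        · rwa [mem_ball, dist_eq_norm] at h1
    · exfalso
      have hcc : c ∈ closedBall c r := mem_closedBall_self hr.le
      exact (h (hb hcc)).2.2 hcc
  intro u v hu hv hcov hdis
  have hAd : {x : EE d | r < ‖x - c‖ ∧ ‖x - c‖ < r + δ} ∩ (u ∩ v) = ∅ := by
    rw [eq_empty_iff_forall_notMem] at hdis ⊢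
    rintro x ⟨h1, h2⟩
    exact hdis x ⟨hAs h1, h2⟩
  rcases isPreconnected_iff_subset_of_disjoint.1 hA u v hu hv (hAs.trans hcov) hAd with h | h
  · exact Or.inl (key u v hu hv hcov hdis h)
  · refine Or.inr (key v u hv hu (by rwa [union_comm]) (by rwa [inter_comm v u]) h)

private theorem m1_ray {c x v : EE d} {r : ℝ} (h : x ∉ closedBall c r)
    (hv : ⟪v, c - x⟫ ≤ 0) {t : ℝ} (ht : 0 ≤ t) : x + t • v ∉ closedBall c r := by
  rw [mem_closedBall, dist_eq_norm, not_le] at h ⊢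
  refine lt_of_lt_of_le h ?_
  have h1 : ‖x - c‖ ^ 2 ≤ ‖x + t • v - c‖ ^ 2 := by
    have h2 : x + t • v - c = t • v - (c - x) := by abel
    rw [h2, norm_sub_sq_real (t • v), norm_sub_rev x c, real_inner_smul_left]
    have h3 : t * ⟪v, c - x⟫ ≤ 0 := mul_nonpos_of_nonneg_of_nonpos ht hv
    have h4 : 0 ≤ ‖t • v‖ ^ 2 := by positivity
    linarith
  exact le_of_sq_le_sq h1 (norm_nonneg _)

theorem ray_out (hd : 2 ≤ d) {c₁ c₂ x : EE d} {r₁ r₂ : ℝ} (hr₁ : 0 < r₁) (hr₂ : 0 < r₂)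
    (h₁ : x ∉ closedBall c₁ r₁) (h₂ : x ∉ closedBall c₂ r₂) :
    ∃ v : EE d, v ≠ 0 ∧ ∀ t : ℝ, 0 ≤ t → x + t • v ∉ closedBall c₁ r₁ ∧
      x + t • v ∉ closedBall c₂ r₂ := by
  have ha₁ : 0 < ‖c₁ - x‖ := by
    rw [mem_closedBall, dist_eq_norm, not_le, norm_sub_rev] at h₁
    linarith
  have ha₂ : 0 < ‖c₂ - x‖ := by
    rw [mem_closedBall, dist_eq_norm, not_le, norm_sub_rev] at h₂
    linarith
  set a₁ := c₁ - x with hA₁
  set a₂ := c₂ - x with hA₂
  have h12 : |⟪a₁, a₂⟫| ≤ ‖a₁‖ * ‖a₂‖ := abs_real_inner_le_norm a₁ a₂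
  have h12' := abs_le.1 h12
  by_cases hv : ‖a₁‖⁻¹ • a₁ + ‖a₂‖⁻¹ • a₂ = 0
  · -- orthogonal direction
    obtain ⟨v, hv0, hva⟩ : ∃ v : EE d, v ≠ 0 ∧ ⟪v, a₁⟫ = 0 := by
      have hfr : Module.finrank ℝ (ℝ ∙ a₁)ᗮ ≠ 0 := by
        have h1 := Submodule.finrank_add_finrank_orthogonal (ℝ ∙ a₁)
        rw [finrank_euclideanSpace_fin, finrank_span_singleton (norm_pos_iff.1 ha₁)] at h1
        omega
      have hne : (ℝ ∙ a₁)ᗮ ≠ ⊥ := by
        intro h
        rw [h] at hfr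
        simp at hfr
      obtain ⟨v, hvm, hv0⟩ := Submodule.exists_mem_ne_zero_of_ne_bot hne
      refine ⟨v, hv0, ?_⟩
      rw [real_inner_comm]
      exact Submodule.mem_orthogonal_singleton_iff_inner_right.1 hvm
    have hva₂ : ⟪v, a₂⟫ = 0 := by
      have h1 : ⟪v, ‖a₁‖⁻¹ • a₁ + ‖a₂‖⁻¹ • a₂⟫ = 0 := by rw [hv, inner_zero_right]
      rw [inner_add_right, real_inner_smul_right, real_inner_smul_right, hva, mul_zero,
        zero_add] at h1
      rcases mul_eq_zero.1 h1 with h | h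
      · exact absurd h (inv_ne_zero ha₂.ne')
      · exact h
    exact ⟨v, hv0, fun t ht => ⟨m1_ray h₁ (hva.le) ht, m1_ray h₂ (hva₂.le) ht⟩⟩
  · refine ⟨-(‖a₁‖⁻¹ • a₁ + ‖a₂‖⁻¹ • a₂), neg_ne_zero.2 hv, fun t ht =>
      ⟨m1_ray h₁ ?_ ht, m1_ray h₂ ?_ ht⟩⟩
    · rw [← hA₁, inner_neg_left, inner_add_left, real_inner_smul_left, real_inner_smul_left,
        real_inner_self_eq_norm_sq, real_inner_comm a₁ a₂]
      have e1 : ‖a₁‖⁻¹ * ‖a₁‖ ^ 2 = ‖a₁‖ := by field_simp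
      have e2 : -‖a₁‖ ≤ ‖a₂‖⁻¹ * ⟪a₁, a₂⟫ := by
        rw [inv_mul_eq_div, le_div_iff₀ ha₂]
        linarith [h12'.1]
      rw [e1]
      linarith
    · rw [← hA₂, inner_neg_left, inner_add_left, real_inner_smul_left, real_inner_smul_left,
        real_inner_self_eq_norm_sq]
      have e1 : ‖a₂‖⁻¹ * ‖a₂‖ ^ 2 = ‖a₂‖ := by field_simp
      have e2 : -‖a₂‖ ≤ ‖a₁‖⁻¹ * ⟪a₁, a₂⟫ := by
        rw [inv_mul_eq_div, le_div_iff₀ ha₁]
        linarith [h12'.1, mul_comm ‖a₁‖ ‖a₂‖]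
      rw [e1]
      linarith

/-- rays from `c₁`: outside the intersection of two closed balls, every point is on a ray to
infinity outside the intersection -/
theorem ray_out_inter {c₁ c₂ x : EE d} {r₁ r₂ : ℝ} (hd : 2 ≤ d) (hr₁ : 0 < r₁) (hr₂ : 0 < r₂)
    (h : x ∉ closedBall c₁ r₁ ∩ closedBall c₂ r₂) :
    ∃ v : EE d, v ≠ 0 ∧ ∀ t : ℝ, 0 ≤ t → x + t • v ∉ closedBall c₁ r₁ ∩ closedBall c₂ r₂ := by
  by_cases h1 : x ∈ closedBall c₁ r₁
  · have h2 : x ∉ closedBall c₂ r₂ := fun h2 => h ⟨h1, h2⟩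
    obtain ⟨v, hv, hv'⟩ := ray_out hd hr₂ hr₂ h2 h2
    exact ⟨v, hv, fun t ht h3 => (hv' t ht).1 h3.2⟩
  · obtain ⟨v, hv, hv'⟩ := ray_out hd hr₁ hr₁ h1 h1
    exact ⟨v, hv, fun t ht h3 => (hv' t ht).1 h3.1⟩

end Pool.Agent.MP_0643f8_an.U
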