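import Mathlib
import Pool.Agent.Lib.MP_0643f8_an.U.Calc

set_option autoImplicit false

open MeasureTheory Metric Set Filter Topology
open scoped ContDiff

namespace Pool.Agent.MP_0643f8_an.U

variable {d : ℕ} {V W : Set (EE d)} {u v : EE d → ℝ} {G H : Fin d → EE d → ℝ}

theorem l2loc_mono {f : EE d → ℝ} (hf : L2loc V f) (h : W ⊆ V) : L2loc W f :=
  fun K hK hKW => hf K hK (hKW.trans h)

theorem l2loc_add {f g : EE d → ℝ} (hf : L2loc V f) (hg : L2loc V g) :
    L2loc V (fun x => f x + g x) :=
  fun K hK hKV => (hf K hK hKV).add (hg K hK hKV)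

theorem l2loc_cmul {f : EE d → ℝ} (hf : L2loc V f) (c : ℝ) : L2loc V (fun x => c * f x) :=
  fun K hK hKV => (hf K hK hKV).const_mul c

theorem l2loc_of_continuousOn {f : EE d → ℝ} (hf : ContinuousOn f V) : L2loc V f := by
  intro K hK hKV
  have h1 : ContinuousOn f K := hf.mono hKV
  have hm : AEStronglyMeasurable f (volume.restrict K) :=
    h1.aestronglyMeasurable hK.measurableSet
  have : IsFiniteMeasure (volume.restrict K : Measure (EE d)) :=
    ⟨by rw [Measure.restrict_apply_univ]; exact hK.measure_lt_top⟩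
  obtain ⟨M, hM⟩ := hK.exists_bound_of_continuousOn h1
  refine MemLp.of_bound hm M ?_
  filter_upwards [ae_restrict_mem hK.measurableSet] with x hx
  exact hM x hx

/-- products with a bounded measurable function -/
theorem l2loc_bdd_mul {f b : EE d → ℝ} (hf : L2loc V f) (hb : Measurable b) {M : ℝ}
    (hM : ∀ x, |b x| ≤ M) : L2loc V (fun x => b x * f x) := by
  intro K hK hKV
  have h1 := hf K hK hKV
  have h2 : MemLp (fun x => M * f x) 2 (volume.restrict K) := h1.const_mul M
  refine h2.mono (hb.aestronglyMeasurable.mul h1.1) (Eventually.of_forall fun x => ?_)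
  rw [Real.norm_eq_abs, Real.norm_eq_abs, abs_mul, abs_mul]
  exact mul_le_mul_of_nonneg_right ((hM x).trans (le_abs_self M)) (abs_nonneg _)

/-- `f φ` is integrable if `φ` is continuous with compact support in `V` -/
theorem l2loc_integrable {f φ : EE d → ℝ} (hf : L2loc V f) (hφ : Continuous φ)
    (hc : HasCompactSupport φ) (hs : tsupport φ ⊆ V) : Integrable (fun x => f x * φ x) := by
  have h1 := hf (tsupport φ) hc hs
  have h2 : MemLp φ 2 (volume.restrict (tsupport φ)) := (hφ.memLp_of_hasCompactSupport hc).restrict _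
  have h3 : Integrable (fun x => f x * φ x) (volume.restrict (tsupport φ)) := h1.integrable_mul h2
  have h4 : IntegrableOn (fun x => f x * φ x) (tsupport φ) := h3
  refine h4.integrable_of_forall_notMem_eq_zero fun x hx => ?_
  rw [image_eq_zero_of_notMem_tsupport hx, mul_zero]

private theorem w1_pd_cont {φ : EE d → ℝ} (hφ : IsTest φ) (i : Fin d) : Continuous (pd i φ) := by
  have h : Continuous (fderiv ℝ φ) := hφ.1.continuous_fderiv (by simp)
  exact h.clm_apply continuous_const

private theorem w1_pd_tsupp {φ : EE d → ℝ} (i : Fin d) : tsupport (pd i φ) ⊆ tsupport φ := by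
  refine closure_minimal ?_ (isClosed_tsupport φ)
  intro x hx
  by_contra h
  apply hx
  have h1 : φ =ᶠ[𝓝 x] fun _ => 0 := by
    rw [notMem_tsupport_iff_eventuallyEq] at h
    exact h
  show fderiv ℝ φ x _ = 0
  rw [h1.fderiv_eq]
  simp

private theorem w1_pd_cpt {φ : EE d → ℝ} (hφ : IsTest φ) (i : Fin d) :
    HasCompactSupport (pd i φ) := hφ.2.mono' ((subset_tsupport _).trans (w1_pd_tsupp i))

theorem wd_mono (hu : WD V u G) (h : W ⊆ V) : WD W u G :=
  ⟨l2loc_mono hu.1 h, fun i => l2loc_mono (hu.2.1 i) h, fun φ hφ hs => hu.2.2 φ hφ (hs.trans h)⟩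

theorem wd_cmul (hu : WD V u G) (c : ℝ) : WD V (fun x => c * u x) (fun i x => c * G i x) := by
  refine ⟨l2loc_cmul hu.1 c, fun i => l2loc_cmul (hu.2.1 i) c, fun φ hφ hs i => ?_⟩
  have h1 : ∀ x, c * u x * pd i φ x = c * (u x * pd i φ x) := fun x => by ring
  have h2 : ∀ x, c * G i x * φ x = c * (G i x * φ x) := fun x => by ring
  simp only [h1, h2]
  rw [integral_const_mul, integral_const_mul, hu.2.2 φ hφ hs i]
  ring

theorem wd_add (hu : WD V u G) (hv : WD V v H) :
    WD V (fun x => u x + v x) (fun i x => G i x + H i x) := by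
  refine ⟨l2loc_add hu.1 hv.1, fun i => l2loc_add (hu.2.1 i) (hv.2.1 i), fun φ hφ hs i => ?_⟩
  have hs' : tsupport (pd i φ) ⊆ V := (w1_pd_tsupp i).trans hs
  have h1 : ∀ x, (u x + v x) * pd i φ x = u x * pd i φ x + v x * pd i φ x := fun x => by ring
  have h2 : ∀ x, (G i x + H i x) * φ x = G i x * φ x + H i x * φ x := fun x => by ring
  simp only [h1, h2]
  rw [integral_add (l2loc_integrable hu.1 (w1_pd_cont hφ i) (w1_pd_cpt hφ i) hs')
    (l2loc_integrable hv.1 (w1_pd_cont hφ i) (w1_pd_cpt hφ i) hs'),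
    integral_add (l2loc_integrable (hu.2.1 i) hφ.1.continuous hφ.2 hs)
    (l2loc_integrable (hv.2.1 i) hφ.1.continuous hφ.2 hs), hu.2.2 φ hφ hs i, hv.2.2 φ hφ hs i]
  ring

theorem wd_sub (hu : WD V u G) (hv : WD V v H) :
    WD V (fun x => u x - v x) (fun i x => G i x - H i x) := by
  have h := wd_add hu (wd_cmul hv (-1))
  have h1 : (fun x => u x - v x) = fun x => u x + -1 * v x := by
    funext x
    ring
  have h2 : (fun i x => G i x - H i x) = fun i x => G i x + -1 * H i x := by
    funext i x
    ring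
  rw [h1, h2]
  exact h

/-- change on a null set -/
theorem wd_congr (hV : MeasurableSet V) (hu : WD V u G)
    (h : ∀ᵐ x ∂(volume.restrict V), v x = u x)
    (hG : ∀ i, ∀ᵐ x ∂(volume.restrict V), H i x = G i x) : WD V v H := by
  have key : ∀ {f g : EE d → ℝ}, (∀ᵐ x ∂(volume.restrict V), g x = f x) → L2loc V f →
      L2loc V g := by
    intro f g hfg hf K hK hKV
    have h1 : g =ᵐ[volume.restrict K] f := ae_restrict_of_ae_restrict_of_subset hKV hfg
    exact (hf K hK hKV).ae_eq h1.symm
  have key2 : ∀ {f g φ : EE d → ℝ}, (∀ᵐ x ∂(volume.restrict V), g x = f x) → tsupport φ ⊆ V →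
      ∫ x, g x * φ x = ∫ x, f x * φ x := by
    intro f g φ hfg hs
    refine integral_congr_ae ?_
    rw [ae_restrict_iff' hV] at hfg
    filter_upwards [hfg] with x hx
    by_cases hxV : x ∈ V
    · rw [hx hxV]
    · rw [image_eq_zero_of_notMem_tsupport (fun h' => hxV (hs h')), mul_zero, mul_zero]
  refine ⟨key h hu.1, fun i => key (hG i) (hu.2.1 i), fun φ hφ hs i => ?_⟩
  rw [key2 h ((w1_pd_tsupp i).trans hs), key2 (hG i) hs]
  exact hu.2.2 φ hφ hs i

private theorem w1_line {f : EE d → ℝ} {x : EE d} (hf : DifferentiableAt ℝ f x) (i : Fin d) :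
    HasLineDerivAt ℝ f (pd i f x) x (EuclideanSpace.single i (1 : ℝ)) :=
  hf.hasFDerivAt.hasLineDerivAt _

theorem wd_smooth (hV : IsOpen V) (hu : ContDiffOn ℝ ∞ u V) : WD V u (fun i => pd i u) := by
  have h1 : L2loc V u := l2loc_of_continuousOn hu.continuousOn
  have h2 : ∀ i, L2loc V (pd i u) := fun i =>
    l2loc_of_continuousOn (pd_contDiffOn hV hu i).continuousOn
  refine ⟨h1, h2, fun φ hφ hs i => ?_⟩
  have key := integral_bilinear_hasLineDerivAt_right_eq_neg_left_of_integrable
    (μ := (volume : Measure (EE d))) (f := u) (f' := pd i u) (g := φ) (g' := pd i φ)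
    (v := EuclideanSpace.single i (1 : ℝ)) (B := ContinuousLinearMap.mul ℝ ℝ)
    (l2loc_integrable (h2 i) hφ.1.continuous hφ.2 hs)
    (l2loc_integrable h1 (w1_pd_cont hφ i) (w1_pd_cpt hφ i) ((w1_pd_tsupp i).trans hs))
    (l2loc_integrable h1 hφ.1.continuous hφ.2 hs)
    (fun x hx => w1_line ((hu.contDiffAt (hV.mem_nhds (hs hx))).differentiableAt (by simp)) i)
    (fun x _ => w1_line (hφ.1.contDiffAt.differentiableAt (by simp)) i)
  exact key

/-- the weak gradient is unique -/
theorem wd_unique (hV : IsOpen V) (hu : WD V u G) (hu' : WD V u H) (i : Fin d) :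
    ∀ᵐ x ∂(volume.restrict V), G i x = H i x := by
  have hL : L2loc V (fun x => G i x + -1 * H i x) :=
    l2loc_add (hu.2.1 i) (l2loc_cmul (hu'.2.1 i) (-1))
  have hloc : LocallyIntegrableOn (fun x => G i x + -1 * H i x) V volume := by
    rw [locallyIntegrableOn_iff hV.isLocallyClosed]
    intro K hKV hK
    have : IsFiniteMeasure (volume.restrict K : Measure (EE d)) :=
      ⟨by rw [Measure.restrict_apply_univ]; exact hK.measure_lt_top⟩
    exact (hL K hK hKV).integrable (by norm_num)
  have h0 := hV.ae_eq_zero_of_integral_contDiff_smul_eq_zero (μ := (volume : Measure (EE d)))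
    hloc (fun g hg hgc hgs => by
      have e1 := hu.2.2 g ⟨hg, hgc⟩ hgs i
      have e2 := hu'.2.2 g ⟨hg, hgc⟩ hgs i
      have e3 : ∫ x, G i x * g x = ∫ x, H i x * g x := by linarith
      have e4 : ∀ x, g x • (G i x + -1 * H i x) = G i x * g x - H i x * g x := by
        intro x
        rw [smul_eq_mul]
        ring
      simp only [e4]
      rw [integral_sub (l2loc_integrable (hu.2.1 i) hg.continuous hgc hgs)
        (l2loc_integrable (hu'.2.1 i) hg.continuous hgc hgs), e3, sub_self])
  rw [ae_restrict_iff' hV.measurableSet]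
  filter_upwards [h0] with x hx hxV
  have := hx hxV
  linarith

/-- two functions that are equal almost everywhere on an open set and continuous there are equal -/
theorem eq_of_ae_eq {f g : EE d → ℝ} (hV : IsOpen V) (hf : ContinuousOn f V)
    (hg : ContinuousOn g V) (h : ∀ᵐ x ∂(volume.restrict V), f x = g x) : ∀ x ∈ V, f x = g x :=
  fun _ hx => Measure.eqOn_open_of_ae_eq h hV hf hg hx

private theorem w1_mul_memLp {η f : EE d → ℝ} (hf : L2loc V f) (hη : Continuous η)
    (hc : HasCompactSupport η) (hs : tsupport η ⊆ V) : MemLp (fun x => η x * f x) 2 volume := by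
  have h1 := hf (tsupport η) hc hs
  obtain ⟨M, hM⟩ := hη.bounded_above_of_compact_support hc
  have h2 : (fun x => η x * f x) = (tsupport η).indicator (fun x => η x * f x) := by
    funext x
    by_cases hx : x ∈ tsupport η
    · rw [indicator_of_mem hx]
    · rw [indicator_of_notMem hx, image_eq_zero_of_notMem_tsupport hx, zero_mul]
  rw [h2, memLp_indicator_iff_restrict (isClosed_tsupport η).measurableSet]
  have h3 : MemLp (fun x => M * f x) 2 (volume.restrict (tsupport η)) := h1.const_mul M
  refine h3.mono (hη.aestronglyMeasurable.mul h1.1) (Eventually.of_forall fun x => ?_)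
  rw [norm_mul, norm_mul]
  exact mul_le_mul_of_nonneg_right ((hM x).trans (le_abs_self M)) (norm_nonneg _)

/-- multiplication by a test function -/
theorem wd_mul (hV : IsOpen V) (hu : WD V u G) {η : EE d → ℝ} (hη : IsTest η)
    (hs : tsupport η ⊆ V) :
    WD univ (fun x => η x * u x) (fun i x => η x * G i x + u x * pd i η x) := by
  have hpd : ∀ i, tsupport (pd i η) ⊆ V := fun i => (w1_pd_tsupp i).trans hs
  have m1 : MemLp (fun x => η x * u x) 2 (volume : Measure (EE d)) :=
    w1_mul_memLp hu.1 hη.1.continuous hη.2 hs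
  have m2 : ∀ i, MemLp (fun x => η x * G i x) 2 (volume : Measure (EE d)) := fun i =>
    w1_mul_memLp (hu.2.1 i) hη.1.continuous hη.2 hs
  have m3 : ∀ i, MemLp (fun x => u x * pd i η x) 2 (volume : Measure (EE d)) := fun i => by
    have h := w1_mul_memLp hu.1 (w1_pd_cont hη i) (w1_pd_cpt hη i) (hpd i)
    simp only [mul_comm (u _)]
    exact h
  refine ⟨fun K _ _ => m1.restrict K, fun i K _ _ => ((m2 i).add (m3 i)).restrict K,
    fun φ hφ _ i => ?_⟩
  have hηφ : IsTest (fun x => η x * φ x) := ⟨hη.1.mul hφ.1, hη.2.mul_right⟩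
  have hηφs : tsupport (fun x => η x * φ x) ⊆ V := (tsupport_mul_subset_left).trans hs
  have key := hu.2.2 _ hηφ hηφs i
  have e1 : ∀ x, pd i (fun y => η y * φ y) x = η x * pd i φ x + φ x * pd i η x := by
    intro x
    rw [pd_mul (hη.1.contDiffAt.differentiableAt (by simp))
      (hφ.1.contDiffAt.differentiableAt (by simp))]
  have hφη : HasCompactSupport (fun x => φ x * pd i η x) := (w1_pd_cpt hη i).mul_left
  have i1 : Integrable (fun x => u x * (η x * pd i φ x)) := by
    refine l2loc_integrable hu.1 (hη.1.continuous.mul (w1_pd_cont hφ i)) hη.2.mul_right ?_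
    exact (tsupport_mul_subset_left).trans hs
  have i2 : Integrable (fun x => u x * (φ x * pd i η x)) := by
    refine l2loc_integrable hu.1 (hφ.1.continuous.mul (w1_pd_cont hη i)) hφη ?_
    exact (tsupport_mul_subset_right).trans (hpd i)
  have i3 : Integrable (fun x => G i x * (η x * φ x)) :=
    l2loc_integrable (hu.2.1 i) hηφ.1.continuous hηφ.2 hηφs
  have e2 : ∫ x, u x * pd i (fun y => η y * φ y) x =
      (∫ x, u x * (η x * pd i φ x)) + ∫ x, u x * (φ x * pd i η x) := by
    rw [← integral_add i1 i2]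
    refine integral_congr_ae (Eventually.of_forall fun x => ?_)
    simp only [e1]
    ring
  have e3 : ∫ x, η x * u x * pd i φ x = ∫ x, u x * (η x * pd i φ x) :=
    integral_congr_ae (Eventually.of_forall fun x => by ring)
  have e4 : ∫ x, (η x * G i x + u x * pd i η x) * φ x =
      (∫ x, G i x * (η x * φ x)) + ∫ x, u x * (φ x * pd i η x) := by
    rw [← integral_add i3 i2]
    exact integral_congr_ae (Eventually.of_forall fun x => by ring)
  rw [e3, e4]
  linarith

end Pool.Agent.MP_0643f8_an.U
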