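import Mathlib
import Pool.Agent.Lib.MP_0643f8_an.U.W1_WD
import Pool.Agent.Lib.MP_0643f8_an.U.L5_Strain

/-!
# Locality of the weak notions
-/

set_option autoImplicit false

open MeasureTheory Metric Set Filter Topology
open scoped ContDiff

namespace Pool.Agent.MP_0643f8_an.U

variable {d : ℕ} (Z : Cst d)

private theorem w7_pd {φ : EE d → ℝ} (hφ : IsTest φ) (i : Fin d) :
    Continuous (pd i φ) ∧ HasCompactSupport (pd i φ) ∧ tsupport (pd i φ) ⊆ tsupport φ := by
  refine ⟨?_, hφ.2.fderiv_apply ℝ _, tsupport_fderiv_apply_subset ℝ _⟩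
  exact (hφ.1.continuous_fderiv (by simp)).clm_apply continuous_const

private theorem w7_pd_zero {V : Set (EE d)} {φ : EE d → ℝ} (hφ : IsTest φ) (hs : tsupport φ ⊆ V)
    (i : Fin d) {x : EE d} (hx : x ∉ V) : pd i φ x = 0 :=
  image_eq_zero_of_notMem_tsupport fun h => hx (hs ((w7_pd hφ i).2.2 h))

/-- a test function in a union of two open sets is a sum of test functions in each of them -/
theorem test_split {V W : Set (EE d)} (hV : IsOpen V) (hW : IsOpen W) {φ : EE d → ℝ}
    (hφ : IsTest φ) (h : tsupport φ ⊆ V ∪ W) :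
    ∃ φ₁ φ₂ : EE d → ℝ, IsTest φ₁ ∧ IsTest φ₂ ∧ tsupport φ₁ ⊆ V ∧ tsupport φ₂ ⊆ W ∧
      ∀ x, φ x = φ₁ x + φ₂ x := by
  have hK : IsCompact (tsupport φ \ W) := hφ.2.diff hW
  have hKV : tsupport φ \ W ⊆ V := fun x hx => (h hx.1).resolve_right hx.2
  obtain ⟨t, ht, hKt, htV⟩ := exists_compact_between hK hV hKV
  obtain ⟨f, hf1, hf0, -⟩ := exists_contMDiffMap_one_nhds_of_subset_interior
    (modelWithCornersSelf ℝ (EE d)) (n := ⊤) hK.isClosed hKt
  have hfs : ContDiff ℝ ∞ (f : EE d → ℝ) := f.contMDiff.contDiff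
  have hsf : tsupport (fun x => f x * φ x) ⊆ t := by
    refine closure_minimal (fun x hx => ?_) ht.isClosed
    by_contra hxt
    exact hx (by simp [hf0 x hxt])
  refine ⟨fun x => f x * φ x, fun x => (1 - f x) * φ x, ⟨hfs.mul hφ.1, hφ.2.mul_left⟩,
    ⟨(contDiff_const.sub hfs).mul hφ.1, hφ.2.mul_left⟩, hsf.trans htV, ?_, fun x => by ring⟩
  intro x hx
  by_contra hxW
  have h1 : tsupport (fun x => (1 - f x) * φ x) ⊆ tsupport φ :=
    closure_mono fun y hy => by
      rw [Function.mem_support] at hy ⊢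
      exact right_ne_zero_of_mul hy
  have hxK : x ∈ tsupport φ \ W := ⟨h1 hx, hxW⟩
  have h2 : ∀ᶠ y in 𝓝 x, f y = 1 := (hf1.filter_mono (nhds_le_nhdsSet hxK))
  have h3 : (fun x => (1 - f x) * φ x) =ᶠ[𝓝 x] 0 := by
    filter_upwards [h2] with y hy
    simp [hy]
  exact (notMem_tsupport_iff_eventuallyEq.2 h3) hx

private theorem w7_l2_union {V W : Set (EE d)} (hV : IsOpen V) (hW : IsOpen W) {f : EE d → ℝ}
    (h₁ : L2loc V f) (h₂ : L2loc W f) : L2loc (V ∪ W) f := by
  intro K hK hs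
  obtain ⟨K₁, K₂, hK₁, hK₂, hs₁, hs₂, rfl⟩ := hK.binary_compact_cover hV hW hs
  have e1 : MemLp (K₁.indicator f) 2 volume :=
    (memLp_indicator_iff_restrict hK₁.measurableSet).2 (h₁ K₁ hK₁ hs₁)
  have e2 : MemLp ((K₂ \ K₁).indicator f) 2 volume :=
    (memLp_indicator_iff_restrict (hK₂.measurableSet.diff hK₁.measurableSet)).2
      ((h₂ K₂ hK₂ hs₂).mono_measure (Measure.restrict_mono_set _ sdiff_subset))
  have e3 : (K₁ ∪ K₂).indicator f = K₁.indicator f + (K₂ \ K₁).indicator f := by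
    rw [← union_sdiff_self, indicator_union_of_disjoint disjoint_sdiff_self_right]
    rfl
  rw [← memLp_indicator_iff_restrict (hK₁.measurableSet.union hK₂.measurableSet), e3]
  exact e1.add e2

theorem wd_union {V W : Set (EE d)} (hV : IsOpen V) (hW : IsOpen W) {u : EE d → ℝ}
    {G : Fin d → EE d → ℝ} (h₁ : WD V u G) (h₂ : WD W u G) : WD (V ∪ W) u G := by
  refine ⟨w7_l2_union hV hW h₁.1 h₂.1, fun i => w7_l2_union hV hW (h₁.2.1 i) (h₂.2.1 i), ?_⟩
  intro φ hφ hs i
  obtain ⟨φ₁, φ₂, t₁, t₂, s₁, s₂, he⟩ := test_split hV hW hφ hs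
  have hfun : φ = fun x => φ₁ x + φ₂ x := funext he
  have a1 := w7_pd t₁ i
  have a2 := w7_pd t₂ i
  have i1 : Integrable (fun x => u x * pd i φ₁ x) :=
    l2loc_integrable h₁.1 a1.1 a1.2.1 (a1.2.2.trans s₁)
  have i2 : Integrable (fun x => u x * pd i φ₂ x) :=
    l2loc_integrable h₂.1 a2.1 a2.2.1 (a2.2.2.trans s₂)
  have i3 : Integrable (fun x => G i x * φ₁ x) :=
    l2loc_integrable (h₁.2.1 i) t₁.1.continuous t₁.2 s₁
  have i4 : Integrable (fun x => G i x * φ₂ x) :=
    l2loc_integrable (h₂.2.1 i) t₂.1.continuous t₂.2 s₂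
  have e1 : ∀ x, u x * pd i φ x = u x * pd i φ₁ x + u x * pd i φ₂ x := by
    intro x
    rw [hfun, pd_add (t₁.1.differentiable (by simp) x) (t₂.1.differentiable (by simp) x)]
    ring
  have e2 : ∀ x, G i x * φ x = G i x * φ₁ x + G i x * φ₂ x := by
    intro x
    rw [he]
    ring
  simp only [e1, e2]
  rw [integral_add i1 i2, integral_add i3 i4, h₁.2.2 φ₁ t₁ s₁ i, h₂.2.2 φ₂ t₂ s₂ i]
  ring

private theorem w7_coef_meas {D : Set (EE d)} (hD : MeasurableSet D) (a b : ℝ) :
    Measurable (coef D a b) := by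
  unfold coef
  exact measurable_const.add (measurable_const.indicator hD)

private theorem w7_coef_bdd (D : Set (EE d)) (a b : ℝ) (x : EE d) :
    |coef D a b x| ≤ |a| + |b| := by
  unfold coef
  by_cases hx : x ∈ D
  · rw [indicator_of_mem hx, add_sub_cancel]
    linarith [abs_nonneg a]
  · rw [indicator_of_notMem hx, add_zero]
    linarith [abs_nonneg b]

private theorem w7_l2_zero (V : Set (EE d)) : L2loc V (fun _ : EE d => (0 : ℝ)) :=
  fun _ _ _ => MemLp.zero'

private theorem w7_l2_sum {V : Set (EE d)} {ι : Type*} (s : Finset ι) {f : ι → EE d → ℝ}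
    (h : ∀ j ∈ s, L2loc V (f j)) : L2loc V (fun x => ∑ j ∈ s, f j x) := by
  classical
  induction s using Finset.induction_on with
  | empty => simpa using w7_l2_zero V
  | insert a s ha ih =>
    simp only [Finset.sum_insert ha]
    exact l2loc_add (h a (Finset.mem_insert_self a s))
      (ih fun j hj => h j (Finset.mem_insert_of_mem hj))

private theorem w7_l2_sigD {D V : Set (EE d)} (hD : MeasurableSet D)
    {G : Fin d → Fin d → EE d → ℝ} (hG : ∀ k i, L2loc V (G k i)) (i k : Fin d) :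
    L2loc V (sigD Z D G i k) := by
  have h1 : L2loc V (fun x => if i = k then ∑ j, G j j x else 0) := by
    by_cases hik : i = k
    · simp only [hik, if_true]
      exact w7_l2_sum _ fun j _ => hG j j
    · simp only [hik, if_false]
      exact w7_l2_zero V
  exact l2loc_add (l2loc_bdd_mul h1 (w7_coef_meas hD _ _) (w7_coef_bdd D _ _))
    (l2loc_bdd_mul (l2loc_add (hG k i) (hG i k)) (w7_coef_meas hD _ _) (w7_coef_bdd D _ _))

private theorem w7_int {D V : Set (EE d)} (hD : MeasurableSet D)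
    {G : Fin d → Fin d → EE d → ℝ} (hG : ∀ k i, L2loc V (G k i)) {φ : EE d → ℝ} (hφ : IsTest φ)
    (hs : tsupport φ ⊆ V) (k : Fin d) :
    Integrable (fun x => ∑ i, sigD Z D G i k x * pd i φ x) := by
  refine integrable_finsetSum _ fun i _ => ?_
  have a := w7_pd hφ i
  exact l2loc_integrable (w7_l2_sigD Z hD hG i k) a.1 a.2.1 (a.2.2.trans hs)

theorem weq_union {D V W : Set (EE d)} (hD : MeasurableSet D) (hV : IsOpen V) (hW : IsOpen W)
    {G : Fin d → Fin d → EE d → ℝ} (hG₁ : ∀ k i, L2loc V (G k i)) (hG₂ : ∀ k i, L2loc W (G k i))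
    (h₁ : WEq Z D V G) (h₂ : WEq Z D W G) : WEq Z D (V ∪ W) G := by
  intro φ hφ hs k
  obtain ⟨φ₁, φ₂, t₁, t₂, s₁, s₂, he⟩ := test_split hV hW hφ hs
  have hfun : φ = fun x => φ₁ x + φ₂ x := funext he
  have e1 : ∀ x, ∑ i, sigD Z D G i k x * pd i φ x =
      ∑ i, sigD Z D G i k x * pd i φ₁ x + ∑ i, sigD Z D G i k x * pd i φ₂ x := by
    intro x
    rw [← Finset.sum_add_distrib]
    refine Finset.sum_congr rfl fun i _ => ?_
    rw [hfun, pd_add (t₁.1.differentiable (by simp) x) (t₂.1.differentiable (by simp) x)]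
    ring
  simp only [e1]
  rw [integral_add (w7_int Z hD hG₁ t₁ s₁ k) (w7_int Z hD hG₂ t₂ s₂ k), h₁ φ₁ t₁ s₁ k,
    h₂ φ₂ t₂ s₂ k, add_zero]

theorem weq_mono {D V W : Set (EE d)} {G : Fin d → Fin d → EE d → ℝ} (h : WEq Z D V G)
    (hW : W ⊆ V) : WEq Z D W G :=
  fun φ hφ hs k => h φ hφ (hs.trans hW) k

theorem weq_congr {D V : Set (EE d)} (hV : MeasurableSet V) {G H : Fin d → Fin d → EE d → ℝ}
    (h : WEq Z D V G) (hH : ∀ k i, ∀ᵐ x ∂(volume.restrict V), H k i x = G k i x) :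
    WEq Z D V H := by
  intro φ hφ hs k
  rw [← h φ hφ hs k]
  have h1 : ∀ᵐ x ∂(volume : Measure (EE d)), x ∈ V → ∀ k i, H k i x = G k i x := by
    rw [← ae_restrict_iff' hV]
    exact ae_all_iff.2 fun k => ae_all_iff.2 fun i => hH k i
  refine integral_congr_ae ?_
  filter_upwards [h1] with x hx
  refine Finset.sum_congr rfl fun i _ => ?_
  by_cases hxV : x ∈ V
  · have h2 := hx hxV
    unfold sigD
    simp only [h2]
  · rw [w7_pd_zero hφ hs i hxV, mul_zero, mul_zero]

theorem weq_sub {D V : Set (EE d)} (hD : MeasurableSet D) {G H : Fin d → Fin d → EE d → ℝ}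
    (hG : ∀ k i, L2loc V (G k i)) (hH : ∀ k i, L2loc V (H k i)) (h₁ : WEq Z D V G)
    (h₂ : WEq Z D V H) : WEq Z D V (fun k i x => G k i x - H k i x) := by
  intro φ hφ hs k
  have e1 : ∀ x, ∑ i, sigD Z D (fun k i x => G k i x - H k i x) i k x * pd i φ x =
      ∑ i, sigD Z D G i k x * pd i φ x - ∑ i, sigD Z D H i k x * pd i φ x := by
    intro x
    rw [← Finset.sum_sub_distrib]
    refine Finset.sum_congr rfl fun i _ => ?_
    unfold sigD
    by_cases hik : i = k
    · simp only [hik, if_true, Finset.sum_sub_distrib]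
      ring
    · simp only [hik, if_false]
      ring
  simp only [e1]
  rw [integral_sub (w7_int Z hD hG hφ hs k) (w7_int Z hD hH hφ hs k), h₁ φ hφ hs k,
    h₂ φ hφ hs k, sub_zero]

/-- off the inclusion the equation has the constants of the background -/
theorem weq_off {D V : Set (EE d)} (hVD : ∀ x ∈ V, x ∉ D) {G : Fin d → Fin d → EE d → ℝ} :
    WEq Z D V G ↔ ∀ φ : EE d → ℝ, IsTest φ → tsupport φ ⊆ V → ∀ k,
      ∫ x, ∑ i, sig Z.lam Z.mu G i k x * pd i φ x = 0 := by
  have key : ∀ φ : EE d → ℝ, IsTest φ → tsupport φ ⊆ V → ∀ k x,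
      ∑ i, sigD Z D G i k x * pd i φ x = ∑ i, sig Z.lam Z.mu G i k x * pd i φ x := by
    intro φ hφ hs k x
    refine Finset.sum_congr rfl fun i _ => ?_
    by_cases hxV : x ∈ V
    · have h1 : ∀ a b : ℝ, coef D a b x = a := fun a b => by
        unfold coef
        rw [indicator_of_notMem (hVD x hxV), add_zero]
      unfold sigD sig
      rw [h1, h1]
    · rw [w7_pd_zero hφ hs i hxV, mul_zero, mul_zero]
  unfold WEq
  constructor
  · intro h φ hφ hs k
    rw [← h φ hφ hs k]
    exact integral_congr_ae (Eventually.of_forall fun x => (key φ hφ hs k x).symm)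
  · intro h φ hφ hs k
    rw [← h φ hφ hs k]
    exact integral_congr_ae (Eventually.of_forall fun x => key φ hφ hs k x)

/-- on the inclusion those of the inclusion -/
theorem weq_on {D V : Set (EE d)} (hVD : V ⊆ D) {G : Fin d → Fin d → EE d → ℝ} :
    WEq Z D V G ↔ ∀ φ : EE d → ℝ, IsTest φ → tsupport φ ⊆ V → ∀ k,
      ∫ x, ∑ i, sig Z.lam' Z.mu' G i k x * pd i φ x = 0 := by
  have key : ∀ φ : EE d → ℝ, IsTest φ → tsupport φ ⊆ V → ∀ k x,
      ∑ i, sigD Z D G i k x * pd i φ x = ∑ i, sig Z.lam' Z.mu' G i k x * pd i φ x := by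
    intro φ hφ hs k x
    refine Finset.sum_congr rfl fun i _ => ?_
    by_cases hxV : x ∈ V
    · have h1 : ∀ a b : ℝ, coef D a b x = b := fun a b => by
        unfold coef
        rw [indicator_of_mem (hVD hxV), add_sub_cancel]
      unfold sigD sig
      rw [h1, h1]
    · rw [w7_pd_zero hφ hs i hxV, mul_zero, mul_zero]
  unfold WEq
  constructor
  · intro h φ hφ hs k
    rw [← h φ hφ hs k]
    exact integral_congr_ae (Eventually.of_forall fun x => (key φ hφ hs k x).symm)
  · intro h φ hφ hs k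
    rw [← h φ hφ hs k]
    exact integral_congr_ae (Eventually.of_forall fun x => key φ hφ hs k x)

/-- Lame fields satisfy the weak equation -/
theorem lame_weak {V : Set (EE d)} (hV : IsOpen V) {lam mu : ℝ} (hmu : mu ≠ 0)
    {u : Fin d → EE d → ℝ} (hu : IsLame ((lam + mu) / (2 * mu)) V u) {φ : EE d → ℝ}
    (hφ : IsTest φ) (hs : tsupport φ ⊆ V) (k : Fin d) :
    ∫ x, ∑ i, sig lam mu (grd u) i k x * pd i φ x = 0 := by
  have hsm : ∀ i k, ContDiffOn ℝ ∞ (grd u k i) V := fun i k =>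
    pd_contDiffOn hV (lame_smooth hV hu k) i
  have hS : ∀ i, ContDiffOn ℝ ∞ (sig lam mu (grd u) i k) V := by
    intro i
    have h1 : ContDiffOn ℝ ∞ (fun x => if i = k then ∑ j, grd u j j x else 0) V := by
      by_cases hik : i = k
      · simp only [hik, if_true]
        exact ContDiffOn.sum fun j _ => hsm j j
      · simp only [hik, if_false]
        exact contDiffOn_const
    exact (contDiffOn_const.mul h1).add (contDiffOn_const.mul ((hsm i k).add (hsm k i)))
  have hWD : ∀ i, WD V (sig lam mu (grd u) i k) (fun j => pd j (sig lam mu (grd u) i k)) :=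
    fun i => wd_smooth hV (hS i)
  have i1 : ∀ i, Integrable (fun x => sig lam mu (grd u) i k x * pd i φ x) := fun i => by
    have a := w7_pd hφ i
    exact l2loc_integrable (hWD i).1 a.1 a.2.1 (a.2.2.trans hs)
  have i2 : ∀ i, Integrable (fun x => pd i (sig lam mu (grd u) i k) x * φ x) := fun i =>
    l2loc_integrable ((hWD i).2.1 i) hφ.1.continuous hφ.2 hs
  rw [integral_finsetSum _ fun i _ => i1 i,
    Finset.sum_congr rfl fun i _ => (hWD i).2.2 φ hφ hs i, Finset.sum_neg_distrib,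
    ← integral_finsetSum _ fun i _ => i2 i, neg_eq_zero]
  have h3 : ∀ x, ∑ i, pd i (sig lam mu (grd u) i k) x * φ x = 0 := by
    intro x
    by_cases hx : x ∈ V
    · rw [← Finset.sum_mul, stress_div hV hmu hu hx k, zero_mul]
    · have : φ x = 0 := image_eq_zero_of_notMem_tsupport fun h => hx (hs h)
      simp [this]
  simp only [h3, integral_zero]

end Pool.Agent.MP_0643f8_an.U
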