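import Mathlib
import Pool.Agent.Lib.MP_0643f8_an.U.W7_Local

/-!
# First consequences of the weak formulation
-/

set_option autoImplicit false

open MeasureTheory Metric Set Filter Topology
open scoped ContDiff

namespace Pool.Agent.MP_0643f8_an.U
variable {d : ℕ} (Z : Cst d)

private theorem m2_pd_zero {φ : EE d → ℝ} {x : EE d} (hx : x ∉ tsupport φ) (i : Fin d) :
    pd i φ x = 0 := by
  have h1 : fderiv ℝ φ x = 0 := by
    by_contra hne
    exact hx (support_fderiv_subset ℝ (Function.mem_support.2 hne))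
  unfold pd
  rw [h1]
  rfl

/-- a weak solution has weak derivatives in the local sense -/
theorem wd_of_w12 {Ω : Set (EE d)} (hΩ : IsOpen Ω) {u : Fin d → EE d → ℝ}
    {G : Fin d → Fin d → EE d → ℝ} (h : IsW12 Ω u G) (k : Fin d) : WD Ω (u k) (G k) := by
  refine ⟨fun K _ hK => (h.memLp k).mono_measure (Measure.restrict_mono hK le_rfl),
    fun i K _ hK => (h.memLp_grad k i).mono_measure (Measure.restrict_mono hK le_rfl),
    fun φ hφ hs i => ?_⟩
  have h1 := h.weak φ hφ hs k i
  rwa [setIntegral_eq_integral_of_forall_compl_eq_zero (fun x hx => by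
      rw [m2_pd_zero (fun hx' => hx (hs hx')) i, mul_zero]),
    setIntegral_eq_integral_of_forall_compl_eq_zero (fun x hx => by
      rw [image_eq_zero_of_notMem_tsupport (fun hx' => hx (hs hx')), mul_zero])] at h1

/-- the test field with one nonzero component -/
private noncomputable def m2_fld (φ : EE d → ℝ) (k : Fin d) : Fin d → EE d → ℝ :=
  fun j => if j = k then φ else fun _ => 0

private theorem m2_fld_test {φ : EE d → ℝ} (hφ : IsTest φ) (k j : Fin d) :
    IsTest (m2_fld φ k j) := by
  unfold m2_fld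
  split_ifs
  · exact hφ
  · exact ⟨contDiff_const, HasCompactSupport.zero⟩

private theorem m2_fld_pd (φ : EE d → ℝ) (k j i : Fin d) (x : EE d) :
    pd i (m2_fld φ k j) x = if j = k then pd i φ x else 0 := by
  unfold m2_fld
  split_ifs
  · rfl
  · exact pd_const 0 i x

private theorem m2_fld_apply (φ : EE d → ℝ) (k j : Fin d) (x : EE d) :
    m2_fld φ k j x = if j = k then φ x else 0 := by
  unfold m2_fld
  split_ifs <;> rfl

/-- the weak formulation for one component -/
private theorem m2_weak {Ω D : Set (EE d)} {σ : Measure (EE d)} {g : Fin d → EE d → ℝ}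
    {u : Fin d → EE d → ℝ} {G : Fin d → Fin d → EE d → ℝ} {lam mu lam' mu' : ℝ}
    (h : IsWeakSolution Ω D lam mu lam' mu' σ g u G) {φ : EE d → ℝ} (hφ : IsTest φ)
    (k : Fin d) :
    ∫ x in Ω, (coef D lam lam' x * (∑ j, G j j x) * pd k φ x +
      coef D mu mu' x * ∑ i, (G k i x + G i k x) * pd i φ x) = ∫ x, g k x * φ x ∂σ := by
  have h1 := h.weak (m2_fld φ k) (m2_fld_test hφ k)
  have e1 : ∀ x, (coef D lam lam' x * (∑ j, G j j x) * (∑ j, pd j (m2_fld φ k j) x) +
      coef D mu mu' x * ∑ j, ∑ i, (G j i x + G i j x) * pd i (m2_fld φ k j) x) =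
      (coef D lam lam' x * (∑ j, G j j x) * pd k φ x +
      coef D mu mu' x * ∑ i, (G k i x + G i k x) * pd i φ x) := by
    intro x
    have e3 : ∑ j, pd j (m2_fld φ k j) x = pd k φ x := by
      rw [Finset.sum_eq_single k]
      · rw [m2_fld_pd, if_pos rfl]
      · intro j _ hj
        rw [m2_fld_pd, if_neg hj]
      · intro hk
        exact absurd (Finset.mem_univ k) hk
    have e4 : ∑ j, ∑ i, (G j i x + G i j x) * pd i (m2_fld φ k j) x =
        ∑ i, (G k i x + G i k x) * pd i φ x := by
      rw [Finset.sum_eq_single k]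
      · refine Finset.sum_congr rfl fun i _ => ?_
        rw [m2_fld_pd, if_pos rfl]
      · intro j _ hj
        refine Finset.sum_eq_zero fun i _ => ?_
        rw [m2_fld_pd, if_neg hj, mul_zero]
      · intro hk
        exact absurd (Finset.mem_univ k) hk
    rw [e3, e4]
  have e2 : ∀ x, ∑ j, g j x * m2_fld φ k j x = g k x * φ x := by
    intro x
    rw [Finset.sum_eq_single k]
    · rw [m2_fld_apply, if_pos rfl]
    · intro j _ hj
      rw [m2_fld_apply, if_neg hj, mul_zero]
    · intro hk
      exact absurd (Finset.mem_univ k) hk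
  simp_rw [e1, e2] at h1
  exact h1

/-- a weak solution satisfies the weak equation inside `Ω` (test fields with one nonzero
component, supported in `Ω`; `σ` lives on the frontier) -/
theorem weq_of_sol {Ω D : Set (EE d)} (hΩ : IsOpen Ω) {σ : Measure (EE d)}
    (hσ : σ (frontier Ω)ᶜ = 0) {g : Fin d → EE d → ℝ} {u : Fin d → EE d → ℝ}
    {G : Fin d → Fin d → EE d → ℝ}
    (h : IsWeakSolution Ω D Z.lam Z.mu Z.lam' Z.mu' σ g u G) : WEq Z D Ω G := by
  intro φ hφ hs k
  have h1 := m2_weak h hφ k
  have h2 : ∫ x, g k x * φ x ∂σ = 0 := by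
    refine integral_eq_zero_of_ae ?_
    refine measure_mono_null (fun x hx => ?_) hσ
    intro hfr
    refine hx ?_
    have hxΩ : x ∉ Ω := by
      intro hxΩ
      rw [hΩ.frontier_eq] at hfr
      exact hfr.2 hxΩ
    show g k x * φ x = 0
    rw [image_eq_zero_of_notMem_tsupport (fun hx' => hxΩ (hs hx')), mul_zero]
  rw [h2] at h1
  have e1 : ∀ x, ∑ i, sigD Z D G i k x * pd i φ x =
      coef D Z.lam Z.lam' x * (∑ j, G j j x) * pd k φ x +
      coef D Z.mu Z.mu' x * ∑ i, (G k i x + G i k x) * pd i φ x := by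
    intro x
    unfold sigD
    simp_rw [add_mul]
    rw [Finset.sum_add_distrib]
    congr 1
    · rw [Finset.sum_eq_single k]
      · rw [if_pos rfl]
      · intro i _ hi
        rw [if_neg hi, mul_zero, zero_mul]
      · intro hk
        exact absurd (Finset.mem_univ k) hk
    · rw [Finset.mul_sum]
      exact Finset.sum_congr rfl fun i _ => by ring
  rw [setIntegral_eq_integral_of_forall_compl_eq_zero (fun x hx => by
    rw [m2_pd_zero (fun hx' => hx (hs hx')) k, mul_zero, zero_add, Finset.sum_eq_zero, mul_zero]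
    intro i _
    rw [m2_pd_zero (fun hx' => hx (hs hx')) i, mul_zero])] at h1
  simp_rw [e1]
  exact h1

/-- if the strain of a weak solution vanishes, the datum vanishes -/
theorem datum_zero {Ω D : Set (EE d)} (hΩ : IsOpen Ω) {σ : Measure (EE d)} [IsFiniteMeasure σ]
    {g : Fin d → EE d → ℝ} (hg : ∀ k, MemLp (g k) 2 σ) {u : Fin d → EE d → ℝ}
    {G : Fin d → Fin d → EE d → ℝ}
    (h : IsWeakSolution Ω D Z.lam Z.mu Z.lam' Z.mu' σ g u G)
    (h0 : ∀ k i, ∀ᵐ x ∂(volume.restrict Ω), G k i x + G i k x = 0) (k : Fin d) :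
    g k =ᵐ[σ] 0 := by
  have hint : Integrable (g k) σ := (hg k).integrable (by norm_num)
  have h00 : ∀ᵐ x ∂(volume.restrict Ω), ∀ k i, G k i x + G i k x = 0 := by
    rw [ae_all_iff]
    intro k
    rw [ae_all_iff]
    exact h0 k
  refine ae_eq_zero_of_integral_contDiff_smul_eq_zero hint.locallyIntegrable
    fun φ hφ hc => ?_
  have h1 := m2_weak h (⟨hφ, hc⟩ : IsTest φ) k
  have h2 : ∫ x in Ω, (coef D Z.lam Z.lam' x * (∑ j, G j j x) * pd k φ x +
      coef D Z.mu Z.mu' x * ∑ i, (G k i x + G i k x) * pd i φ x) = 0 := by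
    refine integral_eq_zero_of_ae ?_
    filter_upwards [h00] with x hx
    have e1 : ∑ j, G j j x = 0 := Finset.sum_eq_zero fun j _ => by linarith [hx j j]
    have e2 : ∑ i, (G k i x + G i k x) * pd i φ x = 0 :=
      Finset.sum_eq_zero fun i _ => by rw [hx k i, zero_mul]
    show _ = (0 : ℝ)
    rw [e1, e2]
    ring
  rw [h2] at h1
  rw [h1]
  exact integral_congr_ae (Filter.Eventually.of_forall fun x => by
    show φ x • g k x = g k x * φ x
    rw [smul_eq_mul, mul_comm])

end Pool.Agent.MP_0643f8_an.U
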