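import Mathlib
import Pool.Agent.Lib.MP_0643f8_an.U.W1_WD
import Pool.Agent.Lib.MP_0643f8_an.U.H01_Bridge

/-!
# Weyl's lemma

Mollify `f` with smooth bumps: `f_n` is smooth and, away from the boundary, harmonic
(`y ↦ ρ_n (x - y)` is a test function in `V`), and `f_n → f` in `L¹` on compact subsets. By the
mean value property (`Pool.Agent.Lib.MP_47b33c_an.mvp`) `|g x| ≤ C_r ∫_{B(x,r)} |g|` for harmonic `g`, so
the `f_n` are locally uniformly Cauchy; the limit is harmonic
(`Pool.Agent.Lib.MP_47b33c_an.harmonic_of_tendsto`, bridge `hm_of_harmonic`) and equals `f` almost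
everywhere. Work on balls first, then glue with a countable cover (harmonic functions that are
equal almost everywhere are equal).
-/

set_option autoImplicit false

open MeasureTheory Metric Set Filter Topology
open scoped ContDiff

namespace Pool.Agent.MP_0643f8_an.U
variable {d : ℕ}

private noncomputable def w3_cv (F K : EE d → ℝ) : EE d → ℝ :=
  convolution F K (ContinuousLinearMap.lsmul ℝ ℝ) (volume : Measure (EE d))

private theorem w3_cv_apply (F K : EE d → ℝ) (x : EE d) :
    w3_cv F K x = ∫ t, F t * K (x - t) := rfl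

private theorem w3_cv_comm (F K : EE d → ℝ) : w3_cv K F = w3_cv F K := by
  funext x
  rw [w3_cv_apply F K, w3_cv, convolution_lsmul_swap]
  refine integral_congr_ae (Eventually.of_forall fun t => ?_)
  simp only [smul_eq_mul]
  ring

private theorem w3_pd_cv {F K : EE d → ℝ} (hF : LocallyIntegrable F volume)
    (hc : HasCompactSupport K) (hK : ContDiff ℝ 1 K) (i : Fin d) :
    pd i (w3_cv F K) = w3_cv F (pd i K) := by
  funext x
  have h1 := hc.hasFDerivAt_convolution_right (ContinuousLinearMap.lsmul ℝ ℝ) hF hK x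
  have h2 : fderiv ℝ (w3_cv F K) x = _ := h1.fderiv
  have h3 := convolution_precompR_apply (ContinuousLinearMap.lsmul ℝ ℝ) hF (hc.fderiv ℝ)
    (hK.continuous_fderiv one_ne_zero) x (EuclideanSpace.single i (1 : ℝ) : EE d)
  show fderiv ℝ (w3_cv F K) x (EuclideanSpace.single i (1 : ℝ)) = _
  rw [h2, h3]
  rfl

private theorem w3_pd_cd {K : EE d → ℝ} (hK : ContDiff ℝ ∞ K) (i : Fin d) :
    ContDiff ℝ ∞ (pd i K) := by
  have h1 : ContDiff ℝ ∞ (fderiv ℝ K) := hK.fderiv_right (by simp)
  exact h1.clm_apply contDiff_const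

private theorem w3_pd_zero {φ : EE d → ℝ} {t : EE d} (ht : t ∉ tsupport φ) (i : Fin d) :
    pd i (pd i φ) t = 0 := by
  have h1 : φ =ᶠ[𝓝 t] fun _ => (0 : ℝ) := notMem_tsupport_iff_eventuallyEq.1 ht
  have h2 := (pd_congr (pd_congr h1 i) i).self_of_nhds
  rw [h2]
  have h3 : pd i (fun _ : EE d => (0 : ℝ)) = fun _ => (0 : ℝ) := by
    funext x; exact pd_const 0 i x
  rw [h3]
  exact pd_const 0 i t

private theorem w3_pd_supp {φ : EE d → ℝ} (hc : HasCompactSupport φ) (i : Fin d) :
    HasCompactSupport (pd i φ) := by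
  have h := (hc.fderiv (𝕜 := ℝ))
  refine h.mono ?_
  intro x hx
  rw [Function.mem_support] at hx ⊢
  intro h0
  apply hx
  show fderiv ℝ φ x (EuclideanSpace.single i (1 : ℝ)) = 0
  rw [h0]
  rfl

private theorem w3_one : (1 : WithTop ℕ∞) ≤ ∞ := by norm_cast

private theorem w3_lap_cv {F K : EE d → ℝ} (hF : LocallyIntegrable F volume)
    (hc : HasCompactSupport K) (hK : ContDiff ℝ ∞ K) (x : EE d) :
    ∑ i, pd i (pd i (w3_cv F K)) x = ∫ t, F t * ∑ i, pd i (pd i K) (x - t) := by
  have h1 : ∀ i : Fin d, pd i (pd i (w3_cv F K)) x = ∫ t, F t * pd i (pd i K) (x - t) := by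
    intro i
    rw [w3_pd_cv hF hc (hK.of_le w3_one) i,
      w3_pd_cv hF (w3_pd_supp hc i) ((w3_pd_cd hK i).of_le w3_one) i]
    rfl
  have h2 : ∀ i : Fin d, Integrable (fun t => F t * pd i (pd i K) (x - t)) := by
    intro i
    have h3 := (w3_pd_supp (w3_pd_supp hc i) i).convolutionExists_right
      (ContinuousLinearMap.lsmul ℝ ℝ) hF (w3_pd_cd (w3_pd_cd hK i) i).continuous x
    exact h3
  simp only [h1]
  rw [← integral_finsetSum _ fun i _ => h2 i]
  refine integral_congr_ae (Eventually.of_forall fun t => ?_)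
  simp only [Finset.mul_sum]

private theorem w3_refl {K : EE d → ℝ} (hK : ContDiff ℝ ∞ K) (x : EE d) (i : Fin d) (t : EE d) :
    pd i (pd i (fun z => K (x - z))) t = pd i (pd i K) (x - t) := by
  have e0 : (fun z : EE d => K (x - z)) = fun z => K (x + (-1 : ℝ) • z) := by
    funext z; rw [neg_one_smul, sub_eq_add_neg]
  have e1 : pd i (fun z : EE d => K (x - z)) = fun z => (-1 : ℝ) * pd i K (x + (-1 : ℝ) • z) := by
    funext z
    rw [e0]
    exact pd_affine ((hK.differentiable (by simp)) _) i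
  have hK1 : ContDiff ℝ ∞ (pd i K) := w3_pd_cd hK i
  have hd1 : Differentiable ℝ (fun z : EE d => pd i K (x + (-1 : ℝ) • z)) := by
    have h : ContDiff ℝ ∞ (fun z : EE d => pd i K (x + (-1 : ℝ) • z)) := by
      apply hK1.comp
      exact contDiff_const.add (contDiff_const_smul _)
    exact h.differentiable (by simp)
  rw [e1, pd_cmul (hd1 t) (-1) i, pd_affine ((hK1.differentiable (by simp)) _) i]
  rw [neg_one_smul, ← sub_eq_add_neg]
  ring

private theorem w3_weak {c : EE d} {r : ℝ} {f : EE d → ℝ}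
    (hf : IntegrableOn f (ball c (2 * r)))
    (h : ∀ φ : EE d → ℝ, IsTest φ → tsupport φ ⊆ ball c (2 * r) →
      ∫ x, f x * ∑ i, pd i (pd i φ) x = 0)
    {K : EE d → ℝ} (hc : HasCompactSupport K) (hK : ContDiff ℝ ∞ K) {ρ : ℝ}
    (hs : tsupport K ⊆ closedBall 0 ρ) {x : EE d} (hx : closedBall x ρ ⊆ ball c (2 * r)) :
    ∑ i, pd i (pd i (w3_cv (indicator (ball c (2 * r)) f) K)) x = 0 := by
  have hF : LocallyIntegrable (indicator (ball c (2 * r)) f) volume :=
    ((integrable_indicator_iff measurableSet_ball).2 hf).locallyIntegrable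
  rw [w3_lap_cv hF hc hK]
  have hφ : IsTest (fun z => K (x - z)) := by
    refine ⟨hK.comp (contDiff_const.sub contDiff_id), ?_⟩
    exact hc.comp_homeomorph (Homeomorph.subLeft x)
  have hsupp : tsupport (fun z => K (x - z)) ⊆ ball c (2 * r) := by
    refine Subset.trans ?_ hx
    refine closure_minimal (fun z hz => ?_) isClosed_closedBall
    rw [Function.mem_support] at hz
    have h1 : x - z ∈ tsupport K := subset_tsupport _ hz
    have h2 := hs h1
    rw [mem_closedBall, dist_zero_right] at h2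
    rw [mem_closedBall, dist_comm, dist_eq_norm]
    exact h2
  rw [← h _ hφ hsupp]
  refine integral_congr_ae (Eventually.of_forall fun t => ?_)
  simp only
  rw [← Finset.sum_congr rfl fun i _ => w3_refl hK x i t]
  by_cases ht : t ∈ ball c (2 * r)
  · rw [indicator_of_mem ht]
  · rw [Finset.sum_eq_zero fun i _ => w3_pd_zero (fun h0 => ht (hsupp h0)) i, mul_zero, mul_zero]

private theorem w3_cd {F K : EE d → ℝ} (hF : LocallyIntegrable F volume)
    (hc : HasCompactSupport K) (hK : ContDiff ℝ ∞ K) : ContDiff ℝ ∞ (w3_cv F K) :=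
  hc.contDiff_convolution_right (ContinuousLinearMap.lsmul ℝ ℝ) hF hK

private theorem w3_assoc {K F W : EE d → ℝ} (hKs : HasCompactSupport K) (hK : Continuous K)
    (hF : LocallyIntegrable F volume) (hWs : HasCompactSupport W) (hW : Continuous W) :
    w3_cv (w3_cv K F) W = w3_cv K (w3_cv F W) := by
  funext x
  have hFn : LocallyIntegrable (fun x => ‖F x‖) (volume : Measure (EE d)) := fun x => by
    obtain ⟨s, hs, hi⟩ := hF x
    exact ⟨s, hs, hi.norm⟩
  have hWn : Continuous fun x => ‖W x‖ := hW.norm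
  have hWsn : HasCompactSupport fun x => ‖W x‖ := hWs.norm
  refine convolution_assoc (ContinuousLinearMap.lsmul ℝ ℝ) (ContinuousLinearMap.lsmul ℝ ℝ)
    (ContinuousLinearMap.lsmul ℝ ℝ) (ContinuousLinearMap.lsmul ℝ ℝ) (fun x y z => ?_)
    hK.aestronglyMeasurable hF.aestronglyMeasurable hW.aestronglyMeasurable
    (Eventually.of_forall fun y => ?_) (Eventually.of_forall fun y => ?_) ?_
  · simp only [ContinuousLinearMap.lsmul_apply, smul_eq_mul]; ring
  · exact hKs.convolutionExists_left (ContinuousLinearMap.lsmul ℝ ℝ) hK hF y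
  · exact hWsn.convolutionExists_right (ContinuousLinearMap.mul ℝ ℝ) hFn hWn y
  · have h1 : Continuous (convolution (fun x => ‖F x‖) (fun x => ‖W x‖)
        (ContinuousLinearMap.mul ℝ ℝ) (volume : Measure (EE d))) :=
      hWsn.continuous_convolution_right (ContinuousLinearMap.mul ℝ ℝ) hFn hWn
    exact hKs.norm.convolutionExists_left (ContinuousLinearMap.mul ℝ ℝ) hK.norm
      h1.locallyIntegrable x

open Pool.Agent.Lib.MP_47b33c_an in
/-- the mean value property as a convolution identity -/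
private theorem w3_mvp (hd : 2 ≤ d) {u : EE d → ℝ} {x : EE d} {ρ : ℝ} (hρ : 0 < ρ)
    (hu : InnerProductSpace.HarmonicOnNhd u (closedBall x ρ)) :
    w3_cv u (fun z => wt 3 (ρ⁻¹ • z)) x =
      (ρ ^ Module.finrank ℝ (EE d) * ∫ y : EE d, wt 3 y) * u x := by
  have h1 := mvp hd 3 (by norm_num) hρ.le hu
  have h2 : (∫ y : EE d, u (x + ρ • y) * wt 3 y) =
      ∫ y : EE d, (fun t => u (x + t) * wt 3 (ρ⁻¹ • t)) (ρ • y) := by
    refine integral_congr_ae (Eventually.of_forall fun y => ?_)
    simp only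
    rw [smul_smul, inv_mul_cancel₀ hρ.ne', one_smul]
  have h4 := MeasureTheory.Measure.integral_comp_smul (volume : Measure (EE d))
    (fun t => u (x + t) * wt 3 (ρ⁻¹ • t)) ρ
  rw [h2, h4] at h1
  have hp : 0 < ρ ^ Module.finrank ℝ (EE d) := pow_pos hρ _
  rw [abs_of_pos (inv_pos.2 hp), smul_eq_mul] at h1
  have h5 : w3_cv u (fun z => wt 3 (ρ⁻¹ • z)) x = ∫ t : EE d, u (x + t) * wt 3 (ρ⁻¹ • t) := by
    rw [w3_cv_apply]
    rw [← integral_add_left_eq_self (fun t => u t * wt 3 (ρ⁻¹ • (x - t))) x]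
    refine integral_congr_ae (Eventually.of_forall fun t => ?_)
    simp only
    rw [sub_add_cancel_left, smul_neg, a5_wt_neg]
  rw [h5]
  have h6 : (∫ t : EE d, u (x + t) * wt 3 (ρ⁻¹ • t)) =
      ρ ^ Module.finrank ℝ (EE d) * ((ρ ^ Module.finrank ℝ (EE d))⁻¹ *
        ∫ t : EE d, u (x + t) * wt 3 (ρ⁻¹ • t)) := by
    rw [← mul_assoc, mul_inv_cancel₀ hp.ne', one_mul]
  rw [h6, h1]
  ring

open Pool.Agent.Lib.MP_47b33c_an in
theorem weyl_ball (hd : 2 ≤ d) {c : EE d} {r : ℝ} (hr : 0 < r) {f : EE d → ℝ}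
    (hf : IntegrableOn f (ball c (2 * r)))
    (h : ∀ φ : EE d → ℝ, IsTest φ → tsupport φ ⊆ ball c (2 * r) →
      ∫ x, f x * ∑ i, pd i (pd i φ) x = 0) :
    ∃ g : EE d → ℝ, Hm (ball c r) g ∧ ∀ᵐ x ∂(volume.restrict (ball c r)), f x = g x := by
  set F : EE d → ℝ := indicator (ball c (2 * r)) f with hFdef
  have hF : LocallyIntegrable F volume :=
    ((integrable_indicator_iff measurableSet_ball).2 hf).locallyIntegrable
  -- the bumps
  have hpos : ∀ n : ℕ, 0 < r / (4 * ((n : ℝ) + 1)) := fun n => by positivity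
  let φ : ℕ → ContDiffBump (0 : EE d) := fun n =>
    { rIn := r / (8 * ((n : ℝ) + 1))
      rOut := r / (4 * ((n : ℝ) + 1))
      rIn_pos := by positivity
      rIn_lt_rOut := by
        apply div_lt_div_of_pos_left hr (by positivity)
        have : (0 : ℝ) < (n : ℝ) + 1 := by positivity
        linarith }
  have hrO : ∀ n, (φ n).rOut = r / (4 * ((n : ℝ) + 1)) := fun n => rfl
  have hrI : ∀ n, (φ n).rIn = r / (8 * ((n : ℝ) + 1)) := fun n => rfl
  have hφ0 : Tendsto (fun n => (φ n).rOut) atTop (𝓝 0) := by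
    simp only [hrO]
    have h1 : Tendsto (fun n : ℕ => 1 / ((n : ℝ) + 1)) atTop (𝓝 0) :=
      tendsto_one_div_add_atTop_nhds_zero_nat
    have h2 := h1.const_mul (r / 4)
    rw [mul_zero] at h2
    refine h2.congr fun n => ?_
    have : ((n : ℝ) + 1) ≠ 0 := by positivity
    field_simp
  have hφ2 : ∀ᶠ n in atTop, (φ n).rOut ≤ 2 * (φ n).rIn := by
    refine Eventually.of_forall fun n => ?_
    rw [hrO, hrI]
    have : ((n : ℝ) + 1) ≠ 0 := by positivity
    apply le_of_eq
    field_simp
    norm_num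
  have hφ1 : ∀ n, (φ n).rOut < r / 2 := by
    intro n
    rw [hrO]
    apply div_lt_div_of_pos_left hr (by norm_num)
    have : (0 : ℝ) ≤ (n : ℝ) := by positivity
    linarith
  set K : ℕ → EE d → ℝ := fun n => (φ n).normed (volume : Measure (EE d)) with hKdef
  have hKs : ∀ n, HasCompactSupport (K n) := fun n => (φ n).hasCompactSupport_normed
  have hKc : ∀ n, ContDiff ℝ ∞ (K n) := fun n => (φ n).contDiff_normed
  have hKt : ∀ n, tsupport (K n) ⊆ closedBall 0 ((φ n).rOut) := fun n =>
    ((φ n).tsupport_normed_eq (μ := (volume : Measure (EE d)))).subset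
  set u : ℕ → EE d → ℝ := fun n => w3_cv F (K n) with hudef
  have hu : ∀ n, Hm (ball c (3 * r / 2)) (u n) := by
    intro n
    refine ⟨(w3_cd hF (hKs n) (hKc n)).contDiffOn, fun x hx => ?_⟩
    refine w3_weak hf h (hKs n) (hKc n) (hKt n) ?_
    intro z hz
    rw [mem_closedBall] at hz
    rw [mem_ball] at hx ⊢
    have := dist_triangle z x c
    have := hφ1 n
    linarith
  have huh : ∀ n, InnerProductSpace.HarmonicOnNhd (u n) (ball c (3 * r / 2)) := fun n =>
    harmonic_of_hm isOpen_ball (hu n)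
  -- the weight
  set ρ : ℝ := r / 2 with hρdef
  have hρ : 0 < ρ := by positivity
  set W : EE d → ℝ := fun z => wt 3 (ρ⁻¹ • z) with hWdef
  have hWc : Continuous W := (wt_continuous 3).comp (continuous_const_smul _)
  have hWs : HasCompactSupport W :=
    (a3_wt_hasCompactSupport 3 (by norm_num)).comp_homeomorph (Homeomorph.smulOfNeZero ρ⁻¹
      (inv_ne_zero hρ.ne'))
  set A : ℝ := ρ ^ Module.finrank ℝ (EE d) * ∫ y : EE d, wt 3 y with hAdef
  have hA : 0 < A := mul_pos (pow_pos hρ _) (wt_integral_pos hd 3 (by norm_num))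
  set G : EE d → ℝ := w3_cv F W with hGdef
  have hGc : Continuous G :=
    hWs.continuous_convolution_right (ContinuousLinearMap.lsmul ℝ ℝ) hF hWc
  have hball : ∀ x ∈ ball c r, closedBall x ρ ⊆ ball c (3 * r / 2) := by
    intro x hx z hz
    rw [mem_closedBall] at hz
    rw [mem_ball] at hx ⊢
    have := dist_triangle z x c
    linarith
  have hkey : ∀ n, ∀ x ∈ ball c r, A * u n x = w3_cv (K n) G x := by
    intro n x hx
    rw [hGdef, ← w3_assoc (hKs n) (hKc n).continuous hF hWs hWc, w3_cv_comm F (K n)]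
    exact (w3_mvp hd hρ ((huh n).mono (hball x hx))).symm
  have hsub : ball c r ⊆ ball c (3 * r / 2) := ball_subset_ball (by linarith)
  -- locally uniform convergence
  have hunif : TendstoLocallyUniformlyOn u (fun x => A⁻¹ * G x) atTop (ball c r) := by
    rw [Metric.tendstoLocallyUniformlyOn_iff]
    intro ε hε x hx
    have hε' : 0 < A * ε / 3 := by positivity
    obtain ⟨δ, hδ, hδ'⟩ := Metric.continuousAt_iff.1 (hGc.continuousAt (x := x)) (A * ε / 3) hε'
    refine ⟨ball x (δ / 2) ∩ ball c r, ?_, ?_⟩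
    · exact inter_mem (mem_nhdsWithin_of_mem_nhds (ball_mem_nhds x (by positivity)))
        self_mem_nhdsWithin
    · have h1 : ∀ᶠ n in atTop, (φ n).rOut < δ / 2 :=
        hφ0.eventually (gt_mem_nhds (by positivity))
      filter_upwards [h1] with n hn y hy
      obtain ⟨hy1, hy2⟩ := hy
      have h2 : dist (w3_cv (K n) G y) (G y) ≤ 2 * (A * ε / 3) := by
        refine (φ n).dist_normed_convolution_le hGc.aestronglyMeasurable fun z hz => ?_
        rw [mem_ball] at hz hy1
        have h3 : dist z x < δ := by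
          have := dist_triangle z y x
          linarith
        have h4 : dist y x < δ := by linarith
        have h5 := hδ' h3
        have h6 := hδ' h4
        rw [dist_comm] at h6
        have := dist_triangle (G z) (G x) (G y)
        linarith
      rw [← hkey n y hy2] at h2
      rw [Real.dist_eq] at h2 ⊢
      have h7 : A⁻¹ * G y - u n y = -(A⁻¹ * (A * u n y - G y)) := by
        field_simp
        ring
      rw [h7, abs_neg, abs_mul, abs_of_pos (inv_pos.2 hA)]
      calc A⁻¹ * |A * u n y - G y| ≤ A⁻¹ * (2 * (A * ε / 3)) :=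
            mul_le_mul_of_nonneg_left h2 (inv_pos.2 hA).le
        _ = 2 * ε / 3 := by field_simp
        _ < ε := by linarith
  have hharm : InnerProductSpace.HarmonicOnNhd (fun x => A⁻¹ * G x) (ball c r) :=
    harmonic_of_tendsto hd isOpen_ball (fun n => (huh n).mono hsub) hunif
  refine ⟨fun x => A⁻¹ * G x, hm_of_harmonic hd isOpen_ball hharm, ?_⟩
  have hae := ContDiffBump.ae_convolution_tendsto_right_of_locallyIntegrable hφ0 hφ2 hF
  filter_upwards [ae_restrict_of_ae hae, ae_restrict_mem measurableSet_ball] with x hx1 hx2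
  have h1 : Tendsto (fun n => u n x) atTop (𝓝 (F x)) := by
    refine hx1.congr fun n => ?_
    show w3_cv (K n) F x = w3_cv F (K n) x
    rw [w3_cv_comm]
  have h2 : Tendsto (fun n => u n x) atTop (𝓝 (A⁻¹ * G x)) := hunif.tendsto_at hx2
  have h3 := tendsto_nhds_unique h1 h2
  have h4 : F x = f x := indicator_of_mem (ball_subset_ball (by linarith) hx2) f
  rw [← h4]
  exact h3

end Pool.Agent.MP_0643f8_an.U
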