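import Mathlib
import Pool.Agent.Lib.MP_0643f8_an.U.W3a_WeylBall

/-!
# Weyl's lemma

Mollify `f` with smooth bumps: `f_n` is smooth and, away from the boundary, harmonic
(`y ↦ ρ_n (x - y)` is a test function in `V`), and `f_n → f` in `L¹` on compact subsets. By the
mean value property (`Pool.Agent.Lib.MP_47b33c_an.mvp`) `|g x| ≤ C_r ∫_{B(x,r)} |g|` for harmonic `g`, so
the `f_n` are locally uniformly Cauchy; the limit is harmonic
(`Pool.Agent.Lib.MP_47b33c_an.harmonic_of_tendsto`, bridge `hm_of_harmonic`) and equals `f` almost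
everywhere. Work on balls first, then glue with a countable cover (harmonic functions that are
equal almost everywhere are equal).
-/

set_option autoImplicit false

open MeasureTheory Metric Set Filter Topology
open scoped ContDiff

namespace Pool.Agent.MP_0643f8_an.U
variable {d : ℕ}

private theorem w3_local (hd : 2 ≤ d) {V : Set (EE d)} (hV : IsOpen V) {f : EE d → ℝ}
    (hf : L2loc V f)
    (h : ∀ φ : EE d → ℝ, IsTest φ → tsupport φ ⊆ V → ∫ x, f x * ∑ i, pd i (pd i φ) x = 0)
    (c : EE d) (hc : c ∈ V) :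
    ∃ (r : ℝ) (g : EE d → ℝ), 0 < r ∧ ball c r ⊆ V ∧ Hm (ball c r) g ∧
      ∀ᵐ x ∂(volume.restrict (ball c r)), f x = g x := by
  obtain ⟨ε, hε, hεV⟩ := Metric.isOpen_iff.1 hV c hc
  have hr : 0 < ε / 4 := by positivity
  have hK : closedBall c (2 * (ε / 4)) ⊆ V := fun x hx =>
    hεV (lt_of_le_of_lt (mem_closedBall.1 hx) (by linarith))
  have hsub : ball c (2 * (ε / 4)) ⊆ V := ball_subset_closedBall.trans hK
  have hKc : IsCompact (closedBall c (2 * (ε / 4))) := isCompact_closedBall c _
  haveI : IsFiniteMeasure (volume.restrict (closedBall c (2 * (ε / 4)))) :=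
    ⟨by rw [Measure.restrict_apply_univ]; exact hKc.measure_lt_top⟩
  have hint : IntegrableOn f (closedBall c (2 * (ε / 4))) :=
    (hf _ hKc hK).integrable (by norm_num)
  obtain ⟨g, hg, hfg⟩ := weyl_ball hd hr (hint.mono_set ball_subset_closedBall)
    (fun φ hφ hs => h φ hφ (hs.trans hsub))
  exact ⟨ε / 4, g, hr, (ball_subset_ball (by linarith)).trans hsub, hg, hfg⟩

theorem weyl (hd : 2 ≤ d) {V : Set (EE d)} (hV : IsOpen V) {f : EE d → ℝ} (hf : L2loc V f)
    (h : ∀ φ : EE d → ℝ, IsTest φ → tsupport φ ⊆ V → ∫ x, f x * ∑ i, pd i (pd i φ) x = 0) :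
    ∃ g : EE d → ℝ, Hm V g ∧ ∀ᵐ x ∂(volume.restrict V), f x = g x := by
  choose! r G hr hrV hG hfG using w3_local hd hV hf h
  let g : EE d → ℝ := fun x => G x x
  have hgG : ∀ c ∈ V, ∀ x ∈ ball c (r c), g x = G c x := by
    intro c hc x hx
    have hxV : x ∈ V := hrV c hc hx
    have hO : IsOpen (ball c (r c) ∩ ball x (r x)) := isOpen_ball.inter isOpen_ball
    have h1 : ∀ᵐ y ∂(volume.restrict (ball c (r c) ∩ ball x (r x))), f y = G c y :=
      ae_restrict_of_ae_restrict_of_subset inter_subset_left (hfG c hc)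
    have h2 : ∀ᵐ y ∂(volume.restrict (ball c (r c) ∩ ball x (r x))), f y = G x y :=
      ae_restrict_of_ae_restrict_of_subset inter_subset_right (hfG x hxV)
    refine eq_of_ae_eq hO ((hG x hxV).1.continuousOn.mono inter_subset_right)
      ((hG c hc).1.continuousOn.mono inter_subset_left) ?_ x
      ⟨hx, mem_ball_self (hr x hxV)⟩
    filter_upwards [h1, h2] with y hy1 hy2
    rw [← hy1, ← hy2]
  have hev : ∀ c ∈ V, g =ᶠ[𝓝 c] G c := by
    intro c hc
    filter_upwards [isOpen_ball.mem_nhds (mem_ball_self (hr c hc))] with x hx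
    exact hgG c hc x hx
  refine ⟨g, ⟨?_, ?_⟩, ?_⟩
  · intro c hc
    have h1 : ContDiffAt ℝ ∞ (G c) c :=
      (hG c hc).1.contDiffAt (isOpen_ball.mem_nhds (mem_ball_self (hr c hc)))
    exact (h1.congr_of_eventuallyEq (hev c hc)).contDiffWithinAt
  · intro c hc
    rw [← (hG c hc).2 c (mem_ball_self (hr c hc))]
    refine Finset.sum_congr rfl fun i _ => ?_
    have h2 : pd i g =ᶠ[𝓝 c] pd i (G c) := by
      filter_upwards [(hev c hc).eventually_nhds] with y hy
      exact (pd_congr hy i).eq_of_nhds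
    exact (pd_congr h2 i).eq_of_nhds
  · rw [ae_restrict_iff' hV.measurableSet, ae_iff]
    refine measure_null_of_locally_null _ fun x hx => ?_
    have hxV : x ∈ V := by
      by_contra hcon
      exact hx fun h => absurd h hcon
    refine ⟨{y | ¬(y ∈ V → f y = g y)} ∩ ball x (r x),
      inter_mem self_mem_nhdsWithin (mem_nhdsWithin_of_mem_nhds
        (isOpen_ball.mem_nhds (mem_ball_self (hr x hxV)))), ?_⟩
    have h1 := hfG x hxV
    rw [ae_restrict_iff' measurableSet_ball, ae_iff] at h1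
    refine measure_mono_null ?_ h1
    rintro y ⟨hy, hyb⟩ hcon
    exact hy fun _ => (hcon hyb).trans (hgG x hxV y hyb).symm

end Pool.Agent.MP_0643f8_an.U
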