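import Mathlib
import Pool.Agent.Lib.MP_0643f8_an.U.W1_WD
import Pool.Agent.Lib.MP_0643f8_an.U.L1_Lame

/-!
# Interior regularity for the Lame system

Let `θ = ∑ G j j`, `κ = (λ+μ)/(2μ)`.
* `θ` is weakly harmonic: test the `k`-th equation with `∂_k ψ` and sum over `k`:
  `∫ (λ θ Δψ + μ ∑ (G k i + G i k) ∂ᵢ∂_kψ) = 0` and
  `∫ G k i ∂ᵢ∂_kψ = - ∫ u_k ∂ᵢ∂ᵢ∂_kψ`, so `∑ ∫ G k i ∂ᵢ∂_kψ = - ∑ ∫ u_k ∂_k Δψ = ∫ θ Δψ`;
  altogether `(λ + 2μ) ∫ θ Δψ = 0`.
* `u_k + κ x_k θ` is weakly harmonic: `∫ ∑ᵢ G k i ∂ᵢψ = - ∫ u_k Δψ`,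
  `∫ ∑ᵢ G i k ∂ᵢψ = - ∑ ∫ uᵢ ∂_k∂ᵢψ = ∫ θ ∂_kψ`, so the equation reads
  `(λ+μ) ∫ θ ∂_kψ = μ ∫ u_k Δψ`; and `∫ x_k θ Δψ = ∫ θ (Δ(x_k ψ) - 2 ∂_kψ) = - 2 ∫ θ ∂_kψ`.
* Weyl's lemma for both; `ũ = Φ - κ x θ̃` is smooth; `G = grd ũ` by `wd_unique`, `wd_smooth`;
  `dv ũ = θ̃` (continuous functions equal almost everywhere).
-/

set_option autoImplicit false

open MeasureTheory Metric Set Filter Topology
open scoped ContDiff

namespace Pool.Agent.MP_0643f8_an.U
variable {d : ℕ}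

private theorem w4_test_pd {φ : EE d → ℝ} (hφ : IsTest φ) (i : Fin d) : IsTest (pd i φ) :=
  ⟨contDiffOn_univ.1 (pd_contDiffOn isOpen_univ (contDiffOn_univ.2 hφ.1) i),
    hφ.2.fderiv_apply ℝ (EuclideanSpace.single i (1 : ℝ))⟩

private theorem w4_supp_pd (φ : EE d → ℝ) (i : Fin d) : tsupport (pd i φ) ⊆ tsupport φ :=
  tsupport_fderiv_apply_subset ℝ (EuclideanSpace.single i (1 : ℝ))

private theorem w4_int {V : Set (EE d)} {f φ : EE d → ℝ} (hf : L2loc V f) (hφ : IsTest φ)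
    (hs : tsupport φ ⊆ V) : Integrable (fun x => f x * φ x) :=
  l2loc_integrable hf hφ.1.continuous hφ.2 hs

private theorem w4_c2 {φ : EE d → ℝ} (hφ : IsTest φ) (x : EE d) : ContDiffAt ℝ 2 φ x :=
  (hφ.1.of_le (WithTop.coe_le_coe.2 le_top)).contDiffAt

private theorem w4_eq {V : Set (EE d)} {lam mu : ℝ}
    {u : Fin d → EE d → ℝ} {G : Fin d → Fin d → EE d → ℝ}
    (hu : ∀ k, WD V (u k) (G k))
    (h : ∀ φ : EE d → ℝ, IsTest φ → tsupport φ ⊆ V → ∀ k,
      ∫ x, ∑ i, sig lam mu G i k x * pd i φ x = 0) {φ : EE d → ℝ} (hφ : IsTest φ)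
    (hφV : tsupport φ ⊆ V) (k : Fin d) :
    lam * (∫ x, (∑ j, G j j x) * pd k φ x) +
      mu * ∑ i, ((∫ x, G k i x * pd i φ x) + ∫ x, G i k x * pd i φ x) = 0 := by
  have hI : ∀ a b c, Integrable (fun x => G a b x * pd c φ x) := fun a b c =>
    w4_int ((hu a).2.1 b) (w4_test_pd hφ c) ((w4_supp_pd φ c).trans hφV)
  have h1 : ∀ x, ∑ i, sig lam mu G i k x * pd i φ x =
      lam * ((∑ j, G j j x) * pd k φ x) +
        mu * ∑ i, (G k i x * pd i φ x + G i k x * pd i φ x) := by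
    intro x
    unfold sig
    have h2 : ∀ i, (lam * (if i = k then ∑ j, G j j x else 0) + mu * (G k i x + G i k x)) *
        pd i φ x = (if i = k then lam * ((∑ j, G j j x) * pd k φ x) else 0) +
          mu * (G k i x * pd i φ x + G i k x * pd i φ x) := by
      intro i
      by_cases hik : i = k
      · subst hik
        simp only [if_true]
        ring
      · simp only [if_neg hik]
        ring
    rw [Finset.sum_congr rfl fun i _ => h2 i, Finset.sum_add_distrib, Finset.sum_ite_eq' Finset.univ k,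
      if_pos (Finset.mem_univ k), Finset.mul_sum]
  have h3 : Integrable (fun x => (∑ j, G j j x) * pd k φ x) := by
    have h4 : (fun x => (∑ j, G j j x) * pd k φ x) = fun x => ∑ j, G j j x * pd k φ x :=
      funext fun x => Finset.sum_mul _ _ _
    rw [h4]
    exact integrable_finsetSum _ fun j _ => hI j j k
  have hS : ∀ i, Integrable (fun x => G k i x * pd i φ x + G i k x * pd i φ x) :=
    fun i => (hI k i i).add (hI i k i)
  have h5 : Integrable (fun x => ∑ i, (G k i x * pd i φ x + G i k x * pd i φ x)) :=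
    integrable_finsetSum _ fun i _ => hS i
  have h6 := h φ hφ hφV k
  rw [integral_congr_ae (Eventually.of_forall h1), integral_add (h3.const_mul _) (h5.const_mul _),
    integral_const_mul, integral_const_mul,
    integral_finsetSum _ fun i _ => hS i] at h6
  rw [Finset.sum_congr rfl fun i _ => (integral_add (hI k i i) (hI i k i)).symm]
  exact h6

/-- `∫ G a b ∂_b φ = ∫ G a a ∂_a ...`: exchange of derivatives -/
private theorem w4_swap {V : Set (EE d)}
    {u : Fin d → EE d → ℝ} {G : Fin d → Fin d → EE d → ℝ}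
    (hu : ∀ k, WD V (u k) (G k)) {φ : EE d → ℝ} (hφ : IsTest φ)
    (hφV : tsupport φ ⊆ V) (a b c : Fin d) :
    ∫ x, G a b x * pd c φ x = ∫ x, G a c x * pd b φ x := by
  have h1 := (hu a).2.2 (pd c φ) (w4_test_pd hφ c) ((w4_supp_pd φ c).trans hφV) b
  have h2 := (hu a).2.2 (pd b φ) (w4_test_pd hφ b) ((w4_supp_pd φ b).trans hφV) c
  have h3 : ∀ x, u a x * pd b (pd c φ) x = u a x * pd c (pd b φ) x := fun x => by
    rw [pd_comm (w4_c2 hφ x)]
  rw [integral_congr_ae (Eventually.of_forall h3)] at h1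
  linarith

private theorem w4_lap {V : Set (EE d)} {f ψ : EE d → ℝ} (hf : L2loc V f) (hψ : IsTest ψ)
    (hψV : tsupport ψ ⊆ V) :
    ∫ x, f x * ∑ i, pd i (pd i ψ) x = ∑ i, ∫ x, f x * pd i (pd i ψ) x := by
  rw [← integral_finsetSum _ fun i _ => w4_int hf (w4_test_pd (w4_test_pd hψ i) i)
    ((w4_supp_pd _ i).trans ((w4_supp_pd ψ i).trans hψV))]
  exact integral_congr_ae (Eventually.of_forall fun x => Finset.mul_sum _ _ _)

private theorem w4_tr {V : Set (EE d)}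
    {u : Fin d → EE d → ℝ} {G : Fin d → Fin d → EE d → ℝ}
    (hu : ∀ k, WD V (u k) (G k)) {φ : EE d → ℝ} (hφ : IsTest φ)
    (hφV : tsupport φ ⊆ V) :
    ∫ x, (∑ j, G j j x) * φ x = ∑ j, ∫ x, G j j x * φ x := by
  rw [← integral_finsetSum _ fun j _ => w4_int ((hu j).2.1 j) hφ hφV]
  exact integral_congr_ae (Eventually.of_forall fun x => Finset.sum_mul _ _ _)

/-- the `k`-th equation after exchanging derivatives -/
private theorem w4_eq2 {V : Set (EE d)} {lam mu : ℝ}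
    {u : Fin d → EE d → ℝ} {G : Fin d → Fin d → EE d → ℝ}
    (hu : ∀ k, WD V (u k) (G k))
    (h : ∀ φ : EE d → ℝ, IsTest φ → tsupport φ ⊆ V → ∀ k,
      ∫ x, ∑ i, sig lam mu G i k x * pd i φ x = 0) {φ : EE d → ℝ} (hφ : IsTest φ)
    (hφV : tsupport φ ⊆ V) (k : Fin d) :
    (lam + mu) * (∫ x, (∑ j, G j j x) * pd k φ x) + mu * ∑ i, ∫ x, G k i x * pd i φ x = 0 := by
  have h1 := w4_eq hu h hφ hφV k
  rw [Finset.sum_add_distrib] at h1
  have h2 : ∑ i, ∫ x, G i k x * pd i φ x = ∫ x, (∑ j, G j j x) * pd k φ x := by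
    rw [w4_tr hu (w4_test_pd hφ k) ((w4_supp_pd φ k).trans hφV)]
    exact Finset.sum_congr rfl fun i _ => w4_swap hu hφ hφV i k i
  rw [h2] at h1
  linarith

theorem weak_theta {V : Set (EE d)} (hV : IsOpen V) {lam mu : ℝ}
    (hl : 0 < lam + 2 * mu) {u : Fin d → EE d → ℝ} {G : Fin d → Fin d → EE d → ℝ}
    (hu : ∀ k, WD V (u k) (G k))
    (h : ∀ φ : EE d → ℝ, IsTest φ → tsupport φ ⊆ V → ∀ k,
      ∫ x, ∑ i, sig lam mu G i k x * pd i φ x = 0) {ψ : EE d → ℝ} (hψ : IsTest ψ)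
    (hψV : tsupport ψ ⊆ V) : ∫ x, (∑ j, G j j x) * ∑ i, pd i (pd i ψ) x = 0 := by
  have hp : ∀ i, IsTest (pd i ψ) := fun i => w4_test_pd hψ i
  have hpV : ∀ i, tsupport (pd i ψ) ⊆ V := fun i => (w4_supp_pd ψ i).trans hψV
  have hpp : ∀ i, IsTest (pd i (pd i ψ)) := fun i => w4_test_pd (hp i) i
  have hppV : ∀ i, tsupport (pd i (pd i ψ)) ⊆ V := fun i => (w4_supp_pd _ i).trans (hpV i)
  -- the total
  have h1 : ∀ k, (lam + mu) * (∫ x, (∑ j, G j j x) * pd k (pd k ψ) x) +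
      mu * ∑ i, ∫ x, G k k x * pd i (pd i ψ) x = 0 := by
    intro k
    have h2 := w4_eq2 hu h (hp k) (hpV k) k
    have h3 : ∀ i, ∫ x, G k i x * pd i (pd k ψ) x = ∫ x, G k k x * pd i (pd i ψ) x := by
      intro i
      have h4 : ∀ x, G k i x * pd i (pd k ψ) x = G k i x * pd k (pd i ψ) x := fun x => by
        rw [pd_comm (w4_c2 hψ x)]
      rw [integral_congr_ae (Eventually.of_forall h4)]
      exact w4_swap hu (hp i) (hpV i) k i k
    rw [Finset.sum_congr rfl fun i _ => h3 i] at h2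
    exact h2
  have h5 : ∑ k, ((lam + mu) * (∫ x, (∑ j, G j j x) * pd k (pd k ψ) x) +
      mu * ∑ i, ∫ x, G k k x * pd i (pd i ψ) x) = 0 := Finset.sum_eq_zero fun k _ => h1 k
  rw [Finset.sum_add_distrib, ← Finset.mul_sum, ← Finset.mul_sum] at h5
  have h6 : ∫ x, (∑ j, G j j x) * ∑ i, pd i (pd i ψ) x =
      ∑ i, ∫ x, (∑ j, G j j x) * pd i (pd i ψ) x := by
    have h7 : ∀ i, Integrable fun x => (∑ j, G j j x) * pd i (pd i ψ) x := by
      intro i
      have h8 : (fun x => (∑ j, G j j x) * pd i (pd i ψ) x) =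
          fun x => ∑ j, G j j x * pd i (pd i ψ) x := funext fun x => Finset.sum_mul _ _ _
      rw [h8]
      exact integrable_finsetSum _ fun j _ => w4_int ((hu j).2.1 j) (hpp i) (hppV i)
    rw [← integral_finsetSum _ fun i _ => h7 i]
    exact integral_congr_ae (Eventually.of_forall fun x => Finset.mul_sum _ _ _)
  have h9 : ∑ k, ∑ i, ∫ x, G k k x * pd i (pd i ψ) x =
      ∑ i, ∫ x, (∑ j, G j j x) * pd i (pd i ψ) x := by
    rw [Finset.sum_comm]
    exact Finset.sum_congr rfl fun i _ => (w4_tr hu (hpp i) (hppV i)).symm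
  rw [h9] at h5
  rw [h6]
  have h10 : (lam + 2 * mu) * ∑ i, ∫ x, (∑ j, G j j x) * pd i (pd i ψ) x = 0 := by linarith
  exact (mul_eq_zero.1 h10).resolve_left hl.ne'

theorem weak_phi {V : Set (EE d)} (hV : IsOpen V) {lam mu : ℝ} (hmu : 0 < mu)
    (hl : 0 < lam + 2 * mu) {u : Fin d → EE d → ℝ} {G : Fin d → Fin d → EE d → ℝ}
    (hu : ∀ k, WD V (u k) (G k))
    (h : ∀ φ : EE d → ℝ, IsTest φ → tsupport φ ⊆ V → ∀ k,
      ∫ x, ∑ i, sig lam mu G i k x * pd i φ x = 0) {ψ : EE d → ℝ} (hψ : IsTest ψ)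
    (hψV : tsupport ψ ⊆ V) (k : Fin d) :
    ∫ x, (u k x + (lam + mu) / (2 * mu) * (x k * ∑ j, G j j x)) * ∑ i, pd i (pd i ψ) x = 0 := by
  have hp : ∀ i, IsTest (pd i ψ) := fun i => w4_test_pd hψ i
  have hpV : ∀ i, tsupport (pd i ψ) ⊆ V := fun i => (w4_supp_pd ψ i).trans hψV
  have hpp : ∀ i, IsTest (pd i (pd i ψ)) := fun i => w4_test_pd (hp i) i
  have hppV : ∀ i, tsupport (pd i (pd i ψ)) ⊆ V := fun i => (w4_supp_pd _ i).trans (hpV i)
  have hcoord : ContDiff ℝ ∞ (fun y : EE d => y k) :=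
    (EuclideanSpace.proj k : EE d →L[ℝ] ℝ).contDiff
  -- the test function `x_k ψ`
  have hx : IsTest (fun y : EE d => y k * ψ y) := ⟨hcoord.mul hψ.1, hψ.2.mul_left⟩
  have hxV : tsupport (fun y : EE d => y k * ψ y) ⊆ V :=
    (tsupport_mul_subset_right (f := fun y : EE d => y k) (g := ψ)).trans hψV
  -- integrability of `θ φ`
  have hT : ∀ φ : EE d → ℝ, IsTest φ → tsupport φ ⊆ V →
      Integrable fun x => (∑ j, G j j x) * φ x := by
    intro φ hφ hφV
    have h8 : (fun x => (∑ j, G j j x) * φ x) =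
        fun x => ∑ j, G j j x * φ x := funext fun x => Finset.sum_mul _ _ _
    rw [h8]
    exact integrable_finsetSum _ fun j _ => w4_int ((hu j).2.1 j) hφ hφV
  -- the Laplacian as a test function
  have hL : IsTest (fun x => ∑ i, pd i (pd i ψ) x) := by
    refine ⟨ContDiff.sum fun i _ => (hpp i).1, ?_⟩
    refine HasCompactSupport.intro hψ.2 fun x hx => ?_
    refine Finset.sum_eq_zero fun i _ => ?_
    exact image_eq_zero_of_notMem_tsupport fun h1 =>
      hx (w4_supp_pd ψ i (w4_supp_pd (pd i ψ) i h1))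
  have hLs : tsupport (fun x => ∑ i, pd i (pd i ψ) x) ⊆ tsupport ψ := by
    refine closure_minimal ?_ (isClosed_tsupport ψ)
    intro x hx
    by_contra h1
    refine hx (Finset.sum_eq_zero fun i _ => ?_)
    exact image_eq_zero_of_notMem_tsupport fun h2 =>
      h1 (w4_supp_pd ψ i (w4_supp_pd (pd i ψ) i h2))
  have hxL : IsTest (fun x : EE d => x k * ∑ i, pd i (pd i ψ) x) :=
    ⟨hcoord.mul hL.1, hL.2.mul_left⟩
  have hxLV : tsupport (fun x : EE d => x k * ∑ i, pd i (pd i ψ) x) ⊆ V :=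
    (tsupport_mul_subset_right (f := fun y : EE d => y k)
      (g := fun x => ∑ i, pd i (pd i ψ) x)).trans (hLs.trans hψV)
  -- step 1
  have h1 := weak_theta hV hl hu h hx hxV
  have h2 : ∀ x : EE d, (∑ j, G j j x) * ∑ i, pd i (pd i (fun y : EE d => y k * ψ y)) x =
      (∑ j, G j j x) * (x k * ∑ i, pd i (pd i ψ) x) + 2 * ((∑ j, G j j x) * pd k ψ x) := by
    intro x
    rw [lap_coord_mul (w4_c2 hψ x)]
    ring
  rw [integral_congr_ae (Eventually.of_forall h2),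
    integral_add (hT _ hxL hxLV) ((hT _ (hp k) (hpV k)).const_mul 2), integral_const_mul] at h1
  -- step 2
  have h3 := w4_eq2 hu h hψ hψV k
  have h4 : ∑ i, ∫ x, G k i x * pd i ψ x = -∫ x, u k x * ∑ i, pd i (pd i ψ) x := by
    rw [w4_lap (hu k).1 hψ hψV, ← Finset.sum_neg_distrib]
    refine Finset.sum_congr rfl fun i _ => ?_
    rw [(hu k).2.2 (pd i ψ) (hp i) (hpV i) i, neg_neg]
  rw [h4] at h3
  -- conclusion
  have h5 : ∀ x : EE d, (u k x + (lam + mu) / (2 * mu) * (x k * ∑ j, G j j x)) *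
      ∑ i, pd i (pd i ψ) x = u k x * ∑ i, pd i (pd i ψ) x +
        (lam + mu) / (2 * mu) * ((∑ j, G j j x) * (x k * ∑ i, pd i (pd i ψ) x)) := by
    intro x
    ring
  rw [integral_congr_ae (Eventually.of_forall h5),
    integral_add (w4_int (hu k).1 hL (hLs.trans hψV)) ((hT _ hxL hxLV).const_mul _),
    integral_const_mul]
  set A := ∫ x, u k x * ∑ i, pd i (pd i ψ) x
  set B := ∫ x : EE d, (∑ j, G j j x) * (x k * ∑ i, pd i (pd i ψ) x)
  set D := ∫ x, (∑ j, G j j x) * pd k ψ x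
  have h6 : B = -2 * D := by linarith
  rw [h6]
  have h7 : mu * (A + (lam + mu) / (2 * mu) * (-2 * D)) = mu * A - (lam + mu) * D := by
    field_simp
    try ring
  have h8 : mu * (A + (lam + mu) / (2 * mu) * (-2 * D)) = 0 := by
    rw [h7]
    linarith
  exact (mul_eq_zero.1 h8).resolve_left hmu.ne'

end Pool.Agent.MP_0643f8_an.U
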