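import Mathlib
import Pool.Agent.Lib.MP_0643f8_an.U.W4a_Weak
import Pool.Agent.Lib.MP_0643f8_an.U.W3_Weyl

/-!
# Interior regularity for the Lame system

Let `θ = ∑ G j j`, `κ = (λ+μ)/(2μ)`.
* `θ` is weakly harmonic: test the `k`-th equation with `∂_k ψ` and sum over `k`:
  `∫ (λ θ Δψ + μ ∑ (G k i + G i k) ∂ᵢ∂_kψ) = 0` and
  `∫ G k i ∂ᵢ∂_kψ = - ∫ u_k ∂ᵢ∂ᵢ∂_kψ`, so `∑ ∫ G k i ∂ᵢ∂_kψ = - ∑ ∫ u_k ∂_k Δψ = ∫ θ Δψ`;
  altogether `(λ + 2μ) ∫ θ Δψ = 0`.
* `u_k + κ x_k θ` is weakly harmonic: `∫ ∑ᵢ G k i ∂ᵢψ = - ∫ u_k Δψ`,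
  `∫ ∑ᵢ G i k ∂ᵢψ = - ∑ ∫ uᵢ ∂_k∂ᵢψ = ∫ θ ∂_kψ`, so the equation reads
  `(λ+μ) ∫ θ ∂_kψ = μ ∫ u_k Δψ`; and `∫ x_k θ Δψ = ∫ θ (Δ(x_k ψ) - 2 ∂_kψ) = - 2 ∫ θ ∂_kψ`.
* Weyl's lemma for both; `ũ = Φ - κ x θ̃` is smooth; `G = grd ũ` by `wd_unique`, `wd_smooth`;
  `dv ũ = θ̃` (continuous functions equal almost everywhere).
-/

set_option autoImplicit false

open MeasureTheory Metric Set Filter Topology
open scoped ContDiff

namespace Pool.Agent.MP_0643f8_an.U
variable {d : ℕ}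

private theorem w4_sum {V : Set (EE d)} {ι : Type*} (s : Finset ι) {f : ι → EE d → ℝ}
    (hf : ∀ i ∈ s, L2loc V (f i)) : L2loc V (fun x => ∑ i ∈ s, f i x) := by
  classical
  induction s using Finset.induction_on with
  | empty =>
    simp only [Finset.sum_empty]
    exact l2loc_of_continuousOn continuousOn_const
  | insert a s ha ih =>
    have h1 : (fun x => ∑ i ∈ insert a s, f i x) = fun x => f a x + ∑ i ∈ s, f i x := by
      funext x
      rw [Finset.sum_insert ha]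
    rw [h1]
    exact l2loc_add (hf a (Finset.mem_insert_self a s))
      (ih fun i hi => hf i (Finset.mem_insert_of_mem hi))

private theorem w4_coord {V : Set (EE d)} {f : EE d → ℝ} (hf : L2loc V f) (k : Fin d) :
    L2loc V (fun x => x k * f x) := by
  intro K hK hKV
  have hc : Continuous fun x : EE d => x k := by fun_prop
  obtain ⟨M, hM⟩ := hK.exists_bound_of_continuousOn hc.continuousOn
  have hb : Measurable (fun x : EE d => max (-|M|) (min (x k) |M|)) :=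
    (continuous_const.max (hc.min continuous_const)).measurable
  have h1 : L2loc V (fun x => max (-|M|) (min (x k) |M|) * f x) := by
    refine l2loc_bdd_mul hf hb (M := |M|) fun x => ?_
    rw [abs_le]
    refine ⟨le_max_left _ _, max_le ?_ (min_le_right _ _)⟩
    linarith [abs_nonneg M]
  refine (h1 K hK hKV).ae_eq ?_
  filter_upwards [ae_restrict_mem hK.measurableSet] with x hx
  have h2 : |x k| ≤ |M| := (hM x hx).trans (le_abs_self M)
  rw [abs_le] at h2
  rw [min_eq_left h2.2, max_eq_right h2.1]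

theorem lreg (hd : 2 ≤ d) {V : Set (EE d)} (hV : IsOpen V) {lam mu : ℝ} (hmu : 0 < mu)
    (hl : 0 < lam + 2 * mu) {u : Fin d → EE d → ℝ} {G : Fin d → Fin d → EE d → ℝ}
    (hu : ∀ k, WD V (u k) (G k))
    (h : ∀ φ : EE d → ℝ, IsTest φ → tsupport φ ⊆ V → ∀ k,
      ∫ x, ∑ i, sig lam mu G i k x * pd i φ x = 0) :
    ∃ v : Fin d → EE d → ℝ, IsLame ((lam + mu) / (2 * mu)) V v ∧
      (∀ k, ∀ᵐ x ∂(volume.restrict V), u k x = v k x) ∧
      ∀ k i, ∀ᵐ x ∂(volume.restrict V), G k i x = grd v k i x := by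
  set κ : ℝ := (lam + mu) / (2 * mu) with hκ
  -- the divergence
  have hθ2 : L2loc V (fun x => ∑ j, G j j x) := w4_sum _ fun j _ => (hu j).2.1 j
  obtain ⟨θ, hθ, hθe⟩ := weyl hd hV hθ2 fun φ hφ hφV =>
    weak_theta hV hl hu h hφ hφV
  -- the harmonic part
  have hΦ : ∀ k, ∃ Φ : EE d → ℝ, Hm V Φ ∧ ∀ᵐ x ∂(volume.restrict V),
      u k x + κ * (x k * ∑ j, G j j x) = Φ x := by
    intro k
    refine weyl hd hV ?_ fun φ hφ hφV => weak_phi hV hmu hl hu h hφ hφV k
    exact l2loc_add (hu k).1 (l2loc_cmul (w4_coord hθ2 k) κ)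
  choose Φ hΦm hΦe using hΦ
  have hvs : ∀ k, ContDiffOn ℝ ∞ (fun x => Φ k x - κ * (x k * θ x)) V := by
    intro k
    have hc : ContDiff ℝ ∞ (fun x : EE d => x k) := by fun_prop
    exact (hΦm k).1.sub ((hc.contDiffOn.mul hθ.1).const_smul κ)
  have hve : ∀ k, ∀ᵐ x ∂(volume.restrict V), u k x = Φ k x - κ * (x k * θ x) := by
    intro k
    filter_upwards [hΦe k, hθe] with x h1 h2
    rw [← h1, h2]
    ring
  have hG : ∀ k i, ∀ᵐ x ∂(volume.restrict V),
      G k i x = pd i (fun x => Φ k x - κ * (x k * θ x)) x := by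
    intro k i
    have h1 : WD V (fun x => Φ k x - κ * (x k * θ x)) (G k) := by
      refine wd_congr hV.measurableSet (hu k) ?_ fun i => ae_of_all _ fun x => rfl
      filter_upwards [hve k] with x hx
      exact hx.symm
    exact wd_unique hV h1 (wd_smooth hV (hvs k)) i
  refine ⟨fun k x => Φ k x - κ * (x k * θ x), ⟨θ, Φ, hθ, hΦm, fun x _ k => rfl, ?_⟩, hve, ?_⟩
  · -- the divergence of the field
    refine eq_of_ae_eq hV ?_ hθ.1.continuousOn ?_
    · unfold dv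
      exact continuousOn_finsetSum _ fun k _ => (pd_contDiffOn hV (hvs k) k).continuousOn
    · have h1 : ∀ᵐ x ∂(volume.restrict V), ∀ k,
          G k k x = pd k (fun x => Φ k x - κ * (x k * θ x)) x := by
        rw [ae_all_iff]
        exact fun k => hG k k
      filter_upwards [h1, hθe] with x h2 h3
      rw [← h3]
      unfold dv
      exact (Finset.sum_congr rfl fun k _ => h2 k).symm
  · intro k i
    exact hG k i

end Pool.Agent.MP_0643f8_an.U
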