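import Mathlib
import Pool.Agent.Lib.MP_0643f8_an.U.M2_Start
import Pool.Agent.Lib.MP_0643f8_an.U.M1_Topo
import Pool.Agent.Lib.MP_0643f8_an.U.W4_Lreg

/-!
# First consequences of the weak formulation
-/

set_option autoImplicit false

open MeasureTheory Metric Set Filter Topology
open scoped ContDiff

namespace Pool.Agent.MP_0643f8_an.U
variable {d : ℕ} (Z : Cst d)

private theorem m2b_ind_memLp {Ω : Set (EE d)} (hΩ : IsOpen Ω) {f : EE d → ℝ}
    (hf : MemLp f 2 (volume.restrict Ω)) : MemLp (Ω.indicator f) 2 volume :=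
  (memLp_indicator_iff_restrict hΩ.measurableSet).2 hf

private theorem m2b_l2loc {V : Set (EE d)} {f : EE d → ℝ} (hf : MemLp f 2 volume) :
    L2loc V f := fun _ _ _ => hf.restrict _

private theorem m2b_pd_cont {φ : EE d → ℝ} (hφ : IsTest φ) (i : Fin d) :
    Continuous (pd i φ) := by
  unfold pd
  exact (hφ.1.continuous_fderiv (by simp)).clm_apply continuous_const

private theorem m2b_pd_supp {φ : EE d → ℝ} (hφ : IsTest φ) (i : Fin d) :
    HasCompactSupport (pd i φ) := by
  unfold pd
  exact (hφ.2.fderiv ℝ).comp_left (g := fun L : EE d →L[ℝ] ℝ =>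
    L (EuclideanSpace.single i (1 : ℝ))) (by simp)

private theorem m2b_pd_memLp {φ : EE d → ℝ} (hφ : IsTest φ) (i : Fin d) (μ : Measure (EE d))
    [IsFiniteMeasureOnCompacts μ] : MemLp (pd i φ) 2 μ :=
  (m2b_pd_cont hφ i).memLp_of_hasCompactSupport (m2b_pd_supp hφ i)

private theorem m2b_pd_zero {φ : EE d → ℝ} {x : EE d} (hx : x ∉ tsupport φ) (i : Fin d) :
    pd i φ x = 0 := by
  have h1 : φ =ᶠ[𝓝 x] fun _ => 0 := notMem_tsupport_iff_eventuallyEq.1 hx
  rw [(pd_congr h1 i).self_of_nhds, pd_const]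

private theorem m2b_test_zero : IsTest (fun _ : EE d => (0 : ℝ)) :=
  ⟨contDiff_const, HasCompactSupport.zero⟩

/-- the integrand of the weak formulation for a test field with one nonzero component -/
private theorem m2b_int_one {D : Set (EE d)} {lam mu lam' mu' : ℝ} {G : Fin d → Fin d → EE d → ℝ}
    {φ : EE d → ℝ} (k : Fin d) (x : EE d) :
    (coef D lam lam' x * (∑ j, G j j x) *
        (∑ j, pd j ((fun j : Fin d => if j = k then φ else fun _ => 0) j) x) +
      coef D mu mu' x * ∑ j, ∑ i, (G j i x + G i j x) *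
        pd i ((fun j : Fin d => if j = k then φ else fun _ => 0) j) x) =
    coef D lam lam' x * (∑ j, G j j x) * pd k φ x +
      coef D mu mu' x * ∑ i, (G k i x + G i k x) * pd i φ x := by
  have h1 : ∑ j, pd j ((fun j : Fin d => if j = k then φ else fun _ => 0) j) x = pd k φ x := by
    rw [Finset.sum_eq_single k]
    · simp
    · intro j _ hj
      simp only [if_neg hj]
      exact pd_const 0 j x
    · intro h
      exact absurd (Finset.mem_univ k) h
  have h2 : ∑ j, ∑ i, (G j i x + G i j x) *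
        pd i ((fun j : Fin d => if j = k then φ else fun _ => 0) j) x =
      ∑ i, (G k i x + G i k x) * pd i φ x := by
    rw [Finset.sum_eq_single k]
    · simp
    · intro j _ hj
      simp only [if_neg hj]
      refine Finset.sum_eq_zero fun i _ => ?_
      rw [pd_const, mul_zero]
    · intro h
      exact absurd (Finset.mem_univ k) h
  rw [h1, h2]

private theorem m2b_weak_one {Ω D : Set (EE d)} {lam mu lam' mu' : ℝ} {σ : Measure (EE d)}
    {g : Fin d → EE d → ℝ} {u : Fin d → EE d → ℝ} {G : Fin d → Fin d → EE d → ℝ}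
    (s : IsWeakSolution Ω D lam mu lam' mu' σ g u G) {φ : EE d → ℝ} (hφ : IsTest φ) (k : Fin d) :
    ∫ x in Ω, (coef D lam lam' x * (∑ j, G j j x) * pd k φ x +
      coef D mu mu' x * ∑ i, (G k i x + G i k x) * pd i φ x) =
    ∫ x, ∑ j, g j x * ((fun j : Fin d => if j = k then φ else fun _ => 0) j) x ∂σ := by
  have h1 := s.weak (fun j : Fin d => if j = k then φ else fun _ => 0) (fun j => by
    by_cases hj : j = k
    · simp only [if_pos hj]; exact hφ
    · simp only [if_neg hj]; exact m2b_test_zero)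
  rw [← h1]
  refine integral_congr_ae (Filter.Eventually.of_forall fun x => ?_)
  exact (m2b_int_one (D := D) (lam := lam) (mu := mu) (lam' := lam') (mu' := mu') (G := G)
    (φ := φ) k x).symm

/-- off the inclusion the integrand is the one with the stress -/
private theorem m2b_off {D : Set (EE d)} {lam mu lam' mu' : ℝ} {G : Fin d → Fin d → EE d → ℝ}
    {φ : EE d → ℝ} (hD : ∀ x ∈ D, x ∉ tsupport φ) (k : Fin d) (x : EE d) :
    coef D lam lam' x * (∑ j, G j j x) * pd k φ x +
      coef D mu mu' x * ∑ i, (G k i x + G i k x) * pd i φ x =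
    ∑ i, sig lam mu G i k x * pd i φ x := by
  by_cases hx : x ∈ D
  · have h0 : ∀ i, pd i φ x = 0 := fun i => m2b_pd_zero (hD x hx) i
    simp only [h0, mul_zero, Finset.sum_const_zero, add_zero]
  · have h1 : coef D lam lam' x = lam := by simp [coef, hx]
    have h2 : coef D mu mu' x = mu := by simp [coef, hx]
    rw [h1, h2]
    unfold sig
    have h3 : ∀ i, (lam * (if i = k then ∑ j, G j j x else 0) + mu * (G k i x + G i k x)) *
        pd i φ x = (if i = k then lam * (∑ j, G j j x) * pd k φ x else 0) +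
          mu * ((G k i x + G i k x) * pd i φ x) := by
      intro i
      by_cases hi : i = k
      · subst hi; simp; ring
      · simp [hi]; ring
    rw [Finset.sum_congr rfl fun i _ => h3 i, Finset.sum_add_distrib,
      Finset.sum_ite_eq' Finset.univ k, ← Finset.mul_sum]
    simp

private theorem m2b_sig_memLp {Ω : Set (EE d)} {lam mu : ℝ} {u : Fin d → EE d → ℝ}
    {G : Fin d → Fin d → EE d → ℝ} (h : IsW12 Ω u G) (i k : Fin d) :
    MemLp (sig lam mu G i k) 2 (volume.restrict Ω) := by
  have h1 : MemLp (fun x => ∑ j, G j j x) 2 (volume.restrict Ω) :=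
    memLp_finsetSum _ fun j _ => h.memLp_grad j j
  have h2 : MemLp (fun x => if i = k then ∑ j, G j j x else 0) 2 (volume.restrict Ω) := by
    by_cases hik : i = k
    · simpa only [if_pos hik] using h1
    · simp only [if_neg hik]; exact MemLp.zero
  exact (h2.const_mul lam).add (((h.memLp_grad k i).add (h.memLp_grad i k)).const_mul mu)

private theorem m2b_sig_int {Ω : Set (EE d)} {lam mu : ℝ} {u : Fin d → EE d → ℝ}
    {G : Fin d → Fin d → EE d → ℝ} (h : IsW12 Ω u G) {φ : EE d → ℝ} (hφ : IsTest φ) (k : Fin d) :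
    IntegrableOn (fun x => ∑ i, sig lam mu G i k x * pd i φ x) Ω := by
  unfold IntegrableOn
  refine integrable_finsetSum _ fun i _ => ?_
  exact (m2b_sig_memLp h i k).integrable_mul (m2b_pd_memLp hφ i (volume.restrict Ω))

/-- Step 1: the two solutions agree off the two closed balls. The difference, extended by `0`
off `Ω`, has weak gradient `(G₁ - G₂) 1_Ω` on the whole space (`SameTrace`) and satisfies the weak
Lame equation off the two closed balls (subtract the two weak formulations); it is a Lame field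
there (`lreg`), zero far away, hence zero (`ray_out`, `lame_ident_ray`). -/
theorem agree_out {Ω : Set (EE d)} (hΩ : IsOpen Ω) (hb : Bornology.IsBounded Ω)
    {c₁ c₂ : EE d} {r₁ r₂ : ℝ} (hr₁ : 0 < r₁) (hr₂ : 0 < r₂)
    (h₁ : closedBall c₁ r₁ ⊆ Ω) (h₂ : closedBall c₂ r₂ ⊆ Ω) {σ : Measure (EE d)}
    {g : Fin d → EE d → ℝ} {u₁ u₂ : Fin d → EE d → ℝ} {G₁ G₂ : Fin d → Fin d → EE d → ℝ}
    (s₁ : IsWeakSolution Ω (ball c₁ r₁) Z.lam Z.mu Z.lam' Z.mu' σ g u₁ G₁)
    (s₂ : IsWeakSolution Ω (ball c₂ r₂) Z.lam Z.mu Z.lam' Z.mu' σ g u₂ G₂)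
    (ht : SameTrace Ω u₁ G₁ u₂ G₂) :
    (∀ k, ∀ᵐ x ∂(volume.restrict (Ω \ (closedBall c₁ r₁ ∪ closedBall c₂ r₂))),
      u₁ k x = u₂ k x) ∧
    ∀ k i, ∀ᵐ x ∂(volume.restrict (Ω \ (closedBall c₁ r₁ ∪ closedBall c₂ r₂))),
      G₁ k i x = G₂ k i x := by
  set V : Set (EE d) := (closedBall c₁ r₁ ∪ closedBall c₂ r₂)ᶜ with hVdef
  have hV : IsOpen V := (isClosed_closedBall.union isClosed_closedBall).isOpen_compl
  set w : Fin d → EE d → ℝ := fun k => Ω.indicator (fun x => u₁ k x - u₂ k x) with hw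
  set W : Fin d → Fin d → EE d → ℝ := fun k i => Ω.indicator (fun x => G₁ k i x - G₂ k i x)
    with hW
  have hwW : ∀ k, WD V (w k) (W k) := by
    intro k
    refine ⟨m2b_l2loc (m2b_ind_memLp hΩ ((s₁.w12.memLp k).sub (s₂.w12.memLp k))),
      fun i => m2b_l2loc (m2b_ind_memLp hΩ
        ((s₁.w12.memLp_grad k i).sub (s₂.w12.memLp_grad k i))), fun φ hφ _ i => ?_⟩
    have h1 := ht φ hφ k i
    rw [← integral_indicator hΩ.measurableSet, ← integral_indicator hΩ.measurableSet] at h1
    have e1 : (fun x => w k x * pd i φ x) =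
        Ω.indicator (fun x => (u₁ k x - u₂ k x) * pd i φ x) := by
      funext x
      by_cases hx : x ∈ Ω <;> simp [hw, hx]
    have e2 : (fun x => W k i x * φ x) =
        Ω.indicator (fun x => (G₁ k i x - G₂ k i x) * φ x) := by
      funext x
      by_cases hx : x ∈ Ω <;> simp [hW, hx]
    rw [e1, e2, h1]
  have hweak : ∀ φ : EE d → ℝ, IsTest φ → tsupport φ ⊆ V → ∀ k,
      ∫ x, ∑ i, sig Z.lam Z.mu W i k x * pd i φ x = 0 := by
    intro φ hφ hs k
    have hb1 : ∀ x ∈ ball c₁ r₁, x ∉ tsupport φ := fun x hx hx' =>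
      hs hx' (Or.inl (ball_subset_closedBall hx))
    have hb2 : ∀ x ∈ ball c₂ r₂, x ∉ tsupport φ := fun x hx hx' =>
      hs hx' (Or.inr (ball_subset_closedBall hx))
    have e1 := m2b_weak_one s₁ hφ k
    have e2 := m2b_weak_one s₂ hφ k
    simp only [m2b_off hb1] at e1
    simp only [m2b_off hb2] at e2
    have e3 := integral_sub (m2b_sig_int (lam := Z.lam) (mu := Z.mu) s₁.w12 hφ k)
      (m2b_sig_int (lam := Z.lam) (mu := Z.mu) s₂.w12 hφ k)
    rw [e1, e2, sub_self] at e3
    rw [← e3, ← integral_indicator hΩ.measurableSet]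
    congr 1
    funext x
    by_cases hx : x ∈ Ω
    · rw [indicator_of_mem hx, ← Finset.sum_sub_distrib]
      refine Finset.sum_congr rfl fun i _ => ?_
      have e4 : sig Z.lam Z.mu W i k x = sig Z.lam Z.mu G₁ i k x - sig Z.lam Z.mu G₂ i k x := by
        unfold sig
        simp only [hW, indicator_of_mem hx, Finset.sum_sub_distrib]
        by_cases hik : i = k
        · simp only [if_pos hik]; ring
        · simp only [if_neg hik]; ring
      rw [e4]; ring
    · rw [indicator_of_notMem hx]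
      refine Finset.sum_eq_zero fun i _ => ?_
      have e4 : sig Z.lam Z.mu W i k x = 0 := by
        unfold sig
        simp only [hW, indicator_of_notMem hx]
        simp
      rw [e4, zero_mul]
  have hl : 0 < Z.lam + 2 * Z.mu := by
    have hd := Z.hd
    have hd' : (2 : ℝ) ≤ d := by exact_mod_cast hd
    have h1 := Z.hlam
    have h2 := Z.hmu
    by_cases h3 : 0 ≤ Z.lam
    · linarith
    · push Not at h3
      nlinarith
  obtain ⟨v, hv, hwv, hWv⟩ := lreg Z.hd hV Z.hmu hl hwW hweak
  -- `v` vanishes far away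
  obtain ⟨R, hR⟩ := hb.subset_ball (0 : EE d)
  have hfar : ∀ x ∈ V, R < ‖x‖ → ∀ k, v k x = (fun (_ : Fin d) (_ : EE d) => (0 : ℝ)) k x := by
    intro x hx hxR k
    have ho : IsOpen (V ∩ {y : EE d | R < ‖y‖}) :=
      hV.inter (isOpen_lt continuous_const continuous_norm)
    have hcv : ContinuousOn (v k) (V ∩ {y : EE d | R < ‖y‖}) :=
      (lame_smooth hV hv k).continuousOn.mono inter_subset_left
    refine eq_of_ae_eq ho hcv (continuousOn_const (c := (0 : ℝ))) ?_ x ⟨hx, hxR⟩
    have h1 := ae_restrict_of_ae_restrict_of_subset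
      (inter_subset_left : V ∩ {y : EE d | R < ‖y‖} ⊆ V) (hwv k)
    filter_upwards [h1, ae_restrict_mem ho.measurableSet] with y hy hy2
    rw [← hy]
    have h3 : y ∉ Ω := by
      intro h4
      have h5 := hR h4
      rw [mem_ball_zero_iff] at h5
      exact absurd hy2.2 (not_lt.2 h5.le)
    simp [hw, h3]
  have hzero : ∀ x ∈ V, ∀ k, v k x = 0 := by
    intro x hx
    have hx' : x ∉ closedBall c₁ r₁ ∧ x ∉ closedBall c₂ r₂ := by
      rw [hVdef, mem_compl_iff, mem_union, not_or] at hx
      exact hx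
    obtain ⟨t, ht0, hray⟩ := ray_out Z.hd hr₁ hr₂ hx'.1 hx'.2
    exact lame_ident_ray Z.hd hV hv (lame_const fun _ => (0 : ℝ)) hfar ht0 fun s hs => by
      rw [hVdef, mem_compl_iff, mem_union, not_or]
      exact hray s hs
  have hgrd : ∀ x ∈ V, ∀ k i, grd v k i x = 0 := by
    intro x hx k i
    have h1 : v k =ᶠ[𝓝 x] fun _ => (0 : ℝ) := by
      filter_upwards [hV.mem_nhds hx] with y hy
      exact hzero y hy k
    show pd i (v k) x = 0
    rw [(pd_congr h1 i).self_of_nhds, pd_const]
  have hsub : Ω \ (closedBall c₁ r₁ ∪ closedBall c₂ r₂) ⊆ V := fun x hx => hx.2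
  have hmeas : MeasurableSet (Ω \ (closedBall c₁ r₁ ∪ closedBall c₂ r₂)) :=
    hΩ.measurableSet.diff (isClosed_closedBall.union isClosed_closedBall).measurableSet
  refine ⟨fun k => ?_, fun k i => ?_⟩
  · filter_upwards [ae_restrict_of_ae_restrict_of_subset hsub (hwv k), ae_restrict_mem hmeas]
      with x hx hx2
    rw [hzero x (hsub hx2) k] at hx
    simp only [hw, indicator_of_mem hx2.1] at hx
    linarith
  · filter_upwards [ae_restrict_of_ae_restrict_of_subset hsub (hWv k i), ae_restrict_mem hmeas]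
      with x hx hx2
    rw [hgrd x (hsub hx2) k i] at hx
    simp only [hW, indicator_of_mem hx2.1] at hx
    linarith

end Pool.Agent.MP_0643f8_an.U
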