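import Mathlib
import Pool.Agent.Lib.MP_0643f8_an.U.M1_Topo
import Pool.Agent.Lib.MP_0643f8_an.U.W4_Lreg
import Pool.Agent.Lib.MP_0643f8_an.U.W7_Local

/-!
# Spreading of zero strain; nested balls
-/

set_option autoImplicit false

open MeasureTheory Metric Set Filter Topology
open scoped ContDiff

namespace Pool.Agent.MP_0643f8_an.U
variable {d : ℕ} (Z : Cst d)

/-- Let `(u, G)` satisfy the weak equation with inclusion `ball c r` on the connected open set
`Ω`, let its strain vanish on the ball and on a nonempty open subset `O` of a shell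
`{r < ‖x - c‖ < ρ} ⊆ Ω`. Then the strain vanishes on `Ω`. (`lreg` on `Ω \ closedBall c r`,
`strain_ident` with `compl_conn`; the sphere is a null set.) -/
theorem spread {Ω : Set (EE d)} (hΩ : IsOpen Ω) (hc : IsPreconnected Ω) {c : EE d} {r : ℝ}
    (hr : 0 < r) (hb : closedBall c r ⊆ Ω) {u : Fin d → EE d → ℝ}
    {G : Fin d → Fin d → EE d → ℝ} (hu : ∀ k, WD Ω (u k) (G k)) (hw : WEq Z (ball c r) Ω G)
    (hin : ∀ k i, ∀ᵐ x ∂(volume.restrict (ball c r)), G k i x + G i k x = 0)
    {O : Set (EE d)} (hO : IsOpen O) (hOn : O.Nonempty) (hOs : O ⊆ Ω \ closedBall c r)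
    (hout : ∀ k i, ∀ᵐ x ∂(volume.restrict O), G k i x + G i k x = 0) :
    ∀ k i, ∀ᵐ x ∂(volume.restrict Ω), G k i x + G i k x = 0 := by
  have hSo : IsOpen (Ω \ closedBall c r) := hΩ.sdiff isClosed_closedBall
  have hSΩ : Ω \ closedBall c r ⊆ Ω := fun x hx => hx.1
  have hd2 : (2 : ℝ) ≤ d := by exact_mod_cast Z.hd
  have hl : 0 < Z.lam + 2 * Z.mu := by
    have h1 := Z.hlam
    have h2 := Z.hmu
    by_cases h : 0 ≤ Z.lam
    · linarith
    · nlinarith
  have hoff : ∀ φ : EE d → ℝ, IsTest φ → tsupport φ ⊆ Ω \ closedBall c r → ∀ k,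
      ∫ x, ∑ i, sig Z.lam Z.mu G i k x * pd i φ x = 0 := by
    refine (weq_off Z (D := ball c r) (V := Ω \ closedBall c r) ?_).1 (weq_mono Z hw hSΩ)
    exact fun x hx hxb => hx.2 (ball_subset_closedBall hxb)
  obtain ⟨v, hv, -, hG⟩ := lreg Z.hd hSo Z.hmu hl (fun k => wd_mono (hu k) hSΩ) hoff
  have hsm : ∀ i k, ContDiffOn ℝ ∞ (pd i (v k)) (Ω \ closedBall c r) := fun i k =>
    pd_contDiffOn hSo (lame_smooth hSo hv k) i
  have hO0 : ∀ i k, ∀ x ∈ O, pd i (v k) x + pd k (v i) x = 0 := by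
    intro i k
    refine eq_of_ae_eq hO (f := fun x => pd i (v k) x + pd k (v i) x) (g := fun _ => 0) ?_
      continuousOn_const ?_
    · exact (((hsm i k).continuousOn.add (hsm k i).continuousOn)).mono hOs
    · filter_upwards [hout k i, ae_restrict_of_ae_restrict_of_subset hOs (hG k i),
        ae_restrict_of_ae_restrict_of_subset hOs (hG i k)] with x h1 h2 h3
      have h4 : grd v k i x + grd v i k x = 0 := by rw [← h2, ← h3]; exact h1
      exact h4
  obtain ⟨x₀, hx₀⟩ := hOn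
  have hS0 := strain_ident Z.hd hSo subset_rfl (compl_conn Z.hd hΩ hc hr hb) hv (hOs hx₀)
    (fun i k => by
      filter_upwards [hO.mem_nhds hx₀] with x hx using hO0 i k x hx)
  intro k i
  have hms : MeasurableSet (Ω \ closedBall c r) := hSo.measurableSet
  have hSae : ∀ᵐ x ∂(volume.restrict (Ω \ closedBall c r)), G k i x + G i k x = 0 := by
    filter_upwards [hG k i, hG i k, ae_restrict_mem hms] with x h1 h2 hx
    rw [h1, h2]
    exact (hS0 x hx i k).self_of_nhds
  have hsph : ∀ᵐ x ∂(volume : Measure (EE d)), x ∉ sphere c r :=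
    measure_eq_zero_iff_ae_notMem.1 (Measure.addHaar_sphere_of_ne_zero volume c hr.ne')
  have h1 := (ae_restrict_iff' measurableSet_ball).1 (hin k i)
  have h2 := (ae_restrict_iff' hms).1 hSae
  rw [ae_restrict_iff' hΩ.measurableSet]
  filter_upwards [h1, h2, hsph] with x h3 h4 h5 hx
  by_cases hxb : x ∈ closedBall c r
  · refine h3 ?_
    have h6 : dist x c ≠ r := fun h => h5 h
    exact lt_of_le_of_ne hxb h6
  · exact h4 ⟨hx, hxb⟩

end Pool.Agent.MP_0643f8_an.U
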