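import Mathlib
import Pool.Agent.Lib.MP_0643f8_an.U.W1_WD

/-!
# Testing with compactly supported functions of `H¹`

Mollify `ψ`: `ψ_ε = ρ_ε * ψ` is a test function with support in a compact neighbourhood of `K` in
`V`, `∂ᵢ ψ_ε = ρ_ε * Ψ i → Ψ i` in `L²`, and `F i ∈ L²` on that neighbourhood.
`Pool/Agent/Lib/MP_c499db_an/Moll.lean` has all of this on `Fin d → ℝ`.
-/

set_option autoImplicit false

open MeasureTheory Metric Set Filter Topology
open scoped ContDiff ENNReal Convolution

namespace Pool.Agent.MP_0643f8_an.U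

variable {d : ℕ}


private theorem w2_norm_toLp_sq {f : EE d → ℝ} (hf : MemLp f 2 volume) : ‖hf.toLp f‖ ^ 2 = ∫ x, f x ^ 2 := by
  rw [← real_inner_self_eq_norm_sq, L2.inner_def]
  apply integral_congr_ae
  filter_upwards [hf.coeFn_toLp] with x hx
  rw [hx]
  simp [pow_two]

private theorem w2_ofReal_integral_sq {f : EE d → ℝ} (hf : MemLp f 2 volume) :
    ENNReal.ofReal (∫ x, f x ^ 2) = ∫⁻ x, ‖f x‖ₑ ^ 2 := by
  rw [ofReal_integral_eq_lintegral_ofReal (hf.integrable_sq) (Eventually.of_forall (fun x => sq_nonneg _))]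
  congr 1; ext x
  rw [← ofReal_norm, ← ENNReal.ofReal_pow (norm_nonneg _)]
  simp

/-- continuity of translations in `L²` -/
private theorem w2_translation_small {f : EE d → ℝ} (hf : MemLp f 2 volume) {ε : ℝ} (hε : 0 < ε) :
    ∃ δ > 0, ∀ t : EE d, ‖t‖ < δ → ∫⁻ x, ‖f (x - t) - f x‖ₑ ^ 2 ≤ ENNReal.ofReal ε := by
  let F : EE d → Lp ℝ 2 (volume : Measure (EE d)) := fun t =>
    Lp.compMeasurePreserving (fun x => x - t) (measurePreserving_sub_right volume t) (hf.toLp f)
  let G : C(EE d, C(EE d, EE d)) := ContinuousMap.curry ⟨fun p : EE d × EE d => p.2 - p.1, by fun_prop⟩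
  have hF : Continuous F := by
    rw [continuous_iff_continuousAt]
    intro t
    exact Filter.Tendsto.compMeasurePreservingLp (g := fun t => G t) (f := fun _ => hf.toLp f)
      (f₀ := hf.toLp f) (g₀ := G t) tendsto_const_nhds
      (G.continuous.tendsto t) (fun t => measurePreserving_sub_right volume t)
      (measurePreserving_sub_right volume t) (by simp)
  have h0 : Tendsto (fun t => ‖F t - F 0‖ ^ 2) (𝓝 0) (𝓝 0) := by
    have := ((hF.tendsto 0).sub_const (F 0)).norm.pow 2
    simpa using this
  have h1 : ∀ᶠ t in 𝓝 (0 : EE d), ‖F t - F 0‖ ^ 2 < ε := h0.eventually_lt_const hε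
  rw [Metric.eventually_nhds_iff] at h1
  obtain ⟨δ, hδ, h1⟩ := h1
  refine ⟨δ, hδ, fun t ht => ?_⟩
  have h2 := h1 (y := t) (by simpa using ht)
  have m1 : MemLp (fun x => f (x - t)) 2 volume := hf.comp_measurePreserving (measurePreserving_sub_right volume t)
  have e1 : F t - F 0 = (m1.sub hf).toLp _ := by
    have a1 : F t = m1.toLp _ := Lp.toLp_compMeasurePreserving hf (measurePreserving_sub_right volume t)
    have a0 : F 0 = hf.toLp _ := by
      have := Lp.toLp_compMeasurePreserving hf (measurePreserving_sub_right (volume : Measure (EE d)) 0)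
      simp only [F]
      rw [this]
      congr 1
      ext x; simp
    rw [a1, a0, ← MemLp.toLp_sub]
  rw [e1, w2_norm_toLp_sq] at h2
  have h3 := w2_ofReal_integral_sq (m1.sub hf)
  simp only [Pi.sub_apply] at h3 h2
  rw [← h3]
  exact ENNReal.ofReal_le_ofReal h2.le

/-- the mollification -/
private noncomputable def w2_moll (b : ContDiffBump (0 : EE d)) (f : EE d → ℝ) (x : EE d) : ℝ :=
  ∫ t, b.normed volume t * f (x - t)

private theorem w2_moll_eq (b : ContDiffBump (0 : EE d)) (f : EE d → ℝ) :
    w2_moll b f = (b.normed volume ⋆[ContinuousLinearMap.lsmul ℝ ℝ, volume] f) := by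
  ext x
  simp [w2_moll, convolution_def]

private theorem w2_moll_eq_swap (b : ContDiffBump (0 : EE d)) (f : EE d → ℝ) (x : EE d) :
    w2_moll b f x = ∫ t, b.normed volume (x - t) * f t := by
  rw [w2_moll_eq, convolution_eq_swap]
  simp

private theorem w2_moll_contDiff (b : ContDiffBump (0 : EE d)) {f : EE d → ℝ} (hf : MemLp f 2 volume) :
    ContDiff ℝ ∞ (w2_moll b f) := by
  rw [w2_moll_eq]
  exact b.hasCompactSupport_normed.contDiff_convolution_left _ b.contDiff_normed
    (hf.locallyIntegrable (by norm_num))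

private theorem w2_pd_moll (b : ContDiffBump (0 : EE d)) {u : EE d → ℝ} {g : Fin d → EE d → ℝ} (hu : MemLp u 2 volume)
    (hweak : ∀ φ : EE d → ℝ, IsTest φ → ∀ i, ∫ x, u x * pd i φ x = - ∫ x, g i x * φ x)
    (i : Fin d) (x : EE d) : pd i (w2_moll b u) x = w2_moll b (g i) x := by
  have hli : LocallyIntegrable u (volume : Measure (EE d)) := hu.locallyIntegrable (by norm_num)
  have hcs := b.hasCompactSupport_normed (μ := (volume : Measure (EE d)))
  have hsm : ContDiff ℝ ∞ (b.normed (volume : Measure (EE d))) := b.contDiff_normed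
  have h1 := hcs.hasFDerivAt_convolution_left
    (ContinuousLinearMap.lsmul ℝ ℝ) (μ := (volume : Measure (EE d)))
    (b.contDiff_normed (n := 1)) hli x
  rw [← w2_moll_eq] at h1
  have hex : Integrable (fun t => (ContinuousLinearMap.precompL (EE d) (ContinuousLinearMap.lsmul ℝ ℝ : ℝ →L[ℝ] ℝ →L[ℝ] ℝ))
      (fderiv ℝ (b.normed volume) (x - t)) (u t)) volume := by
    have := (hcs.fderiv ℝ).convolutionExists_left (μ := (volume : Measure (EE d)))
      (ContinuousLinearMap.precompL (EE d) (ContinuousLinearMap.lsmul ℝ ℝ : ℝ →L[ℝ] ℝ →L[ℝ] ℝ))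
      (hsm.continuous_fderiv (by simp)) hli x
    exact this.integrable_swap
  unfold pd
  rw [h1.fderiv, convolution_eq_swap, ContinuousLinearMap.integral_apply hex]
  simp only [ContinuousLinearMap.precompL_apply, ContinuousLinearMap.lsmul_apply, smul_eq_mul]
  -- test function
  set Φ : EE d → ℝ := fun y => b.normed volume (x - y) with hΦ
  have hΦs : ContDiff ℝ ∞ Φ := hsm.comp (by fun_prop)
  have hΦc : HasCompactSupport Φ := by
    have hh : IsHomeomorph (fun y : EE d => x - y) := (Homeomorph.subLeft x).isHomeomorph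
    exact hcs.comp_isClosedEmbedding hh.isClosedEmbedding
  have hw := hweak Φ ⟨hΦs, hΦc⟩ i
  have hpd : ∀ y, pd i Φ y = - (fderiv ℝ (b.normed volume) (x - y)) (EuclideanSpace.single i (1 : ℝ)) := by
    intro y
    unfold pd
    have a1 : HasFDerivAt (b.normed (volume : Measure (EE d))) (fderiv ℝ (b.normed volume) (x - y)) (x - y) :=
      ((hsm.differentiable (by simp)) _).hasFDerivAt
    have a2 : HasFDerivAt (fun y : EE d => x - y) (-ContinuousLinearMap.id ℝ (EE d)) y :=
      (hasFDerivAt_id (𝕜 := ℝ) y).const_sub x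
    have a3 := a1.comp y a2
    have a4 : Φ = (b.normed volume) ∘ (fun y => x - y) := rfl
    rw [a4, a3.fderiv]
    simp
  simp only [hpd] at hw
  rw [w2_moll_eq_swap]
  have e1 : ∫ y, (fderiv ℝ (b.normed volume) (x - y)) (EuclideanSpace.single i (1 : ℝ)) * u y =
      - ∫ y, u y * -(fderiv ℝ (b.normed volume) (x - y)) (EuclideanSpace.single i (1 : ℝ)) := by
    rw [← integral_neg]; congr 1; ext y; ring
  rw [e1, hw, neg_neg]
  congr 1; ext y; ring

private theorem w2_moll_sub_le (b : ContDiffBump (0 : EE d)) {f : EE d → ℝ} (hf : MemLp f 2 volume) (x : EE d) :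
    ‖w2_moll b f x - f x‖ₑ ^ 2 ≤
      ∫⁻ t, ENNReal.ofReal (b.normed volume t) * ‖f (x - t) - f x‖ₑ ^ 2 := by
  have hρ0 : ∀ t, 0 ≤ b.normed (volume : Measure (EE d)) t := fun t => b.nonneg_normed t
  have hcs := b.hasCompactSupport_normed (μ := (volume : Measure (EE d)))
  have hcont : Continuous (b.normed (volume : Measure (EE d))) := b.continuous_normed
  have hρ2 : MemLp (b.normed (volume : Measure (EE d))) 2 volume :=
    hcont.memLp_of_hasCompactSupport hcs
  have hfx : MemLp (fun t => f (x - t)) 2 volume :=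
    hf.comp_measurePreserving (Measure.measurePreserving_sub_left volume x)
  have I1 : Integrable (fun t => b.normed volume t * f (x - t)) volume := hρ2.integrable_mul hfx
  have I3 : Integrable (fun t => b.normed (volume : Measure (EE d)) t) volume := b.integrable_normed
  obtain ⟨B, hB⟩ := hcs.exists_bound_of_continuous hcont
  have I2 : Integrable (fun t => b.normed volume t * f (x - t) ^ 2) volume :=
    (hfx.integrable_sq).bdd_mul hcont.aestronglyMeasurable (Eventually.of_forall hB)
  set c := w2_moll b f x - f x with hc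
  have hcint : c = ∫ t, b.normed volume t * (f (x - t) - f x) := by
    have : (fun t => b.normed volume t * (f (x - t) - f x)) =
        fun t => b.normed volume t * f (x - t) - b.normed volume t * f x := by ext t; ring
    rw [this, integral_sub I1 (I3.mul_const _), integral_mul_const, b.integral_normed]
    simp [hc, w2_moll]
  have I4 : Integrable (fun t => b.normed volume t * (f (x - t) - f x) ^ 2) volume := by
    have : (fun t => b.normed volume t * (f (x - t) - f x) ^ 2) =
        fun t => b.normed volume t * f (x - t) ^ 2 - 2 * f x * (b.normed volume t * f (x - t))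
          + f x ^ 2 * b.normed volume t := by ext t; ring
    rw [this]
    exact (I2.sub (I1.const_mul _)).add (I3.const_mul _)
  have I5 : Integrable (fun t => b.normed volume t * (f (x - t) - f x)) volume := by
    have : (fun t => b.normed volume t * (f (x - t) - f x)) =
        fun t => b.normed volume t * f (x - t) - b.normed volume t * f x := by ext t; ring
    rw [this]; exact I1.sub (I3.mul_const _)
  have key : c ^ 2 ≤ ∫ t, b.normed volume t * (f (x - t) - f x) ^ 2 := by
    have h0 : 0 ≤ ∫ t, b.normed volume t * ((f (x - t) - f x) - c) ^ 2 :=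
      integral_nonneg (fun t => mul_nonneg (hρ0 t) (sq_nonneg _))
    have : (fun t => b.normed volume t * ((f (x - t) - f x) - c) ^ 2) =
        fun t => (b.normed volume t * (f (x - t) - f x) ^ 2 -
          2 * c * (b.normed volume t * (f (x - t) - f x))) + c ^ 2 * b.normed volume t := by
      ext t; ring
    have I45 : Integrable (fun t => b.normed volume t * (f (x - t) - f x) ^ 2 -
          2 * c * (b.normed volume t * (f (x - t) - f x))) volume := I4.sub (I5.const_mul _)
    rw [this, integral_add I45 (I3.const_mul _),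
      integral_sub I4 (I5.const_mul _), integral_const_mul, integral_const_mul, ← hcint,
      b.integral_normed] at h0
    nlinarith
  have e1 : ‖c‖ₑ ^ 2 = ENNReal.ofReal (c ^ 2) := by
    rw [← ofReal_norm, ← ENNReal.ofReal_pow (norm_nonneg _)]; simp
  rw [e1]
  refine (ENNReal.ofReal_le_ofReal key).trans (le_of_eq ?_)
  rw [ofReal_integral_eq_lintegral_ofReal I4
    (Eventually.of_forall (fun t => mul_nonneg (hρ0 t) (sq_nonneg _)))]
  congr 1; ext t
  rw [ENNReal.ofReal_mul (hρ0 t)]
  congr 1
  rw [← ofReal_norm, ← ENNReal.ofReal_pow (norm_nonneg _)]; simp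

private theorem w2_moll_close {f : EE d → ℝ} (hf : MemLp f 2 volume) {ε : ℝ} (hε : 0 < ε) :
    ∃ δ > 0, ∀ b : ContDiffBump (0 : EE d), b.rOut < δ →
      MemLp (w2_moll b f) 2 volume ∧ ∫ x, (w2_moll b f x - f x) ^ 2 ≤ ε := by
  obtain ⟨δ, hδ, h⟩ := w2_translation_small hf hε
  refine ⟨δ, hδ, fun b hb => ?_⟩
  have hsm := w2_moll_contDiff b hf
  have h1 : ∫⁻ x, ‖w2_moll b f x - f x‖ₑ ^ 2 ≤ ENNReal.ofReal ε := by
    calc ∫⁻ x, ‖w2_moll b f x - f x‖ₑ ^ 2
        ≤ ∫⁻ x, ∫⁻ t, ENNReal.ofReal (b.normed volume t) * ‖f (x - t) - f x‖ₑ ^ 2 :=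
          lintegral_mono (fun x => w2_moll_sub_le b hf x)
      _ = ∫⁻ t, ∫⁻ x, ENNReal.ofReal (b.normed volume t) * ‖f (x - t) - f x‖ₑ ^ 2 := by
          apply lintegral_lintegral_swap
          have m1 : AEStronglyMeasurable (fun p : EE d × EE d => f (p.1 - p.2)) (volume.prod volume) :=
            hf.aestronglyMeasurable.comp_quasiMeasurePreserving (quasiMeasurePreserving_sub _ _)
          have m2 : AEStronglyMeasurable (fun p : EE d × EE d => f p.1) (volume.prod volume) :=
            hf.aestronglyMeasurable.comp_fst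
          have m3 : Measurable (fun p : EE d × EE d => ENNReal.ofReal (b.normed volume p.2)) := by
            have : Continuous (b.normed (volume : Measure (EE d))) := b.continuous_normed
            fun_prop
          exact m3.aemeasurable.mul ((m1.sub m2).enorm.pow_const 2)
      _ ≤ ∫⁻ t, ENNReal.ofReal (b.normed volume t) * ENNReal.ofReal ε := by
          apply lintegral_mono
          intro t
          simp only
          rw [lintegral_const_mul' _ _ ENNReal.ofReal_ne_top]
          by_cases ht : ‖t‖ < δ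
          · exact mul_le_mul_right (h t ht) _
          · have : b.normed (volume : Measure (EE d)) t = 0 := by
              have hs := b.support_normed_eq (μ := (volume : Measure (EE d)))
              by_contra hne
              have : t ∈ Function.support (b.normed (volume : Measure (EE d))) := hne
              rw [hs, Metric.mem_ball, dist_zero_right] at this
              linarith
            simp [this]
      _ = ENNReal.ofReal ε := by
          rw [lintegral_mul_const' _ _ ENNReal.ofReal_ne_top,
            ← ofReal_integral_eq_lintegral_ofReal b.integrable_normed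
              (Eventually.of_forall (fun t => b.nonneg_normed t)), b.integral_normed]
          simp
  have m0 : AEStronglyMeasurable (fun x => w2_moll b f x - f x) volume :=
    hsm.continuous.aestronglyMeasurable.sub hf.aestronglyMeasurable
  have h2 : MemLp (fun x => w2_moll b f x - f x) 2 volume := by
    refine ⟨m0, ?_⟩
    rw [eLpNorm_lt_top_iff_lintegral_rpow_enorm_lt_top (by simp) (by simp)]
    simp only [ENNReal.toReal_ofNat, ENNReal.rpow_ofNat]
    exact h1.trans_lt ENNReal.ofReal_lt_top
  have h3 : MemLp (w2_moll b f) 2 volume := by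
    have := h2.add hf
    convert this using 1
    ext x; simp
  refine ⟨h3, ?_⟩
  have h4 := w2_ofReal_integral_sq h2
  rw [← ENNReal.ofReal_le_ofReal_iff hε.le, h4]
  exact h1


private theorem w2_memLp {K : Set (EE d)} (hK : IsCompact K) {f : EE d → ℝ}
    (hf : MemLp f 2 (volume.restrict K)) (h0 : ∀ x ∉ K, f x = 0) : MemLp f 2 volume := by
  have h1 := (memLp_indicator_iff_restrict (f := f) (p := 2) (μ := volume)
    hK.isClosed.measurableSet).2 hf
  have h2 : K.indicator f = f := by
    ext x
    by_cases hx : x ∈ K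
    · rw [indicator_of_mem hx]
    · rw [indicator_of_notMem hx, h0 x hx]
  rwa [h2] at h1

/-- mollification in `H¹`: for every `ε > 0` there is a test function `φ` with support in the
closed `ε`-neighbourhood of `K` and `L²` distance of the gradients at most `ε` -/
theorem exists_test_close {K : Set (EE d)} (hK : IsCompact K) {ψ : EE d → ℝ}
    {Ψ : Fin d → EE d → ℝ} (hψ : WD univ ψ Ψ) (hψ0 : ∀ x ∉ K, ψ x = 0)
    (hΨ0 : ∀ i, ∀ x ∉ K, Ψ i x = 0) {ε : ℝ} (hε : 0 < ε) :
    ∃ φ : EE d → ℝ, IsTest φ ∧ tsupport φ ⊆ cthickening ε K ∧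
      ∀ i, ∫ x, (pd i φ x - Ψ i x) ^ 2 ≤ ε := by
  have hm : MemLp ψ 2 volume := w2_memLp hK (hψ.1 K hK (subset_univ _)) hψ0
  have hmg : ∀ i, MemLp (Ψ i) 2 volume := fun i =>
    w2_memLp hK (hψ.2.1 i K hK (subset_univ _)) (hΨ0 i)
  choose δ' hδ' h' using fun i => w2_moll_close (hmg i) hε
  obtain ⟨r, hr, hr1, hr2⟩ : ∃ r > 0, r < ε ∧ ∀ i, r < δ' i := by
    have h1 : ∀ᶠ r in 𝓝[>] (0 : ℝ), r < ε :=
      Filter.Eventually.filter_mono nhdsWithin_le_nhds (eventually_lt_nhds hε)
    have h2 : ∀ᶠ r in 𝓝[>] (0 : ℝ), ∀ i, r < δ' i := by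
      rw [eventually_all]
      intro i
      exact Filter.Eventually.filter_mono nhdsWithin_le_nhds (eventually_lt_nhds (hδ' i))
    obtain ⟨r, ⟨h1, h2⟩, h3⟩ := ((h1.and h2).and self_mem_nhdsWithin).exists
    exact ⟨r, h3, h1, h2⟩
  let b : ContDiffBump (0 : EE d) := ⟨r / 2, r, half_pos hr, half_lt_self hr⟩
  have e : ∀ i x, pd i (w2_moll b ψ) x = w2_moll b (Ψ i) x := fun i x =>
    w2_pd_moll b hm (fun φ hφ i => hψ.2.2 φ hφ (subset_univ _) i) i x
  have hsupp : tsupport (w2_moll b ψ) ⊆ cthickening ε K := by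
    refine closure_minimal ?_ isClosed_cthickening
    intro x hx
    by_contra hxK
    refine hx ?_
    unfold w2_moll
    have h0 : ∀ t, b.normed volume t * ψ (x - t) = 0 := by
      intro t
      by_cases ht : ‖t‖ < r
      · have hxt : x - t ∉ K := by
          intro hmem
          refine hxK (mem_cthickening_of_dist_le x (x - t) ε K hmem ?_)
          rw [dist_eq_norm, sub_sub_cancel]
          exact (ht.trans hr1).le
        rw [hψ0 _ hxt, mul_zero]
      · have : b.normed (volume : Measure (EE d)) t = 0 := by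
          have hs := b.support_normed_eq (μ := (volume : Measure (EE d)))
          by_contra hne
          have hmem : t ∈ Function.support (b.normed (volume : Measure (EE d))) := hne
          rw [hs, Metric.mem_ball, dist_zero_right] at hmem
          exact ht hmem
        rw [this, zero_mul]
    simp only [h0, integral_zero]
  have hcK : IsCompact (cthickening ε K) := hK.cthickening
  refine ⟨w2_moll b ψ, ⟨w2_moll_contDiff b hm, ?_⟩, hsupp, fun i => ?_⟩
  · exact HasCompactSupport.of_support_subset_isCompact hcK ((subset_tsupport _).trans hsupp)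
  · simp only [e i]
    exact (h' i b (hr2 i)).2

theorem test_h1 {V : Set (EE d)} (hV : IsOpen V) {F : Fin d → EE d → ℝ}
    (hF : ∀ i, L2loc V (F i))
    (h : ∀ φ, IsTest φ → tsupport φ ⊆ V → ∫ x, ∑ i, F i x * pd i φ x = 0)
    {K : Set (EE d)} (hK : IsCompact K) (hKV : K ⊆ V) {ψ : EE d → ℝ} {Ψ : Fin d → EE d → ℝ}
    (hψ : WD univ ψ Ψ) (hψ0 : ∀ x ∉ K, ψ x = 0) (hΨ0 : ∀ i, ∀ x ∉ K, Ψ i x = 0) :
    ∫ x, ∑ i, F i x * Ψ i x = 0 := by
  obtain ⟨δ, hδ, hδV⟩ := hK.exists_cthickening_subset_open hV hKV
  set K' := cthickening δ K with hK'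
  have hcK' : IsCompact K' := hK.cthickening
  have hmg : ∀ i, MemLp (Ψ i) 2 volume := fun i =>
    w2_memLp hK (hψ.2.1 i K hK (subset_univ _)) (hΨ0 i)
  have hF' : ∀ i, MemLp (K'.indicator (F i)) 2 volume := fun i =>
    (memLp_indicator_iff_restrict hcK'.isClosed.measurableSet).2 (hF i K' hcK' hδV)
  set A : ℝ := ∑ i, ((∫ x, K'.indicator (F i) x ^ 2) + 1) with hA
  have key : ∀ η : ℝ, 0 < η → η ≤ 1 → η ≤ δ → |∫ x, ∑ i, F i x * Ψ i x| ≤ η / 2 * A := by
    intro η hη hη1 hηδ
    obtain ⟨φ, hφ, hφs, hφi⟩ := exists_test_close hK hψ hψ0 hΨ0 (ε := η ^ 2) (by positivity)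
    have hφK' : tsupport φ ⊆ K' := hφs.trans (cthickening_mono (by nlinarith) K)
    have hpd0 : ∀ i, ∀ x ∉ K', pd i φ x = 0 := by
      intro i x hx
      have h1 : x ∉ tsupport φ := fun hm => hx (hφK' hm)
      have h2 : fderiv ℝ φ x = 0 := by
        by_contra hne
        exact h1 (tsupport_fderiv_subset ℝ (subset_tsupport _ hne))
      unfold pd
      rw [h2]
      simp
    have hpdc : ∀ i, Continuous (pd i φ) := by
      intro i
      have := hφ.1.continuous_fderiv (by simp)
      exact this.clm_apply continuous_const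
    have hpdm : ∀ i, MemLp (pd i φ) 2 volume := fun i =>
      (hpdc i).memLp_of_hasCompactSupport (hφ.2.fderiv_apply (𝕜 := ℝ) _)
    have h0 := h φ hφ (hφK'.trans hδV)
    have e1 : ∀ x, ∑ i, F i x * pd i φ x = ∑ i, K'.indicator (F i) x * pd i φ x := by
      intro x
      refine Finset.sum_congr rfl fun i _ => ?_
      by_cases hx : x ∈ K'
      · rw [indicator_of_mem hx]
      · rw [hpd0 i x hx, mul_zero, mul_zero]
    have e2 : ∀ x, ∑ i, F i x * Ψ i x = ∑ i, K'.indicator (F i) x * Ψ i x := by
      intro x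
      refine Finset.sum_congr rfl fun i _ => ?_
      by_cases hx : x ∈ K'
      · rw [indicator_of_mem hx]
      · rw [hΨ0 i x (fun hm => hx (self_subset_cthickening K hm)), mul_zero, mul_zero]
    simp only [e1] at h0
    simp only [e2]
    have I1 : ∀ i, Integrable (fun x => K'.indicator (F i) x * pd i φ x) volume := fun i =>
      (hF' i).integrable_mul (hpdm i)
    have I2 : ∀ i, Integrable (fun x => K'.indicator (F i) x * Ψ i x) volume := fun i =>
      (hF' i).integrable_mul (hmg i)
    rw [integral_finsetSum _ (fun i _ => I1 i)] at h0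
    rw [integral_finsetSum _ (fun i _ => I2 i)]
    have e3 : ∑ i, ∫ x, K'.indicator (F i) x * Ψ i x =
        ∑ i, ((∫ x, K'.indicator (F i) x * Ψ i x) - ∫ x, K'.indicator (F i) x * pd i φ x) := by
      rw [Finset.sum_sub_distrib, h0, sub_zero]
    rw [e3]
    refine (Finset.abs_sum_le_sum_abs _ _).trans ?_
    rw [hA, Finset.mul_sum]
    refine Finset.sum_le_sum fun i _ => ?_
    rw [← integral_sub (I2 i) (I1 i)]
    have m1 : MemLp (fun x => pd i φ x - Ψ i x) 2 volume := (hpdm i).sub (hmg i)
    have J1 := (hF' i).integrable_sq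
    have J2 := m1.integrable_sq
    have e4 : ∀ x, ‖K'.indicator (F i) x * Ψ i x - K'.indicator (F i) x * pd i φ x‖ ≤
        η / 2 * K'.indicator (F i) x ^ 2 + 1 / (2 * η) * (pd i φ x - Ψ i x) ^ 2 := by
      intro x
      rw [Real.norm_eq_abs]
      generalize K'.indicator (F i) x = a
      generalize pd i φ x = b
      generalize Ψ i x = c
      have e5 : a * c - a * b = -(a * (b - c)) := by ring
      rw [e5, abs_neg, abs_mul]
      have e6 : 0 ≤ (η * |a| - |b - c|) ^ 2 / (2 * η) := by positivity
      have e7 : (η * |a| - |b - c|) ^ 2 / (2 * η) =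
          η / 2 * a ^ 2 + 1 / (2 * η) * (b - c) ^ 2 - |a| * |b - c| := by
        field_simp
        rw [← sq_abs a, ← sq_abs (b - c)]
        ring
      linarith
    have J3 : Integrable (fun x => η / 2 * K'.indicator (F i) x ^ 2 +
        1 / (2 * η) * (pd i φ x - Ψ i x) ^ 2) volume :=
      (J1.const_mul (η / 2)).add (J2.const_mul (1 / (2 * η)))
    have e8 := norm_integral_le_of_norm_le J3 (Eventually.of_forall e4)
    rw [Real.norm_eq_abs] at e8
    refine e8.trans ?_
    rw [integral_add (J1.const_mul _) (J2.const_mul _), integral_const_mul, integral_const_mul]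
    have e9 : 1 / (2 * η) * ∫ x, (pd i φ x - Ψ i x) ^ 2 ≤ 1 / (2 * η) * η ^ 2 :=
      mul_le_mul_of_nonneg_left (hφi i) (by positivity)
    have e10 : 1 / (2 * η) * η ^ 2 = η / 2 := by
      field_simp
    rw [e10] at e9
    linarith
  have hA0 : 0 ≤ A := by
    rw [hA]
    refine Finset.sum_nonneg fun i _ => ?_
    have : 0 ≤ ∫ x, K'.indicator (F i) x ^ 2 := integral_nonneg fun x => sq_nonneg _
    linarith
  by_contra hne
  have hpos : 0 < |∫ x, ∑ i, F i x * Ψ i x| := abs_pos.2 hne
  set I := |∫ x, ∑ i, F i x * Ψ i x| with hI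
  set η : ℝ := min (min 1 δ) (I / (A + 1)) with hη
  have hη0 : 0 < η := by
    refine lt_min (lt_min one_pos hδ) (by positivity)
  have h1 := key η hη0 ((min_le_left _ _).trans (min_le_left _ _))
    ((min_le_left _ _).trans (min_le_right _ _))
  have h2 : η ≤ I / (A + 1) := min_le_right _ _
  rw [le_div_iff₀ (by positivity)] at h2
  nlinarith

end Pool.Agent.MP_0643f8_an.U
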