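import Mathlib
import Pool.Agent.Lib.MP_0643f8_an.U.W2_Test
import Pool.Agent.Lib.MP_0643f8_an.U.W7_Local

/-!
# The energy identity

The bilinear form `∑_{i,k} σ_ik(G) H_ki` is `coef λ (tr G)(tr H) + (coef μ / 2) ∑ e_ik(G) e_ik(H)`
with `e_ik(G) = G k i + G i k`. It is bounded and coercive in `e`:
`≥ c ∑ e_ik(G)²` because `(tr G)² ≤ (d/4) ∑_k (2 G k k)² ≤ (d/4) ∑ e_ik²` and
`dλ + 2μ > 0`, `λ' > 0`, `μ' > 0`.
-/

set_option autoImplicit false

open MeasureTheory Metric Set Filter Topology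
open scoped ContDiff

namespace Pool.Agent.MP_0643f8_an.U

variable {d : ℕ} (Z : Cst d)

/-- the energy density of two gradients -/
noncomputable def eng (D : Set (EE d)) (G H : Fin d → Fin d → EE d → ℝ) (x : EE d) : ℝ :=
  coef D Z.lam Z.lam' x * (∑ j, G j j x) * (∑ j, H j j x) +
    coef D Z.mu Z.mu' x / 2 * ∑ k, ∑ i, (G k i x + G i k x) * (H k i x + H i k x)

/-- the square of the strain -/
def stn (G : Fin d → Fin d → EE d → ℝ) (x : EE d) : ℝ := ∑ k, ∑ i, (G k i x + G i k x) ^ 2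

private theorem w8_coef_mem {D : Set (EE d)} (a b : ℝ) {x : EE d} (h : x ∈ D) :
    coef D a b x = b := by
  simp [coef, Set.indicator_of_mem h]

private theorem w8_coef_not {D : Set (EE d)} (a b : ℝ) {x : EE d} (h : x ∉ D) :
    coef D a b x = a := by
  simp [coef, Set.indicator_of_notMem h]

private theorem w8_stn_nonneg (G : Fin d → Fin d → EE d → ℝ) (x : EE d) : 0 ≤ stn G x :=
  Finset.sum_nonneg fun _ _ => Finset.sum_nonneg fun _ _ => sq_nonneg _

private theorem w8_tr (G : Fin d → Fin d → EE d → ℝ) (x : EE d) :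
    (∑ j, G j j x) ^ 2 ≤ (d : ℝ) / 4 * stn G x := by
  have h1 : (∑ j, G j j x) ^ 2 ≤ (d : ℝ) * ∑ j, (G j j x) ^ 2 := by
    have h := sq_sum_le_card_mul_sum_sq (s := (Finset.univ : Finset (Fin d)))
      (f := fun j => G j j x)
    simpa using h
  have h2 : ∑ j, (2 * G j j x) ^ 2 ≤ stn G x := by
    refine Finset.sum_le_sum fun k _ => ?_
    have h3 : (2 * G k k x) ^ 2 = (G k k x + G k k x) ^ 2 := by ring
    rw [h3]
    exact Finset.single_le_sum (f := fun i => (G k i x + G i k x) ^ 2)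
      (fun i _ => sq_nonneg _) (Finset.mem_univ k)
  have h3 : ∑ j, (2 * G j j x) ^ 2 = 4 * ∑ j, (G j j x) ^ 2 := by
    rw [Finset.mul_sum]
    exact Finset.sum_congr rfl fun j _ => by ring
  rw [h3] at h2
  have h4 : (0 : ℝ) ≤ d := Nat.cast_nonneg d
  calc (∑ j, G j j x) ^ 2 ≤ (d : ℝ) * ∑ j, (G j j x) ^ 2 := h1
    _ = (d : ℝ) / 4 * (4 * ∑ j, (G j j x) ^ 2) := by ring
    _ ≤ (d : ℝ) / 4 * stn G x := mul_le_mul_of_nonneg_left h2 (by positivity)

theorem eng_eq (D : Set (EE d)) (G H : Fin d → Fin d → EE d → ℝ) (x : EE d) :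
    ∑ k, ∑ i, sigD Z D G i k x * H k i x = eng Z D G H x := by
  have h1 : ∑ k, ∑ i, (G k i x + G i k x) * H k i x =
      ∑ k, ∑ i, (G k i x + G i k x) * H i k x := by
    rw [Finset.sum_comm]
    exact Finset.sum_congr rfl fun k _ => Finset.sum_congr rfl fun i _ => by ring
  have h2 : ∑ k, ∑ i, (G k i x + G i k x) * (H k i x + H i k x) =
      2 * ∑ k, ∑ i, (G k i x + G i k x) * H k i x := by
    have h3 : ∑ k, ∑ i, (G k i x + G i k x) * (H k i x + H i k x) =
        ∑ k, ∑ i, (G k i x + G i k x) * H k i x + ∑ k, ∑ i, (G k i x + G i k x) * H i k x := by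
      rw [← Finset.sum_add_distrib]
      refine Finset.sum_congr rfl fun k _ => ?_
      rw [← Finset.sum_add_distrib]
      exact Finset.sum_congr rfl fun i _ => by ring
    rw [h3, ← h1]; ring
  have h4 : ∑ k, ∑ i, sigD Z D G i k x * H k i x =
      coef D Z.lam Z.lam' x * (∑ j, G j j x) * (∑ j, H j j x) +
        coef D Z.mu Z.mu' x * ∑ k, ∑ i, (G k i x + G i k x) * H k i x := by
    have h6 : coef D Z.lam Z.lam' x * (∑ j, G j j x) * (∑ j, H j j x) +
        coef D Z.mu Z.mu' x * ∑ k, ∑ i, (G k i x + G i k x) * H k i x =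
        ∑ k, (coef D Z.lam Z.lam' x * (∑ j, G j j x) * H k k x +
          coef D Z.mu Z.mu' x * ∑ i, (G k i x + G i k x) * H k i x) := by
      rw [Finset.sum_add_distrib, ← Finset.mul_sum, ← Finset.mul_sum]
    rw [h6]
    refine Finset.sum_congr rfl fun k _ => ?_
    have h5 : ∑ i, sigD Z D G i k x * H k i x =
        ∑ i, ((if i = k then coef D Z.lam Z.lam' x * (∑ j, G j j x) * H k i x else 0) +
          coef D Z.mu Z.mu' x * ((G k i x + G i k x) * H k i x)) := by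
      refine Finset.sum_congr rfl fun i _ => ?_
      unfold sigD
      split_ifs <;> ring
    rw [h5, Finset.sum_add_distrib, Finset.sum_ite_eq' Finset.univ k, ← Finset.mul_sum]
    simp
  rw [h4, eng, h2]
  ring

theorem eng_symm (D : Set (EE d)) (G H : Fin d → Fin d → EE d → ℝ) (x : EE d) :
    eng Z D G H x = eng Z D H G x := by
  unfold eng
  have h : ∑ k, ∑ i, (G k i x + G i k x) * (H k i x + H i k x) =
      ∑ k, ∑ i, (H k i x + H i k x) * (G k i x + G i k x) :=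
    Finset.sum_congr rfl fun k _ => Finset.sum_congr rfl fun i _ => mul_comm _ _
  rw [h]
  ring

private theorem w8_diag (D : Set (EE d)) (G : Fin d → Fin d → EE d → ℝ) (x : EE d) :
    eng Z D G G x = coef D Z.lam Z.lam' x * (∑ j, G j j x) ^ 2 +
      coef D Z.mu Z.mu' x / 2 * stn G x := by
  unfold eng stn
  have h : ∑ k, ∑ i, (G k i x + G i k x) * (G k i x + G i k x) =
      ∑ k, ∑ i, (G k i x + G i k x) ^ 2 :=
    Finset.sum_congr rfl fun k _ => Finset.sum_congr rfl fun i _ => (sq _).symm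
  rw [h]
  ring

theorem eng_coercive : ∃ c : ℝ, 0 < c ∧ ∀ (D : Set (EE d)) (G : Fin d → Fin d → EE d → ℝ)
    (x : EE d), c * stn G x ≤ eng Z D G G x := by
  have hmu := Z.hmu
  have hlam := Z.hlam
  have hmu' := Z.hmu'
  have hlam' := Z.hlam'
  refine ⟨min (Z.mu' / 2) (min (Z.mu / 2) (((d : ℝ) * Z.lam + 2 * Z.mu) / 4)), ?_, ?_⟩
  · refine lt_min (by positivity) (lt_min (by positivity) (by linarith))
  intro D G x
  have hs := w8_stn_nonneg G x
  have ht := w8_tr G x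
  have ht0 := sq_nonneg (∑ j, G j j x)
  rw [w8_diag]
  by_cases hx : x ∈ D
  · rw [w8_coef_mem _ _ hx, w8_coef_mem _ _ hx]
    have h1 : min (Z.mu' / 2) (min (Z.mu / 2) (((d : ℝ) * Z.lam + 2 * Z.mu) / 4)) * stn G x ≤
        Z.mu' / 2 * stn G x := mul_le_mul_of_nonneg_right (min_le_left _ _) hs
    have h2 : 0 ≤ Z.lam' * (∑ j, G j j x) ^ 2 := mul_nonneg hlam'.le ht0
    linarith
  · rw [w8_coef_not _ _ hx, w8_coef_not _ _ hx]
    rcases le_total 0 Z.lam with h0 | h0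
    · have h1 : min (Z.mu' / 2) (min (Z.mu / 2) (((d : ℝ) * Z.lam + 2 * Z.mu) / 4)) * stn G x ≤
          Z.mu / 2 * stn G x :=
        mul_le_mul_of_nonneg_right ((min_le_right _ _).trans (min_le_left _ _)) hs
      have h2 : 0 ≤ Z.lam * (∑ j, G j j x) ^ 2 := mul_nonneg h0 ht0
      linarith
    · have h1 : min (Z.mu' / 2) (min (Z.mu / 2) (((d : ℝ) * Z.lam + 2 * Z.mu) / 4)) * stn G x ≤
          ((d : ℝ) * Z.lam + 2 * Z.mu) / 4 * stn G x :=
        mul_le_mul_of_nonneg_right ((min_le_right _ _).trans (min_le_right _ _)) hs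
      have h2 : Z.lam * ((d : ℝ) / 4 * stn G x) ≤ Z.lam * (∑ j, G j j x) ^ 2 :=
        mul_le_mul_of_nonpos_left ht h0
      linarith

private theorem w8_cs (G H : Fin d → Fin d → EE d → ℝ) (x : EE d) :
    |∑ k, ∑ i, (G k i x + G i k x) * (H k i x + H i k x)| ≤
      Real.sqrt (stn G x) * Real.sqrt (stn H x) := by
  have h1 : (∑ k, ∑ i, (G k i x + G i k x) * (H k i x + H i k x)) ^ 2 ≤ stn G x * stn H x := by
    unfold stn
    rw [← Finset.sum_product', ← Finset.sum_product', ← Finset.sum_product']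
    exact Finset.sum_mul_sq_le_sq_mul_sq _ _ _
  rw [← Real.sqrt_mul (w8_stn_nonneg G x), ← Real.sqrt_sq_eq_abs]
  exact Real.sqrt_le_sqrt h1

private theorem w8_trabs (G : Fin d → Fin d → EE d → ℝ) (x : EE d) :
    |∑ j, G j j x| ≤ (d : ℝ) * Real.sqrt (stn G x) := by
  have hs := w8_stn_nonneg G x
  have h1 : (∑ j, G j j x) ^ 2 ≤ ((d : ℝ) * Real.sqrt (stn G x)) ^ 2 := by
    rw [mul_pow, Real.sq_sqrt hs]
    refine (w8_tr G x).trans ?_
    refine mul_le_mul_of_nonneg_right ?_ hs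
    rcases Nat.eq_zero_or_pos d with h | h
    · subst h; simp
    · have h2 : (1 : ℝ) ≤ d := by exact_mod_cast h
      nlinarith
  exact abs_le_of_sq_le_sq h1 (by positivity)

private theorem w8_coef_abs (D : Set (EE d)) (a b : ℝ) (x : EE d) :
    |coef D a b x| ≤ |a| + |b| := by
  by_cases h : x ∈ D
  · rw [w8_coef_mem _ _ h]; linarith [abs_nonneg a]
  · rw [w8_coef_not _ _ h]; linarith [abs_nonneg b]

theorem eng_bound : ∃ c : ℝ, 0 < c ∧ ∀ (D : Set (EE d)) (G H : Fin d → Fin d → EE d → ℝ)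
    (x : EE d), |eng Z D G H x| ≤ c * Real.sqrt (stn G x) * Real.sqrt (stn H x) := by
  refine ⟨(|Z.lam| + |Z.lam'|) * (d : ℝ) * d + (|Z.mu| + |Z.mu'|) / 2 + 1, by positivity, ?_⟩
  intro D G H x
  have hG := Real.sqrt_nonneg (stn G x)
  have hH := Real.sqrt_nonneg (stn H x)
  have h1 : |coef D Z.lam Z.lam' x * (∑ j, G j j x) * (∑ j, H j j x)| ≤
      (|Z.lam| + |Z.lam'|) * ((d : ℝ) * Real.sqrt (stn G x)) * ((d : ℝ) * Real.sqrt (stn H x)) := by
    rw [abs_mul, abs_mul]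
    have a1 := w8_coef_abs D Z.lam Z.lam' x
    have a2 := w8_trabs G x
    have a3 := w8_trabs H x
    gcongr
  have h2 : |coef D Z.mu Z.mu' x / 2 * ∑ k, ∑ i, (G k i x + G i k x) * (H k i x + H i k x)| ≤
      (|Z.mu| + |Z.mu'|) / 2 * (Real.sqrt (stn G x) * Real.sqrt (stn H x)) := by
    rw [abs_mul, abs_div, abs_of_pos (by norm_num : (0 : ℝ) < 2)]
    have a1 := w8_coef_abs D Z.mu Z.mu' x
    have a2 := w8_cs G H x
    gcongr
  have h3 : |eng Z D G H x| ≤ |coef D Z.lam Z.lam' x * (∑ j, G j j x) * (∑ j, H j j x)| +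
      |coef D Z.mu Z.mu' x / 2 * ∑ k, ∑ i, (G k i x + G i k x) * (H k i x + H i k x)| :=
    abs_add_le _ _
  have h4 : 0 ≤ Real.sqrt (stn G x) * Real.sqrt (stn H x) := mul_nonneg hG hH
  calc |eng Z D G H x| ≤ _ := h3
    _ ≤ _ := add_le_add h1 h2
    _ ≤ _ := by nlinarith

/-- the strain controls: `sqrt (stn H) ≤ 2 sqrt (∑ H_ki²)` -/
theorem stn_le (H : Fin d → Fin d → EE d → ℝ) (x : EE d) :
    stn H x ≤ 4 * ∑ k, ∑ i, H k i x ^ 2 := by
  have h1 : ∑ k, ∑ i, H i k x ^ 2 = ∑ k, ∑ i, H k i x ^ 2 := Finset.sum_comm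
  have h2 : stn H x ≤ ∑ k, ∑ i, (2 * H k i x ^ 2 + 2 * H i k x ^ 2) :=
    Finset.sum_le_sum fun k _ => Finset.sum_le_sum fun i _ => by
      nlinarith [sq_nonneg (H k i x - H i k x)]
  have h3 : ∑ k, ∑ i, (2 * H k i x ^ 2 + 2 * H i k x ^ 2) =
      2 * ∑ k, ∑ i, H k i x ^ 2 + 2 * ∑ k, ∑ i, H i k x ^ 2 := by
    rw [Finset.mul_sum, Finset.mul_sum, ← Finset.sum_add_distrib]
    refine Finset.sum_congr rfl fun k _ => ?_
    rw [Finset.mul_sum, Finset.mul_sum, ← Finset.sum_add_distrib]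
  rw [h3, h1] at h2
  linarith

/-- the difference of the forms of two nested inclusions is definite on the difference -/
theorem eng_diff : (∃ c : ℝ, 0 < c ∧ ∀ (A B : Set (EE d)) (G : Fin d → Fin d → EE d → ℝ)
      (x : EE d), x ∈ B → x ∉ A → c * stn G x ≤ eng Z B G G x - eng Z A G G x) ∨
    (∃ c : ℝ, 0 < c ∧ ∀ (A B : Set (EE d)) (G : Fin d → Fin d → EE d → ℝ)
      (x : EE d), x ∈ B → x ∉ A → c * stn G x ≤ eng Z A G G x - eng Z B G G x) := by
  have hsign := Z.hsign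
  rcases lt_or_gt_of_ne Z.hne with h | h
  · -- `μ' < μ`
    right
    have hl : Z.lam' ≤ Z.lam := by
      by_contra hc
      rw [not_le] at hc
      have h1 : (Z.lam - Z.lam') * (Z.mu - Z.mu') < 0 :=
        mul_neg_of_neg_of_pos (by linarith) (by linarith)
      linarith
    refine ⟨(Z.mu - Z.mu') / 2, by linarith, ?_⟩
    intro A B G x hB hA
    rw [w8_diag, w8_diag, w8_coef_mem _ _ hB, w8_coef_mem _ _ hB, w8_coef_not _ _ hA,
      w8_coef_not _ _ hA]
    have h1 : 0 ≤ (Z.lam - Z.lam') * (∑ j, G j j x) ^ 2 :=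
      mul_nonneg (by linarith) (sq_nonneg _)
    nlinarith
  · left
    have hl : Z.lam ≤ Z.lam' := by
      by_contra hc
      rw [not_le] at hc
      have h1 : (Z.lam - Z.lam') * (Z.mu - Z.mu') < 0 :=
        mul_neg_of_pos_of_neg (by linarith) (by linarith)
      linarith
    refine ⟨(Z.mu' - Z.mu) / 2, by linarith, ?_⟩
    intro A B G x hB hA
    rw [w8_diag, w8_diag, w8_coef_mem _ _ hB, w8_coef_mem _ _ hB, w8_coef_not _ _ hA,
      w8_coef_not _ _ hA]
    have h1 : 0 ≤ (Z.lam' - Z.lam) * (∑ j, G j j x) ^ 2 :=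
      mul_nonneg (by linarith) (sq_nonneg _)
    nlinarith

private theorem w8_l2loc_zero {V : Set (EE d)} : L2loc V (fun _ => (0 : ℝ)) := by
  intro K _ _
  exact MemLp.zero

private theorem w8_l2loc_sum {V : Set (EE d)} {ι : Type} (s : Finset ι) {f : ι → EE d → ℝ}
    (h : ∀ j ∈ s, L2loc V (f j)) : L2loc V (fun x => ∑ j ∈ s, f j x) := by
  intro K hK hKV
  exact memLp_finsetSum s fun j hj => h j hj K hK hKV

private theorem w8_coef_meas {D : Set (EE d)} (hD : MeasurableSet D) (a b : ℝ) :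
    Measurable (coef D a b) :=
  measurable_const.add (measurable_const.indicator hD)

private theorem w8_sig_l2 {D V : Set (EE d)} (hD : MeasurableSet D)
    {G : Fin d → Fin d → EE d → ℝ} (hG : ∀ k i, L2loc V (G k i)) (i k : Fin d) :
    L2loc V (sigD Z D G i k) := by
  have h1 : L2loc V (fun x => if i = k then ∑ j, G j j x else 0) := by
    split_ifs
    · exact w8_l2loc_sum Finset.univ fun j _ => hG j j
    · exact w8_l2loc_zero
  have h2 := l2loc_bdd_mul h1 (w8_coef_meas hD Z.lam Z.lam') (w8_coef_abs D Z.lam Z.lam')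
  have h3 := l2loc_bdd_mul (l2loc_add (hG k i) (hG i k)) (w8_coef_meas hD Z.mu Z.mu')
    (w8_coef_abs D Z.mu Z.mu')
  exact l2loc_add h2 h3

/-- the weak equation tested with a compactly supported field of `H¹` -/
theorem weq_test {D V : Set (EE d)} (hD : MeasurableSet D) (hV : IsOpen V)
    {G : Fin d → Fin d → EE d → ℝ} (hG : ∀ k i, L2loc V (G k i)) (h : WEq Z D V G)
    {K : Set (EE d)} (hK : IsCompact K) (hKV : K ⊆ V) {ψ : Fin d → EE d → ℝ}
    {Ψ : Fin d → Fin d → EE d → ℝ} (hψ : ∀ k, WD univ (ψ k) (Ψ k))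
    (hψ0 : ∀ k, ∀ x ∉ K, ψ k x = 0) (hΨ0 : ∀ k i, ∀ x ∉ K, Ψ k i x = 0) :
    ∫ x, eng Z D G Ψ x = 0 := by
  have hint : ∀ k i, Integrable (fun x => sigD Z D G i k x * Ψ k i x) := by
    intro k i
    have h1 : MemLp (sigD Z D G i k) 2 (volume.restrict K) :=
      w8_sig_l2 Z hD hG i k K hK hKV
    have h2 : MemLp (Ψ k i) 2 (volume.restrict K) := (hψ k).2.1 i K hK (subset_univ _)
    have h3 : IntegrableOn (fun x => sigD Z D G i k x * Ψ k i x) K := h1.integrable_mul h2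
    exact h3.integrable_of_forall_notMem_eq_zero fun x hx => by
      show sigD Z D G i k x * Ψ k i x = 0
      rw [hΨ0 k i x hx, mul_zero]
  have hk : ∀ k, ∫ x, ∑ i, sigD Z D G i k x * Ψ k i x = 0 := fun k =>
    test_h1 hV (F := fun i => sigD Z D G i k) (fun i => w8_sig_l2 Z hD hG i k)
      (fun φ hφ hs => h φ hφ hs k) hK hKV (hψ k) (hψ0 k) (hΨ0 k)
  have h1 : ∀ x, eng Z D G Ψ x = ∑ k, ∑ i, sigD Z D G i k x * Ψ k i x := fun x =>
    (eng_eq Z D G Ψ x).symm
  simp only [h1]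
  rw [integral_finsetSum]
  · exact Finset.sum_eq_zero fun k _ => hk k
  · intro k _
    exact integrable_finsetSum _ fun i _ => hint k i

end Pool.Agent.MP_0643f8_an.U
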