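import Mathlib
import Pool.Agent.Lib.MP_0643f8_an.U.W8_Energy

/-!
# Nested inclusions with the same exterior field

`η` a test function in `V`, equal to `1` near `Kc`. Let `z = uA - uB`, equal to `0` almost everywhere
on `V \ Kc`, so `η z = z`. Tests (`weq_test`):
* `∫ eng_A(GA, Gz) = 0`, `∫ eng_B(GB, Gz) = 0`;
* `∫ eng_A(GA, grad(η uB)) = 0 = ∫ eng_B(GB, grad(η uA))`; off `Kc` the two integrands agree
  (`GA = GB`, `uA = uB`, `coef` equal), on `Kc` `grad (η u) = G`; the difference is
  `∫_{B \ A} (eng_A - eng_B)(GA, GB) = 0`.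
Hence `∫ eng_A(Gz,Gz) = - ∫ eng_A(GB,Gz) = ∫_{B\A} (eng_B - eng_A)(GB,Gz)
= - ∫_{B\A} (eng_B - eng_A)(GB,GB)` and, by symmetry,
`∫ eng_B(Gz,Gz) = ∫_{B\A} (eng_B - eng_A)(GA,GA)`. Use the first identity if `eng_B - eng_A` is
positive definite on `B \ A` and the second one if it is negative definite (`eng_diff`). In both
cases the strain of `z` vanishes, and so does the strain of `GB` or of `GA` on `B \ A`.
-/

set_option autoImplicit false

open MeasureTheory Metric Set Filter Topology
open scoped ContDiff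

namespace Pool.Agent.MP_0643f8_an.U
variable {d : ℕ} (Z : Cst d)

/-! ### auxiliary facts, also used in the next file -/

/-- a cutoff function -/
theorem w11_cutoff {V Kc : Set (EE d)} (hV : IsOpen V) (hKc : IsCompact Kc) (hKV : Kc ⊆ V) :
    ∃ η : EE d → ℝ, IsTest η ∧ tsupport η ⊆ V ∧ ∀ x ∈ Kc, η =ᶠ[𝓝 x] fun _ => (1 : ℝ) := by
  obtain ⟨δ, hδ, hδV⟩ := hKc.exists_cthickening_subset_open hV hKV
  have hK' : IsCompact (cthickening δ Kc) := hKc.cthickening
  have hint : Kc ⊆ interior (cthickening δ Kc) :=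
    (self_subset_thickening hδ Kc).trans (thickening_subset_interior_cthickening δ Kc)
  obtain ⟨f, hf1, hf0, -⟩ := exists_contMDiffMap_one_nhds_of_subset_interior
    (modelWithCornersSelf ℝ (EE d)) (n := (⊤ : ℕ∞)) hKc.isClosed hint
  have hts : tsupport (f : EE d → ℝ) ⊆ cthickening δ Kc := by
    refine closure_minimal ?_ isClosed_cthickening
    intro x hx
    by_contra hxK
    exact hx (hf0 x hxK)
  refine ⟨f, ⟨?_, ?_⟩, hts.trans hδV, ?_⟩
  · exact f.contMDiff.contDiff
  · exact HasCompactSupport.of_support_subset_isCompact hK' ((subset_tsupport _).trans hts)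
  · intro x hx
    exact (eventually_nhdsSet_iff_forall.1 hf1) x hx

theorem w11_coef_meas {D : Set (EE d)} (hD : MeasurableSet D) (a b : ℝ) :
    Measurable (coef D a b) := by
  unfold coef
  exact measurable_const.add (measurable_const.indicator hD)

theorem w11_coef_le (D : Set (EE d)) (a b : ℝ) (x : EE d) : ‖coef D a b x‖ ≤ |a| + |b - a| := by
  unfold coef
  rw [Real.norm_eq_abs]
  by_cases hx : x ∈ D
  · rw [indicator_of_mem hx]; exact abs_add_le _ _
  · rw [indicator_of_notMem hx, add_zero]; linarith [abs_nonneg (b - a)]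

theorem w11_eng_int {D : Set (EE d)} (hD : MeasurableSet D) {ν : Measure (EE d)}
    {G H : Fin d → Fin d → EE d → ℝ} (hG : ∀ k i, MemLp (G k i) 2 ν)
    (hH : ∀ k i, MemLp (H k i) 2 ν) : Integrable (eng Z D G H) ν := by
  have h1 : Integrable (fun x => (∑ j, G j j x) * (∑ j, H j j x)) ν :=
    (memLp_finsetSum _ fun j _ => hG j j).integrable_mul (memLp_finsetSum _ fun j _ => hH j j)
  have h2 : ∀ k i, Integrable (fun x => (G k i x + G i k x) * (H k i x + H i k x)) ν :=
    fun k i => ((hG k i).add (hG i k)).integrable_mul ((hH k i).add (hH i k))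
  have h3 : Integrable (fun x => ∑ k, ∑ i, (G k i x + G i k x) * (H k i x + H i k x)) ν :=
    integrable_finsetSum _ fun k _ => integrable_finsetSum _ fun i _ => h2 k i
  have h4 := h1.bdd_mul (w11_coef_meas hD Z.lam Z.lam').aestronglyMeasurable
    (Eventually.of_forall (w11_coef_le D Z.lam Z.lam'))
  have h5 := (h3.bdd_mul (w11_coef_meas hD Z.mu Z.mu').aestronglyMeasurable
    (Eventually.of_forall (w11_coef_le D Z.mu Z.mu'))).const_mul (1 / 2)
  refine (h4.add h5).congr (Eventually.of_forall fun x => ?_)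
  simp only [eng, Pi.add_apply]
  ring

/-- the energy density depends only on the values of the gradients -/
theorem w11_eng_congr {D : Set (EE d)} {G G' H H' : Fin d → Fin d → EE d → ℝ} {x : EE d}
    (hG : ∀ k i, G k i x = G' k i x) (hH : ∀ k i, H k i x = H' k i x) :
    eng Z D G H x = eng Z D G' H' x := by
  simp only [eng, hG, hH]

theorem w11_eng_zero {D : Set (EE d)} {G H : Fin d → Fin d → EE d → ℝ} {x : EE d}
    (hH : ∀ k i, H k i x = 0) : eng Z D G H x = 0 := by
  simp [eng, hH]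

theorem w11_eng_D {A B : Set (EE d)} {G H : Fin d → Fin d → EE d → ℝ} {x : EE d}
    (h : x ∈ A ↔ x ∈ B) : eng Z A G H x = eng Z B G H x := by
  have h1 : ∀ a b : ℝ, coef A a b x = coef B a b x := by
    intro a b
    unfold coef
    by_cases hx : x ∈ A
    · rw [indicator_of_mem hx, indicator_of_mem (h.1 hx)]
    · rw [indicator_of_notMem hx, indicator_of_notMem (fun hm => hx (h.2 hm))]
  simp only [eng, h1]

theorem w11_eng_sub_left (D : Set (EE d)) (G G' H : Fin d → Fin d → EE d → ℝ) (x : EE d) :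
    eng Z D (fun k i x => G k i x - G' k i x) H x = eng Z D G H x - eng Z D G' H x := by
  have h1 : ∀ k i, (G k i x - G' k i x + (G i k x - G' i k x)) * (H k i x + H i k x) =
      (G k i x + G i k x) * (H k i x + H i k x) - (G' k i x + G' i k x) * (H k i x + H i k x) := by
    intro k i; ring
  simp only [eng, h1, Finset.sum_sub_distrib]
  ring

/-- the gradient of `η u` -/
noncomputable def w11_cut (η : EE d → ℝ) (u : Fin d → EE d → ℝ) (G : Fin d → Fin d → EE d → ℝ)
    (k i : Fin d) (x : EE d) : ℝ := η x * G k i x + u k x * pd i η x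

theorem w11_cut_on {η : EE d → ℝ} {x : EE d} (h : η =ᶠ[𝓝 x] fun _ => (1 : ℝ))
    (u : Fin d → EE d → ℝ) (G : Fin d → Fin d → EE d → ℝ) (k i : Fin d) :
    w11_cut η u G k i x = G k i x := by
  have h1 : η x = 1 := h.self_of_nhds
  have h2 : pd i η x = 0 := by
    rw [(pd_congr h i).self_of_nhds, pd_const]
  simp only [w11_cut, h1, h2]
  ring

theorem w11_cut_off {η : EE d → ℝ} {x : EE d} (h : x ∉ tsupport η)
    (u : Fin d → EE d → ℝ) (G : Fin d → Fin d → EE d → ℝ) (k i : Fin d) :
    w11_cut η u G k i x = 0 := by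
  have h0 : η =ᶠ[𝓝 x] fun _ => (0 : ℝ) := by
    rw [notMem_tsupport_iff_eventuallyEq] at h
    exact h
  have h1 : η x = 0 := h0.self_of_nhds
  have h2 : pd i η x = 0 := by
    rw [(pd_congr h0 i).self_of_nhds, pd_const]
  simp only [w11_cut, h1, h2]
  ring

/-- testing the equation with `η u` -/
theorem w11_test {D V : Set (EE d)} (hD : MeasurableSet D) (hV : IsOpen V)
    {G : Fin d → Fin d → EE d → ℝ} (hG : ∀ k i, L2loc V (G k i)) (h : WEq Z D V G)
    {η : EE d → ℝ} (hη : IsTest η) (hs : tsupport η ⊆ V)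
    {u : Fin d → EE d → ℝ} {H : Fin d → Fin d → EE d → ℝ} (hu : ∀ k, WD V (u k) (H k)) :
    ∫ x, eng Z D G (w11_cut η u H) x = 0 := by
  refine weq_test Z hD hV hG h (K := tsupport η) hη.2 hs (ψ := fun k x => η x * u k x)
    (fun k => wd_mul hV (hu k) hη hs) ?_ ?_
  · intro k x hx
    rw [image_eq_zero_of_notMem_tsupport hx, zero_mul]
  · intro k i x hx
    exact w11_cut_off hx u H k i

/-- integrability of the tested density -/
theorem w11_int {D V : Set (EE d)} (hD : MeasurableSet D) (hV : IsOpen V)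
    {G : Fin d → Fin d → EE d → ℝ} (hG : ∀ k i, L2loc V (G k i))
    {η : EE d → ℝ} (hη : IsTest η) (hs : tsupport η ⊆ V)
    {u : Fin d → EE d → ℝ} {H : Fin d → Fin d → EE d → ℝ} (hu : ∀ k, WD V (u k) (H k)) :
    Integrable (eng Z D G (w11_cut η u H)) := by
  have hc : IsCompact (tsupport η) := hη.2
  have h1 : IntegrableOn (eng Z D G (w11_cut η u H)) (tsupport η) volume := by
    refine w11_eng_int Z hD (fun k i => hG k i _ hc hs) (fun k i => ?_)
    exact (wd_mul hV (hu k) hη hs).2.1 i _ hc (subset_univ _)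
  rw [← integrableOn_iff_integrable_of_support_subset (s := tsupport η)]
  · exact h1
  · intro x hx
    by_contra hxs
    exact hx (w11_eng_zero Z fun k i => w11_cut_off hxs u H k i)

theorem w11_ae {V Kc : Set (EE d)} (hV : IsOpen V) (hKc : IsCompact Kc)
    {f g : EE d → ℝ} (h : ∀ᵐ x ∂(volume.restrict (V \ Kc)), f x = g x) :
    ∀ᵐ x ∂(volume : Measure (EE d)), x ∈ V → x ∉ Kc → f x = g x := by
  rw [ae_restrict_iff' (hV.measurableSet.diff hKc.isClosed.measurableSet)] at h
  filter_upwards [h] with x hx h1 h2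
  exact hx ⟨h1, h2⟩

/-- the cross term -/
theorem nest_cross {V A B Kc : Set (EE d)} (hV : IsOpen V) (hKc : IsCompact Kc) (hKV : Kc ⊆ V)
    (hA : MeasurableSet A) (hB : MeasurableSet B) (hAB : A ⊆ B) (hBK : B ⊆ Kc)
    {uA uB : Fin d → EE d → ℝ} {GA GB : Fin d → Fin d → EE d → ℝ}
    (huA : ∀ k, WD V (uA k) (GA k)) (huB : ∀ k, WD V (uB k) (GB k))
    (wA : WEq Z A V GA) (wB : WEq Z B V GB)
    (heq : ∀ k, ∀ᵐ x ∂(volume.restrict (V \ Kc)), uA k x = uB k x)
    (heqG : ∀ k i, ∀ᵐ x ∂(volume.restrict (V \ Kc)), GA k i x = GB k i x) :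
    ∫ x in B \ A, (eng Z B GA GB x - eng Z A GA GB x) = 0 := by
  obtain ⟨η, hη, hs, h1⟩ := w11_cutoff hV hKc hKV
  have tB := w11_test Z hA hV (fun k i => (huA k).2.1 i) wA hη hs huB
  have tA := w11_test Z hB hV (fun k i => (huB k).2.1 i) wB hη hs huA
  have iB := w11_int Z hA hV (fun k i => (huA k).2.1 i) hη hs huB
  have iA := w11_int Z hB hV (fun k i => (huB k).2.1 i) hη hs huA
  have e : ∀ᵐ x ∂(volume : Measure (EE d)),
      (B \ A).indicator (fun x => eng Z B GA GB x - eng Z A GA GB x) x =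
      eng Z B GB (w11_cut η uA GA) x - eng Z A GA (w11_cut η uB GB) x := by
    have e1 : ∀ᵐ x ∂(volume : Measure (EE d)), ∀ k, x ∈ V → x ∉ Kc → uA k x = uB k x :=
      ae_all_iff.2 fun k => w11_ae hV hKc (heq k)
    have e2 : ∀ᵐ x ∂(volume : Measure (EE d)), ∀ k i, x ∈ V → x ∉ Kc → GA k i x = GB k i x :=
      ae_all_iff.2 fun k => ae_all_iff.2 fun i => w11_ae hV hKc (heqG k i)
    filter_upwards [e1, e2] with x hx1 hx2
    by_cases hK : x ∈ Kc
    · have f1 : eng Z B GB (w11_cut η uA GA) x = eng Z B GA GB x := by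
        rw [eng_symm Z B GA GB x]
        exact w11_eng_congr Z (fun k i => rfl) fun k i => w11_cut_on (h1 x hK) uA GA k i
      have f2 : eng Z A GA (w11_cut η uB GB) x = eng Z A GA GB x :=
        w11_eng_congr Z (fun k i => rfl) fun k i => w11_cut_on (h1 x hK) uB GB k i
      rw [f1, f2]
      by_cases hx : x ∈ B \ A
      · rw [indicator_of_mem hx]
      · rw [indicator_of_notMem hx]
        have hAB' : x ∈ A ↔ x ∈ B :=
          ⟨fun h => hAB h, fun h => by by_contra h'; exact hx ⟨h, h'⟩⟩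
        rw [w11_eng_D Z hAB', sub_self]
    · have hxB : x ∉ B := fun h => hK (hBK h)
      have hxA : x ∉ A := fun h => hxB (hAB h)
      rw [indicator_of_notMem (fun h => hxB h.1)]
      by_cases hxs : x ∈ tsupport η
      · have hxV := hs hxs
        have f1 : eng Z B GB (w11_cut η uA GA) x = eng Z A GA (w11_cut η uB GB) x := by
          rw [← w11_eng_D Z (A := A) (B := B) ⟨fun h => (hxA h).elim, fun h => (hxB h).elim⟩]
          refine w11_eng_congr Z (fun k i => (hx2 k i hxV hK).symm) fun k i => ?_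
          simp only [w11_cut, hx1 k hxV hK, hx2 k i hxV hK]
        rw [f1, sub_self]
      · rw [w11_eng_zero Z fun k i => w11_cut_off hxs uA GA k i,
          w11_eng_zero Z fun k i => w11_cut_off hxs uB GB k i, sub_self]
  rw [← integral_indicator (hB.diff hA), integral_congr_ae e, integral_sub iA iB, tA, tB, sub_self]

end Pool.Agent.MP_0643f8_an.U
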