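import Mathlib
import Pool.Agent.Lib.MP_0643f8_an.U.W11a_Cross

/-!
# Nested inclusions with the same exterior field

`η` a test function in `V`, equal to `1` near `Kc`. Let `z = uA - uB`, equal to `0` almost everywhere
on `V \ Kc`, so `η z = z`. Tests (`weq_test`):
* `∫ eng_A(GA, Gz) = 0`, `∫ eng_B(GB, Gz) = 0`;
* `∫ eng_A(GA, grad(η uB)) = 0 = ∫ eng_B(GB, grad(η uA))`; off `Kc` the two integrands agree
  (`GA = GB`, `uA = uB`, `coef` equal), on `Kc` `grad (η u) = G`; the difference is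
  `∫_{B \ A} (eng_A - eng_B)(GA, GB) = 0`.
Hence `∫ eng_A(Gz,Gz) = - ∫ eng_A(GB,Gz) = ∫_{B\A} (eng_B - eng_A)(GB,Gz)
= - ∫_{B\A} (eng_B - eng_A)(GB,GB)` and, by symmetry,
`∫ eng_B(Gz,Gz) = ∫_{B\A} (eng_B - eng_A)(GA,GA)`. Use the first identity if `eng_B - eng_A` is
positive definite on `B \ A` and the second one if it is negative definite (`eng_diff`). In both
cases the strain of `z` vanishes, and so does the strain of `GB` or of `GA` on `B \ A`.
-/

set_option autoImplicit false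

open MeasureTheory Metric Set Filter Topology
open scoped ContDiff

namespace Pool.Agent.MP_0643f8_an.U
variable {d : ℕ} (Z : Cst d)

private theorem w11_stn_nonneg (G : Fin d → Fin d → EE d → ℝ) (x : EE d) : 0 ≤ stn G x :=
  Finset.sum_nonneg fun _ _ => Finset.sum_nonneg fun _ _ => sq_nonneg _

private theorem w11_of_stn {G : Fin d → Fin d → EE d → ℝ} {x : EE d} (h : stn G x = 0)
    (k i : Fin d) : G k i x + G i k x = 0 := by
  unfold stn at h
  rw [Finset.sum_eq_zero_iff_of_nonneg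
    (fun _ _ => Finset.sum_nonneg fun _ _ => sq_nonneg _)] at h
  have h1 := h k (Finset.mem_univ k)
  rw [Finset.sum_eq_zero_iff_of_nonneg (fun _ _ => sq_nonneg _)] at h1
  exact pow_eq_zero_iff (by norm_num) |>.1 (h1 i (Finset.mem_univ i))

private theorem w11_eng_sub_right (D : Set (EE d)) (G H H' : Fin d → Fin d → EE d → ℝ) (x : EE d) :
    eng Z D G (fun k i x => H k i x - H' k i x) x = eng Z D G H x - eng Z D G H' x := by
  rw [eng_symm, w11_eng_sub_left, eng_symm Z D H, eng_symm Z D H']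

/-- from the two identities to the vanishing of the strains -/
private theorem w11_vanish {A B : Set (EE d)} (hA : MeasurableSet A) (hB : MeasurableSet B)
    (D : Set (EE d)) (Ψ G : Fin d → Fin d → EE d → ℝ) {e : EE d → ℝ}
    (hi : Integrable (eng Z D Ψ Ψ)) (he : IntegrableOn e (B \ A))
    {c' : ℝ} (hc' : 0 < c') (hpos : ∀ x ∈ B \ A, c' * stn G x ≤ e x)
    (hid : ∫ x, eng Z D Ψ Ψ x = - ∫ x in B \ A, e x) :
    (∀ᵐ x ∂(volume : Measure (EE d)), stn Ψ x = 0) ∧
      ∀ᵐ x ∂(volume.restrict (B \ A)), stn G x = 0 := by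
  obtain ⟨c, hc, hco⟩ := eng_coercive Z
  have n1 : ∀ x, 0 ≤ eng Z D Ψ Ψ x := fun x =>
    (mul_nonneg hc.le (w11_stn_nonneg Ψ x)).trans (hco D Ψ x)
  have n2 : ∀ x ∈ B \ A, 0 ≤ e x := fun x hx =>
    (mul_nonneg hc'.le (w11_stn_nonneg G x)).trans (hpos x hx)
  have m : MeasurableSet (B \ A) := hB.diff hA
  have n2' : 0 ≤ᵐ[volume.restrict (B \ A)] e := by
    rw [EventuallyLE, ae_restrict_iff' m]
    exact Eventually.of_forall n2
  have p1 : 0 ≤ ∫ x, eng Z D Ψ Ψ x := integral_nonneg n1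
  have p2 : 0 ≤ ∫ x in B \ A, e x := integral_nonneg_of_ae n2'
  have z1 : ∫ x, eng Z D Ψ Ψ x = 0 := by linarith
  have z2 : ∫ x in B \ A, e x = 0 := by linarith
  have q1 := (integral_eq_zero_iff_of_nonneg n1 hi).1 z1
  have q2 := (integral_eq_zero_iff_of_nonneg_ae n2' he).1 z2
  constructor
  · filter_upwards [q1] with x hx
    have h1 := hco D Ψ x
    have h2 : eng Z D Ψ Ψ x = 0 := hx
    rw [h2] at h1
    have h3 := w11_stn_nonneg Ψ x
    by_contra hne
    have h4 : 0 < stn Ψ x := lt_of_le_of_ne h3 (Ne.symm hne)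
    have := mul_pos hc h4
    linarith
  · rw [EventuallyEq, ae_restrict_iff' m] at q2
    rw [ae_restrict_iff' m]
    filter_upwards [q2] with x hx hxm
    have h1 := hpos x hxm
    have h2 : e x = 0 := hx hxm
    rw [h2] at h1
    have h3 := w11_stn_nonneg G x
    by_contra hne
    have h4 : 0 < stn G x := lt_of_le_of_ne h3 (Ne.symm hne)
    have := mul_pos hc' h4
    linarith

theorem nest {V A B Kc : Set (EE d)} (hV : IsOpen V) (hKc : IsCompact Kc) (hKV : Kc ⊆ V)
    (hA : MeasurableSet A) (hB : MeasurableSet B) (hAB : A ⊆ B) (hBK : B ⊆ Kc)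
    {uA uB : Fin d → EE d → ℝ} {GA GB : Fin d → Fin d → EE d → ℝ}
    (huA : ∀ k, WD V (uA k) (GA k)) (huB : ∀ k, WD V (uB k) (GB k))
    (wA : WEq Z A V GA) (wB : WEq Z B V GB)
    (heq : ∀ k, ∀ᵐ x ∂(volume.restrict (V \ Kc)), uA k x = uB k x)
    (heqG : ∀ k i, ∀ᵐ x ∂(volume.restrict (V \ Kc)), GA k i x = GB k i x) :
    (∀ k i, ∀ᵐ x ∂(volume.restrict V), GA k i x + GA i k x = GB k i x + GB i k x) ∧
      ∀ k i, ∀ᵐ x ∂(volume.restrict (B \ A)), GA k i x + GA i k x = 0 := by
  obtain ⟨η, hη, hs, h1⟩ := w11_cutoff hV hKc hKV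
  have hmB : MeasurableSet (B \ A) := hB.diff hA
  have hBV : B ⊆ V := hBK.trans hKV
  have lA : ∀ k i, L2loc V (GA k i) := fun k i => (huA k).2.1 i
  have lB : ∀ k i, L2loc V (GB k i) := fun k i => (huB k).2.1 i
  let uz : Fin d → EE d → ℝ := fun k x => uA k x - uB k x
  let Gz : Fin d → Fin d → EE d → ℝ := fun k i x => GA k i x - GB k i x
  have huz : ∀ k, WD V (uz k) (Gz k) := fun k => wd_sub (huA k) (huB k)
  set Ψ := w11_cut η uz Gz with hΨ
  have tA := w11_test Z hA hV lA wA hη hs huz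
  have tB := w11_test Z hB hV lB wB hη hs huz
  have iAA := w11_int Z hA hV lA hη hs huz
  have iAB := w11_int Z hA hV lB hη hs huz
  have iBA := w11_int Z hB hV lA hη hs huz
  have iBB := w11_int Z hB hV lB hη hs huz
  have e1 : ∀ᵐ x ∂(volume : Measure (EE d)), ∀ k, x ∈ V → x ∉ Kc → uA k x = uB k x :=
    ae_all_iff.2 fun k => w11_ae hV hKc (heq k)
  have e2 : ∀ᵐ x ∂(volume : Measure (EE d)), ∀ k i, x ∈ V → x ∉ Kc → GA k i x = GB k i x :=
    ae_all_iff.2 fun k => ae_all_iff.2 fun i => w11_ae hV hKc (heqG k i)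
  -- `Ψ = Gz` almost everywhere on `V`
  have hΨV : ∀ᵐ x ∂(volume : Measure (EE d)), x ∈ V → ∀ k i, Ψ k i x = GA k i x - GB k i x := by
    filter_upwards [e1, e2] with x hx1 hx2 hxV k i
    by_cases hK : x ∈ Kc
    · exact w11_cut_on (h1 x hK) uz Gz k i
    · have f1 : uz k x = 0 := by simp only [uz, hx1 k hxV hK, sub_self]
      have f2 : GA k i x - GB k i x = 0 := by rw [hx2 k i hxV hK, sub_self]
      have f3 : Gz k i x = 0 := f2
      rw [f2]
      show η x * Gz k i x + uz k x * pd i η x = 0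
      rw [f1, f3]; ring
  -- `eng (Ψ, Ψ) = eng (GA, Ψ) - eng (GB, Ψ)` almost everywhere
  have hΨΨ : ∀ D : Set (EE d), ∀ᵐ x ∂(volume : Measure (EE d)),
      eng Z D Ψ Ψ x = eng Z D GA Ψ x - eng Z D GB Ψ x := by
    intro D
    filter_upwards [hΨV] with x hx
    by_cases hxV : x ∈ V
    · rw [← w11_eng_sub_left]
      exact w11_eng_congr Z (fun k i => hx hxV k i) fun k i => rfl
    · have h0 : ∀ k i, Ψ k i x = 0 := fun k i => w11_cut_off (fun h => hxV (hs h)) uz Gz k i
      rw [w11_eng_zero Z h0, w11_eng_zero Z h0, w11_eng_zero Z h0, sub_self]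
  -- the difference of the two forms lives on `B \ A`
  have hdiff : ∀ G : Fin d → Fin d → EE d → ℝ, ∀ x,
      eng Z B G Ψ x - eng Z A G Ψ x = (B \ A).indicator (fun x => (eng Z B G GA x - eng Z A G GA x) -
        (eng Z B G GB x - eng Z A G GB x)) x := by
    intro G x
    by_cases hx : x ∈ B \ A
    · have hK : x ∈ Kc := hBK hx.1
      rw [indicator_of_mem hx]
      have f : ∀ D : Set (EE d), eng Z D G Ψ x = eng Z D G GA x - eng Z D G GB x := by
        intro D
        rw [← w11_eng_sub_right]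
        exact w11_eng_congr Z (fun k i => rfl) fun k i => w11_cut_on (h1 x hK) uz Gz k i
      rw [f B, f A]; ring
    · rw [indicator_of_notMem hx]
      have hAB' : x ∈ A ↔ x ∈ B :=
        ⟨fun h => hAB h, fun h => by by_contra h'; exact hx ⟨h, h'⟩⟩
      rw [w11_eng_D Z hAB', sub_self]
  have mA : ∀ k i, MemLp (GA k i) 2 (volume.restrict (B \ A)) := fun k i =>
    (lA k i Kc hKc hKV).mono_measure (Measure.restrict_mono (sdiff_subset.trans hBK) le_rfl)
  have mB : ∀ k i, MemLp (GB k i) 2 (volume.restrict (B \ A)) := fun k i =>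
    (lB k i Kc hKc hKV).mono_measure (Measure.restrict_mono (sdiff_subset.trans hBK) le_rfl)
  have jd : ∀ {G H : Fin d → Fin d → EE d → ℝ},
      (∀ k i, MemLp (G k i) 2 (volume.restrict (B \ A))) →
      (∀ k i, MemLp (H k i) 2 (volume.restrict (B \ A))) →
      IntegrableOn (fun x => eng Z B G H x - eng Z A G H x) (B \ A) := by
    intro G H hG hH
    exact (w11_eng_int Z hB hG hH).sub (w11_eng_int Z hA hG hH)
  have hcross := nest_cross Z hV hKc hKV hA hB hAB hBK huA huB wA wB heq heqG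
  have hcross' : ∫ x in B \ A, (eng Z B GB GA x - eng Z A GB GA x) = 0 := by
    rw [← hcross]
    refine integral_congr_ae (Eventually.of_forall fun x => ?_)
    simp only [eng_symm Z B GB GA, eng_symm Z A GB GA]
  -- first identity
  have id1 : ∫ x, eng Z A Ψ Ψ x = - ∫ x in B \ A, (eng Z B GB GB x - eng Z A GB GB x) := by
    rw [integral_congr_ae (hΨΨ A), integral_sub iAA iAB, tA]
    have h2 : ∫ x, (eng Z B GB Ψ x - eng Z A GB Ψ x) =
        - ∫ x in B \ A, (eng Z B GB GB x - eng Z A GB GB x) := by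
      rw [integral_congr_ae (Eventually.of_forall (hdiff GB)), integral_indicator hmB,
        integral_sub (jd mB mA) (jd mB mB), hcross', zero_sub]
    rw [integral_sub iBB iAB, tB] at h2
    linarith
  -- second identity
  have id2 : ∫ x, eng Z B Ψ Ψ x = - ∫ x in B \ A, (eng Z A GA GA x - eng Z B GA GA x) := by
    rw [integral_congr_ae (hΨΨ B), integral_sub iBA iBB, tB]
    have h2 : ∫ x, (eng Z B GA Ψ x - eng Z A GA Ψ x) =
        ∫ x in B \ A, (eng Z B GA GA x - eng Z A GA GA x) := by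
      rw [integral_congr_ae (Eventually.of_forall (hdiff GA)), integral_indicator hmB,
        integral_sub (jd mA mA) (jd mA mB), hcross, sub_zero]
    rw [integral_sub iBA iAA, tA] at h2
    have h3 : ∫ x in B \ A, (eng Z A GA GA x - eng Z B GA GA x) =
        - ∫ x in B \ A, (eng Z B GA GA x - eng Z A GA GA x) := by
      rw [← integral_neg]
      refine integral_congr_ae (Eventually.of_forall fun x => ?_)
      simp only; ring
    linarith
  have iΨ : ∀ D : Set (EE d), MeasurableSet D → Integrable (eng Z D GA Ψ) →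
      Integrable (eng Z D GB Ψ) → Integrable (eng Z D Ψ Ψ) := by
    intro D _ ha hb
    refine (ha.sub hb).congr ?_
    filter_upwards [hΨΨ D] with x hx
    rw [hx]; rfl
  -- conclusion for the strain of `z`
  have fin1 : (∀ᵐ x ∂(volume : Measure (EE d)), stn Ψ x = 0) →
      ∀ k i, ∀ᵐ x ∂(volume.restrict V), GA k i x + GA i k x = GB k i x + GB i k x := by
    intro h k i
    rw [ae_restrict_iff' hV.measurableSet]
    filter_upwards [h, hΨV] with x hx hxΨ hxV
    have h3 := w11_of_stn hx k i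
    rw [hxΨ hxV k i, hxΨ hxV i k] at h3
    linarith
  rcases eng_diff Z with ⟨c', hc', hd⟩ | ⟨c', hc', hd⟩
  · obtain ⟨v1, v2⟩ := w11_vanish Z hA hB A Ψ GB (e := fun x => eng Z B GB GB x - eng Z A GB GB x)
      (iΨ A hA iAA iAB) (jd mB mB) hc' (fun x hx => hd A B GB x hx.1 hx.2) id1
    refine ⟨fin1 v1, fun k i => ?_⟩
    have h3 := ae_restrict_of_ae_restrict_of_subset (sdiff_subset.trans hBV : B \ A ⊆ V)
      (fin1 v1 k i)
    filter_upwards [v2, h3] with x hx hx3
    rw [hx3]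
    exact w11_of_stn hx k i
  · obtain ⟨v1, v2⟩ := w11_vanish Z hA hB B Ψ GA (e := fun x => eng Z A GA GA x - eng Z B GA GA x)
      (iΨ B hB iBA iBB) ((w11_eng_int Z hA mA mA).sub (w11_eng_int Z hB mA mA)) hc'
      (fun x hx => hd A B GA x hx.1 hx.2) id2
    refine ⟨fin1 v1, fun k i => ?_⟩
    filter_upwards [v2] with x hx
    exact w11_of_stn hx k i

end Pool.Agent.MP_0643f8_an.U
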