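import Mathlib
import Pool.Agent.Lib.MP_0643f8_an.U.M3a_Spread
import Pool.Agent.Lib.MP_0643f8_an.U.W11_Nest

/-!
# Spreading of zero strain; nested balls
-/

set_option autoImplicit false

open MeasureTheory Metric Set Filter Topology
open scoped ContDiff

namespace Pool.Agent.MP_0643f8_an.U
variable {d : ℕ} (Z : Cst d)

private theorem m3_point (hd : 2 ≤ d) {c₁ c₂ : EE d} {r₁ r₂ : ℝ} (hr₁ : 0 < r₁) (hr₂ : 0 < r₂)
    (hn : dist c₁ c₂ + r₁ ≤ r₂) (hne : ¬ (c₁ = c₂ ∧ r₁ = r₂)) :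
    (ball c₂ r₂ \ closedBall c₁ r₁).Nonempty := by
  obtain ⟨e, he1, he⟩ : ∃ e : EE d, ‖e‖ = 1 ∧ c₂ - c₁ = dist c₁ c₂ • e := by
    by_cases h : c₁ = c₂
    · refine ⟨EuclideanSpace.single (⟨0, by omega⟩ : Fin d) (1 : ℝ), ?_, ?_⟩
      · simp
      · rw [h, sub_self, dist_self, zero_smul]
    · have h1 : 0 < ‖c₂ - c₁‖ := norm_pos_iff.2 (sub_ne_zero.2 (Ne.symm h))
      refine ⟨‖c₂ - c₁‖⁻¹ • (c₂ - c₁), ?_, ?_⟩
      · rw [norm_smul, norm_inv, norm_norm, inv_mul_cancel₀ h1.ne']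
      · rw [dist_comm, dist_eq_norm, smul_smul, mul_inv_cancel₀ h1.ne', one_smul]
  have ht0 : 0 ≤ dist c₁ c₂ := dist_nonneg
  have hlt : r₁ - dist c₁ c₂ < r₂ := by
    rcases eq_or_lt_of_le ht0 with h | h
    · have h2 : c₁ = c₂ := dist_eq_zero.1 h.symm
      have h3 : r₁ ≠ r₂ := fun h3 => hne ⟨h2, h3⟩
      have h4 : r₁ ≤ r₂ := by linarith
      have h5 := lt_of_le_of_ne h4 h3
      linarith
    · linarith
  obtain ⟨s, hs1, hs2⟩ := exists_between (max_lt hlt hr₂)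
  have hs0 : 0 < s := lt_of_le_of_lt (le_max_right _ _) hs1
  have hs3 : r₁ - dist c₁ c₂ < s := lt_of_le_of_lt (le_max_left _ _) hs1
  refine ⟨c₂ + s • e, ?_, ?_⟩
  · rw [mem_ball, dist_eq_norm, add_sub_cancel_left, norm_smul, he1, mul_one,
      Real.norm_of_nonneg hs0.le]
    exact hs2
  · rw [mem_closedBall, dist_eq_norm, not_le]
    have h1 : c₂ + s • e - c₁ = (dist c₁ c₂ + s) • e := by
      rw [add_smul, ← he]
      abel
    rw [h1, norm_smul, he1, mul_one, Real.norm_of_nonneg (by linarith)]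
    linarith

/-- nested balls: the strain of the first solution vanishes. `nest` with `A = ball c₁ r₁`,
`B = ball c₂ r₂`, `Kc = closedBall c₂ r₂`, `V = Ω`; on `B \ closedBall c₁ r₁` (nonempty open) the strains
vanish; `G₂` is a Lame gradient on `ball c₂ r₂` (`lreg` with the constants of the inclusion,
`weq_on`) whose strain vanishes on an open subset, hence on the ball (`strain_ident`), so the strain
of `G₁` vanishes on `ball c₂ r₂ ⊇ ball c₁ r₁`; then `spread`. -/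
theorem nested {Ω : Set (EE d)} (hΩ : IsOpen Ω) (hc : IsPreconnected Ω) {c₁ c₂ : EE d}
    {r₁ r₂ : ℝ} (hr₁ : 0 < r₁) (hr₂ : 0 < r₂) (hb₂ : closedBall c₂ r₂ ⊆ Ω)
    (hn : dist c₁ c₂ + r₁ ≤ r₂) (hne : ¬ (c₁ = c₂ ∧ r₁ = r₂)) {u₁ u₂ : Fin d → EE d → ℝ}
    {G₁ G₂ : Fin d → Fin d → EE d → ℝ} (hu₁ : ∀ k, WD Ω (u₁ k) (G₁ k))
    (hu₂ : ∀ k, WD Ω (u₂ k) (G₂ k)) (hw₁ : WEq Z (ball c₁ r₁) Ω G₁)
    (hw₂ : WEq Z (ball c₂ r₂) Ω G₂)
    (he : ∀ k, ∀ᵐ x ∂(volume.restrict (Ω \ closedBall c₂ r₂)), u₁ k x = u₂ k x)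
    (heG : ∀ k i, ∀ᵐ x ∂(volume.restrict (Ω \ closedBall c₂ r₂)), G₁ k i x = G₂ k i x) :
    ∀ k i, ∀ᵐ x ∂(volume.restrict Ω), G₁ k i x + G₁ i k x = 0 := by
  have hd := Z.hd
  have hsub12 : ball c₁ r₁ ⊆ ball c₂ r₂ := ball_subset_ball' (by linarith)
  have hcsub12 : closedBall c₁ r₁ ⊆ closedBall c₂ r₂ := closedBall_subset_closedBall' (by linarith)
  have hb₂' : ball c₂ r₂ ⊆ Ω := ball_subset_closedBall.trans hb₂
  obtain ⟨hE1, hE2⟩ := nest Z hΩ (isCompact_closedBall c₂ r₂) hb₂ measurableSet_ball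
    measurableSet_ball hsub12 ball_subset_closedBall hu₁ hu₂ hw₁ hw₂ he heG
  set O : Set (EE d) := ball c₂ r₂ \ closedBall c₁ r₁ with hOdef
  have hO : IsOpen O := isOpen_ball.sdiff isClosed_closedBall
  have hOne : O.Nonempty := m3_point hd hr₁ hr₂ hn hne
  have hOB : O ⊆ ball c₂ r₂ := sdiff_subset
  have hOBA : O ⊆ ball c₂ r₂ \ ball c₁ r₁ := sdiff_subset_sdiff_right ball_subset_closedBall
  have hOΩ : O ⊆ Ω := hOB.trans hb₂'
  -- the second field inside the second ball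
  have hl : 0 < Z.lam' + 2 * Z.mu' := by
    have h1 := Z.hlam'
    have h2 := Z.hmu'
    linarith
  obtain ⟨v, hv, -, hvG⟩ := lreg hd isOpen_ball Z.hmu' hl
    (fun k => wd_mono (hu₂ k) hb₂') ((weq_on Z (D := ball c₂ r₂) (V := ball c₂ r₂) Subset.rfl).1
      (weq_mono Z hw₂ hb₂'))
  have hvs : ∀ k, ContDiffOn ℝ ∞ (v k) (ball c₂ r₂) := fun k => lame_smooth isOpen_ball hv k
  have hcont : ∀ i k, ContinuousOn (fun x => pd i (v k) x + pd k (v i) x) (ball c₂ r₂) :=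
    fun i k => ((pd_contDiffOn isOpen_ball (hvs k) i).continuousOn).add
      ((pd_contDiffOn isOpen_ball (hvs i) k).continuousOn)
  -- its strain vanishes on `O`
  have hO0 : ∀ i k, ∀ x ∈ O, pd i (v k) x + pd k (v i) x = 0 := by
    intro i k
    refine eq_of_ae_eq hO ((hcont i k).mono hOB) continuousOn_const ?_
    have e1 := ae_mono (Measure.restrict_mono hOΩ le_rfl) (hE1 k i)
    have e2 := ae_mono (Measure.restrict_mono hOBA le_rfl) (hE2 k i)
    have e3 := ae_mono (Measure.restrict_mono hOB le_rfl) (hvG k i)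
    have e4 := ae_mono (Measure.restrict_mono hOB le_rfl) (hvG i k)
    filter_upwards [e1, e2, e3, e4] with x h1 h2 h3 h4
    unfold grd at h3 h4
    linarith
  obtain ⟨x₀, hx₀⟩ := hOne
  have hst := strain_ident hd isOpen_ball (S := ball c₂ r₂) Subset.rfl
    (convex_ball c₂ r₂).isPreconnected hv (hOB hx₀) (fun i k => by
      filter_upwards [hO.mem_nhds hx₀] with x hx
      exact hO0 i k x hx)
  -- the strain of the first field vanishes on the second ball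
  have hin2 : ∀ k i, ∀ᵐ x ∂(volume.restrict (ball c₂ r₂)), G₁ k i x + G₁ i k x = 0 := by
    intro k i
    have e1 := ae_mono (Measure.restrict_mono hb₂' le_rfl) (hE1 k i)
    have e5 : ∀ᵐ x ∂(volume.restrict (ball c₂ r₂)), x ∈ ball c₂ r₂ :=
      ae_restrict_mem measurableSet_ball
    filter_upwards [e1, hvG k i, hvG i k, e5] with x h1 h3 h4 h5
    have h6 := (hst x h5 i k).self_of_nhds
    unfold grd at h3 h4
    linarith
  refine spread Z hΩ hc hr₁ (hcsub12.trans hb₂) hu₁ hw₁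
    (fun k i => ae_mono (Measure.restrict_mono hsub12 le_rfl) (hin2 k i)) hO ⟨x₀, hx₀⟩
    (fun x hx => ⟨hOΩ hx, hx.2⟩)
    (fun k i => ae_mono (Measure.restrict_mono hOB le_rfl) (hin2 k i))

end Pool.Agent.MP_0643f8_an.U
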