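import Mathlib
import Pool.Agent.Lib.MP_0643f8_an.U.L3_Pole
import Pool.Agent.Lib.MP_0643f8_an.U.L4_WField
import Pool.Agent.Lib.MP_0643f8_an.U.E1_Kel

/-!
# The explicit solution of the transmission problem for the unit ball

On the unit sphere `S` the traces split into `∇b` (type U), `x (2E+d-2) q - ∇q` (type W) and
toroidal fields (type T), and all Dirichlet-to-Neumann operators are diagonal:

* inside, constants `λ, μ`: U: `2μ(n-1)`; W: `κ_n / G_n`; T: `μ(n-1)`;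
* outside: U: `- κ̂_n / Ĝ_n`; W: `- 2μ(n+d-1)`; T: `- μ(n+d-1)`,

where `n` is the degree of `b`, `q`, `T` (`E = n`) and
`M = 2n+d-2`, `N = n+d-2`, `G = 2μM + 2(λ+μ)n`, `Ĝ = 2μM + 2(λ+μ)N`,
`κ = 2μ[(λ+μ)(2n²+2(d-1)n+d(d-2)) - (d-2)μM]`,
`κ̂ = 2μ[(d-2)μM + (λ+μ)(2n²+(2d-6)n+(d-2)²)]`.

The polynomials below are these expressions with `n` replaced by `X`. A solution of the
transmission problem (background field `H`, exterior field `w`, interior field `v = H + w` on `S`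
with matching tractions) is written with free harmonic data `p`, `q`, `T` and numbers `h`, `γ`:

* U: `b = P_U(E) p`, `w`-part with trace `∇ (2(μ-μ')(E-1) Ĝ(E) p)`;
* W: `s = P_W(E) q`, `H`-part with trace of type W for `G(E) s`, `w`-part for `(κG' - κ'G)(E) q`;
* T: `H`-part `P_T(E) T`, `w`-part `(μ-μ')(E-1) T`;
* dilation: `c₀ = (λ'd + 2μ' + 2(d-1)μ) γ`, `c₁ = (λd + 2μ - λ'd - 2μ') γ`.
-/

set_option autoImplicit false

open MeasureTheory Metric Set Filter Topology Polynomial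
open scoped ContDiff

namespace Pool.Agent.MP_0643f8_an.U

variable {d : ℕ}

/-! ### polynomials -/

/-- `M = 2X + d - 2` -/
noncomputable def pM (d : ℕ) : ℝ[X] := 2 * X + C ((d : ℝ) - 2)

/-- `N = X + d - 2` -/
noncomputable def pN (d : ℕ) : ℝ[X] := X + C ((d : ℝ) - 2)

/-- `A = (X + d - 2)(2X + d)` -/
noncomputable def pA (d : ℕ) : ℝ[X] := (X + C ((d : ℝ) - 2)) * (2 * X + C (d : ℝ))

/-- `G = 2μM + 2(λ+μ)X` -/
noncomputable def pG (d : ℕ) (lam mu : ℝ) : ℝ[X] :=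
  C (2 * mu) * pM d + C (2 * (lam + mu)) * X

/-- `Ĝ = 2μM + 2(λ+μ)N` -/
noncomputable def pGh (d : ℕ) (lam mu : ℝ) : ℝ[X] :=
  C (2 * mu) * pM d + C (2 * (lam + mu)) * pN d

/-- `κ` -/
noncomputable def pK (d : ℕ) (lam mu : ℝ) : ℝ[X] :=
  C (2 * mu) * (C (lam + mu) * (2 * X ^ 2 + C (2 * ((d : ℝ) - 1)) * X + C ((d : ℝ) * (d - 2))) -
    C (((d : ℝ) - 2) * mu) * pM d)

/-- `κ̂` -/
noncomputable def pKh (d : ℕ) (lam mu : ℝ) : ℝ[X] :=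
  C (2 * mu) * (C (((d : ℝ) - 2) * mu) * pM d +
    C (lam + mu) * (2 * X ^ 2 + C (2 * (d : ℝ) - 6) * X + C (((d : ℝ) - 2) ^ 2)))

variable (Z : Cst d)

/-- `P_U` -/
noncomputable def Cst.PU : ℝ[X] :=
  C (2 * Z.mu') * (X - 1) * pGh d Z.lam Z.mu + pKh d Z.lam Z.mu

/-- `P_W` -/
noncomputable def Cst.PW : ℝ[X] :=
  pK d Z.lam' Z.mu' + C (2 * Z.mu) * (X + C ((d : ℝ) - 1)) * pG d Z.lam' Z.mu'

/-- `P_T` -/
noncomputable def Cst.PT : ℝ[X] :=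
  C Z.mu' * (X - 1) + C Z.mu * (X + C ((d : ℝ) - 1))

/-- `Q = κ G' - κ' G` -/
noncomputable def Cst.PQ : ℝ[X] :=
  pK d Z.lam Z.mu * pG d Z.lam' Z.mu' - pK d Z.lam' Z.mu' * pG d Z.lam Z.mu

/-- `S' = κ + 2μ(X+d-1)G` -/
noncomputable def Cst.PS : ℝ[X] :=
  pK d Z.lam Z.mu + C (2 * Z.mu) * (X + C ((d : ℝ) - 1)) * pG d Z.lam Z.mu

/-- `2(μ-μ')(X-1)`, so that `p̃ = 2(μ-μ')(E-1) p` -/
noncomputable def Cst.PD : ℝ[X] := C (2 * (Z.mu - Z.mu')) * (X - 1)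

/-- `(μ-μ')(X-1)` -/
noncomputable def Cst.PE : ℝ[X] := C (Z.mu - Z.mu') * (X - 1)

/-- coefficient of the dilation in `H` -/
noncomputable def Cst.c0 : ℝ := Z.lam' * d + 2 * Z.mu' + 2 * ((d : ℝ) - 1) * Z.mu

/-- coefficient of the pole in `w` -/
noncomputable def Cst.c1 : ℝ := Z.lam * d + 2 * Z.mu - (Z.lam' * d + 2 * Z.mu')

/-! ### data -/

/-- the free data -/
structure Dat (d : ℕ) where
  /-- type U -/
  p : EE d → ℝ
  /-- type W -/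
  q : EE d → ℝ
  /-- type T -/
  T : Fin d → EE d → ℝ
  /-- the constant field -/
  h : Fin d → ℝ
  /-- dilation -/
  γ : ℝ

/-- the data are good on `A` -/
structure Dat.On (D : Dat d) (A : Set (EE d)) : Prop where
  hp : Hm A D.p
  hq : Hm A D.q
  hT : ∀ k, Hm A (D.T k)
  p0 : D.p 0 = 0
  p1 : ∀ i, pd i D.p 0 = 0
  q0 : D.q 0 = 0
  T0 : ∀ k, D.T k 0 = 0
  xT : ∀ x ∈ A, ∑ k, x k * D.T k x = 0
  dT : ∀ x ∈ A, dv D.T x = 0

/-- equality of data near `0` -/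
structure Dat.Eq (D D' : Dat d) : Prop where
  p : D.p =ᶠ[𝓝 0] D'.p
  q : D.q =ᶠ[𝓝 0] D'.q
  T : ∀ k, D.T k =ᶠ[𝓝 0] D'.T k
  h : D.h = D'.h
  γ : D.γ = D'.γ

/-! ### the three fields -/

/-- background field: `h + c₀ γ x + ∇(P_U p) + W[G P_W q] + (1-|x|²)∇((λ+μ) A P_W q) + P_T T` -/
noncomputable def fH (D : Dat d) (k : Fin d) (x : EE d) : ℝ :=
  D.h k + Z.c0 * D.γ * x k + pd k (pE Z.PU D.p) x +
    Wf (pE (pG d Z.lam Z.mu * Z.PW) D.q) (pE (C (Z.lam + Z.mu) * pA d * Z.PW) D.q) k x +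
    pE Z.PT (D.T k) x

/-- exterior field: `c₁ γ x/|x|^d - ∇K[Q q] + (exterior extension of the trace
`∇ (Ĝ P_D p)`) + K[P_E T]` -/
noncomputable def fw (D : Dat d) (k : Fin d) (x : EE d) : ℝ :=
  pole (Z.c1 * D.γ) k x - pd k (kel (pE Z.PQ D.q)) x +
    Wf (kel (pE (-(pGh d Z.lam Z.mu * Z.PD)) D.p))
      (kel (pE (C (Z.lam + Z.mu) * (X * (2 * X + C ((d : ℝ) - 4))) * Z.PD) D.p)) k x +
    kel (pE Z.PE (D.T k)) x

/-- interior field -/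
noncomputable def fv (D : Dat d) (k : Fin d) (x : EE d) : ℝ :=
  D.h k + (Z.c0 + Z.c1) * D.γ * x k +
    pd k (pE (Z.PU + pGh d Z.lam Z.mu * Z.PD) D.p) x +
    Wf (pE (pG d Z.lam' Z.mu' * Z.PS) D.q) (pE (C (Z.lam' + Z.mu') * pA d * Z.PS) D.q) k x +
    pE (Z.PT + Z.PE) (D.T k) x

/-- the traction on the unit sphere, `∑ᵢ xᵢ σ_ik` -/
noncomputable def trc (lam mu : ℝ) (u : Fin d → EE d → ℝ) (k : Fin d) (x : EE d) : ℝ :=
  ∑ i, x i * sig lam mu (grd u) i k x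

end Pool.Agent.MP_0643f8_an.U
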