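import Mathlib
import Pool.Agent.Lib.MP_0643f8_an.U.R0_Defs
import Pool.Agent.Lib.MP_0643f8_an.U.E6_Roots

/-!
# Polynomial identities and positivity

The identities are checked by expanding (`simp only [defs, map_add, map_mul, ...]; ring` after
moving constants: `C (a * b) = C a * C b` etc.; alternatively `Polynomial.funext` and `ring`).
Positivity: `λ + μ > 0` since `dλ + 2μ > 0`, `μ > 0`, `d ≥ 2`.
-/

set_option autoImplicit false

open Polynomial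

namespace Pool.Agent.MP_0643f8_an.U

variable {d : ℕ} (Z : Cst d)

include Z in
private lemma r1_d : (2 : ℝ) ≤ (d : ℝ) := by
  have := Z.hd
  exact_mod_cast this

theorem lam_mu_pos : 0 < Z.lam + Z.mu := by
  have h1 := Z.hmu
  have h2 := Z.hlam
  have h3 := r1_d Z
  rcases le_or_gt 0 Z.lam with h | h
  · linarith
  · nlinarith

theorem lam_two_mu_pos : 0 < Z.lam + 2 * Z.mu := by
  have h1 := Z.hmu
  have h2 := lam_mu_pos Z
  linarith

/-- sign condition: one of the two orderings -/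
theorem cst_order : (Z.mu < Z.mu' ∧ Z.lam ≤ Z.lam') ∨ (Z.mu' < Z.mu ∧ Z.lam' ≤ Z.lam) := by
  have h1 := Z.hsign
  rcases lt_or_gt_of_ne Z.hne with h | h
  · right
    refine ⟨h, ?_⟩
    by_contra hc
    push Not at hc
    nlinarith [mul_pos (sub_pos.mpr hc) (sub_pos.mpr h)]
  · left
    refine ⟨h, ?_⟩
    by_contra hc
    push Not at hc
    nlinarith [mul_pos (sub_pos.mpr hc) (sub_pos.mpr h)]

theorem c0_pos : 0 < Z.c0 := by
  have h1 := Z.hmu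
  have h2 := Z.hmu'
  have h3 := Z.hlam'
  have h4 := r1_d Z
  unfold Cst.c0
  have h5 : 0 < Z.lam' * d := mul_pos h3 (by linarith)
  have h6 : 0 ≤ 2 * ((d : ℝ) - 1) * Z.mu := by
    apply mul_nonneg _ h1.le
    linarith
  linarith

theorem c1_ne : Z.c1 ≠ 0 := by
  have h4 := r1_d Z
  unfold Cst.c1
  rcases cst_order Z with ⟨h, h'⟩ | ⟨h, h'⟩
  · have : (Z.lam' - Z.lam) * (d : ℝ) ≥ 0 := mul_nonneg (by linarith) (by linarith)
    intro h0
    nlinarith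
  · have : (Z.lam - Z.lam') * (d : ℝ) ≥ 0 := mul_nonneg (by linarith) (by linarith)
    intro h0
    nlinarith

/-- `G - 2(λ+μ)X = 2μM` -/
theorem id_G (lam mu : ℝ) : pG d lam mu - C (2 * (lam + mu)) * X = C (2 * mu) * pM d := by
  unfold pG
  ring

/-- `κ + μ(d-2)G = 2μ(λ+μ)A` -/
theorem id_K (lam mu : ℝ) :
    pK d lam mu + C (mu * ((d : ℝ) - 2)) * pG d lam mu = C (2 * mu * (lam + mu)) * pA d := by
  apply Polynomial.funext
  intro x
  simp only [pK, pG, pA, pM, eval_add, eval_sub, eval_mul, eval_C, eval_X, eval_pow, eval_ofNat,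
    eval_one]
  ring

/-- `(λ(X+d) + μ(X+2)) M G - 2(λ+μ)X (G + (λ+μ)A) = M κ` -/
theorem id_x (lam mu : ℝ) :
    (C lam * (X + C (d : ℝ)) + C mu * (X + 2)) * pM d * pG d lam mu -
      C (2 * (lam + mu)) * X * (pG d lam mu + C (lam + mu) * pA d) = pM d * pK d lam mu := by
  apply Polynomial.funext
  intro x
  simp only [pK, pG, pA, pM, eval_add, eval_sub, eval_mul, eval_C, eval_X, eval_pow, eval_ofNat,
    eval_one]
  ring

/-- `μ(d-2)Ĝ + 2μ(λ+μ)X(2X+d-4) = κ̂` -/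
theorem id_Kh (lam mu : ℝ) :
    C (mu * ((d : ℝ) - 2)) * pGh d lam mu +
      C (2 * mu * (lam + mu)) * (X * (2 * X + C ((d : ℝ) - 4))) = pKh d lam mu := by
  apply Polynomial.funext
  intro x
  simp only [pKh, pGh, pN, pM, eval_add, eval_sub, eval_mul, eval_C, eval_X, eval_pow, eval_ofNat,
    eval_one]
  ring

/-- continuity, type W: `G' S' = G P_W + Q` -/
theorem id_trace : pG d Z.lam' Z.mu' * Z.PS = pG d Z.lam Z.mu * Z.PW + Z.PQ := by
  unfold Cst.PS Cst.PW Cst.PQ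
  ring

/-- traction, type W: `κ' S' = κ P_W - 2μ(X+d-1) Q` -/
theorem id_tracW : pK d Z.lam' Z.mu' * Z.PS =
    pK d Z.lam Z.mu * Z.PW - C (2 * Z.mu) * (X + C ((d : ℝ) - 1)) * Z.PQ := by
  unfold Cst.PS Cst.PW Cst.PQ
  ring

/-- traction, type U: `2μ'(X-1)(P_U + Ĝ P_D) = 2μ(X-1) P_U - κ̂ P_D` -/
theorem id_tracU : C (2 * Z.mu') * (X - 1) * (Z.PU + pGh d Z.lam Z.mu * Z.PD) =
    C (2 * Z.mu) * (X - 1) * Z.PU - pKh d Z.lam Z.mu * Z.PD := by
  unfold Cst.PU Cst.PD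
  simp only [C_mul, C_sub]
  ring

/-- traction, type T: `μ'(X-1)(P_T + P_E) = μ(X-1) P_T - μ(X+d-1) P_E` -/
theorem id_tracT : C Z.mu' * (X - 1) * (Z.PT + Z.PE) =
    C Z.mu * (X - 1) * Z.PT - C Z.mu * (X + C ((d : ℝ) - 1)) * Z.PE := by
  unfold Cst.PT Cst.PE
  simp only [C_sub]
  ring

theorem roots_PU : RootsLt 2 Z.PU := by
  have hd := r1_d Z
  have hmu := Z.hmu
  have hmu' := Z.hmu'
  have hlm := lam_mu_pos Z
  have hd2 : (0 : ℝ) ≤ (d : ℝ) - 2 := by linarith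
  have e : Z.PU = C (4 * Z.mu' * (Z.lam + 3 * Z.mu) + 4 * Z.mu * (Z.lam + Z.mu)) * X ^ 2 +
      C (4 * Z.mu' * (((d : ℝ) - 2) * (Z.lam + 2 * Z.mu) - (Z.lam + 3 * Z.mu)) +
        2 * Z.mu * (2 * ((d : ℝ) - 2) * Z.mu + (2 * (d : ℝ) - 6) * (Z.lam + Z.mu))) * X +
      C (-(4 * Z.mu' * ((d : ℝ) - 2) * (Z.lam + 2 * Z.mu)) +
        2 * Z.mu * (((d : ℝ) - 2) ^ 2 * Z.mu + (Z.lam + Z.mu) * ((d : ℝ) - 2) ^ 2)) := by
    apply Polynomial.funext
    intro x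
    simp only [Cst.PU, pKh, pGh, pN, pM, eval_add, eval_sub, eval_mul, eval_C, eval_X, eval_pow,
      eval_ofNat, eval_one]
    ring
  rw [e]
  have p1 : 0 < Z.mu' * Z.mu := mul_pos hmu' hmu
  have p2 : 0 < Z.mu' * (Z.lam + Z.mu) := mul_pos hmu' hlm
  have p3 : 0 < Z.mu * (Z.lam + Z.mu) := mul_pos hmu hlm
  have p4 : 0 < Z.mu * Z.mu := mul_pos hmu hmu
  apply rootsLt_quad
  · nlinarith
  · have q1 : 0 ≤ ((d : ℝ) - 2) * (Z.mu' * (Z.lam + Z.mu)) := mul_nonneg hd2 p2.le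
    have q2 : 0 ≤ ((d : ℝ) - 2) * (Z.mu' * Z.mu) := mul_nonneg hd2 p1.le
    have q3 : 0 ≤ ((d : ℝ) - 2) * (Z.mu * Z.mu) := mul_nonneg hd2 p4.le
    have q4 : 0 ≤ ((d : ℝ) - 2) * (Z.mu * (Z.lam + Z.mu)) := mul_nonneg hd2 p3.le
    push_cast
    nlinarith
  · have q1 : 0 ≤ ((d : ℝ) - 2) * (Z.mu' * (Z.lam + Z.mu)) := mul_nonneg hd2 p2.le
    have q2 : 0 ≤ ((d : ℝ) - 2) * (Z.mu' * Z.mu) := mul_nonneg hd2 p1.le
    have q3 : 0 ≤ ((d : ℝ) - 2) * (Z.mu * Z.mu) := mul_nonneg hd2 p4.le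
    have q4 : 0 ≤ ((d : ℝ) - 2) * (Z.mu * (Z.lam + Z.mu)) := mul_nonneg hd2 p3.le
    have q5 : 0 ≤ ((d : ℝ) - 2) * ((d : ℝ) - 2) * (Z.mu * (Z.lam + Z.mu)) :=
      mul_nonneg (mul_nonneg hd2 hd2) p3.le
    have q6 : 0 ≤ ((d : ℝ) - 2) * ((d : ℝ) - 2) * (Z.mu * Z.mu) :=
      mul_nonneg (mul_nonneg hd2 hd2) p4.le
    push_cast
    nlinarith

theorem roots_PW : RootsLt 1 Z.PW := by
  have hd := r1_d Z
  have hmu := Z.hmu
  have hmu' := Z.hmu'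
  have hlam' := Z.hlam'
  have hd2 : (0 : ℝ) ≤ (d : ℝ) - 2 := by linarith
  have e : Z.PW = C (4 * Z.mu' * (Z.lam' + Z.mu') + 4 * Z.mu * (Z.lam' + 3 * Z.mu')) * X ^ 2 +
      C (4 * Z.mu' * (((d : ℝ) - 1) * (Z.lam' + Z.mu') - ((d : ℝ) - 2) * Z.mu') +
        4 * Z.mu * (((d : ℝ) - 1) * (Z.lam' + 3 * Z.mu') + ((d : ℝ) - 2) * Z.mu')) * X +
      C (2 * Z.mu' * ((Z.lam' + Z.mu') * d * ((d : ℝ) - 2) - ((d : ℝ) - 2) ^ 2 * Z.mu') +
        4 * Z.mu * ((d : ℝ) - 1) * Z.mu' * ((d : ℝ) - 2)) := by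
    apply Polynomial.funext
    intro x
    simp only [Cst.PW, pK, pG, pM, eval_add, eval_sub, eval_mul, eval_C, eval_X, eval_pow,
      eval_ofNat, eval_one]
    ring
  rw [e]
  have p1 : 0 < Z.mu' * Z.mu := mul_pos hmu' hmu
  have p2 : 0 < Z.mu' * Z.lam' := mul_pos hmu' hlam'
  have p3 : 0 < Z.mu * Z.lam' := mul_pos hmu hlam'
  have p4 : 0 < Z.mu' * Z.mu' := mul_pos hmu' hmu'
  have q1 : 0 ≤ ((d : ℝ) - 2) * (Z.mu' * Z.mu) := mul_nonneg hd2 p1.le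
  have q2 : 0 ≤ ((d : ℝ) - 2) * (Z.mu' * Z.lam') := mul_nonneg hd2 p2.le
  have q3 : 0 ≤ ((d : ℝ) - 2) * (Z.mu * Z.lam') := mul_nonneg hd2 p3.le
  have q4 : 0 ≤ ((d : ℝ) - 2) * (Z.mu' * Z.mu') := mul_nonneg hd2 p4.le
  have r1 : 0 ≤ ((d : ℝ) - 2) * ((d : ℝ) - 2) * (Z.mu' * Z.mu) :=
    mul_nonneg (mul_nonneg hd2 hd2) p1.le
  have r2 : 0 ≤ ((d : ℝ) - 2) * ((d : ℝ) - 2) * (Z.mu' * Z.lam') :=
    mul_nonneg (mul_nonneg hd2 hd2) p2.le
  apply rootsLt_quad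
  · nlinarith
  · push_cast
    nlinarith
  · push_cast
    nlinarith

theorem roots_PT : RootsLt 1 Z.PT := by
  have hd := r1_d Z
  have hmu := Z.hmu
  have hmu' := Z.hmu'
  have e : Z.PT = C (Z.mu' + Z.mu) * X + C (Z.mu * ((d : ℝ) - 1) - Z.mu') := by
    apply Polynomial.funext
    intro x
    simp only [Cst.PT, eval_add, eval_sub, eval_mul, eval_C, eval_X, eval_pow,
      eval_ofNat, eval_one]
    ring
  rw [e]
  apply rootsLt_lin
  · linarith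
  · push_cast
    nlinarith

/-- the polynomial that recovers `s` from the divergence: `2μ A M` -/
theorem roots_AM : RootsLt 1 (C (2 * Z.mu) * pA d * pM d) := by
  have hd := r1_d Z
  have hmu := Z.hmu
  have e1 : (X + C ((d : ℝ) - 2) : ℝ[X]) = C 1 * X + C ((d : ℝ) - 2) := by simp
  have e2 : (2 * X + C (d : ℝ) : ℝ[X]) = C 2 * X + C (d : ℝ) := by
    apply Polynomial.funext
    intro x
    simp
  have e3 : (2 * X + C ((d : ℝ) - 2) : ℝ[X]) = C 2 * X + C ((d : ℝ) - 2) := by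
    apply Polynomial.funext
    intro x
    simp
  unfold pA pM
  rw [e1, e2, e3]
  apply rootsLt_mul
  · apply rootsLt_mul
    · exact rootsLt_C 1 (by positivity)
    · apply rootsLt_mul
      · apply rootsLt_lin
        · norm_num
        · push_cast; linarith
      · apply rootsLt_lin
        · norm_num
        · push_cast; linarith
  · apply rootsLt_lin
    · norm_num
    · push_cast; linarith

/-- `Q ≠ 0`: its leading coefficient is
`8 (μ(λ+μ)(λ'+3μ') - μ'(λ'+μ')(λ+3μ))`, and `(λ,μ) ↦ μ(λ+μ)/(λ+3μ)` is strictly increasing in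
`λ` and in `μ` (for `μ > 0`, `λ + μ > 0`) -/
theorem PQ_ne : Z.PQ ≠ 0 := by
  have hmu := Z.hmu
  have hmu' := Z.hmu'
  have hlam' := Z.hlam'
  have hlm := lam_mu_pos Z
  have hlm' : 0 < Z.lam' + Z.mu' := by linarith
  intro h0
  have ev : ∀ x : ℝ, eval x Z.PQ = 0 := fun x => by rw [h0, eval_zero]
  have e3 := ev 3
  have e2 := ev 2
  have e1 := ev 1
  have e0 := ev 0
  simp only [Cst.PQ, pK, pG, pM, eval_add, eval_sub, eval_mul, eval_C, eval_X, eval_pow,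
      eval_ofNat, eval_one] at e3 e2 e1 e0
  have key : Z.mu * (Z.lam + Z.mu) * (Z.lam' + 3 * Z.mu') -
      Z.mu' * (Z.lam' + Z.mu') * (Z.lam + 3 * Z.mu) = 0 := by
    linear_combination (1 / 48) * (e3 - 3 * e2 + 3 * e1 - e0)
  have key2 : (Z.lam + Z.mu) * (Z.lam' + Z.mu') * (Z.mu - Z.mu') +
      2 * (Z.mu * Z.mu') * ((Z.lam + Z.mu) - (Z.lam' + Z.mu')) = 0 := by
    linear_combination key
  have p1 : 0 < (Z.lam + Z.mu) * (Z.lam' + Z.mu') := mul_pos hlm hlm'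
  have p2 : 0 < Z.mu * Z.mu' := mul_pos hmu hmu'
  rcases cst_order Z with ⟨h, h'⟩ | ⟨h, h'⟩
  · have q1 : 0 < (Z.lam + Z.mu) * (Z.lam' + Z.mu') * (Z.mu' - Z.mu) :=
      mul_pos p1 (by linarith)
    have q2 : 0 < 2 * (Z.mu * Z.mu') * ((Z.lam' + Z.mu') - (Z.lam + Z.mu)) :=
      mul_pos (by linarith) (by linarith)
    linarith
  · have q1 : 0 < (Z.lam + Z.mu) * (Z.lam' + Z.mu') * (Z.mu - Z.mu') :=
      mul_pos p1 (by linarith)
    have q2 : 0 < 2 * (Z.mu * Z.mu') * ((Z.lam + Z.mu) - (Z.lam' + Z.mu')) :=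
      mul_pos (by linarith) (by linarith)
    linarith

theorem PD_ne : Z.PD ≠ 0 := by
  unfold Cst.PD
  apply mul_ne_zero
  · rw [Ne, C_eq_zero]
    have := Z.hne
    intro h
    apply this
    linarith
  · exact X_sub_C_ne_zero 1

theorem PE_ne : Z.PE ≠ 0 := by
  unfold Cst.PE
  apply mul_ne_zero
  · rw [Ne, C_eq_zero]
    have := Z.hne
    intro h
    apply this
    linarith
  · exact X_sub_C_ne_zero 1

end Pool.Agent.MP_0643f8_an.U
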