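import Mathlib
import Pool.Agent.Lib.MP_0643f8_an.U.R1_PolyId

/-!
# The three explicit fields solve the Lame systems

Use `lame_add`, `lame_const`, `lame_dil`, `lame_grad`, `lame_Wf`, `lame_of_hm`, `lame_pole`,
`hm_kel`, `hm_pE`, `kel_tor`, `pE_kel`. For `lame_Wf` with `g = pE (G P) f`,
`ρ = pE ((λ+μ) A P) f` the hypothesis is the identity `G * ((λ+μ) A P) = (λ+μ) A (G P)` together
with `id_G`. For the exterior field, `g = kel (pE (-(Ĝ P)) f)`, `ρ = kel (pE ((λ+μ) X (2X+d-4) P) f)`: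
by `pE_kel` everything is `kel` of polynomials in `E`: `E ρ = kel (-N r)`,
`A(E) kel = kel ((-E)(-(2E+d-4)))`, `2E+d-2 ↦ -M`, and the hypothesis becomes
`(2μM + 2(λ+μ)N) r = (λ+μ) X (2X+d-4) (Ĝ P)`, `r = (λ+μ) X (2X+d-4) P`.
-/

set_option autoImplicit false

open MeasureTheory Metric Set Filter Topology Polynomial
open scoped ContDiff

namespace Pool.Agent.MP_0643f8_an.U

variable {d : ℕ} (Z : Cst d) {A : Set (EE d)} {D : Dat d}

/-- the type U part of the exterior field: exterior extension of the trace `∇ (Ĝ P f)` -/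
noncomputable def exU (lam mu : ℝ) (P : ℝ[X]) (f : EE d → ℝ) : Fin d → EE d → ℝ :=
  Wf (kel (pE (-(pGh d lam mu * P)) f))
    (kel (pE (C (lam + mu) * (X * (2 * X + C ((d : ℝ) - 4))) * P) f))

/-- the type W part of the background field -/
noncomputable def inW (lam mu : ℝ) (P : ℝ[X]) (f : EE d → ℝ) : Fin d → EE d → ℝ :=
  Wf (pE (pG d lam mu * P) f) (pE (C (lam + mu) * pA d * P) f)

private theorem r2_C2 : (C (2 : ℝ) : ℝ[X]) = 2 := map_ofNat C 2

/-- `2 E + (d-2)` applied to `R(E) f` -/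
private theorem r2_M (hA : IsOpen A) {f : EE d → ℝ} (hf : ContDiffOn ℝ ∞ f A) (R : ℝ[X])
    {x : EE d} (hx : x ∈ A) :
    2 * eul (pE R f) x + ((d : ℝ) - 2) * pE R f x = pE (pM d * R) f x := by
  have h1 : pM d * R = C 2 * (X * R) + C ((d : ℝ) - 2) * R := by
    rw [r2_C2]
    unfold pM
    ring
  rw [h1, pE_add_left, pE_C_mul, pE_C_mul, eul_pE hA hf R hx]

/-- the divergence of the type W part -/
private theorem r2_div_in (hA : IsOpen A) {f : EE d → ℝ} (hf : ContDiffOn ℝ ∞ f A) (lam mu : ℝ)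
    (P : ℝ[X]) {x : EE d} (hx : x ∈ A) :
    pE ((X + C ((d : ℝ) - 2)) * (2 * X + C (d : ℝ))) (pE (pG d lam mu * P) f) x -
      2 * eul (pE (C (lam + mu) * pA d * P) f) x = pE (C (2 * mu) * pA d * pM d * P) f x := by
  have h1 : C (2 * mu) * pA d * pM d * P = pA d * (pG d lam mu * P) -
      C 2 * (X * (C (lam + mu) * pA d * P)) := by
    have h2 := id_G (d := d) lam mu
    have e : (C (2 * (lam + mu)) : ℝ[X]) = 2 * C (lam + mu) := by rw [C_mul, r2_C2]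
    rw [e] at h2
    rw [r2_C2]
    linear_combination (-(pA d * P)) * h2
  rw [h1, pE_sub_left, pE_C_mul, pE_mul hA hf _ _ hx, eul_pE hA hf _ hx]
  rfl

theorem lame_inW (hA : IsOpen A) {f : EE d → ℝ} (hf : Hm A f) {lam mu : ℝ} (hmu : mu ≠ 0)
    (P : ℝ[X]) : IsLame ((lam + mu) / (2 * mu)) A (inW lam mu P f) := by
  refine lame_Wf hA (hm_pE hA hf _) (hm_pE hA hf _) hmu fun x hx => ?_
  rw [r2_M hA hf.1 _ hx, r2_div_in hA hf.1 lam mu P hx, ← pE_C_mul, ← pE_C_mul]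
  congr 1
  ring

/-- divergence of the type W part: `A(E) (G - 2(λ+μ)X)(E) P(E) f = 2μ (A M P)(E) f` -/
theorem dv_inW (hA : IsOpen A) {f : EE d → ℝ} (hf : Hm A f) (lam mu : ℝ) (P : ℝ[X])
    {x : EE d} (hx : x ∈ A) :
    dv (inW lam mu P f) x = pE (C (2 * mu) * pA d * pM d * P) f x := by
  unfold inW
  rw [dv_Wf hA (hm_pE hA hf _) (hm_pE hA hf _) hx, r2_div_in hA hf.1 lam mu P hx]

private theorem r2_kel_C (c : ℝ) (Q : ℝ[X]) (f : EE d → ℝ) (x : EE d) :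
    c * kel (pE Q f) x = kel (pE (C c * Q) f) x := by
  rw [← kel_const_mul]
  congr 1
  funext y
  rw [pE_C_mul]

private theorem r2_kel_add (Q R : ℝ[X]) (f : EE d → ℝ) (x : EE d) :
    kel (pE Q f) x + kel (pE R f) x = kel (pE (Q + R) f) x := by
  rw [← kel_add]
  congr 1
  funext y
  rw [pE_add_left]

private theorem r2_kel_sub (Q R : ℝ[X]) (f : EE d → ℝ) (x : EE d) :
    kel (pE Q f) x - kel (pE R f) x = kel (pE (Q - R) f) x := by
  have h : Q - R = Q + C (-1) * R := by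
    rw [C_neg, C_1]
    ring
  rw [h, ← r2_kel_add, ← r2_kel_C]
  ring

/-- `kel` only depends on the values at `inv x` -/
private theorem r2_kel_at {f g : EE d → ℝ} {x : EE d} (h : f (inv x) = g (inv x)) :
    kel f x = kel g x := by
  unfold kel
  rw [h]

private theorem r2_pE_kel (hd : 2 ≤ d) (hA : IsOpen A) {f : EE d → ℝ} (hf : Hm A f) (P R : ℝ[X])
    {x : EE d} (hx : x ∈ RS A) :
    pE P (kel (pE R f)) x = kel (pE (P.comp (-X - C ((d : ℝ) - 2)) * R) f) x := by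
  rw [pE_kel hd hA (hm_pE hA hf R) P hx]
  exact r2_kel_at (pE_mul hA hf.1 _ _ hx.2).symm

private theorem r2_eul_kel (hd : 2 ≤ d) (hA : IsOpen A) {f : EE d → ℝ} (hf : Hm A f) (R : ℝ[X])
    {x : EE d} (hx : x ∈ RS A) :
    eul (kel (pE R f)) x = kel (pE (-(pN d) * R) f) x := by
  rw [← pE_X (𝕜 := ℝ), r2_pE_kel hd hA hf X R hx, X_comp]
  congr 3
  unfold pN
  ring

private theorem r2_div_ex (hd : 2 ≤ d) (hA : IsOpen A) {f : EE d → ℝ} (hf : Hm A f) (lam mu : ℝ)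
    (P : ℝ[X]) {x : EE d} (hx : x ∈ RS A) :
    pE ((X + C ((d : ℝ) - 2)) * (2 * X + C (d : ℝ))) (kel (pE (-(pGh d lam mu * P)) f)) x -
      2 * eul (kel (pE (C (lam + mu) * (X * (2 * X + C ((d : ℝ) - 4))) * P) f)) x =
      kel (pE (-(C (2 * mu) * (X * (2 * X + C ((d : ℝ) - 4))) * pM d * P)) f) x := by
  rw [r2_pE_kel hd hA hf _ _ hx, r2_eul_kel hd hA hf _ hx, r2_kel_C, r2_kel_sub]
  congr 2
  have h1 : ((X + C ((d : ℝ) - 2)) * (2 * X + C (d : ℝ)) : ℝ[X]).comp (-X - C ((d : ℝ) - 2)) =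
      X * (2 * X + C ((d : ℝ) - 4)) := by
    have e1 : (2 : ℝ[X]).comp (-X - C ((d : ℝ) - 2)) = 2 := by
      rw [← r2_C2, C_comp]
    rw [mul_comp, add_comp, add_comp, mul_comp, X_comp, C_comp, C_comp, e1]
    have e2 : (C ((d : ℝ) - 4) : ℝ[X]) = 2 * C ((d : ℝ) - 2) - C (d : ℝ) := by
      rw [← r2_C2, ← C_mul, ← C_sub]
      congr 1
      ring
    rw [e2]
    ring
  rw [h1, r2_C2]
  unfold pGh
  rw [C_mul (a := (2 : ℝ)) (b := lam + mu), r2_C2]
  ring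

theorem lame_exU (hd : 2 ≤ d) (hA : IsOpen A) {f : EE d → ℝ} (hf : Hm A f) {lam mu : ℝ}
    (hmu : mu ≠ 0) (P : ℝ[X]) : IsLame ((lam + mu) / (2 * mu)) (RS A) (exU lam mu P f) := by
  refine lame_Wf (isOpen_RS hA) (hm_kel hd hA (hm_pE hA hf _)) (hm_kel hd hA (hm_pE hA hf _)) hmu
    fun x hx => ?_
  rw [r2_div_ex hd hA hf lam mu P hx, r2_eul_kel hd hA hf _ hx, r2_kel_C, r2_kel_C, r2_kel_C,
    r2_kel_add, r2_kel_C]
  congr 2
  unfold pN pM
  rw [r2_C2]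
  ring

/-- divergence of the exterior type U part: `kel (-2μ X (2X+d-4) M P)(E) f` -/
theorem dv_exU (hd : 2 ≤ d) (hA : IsOpen A) {f : EE d → ℝ} (hf : Hm A f) (lam mu : ℝ)
    (P : ℝ[X]) {x : EE d} (hx : x ∈ RS A) :
    dv (exU lam mu P f) x =
      kel (pE (-(C (2 * mu) * (X * (2 * X + C ((d : ℝ) - 4))) * pM d * P)) f) x := by
  unfold exU
  rw [dv_Wf (isOpen_RS hA) (hm_kel hd hA (hm_pE hA hf _)) (hm_kel hd hA (hm_pE hA hf _)) hx,
    r2_div_ex hd hA hf lam mu P hx]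

/-! ### toroidal fields -/

private theorem r2_hm_iter (hA : IsOpen A) {f : EE d → ℝ} (hf : Hm A f) (n : ℕ) :
    Hm A ((eul : (EE d → ℝ) → EE d → ℝ)^[n] f) := by
  induction n with
  | zero => exact hf
  | succ n ih =>
    rw [Function.iterate_succ_apply']
    exact hm_eul hA ih

private theorem r2_eul_zero {f : EE d → ℝ} (hA : IsOpen A) (h : ∀ x ∈ A, f x = 0) {x : EE d}
    (hx : x ∈ A) : eul f x = 0 := by
  have h1 : f =ᶠ[𝓝 x] fun _ => 0 := by
    filter_upwards [hA.mem_nhds hx] with y hy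
    exact h y hy
  rw [(eul_congr h1).self_of_nhds]
  unfold eul
  simp

private theorem r2_eul_sum {ι : Type*} (s : Finset ι) {f : ι → EE d → ℝ} {x : EE d}
    (hf : ∀ j ∈ s, DifferentiableAt ℝ (f j) x) :
    eul (fun y => ∑ j ∈ s, f j y) x = ∑ j ∈ s, eul (f j) x := by
  unfold eul
  rw [fderiv_fun_sum hf, sum_apply]

private theorem r2_div_iter (hA : IsOpen A) {T : Fin d → EE d → ℝ} (hT : ∀ k, Hm A (T k))
    (h : ∀ x ∈ A, dv T x = 0) (n : ℕ) :
    ∀ x ∈ A, dv (fun k => (eul : (EE d → ℝ) → EE d → ℝ)^[n] (T k)) x = 0 := by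
  induction n with
  | zero => exact h
  | succ n ih =>
    intro x hx
    have h1 : ∀ k, pd k ((eul : (EE d → ℝ) → EE d → ℝ)^[n + 1] (T k)) x =
        eul (pd k ((eul : (EE d → ℝ) → EE d → ℝ)^[n] (T k))) x +
          pd k ((eul : (EE d → ℝ) → EE d → ℝ)^[n] (T k)) x := by
      intro k
      rw [Function.iterate_succ_apply']
      exact pd_eul (hm_contDiffAt2 (r2_hm_iter hA (hT k) n) hA hx) k
    have h2 : dv (fun k => (eul : (EE d → ℝ) → EE d → ℝ)^[n + 1] (T k)) x =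
        ∑ k, (eul (pd k ((eul : (EE d → ℝ) → EE d → ℝ)^[n] (T k))) x +
          pd k ((eul : (EE d → ℝ) → EE d → ℝ)^[n] (T k)) x) :=
      Finset.sum_congr rfl fun k _ => h1 k
    have h3 : ∑ k, pd k ((eul : (EE d → ℝ) → EE d → ℝ)^[n] (T k)) x = 0 := ih x hx
    have h4 : ∑ k, eul (pd k ((eul : (EE d → ℝ) → EE d → ℝ)^[n] (T k))) x = 0 := by
      rw [← r2_eul_sum Finset.univ
        (f := fun k => pd k ((eul : (EE d → ℝ) → EE d → ℝ)^[n] (T k)))
        (fun k _ => hm_diffAt (hm_pd hA (r2_hm_iter hA (hT k) n) k) hA hx)]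
      exact r2_eul_zero hA ih hx
    rw [h2, Finset.sum_add_distrib, h3, h4, add_zero]

private theorem r2_xdot_iter (hA : IsOpen A) {T : Fin d → EE d → ℝ} (hT : ∀ k, Hm A (T k))
    (h : ∀ x ∈ A, ∑ k, x k * T k x = 0) (n : ℕ) :
    ∀ x ∈ A, ∑ k, x k * ((eul : (EE d → ℝ) → EE d → ℝ)^[n] (T k)) x = 0 := by
  induction n with
  | zero => exact h
  | succ n ih =>
    intro x hx
    have hc : ∀ k : Fin d, DifferentiableAt ℝ (fun y : EE d => y k) x := fun k =>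
      hm_diffAt (hm_coord A k) hA hx
    have hn : ∀ k, DifferentiableAt ℝ ((eul : (EE d → ℝ) → EE d → ℝ)^[n] (T k)) x := fun k =>
      hm_diffAt (r2_hm_iter hA (hT k) n) hA hx
    have h1 : ∀ k, x k * ((eul : (EE d → ℝ) → EE d → ℝ)^[n + 1] (T k)) x =
        eul (fun y => y k * ((eul : (EE d → ℝ) → EE d → ℝ)^[n] (T k)) y) x -
          x k * ((eul : (EE d → ℝ) → EE d → ℝ)^[n] (T k)) x := by
      intro k
      rw [Function.iterate_succ_apply', eul_mul (hc k) (hn k), eul_coord]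
      ring
    have h4 : ∑ k, eul (fun y => y k * ((eul : (EE d → ℝ) → EE d → ℝ)^[n] (T k)) y) x = 0 := by
      rw [← r2_eul_sum Finset.univ
        (f := fun k y => y k * ((eul : (EE d → ℝ) → EE d → ℝ)^[n] (T k)) y)
        (fun k _ => (hc k).mul (hn k))]
      exact r2_eul_zero hA ih hx
    rw [Finset.sum_congr rfl fun k _ => h1 k, Finset.sum_sub_distrib, h4, ih x hx, sub_zero]

private theorem r2_pE_eq (P : ℝ[X]) (f : EE d → ℝ) : pE P f = fun x => ∑ n ∈ P.support,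
    P.coeff n * ((eul : (EE d → ℝ) → EE d → ℝ)^[n] f) x := by
  funext x
  unfold pE
  rw [Polynomial.sum_def]

private theorem r2_div_pE (hA : IsOpen A) {T : Fin d → EE d → ℝ} (hT : ∀ k, Hm A (T k))
    (h : ∀ x ∈ A, dv T x = 0) (P : ℝ[X]) {x : EE d} (hx : x ∈ A) :
    dv (fun k => pE P (T k)) x = 0 := by
  have hn : ∀ k n, DifferentiableAt ℝ ((eul : (EE d → ℝ) → EE d → ℝ)^[n] (T k)) x := fun k n =>
    hm_diffAt (r2_hm_iter hA (hT k) n) hA hx
  have h1 : ∀ k, pd k (pE P (T k)) x = ∑ n ∈ P.support,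
      P.coeff n * pd k ((eul : (EE d → ℝ) → EE d → ℝ)^[n] (T k)) x := by
    intro k
    rw [r2_pE_eq, pd_sum (f := fun n x => P.coeff n *
      ((eul : (EE d → ℝ) → EE d → ℝ)^[n] (T k)) x) _ (fun n _ => (hn k n).const_mul _) k]
    exact Finset.sum_congr rfl fun n _ => pd_cmul (hn k n) _ _
  unfold dv
  rw [Finset.sum_congr rfl fun k _ => h1 k, Finset.sum_comm]
  refine Finset.sum_eq_zero fun n _ => ?_
  have h2 := r2_div_iter hA hT h n x hx
  unfold dv at h2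
  rw [← Finset.mul_sum, h2, mul_zero]

private theorem r2_xdot_pE (hA : IsOpen A) {T : Fin d → EE d → ℝ} (hT : ∀ k, Hm A (T k))
    (h : ∀ x ∈ A, ∑ k, x k * T k x = 0) (P : ℝ[X]) {x : EE d} (hx : x ∈ A) :
    ∑ k, x k * pE P (T k) x = 0 := by
  have h1 : ∀ k, x k * pE P (T k) x = ∑ n ∈ P.support,
      P.coeff n * (x k * ((eul : (EE d → ℝ) → EE d → ℝ)^[n] (T k)) x) := by
    intro k
    rw [r2_pE_eq, Finset.mul_sum]
    exact Finset.sum_congr rfl fun n _ => by ring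
  rw [Finset.sum_congr rfl fun k _ => h1 k, Finset.sum_comm]
  refine Finset.sum_eq_zero fun n _ => ?_
  rw [← Finset.mul_sum, r2_xdot_iter hA hT h n x hx, mul_zero]

private theorem r2_lame_T {κ : ℝ} (hA : IsOpen A) (hD : D.On A) (P : ℝ[X]) :
    IsLame κ A (fun k => pE P (D.T k)) :=
  lame_of_hm hA (fun k => hm_pE hA (hD.hT k) P) fun _ hx => r2_div_pE hA hD.hT hD.dT P hx

private theorem r2_lame_in {κ : ℝ} (hA : IsOpen A) (hD : D.On A) (c : ℝ) (P : ℝ[X])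
    {u : Fin d → EE d → ℝ} (hu : IsLame κ A u) (R : ℝ[X]) :
    IsLame κ A (fun k x => D.h k + c * x k + pd k (pE P D.p) x + u k x + pE R (D.T k) x) := by
  have h1 := lame_add hA (lame_const (κ := κ) (A := A) D.h) (lame_dil (κ := κ) (A := A) c)
  have h2 := lame_add hA h1 (lame_grad (κ := κ) hA (hm_pE hA hD.hp P)).1
  exact lame_add hA (lame_add hA h2 hu) (r2_lame_T hA hD R)

theorem lame_fH (hA : IsOpen A) (hD : D.On A) : IsLame Z.kap A (fH Z D) :=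
  r2_lame_in hA hD (Z.c0 * D.γ) Z.PU
    (lame_inW hA hD.hq (lam := Z.lam) (mu := Z.mu) Z.hmu.ne' Z.PW) Z.PT

theorem lame_fv (hA : IsOpen A) (hD : D.On A) : IsLame Z.kap' A (fv Z D) :=
  r2_lame_in hA hD ((Z.c0 + Z.c1) * D.γ) (Z.PU + pGh d Z.lam Z.mu * Z.PD)
    (lame_inW hA hD.hq (lam := Z.lam') (mu := Z.mu') Z.hmu'.ne' Z.PS) (Z.PT + Z.PE)

theorem lame_fw (hA : IsOpen A) (hD : D.On A) : IsLame Z.kap (RS A) (fw Z D) := by
  have hR := isOpen_RS hA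
  have h1 : IsLame Z.kap (RS A) (pole (Z.c1 * D.γ)) :=
    lame_mono (lame_pole Z.hd (Z.c1 * D.γ)) fun x hx => hx.1
  have h2 := lame_sub hR h1
    (lame_grad (κ := Z.kap) hR (hm_kel Z.hd hA (hm_pE hA hD.hq Z.PQ))).1
  have h3 := lame_add hR h2 (lame_exU Z.hd hA hD.hp (lam := Z.lam) (mu := Z.mu) Z.hmu.ne' Z.PD)
  have h4 : IsLame Z.kap (RS A) (fun k => kel (pE Z.PE (D.T k))) := by
    refine lame_of_hm hR (fun k => hm_kel Z.hd hA (hm_pE hA (hD.hT k) Z.PE)) fun x hx => ?_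
    exact (kel_tor Z.hd hA (T := fun k => pE Z.PE (D.T k)) (fun k => hm_pE hA (hD.hT k) Z.PE)
      (fun y hy => r2_xdot_pE hA hD.hT hD.xT Z.PE hy)
      (fun y hy => r2_div_pE hA hD.hT hD.dT Z.PE hy)).2 x hx
  exact lame_add hR h3 h4

/-- equal data give equal fields -/
theorem fH_congr {D' : Dat d} (h : D.Eq D') (k : Fin d) : fH Z D k =ᶠ[𝓝 0] fH Z D' k := by
  have h1 := pd_congr (pE_congr h.p Z.PU) k
  have h2 := Wf_congr (pE_congr h.q (pG d Z.lam Z.mu * Z.PW))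
    (pE_congr h.q (C (Z.lam + Z.mu) * pA d * Z.PW)) k
  have h3 := pE_congr (h.T k) Z.PT
  filter_upwards [h1, h2, h3] with x e1 e2 e3
  unfold fH
  rw [e1, e2, e3, h.h, h.γ]

private theorem r2_kel_congr {f g : EE d → ℝ} {δ : ℝ} (hδ : 0 < δ)
    (h : ∀ y : EE d, ‖y‖ < δ → f y = g y) (P : ℝ[X]) {x : EE d} (hx : δ⁻¹ < ‖x‖) :
    kel (pE P f) =ᶠ[𝓝 x] kel (pE P g) := by
  have hopen : IsOpen {y : EE d | δ⁻¹ < ‖y‖} := isOpen_lt continuous_const continuous_norm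
  filter_upwards [hopen.mem_nhds hx] with y hy
  have hy' : δ⁻¹ < ‖y‖ := hy
  have hy0 : y ≠ 0 := by
    intro h0
    rw [h0, norm_zero] at hy'
    exact absurd hy' (not_lt.mpr (inv_pos.mpr hδ).le)
  refine r2_kel_at ?_
  have hn : ‖inv y‖ < δ := by
    rw [norm_inv' hy0]
    exact inv_lt_of_inv_lt₀ hδ hy'
  have h1 : f =ᶠ[𝓝 (inv y)] g := by
    have hopen2 : IsOpen {z : EE d | ‖z‖ < δ} := isOpen_lt continuous_norm continuous_const
    filter_upwards [hopen2.mem_nhds hn] with z hz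
    exact h z hz
  exact (pE_congr h1 P).self_of_nhds

theorem fw_congr {D' : Dat d} (h : D.Eq D') :
    ∃ R : ℝ, ∀ x : EE d, R < ‖x‖ → ∀ k, fw Z D k x = fw Z D' k x := by
  have h0 : ∀ᶠ x in 𝓝 (0 : EE d), D.p x = D'.p x ∧ D.q x = D'.q x ∧ ∀ k, D.T k x = D'.T k x := by
    filter_upwards [h.p, h.q, Filter.eventually_all.mpr h.T] with x e1 e2 e3
    exact ⟨e1, e2, e3⟩
  obtain ⟨δ, hδ, hb⟩ := Metric.eventually_nhds_iff.mp h0
  have hb' : ∀ y : EE d, ‖y‖ < δ → D.p y = D'.p y ∧ D.q y = D'.q y ∧ ∀ k, D.T k y = D'.T k y :=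
    fun y hy => hb (by rwa [dist_zero_right])
  refine ⟨δ⁻¹, fun x hx k => ?_⟩
  have e1 := (pd_congr (r2_kel_congr hδ (fun y hy => (hb' y hy).2.1) Z.PQ hx) k).self_of_nhds
  have e2 := (Wf_congr
    (r2_kel_congr hδ (fun y hy => ((hb' y hy).1).symm) (-(pGh d Z.lam Z.mu * Z.PD)) hx)
    (r2_kel_congr hδ (fun y hy => ((hb' y hy).1).symm)
      (C (Z.lam + Z.mu) * (X * (2 * X + C ((d : ℝ) - 4))) * Z.PD) hx) k).self_of_nhds
  have e3 := (r2_kel_congr hδ (fun y hy => (hb' y hy).2.2 k) Z.PE hx).self_of_nhds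
  unfold fw
  rw [e1, e3, h.γ, e2]

end Pool.Agent.MP_0643f8_an.U
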