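import Mathlib
import Pool.Agent.Lib.MP_0643f8_an.U.R2_Lame

/-!
# Continuity on the unit sphere

At `‖x‖ = 1`: `inv x = x`, `kel f x = f x`, `pd k (kel f) x` is given by `pd_kel_sphere`, the
last term of `Wf` vanishes, and `eul (kel f) x = -(eul f x + (d-2) f x)` by `eul_kel`. So
`exU P f = ∇ (Ĝ P f)` on the sphere and `- ∇ kel f = x (2E+d-2) f - ∇ f`.
-/

set_option autoImplicit false

open MeasureTheory Metric Set Filter Topology Polynomial
open scoped ContDiff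

namespace Pool.Agent.MP_0643f8_an.U

variable {d : ℕ} (Z : Cst d) {A : Set (EE d)} {D : Dat d}

private theorem r3_kel {f : EE d → ℝ} {x : EE d} (h1 : ‖x‖ = 1) : kel f x = f x := by
  unfold kel
  rw [h1, one_pow, inv_one, one_mul, inv_of_norm_one h1]

private theorem r3_Wf {g ρ : EE d → ℝ} {x : EE d} (h1 : ‖x‖ = 1) (k : Fin d) :
    Wf g ρ k x = x k * (2 * eul g x + ((d : ℝ) - 2) * g x) - pd k g x := by
  unfold Wf
  rw [h1]
  ring

private theorem r3_ne {x : EE d} (h1 : ‖x‖ = 1) : x ≠ 0 := by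
  rintro rfl
  rw [norm_zero] at h1
  exact zero_ne_one h1

theorem trace_exU (hd : 2 ≤ d) (hA : IsOpen A) {f : EE d → ℝ} (hf : Hm A f) (lam mu : ℝ)
    (P : ℝ[X]) {x : EE d} (hx : x ∈ A) (h1 : ‖x‖ = 1) (k : Fin d) :
    exU lam mu P f k x = pd k (pE (pGh d lam mu * P) f) x := by
  have hx0 := r3_ne h1
  have hinv : inv x = x := inv_of_norm_one h1
  set Q : ℝ[X] := pGh d lam mu * P with hQ
  have hdiff : DifferentiableAt ℝ (pE (-Q) f) x := hm_diffAt (hm_pE hA hf _) hA hx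
  have hdiffQ : DifferentiableAt ℝ (pE Q f) x := hm_diffAt (hm_pE hA hf _) hA hx
  have hneg : pE (-Q) f = fun y => (-1) * pE Q f y := by
    funext y
    rw [pE_neg_left, neg_one_mul]
  have e1 : pd k (pE (-Q) f) x = - pd k (pE Q f) x := by
    rw [hneg, pd_cmul hdiffQ, neg_one_mul]
  unfold exU
  rw [r3_Wf h1, eul_kel hd hx0 (by rw [hinv]; exact hdiff), r3_kel h1, r3_kel h1,
    pd_kel_sphere hd h1 hdiff, e1]
  ring

/-- `v = H + w` on the unit sphere -/
theorem trace_eq (hA : IsOpen A) (hD : D.On A) {x : EE d} (hx : x ∈ A) (h1 : ‖x‖ = 1)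
    (k : Fin d) : fv Z D k x = fH Z D k x + fw Z D k x := by
  have hd := Z.hd
  have hexU := trace_exU hd hA hD.hp Z.lam Z.mu Z.PD hx h1 k
  unfold exU at hexU
  have hdp : ∀ P : ℝ[X], DifferentiableAt ℝ (pE P D.p) x := fun P =>
    hm_diffAt (hm_pE hA hD.hp P) hA hx
  have hdq : ∀ P : ℝ[X], DifferentiableAt ℝ (pE P D.q) x := fun P =>
    hm_diffAt (hm_pE hA hD.hq P) hA hx
  have hadd : ∀ (P Q : ℝ[X]) (f : EE d → ℝ), pE (P + Q) f = fun y => pE P f y + pE Q f y := by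
    intro P Q f
    funext y
    exact pE_add_left P Q f y
  have hpole : pole (Z.c1 * D.γ) k x = Z.c1 * D.γ * x k := by
    unfold pole
    rw [h1, one_pow, div_one]
  have hU : pd k (pE (Z.PU + pGh d Z.lam Z.mu * Z.PD) D.p) x =
      pd k (pE Z.PU D.p) x + pd k (pE (pGh d Z.lam Z.mu * Z.PD) D.p) x := by
    rw [hadd]
    exact pd_add (hdp _) (hdp _) k
  have hW1 : pd k (pE (pG d Z.lam' Z.mu' * Z.PS) D.q) x =
      pd k (pE (pG d Z.lam Z.mu * Z.PW) D.q) x + pd k (pE Z.PQ D.q) x := by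
    rw [id_trace, hadd]
    exact pd_add (hdq _) (hdq _) k
  have hW2 : eul (pE (pG d Z.lam' Z.mu' * Z.PS) D.q) x =
      eul (pE (pG d Z.lam Z.mu * Z.PW) D.q) x + eul (pE Z.PQ D.q) x := by
    rw [id_trace, hadd]
    exact eul_add (hdq _) (hdq _)
  have hW3 : pE (pG d Z.lam' Z.mu' * Z.PS) D.q x =
      pE (pG d Z.lam Z.mu * Z.PW) D.q x + pE Z.PQ D.q x := by
    rw [id_trace, pE_add_left]
  unfold fv fH fw
  rw [hexU, hpole, hU, r3_Wf h1, r3_Wf h1, hW1, hW2, hW3, r3_kel h1, pE_add_left,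
    pd_kel_sphere hd h1 (hdq _)]
  ring

end Pool.Agent.MP_0643f8_an.U
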