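import Mathlib
import Pool.Agent.Lib.MP_0643f8_an.U.R0_Defs

/-!
# Tractions on the unit sphere

General formula (any point `x`): `∑ᵢ xᵢ σ_ik = λ x_k ∇·u + μ (E u_k + ∂_k (x·u) - u_k)`.
-/

set_option autoImplicit false

open MeasureTheory Metric Set Filter Topology Polynomial
open scoped ContDiff

namespace Pool.Agent.MP_0643f8_an.U

variable {d : ℕ} {A : Set (EE d)}

private theorem r4_coord_diff (i : Fin d) (x : EE d) : DifferentiableAt ℝ (fun y : EE d => y i) x := by
  fun_prop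

private theorem r4_pdxu {u : Fin d → EE d → ℝ} {x : EE d}
    (hu : ∀ k, DifferentiableAt ℝ (u k) x) (k : Fin d) :
    pd k (fun y => ∑ i, y i * u i y) x = ∑ i, x i * pd k (u i) x + u k x := by
  rw [pd_sum Finset.univ (f := fun i y => y i * u i y)
    (fun i _ => (r4_coord_diff i x).fun_mul (hu i))]
  have h1 : ∀ i, pd k (fun y => y i * u i y) x = x i * pd k (u i) x +
      u i x * (if k = i then 1 else 0) := by
    intro i
    rw [pd_mul (r4_coord_diff i x) (hu i), pd_coord]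
  rw [Finset.sum_congr rfl fun i _ => h1 i, Finset.sum_add_distrib]
  congr 1
  simp

private theorem r4_trc (lam mu : ℝ) (u : Fin d → EE d → ℝ) (x : EE d) (k : Fin d) :
    trc lam mu u k x = lam * (x k * dv u x) +
      mu * (∑ i, x i * pd i (u k) x + ∑ i, x i * pd k (u i) x) := by
  unfold trc sig grd dv
  have h1 : ∀ i : Fin d, x i * (lam * (if i = k then ∑ j, pd j (u j) x else 0) +
      mu * (pd i (u k) x + pd k (u i) x)) =
      lam * (if i = k then x k * ∑ j, pd j (u j) x else 0) +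
      mu * (x i * pd i (u k) x + x i * pd k (u i) x) := by
    intro i
    by_cases h : i = k
    · subst h; simp; ring
    · simp [h]; ring
  rw [Finset.sum_congr rfl fun i _ => h1 i, Finset.sum_add_distrib, ← Finset.mul_sum,
    ← Finset.mul_sum, Finset.sum_add_distrib]
  simp

theorem trc_eq (lam mu : ℝ) {u : Fin d → EE d → ℝ} {x : EE d}
    (hu : ∀ k, DifferentiableAt ℝ (u k) x) (k : Fin d) :
    trc lam mu u k x = lam * (x k * dv u x) +
      mu * (eul (u k) x + pd k (fun y => ∑ i, y i * u i y) x - u k x) := by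
  rw [r4_trc, r4_pdxu hu, eul_eq_sum]
  ring

theorem trc_add (lam mu : ℝ) {u v : Fin d → EE d → ℝ} {x : EE d}
    (hu : ∀ k, DifferentiableAt ℝ (u k) x) (hv : ∀ k, DifferentiableAt ℝ (v k) x) (k : Fin d) :
    trc lam mu (fun k y => u k y + v k y) k x = trc lam mu u k x + trc lam mu v k x := by
  rw [r4_trc, r4_trc, r4_trc, dv_add hu hv]
  have h1 : ∑ i, x i * pd i (fun y => u k y + v k y) x =
      ∑ i, x i * pd i (u k) x + ∑ i, x i * pd i (v k) x := by
    rw [← Finset.sum_add_distrib]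
    refine Finset.sum_congr rfl fun i _ => ?_
    rw [pd_add (hu k) (hv k)]; ring
  have h2 : ∑ i, x i * pd k (fun y => u i y + v i y) x =
      ∑ i, x i * pd k (u i) x + ∑ i, x i * pd k (v i) x := by
    rw [← Finset.sum_add_distrib]
    refine Finset.sum_congr rfl fun i _ => ?_
    rw [pd_add (hu i) (hv i)]; ring
  rw [h1, h2]
  ring

theorem trc_sub (lam mu : ℝ) {u v : Fin d → EE d → ℝ} {x : EE d}
    (hu : ∀ k, DifferentiableAt ℝ (u k) x) (hv : ∀ k, DifferentiableAt ℝ (v k) x) (k : Fin d) :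
    trc lam mu (fun k y => u k y - v k y) k x = trc lam mu u k x - trc lam mu v k x := by
  rw [r4_trc, r4_trc, r4_trc, dv_sub hu hv]
  have h1 : ∑ i, x i * pd i (fun y => u k y - v k y) x =
      ∑ i, x i * pd i (u k) x - ∑ i, x i * pd i (v k) x := by
    rw [← Finset.sum_sub_distrib]
    refine Finset.sum_congr rfl fun i _ => ?_
    rw [pd_sub (hu k) (hv k)]; ring
  have h2 : ∑ i, x i * pd k (fun y => u i y - v i y) x =
      ∑ i, x i * pd k (u i) x - ∑ i, x i * pd k (v i) x := by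
    rw [← Finset.sum_sub_distrib]
    refine Finset.sum_congr rfl fun i _ => ?_
    rw [pd_sub (hu i) (hv i)]; ring
  rw [h1, h2]
  ring

theorem trc_const (lam mu : ℝ) (h : Fin d → ℝ) (k : Fin d) (x : EE d) :
    trc lam mu (fun k _ => h k) k x = 0 := by
  rw [r4_trc]
  unfold dv
  simp [pd_const]

theorem trc_dil (lam mu c : ℝ) (k : Fin d) (x : EE d) :
    trc lam mu (fun k y => c * y k) k x = (lam * d + 2 * mu) * c * x k := by
  have h1 : ∀ i j : Fin d, pd i (fun y : EE d => c * y j) x = c * (if i = j then 1 else 0) := by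
    intro i j
    rw [pd_cmul (r4_coord_diff j x), pd_coord]
  rw [r4_trc, dv_dil]
  have h2 : ∑ i, x i * pd i (fun y : EE d => c * y k) x = c * x k := by
    rw [Finset.sum_congr rfl fun i _ => by rw [h1]]
    simp [mul_comm]
  have h3 : ∑ i, x i * pd k (fun y : EE d => c * y i) x = c * x k := by
    rw [Finset.sum_congr rfl fun i _ => by rw [h1]]
    simp [mul_comm]
  rw [h2, h3]
  ring

theorem trc_pole (hd : 2 ≤ d) (lam mu c : ℝ) (k : Fin d) {x : EE d} (h1 : ‖x‖ = 1) :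
    trc lam mu (pole c) k x = -(2 * ((d : ℝ) - 1) * mu) * c * x k := by
  have hx : x ≠ 0 := by
    intro h
    rw [h, norm_zero] at h1
    exact zero_ne_one h1
  have hn : ∑ i, x i ^ 2 = 1 := by
    rw [← normsq_eq_sum, h1, one_pow]
  have hp : ∀ i j : Fin d, pd i (pole c j) x = c * ((if i = j then 1 else 0) - d * (x i * x j)) := by
    intro i j
    rw [pd_pole c hx, h1]
    simp
  rw [r4_trc, dv_pole hd c hx]
  have h2 : ∑ i, x i * pd i (pole c k) x = c * x k - c * (d * x k) := by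
    have : ∀ i, x i * pd i (pole c k) x = c * (if i = k then x i else 0) -
        c * (d * x k) * x i ^ 2 := by
      intro i
      rw [hp]
      by_cases h : i = k
      · simp [h]; ring
      · simp [h]; ring
    rw [Finset.sum_congr rfl fun i _ => this i, Finset.sum_sub_distrib, ← Finset.mul_sum,
      ← Finset.mul_sum, hn]
    simp
  have h3 : ∑ i, x i * pd k (pole c i) x = c * x k - c * (d * x k) := by
    have : ∀ i, x i * pd k (pole c i) x = c * (if i = k then x i else 0) -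
        c * (d * x k) * x i ^ 2 := by
      intro i
      rw [hp]
      by_cases h : i = k
      · simp [h]; ring
      · simp [h, Ne.symm h]; ring
    rw [Finset.sum_congr rfl fun i _ => this i, Finset.sum_sub_distrib, ← Finset.mul_sum,
      ← Finset.mul_sum, hn]
    simp
  rw [h2, h3]
  ring

/-- gradients: `2μ ∇(E-1) b` -/
theorem trc_grad (hA : IsOpen A) (lam mu : ℝ) {b : EE d → ℝ} (hb : Hm A b) {x : EE d}
    (hx : x ∈ A) (k : Fin d) :
    trc lam mu (fun k => pd k b) k x = 2 * mu * pd k (pE (X - 1) b) x := by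
  have hd1 : ∀ k, DifferentiableAt ℝ (pd k b) x := fun k => hm_diffAt (hm_pd hA hb k) hA hx
  rw [trc_eq lam mu hd1]
  have h1 : dv (fun k => pd k b) x = 0 := hb.2 x hx
  have h2 : (fun y : EE d => ∑ i, y i * pd i b y) = eul b := by
    funext y
    exact (eul_eq_sum b y).symm
  have h3 : pE (X - 1) b = fun y => eul b y - b y := by
    funext y
    rw [pE_sub_left, pE_X, pE_one]
  have h4 := pd_eul (hm_contDiffAt2 hb hA hx) k
  rw [h1, h2, h3, pd_sub (hm_diffAt (hm_eul hA hb) hA hx) (hm_diffAt hb hA hx), h4]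
  ring

/-- toroidal fields: `μ (E - 1) T` -/
theorem trc_tor (hA : IsOpen A) (lam mu : ℝ) {T : Fin d → EE d → ℝ} (hT : ∀ k, Hm A (T k))
    (hxT : ∀ x ∈ A, ∑ k, x k * T k x = 0) (hdT : ∀ x ∈ A, dv T x = 0) {x : EE d} (hx : x ∈ A)
    (k : Fin d) : trc lam mu T k x = mu * pE (X - 1) (T k) x := by
  rw [trc_eq lam mu (fun k => hm_diffAt (hT k) hA hx), hdT x hx, pE_sub_left, pE_X, pE_one]
  have h1 : (fun y : EE d => ∑ i, y i * T i y) =ᶠ[𝓝 x] fun _ => 0 := by
    filter_upwards [hA.mem_nhds hx] with y hy using hxT y hy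
  rw [(pd_congr h1 k).self_of_nhds, pd_const]
  ring

private theorem r4_quad (hA : IsOpen A) {g : EE d → ℝ} (hg : Hm A g) {x : EE d} (hx : x ∈ A)
    (a b c : ℝ) : pE (C a * (X * X) + C b * X + C c) g x =
      a * eul (eul g) x + b * eul g x + c * g x := by
  have h0 : pE (X : ℝ[X]) g = eul g := by
    funext y
    exact pE_X g y
  rw [pE_add_left, pE_add_left, pE_C_mul, pE_C_mul, pE_C, pE_X, pE_mul hA hg.1 X X hx, pE_X, h0]

private theorem r4_dvpoly (hA : IsOpen A) {g : EE d → ℝ} (hg : Hm A g) {x : EE d} (hx : x ∈ A) :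
    pE ((X + C ((d : ℝ) - 2)) * (2 * X + C (d : ℝ))) g x =
      2 * eul (eul g) x + (3 * (d : ℝ) - 4) * eul g x + (d : ℝ) * (d - 2) * g x := by
  have h : ((X + C ((d : ℝ) - 2)) * (2 * X + C (d : ℝ)) : ℝ[X]) =
      C 2 * (X * X) + C (3 * (d : ℝ) - 4) * X + C ((d : ℝ) * (d - 2)) := by
    simp only [C_sub, C_mul, map_ofNat]
    ring
  rw [h, r4_quad hA hg hx]

private theorem r4_tgt (hA : IsOpen A) (lam mu : ℝ) {g : EE d → ℝ} (hg : Hm A g) {x : EE d}
    (hx : x ∈ A) :
    pE ((C lam * (X + C (d : ℝ)) + C mu * (X + 2)) * pM d) g x =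
      (lam + mu) * 2 * eul (eul g) x +
      (lam * (3 * (d : ℝ) - 2) + mu * ((d : ℝ) + 2)) * eul g x +
      (lam * (d : ℝ) * (d - 2) + mu * 2 * ((d : ℝ) - 2)) * g x := by
  have h : ((C lam * (X + C (d : ℝ)) + C mu * (X + 2)) * pM d : ℝ[X]) =
      C ((lam + mu) * 2) * (X * X) + C (lam * (3 * (d : ℝ) - 2) + mu * ((d : ℝ) + 2)) * X +
        C (lam * (d : ℝ) * (d - 2) + mu * 2 * ((d : ℝ) - 2)) := by
    unfold pM
    simp only [C_sub, C_add, C_mul, map_ofNat]
    ring
  rw [h, r4_quad hA hg hx]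

/-- the fields `Wf g ρ` on the unit sphere: `∇(μ(d-2) g - 2μ ρ)
+ x {(λ(d+E)+μ(E+2))(2E+d-2) g - 2(λ+μ) E (g + ρ)}` -/
theorem trc_Wf (hA : IsOpen A) (lam mu : ℝ) {g ρ : EE d → ℝ} (hg : Hm A g) (hρ : Hm A ρ)
    {x : EE d} (hx : x ∈ A) (h1 : ‖x‖ = 1) (k : Fin d) :
    trc lam mu (Wf g ρ) k x =
      mu * ((d : ℝ) - 2) * pd k g x - 2 * mu * pd k ρ x +
        x k * (pE ((C lam * (X + C (d : ℝ)) + C mu * (X + 2)) * pM d) g x -
          2 * (lam + mu) * (eul g x + eul ρ x)) := by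
  have hxn : x ∈ A := hx
  have dg := hm_diffAt hg hA hx
  have dρ := hm_diffAt hρ hA hx
  have deg := hm_diffAt (hm_eul hA hg) hA hx
  have deρ := hm_diffAt (hm_eul hA hρ) hA hx
  have dpg : ∀ i, DifferentiableAt ℝ (pd i g) x := fun i => hm_diffAt (hm_pd hA hg i) hA hx
  have dpρ : ∀ i, DifferentiableAt ℝ (pd i ρ) x := fun i => hm_diffAt (hm_pd hA hρ i) hA hx
  have dn : DifferentiableAt ℝ (fun y : EE d => ‖y‖ ^ 2) x :=
    ((contDiff_norm_sq ℝ).contDiffAt (n := 1)).differentiableAt (by norm_num)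
  have d1n : DifferentiableAt ℝ (fun y : EE d => 1 - ‖y‖ ^ 2) x :=
    (differentiableAt_const 1).sub dn
  have dW : ∀ i, DifferentiableAt ℝ (Wf g ρ i) x := fun i =>
    ((Wf_smooth hA hg hρ i).contDiffAt (hA.mem_nhds hx)).differentiableAt (by simp)
  rw [trc_eq lam mu dW, dv_Wf hA hg hρ hx, r4_dvpoly hA hg hx, r4_tgt hA lam mu hg hx]
  -- the radial component
  have hrad : (fun y : EE d => ∑ i, y i * Wf g ρ i y) = fun y =>
      ‖y‖ ^ 2 * (eul g y + ((d : ℝ) - 2) * g y) + (1 - ‖y‖ ^ 2) * eul ρ y := by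
    funext y
    have h2 : ∀ i, y i * Wf g ρ i y = (2 * eul g y + ((d : ℝ) - 2) * g y) * y i ^ 2 -
        ‖y‖ ^ 2 * (y i * pd i g y) + (1 - ‖y‖ ^ 2) * (y i * pd i ρ y) := by
      intro i
      unfold Wf
      ring
    rw [Finset.sum_congr rfl fun i _ => h2 i, Finset.sum_add_distrib, Finset.sum_sub_distrib,
      ← Finset.mul_sum, ← Finset.mul_sum, ← Finset.mul_sum, ← eul_eq_sum, ← eul_eq_sum,
      ← normsq_eq_sum]
    ring
  have pd1n : pd k (fun y : EE d => 1 - ‖y‖ ^ 2) x = - (2 * x k) := by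
    rw [pd_sub (differentiableAt_const 1) dn, pd_const, pd_normsq]; ring
  have e1n : eul (fun y : EE d => 1 - ‖y‖ ^ 2) x = -2 := by
    rw [eul_eq_sum]
    have : ∀ i, x i * pd i (fun y : EE d => 1 - ‖y‖ ^ 2) x = -2 * x i ^ 2 := by
      intro i
      rw [pd_sub (differentiableAt_const 1) dn, pd_const, pd_normsq]; ring
    rw [Finset.sum_congr rfl fun i _ => this i, ← Finset.mul_sum, ← normsq_eq_sum, h1]
    norm_num
  have dg2 : DifferentiableAt ℝ (fun y => ((d : ℝ) - 2) * g y) x := dg.const_mul _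
  have deg2 : DifferentiableAt ℝ (fun y => 2 * eul g y) x := deg.const_mul _
  have dN : DifferentiableAt ℝ (fun y => eul g y + ((d : ℝ) - 2) * g y) x := deg.fun_add dg2
  have dA1 : DifferentiableAt ℝ (fun y => ‖y‖ ^ 2 * (eul g y + ((d : ℝ) - 2) * g y)) x :=
    dn.fun_mul dN
  have dA2 : DifferentiableAt ℝ (fun y => (1 - ‖y‖ ^ 2) * eul ρ y) x := d1n.fun_mul deρ
  have hprad : pd k (fun y : EE d => ∑ i, y i * Wf g ρ i y) x =
      (eul (pd k g) x + pd k g x + ((d : ℝ) - 2) * pd k g x) +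
        2 * x k * (eul g x + ((d : ℝ) - 2) * g x) - 2 * x k * eul ρ x := by
    rw [hrad, pd_add dA1 dA2, pd_mul dn dN, pd_mul d1n deρ, pd_normsq, pd1n,
      pd_add deg dg2, pd_cmul dg, pd_eul (hm_contDiffAt2 hg hA hx), h1]
    ring
  -- the Euler derivative
  have hWk : Wf g ρ k = fun y => (y k * (2 * eul g y + ((d : ℝ) - 2) * g y) +
      (-1) * (‖y‖ ^ 2 * pd k g y)) + (1 - ‖y‖ ^ 2) * pd k ρ y := by
    funext y
    unfold Wf
    ring
  have dH : DifferentiableAt ℝ (fun y => 2 * eul g y + ((d : ℝ) - 2) * g y) x :=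
    deg2.fun_add dg2
  have dA3 : DifferentiableAt ℝ (fun y => ‖y‖ ^ 2 * pd k g y) x := dn.fun_mul (dpg k)
  have dA4 : DifferentiableAt ℝ (fun y : EE d => y k * (2 * eul g y + ((d : ℝ) - 2) * g y)) x :=
    (r4_coord_diff k x).fun_mul dH
  have dA5 : DifferentiableAt ℝ (fun y => (-1) * (‖y‖ ^ 2 * pd k g y)) x := dA3.const_mul _
  have dA6 : DifferentiableAt ℝ (fun y => (1 - ‖y‖ ^ 2) * pd k ρ y) x := d1n.fun_mul (dpρ k)
  have dA7 : DifferentiableAt ℝ (fun y : EE d => y k * (2 * eul g y + ((d : ℝ) - 2) * g y) +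
      (-1) * (‖y‖ ^ 2 * pd k g y)) x := dA4.fun_add dA5
  have heul : eul (Wf g ρ k) x = x k * (2 * eul (eul g) x + ((d : ℝ) - 2) * eul g x) +
      (2 * eul g x + ((d : ℝ) - 2) * g x) * x k - (eul (pd k g) x + 2 * pd k g x) -
      2 * pd k ρ x := by
    rw [hWk, eul_add dA7 dA6, eul_add dA4 dA5,
      eul_mul (r4_coord_diff k x) dH, eul_cmul dA3, eul_mul dn (dpg k),
      eul_mul d1n (dpρ k), eul_coord, eul_normsq, e1n, eul_add deg2 dg2,
      eul_cmul deg, eul_cmul dg, h1]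
    ring
  have hval : Wf g ρ k x = x k * (2 * eul g x + ((d : ℝ) - 2) * g x) - pd k g x := by
    unfold Wf
    rw [h1]; ring
  rw [heul, hprad, hval]
  ring

end Pool.Agent.MP_0643f8_an.U
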