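import Mathlib
import Pool.Agent.Lib.MP_0643f8_an.U.R3_Trace
import Pool.Agent.Lib.MP_0643f8_an.U.R4_Trac

/-!
# Equality of the tractions on the unit sphere
-/

set_option autoImplicit false

open MeasureTheory Metric Set Filter Topology Polynomial
open scoped ContDiff

namespace Pool.Agent.MP_0643f8_an.U

variable {d : ℕ} (Z : Cst d) {A : Set (EE d)} {D : Dat d}

/-! ### auxiliary lemmas -/

private theorem r5_pd_add (hA : IsOpen A) {f : EE d → ℝ} (hf : Hm A f) (P Q : ℝ[X]) {x : EE d}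
    (hx : x ∈ A) (k : Fin d) :
    pd k (pE (P + Q) f) x = pd k (pE P f) x + pd k (pE Q f) x := by
  have h1 : pE (P + Q) f = fun y => pE P f y + pE Q f y := funext fun y => pE_add_left P Q f y
  rw [h1]
  exact pd_add (hm_diffAt (hm_pE hA hf P) hA hx) (hm_diffAt (hm_pE hA hf Q) hA hx) k

private theorem r5_pd_sub (hA : IsOpen A) {f : EE d → ℝ} (hf : Hm A f) (P Q : ℝ[X]) {x : EE d}
    (hx : x ∈ A) (k : Fin d) :
    pd k (pE (P - Q) f) x = pd k (pE P f) x - pd k (pE Q f) x := by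
  have h1 : pE (P - Q) f = fun y => pE P f y - pE Q f y := funext fun y => pE_sub_left P Q f y
  rw [h1]
  exact pd_sub (hm_diffAt (hm_pE hA hf P) hA hx) (hm_diffAt (hm_pE hA hf Q) hA hx) k

private theorem r5_pd_C (hA : IsOpen A) {f : EE d → ℝ} (hf : Hm A f) (a : ℝ) (P : ℝ[X]) {x : EE d}
    (hx : x ∈ A) (k : Fin d) :
    pd k (pE (C a * P) f) x = a * pd k (pE P f) x := by
  have h1 : pE (C a * P) f = fun y => a * pE P f y := funext fun y => pE_C_mul a P f y
  rw [h1]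
  exact pd_cmul (hm_diffAt (hm_pE hA hf P) hA hx) a k

private theorem r5_neg (i : Fin d) (f : EE d → ℝ) (x : EE d) :
    pd i (fun y => - f y) x = - pd i f x := by
  unfold pd
  rw [fderiv_fun_neg]
  rfl

private theorem r5_pd_neg {f : EE d → ℝ} (P : ℝ[X]) {x : EE d} (k : Fin d) :
    pd k (pE (-P) f) x = - pd k (pE P f) x := by
  have h1 : pE (-P) f = fun y => - pE P f y := funext fun y => pE_neg_left P f y
  rw [h1, r5_neg]

private theorem r5_trc_neg (lam mu : ℝ) (u : Fin d → EE d → ℝ) (k : Fin d) (x : EE d) :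
    trc lam mu (fun k y => - u k y) k x = - trc lam mu u k x := by
  unfold trc sig grd
  rw [← Finset.sum_neg_distrib]
  refine Finset.sum_congr rfl fun i _ => ?_
  rw [r5_neg, r5_neg]
  simp_rw [r5_neg]
  rw [Finset.sum_neg_distrib]
  split_ifs <;> ring

private theorem r5_RS {x : EE d} (hx : x ∈ A) (h1 : ‖x‖ = 1) : x ∈ RS A := by
  refine ⟨?_, ?_⟩
  · intro h0
    rw [h0, norm_zero] at h1
    norm_num at h1
  · rw [inv_of_norm_one h1]
    exact hx

private theorem r5_kel {x : EE d} (h1 : ‖x‖ = 1) (f : EE d → ℝ) : kel f x = f x := by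
  unfold kel
  rw [inv_of_norm_one h1, h1]
  simp

private theorem r5_eul_kel (hd : 2 ≤ d) {x : EE d} (h1 : ‖x‖ = 1) {f : EE d → ℝ}
    (hf : DifferentiableAt ℝ f x) :
    eul (kel f) x = - (eul f x + ((d : ℝ) - 2) * f x) := by
  have h0 : x ≠ 0 := by
    intro h0
    rw [h0, norm_zero] at h1
    norm_num at h1
  rw [eul_kel hd h0 (by rw [inv_of_norm_one h1]; exact hf), r5_kel h1]

/-- traction of the interior type W field: `x (2E+d-2) κ P f - ∇ κ P f` (by `trc_Wf`, `id_K`,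
`id_x`) -/
theorem trc_inW (hA : IsOpen A) {f : EE d → ℝ} (hf : Hm A f) (lam mu : ℝ) (P : ℝ[X]) {x : EE d}
    (hx : x ∈ A) (h1 : ‖x‖ = 1) (k : Fin d) :
    trc lam mu (inW lam mu P f) k x =
      x k * pE (pM d * (pK d lam mu * P)) f x - pd k (pE (pK d lam mu * P) f) x := by
  have hg := hm_pE hA hf (pG d lam mu * P)
  have hρ := hm_pE hA hf (C (lam + mu) * pA d * P)
  unfold inW
  rw [trc_Wf hA lam mu hg hρ hx h1 k, ← pE_mul hA hf.1 _ _ hx, eul_pE hA hf.1 _ hx,
    eul_pE hA hf.1 _ hx]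
  have e1 : mu * ((d : ℝ) - 2) * pd k (pE (pG d lam mu * P) f) x -
      2 * mu * pd k (pE (C (lam + mu) * pA d * P) f) x = - pd k (pE (pK d lam mu * P) f) x := by
    have h2 : pK d lam mu * P = C (2 * mu) * (C (lam + mu) * pA d * P) -
        C (mu * ((d : ℝ) - 2)) * (pG d lam mu * P) := by
      have h3 := id_K (d := d) lam mu
      have h4 : pK d lam mu = C (2 * mu * (lam + mu)) * pA d -
        C (mu * ((d : ℝ) - 2)) * pG d lam mu := by rw [← h3]; ring
      rw [h4, C_mul]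
      ring
    rw [h2, r5_pd_sub hA hf _ _ hx, r5_pd_C hA hf _ _ hx, r5_pd_C hA hf _ _ hx]
    ring
  have e2 : pE ((C lam * (X + C (d : ℝ)) + C mu * (X + 2)) * pM d * (pG d lam mu * P)) f x -
      2 * (lam + mu) * (pE (X * (pG d lam mu * P)) f x +
        pE (X * (C (lam + mu) * pA d * P)) f x) = pE (pM d * (pK d lam mu * P)) f x := by
    have h3 := id_x (d := d) lam mu
    have h4 : pM d * (pK d lam mu * P) = (C lam * (X + C (d : ℝ)) + C mu * (X + 2)) * pM d *
        (pG d lam mu * P) - C (2 * (lam + mu)) * (X * (pG d lam mu * P) +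
          X * (C (lam + mu) * pA d * P)) := by
      have h5 : pM d * (pK d lam mu * P) = pM d * pK d lam mu * P := by ring
      rw [h5, ← h3]
      ring
    rw [h4, pE_sub_left, pE_C_mul, pE_add_left]
  rw [e1, e2]
  ring

/-- traction of the exterior type U field: `- ∇ κ̂ P f` (by `trc_Wf` for `g = kel ..`,
`ρ = kel ..`, `pE_kel`, `pd_kel_sphere`, `id_Kh`; the coefficient of `x` vanishes because
`(λ+μ)X(2X+d-4) + (λ+μ)((2-X)M - 2N) = 0`) -/
theorem trc_exU (hd : 2 ≤ d) (hA : IsOpen A) {f : EE d → ℝ} (hf : Hm A f) (lam mu : ℝ)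
    (P : ℝ[X]) {x : EE d} (hx : x ∈ A) (h1 : ‖x‖ = 1) (k : Fin d) :
    trc lam mu (exU lam mu P f) k x = - pd k (pE (pKh d lam mu * P) f) x := by
  have hxR := r5_RS hx h1
  set g0 : EE d → ℝ := pE (-(pGh d lam mu * P)) f with hg0
  set r0 : EE d → ℝ := pE (C (lam + mu) * (X * (2 * X + C ((d : ℝ) - 4))) * P) f with hr0
  have hg := hm_pE hA hf (-(pGh d lam mu * P))
  have hr := hm_pE hA hf (C (lam + mu) * (X * (2 * X + C ((d : ℝ) - 4))) * P)
  have hgd := hm_diffAt hg hA hx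
  have hrd := hm_diffAt hr hA hx
  have h2 : trc lam mu (exU lam mu P f) k x = trc lam mu (Wf (kel g0) (kel r0)) k x := rfl
  rw [h2, trc_Wf (isOpen_RS hA) lam mu (hm_kel hd hA hg) (hm_kel hd hA hr) hxR h1 k,
    pE_kel hd hA hg _ hxR, r5_kel h1, r5_eul_kel hd h1 hgd, r5_eul_kel hd h1 hrd,
    pd_kel_sphere hd h1 hgd, pd_kel_sphere hd h1 hrd, ← pE_mul hA hf.1 _ _ hx,
    eul_pE hA hf.1 _ hx, eul_pE hA hf.1 _ hx]
  have e1 : mu * ((d : ℝ) - 2) * pd k (pE (-(pGh d lam mu * P)) f) x -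
      2 * mu * pd k (pE (C (lam + mu) * (X * (2 * X + C ((d : ℝ) - 4))) * P) f) x =
      - pd k (pE (pKh d lam mu * P) f) x := by
    have h3 : pKh d lam mu * P = C (2 * mu) * (C (lam + mu) * (X * (2 * X + C ((d : ℝ) - 4))) * P) -
        C (mu * ((d : ℝ) - 2)) * (-(pGh d lam mu * P)) := by
      rw [← id_Kh (d := d) lam mu, C_mul (a := 2 * mu)]
      ring
    rw [h3, r5_pd_sub hA hf _ _ hx, r5_pd_C hA hf _ _ hx, r5_pd_C hA hf _ _ hx]
    ring
  have e2 : pE (((C lam * (X + C (d : ℝ)) + C mu * (X + 2)) * pM d).comp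
        (-X - C ((d : ℝ) - 2)) * -(pGh d lam mu * P)) f x =
      - (2 * mu) * (2 * pE (X * (C (lam + mu) * (X * (2 * X + C ((d : ℝ) - 4))) * P)) f x +
        ((d : ℝ) - 2) * pE (C (lam + mu) * (X * (2 * X + C ((d : ℝ) - 4))) * P) f x) +
      mu * ((d : ℝ) - 2) * (2 * pE (X * -(pGh d lam mu * P)) f x +
        ((d : ℝ) - 2) * pE (-(pGh d lam mu * P)) f x) -
      2 * (lam + mu) * ((pE (X * -(pGh d lam mu * P)) f x +
        ((d : ℝ) - 2) * pE (-(pGh d lam mu * P)) f x) +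
        (pE (X * (C (lam + mu) * (X * (2 * X + C ((d : ℝ) - 4))) * P)) f x +
        ((d : ℝ) - 2) * pE (C (lam + mu) * (X * (2 * X + C ((d : ℝ) - 4))) * P) f x)) := by
    have h3 : ((C lam * (X + C (d : ℝ)) + C mu * (X + 2)) * pM d).comp
        (-X - C ((d : ℝ) - 2)) * -(pGh d lam mu * P) =
      C (-(2 * mu)) * (C 2 * (X * (C (lam + mu) * (X * (2 * X + C ((d : ℝ) - 4))) * P)) +
        C ((d : ℝ) - 2) * (C (lam + mu) * (X * (2 * X + C ((d : ℝ) - 4))) * P)) +
      C (mu * ((d : ℝ) - 2)) * (C 2 * (X * -(pGh d lam mu * P)) +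
        C ((d : ℝ) - 2) * (-(pGh d lam mu * P))) -
      C (2 * (lam + mu)) * ((X * -(pGh d lam mu * P) +
        C ((d : ℝ) - 2) * (-(pGh d lam mu * P))) +
        (X * (C (lam + mu) * (X * (2 * X + C ((d : ℝ) - 4))) * P) +
        C ((d : ℝ) - 2) * (C (lam + mu) * (X * (2 * X + C ((d : ℝ) - 4))) * P))) := by
      apply Polynomial.funext
      intro t
      simp only [pGh, pM, pN, eval_mul, eval_add, eval_sub, eval_neg, eval_C, eval_X, eval_comp,
        eval_ofNat]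
      ring
    rw [h3]
    simp only [pE_add_left, pE_sub_left, pE_C_mul]
  rw [e2]
  linear_combination e1

/-- traction of `- ∇ kel f`: `-2μ (x (2E+d-2) (E+d-1) f - ∇ (E+d-1) f)` -/
theorem trc_exW (hd : 2 ≤ d) (hA : IsOpen A) {f : EE d → ℝ} (hf : Hm A f) (lam mu : ℝ)
    (P : ℝ[X]) {x : EE d} (hx : x ∈ A) (h1 : ‖x‖ = 1) (k : Fin d) :
    trc lam mu (fun k y => - pd k (kel (pE P f)) y) k x =
      -(2 * mu) * (x k * pE (pM d * ((X + C ((d : ℝ) - 1)) * P)) f x -
        pd k (pE ((X + C ((d : ℝ) - 1)) * P) f) x) := by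
  have hxR := r5_RS hx h1
  have hg := hm_pE hA hf P
  have hb := hm_kel hd hA hg
  have hF := hm_pE hA hf ((X + C ((d : ℝ) - 1)) * P)
  have h2 : trc lam mu (fun k y => - pd k (kel (pE P f)) y) k x =
      - trc lam mu (fun k => pd k (kel (pE P f))) k x :=
    r5_trc_neg lam mu (fun k => pd k (kel (pE P f))) k x
  rw [h2, trc_grad (isOpen_RS hA) lam mu hb hxR k]
  have h3 : pE (X - 1) (kel (pE P f)) =ᶠ[𝓝 x]
      kel (pE (-((X + C ((d : ℝ) - 1)) * P)) f) := by
    filter_upwards [(isOpen_RS hA).mem_nhds hxR] with y hy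
    rw [pE_kel hd hA hg _ hy]
    unfold kel
    rw [← pE_mul hA hf.1 _ _ hy.2]
    congr 2
    have h4 : (X - 1 : ℝ[X]).comp (-X - C ((d : ℝ) - 2)) = -(X + C ((d : ℝ) - 1)) := by
      apply Polynomial.funext
      intro t
      simp only [eval_add, eval_sub, eval_neg, eval_C, eval_X, eval_comp, eval_one]
      ring
    rw [h4]
    ring
  rw [(pd_congr h3 k).self_of_nhds]
  have h5 : DifferentiableAt ℝ (pE (-((X + C ((d : ℝ) - 1)) * P)) f) x :=
    hm_diffAt (hm_pE hA hf _) hA hx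
  rw [pd_kel_sphere hd h1 h5, r5_pd_neg, eul_pE hA hf.1 _ hx]
  have h6 : pE (pM d * ((X + C ((d : ℝ) - 1)) * P)) f x =
      - (2 * pE (X * -((X + C ((d : ℝ) - 1)) * P)) f x +
        ((d : ℝ) - 2) * pE (-((X + C ((d : ℝ) - 1)) * P)) f x) := by
    have h7 : pM d * ((X + C ((d : ℝ) - 1)) * P) =
        -(C 2 * (X * -((X + C ((d : ℝ) - 1)) * P)) +
          C ((d : ℝ) - 2) * (-((X + C ((d : ℝ) - 1)) * P))) := by
      apply Polynomial.funext
      intro t
      simp only [pM, eval_mul, eval_add, eval_neg, eval_C, eval_X, eval_ofNat]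
      ring
    rw [h7, pE_neg_left, pE_add_left, pE_C_mul, pE_C_mul]
  rw [h6]
  ring

/-- traction of the exterior toroidal field -/
theorem trc_exT (hd : 2 ≤ d) (hA : IsOpen A) (lam mu : ℝ) {T : Fin d → EE d → ℝ}
    (hT : ∀ k, Hm A (T k)) (hxT : ∀ x ∈ A, ∑ k, x k * T k x = 0) (hdT : ∀ x ∈ A, dv T x = 0)
    {x : EE d} (hx : x ∈ A) (h1 : ‖x‖ = 1) (k : Fin d) :
    trc lam mu (fun k => kel (T k)) k x = - mu * pE (X + C ((d : ℝ) - 1)) (T k) x := by
  have hxR := r5_RS hx h1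
  obtain ⟨hk1, hk2⟩ := kel_tor hd hA hT hxT hdT
  rw [trc_tor (isOpen_RS hA) lam mu (fun k => hm_kel hd hA (hT k)) hk1 hk2 hxR k,
    pE_kel hd hA (hT k) _ hxR, r5_kel h1]
  have h4 : (X - 1 : ℝ[X]).comp (-X - C ((d : ℝ) - 2)) = -(X + C ((d : ℝ) - 1)) := by
    apply Polynomial.funext
    intro t
    simp only [eval_add, eval_sub, eval_neg, eval_C, eval_X, eval_comp, eval_one]
    ring
  rw [h4, pE_neg_left]
  ring

/-- the Euler operator preserves toroidal fields -/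
private theorem r5_tor_eul (hA : IsOpen A) {S : Fin d → EE d → ℝ} (hS : ∀ k, Hm A (S k))
    (hxS : ∀ x ∈ A, ∑ k, x k * S k x = 0) (hdS : ∀ x ∈ A, dv S x = 0) :
    (∀ x ∈ A, ∑ k, x k * eul (S k) x = 0) ∧ ∀ x ∈ A, dv (fun k => eul (S k)) x = 0 := by
  constructor
  · intro x hx
    have hd0 : ∀ k, DifferentiableAt ℝ (S k) x := fun k => hm_diffAt (hS k) hA hx
    have hc : ∀ k : Fin d, DifferentiableAt ℝ (fun y : EE d => y k) x := fun k =>
      (hm_diffAt (hm_coord A k) hA hx)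
    have h1 : (fun y : EE d => ∑ k, y k * S k y) =ᶠ[𝓝 x] fun _ => 0 := by
      filter_upwards [hA.mem_nhds hx] with y hy
      exact hxS y hy
    have h2 : eul (fun y : EE d => ∑ k, y k * S k y) x = 0 := by
      rw [(eul_congr h1).self_of_nhds]
      unfold eul
      simp
    have h3 : eul (fun y : EE d => ∑ k, y k * S k y) x =
        ∑ k, (x k * eul (S k) x + S k x * x k) := by
      rw [eul_eq_sum]
      have h4 : ∀ i, pd i (fun y : EE d => ∑ k, y k * S k y) x =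
          ∑ k, (x k * pd i (S k) x + S k x * (if i = k then 1 else 0)) := by
        intro i
        rw [pd_sum (f := fun (k : Fin d) (y : EE d) => y k * S k y) _
          (fun k _ => (hc k).fun_mul (hd0 k))]
        refine Finset.sum_congr rfl fun k _ => ?_
        rw [pd_mul (hc k) (hd0 k), pd_coord]
      simp_rw [h4, Finset.mul_sum]
      rw [Finset.sum_comm]
      refine Finset.sum_congr rfl fun k _ => ?_
      rw [eul_eq_sum, Finset.mul_sum]
      have h5 : S k x * x k = ∑ i, x i * (S k x * (if i = k then 1 else 0)) := by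
        rw [Finset.sum_eq_single k]
        · simp
          ring
        · intro i _ hik
          simp [hik]
        · intro h
          exact absurd (Finset.mem_univ k) h
      rw [h5, ← Finset.sum_add_distrib]
      refine Finset.sum_congr rfl fun i _ => ?_
      ring
    rw [h3, Finset.sum_add_distrib] at h2
    have h6 : ∑ k, S k x * x k = 0 := by
      rw [← hxS x hx]
      exact Finset.sum_congr rfl fun k _ => mul_comm _ _
    linarith
  · intro x hx
    have h1 : dv S =ᶠ[𝓝 x] fun _ => 0 := by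
      filter_upwards [hA.mem_nhds hx] with y hy
      exact hdS y hy
    have h2 : eul (dv S) x = 0 := by
      rw [(eul_congr h1).self_of_nhds]
      unfold eul
      simp
    have h3 : eul (dv S) x = ∑ k, eul (pd k (S k)) x := by
      rw [eul_eq_sum]
      have h4 : ∀ i, pd i (dv S) x = ∑ k, pd i (pd k (S k)) x := by
        intro i
        unfold dv
        exact pd_sum _ (fun k _ => hm_diffAt (hm_pd hA (hS k) k) hA hx) i
      simp_rw [h4, Finset.mul_sum]
      rw [Finset.sum_comm]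
      refine Finset.sum_congr rfl fun k _ => ?_
      rw [eul_eq_sum]
    unfold dv
    have h5 : ∀ k, pd k (eul (S k)) x = eul (pd k (S k)) x + pd k (S k) x := fun k =>
      pd_eul (hm_contDiffAt2 (hS k) hA hx) k
    simp_rw [h5]
    rw [Finset.sum_add_distrib, ← h3, h2]
    have h6 := hdS x hx
    unfold dv at h6
    rw [h6, zero_add]

/-- `P(E)` preserves toroidal fields -/
theorem tor_pE (hA : IsOpen A) {T : Fin d → EE d → ℝ} (hT : ∀ k, Hm A (T k))
    (hxT : ∀ x ∈ A, ∑ k, x k * T k x = 0) (hdT : ∀ x ∈ A, dv T x = 0) (P : ℝ[X]) :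
    (∀ x ∈ A, ∑ k, x k * pE P (T k) x = 0) ∧ ∀ x ∈ A, dv (fun k => pE P (T k)) x = 0 := by
  induction P using Polynomial.induction_on with
  | C a =>
    constructor
    · intro x hx
      have h1 : ∑ k, x k * pE (C a) (T k) x = a * ∑ k, x k * T k x := by
        rw [Finset.mul_sum]
        refine Finset.sum_congr rfl fun k _ => ?_
        rw [pE_C]
        ring
      rw [h1, hxT x hx, mul_zero]
    · intro x hx
      have h1 : dv (fun k => pE (C a) (T k)) x = a * dv T x := by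
        unfold dv
        rw [Finset.mul_sum]
        refine Finset.sum_congr rfl fun k _ => ?_
        have h2 : pE (C a) (T k) = fun y => a * T k y := funext fun y => pE_C a (T k) y
        show pd k (pE (C a) (T k)) x = _
        rw [h2]
        exact pd_cmul (hm_diffAt (hT k) hA hx) a k
      rw [h1, hdT x hx, mul_zero]
  | add P Q hP hQ =>
    constructor
    · intro x hx
      have h1 : ∑ k, x k * pE (P + Q) (T k) x =
          ∑ k, x k * pE P (T k) x + ∑ k, x k * pE Q (T k) x := by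
        rw [← Finset.sum_add_distrib]
        refine Finset.sum_congr rfl fun k _ => ?_
        rw [pE_add_left]
        ring
      rw [h1, hP.1 x hx, hQ.1 x hx, add_zero]
    · intro x hx
      have h1 : dv (fun k => pE (P + Q) (T k)) x =
          dv (fun k => pE P (T k)) x + dv (fun k => pE Q (T k)) x := by
        unfold dv
        rw [← Finset.sum_add_distrib]
        exact Finset.sum_congr rfl fun k _ => r5_pd_add hA (hT k) P Q hx k
      rw [h1, hP.2 x hx, hQ.2 x hx, add_zero]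
  | monomial n a ih =>
    have h0 : (C a * X ^ (n + 1) : ℝ[X]) = X * (C a * X ^ n) := by ring
    rw [h0]
    obtain ⟨h1, h2⟩ := r5_tor_eul hA (S := fun k => pE (C a * X ^ n) (T k))
      (fun k => hm_pE hA (hT k) _) ih.1 ih.2
    constructor
    · intro x hx
      rw [← h1 x hx]
      refine Finset.sum_congr rfl fun k _ => ?_
      rw [eul_pE hA (hT k).1 _ hx]
    · intro x hx
      rw [← h2 x hx]
      refine (dv_congr fun k => ?_).self_of_nhds
      filter_upwards [hA.mem_nhds hx] with y hy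
      rw [eul_pE hA (hT k).1 _ hy]

/-- the tractions of `v` (constants of the inclusion) and of `H + w` agree on the unit sphere -/
theorem trac_eq (hA : IsOpen A) (hD : D.On A) {x : EE d} (hx : x ∈ A) (h1 : ‖x‖ = 1)
    (k : Fin d) :
    trc Z.lam' Z.mu' (fv Z D) k x =
      trc Z.lam Z.mu (fun k y => fH Z D k y + fw Z D k y) k x := by
  have hd := Z.hd
  have hxR := r5_RS hx h1
  have hx0 : x ≠ 0 := hxR.1
  have hRS := isOpen_RS hA
  -- differentiability
  have dconst : ∀ k, DifferentiableAt ℝ (fun _ : EE d => D.h k) x := fun k =>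
    differentiableAt_const _
  have ddil : ∀ (c : ℝ) (k : Fin d), DifferentiableAt ℝ (fun y : EE d => c * y k) x := fun c k =>
    (hm_diffAt (hm_coord A k) hA hx).const_mul c
  have dgr : ∀ (P : ℝ[X]) (k : Fin d), DifferentiableAt ℝ (pd k (pE P D.p)) x := fun P k =>
    hm_diffAt (hm_pd hA (hm_pE hA hD.hp P) k) hA hx
  have dW : ∀ (lam mu : ℝ) (P : ℝ[X]) (k : Fin d), DifferentiableAt ℝ (inW lam mu P D.q k) x :=
    fun lam mu P k => ((Wf_smooth hA (hm_pE hA hD.hq _) (hm_pE hA hD.hq _) k).contDiffAt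
      (hA.mem_nhds hx)).differentiableAt (by simp)
  have dT : ∀ (P : ℝ[X]) (k : Fin d), DifferentiableAt ℝ (pE P (D.T k)) x := fun P k =>
    hm_diffAt (hm_pE hA (hD.hT k) P) hA hx
  have dpole : ∀ (c : ℝ) (k : Fin d), DifferentiableAt ℝ (pole c k) x := fun c k =>
    ((lame_smooth (κ := 0) (isOpen_ne) (lame_pole hd c) k).contDiffAt
      (isOpen_ne.mem_nhds hx0)).differentiableAt (by simp)
  have dkg : ∀ (P : ℝ[X]) (k : Fin d), DifferentiableAt ℝ (pd k (kel (pE P D.q))) x := fun P k =>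
    hm_diffAt (hm_pd hRS (hm_kel hd hA (hm_pE hA hD.hq P)) k) hRS hxR
  have dU : ∀ (lam mu : ℝ) (P : ℝ[X]) (k : Fin d), DifferentiableAt ℝ (exU lam mu P D.p k) x :=
    fun lam mu P k => ((Wf_smooth hRS (hm_kel hd hA (hm_pE hA hD.hp _))
      (hm_kel hd hA (hm_pE hA hD.hp _)) k).contDiffAt (hRS.mem_nhds hxR)).differentiableAt
        (by simp)
  have dkT : ∀ (P : ℝ[X]) (k : Fin d), DifferentiableAt ℝ (kel (pE P (D.T k))) x := fun P k =>
    hm_diffAt (hm_kel hd hA (hm_pE hA (hD.hT k) P)) hRS hxR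
  -- gradients and toroidal fields inside
  have tgr : ∀ (lam mu : ℝ) (P : ℝ[X]), trc lam mu (fun k => pd k (pE P D.p)) k x =
      2 * mu * pd k (pE ((X - 1) * P) D.p) x := by
    intro lam mu P
    rw [trc_grad hA lam mu (hm_pE hA hD.hp P) hx k]
    have h3 : pE (X - 1) (pE P D.p) =ᶠ[𝓝 x] pE ((X - 1) * P) D.p := by
      filter_upwards [hA.mem_nhds hx] with y hy
      rw [pE_mul hA hD.hp.1 _ _ hy]
    rw [(pd_congr h3 k).self_of_nhds]
  have ttor : ∀ (lam mu : ℝ) (P : ℝ[X]), trc lam mu (fun k => pE P (D.T k)) k x =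
      mu * pE ((X - 1) * P) (D.T k) x := by
    intro lam mu P
    obtain ⟨h3, h4⟩ := tor_pE hA hD.hT hD.xT hD.dT P
    rw [trc_tor hA lam mu (fun k => hm_pE hA (hD.hT k) P) h3 h4 hx k,
      pE_mul hA (hD.hT k).1 _ _ hx]
  have tkT : ∀ (lam mu : ℝ) (P : ℝ[X]), trc lam mu (fun k => kel (pE P (D.T k))) k x =
      - mu * pE ((X + C ((d : ℝ) - 1)) * P) (D.T k) x := by
    intro lam mu P
    obtain ⟨h3, h4⟩ := tor_pE hA hD.hT hD.xT hD.dT P
    rw [trc_exT hd hA lam mu (T := fun k => pE P (D.T k)) (fun k => hm_pE hA (hD.hT k) P) h3 h4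
      hx h1 k, pE_mul hA (hD.hT k).1 _ _ hx]
  -- five terms
  have five : ∀ (lam mu : ℝ) (u1 u2 u3 u4 u5 : Fin d → EE d → ℝ),
      (∀ k, DifferentiableAt ℝ (u1 k) x) → (∀ k, DifferentiableAt ℝ (u2 k) x) →
      (∀ k, DifferentiableAt ℝ (u3 k) x) → (∀ k, DifferentiableAt ℝ (u4 k) x) →
      (∀ k, DifferentiableAt ℝ (u5 k) x) →
      trc lam mu (fun k y => u1 k y + u2 k y + u3 k y + u4 k y + u5 k y) k x =
        trc lam mu u1 k x + trc lam mu u2 k x + trc lam mu u3 k x + trc lam mu u4 k x +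
          trc lam mu u5 k x := by
    intro lam mu u1 u2 u3 u4 u5 e1 e2 e3 e4 e5
    rw [trc_add lam mu (u := fun k y => u1 k y + u2 k y + u3 k y + u4 k y) (v := u5)
        (fun k => (((e1 k).fun_add (e2 k)).fun_add (e3 k)).fun_add (e4 k)) e5 k,
      trc_add lam mu (u := fun k y => u1 k y + u2 k y + u3 k y) (v := u4)
        (fun k => ((e1 k).fun_add (e2 k)).fun_add (e3 k)) e4 k,
      trc_add lam mu (u := fun k y => u1 k y + u2 k y) (v := u3)
        (fun k => (e1 k).fun_add (e2 k)) e3 k, trc_add lam mu e1 e2 k]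
  have four : ∀ (lam mu : ℝ) (u1 u2 u3 u4 : Fin d → EE d → ℝ),
      (∀ k, DifferentiableAt ℝ (u1 k) x) → (∀ k, DifferentiableAt ℝ (u2 k) x) →
      (∀ k, DifferentiableAt ℝ (u3 k) x) → (∀ k, DifferentiableAt ℝ (u4 k) x) →
      trc lam mu (fun k y => u1 k y - u2 k y + u3 k y + u4 k y) k x =
        trc lam mu u1 k x - trc lam mu u2 k x + trc lam mu u3 k x + trc lam mu u4 k x := by
    intro lam mu u1 u2 u3 u4 e1 e2 e3 e4
    rw [trc_add lam mu (u := fun k y => u1 k y - u2 k y + u3 k y) (v := u4)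
        (fun k => ((e1 k).fun_sub (e2 k)).fun_add (e3 k)) e4 k,
      trc_add lam mu (u := fun k y => u1 k y - u2 k y) (v := u3)
        (fun k => (e1 k).fun_sub (e2 k)) e3 k, trc_sub lam mu e1 e2 k]
  -- the three fields
  have hv : trc Z.lam' Z.mu' (fv Z D) k x =
      trc Z.lam' Z.mu' (fun k _ => D.h k) k x +
      trc Z.lam' Z.mu' (fun k y => (Z.c0 + Z.c1) * D.γ * y k) k x +
      trc Z.lam' Z.mu' (fun k => pd k (pE (Z.PU + pGh d Z.lam Z.mu * Z.PD) D.p)) k x +
      trc Z.lam' Z.mu' (inW Z.lam' Z.mu' Z.PS D.q) k x +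
      trc Z.lam' Z.mu' (fun k => pE (Z.PT + Z.PE) (D.T k)) k x :=
    five Z.lam' Z.mu' (fun k _ => D.h k) (fun k y => (Z.c0 + Z.c1) * D.γ * y k)
      (fun k => pd k (pE (Z.PU + pGh d Z.lam Z.mu * Z.PD) D.p)) (inW Z.lam' Z.mu' Z.PS D.q)
      (fun k => pE (Z.PT + Z.PE) (D.T k)) dconst (ddil _) (dgr _) (dW _ _ _) (dT _)
  have hH : trc Z.lam Z.mu (fH Z D) k x =
      trc Z.lam Z.mu (fun k _ => D.h k) k x +
      trc Z.lam Z.mu (fun k y => Z.c0 * D.γ * y k) k x +
      trc Z.lam Z.mu (fun k => pd k (pE Z.PU D.p)) k x +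
      trc Z.lam Z.mu (inW Z.lam Z.mu Z.PW D.q) k x +
      trc Z.lam Z.mu (fun k => pE Z.PT (D.T k)) k x :=
    five Z.lam Z.mu (fun k _ => D.h k) (fun k y => Z.c0 * D.γ * y k)
      (fun k => pd k (pE Z.PU D.p)) (inW Z.lam Z.mu Z.PW D.q)
      (fun k => pE Z.PT (D.T k)) dconst (ddil _) (dgr _) (dW _ _ _) (dT _)
  have hw : trc Z.lam Z.mu (fw Z D) k x =
      trc Z.lam Z.mu (pole (Z.c1 * D.γ)) k x -
      trc Z.lam Z.mu (fun k => pd k (kel (pE Z.PQ D.q))) k x +
      trc Z.lam Z.mu (exU Z.lam Z.mu Z.PD D.p) k x +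
      trc Z.lam Z.mu (fun k => kel (pE Z.PE (D.T k))) k x :=
    four Z.lam Z.mu (pole (Z.c1 * D.γ)) (fun k => pd k (kel (pE Z.PQ D.q)))
      (exU Z.lam Z.mu Z.PD D.p) (fun k => kel (pE Z.PE (D.T k))) (dpole _) (dkg _) (dU _ _ _)
      (dkT _)
  have dH : ∀ k, DifferentiableAt ℝ (fH Z D k) x := fun k =>
    ((((dconst k).fun_add (ddil _ k)).fun_add (dgr Z.PU k)).fun_add
      (dW Z.lam Z.mu Z.PW k)).fun_add (dT Z.PT k)
  have dw : ∀ k, DifferentiableAt ℝ (fw Z D k) x := fun k =>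
    (((dpole _ k).fun_sub (dkg Z.PQ k)).fun_add (dU Z.lam Z.mu Z.PD k)).fun_add (dkT Z.PE k)
  have hexW := trc_exW hd hA hD.hq Z.lam Z.mu Z.PQ hx h1 k
  have hexW' : trc Z.lam Z.mu (fun k y => - pd k (kel (pE Z.PQ D.q)) y) k x =
      - trc Z.lam Z.mu (fun k => pd k (kel (pE Z.PQ D.q))) k x :=
    r5_trc_neg Z.lam Z.mu (fun k => pd k (kel (pE Z.PQ D.q))) k x
  rw [hexW'] at hexW
  rw [trc_add Z.lam Z.mu dH dw k, hv, hH, hw, trc_const, trc_const, trc_dil, trc_dil, tgr, tgr,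
    trc_inW hA hD.hq _ _ _ hx h1 k, trc_inW hA hD.hq _ _ _ hx h1 k, ttor, ttor,
    trc_pole hd _ _ _ k h1, trc_exU hd hA hD.hp _ _ _ hx h1 k, tkT]
  -- the polynomial identities
  have iU : 2 * Z.mu' * pd k (pE ((X - 1) * (Z.PU + pGh d Z.lam Z.mu * Z.PD)) D.p) x =
      2 * Z.mu * pd k (pE ((X - 1) * Z.PU) D.p) x -
        pd k (pE (pKh d Z.lam Z.mu * Z.PD) D.p) x := by
    have h3 : C (2 * Z.mu') * ((X - 1) * (Z.PU + pGh d Z.lam Z.mu * Z.PD)) =
        C (2 * Z.mu) * ((X - 1) * Z.PU) - pKh d Z.lam Z.mu * Z.PD := by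
      have h4 := id_tracU Z
      rw [mul_assoc, mul_assoc] at h4
      exact h4
    have h5 := congrArg (fun P => pd k (pE P D.p) x) h3
    rw [r5_pd_sub hA hD.hp _ _ hx, r5_pd_C hA hD.hp _ _ hx, r5_pd_C hA hD.hp _ _ hx] at h5
    exact h5
  have iW : pd k (pE (pK d Z.lam' Z.mu' * Z.PS) D.q) x =
      pd k (pE (pK d Z.lam Z.mu * Z.PW) D.q) x -
        2 * Z.mu * pd k (pE ((X + C ((d : ℝ) - 1)) * Z.PQ) D.q) x := by
    have h4 := id_tracW Z
    rw [mul_assoc (C (2 * Z.mu))] at h4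
    rw [h4, r5_pd_sub hA hD.hq _ _ hx, r5_pd_C hA hD.hq _ _ hx]
  have iM : pE (pM d * (pK d Z.lam' Z.mu' * Z.PS)) D.q x =
      pE (pM d * (pK d Z.lam Z.mu * Z.PW)) D.q x -
        2 * Z.mu * pE (pM d * ((X + C ((d : ℝ) - 1)) * Z.PQ)) D.q x := by
    have h4 : pM d * (pK d Z.lam' Z.mu' * Z.PS) = pM d * (pK d Z.lam Z.mu * Z.PW) -
        C (2 * Z.mu) * (pM d * ((X + C ((d : ℝ) - 1)) * Z.PQ)) := by
      rw [id_tracW Z]
      ring
    rw [h4, pE_sub_left, pE_C_mul]
  have iT : Z.mu' * pE ((X - 1) * (Z.PT + Z.PE)) (D.T k) x =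
      Z.mu * pE ((X - 1) * Z.PT) (D.T k) x -
        Z.mu * pE ((X + C ((d : ℝ) - 1)) * Z.PE) (D.T k) x := by
    have h3 : C Z.mu' * ((X - 1) * (Z.PT + Z.PE)) =
        C Z.mu * ((X - 1) * Z.PT) - C Z.mu * ((X + C ((d : ℝ) - 1)) * Z.PE) := by
      have h4 := id_tracT Z
      rw [mul_assoc, mul_assoc, mul_assoc] at h4
      exact h4
    have h5 := congrArg (fun P => pE P (D.T k) x) h3
    rw [pE_sub_left, pE_C_mul, pE_C_mul, pE_C_mul] at h5
    exact h5
  have iD : (Z.lam' * d + 2 * Z.mu') * ((Z.c0 + Z.c1) * D.γ) =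
      (Z.lam * d + 2 * Z.mu) * (Z.c0 * D.γ) +
        -(2 * ((d : ℝ) - 1) * Z.mu) * (Z.c1 * D.γ) := by
    unfold Cst.c0 Cst.c1
    ring
  linear_combination iU - iW + x k * iM + iT + x k * iD - hexW

end Pool.Agent.MP_0643f8_an.U
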