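import Mathlib
import Pool.Agent.Lib.MP_0643f8_an.U.R2_Lame

/-!
# Decay of the exterior field

With `f = O(|y|^m)`, `kel f = O(|x|^{2-d-m})` and `∇ kel f = O(|x|^{1-d-m})`; `p`-terms have
`m = 2`, `q`-terms `m = 1`, `T`-terms `m = 1`. All terms are `O(|x|^{1-d})`.
-/

set_option autoImplicit false

open MeasureTheory Metric Set Filter Topology Polynomial
open scoped ContDiff

namespace Pool.Agent.MP_0643f8_an.U

variable {d : ℕ} (Z : Cst d) {A : Set (EE d)} {D : Dat d}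

/-- `F = O(|x|^{-n})` at infinity -/
private def R6D (n : ℕ) (F : EE d → ℝ) : Prop :=
  ∃ C R : ℝ, 0 < R ∧ ∀ x : EE d, R < ‖x‖ → |F x| ≤ C * (‖x‖ ^ n)⁻¹

private theorem r6_congr {n : ℕ} {F G : EE d → ℝ} (h : R6D n F) (hG : ∀ x, x ≠ 0 → G x = F x) :
    R6D n G := by
  obtain ⟨C, R, hR, hF⟩ := h
  refine ⟨C, R, hR, fun x hx => ?_⟩
  have hx0 : x ≠ 0 := by
    rintro rfl
    rw [norm_zero] at hx
    linarith
  rw [hG x hx0]
  exact hF x hx

private theorem r6_add {n : ℕ} {F G : EE d → ℝ} (hF : R6D n F) (hG : R6D n G) :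
    R6D n (fun x => F x + G x) := by
  obtain ⟨C, R, hR, hF⟩ := hF
  obtain ⟨C', R', hR', hG⟩ := hG
  refine ⟨C + C', max R R', lt_max_of_lt_left hR, fun x hx => ?_⟩
  have h1 := hF x ((le_max_left _ _).trans_lt hx)
  have h2 := hG x ((le_max_right _ _).trans_lt hx)
  calc |F x + G x| ≤ |F x| + |G x| := abs_add_le _ _
    _ ≤ C * (‖x‖ ^ n)⁻¹ + C' * (‖x‖ ^ n)⁻¹ := add_le_add h1 h2
    _ = (C + C') * (‖x‖ ^ n)⁻¹ := by ring

private theorem r6_cmul {n : ℕ} {F : EE d → ℝ} (c : ℝ) (hF : R6D n F) :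
    R6D n (fun x => c * F x) := by
  obtain ⟨C, R, hR, hF⟩ := hF
  refine ⟨|c| * C, R, hR, fun x hx => ?_⟩
  rw [abs_mul, mul_assoc]
  exact mul_le_mul_of_nonneg_left (hF x hx) (abs_nonneg c)

private theorem r6_sub {n : ℕ} {F G : EE d → ℝ} (hF : R6D n F) (hG : R6D n G) :
    R6D n (fun x => F x - G x) :=
  r6_congr (r6_add hF (r6_cmul (-1) hG)) fun x _ => by ring

private theorem r6_sum {n : ℕ} {ι : Type*} (s : Finset ι) {F : ι → EE d → ℝ}
    (hF : ∀ i ∈ s, R6D n (F i)) : R6D n (fun x => ∑ i ∈ s, F i x) := by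
  classical
  induction s using Finset.induction_on with
  | empty => exact ⟨0, 1, one_pos, fun x _ => by simp⟩
  | insert a s ha ih =>
    have h1 := r6_add (hF a (Finset.mem_insert_self a s))
      (ih fun i hi => hF i (Finset.mem_insert_of_mem hi))
    exact r6_congr h1 fun x _ => Finset.sum_insert ha

private theorem r6_mono {n : ℕ} {F : EE d → ℝ} (hF : R6D (n + 1) F) : R6D n F := by
  obtain ⟨C, R, hR, hF⟩ := hF
  refine ⟨|C|, max R 1, lt_max_of_lt_left hR, fun x hx => ?_⟩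
  have h1 := hF x ((le_max_left _ _).trans_lt hx)
  have hx1 : 1 < ‖x‖ := (le_max_right _ _).trans_lt hx
  have h2 : (‖x‖ ^ (n + 1))⁻¹ ≤ (‖x‖ ^ n)⁻¹ :=
    inv_anti₀ (by positivity) (pow_le_pow_right₀ hx1.le (Nat.le_succ n))
  calc |F x| ≤ C * (‖x‖ ^ (n + 1))⁻¹ := h1
    _ ≤ |C| * (‖x‖ ^ (n + 1))⁻¹ :=
      mul_le_mul_of_nonneg_right (le_abs_self C) (by positivity)
    _ ≤ |C| * (‖x‖ ^ n)⁻¹ := mul_le_mul_of_nonneg_left h2 (abs_nonneg C)

private theorem r6_coord {n : ℕ} {F : EE d → ℝ} (k : Fin d) (hF : R6D (n + 1) F) :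
    R6D n (fun x => x k * F x) := by
  obtain ⟨C, R, hR, hF⟩ := hF
  refine ⟨C, R, hR, fun x hx => ?_⟩
  have hx0 : 0 < ‖x‖ := hR.trans hx
  have h1 := hF x hx
  have h2 : |x k| ≤ ‖x‖ := by
    have := PiLp.norm_apply_le x k
    rwa [Real.norm_eq_abs] at this
  rw [abs_mul]
  calc |x k| * |F x| ≤ ‖x‖ * (C * (‖x‖ ^ (n + 1))⁻¹) :=
        mul_le_mul h2 h1 (abs_nonneg _) hx0.le
    _ = C * (‖x‖ ^ n)⁻¹ := by
        rw [pow_succ]
        field_simp

private theorem r6_nsq {n : ℕ} {F : EE d → ℝ} (hF : R6D (n + 2) F) :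
    R6D n (fun x => ‖x‖ ^ 2 * F x) := by
  obtain ⟨C, R, hR, hF⟩ := hF
  refine ⟨C, R, hR, fun x hx => ?_⟩
  have hx0 : 0 < ‖x‖ := hR.trans hx
  have h1 := hF x hx
  rw [abs_mul, abs_of_nonneg (by positivity : (0 : ℝ) ≤ ‖x‖ ^ 2)]
  calc ‖x‖ ^ 2 * |F x| ≤ ‖x‖ ^ 2 * (C * (‖x‖ ^ (n + 2))⁻¹) :=
        mul_le_mul_of_nonneg_left h1 (by positivity)
    _ = C * (‖x‖ ^ n)⁻¹ := by
        rw [pow_add]
        field_simp

private theorem r6_Wf {n : ℕ} {g ρ : EE d → ℝ} (hg : R6D (n + 1) g)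
    (hg' : ∀ i, R6D (n + 2) (pd i g)) (hρ' : ∀ i, R6D (n + 2) (pd i ρ)) (k : Fin d) :
    R6D n (Wf g ρ k) := by
  have hE : R6D (n + 1) (eul g) := by
    refine r6_congr (r6_sum Finset.univ (F := fun i x => x i * pd i g x)
      fun i _ => r6_coord i (hg' i)) fun x _ => eul_eq_sum g x
  have h1 : R6D n (fun x => x k * (2 * eul g x + ((d : ℝ) - 2) * g x)) :=
    r6_coord k (r6_add (r6_cmul 2 hE) (r6_cmul ((d : ℝ) - 2) hg))
  have h2 : R6D n (fun x => ‖x‖ ^ 2 * pd k g x) := r6_nsq (hg' k)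
  have h3 : R6D n (fun x => (1 - ‖x‖ ^ 2) * pd k ρ x) :=
    r6_congr (r6_sub (r6_mono (r6_mono (hρ' k))) (r6_nsq (hρ' k))) fun x _ => by ring
  exact r6_congr (r6_add (r6_sub h1 h2) h3) fun x _ => rfl

private theorem r6_van0 {f : EE d → ℝ} (hf : ContinuousAt f 0) : VanO 0 f := by
  have h1 : ∀ᶠ x in 𝓝 (0 : EE d), ‖f x‖ < ‖f 0‖ + 1 :=
    (hf.norm).eventually (gt_mem_nhds (by linarith))
  obtain ⟨δ, hδ, hball⟩ := Metric.eventually_nhds_iff.mp h1
  refine ⟨‖f 0‖ + 1, δ, hδ, fun x hx => ?_⟩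
  rw [pow_zero, mul_one]
  exact (hball (by rwa [dist_zero_right])).le

private theorem r6_kel_one (hd : 2 ≤ d) (hA : IsOpen A) (h0 : (0 : EE d) ∈ A) {f : EE d → ℝ}
    (hf : Hm A f) (hv : VanO 1 f) : R6D (d - 1) (kel f) ∧ ∀ k, R6D d (pd k (kel f)) := by
  constructor
  · have h := kel_decay hd hv
    rwa [show d - 2 + 1 = d - 1 by omega] at h
  · intro k
    have h := pd_kel_decay hd (le_refl 1) hv
      (fun i => r6_van0 (hm_contDiffAt (hm_pd hA hf i) hA h0).continuousAt)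
      (by filter_upwards [hA.mem_nhds h0] with x hx using hm_diffAt hf hA hx) k
    rwa [show d - 1 + 1 = d by omega] at h

private theorem r6_kel_two (hd : 2 ≤ d) (hA : IsOpen A) (h0 : (0 : EE d) ∈ A) {f : EE d → ℝ}
    (hf : Hm A f) (hv : VanO 2 f) : R6D d (kel f) ∧ ∀ k, R6D (d + 1) (pd k (kel f)) := by
  constructor
  · have h := kel_decay hd hv
    rwa [show d - 2 + 2 = d by omega] at h
  · intro k
    have h := pd_kel_decay hd one_le_two hv
      (fun i => vanO_one (hm_contDiffAt (hm_pd hA hf i) hA h0) ((zero_of_vanO_two hv).2 i))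
      (by filter_upwards [hA.mem_nhds h0] with x hx using hm_diffAt hf hA hx) k
    rwa [show d - 1 + 2 = d + 1 by omega] at h

private theorem r6_pole (hd : 2 ≤ d) (c : ℝ) (k : Fin d) :
    R6D (d - 1) (pole c k : EE d → ℝ) := by
  have h1 : R6D (d - 1 + 1) (fun x : EE d => (‖x‖ ^ d)⁻¹) := by
    refine ⟨1, 1, one_pos, fun x hx => ?_⟩
    rw [show d - 1 + 1 = d by omega, one_mul, abs_of_nonneg (by positivity)]
  refine r6_congr (r6_cmul c (r6_coord k h1)) fun x _ => ?_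
  unfold pole
  rw [div_eq_mul_inv]

theorem fw_decay (hA : IsOpen A) (h0 : (0 : EE d) ∈ A) (hD : D.On A) :
    ∃ c R : ℝ, 0 < R ∧ ∀ x : EE d, R < ‖x‖ → ∀ k, |fw Z D k x| ≤ c * (‖x‖ ^ (d - 1))⁻¹ := by
  have hd : 2 ≤ d := Z.hd
  have hp : VanO 2 D.p := vanO_two (hm_contDiffAt hD.hp hA h0) hD.p0 hD.p1
  have hq : VanO 1 D.q := vanO_one (hm_contDiffAt hD.hq hA h0) hD.q0
  have hT : ∀ k, VanO 1 (D.T k) := fun k => vanO_one (hm_contDiffAt (hD.hT k) hA h0) (hD.T0 k)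
  have e1 : d - 1 + 1 = d := by omega
  have e2 : d - 1 + 2 = d + 1 := by omega
  have key : ∀ k, R6D (d - 1) (fw Z D k) := by
    intro k
    have h1 : R6D (d - 1) (pole (Z.c1 * D.γ) k : EE d → ℝ) := r6_pole hd _ k
    have h2 : R6D (d - 1) (pd k (kel (pE Z.PQ D.q))) := by
      have h := (r6_kel_one hd hA h0 (hm_pE hA hD.hq Z.PQ)
        (vanO_pE hA h0 hD.hq (Or.inl rfl) hq Z.PQ)).2 k
      refine r6_mono ?_
      rw [e1]
      exact h
    have h3 : R6D (d - 1) (Wf (kel (pE (-(pGh d Z.lam Z.mu * Z.PD)) D.p))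
        (kel (pE (C (Z.lam + Z.mu) * (X * (2 * X + C ((d : ℝ) - 4))) * Z.PD) D.p)) k) := by
      have ha := r6_kel_two hd hA h0 (hm_pE hA hD.hp (-(pGh d Z.lam Z.mu * Z.PD)))
        (vanO_pE hA h0 hD.hp (Or.inr rfl) hp _)
      have hb := r6_kel_two hd hA h0
        (hm_pE hA hD.hp (C (Z.lam + Z.mu) * (X * (2 * X + C ((d : ℝ) - 4))) * Z.PD))
        (vanO_pE hA h0 hD.hp (Or.inr rfl) hp _)
      refine r6_Wf ?_ (fun i => ?_) (fun i => ?_) k
      · rw [e1]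
        exact ha.1
      · rw [e2]
        exact ha.2 i
      · rw [e2]
        exact hb.2 i
    have h4 : R6D (d - 1) (kel (pE Z.PE (D.T k))) :=
      (r6_kel_one hd hA h0 (hm_pE hA (hD.hT k) Z.PE)
        (vanO_pE hA h0 (hD.hT k) (Or.inl rfl) (hT k) Z.PE)).1
    exact r6_congr (r6_add (r6_add (r6_sub h1 h2) h3) h4) fun x _ => rfl
  choose C R hR hCR using key
  have hk0 : ∀ k, |C k| ≤ ∑ j, |C j| := fun k =>
    Finset.single_le_sum (f := fun j => |C j|) (fun _ _ => abs_nonneg _) (Finset.mem_univ k)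
  have hRk : ∀ k, R k ≤ ∑ j, R j := fun k =>
    Finset.single_le_sum (f := R) (fun j _ => (hR j).le) (Finset.mem_univ k)
  refine ⟨∑ j, |C j|, ∑ j, R j + 1, ?_, fun x hx k => ?_⟩
  · have : 0 ≤ ∑ j, R j := Finset.sum_nonneg fun j _ => (hR j).le
    linarith
  · have h1 := hCR k x (by linarith [hRk k])
    refine h1.trans (mul_le_mul_of_nonneg_right ((le_abs_self _).trans (hk0 k)) ?_)
    positivity

end Pool.Agent.MP_0643f8_an.U
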