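import Mathlib
import Pool.Agent.Lib.MP_0643f8_an.U.R5_Match
import Pool.Agent.Lib.MP_0643f8_an.U.R6_Decay

/-!
# The exterior field of a solution is the explicit one

Notation: `back c r f x = f (r⁻¹ • (x - c))` transports fields of the unit ball to the ball
`(c, r)`; `back = aff (-(r⁻¹ • c)) r⁻¹`.
-/

set_option autoImplicit false

open MeasureTheory Metric Set Filter Topology
open scoped ContDiff

namespace Pool.Agent.MP_0643f8_an.U
variable {d : ℕ} (Z : Cst d)

/-- transport from the unit ball to the ball of centre `c` and radius `r` -/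
noncomputable def back (c : EE d) (r : ℝ) (f : Fin d → EE d → ℝ) (k : Fin d) (x : EE d) : ℝ :=
  f k (r⁻¹ • (x - c))

private theorem M4a_pt (c : EE d) (r : ℝ) (x : EE d) : r⁻¹ • (x - c) = -(r⁻¹ • c) + r⁻¹ • x := by
  rw [smul_sub]
  abel

private theorem M4a_back (c : EE d) (r : ℝ) (f : Fin d → EE d → ℝ) :
    back c r f = aff (-(r⁻¹ • c)) r⁻¹ f := by
  funext k x
  unfold back aff
  rw [M4a_pt]

private theorem M4a_trc (lam mu : ℝ) {u : Fin d → EE d → ℝ} (c : EE d) {r : ℝ} (hr : r ≠ 0) {x : EE d}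
    (hu : ∀ k, DifferentiableAt ℝ (u k) (r⁻¹ • (x - c))) (k : Fin d) :
    ∑ i, (x i - c i) * sig lam mu (grd (back c r u)) i k x = trc lam mu u k (r⁻¹ • (x - c)) := by
  have hg : ∀ k i, grd (back c r u) k i x = r⁻¹ * grd u k i (r⁻¹ • (x - c)) := by
    intro k i
    rw [M4a_back]
    have h1 : pd i (fun z => u k (-(r⁻¹ • c) + r⁻¹ • z)) x = r⁻¹ * pd i (u k) (-(r⁻¹ • c) + r⁻¹ • x) :=
      pd_affine (by
        rw [← M4a_pt]
        exact hu k) i
    rw [← M4a_pt] at h1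
    exact h1
  unfold trc
  refine Finset.sum_congr rfl fun i _ => ?_
  have hxi : x i - c i = r * (r⁻¹ • (x - c)) i := by
    simp only [PiLp.smul_apply, PiLp.sub_apply, smul_eq_mul]
    field_simp
  have hs : sig lam mu (grd (back c r u)) i k x =
      r⁻¹ * sig lam mu (grd u) i k (r⁻¹ • (x - c)) := by
    unfold sig
    simp only [hg]
    rw [← Finset.mul_sum]
    split_ifs <;> ring
  rw [hs, hxi]
  field_simp

theorem lame_back {κ : ℝ} {A : Set (EE d)} (hA : IsOpen A) {f : Fin d → EE d → ℝ}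
    (hf : IsLame κ A f) (c : EE d) {r : ℝ} (hr : r ≠ 0) :
    IsLame κ {x : EE d | r⁻¹ • (x - c) ∈ A} (back c r f) := by
  rw [M4a_back]
  have h1 := lame_aff hA hf (-(r⁻¹ • c)) (inv_ne_zero hr)
  have h2 : {x : EE d | r⁻¹ • (x - c) ∈ A} = {y : EE d | -(r⁻¹ • c) + r⁻¹ • y ∈ A} := by
    ext x
    simp only [Set.mem_ofPred_eq]
    rw [M4a_pt]
  rw [h2]
  exact h1

/-- the transported explicit fields satisfy the two transmission conditions on the sphere
(`trace_eq`, `trac_eq`, `grd_aff`; the condition on the stresses is multiplied by `r * r⁻¹`) -/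
theorem back_match {ρ : ℝ} (hρ : 1 < ρ) {D : Dat d} (hD : D.On (ball 0 ρ)) (c : EE d) {r : ℝ}
    (hr : 0 < r) {x : EE d} (hx : ‖x - c‖ = r) :
    (∀ k, back c r (fv Z D) k x = back c r (fH Z D) k x + back c r (fw Z D) k x) ∧
    ∀ k, ∑ i, (x i - c i) * sig Z.lam' Z.mu' (grd (back c r (fv Z D))) i k x =
      ∑ i, (x i - c i) * sig Z.lam Z.mu
        (grd (fun k y => back c r (fH Z D) k y + back c r (fw Z D) k y)) i k x := by
  have hn : ‖r⁻¹ • (x - c)‖ = 1 := by
    rw [norm_smul, hx, norm_inv, Real.norm_of_nonneg hr.le, inv_mul_cancel₀ hr.ne']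
  have hyA : r⁻¹ • (x - c) ∈ ball (0 : EE d) ρ := by
    rw [mem_ball_zero_iff, hn]
    exact hρ
  have hAo : IsOpen (ball (0 : EE d) ρ) := isOpen_ball
  have hyR : r⁻¹ • (x - c) ∈ RS (ball (0 : EE d) ρ) := by
    refine ⟨fun h0 => ?_, ?_⟩
    · rw [h0, norm_zero] at hn
      norm_num at hn
    · rw [inv_of_norm_one hn]
      exact hyA
  have dv' : ∀ k, DifferentiableAt ℝ (fv Z D k) (r⁻¹ • (x - c)) := fun k =>
    ((lame_smooth hAo (lame_fv Z hAo hD) k).contDiffAt (hAo.mem_nhds hyA)).differentiableAt (by simp)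
  have dH : ∀ k, DifferentiableAt ℝ (fH Z D k) (r⁻¹ • (x - c)) := fun k =>
    ((lame_smooth hAo (lame_fH Z hAo hD) k).contDiffAt (hAo.mem_nhds hyA)).differentiableAt (by simp)
  have dw : ∀ k, DifferentiableAt ℝ (fw Z D k) (r⁻¹ • (x - c)) := fun k =>
    ((lame_smooth (isOpen_RS hAo) (lame_fw Z hAo hD) k).contDiffAt
      ((isOpen_RS hAo).mem_nhds hyR)).differentiableAt (by simp)
  refine ⟨fun k => trace_eq Z hAo hD hyA hn k, fun k => ?_⟩
  rw [M4a_trc Z.lam' Z.mu' c hr.ne' dv' k, trac_eq Z hAo hD hyA hn k,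
    ← M4a_trc Z.lam Z.mu (u := fun k y => fH Z D k y + fw Z D k y) c hr.ne'
      (fun k => (dH k).fun_add (dw k)) k]
  rfl

end Pool.Agent.MP_0643f8_an.U
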