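import Mathlib
import Pool.Agent.Lib.MP_0643f8_an.U.Calc

/-!
# Radial cut-offs near a sphere

`χ x = θ((r² - |x-c|²)/(r ε))` with `θ = Real.smoothTransition` (`0` on `(-∞,0]`, `1` on
`[1,∞)`, smooth, derivative bounded because it is continuous and supported in `[0,1]`). For
`|x-c| ≤ r - ε` one has `r² - |x-c|² ≥ r² - (r-ε)² = ε (2r - ε) ≥ r ε`.
`pd i χ x = - 2 (x i - c i) θ'(..)/(r ε)`.
-/

set_option autoImplicit false

open MeasureTheory Metric Set Filter Topology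
open scoped ContDiff

namespace Pool.Agent.MP_0643f8_an.U

variable {d : ℕ}

private theorem shell_deriv_zero {t : ℝ} (ht : t < 0 ∨ 1 < t) :
    deriv Real.smoothTransition t = 0 := by
  rcases ht with ht | ht
  · have h1 : Real.smoothTransition =ᶠ[𝓝 t] fun _ => 0 := by
      filter_upwards [Iio_mem_nhds ht] with s hs
      exact Real.smoothTransition.zero_of_nonpos (le_of_lt hs)
    rw [h1.deriv_eq, deriv_const]
  · have h1 : Real.smoothTransition =ᶠ[𝓝 t] fun _ => 1 := by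
      filter_upwards [Ioi_mem_nhds ht] with s hs
      exact Real.smoothTransition.one_of_one_le (le_of_lt hs)
    rw [h1.deriv_eq, deriv_const]

private theorem shell_deriv_bound :
    ∃ M : ℝ, 0 ≤ M ∧ ∀ t : ℝ, |deriv Real.smoothTransition t| ≤ M := by
  have h1 : Continuous (deriv Real.smoothTransition) :=
    (Real.smoothTransition.contDiff (n := 1)).continuous_deriv le_rfl
  obtain ⟨M, hM⟩ := (isCompact_Icc (a := (0 : ℝ)) (b := 1)).exists_bound_of_continuousOn
    h1.continuousOn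
  have hM0 : 0 ≤ M := (norm_nonneg _).trans (hM 0 ⟨le_rfl, zero_le_one⟩)
  refine ⟨M, hM0, fun t => ?_⟩
  by_cases ht : t ∈ Icc (0 : ℝ) 1
  · exact hM t ht
  · have h2 : t < 0 ∨ 1 < t := by
      by_contra h
      push Not at h
      exact ht h
    rw [shell_deriv_zero h2, abs_zero]
    exact hM0

private theorem shell_fd (c x : EE d) (r ε : ℝ) :
    HasFDerivAt (fun y : EE d => Real.smoothTransition ((r ^ 2 - ‖y - c‖ ^ 2) / (r * ε)))
      ((-(2 * deriv Real.smoothTransition ((r ^ 2 - ‖x - c‖ ^ 2) / (r * ε))) / (r * ε)) •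
        innerSL ℝ (x - c)) x := by
  have h1 : HasFDerivAt (fun y : EE d => ‖y‖ ^ 2) (2 • (innerSL ℝ (x - c))) (x - c) :=
    (hasStrictFDerivAt_norm_sq (x - c)).hasFDerivAt
  have h2 : HasFDerivAt (fun y : EE d => ‖y - c‖ ^ 2) (2 • (innerSL ℝ (x - c))) x := by
    have h3 : HasFDerivAt (fun y : EE d => y - c) (ContinuousLinearMap.id ℝ (EE d)) x :=
      (hasFDerivAt_id x).sub_const c
    have h4 := HasFDerivAt.comp (g := fun y : EE d => ‖y‖ ^ 2) (f := fun y : EE d => y - c) x h1 h3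
    rw [ContinuousLinearMap.comp_id] at h4
    exact h4
  have h3 : HasFDerivAt (fun y : EE d => (r * ε)⁻¹ * (r ^ 2 - ‖y - c‖ ^ 2))
      ((r * ε)⁻¹ • (-((2 : ℕ) • (innerSL ℝ (x - c) : EE d →L[ℝ] ℝ)))) x :=
    (h2.const_sub (r ^ 2)).const_mul _
  have h4 : (fun y : EE d => (r * ε)⁻¹ * (r ^ 2 - ‖y - c‖ ^ 2)) =
      fun y : EE d => (r ^ 2 - ‖y - c‖ ^ 2) / (r * ε) := funext fun y => by
    rw [div_eq_inv_mul]
  rw [h4] at h3
  have h5 : HasDerivAt Real.smoothTransition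
      (deriv Real.smoothTransition ((r ^ 2 - ‖x - c‖ ^ 2) / (r * ε)))
      ((r ^ 2 - ‖x - c‖ ^ 2) / (r * ε)) :=
    ((Real.smoothTransition.contDiff (n := 1)).differentiable one_ne_zero _).hasDerivAt
  have h6 := h5.comp_hasFDerivAt x h3
  have h7 : deriv Real.smoothTransition ((r ^ 2 - ‖x - c‖ ^ 2) / (r * ε)) •
      ((r * ε)⁻¹ • (-((2 : ℕ) • (innerSL ℝ (x - c) : EE d →L[ℝ] ℝ)))) =
      ((-(2 * deriv Real.smoothTransition ((r ^ 2 - ‖x - c‖ ^ 2) / (r * ε))) / (r * ε)) •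
        innerSL ℝ (x - c)) := by
    ext v
    simp only [smul_apply, neg_apply, smul_eq_mul, nsmul_eq_mul]
    push_cast
    rw [div_eq_inv_mul]
    ring
  rw [h7] at h6
  exact h6

private theorem shell_pd (c x : EE d) (r ε : ℝ) (i : Fin d) :
    pd i (fun y : EE d => Real.smoothTransition ((r ^ 2 - ‖y - c‖ ^ 2) / (r * ε))) x =
      (-(2 * deriv Real.smoothTransition ((r ^ 2 - ‖x - c‖ ^ 2) / (r * ε))) / (r * ε)) *
        (x i - c i) := by
  show fderiv ℝ _ x (EuclideanSpace.single i (1 : ℝ)) = _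
  rw [(shell_fd c x r ε).fderiv]
  simp [innerSL_apply_apply, EuclideanSpace.inner_single_right]

theorem exists_shell (c : EE d) {r : ℝ} (hr : 0 < r) :
    ∃ C : ℝ, 0 < C ∧ ∀ ε : ℝ, 0 < ε → ε < r →
      ∃ χ : EE d → ℝ, ContDiff ℝ ∞ χ ∧ (∀ x, 0 ≤ χ x ∧ χ x ≤ 1) ∧
        (∀ x, ‖x - c‖ ≤ r - ε → χ x = 1) ∧ (∀ x, r ≤ ‖x - c‖ → χ x = 0) ∧
        (∀ x, ∃ β : ℝ, |β| ≤ C / ε ∧ ∀ i, pd i χ x = β * (x i - c i)) ∧
        (∀ x i, ‖x - c‖ < r - ε → pd i χ x = 0) ∧ ∀ x i, r < ‖x - c‖ → pd i χ x = 0 := by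
  obtain ⟨M, hM0, hM⟩ := shell_deriv_bound
  refine ⟨2 * M / r + 1, by positivity, fun ε hε hεr => ?_⟩
  have hrε : 0 < r * ε := mul_pos hr hε
  have harg : ∀ x : EE d, ‖x - c‖ ≤ r - ε → 1 ≤ (r ^ 2 - ‖x - c‖ ^ 2) / (r * ε) := by
    intro x hx
    rw [le_div_iff₀ hrε]
    have h1 : ‖x - c‖ ^ 2 ≤ (r - ε) ^ 2 := pow_le_pow_left₀ (norm_nonneg _) hx 2
    nlinarith
  refine ⟨fun x => Real.smoothTransition ((r ^ 2 - ‖x - c‖ ^ 2) / (r * ε)), ?_, ?_, ?_, ?_, ?_, ?_,
    ?_⟩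
  · exact Real.smoothTransition.contDiff.comp
      ((contDiff_const.sub ((contDiff_id.sub contDiff_const).norm_sq ℝ)).div_const _)
  · exact fun x => ⟨Real.smoothTransition.nonneg _, Real.smoothTransition.le_one _⟩
  · exact fun x hx => Real.smoothTransition.one_of_one_le (harg x hx)
  · intro x hx
    refine Real.smoothTransition.zero_of_nonpos (div_nonpos_of_nonpos_of_nonneg ?_ hrε.le)
    have h1 : r ^ 2 ≤ ‖x - c‖ ^ 2 := pow_le_pow_left₀ hr.le hx 2
    linarith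
  · intro x
    refine ⟨_, ?_, fun i => shell_pd c x r ε i⟩
    rw [abs_div, abs_neg, abs_mul, abs_of_pos hrε, abs_two, div_le_div_iff₀ hrε hε]
    have h1 := hM ((r ^ 2 - ‖x - c‖ ^ 2) / (r * ε))
    have h2 : (2 * M / r + 1) * (r * ε) = 2 * M * ε + r * ε := by field_simp
    rw [h2]
    nlinarith
  · intro x i hx
    rw [shell_pd]
    rcases (harg x hx.le).eq_or_lt with h1 | h1
    · exfalso
      have h2 : r ^ 2 - ‖x - c‖ ^ 2 = r * ε := by
        rw [eq_div_iff hrε.ne'] at h1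
        linarith
      have h3 : ‖x - c‖ ^ 2 < (r - ε) ^ 2 := pow_lt_pow_left₀ hx (norm_nonneg _) two_ne_zero
      nlinarith
    · rw [shell_deriv_zero (Or.inr h1)]
      simp
  · intro x i hx
    rw [shell_pd, shell_deriv_zero (Or.inl ?_)]
    · simp
    · refine div_neg_of_neg_of_pos ?_ hrε
      have h1 : r ^ 2 < ‖x - c‖ ^ 2 := pow_lt_pow_left₀ hx hr.le two_ne_zero
      linarith

private theorem shell_pow (n : ℕ) {r s : ℝ} (hs : 0 ≤ s) (hsr : s ≤ r) :
    r ^ n - s ^ n ≤ (n * (r + 1) ^ n) * (r - s) := by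
  induction n with
  | zero => simp
  | succ n ih =>
    have hr : 0 ≤ r := hs.trans hsr
    have h1 : r ^ (n + 1) - s ^ (n + 1) = r * (r ^ n - s ^ n) + s ^ n * (r - s) := by ring
    have h2 : s ^ n ≤ (r + 1) ^ n := pow_le_pow_left₀ hs (by linarith) n
    have h3 : 0 ≤ (n : ℝ) * (r + 1) ^ n * (r - s) := by
      have : 0 ≤ r - s := by linarith
      positivity
    have h4 : 0 ≤ (r + 1) ^ n * (r - s) := by
      have : 0 ≤ r - s := by linarith
      positivity
    have h5 : s ^ n * (r - s) ≤ (r + 1) ^ n * (r - s) :=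
      mul_le_mul_of_nonneg_right h2 (by linarith)
    have h6 : r * (r ^ n - s ^ n) ≤ r * ((n * (r + 1) ^ n) * (r - s)) :=
      mul_le_mul_of_nonneg_left ih hr
    have h7 : ((n + 1 : ℕ) * (r + 1) ^ (n + 1)) * (r - s) =
        r * ((n * (r + 1) ^ n) * (r - s)) + (n : ℝ) * (r + 1) ^ n * (r - s) +
        r * ((r + 1) ^ n * (r - s)) + (r + 1) ^ n * (r - s) := by
      push_cast
      ring
    have h8 : 0 ≤ r * ((r + 1) ^ n * (r - s)) := mul_nonneg hr h4
    rw [h1, h7]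
    linarith

/-- the volume of the shell -/
theorem shell_volume (hd : 1 ≤ d) (c : EE d) {r : ℝ} (hr : 0 < r) :
    ∃ C : ℝ, 0 < C ∧ ∀ ε : ℝ, 0 < ε → ε < r →
      (volume {x : EE d | r - ε ≤ ‖x - c‖ ∧ ‖x - c‖ ≤ r}).toReal ≤ C * ε := by
  have hW0 : volume (ball (0 : EE d) 1) ≠ ⊤ := measure_ball_lt_top.ne
  set W : ℝ := (volume (ball (0 : EE d) 1)).toReal with hW
  have hWn : 0 ≤ W := ENNReal.toReal_nonneg
  refine ⟨d * (r + 1) ^ d * W + 1, by positivity, fun ε hε hεr => ?_⟩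
  have h0 : {x : EE d | r - ε ≤ ‖x - c‖ ∧ ‖x - c‖ ≤ r} = closedBall c r \ ball c (r - ε) := by
    ext x
    simp only [Set.mem_ofPred_eq, Set.mem_sdiff, mem_closedBall, mem_ball, dist_eq_norm, not_lt]
    exact and_comm
  have h1 : volume.real (closedBall c r \ ball c (r - ε)) =
      volume.real (closedBall c r) - volume.real (ball c (r - ε)) :=
    measureReal_sdiff (ball_subset_closedBall.trans (closedBall_subset_closedBall (by linarith)))
      measurableSet_ball measure_closedBall_lt_top.ne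
  have h2 : volume.real (closedBall c r) = r ^ d * W := by
    rw [Measure.real, Measure.addHaar_closedBall _ _ hr.le, ENNReal.toReal_mul,
      ENNReal.toReal_ofReal (by positivity), finrank_euclideanSpace_fin]
  have h3 : volume.real (ball c (r - ε)) = (r - ε) ^ d * W := by
    rw [Measure.real, Measure.addHaar_ball_of_pos _ _ (by linarith), ENNReal.toReal_mul,
      finrank_euclideanSpace_fin, ENNReal.toReal_ofReal (pow_nonneg (by linarith) _)]
  rw [h0]
  change volume.real (closedBall c r \ ball c (r - ε)) ≤ _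
  rw [h1, h2, h3, ← sub_mul]
  have h4 := shell_pow d (r := r) (s := r - ε) (by linarith) (by linarith)
  rw [sub_sub_cancel] at h4
  have h5 := mul_le_mul_of_nonneg_right h4 hWn
  refine h5.trans ?_
  have h6 : (d * (r + 1) ^ d * W + 1) * ε = d * (r + 1) ^ d * ε * W + ε := by ring
  rw [h6]
  linarith

end Pool.Agent.MP_0643f8_an.U
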