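import Mathlib
import Pool.Agent.Lib.MP_0643f8_an.U.W5_Shell
import Pool.Agent.Lib.MP_0643f8_an.U.W1_WD
import Pool.Agent.Lib.MP_0643f8_an.U.L5_Strain

/-!
# Gluing across a sphere

`f` is smooth near the closed ball, `g` near `V \ ball`, so both are smooth near the sphere. With
the cut-offs `χ_ε` of `exists_shell`: integrate by parts the smooth compactly supported functions
`χ_ε f φ` and `(1 - χ_ε) g φ` (`∫ pd i F = 0`); the sum of the boundary terms is
`- ∫ pd i χ_ε (f - g) φ`, with `|f - g| ≤ C ε` on the shell (they agree on the sphere), so it is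
`O(ε⁻¹ ε ε)`. Similarly for the stresses, where the boundary term is
`∫ ∑ᵢ pd i χ_ε (σ'_ik - σ_ik) φ = ∫ β_ε (∑ᵢ (xᵢ-cᵢ)(σ'_ik - σ_ik)) φ`.
-/

set_option autoImplicit false

open MeasureTheory Metric Set Filter Topology
open scoped ContDiff

namespace Pool.Agent.MP_0643f8_an.U
variable {d : ℕ}

/-- `f` inside the ball, `g` outside -/
noncomputable def glue (c : EE d) (r : ℝ) (f g : EE d → ℝ) (x : EE d) : ℝ :=
  if ‖x - c‖ < r then f x else g x

theorem glue_l2loc {c : EE d} {r : ℝ} {V B E : Set (EE d)}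
    (hB : IsOpen B) (hcB : closedBall c r ⊆ B) (hE : IsOpen E) (hVE : V \ ball c r ⊆ E)
    {f g : EE d → ℝ} (hf : ContinuousOn f B) (hg : ContinuousOn g E) :
    L2loc V (glue c r f g) := by
  intro K hK hKV
  have hf1 : MemLp f 2 (volume.restrict (closedBall c r)) :=
    l2loc_of_continuousOn hf _ (isCompact_closedBall c r) hcB
  have hg1 : MemLp g 2 (volume.restrict (K \ ball c r)) :=
    l2loc_of_continuousOn hg _ (hK.diff isOpen_ball) (fun x hx => hVE ⟨hKV hx.1, hx.2⟩)
  classical
  have e : glue c r f g = (ball c r).piecewise f g := by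
    funext x
    unfold glue Set.piecewise
    simp only [mem_ball, dist_eq_norm]
  rw [e]
  refine MemLp.piecewise measurableSet_ball ?_ ?_
  · rw [Measure.restrict_restrict measurableSet_ball]
    exact hf1.mono_measure (Measure.restrict_mono (fun x hx => ball_subset_closedBall hx.1) le_rfl)
  · rw [Measure.restrict_restrict measurableSet_ball.compl]
    refine hg1.mono_measure (Measure.restrict_mono ?_ le_rfl)
    intro x hx
    exact ⟨hx.2, hx.1⟩

/-- points of a compact subset of `V` close to the sphere, on the inner side, lie in `E` -/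
private theorem w6a_near {c : EE d} {r : ℝ} (hr : 0 < r) {V E K : Set (EE d)} (hE : IsOpen E)
    (hVE : V \ ball c r ⊆ E) (hK : IsCompact K) (hKV : K ⊆ V) :
    ∃ ε : ℝ, 0 < ε ∧ ε < r ∧ ∀ x ∈ K, r - ε ≤ ‖x - c‖ → x ∈ E := by
  have h1 : IsCompact (K \ E) := hK.diff hE
  have h2 : ∀ x ∈ K \ E, ‖x - c‖ < r := by
    intro x hx
    by_contra h
    refine hx.2 (hVE ⟨hKV hx.1, ?_⟩)
    rw [mem_ball, dist_eq_norm]
    exact h
  rcases (K \ E).eq_empty_or_nonempty with he | hne
  · refine ⟨r / 2, by linarith, by linarith, fun x hx _ => ?_⟩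
    by_contra h
    have : x ∈ K \ E := ⟨hx, h⟩
    rw [he] at this
    exact this
  · obtain ⟨y, hy, hmax⟩ := h1.exists_isMaxOn hne
      (f := fun x : EE d => ‖x - c‖) (by fun_prop)
    have h3 := h2 y hy
    have h4 := norm_nonneg (y - c)
    refine ⟨(r - ‖y - c‖) / 2, by linarith, by linarith, fun x hx hx2 => ?_⟩
    by_contra h
    have h5 : ‖x - c‖ ≤ ‖y - c‖ := hmax (show x ∈ K \ E from ⟨hx, h⟩)
    linarith

/-- the difference is `O(distance to the sphere)` -/
private theorem w6a_lip {c : EE d} {r : ℝ} (hr : 0 < r) {V B E K : Set (EE d)}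
    (hV : IsOpen V) (hB : IsOpen B) (hcB : closedBall c r ⊆ B) (hE : IsOpen E)
    (hVE : V \ ball c r ⊆ E) {f g : EE d → ℝ} (hf : ContDiffOn ℝ ∞ f B)
    (hg : ContDiffOn ℝ ∞ g E) (h : ∀ x ∈ V, ‖x - c‖ = r → f x = g x) (hK : IsCompact K)
    (hKV : K ⊆ V) :
    ∃ ε L : ℝ, 0 < ε ∧ ε < r ∧ 0 ≤ L ∧ (∀ x ∈ K, r - ε ≤ ‖x - c‖ → x ∈ E) ∧
      ∀ x ∈ K, r - ε ≤ ‖x - c‖ → ‖x - c‖ ≤ r → |f x - g x| ≤ L * (r - ‖x - c‖) := by
  obtain ⟨δ, hδ, hδV⟩ := hK.exists_cthickening_subset_open hV hKV
  have hK' : IsCompact (cthickening δ K) := hK.cthickening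
  obtain ⟨ε, hε, hεr, hεE⟩ := w6a_near hr hE hVE hK' hδV
  have hS : IsCompact (cthickening δ K ∩ ({x | r - ε ≤ ‖x - c‖} ∩ closedBall c r)) := by
    refine hK'.inter_right (IsClosed.inter ?_ isClosed_closedBall)
    exact isClosed_le continuous_const (by fun_prop)
  have hSsub : cthickening δ K ∩ ({x | r - ε ≤ ‖x - c‖} ∩ closedBall c r) ⊆ E ∩ B := by
    intro x hx
    exact ⟨hεE x hx.1 hx.2.1, hcB hx.2.2⟩
  have hEB : IsOpen (E ∩ B) := hE.inter hB
  have hh : ContDiffOn ℝ ∞ (fun x => f x - g x) (E ∩ B) :=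
    (hf.mono inter_subset_right).sub (hg.mono inter_subset_left)
  have hh1 : ContinuousOn (fun x => ‖fderiv ℝ (fun x => f x - g x) x‖) (E ∩ B) := by
    have h1 : ContDiffOn ℝ ∞ (fderiv ℝ (fun x => f x - g x)) (E ∩ B) :=
      hh.fderiv_of_isOpen hEB (by simp)
    exact h1.continuousOn.norm
  obtain ⟨L, hL⟩ := (hS.image_of_continuousOn (hh1.mono hSsub)).bddAbove
  have hL' : ∀ x ∈ cthickening δ K ∩ ({x | r - ε ≤ ‖x - c‖} ∩ closedBall c r),
      ‖fderiv ℝ (fun x => f x - g x) x‖ ≤ max L 0 := fun x hx =>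
    (hL (mem_image_of_mem _ hx)).trans (le_max_left _ _)
  refine ⟨min ε δ, max L 0, lt_min hε hδ, (min_le_left _ _).trans_lt hεr, le_max_right _ _,
    fun x hx hx2 => hεE x (self_subset_cthickening K hx)
      (le_trans (by linarith [min_le_left ε δ]) hx2), ?_⟩
  intro x hxK hx1 hx2
  have hm1 := min_le_left ε δ
  have hm2 := min_le_right ε δ
  have hn : 0 < ‖x - c‖ := by linarith
  obtain ⟨y, hy⟩ : ∃ y, y = c + (r / ‖x - c‖) • (x - c) := ⟨_, rfl⟩
  have hrt : 1 ≤ r / ‖x - c‖ := by
    rw [le_div_iff₀ hn]; linarith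
  -- points of the segment
  have hseg : segment ℝ x y ⊆
      cthickening δ K ∩ ({x | r - ε ≤ ‖x - c‖} ∩ closedBall c r) := by
    intro z hz
    rw [segment_eq_image] at hz
    obtain ⟨t, ⟨ht0, ht1⟩, rfl⟩ := hz
    have e1 : (1 - t) • x + t • y - c = ((1 - t) + t * (r / ‖x - c‖)) • (x - c) := by
      rw [hy]
      module
    have e2 : (1 - t) • x + t • y - x = (t * (r / ‖x - c‖ - 1)) • (x - c) := by
      rw [hy]
      module
    have n1 : ‖(1 - t) • x + t • y - c‖ = (1 - t) * ‖x - c‖ + t * r := by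
      have h0 : 0 ≤ (1 - t) + t * (r / ‖x - c‖) :=
        add_nonneg (by linarith) (mul_nonneg ht0 (by linarith))
      rw [e1, norm_smul, Real.norm_eq_abs, abs_of_nonneg h0]
      field_simp
    have n2 : ‖(1 - t) • x + t • y - x‖ = t * (r - ‖x - c‖) := by
      have h0 : 0 ≤ t * (r / ‖x - c‖ - 1) := mul_nonneg ht0 (by linarith)
      rw [e2, norm_smul, Real.norm_eq_abs, abs_of_nonneg h0]
      field_simp
    have n3 : t * ‖x - c‖ ≤ t * r := mul_le_mul_of_nonneg_left hx2 ht0
    have n4 : t * (r - ‖x - c‖) ≤ 1 * (r - ‖x - c‖) :=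
      mul_le_mul_of_nonneg_right ht1 (by linarith)
    refine ⟨mem_cthickening_of_dist_le _ x δ K hxK ?_, ?_, ?_⟩
    · rw [dist_eq_norm, n2]
      linarith
    · show r - ε ≤ ‖(1 - t) • x + t • y - c‖
      rw [n1]
      linarith
    · rw [mem_closedBall, dist_eq_norm, n1]
      nlinarith
  have hyy : y ∈ segment ℝ x y := right_mem_segment ℝ x y
  have hyV : y ∈ V := hδV (hseg hyy).1
  have hyn : ‖y - c‖ = r := by
    have e1 : y - c = (r / ‖x - c‖) • (x - c) := by
      rw [hy]
      module
    rw [e1, norm_smul, Real.norm_eq_abs, abs_of_nonneg (by linarith)]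
    field_simp
  have hyx : ‖y - x‖ = r - ‖x - c‖ := by
    have e1 : y - x = (r / ‖x - c‖ - 1) • (x - c) := by
      rw [hy]
      module
    rw [e1, norm_smul, Real.norm_eq_abs, abs_of_nonneg (by linarith)]
    field_simp
  have hmv := Convex.norm_image_sub_le_of_norm_fderiv_le (𝕜 := ℝ)
    (f := fun x => f x - g x) (s := segment ℝ x y) (C := max L 0) (x := x) (y := y)
    (fun z hz => (hh.contDiffAt (hEB.mem_nhds (hSsub (hseg hz)))).differentiableAt (by simp))
    (fun z hz => hL' z (hseg hz)) (convex_segment x y) (left_mem_segment ℝ x y) hyy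
  have hz : f y - g y = 0 := by rw [h y hyV hyn, sub_self]
  rw [hyx] at hmv
  simp only [hz, zero_sub, norm_neg, Real.norm_eq_abs] at hmv
  exact hmv

private theorem w6a_pd_def (i : Fin d) (f : EE d → ℝ) (x : EE d) :
    pd i f x = fderiv ℝ f x (EuclideanSpace.single i (1 : ℝ)) := rfl

private theorem w6a_pd_supp (i : Fin d) {φ : EE d → ℝ} {x : EE d} (hx : x ∉ tsupport φ) :
    φ x = 0 ∧ pd i φ x = 0 := by
  refine ⟨image_eq_zero_of_notMem_tsupport hx, ?_⟩
  have h1 : φ =ᶠ[𝓝 x] fun _ => 0 := notMem_tsupport_iff_eventuallyEq.1 hx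
  rw [(pd_congr h1 i).self_of_nhds, pd_const]

private theorem w6a_test_pd {φ : EE d → ℝ} (hφ : IsTest φ) (i : Fin d) :
    Continuous (pd i φ) ∧ HasCompactSupport (pd i φ) ∧ tsupport (pd i φ) ⊆ tsupport φ := by
  have h3 : tsupport (pd i φ) ⊆ tsupport φ := by
    refine closure_minimal ?_ (isClosed_tsupport φ)
    intro x hx
    by_contra h
    exact hx (w6a_pd_supp i h).2
  refine ⟨?_, ?_, h3⟩
  · have h1 : ContDiffOn ℝ ∞ (pd i φ) univ := pd_contDiffOn isOpen_univ hφ.1.contDiffOn i
    exact continuousOn_univ.1 h1.continuousOn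
  · exact hφ.2.of_isClosed_subset (isClosed_tsupport _) h3

private theorem w6a_zero_of_small {I M e₀ : ℝ} (hI : 0 ≤ I) (hM : 0 ≤ M) (he : 0 < e₀)
    (h : ∀ ε : ℝ, 0 < ε → ε < e₀ → I ≤ M * ε) : I = 0 := by
  by_contra hne
  have hpos : 0 < I := lt_of_le_of_ne hI (Ne.symm hne)
  have hM1 : 0 < M + 1 := by linarith
  have h1 := h (min (e₀ / 2) (I / (2 * (M + 1)))) (lt_min (by linarith) (by positivity))
    ((min_le_left _ _).trans_lt (by linarith))
  have h2 : min (e₀ / 2) (I / (2 * (M + 1))) ≤ I / (2 * (M + 1)) := min_le_right _ _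
  have h3 : 0 < min (e₀ / 2) (I / (2 * (M + 1))) := lt_min (by linarith) (by positivity)
  have h4 : (M + 1) * (I / (2 * (M + 1))) = I / 2 := by field_simp
  have h5 : (M + 1) * min (e₀ / 2) (I / (2 * (M + 1))) ≤ (M + 1) * (I / (2 * (M + 1))) :=
    mul_le_mul_of_nonneg_left h2 hM1.le
  nlinarith

theorem glue_wd (hd : 1 ≤ d) {c : EE d} {r : ℝ} (hr : 0 < r) {V B E : Set (EE d)}
    (hV : IsOpen V) (hB : IsOpen B) (hcB : closedBall c r ⊆ B) (hE : IsOpen E)
    (hVE : V \ ball c r ⊆ E) {f g : EE d → ℝ} (hf : ContDiffOn ℝ ∞ f B)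
    (hg : ContDiffOn ℝ ∞ g E) (h : ∀ x ∈ V, ‖x - c‖ = r → f x = g x) :
    WD V (glue c r f g) (fun i => glue c r (pd i f) (pd i g)) := by
  have hfc := hf.continuousOn
  have hgc := hg.continuousOn
  have hpf : ∀ i, ContinuousOn (pd i f) B := fun i => (pd_contDiffOn hB hf i).continuousOn
  have hpg : ∀ i, ContinuousOn (pd i g) E := fun i => (pd_contDiffOn hE hg i).continuousOn
  have L0 : L2loc V (glue c r f g) := glue_l2loc hB hcB hE hVE hfc hgc
  have L1 : ∀ i, L2loc V (glue c r (pd i f) (pd i g)) := fun i =>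
    glue_l2loc hB hcB hE hVE (hpf i) (hpg i)
  refine ⟨L0, L1, fun φ hφ hφV i => ?_⟩
  obtain ⟨hp1, hp2, hp3⟩ := w6a_test_pd hφ i
  have I0 : Integrable (fun x => glue c r f g x * pd i φ x) :=
    l2loc_integrable L0 hp1 hp2 (hp3.trans hφV)
  have I1 : Integrable (fun x => glue c r (pd i f) (pd i g) x * φ x) :=
    l2loc_integrable (L1 i) hφ.1.continuous hφ.2 hφV
  obtain ⟨e₀, L, he₀, he₀r, hL, hE0, hlip⟩ := w6a_lip hr hV hB hcB hE hVE hf hg h hφ.2 hφV
  obtain ⟨C, hC, hshell⟩ := exists_shell c hr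
  obtain ⟨C', hC', hvol⟩ := shell_volume hd c hr
  -- a uniform bound near the sphere
  obtain ⟨S, hSdef⟩ : ∃ S : Set (EE d),
      S = tsupport φ ∩ ({x | r - e₀ ≤ ‖x - c‖} ∩ closedBall c r) := ⟨_, rfl⟩
  have hS : IsCompact S := by
    rw [hSdef]
    refine IsCompact.inter_right hφ.2 (IsClosed.inter ?_ isClosed_closedBall)
    exact isClosed_le continuous_const (by fun_prop)
  have hSE : S ⊆ E := by
    intro x hx
    rw [hSdef] at hx
    exact hE0 x hx.1 hx.2.1
  have hSB : S ⊆ B := by
    intro x hx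
    rw [hSdef] at hx
    exact hcB hx.2.2
  have hFc : ContinuousOn (fun x => (|f x| + |g x|) * |pd i φ x| +
      (|pd i f x| + |pd i g x|) * |φ x| + L * C * r * |φ x|) S := by
    have c1 := (hfc.mono hSB).abs
    have c2 := (hgc.mono hSE).abs
    have c3 := ((hpf i).mono hSB).abs
    have c4 := ((hpg i).mono hSE).abs
    have c5 : ContinuousOn (fun x => |pd i φ x|) S := hp1.continuousOn.abs
    have c6 : ContinuousOn (fun x => |φ x|) S := hφ.1.continuous.continuousOn.abs
    exact (((c1.add c2).mul c5).add ((c3.add c4).mul c6)).add (continuousOn_const.mul c6)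
  obtain ⟨M, hM⟩ := (hS.image_of_continuousOn hFc).bddAbove
  have hM' : ∀ x ∈ S, (|f x| + |g x|) * |pd i φ x| +
      (|pd i f x| + |pd i g x|) * |φ x| + L * C * r * |φ x| ≤ max M 0 := fun x hx =>
    (hM (mem_image_of_mem _ hx)).trans (le_max_left _ _)
  have hM0 : 0 ≤ max M 0 := le_max_right _ _
  -- the estimate
  have key : ∀ ε : ℝ, 0 < ε → ε < e₀ →
      |(∫ x, glue c r f g x * pd i φ x) + ∫ x, glue c r (pd i f) (pd i g) x * φ x| ≤
        (max M 0 * C') * ε := by
    intro ε hε hεe
    obtain ⟨χ, hχ1, hχ2, hχ3, hχ4, hχ5, hχ6, hχ7⟩ := hshell ε hε (hεe.trans he₀r)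
    have t1 : IsTest (fun x => χ x * φ x) := ⟨hχ1.mul hφ.1, hφ.2.mul_left⟩
    have t2 : IsTest (fun x => (1 - χ x) * φ x) :=
      ⟨(contDiff_const.sub hχ1).mul hφ.1, hφ.2.mul_left⟩
    have s1 : tsupport (fun x => χ x * φ x) ⊆ B := by
      refine (closure_minimal ?_ isClosed_closedBall).trans hcB
      intro x hx
      rw [mem_closedBall, dist_eq_norm]
      by_contra hlt
      refine hx ?_
      show χ x * φ x = 0
      rw [hχ4 x (by linarith), zero_mul]
    have s2 : tsupport (fun x => (1 - χ x) * φ x) ⊆ E := by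
      have hcl : IsClosed (tsupport φ ∩ {x | r - ε ≤ ‖x - c‖}) :=
        (isClosed_tsupport φ).inter (isClosed_le continuous_const (by fun_prop))
      refine (closure_minimal ?_ hcl).trans
        (fun x hx => hE0 x hx.1 (by have := hx.2; simp only [Set.mem_ofPred_eq] at this; linarith))
      intro x hx
      refine ⟨?_, ?_⟩
      · by_contra hn
        refine hx ?_
        show (1 - χ x) * φ x = 0
        rw [(w6a_pd_supp i hn).1, mul_zero]
      · by_contra hn
        refine hx ?_
        show (1 - χ x) * φ x = 0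
        have hn' : ‖x - c‖ ≤ r - ε := le_of_lt (not_le.1 hn)
        rw [hχ3 x hn', sub_self, zero_mul]
    have e1 := (wd_smooth hB hf).2.2 _ t1 s1 i
    have e2 := (wd_smooth hE hg).2.2 _ t2 s2 i
    obtain ⟨u1, u2, u3⟩ := w6a_test_pd t1 i
    obtain ⟨v1, v2, v3⟩ := w6a_test_pd t2 i
    have J1 : Integrable (fun x => f x * pd i (fun x => χ x * φ x) x) :=
      l2loc_integrable (l2loc_of_continuousOn hfc) u1 u2 (u3.trans s1)
    have J2 : Integrable (fun x => pd i f x * (χ x * φ x)) :=
      l2loc_integrable (l2loc_of_continuousOn (hpf i)) t1.1.continuous t1.2 s1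
    have J3 : Integrable (fun x => g x * pd i (fun x => (1 - χ x) * φ x) x) :=
      l2loc_integrable (l2loc_of_continuousOn hgc) v1 v2 (v3.trans s2)
    have J4 : Integrable (fun x => pd i g x * ((1 - χ x) * φ x)) :=
      l2loc_integrable (l2loc_of_continuousOn (hpg i)) t2.1.continuous t2.2 s2
    have d1 : ∀ x, pd i (fun x => χ x * φ x) x = χ x * pd i φ x + φ x * pd i χ x := fun x =>
      pd_mul (hχ1.contDiffAt.differentiableAt (by simp))
        (hφ.1.contDiffAt.differentiableAt (by simp)) i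
    have d2 : ∀ x, pd i (fun x => (1 - χ x) * φ x) x =
        (1 - χ x) * pd i φ x - φ x * pd i χ x := fun x => by
      have a1 : DifferentiableAt ℝ χ x := hχ1.contDiffAt.differentiableAt (by simp)
      have a2 : DifferentiableAt ℝ (fun y => 1 - χ y) x := a1.const_sub 1
      rw [pd_mul a2 (hφ.1.contDiffAt.differentiableAt (by simp)) i,
        pd_sub (differentiableAt_const 1) a1, pd_const]
      ring
    have hD : (∫ x, glue c r f g x * pd i φ x) + ∫ x, glue c r (pd i f) (pd i g) x * φ x =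
        ∫ x, (glue c r f g x * pd i φ x + glue c r (pd i f) (pd i g) x * φ x -
          (f x * pd i (fun x => χ x * φ x) x + pd i f x * (χ x * φ x)) -
          (g x * pd i (fun x => (1 - χ x) * φ x) x + pd i g x * ((1 - χ x) * φ x))) := by
      have A1 : Integrable (fun x => glue c r f g x * pd i φ x +
        glue c r (pd i f) (pd i g) x * φ x) := I0.add I1
      have A2 : Integrable (fun x => f x * pd i (fun x => χ x * φ x) x +
        pd i f x * (χ x * φ x)) := J1.add J2
      have A3 : Integrable (fun x => g x * pd i (fun x => (1 - χ x) * φ x) x +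
        pd i g x * ((1 - χ x) * φ x)) := J3.add J4
      have A4 : Integrable (fun x => glue c r f g x * pd i φ x +
        glue c r (pd i f) (pd i g) x * φ x - (f x * pd i (fun x => χ x * φ x) x +
        pd i f x * (χ x * φ x))) := A1.sub A2
      rw [integral_sub A4 A3, integral_sub A1 A2, integral_add I0 I1, integral_add J1 J2,
        integral_add J3 J4, e1, e2]
      ring
    rw [hD]
    -- the integrand vanishes off the shell
    have hzero : ∀ x, x ∉ {x : EE d | r - ε ≤ ‖x - c‖ ∧ ‖x - c‖ ≤ r} →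
        (glue c r f g x * pd i φ x + glue c r (pd i f) (pd i g) x * φ x -
          (f x * pd i (fun x => χ x * φ x) x + pd i f x * (χ x * φ x)) -
          (g x * pd i (fun x => (1 - χ x) * φ x) x + pd i g x * ((1 - χ x) * φ x))) = 0 := by
      intro x hx
      rw [d1, d2]
      simp only [Set.mem_ofPred_eq, not_and, not_le] at hx
      by_cases hx1 : r - ε ≤ ‖x - c‖
      · have hx2 := hx hx1
        unfold glue
        rw [if_neg (by linarith), if_neg (by linarith), hχ4 x hx2.le, hχ7 x i hx2]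
        ring
      · have hx2 : ‖x - c‖ < r - ε := not_le.1 hx1
        unfold glue
        rw [if_pos (by linarith), if_pos (by linarith), hχ3 x hx2.le, hχ6 x i hx2]
        ring
    have hbd : ∀ x, x ∈ {x : EE d | r - ε ≤ ‖x - c‖ ∧ ‖x - c‖ ≤ r} →
        ‖(glue c r f g x * pd i φ x + glue c r (pd i f) (pd i g) x * φ x -
          (f x * pd i (fun x => χ x * φ x) x + pd i f x * (χ x * φ x)) -
          (g x * pd i (fun x => (1 - χ x) * φ x) x + pd i g x * ((1 - χ x) * φ x)))‖ ≤
          max M 0 := by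
      intro x hx
      simp only [Set.mem_ofPred_eq] at hx
      rw [d1, d2]
      by_cases hxφ : x ∈ tsupport φ
      · have hxS : x ∈ S := by
          rw [hSdef]
          refine ⟨hxφ, ?_, ?_⟩
          · show r - e₀ ≤ ‖x - c‖
            linarith [hx.1]
          · rw [mem_closedBall, dist_eq_norm]
            exact hx.2
        refine le_trans ?_ (hM' x hxS)
        obtain ⟨β, hβ, hβ2⟩ := hχ5 x
        obtain ⟨k0, k1⟩ := hχ2 x
        have hl := hlip x hxφ (by linarith [hx.1]) hx.2
        have hP : |pd i χ x| ≤ C / ε * r := by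
          rw [hβ2 i, abs_mul]
          refine mul_le_mul hβ ?_ (abs_nonneg _) (by positivity)
          have n1 : |(x - c) i| ≤ ‖x - c‖ := by
            have := EuclideanSpace.norm_eq (x - c)
            have n2 := PiLp.norm_apply_le (x - c) i
            rwa [Real.norm_eq_abs] at n2
          exact n1.trans hx.2
        have hfg : |f x - g x| * |pd i χ x| ≤ L * C * r := by
          have h1 : |f x - g x| ≤ L * ε :=
            hl.trans (mul_le_mul_of_nonneg_left (by linarith [hx.1]) hL)
          calc |f x - g x| * |pd i χ x| ≤ (L * ε) * (C / ε * r) :=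
                mul_le_mul h1 hP (abs_nonneg _) (by positivity)
            _ = L * C * r := by field_simp
        have habs : |f x - g x| ≤ |f x| + |g x| := abs_sub _ _
        have habs' : |pd i f x - pd i g x| ≤ |pd i f x| + |pd i g x| := abs_sub _ _
        -- two cases for the value of `glue`
        obtain ⟨s, hs0, hs1, hs2, hs3⟩ : ∃ s : ℝ, 0 ≤ s ∧ s ≤ 1 ∧
            |glue c r f g x - (χ x * f x + (1 - χ x) * g x)| = s * |f x - g x| ∧
            |glue c r (pd i f) (pd i g) x - (χ x * pd i f x + (1 - χ x) * pd i g x)| =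
              s * |pd i f x - pd i g x| := by
          by_cases hlt : ‖x - c‖ < r
          · refine ⟨1 - χ x, by linarith, by linarith, ?_, ?_⟩
            · unfold glue
              rw [if_pos hlt, show f x - (χ x * f x + (1 - χ x) * g x) =
                (1 - χ x) * (f x - g x) by ring, abs_mul, abs_of_nonneg (by linarith)]
            · unfold glue
              rw [if_pos hlt, show pd i f x - (χ x * pd i f x + (1 - χ x) * pd i g x) =
                (1 - χ x) * (pd i f x - pd i g x) by ring, abs_mul, abs_of_nonneg (by linarith)]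
          · refine ⟨χ x, k0, k1, ?_, ?_⟩
            · unfold glue
              rw [if_neg hlt, show g x - (χ x * f x + (1 - χ x) * g x) =
                -(χ x * (f x - g x)) by ring, abs_neg, abs_mul, abs_of_nonneg k0]
            · unfold glue
              rw [if_neg hlt, show pd i g x - (χ x * pd i f x + (1 - χ x) * pd i g x) =
                -(χ x * (pd i f x - pd i g x)) by ring, abs_neg, abs_mul, abs_of_nonneg k0]
        have hsplit : glue c r f g x * pd i φ x + glue c r (pd i f) (pd i g) x * φ x -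
            (f x * (χ x * pd i φ x + φ x * pd i χ x) + pd i f x * (χ x * φ x)) -
            (g x * ((1 - χ x) * pd i φ x - φ x * pd i χ x) + pd i g x * ((1 - χ x) * φ x)) =
            (glue c r f g x - (χ x * f x + (1 - χ x) * g x)) * pd i φ x +
            (glue c r (pd i f) (pd i g) x - (χ x * pd i f x + (1 - χ x) * pd i g x)) * φ x +
            (-((f x - g x) * pd i χ x * φ x)) := by ring
        rw [hsplit, Real.norm_eq_abs]
        refine (abs_add_three _ _ _).trans ?_
        rw [abs_neg, abs_mul, abs_mul, abs_mul ((f x - g x) * pd i χ x), hs2, hs3,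
          abs_mul (f x - g x)]
        have b1 : s * |f x - g x| * |pd i φ x| ≤ (|f x| + |g x|) * |pd i φ x| := by
          refine mul_le_mul_of_nonneg_right ?_ (abs_nonneg _)
          nlinarith [abs_nonneg (f x - g x)]
        have b2 : s * |pd i f x - pd i g x| * |φ x| ≤ (|pd i f x| + |pd i g x|) * |φ x| := by
          refine mul_le_mul_of_nonneg_right ?_ (abs_nonneg _)
          nlinarith [abs_nonneg (pd i f x - pd i g x)]
        have b3 : |f x - g x| * |pd i χ x| * |φ x| ≤ L * C * r * |φ x| :=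
          mul_le_mul_of_nonneg_right hfg (abs_nonneg _)
        linarith
      · obtain ⟨z1, z2⟩ := w6a_pd_supp i hxφ
        rw [z1, z2]
        simp only [mul_zero, zero_mul, add_zero, sub_zero, norm_zero]
        exact hM0
    rw [← setIntegral_eq_integral_of_forall_compl_eq_zero hzero]
    have hfin : volume {x : EE d | r - ε ≤ ‖x - c‖ ∧ ‖x - c‖ ≤ r} < ⊤ := by
      refine (measure_mono ?_).trans_lt (measure_closedBall_lt_top (x := c) (r := r))
      intro x hx
      rw [mem_closedBall, dist_eq_norm]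
      exact hx.2
    have hn := norm_setIntegral_le_of_norm_le_const hfin hbd
    rw [Real.norm_eq_abs] at hn
    refine hn.trans ?_
    have hv := hvol ε hε (hεe.trans he₀r)
    calc max M 0 * volume.real {x : EE d | r - ε ≤ ‖x - c‖ ∧ ‖x - c‖ ≤ r} ≤
        max M 0 * (C' * ε) := mul_le_mul_of_nonneg_left hv hM0
      _ = (max M 0 * C') * ε := by ring
  have hfinal := w6a_zero_of_small (abs_nonneg _) (by positivity) he₀ key
  have := abs_eq_zero.1 hfinal
  linarith

end Pool.Agent.MP_0643f8_an.U
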