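import Mathlib
import Pool.Agent.Lib.MP_0643f8_an.U.W6a_GlueWD

/-!
# Gluing across a sphere

`f` is smooth near the closed ball, `g` near `V \ ball`, so both are smooth near the sphere. With
the cut-offs `χ_ε` of `exists_shell`: integrate by parts the smooth compactly supported functions
`χ_ε f φ` and `(1 - χ_ε) g φ` (`∫ pd i F = 0`); the sum of the boundary terms is
`- ∫ pd i χ_ε (f - g) φ`, with `|f - g| ≤ C ε` on the shell (they agree on the sphere), so it is
`O(ε⁻¹ ε ε)`. Similarly for the stresses, where the boundary term is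
`∫ ∑ᵢ pd i χ_ε (σ'_ik - σ_ik) φ = ∫ β_ε (∑ᵢ (xᵢ-cᵢ)(σ'_ik - σ_ik)) φ`.
-/

set_option autoImplicit false

open MeasureTheory Metric Set Filter Topology
open scoped ContDiff

namespace Pool.Agent.MP_0643f8_an.U
variable {d : ℕ}

private theorem w6_tau (Z : Cst d) (c : EE d) (r : ℝ) (f g : Fin d → EE d → ℝ) (i k : Fin d)
    (x : EE d) :
    sigD Z (ball c r) (fun k i => glue c r (grd f k i) (grd g k i)) i k x =
      if ‖x - c‖ < r then sig Z.lam' Z.mu' (grd f) i k x else sig Z.lam Z.mu (grd g) i k x := by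
  unfold sigD sig coef glue
  by_cases h : ‖x - c‖ < r
  · have hx : x ∈ ball c r := by
      rw [mem_ball, dist_eq_norm]
      exact h
    simp only [h, if_true, indicator_of_mem hx]
    ring
  · have hx : x ∉ ball c r := by
      rw [mem_ball, dist_eq_norm]
      exact h
    simp only [h, if_false, indicator_of_notMem hx]
    ring

private theorem w6_sig_smooth (lam mu : ℝ) {A : Set (EE d)} (hA : IsOpen A)
    {u : Fin d → EE d → ℝ} (hu : ∀ k, ContDiffOn ℝ ∞ (u k) A) (i k : Fin d) :
    ContDiffOn ℝ ∞ (sig lam mu (grd u) i k) A := by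
  have h1 : ContDiffOn ℝ ∞ (fun x => lam * (if i = k then ∑ j, pd j (u j) x else 0)) A := by
    by_cases h : i = k
    · simp only [h, if_true]
      exact contDiffOn_const.mul (ContDiffOn.sum fun j _ => pd_contDiffOn hA (hu j) j)
    · simp only [h, if_false]
      exact contDiffOn_const
  have h2 : ContDiffOn ℝ ∞ (fun x => mu * (pd i (u k) x + pd k (u i) x)) A :=
    contDiffOn_const.mul ((pd_contDiffOn hA (hu k) i).add (pd_contDiffOn hA (hu i) k))
  exact h1.add h2

private theorem w6_compact {K U : Set (EE d)} (hK : IsCompact K) (hU : IsOpen U) (c : EE d) {r : ℝ}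
    (hr : 0 < r) (h : ∀ x ∈ K, ‖x - c‖ = r → x ∈ U) :
    ∃ e : ℝ, 0 < e ∧ e < r ∧ ∀ x ∈ K, r - e ≤ ‖x - c‖ → ‖x - c‖ ≤ r → x ∈ U := by
  have hcont : Continuous fun x : EE d => ‖x - c‖ := by fun_prop
  have hK' : IsCompact (K ∩ (Uᶜ ∩ {x | ‖x - c‖ ≤ r})) :=
    hK.inter_right (hU.isClosed_compl.inter (isClosed_le hcont continuous_const))
  rcases (K ∩ (Uᶜ ∩ {x | ‖x - c‖ ≤ r})).eq_empty_or_nonempty with he | hne
  · refine ⟨r / 2, by linarith, by linarith, fun x hx _ h2 => ?_⟩
    by_contra hxU
    have : x ∈ K ∩ (Uᶜ ∩ {x | ‖x - c‖ ≤ r}) := ⟨hx, hxU, h2⟩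
    rw [he] at this
    exact this
  · obtain ⟨x₀, hx₀, hmax⟩ := hK'.exists_isMaxOn hne hcont.continuousOn
    have h1 : ‖x₀ - c‖ < r := by
      refine lt_of_le_of_ne hx₀.2.2 fun h2 => ?_
      exact hx₀.2.1 (h x₀ hx₀.1 h2)
    refine ⟨min (r / 2) ((r - ‖x₀ - c‖) / 2), lt_min (by linarith) (by linarith),
      lt_of_le_of_lt (min_le_left _ _) (by linarith), fun x hx h2 h3 => ?_⟩
    by_contra hxU
    have h4 : ‖x - c‖ ≤ ‖x₀ - c‖ := hmax ⟨hx, hxU, h3⟩
    have h5 := min_le_right (r / 2) ((r - ‖x₀ - c‖) / 2)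
    linarith

private theorem w6_bound {S : Set (EE d)} {vol M : ℝ}
    (hfin : volume S < ⊤) (hvol : (volume S).toReal ≤ vol) {F : EE d → ℝ} (hM : 0 ≤ M)
    (h0 : ∀ x ∉ S, F x = 0) (h1 : ∀ x ∈ S, |F x| ≤ M) : |∫ x, F x| ≤ M * vol := by
  rw [← setIntegral_eq_integral_of_forall_compl_eq_zero h0, ← Real.norm_eq_abs]
  have h2 : ‖∫ x in S, F x‖ ≤ M * volume.real S :=
    norm_setIntegral_le_of_norm_le_const hfin fun x hx => by
      rw [Real.norm_eq_abs]
      exact h1 x hx
  exact h2.trans (mul_le_mul_of_nonneg_left hvol hM)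

private theorem w6_zero_of_near {u : EE d → ℝ} {x : EE d} (h : u =ᶠ[𝓝 x] fun _ => 0)
    (i : Fin d) : pd i u x = 0 := by
  rw [(pd_congr h i).self_of_nhds, pd_const]

private theorem w6_main {c : EE d} {r : ℝ} (hr : 0 < r) (hd : 1 ≤ d) {V B E : Set (EE d)}
    (hB : IsOpen B) (hcB : closedBall c r ⊆ B) (hE : IsOpen E)
    (hVE : V \ ball c r ⊆ E) {F G : Fin d → EE d → ℝ} (hFs : ∀ i, ContDiffOn ℝ ∞ (F i) B)
    (hGs : ∀ i, ContDiffOn ℝ ∞ (G i) E) (hFd : ∀ x ∈ B, ∑ i, pd i (F i) x = 0)
    (hGd : ∀ x ∈ E, ∑ i, pd i (G i) x = 0)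
    (hq : ∀ x ∈ V, ‖x - c‖ = r → ∑ i, (G i x - F i x) * (x i - c i) = 0)
    {φ : EE d → ℝ} (hφ : IsTest φ) (hφV : tsupport φ ⊆ V) :
    ∫ x, ∑ i, (if ‖x - c‖ < r then F i x else G i x) * pd i φ x = 0 := by
  by_cases hint : Integrable fun x => ∑ i, (if ‖x - c‖ < r then F i x else G i x) * pd i φ x
  swap
  · exact integral_undef hint
  have hncont : Continuous fun x : EE d => ‖x - c‖ := by fun_prop
  obtain ⟨C1, hC1, hshell⟩ := exists_shell c hr
  obtain ⟨C2, hC2, hvol⟩ := shell_volume hd c hr
  have hK : IsCompact (tsupport φ) := hφ.2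
  obtain ⟨M, hM⟩ := hφ.1.continuous.bounded_above_of_compact_support hφ.2
  have hM' : ∀ x, |φ x| ≤ M := fun x => by
    rw [← Real.norm_eq_abs]
    exact hM x
  have hM0 : 0 ≤ M := (abs_nonneg _).trans (hM' c)
  have hpdc : ∀ i, Continuous (pd i φ) := fun i => by
    have h1 : Continuous (fderiv ℝ φ) := hφ.1.continuous_fderiv (by simp)
    exact h1.clm_apply continuous_const
  have hpds : ∀ i, HasCompactSupport (pd i φ) := fun i =>
    hφ.2.fderiv_apply (𝕜 := ℝ) (EuclideanSpace.single i (1 : ℝ))
  have hpdt : ∀ i, tsupport (pd i φ) ⊆ tsupport φ := fun i =>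
    tsupport_fderiv_apply_subset ℝ (EuclideanSpace.single i (1 : ℝ))
  have hsph : ∀ x ∈ tsupport φ, ‖x - c‖ = r → x ∈ B ∩ E := by
    intro x hx h1
    refine ⟨hcB ?_, hVE ⟨hφV hx, ?_⟩⟩
    · rw [mem_closedBall, dist_eq_norm, h1]
    · rw [mem_ball, dist_eq_norm, h1]
      exact lt_irrefl r
  obtain ⟨e1, he1, he1r, hK1⟩ := w6_compact hK (hB.inter hE) c hr hsph
  -- the compact part of the first shell
  have hK1c : IsCompact (tsupport φ ∩ {x | r - e1 ≤ ‖x - c‖ ∧ ‖x - c‖ ≤ r}) :=
    hK.inter_right ((isClosed_le continuous_const hncont).inter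
      (isClosed_le hncont continuous_const))
  have hDc : ContinuousOn (fun x => ∑ i, |F i x - G i x| * |pd i φ x|)
      (tsupport φ ∩ {x | r - e1 ≤ ‖x - c‖ ∧ ‖x - c‖ ≤ r}) := by
    refine continuousOn_finsetSum _ fun i _ => ?_
    have h1 : ContinuousOn (F i) (tsupport φ ∩ {x | r - e1 ≤ ‖x - c‖ ∧ ‖x - c‖ ≤ r}) :=
      (hFs i).continuousOn.mono fun x hx => (hK1 x hx.1 hx.2.1 hx.2.2).1
    have h2 : ContinuousOn (G i) (tsupport φ ∩ {x | r - e1 ≤ ‖x - c‖ ∧ ‖x - c‖ ≤ r}) :=
      (hGs i).continuousOn.mono fun x hx => (hK1 x hx.1 hx.2.1 hx.2.2).2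
    exact (h1.sub h2).abs.mul (hpdc i).abs.continuousOn
  obtain ⟨M2, hM2⟩ := hK1c.exists_bound_of_continuousOn hDc
  have hM2' : ∀ x ∈ tsupport φ, r - e1 ≤ ‖x - c‖ → ‖x - c‖ ≤ r →
      ∑ i, |F i x - G i x| * |pd i φ x| ≤ |M2| := by
    intro x hx h1 h2
    have h3 := hM2 x ⟨hx, h1, h2⟩
    exact (Real.le_norm_self _).trans (h3.trans (le_abs_self _))
  have key : ∀ η : ℝ, 0 < η →
      |∫ x, ∑ i, (if ‖x - c‖ < r then F i x else G i x) * pd i φ x| ≤
        (C1 * M * C2 + |M2| * C2) * η := by
    intro η hη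
    have hqc : ContinuousOn (fun x : EE d => ∑ i, (G i x - F i x) * (x i - c i)) (B ∩ E) := by
      refine continuousOn_finsetSum _ fun i _ => ?_
      have h1 : ContinuousOn (F i) (B ∩ E) := (hFs i).continuousOn.mono inter_subset_left
      have h2 : ContinuousOn (G i) (B ∩ E) := (hGs i).continuousOn.mono inter_subset_right
      have h3 : Continuous fun x : EE d => x i - c i := by fun_prop
      exact (h2.sub h1).mul h3.continuousOn
    have hU := hqc.isOpen_inter_preimage (hB.inter hE) (isOpen_Ioo (a := -η) (b := η))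
    obtain ⟨e2, he2, -, hK2⟩ := w6_compact hK hU c hr (fun x hx h1 => by
      refine ⟨hsph x hx h1, ?_⟩
      show (∑ i, (G i x - F i x) * (x i - c i)) ∈ Ioo (-η) η
      rw [hq x (hφV hx) h1]
      exact ⟨by linarith, hη⟩)
    obtain ⟨e, he⟩ : ∃ e, e = min (min e1 e2) η := ⟨_, rfl⟩
    have he0 : 0 < e := by rw [he]; exact lt_min (lt_min he1 he2) hη
    have hee1 : e ≤ e1 := by rw [he]; exact (min_le_left _ _).trans (min_le_left _ _)
    have hee2 : e ≤ e2 := by rw [he]; exact (min_le_left _ _).trans (min_le_right _ _)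
    have heη : e ≤ η := by rw [he]; exact min_le_right _ _
    have her : e < r := lt_of_le_of_lt hee1 he1r
    obtain ⟨χ, hχs, hχ01, hχ1, hχ0, hβ, hp1, hp2⟩ := hshell e he0 her
    have hxE : ∀ x ∈ tsupport φ, r - e ≤ ‖x - c‖ → x ∈ E := by
      intro x hx h1
      rcases le_or_gt ‖x - c‖ r with h2 | h2
      · exact (hK1 x hx (by linarith) h2).2
      · refine hVE ⟨hφV hx, ?_⟩
        rw [mem_ball, dist_eq_norm]
        exact not_lt.2 h2.le
    have hin : ∀ x, ‖x - c‖ < r - e → ∀ᶠ y in 𝓝 x, χ y = 1 := by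
      intro x hx
      filter_upwards [(isOpen_lt hncont continuous_const).mem_nhds hx] with y hy
      exact hχ1 y (le_of_lt hy)
    have hout : ∀ x, r < ‖x - c‖ → ∀ᶠ y in 𝓝 x, χ y = 0 := by
      intro x hx
      filter_upwards [(isOpen_lt continuous_const hncont).mem_nhds hx] with y hy
      exact hχ0 y (le_of_lt hy)
    have hBout : ∀ x, x ∉ B → r < ‖x - c‖ := by
      intro x hx
      by_contra h1
      push Not at h1
      exact hx (hcB (by rw [mem_closedBall, dist_eq_norm]; exact h1))
    have hχd : ∀ x, DifferentiableAt ℝ χ x := fun x => hχs.contDiffAt.differentiableAt (by simp)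
    -- the two smooth functions
    have hu1 : ∀ i, ContDiff ℝ ∞ (fun x => χ x * F i x) := by
      intro i
      rw [contDiff_iff_contDiffAt]
      intro x
      by_cases hx : x ∈ B
      · exact hχs.contDiffAt.mul ((hFs i).contDiffAt (hB.mem_nhds hx))
      · have h1 : (fun x => χ x * F i x) =ᶠ[𝓝 x] fun _ => 0 := by
          filter_upwards [hout x (hBout x hx)] with y hy
          rw [hy, zero_mul]
        exact contDiffAt_const.congr_of_eventuallyEq h1
    have hW2 : IsOpen ({x : EE d | ‖x - c‖ < r - e} ∪ E) :=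
      (isOpen_lt hncont continuous_const).union hE
    have hφW2 : tsupport φ ⊆ {x : EE d | ‖x - c‖ < r - e} ∪ E := by
      intro x hx
      rcases lt_or_ge ‖x - c‖ (r - e) with h1 | h1
      · exact Or.inl h1
      · exact Or.inr (hxE x hx h1)
    have hu2 : ∀ i, ContDiffOn ℝ ∞ (fun x => (1 - χ x) * G i x)
        ({x : EE d | ‖x - c‖ < r - e} ∪ E) := by
      intro i x hx
      refine ContDiffAt.contDiffWithinAt ?_
      rcases hx with hx | hx
      · have h1 : (fun x => (1 - χ x) * G i x) =ᶠ[𝓝 x] fun _ => 0 := by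
          filter_upwards [hin x hx] with y hy
          rw [hy, sub_self, zero_mul]
        exact contDiffAt_const.congr_of_eventuallyEq h1
      · exact (contDiffAt_const.sub hχs.contDiffAt).mul ((hGs i).contDiffAt (hE.mem_nhds hx))
    have I1 : ∀ i, ∫ x, χ x * F i x * pd i φ x = - ∫ x, pd i (fun x => χ x * F i x) x * φ x :=
      fun i => (wd_smooth isOpen_univ (hu1 i).contDiffOn).2.2 φ hφ (subset_univ _) i
    have I2 : ∀ i, ∫ x, (1 - χ x) * G i x * pd i φ x =
        - ∫ x, pd i (fun x => (1 - χ x) * G i x) x * φ x :=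
      fun i => (wd_smooth hW2 (hu2 i)).2.2 φ hφ hφW2 i
    have J1 : ∀ i, Integrable fun x => χ x * F i x * pd i φ x := fun i =>
      l2loc_integrable (V := univ) (l2loc_of_continuousOn (hu1 i).continuous.continuousOn)
        (hpdc i) (hpds i) (subset_univ _)
    have J2 : ∀ i, Integrable fun x => (1 - χ x) * G i x * pd i φ x := fun i =>
      l2loc_integrable (l2loc_of_continuousOn (hu2 i).continuousOn)
        (hpdc i) (hpds i) ((hpdt i).trans hφW2)
    have J1' : ∀ i, Integrable fun x => pd i (fun x => χ x * F i x) x * φ x := fun i =>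
      l2loc_integrable (V := univ) (l2loc_of_continuousOn
        (pd_contDiffOn isOpen_univ (hu1 i).contDiffOn i).continuousOn)
        hφ.1.continuous hφ.2 (subset_univ _)
    have J2' : ∀ i, Integrable fun x => pd i (fun x => (1 - χ x) * G i x) x * φ x := fun i =>
      l2loc_integrable (l2loc_of_continuousOn (pd_contDiffOn hW2 (hu2 i) i).continuousOn)
        hφ.1.continuous hφ.2 hφW2
    have J3 : ∀ i, Integrable fun x =>
        χ x * F i x * pd i φ x + (1 - χ x) * G i x * pd i φ x := fun i => (J1 i).add (J2 i)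
    have J3' : ∀ i, Integrable fun x => pd i (fun x => χ x * F i x) x * φ x +
        pd i (fun x => (1 - χ x) * G i x) x * φ x := fun i => (J1' i).add (J2' i)
    -- the integral of the cut-off stresses
    have hh : ∫ x, ∑ i, (χ x * F i x * pd i φ x + (1 - χ x) * G i x * pd i φ x) =
        - ∫ x, ∑ i, (pd i (fun x => χ x * F i x) x * φ x +
          pd i (fun x => (1 - χ x) * G i x) x * φ x) := by
      rw [integral_finsetSum _ fun i _ => J3 i, integral_finsetSum _ fun i _ => J3' i,
        ← Finset.sum_neg_distrib]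
      refine Finset.sum_congr rfl fun i _ => ?_
      rw [integral_add (J1 i) (J2 i), integral_add (J1' i) (J2' i), I1 i, I2 i]
      ring
    have hhint : Integrable fun x =>
        ∑ i, (χ x * F i x * pd i φ x + (1 - χ x) * G i x * pd i φ x) :=
      integrable_finsetSum _ fun i _ => J3 i
    -- pointwise divergences
    have D1 : ∀ x, ∑ i, pd i (fun x => χ x * F i x) x = ∑ i, F i x * pd i χ x := by
      intro x
      by_cases hx : x ∈ B
      · have h1 : ∀ i, pd i (fun x => χ x * F i x) x = χ x * pd i (F i) x + F i x * pd i χ x :=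
          fun i => pd_mul (hχd x)
            (((hFs i).contDiffAt (hB.mem_nhds hx)).differentiableAt (by simp)) i
        rw [Finset.sum_congr rfl fun i _ => h1 i, Finset.sum_add_distrib, ← Finset.mul_sum,
          hFd x hx, mul_zero, zero_add]
      · have hx' := hBout x hx
        rw [Finset.sum_eq_zero, Finset.sum_eq_zero]
        · intro i _
          rw [hp2 x i hx', mul_zero]
        · intro i _
          refine w6_zero_of_near ?_ i
          filter_upwards [hout x hx'] with y hy
          rw [hy, zero_mul]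
    have D2 : ∀ x ∈ tsupport φ, ∑ i, pd i (fun x => (1 - χ x) * G i x) x =
        - ∑ i, G i x * pd i χ x := by
      intro x hx
      rcases lt_or_ge ‖x - c‖ (r - e) with h1 | h1
      · rw [Finset.sum_eq_zero, Finset.sum_eq_zero, neg_zero]
        · intro i _
          rw [hp1 x i h1, mul_zero]
        · intro i _
          refine w6_zero_of_near ?_ i
          filter_upwards [hin x h1] with y hy
          rw [hy, sub_self, zero_mul]
      · have hxE' := hxE x hx h1
        have h2 : ∀ i, pd i (fun x => (1 - χ x) * G i x) x =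
            (1 - χ x) * pd i (G i) x + G i x * (- pd i χ x) := by
          intro i
          have h3 : DifferentiableAt ℝ (fun x => 1 - χ x) x :=
            (differentiableAt_const _).sub (hχd x)
          rw [pd_mul h3 (((hGs i).contDiffAt (hE.mem_nhds hxE')).differentiableAt (by simp)) i,
            pd_sub (differentiableAt_const _) (hχd x) i, pd_const, zero_sub]
        rw [Finset.sum_congr rfl fun i _ => h2 i, Finset.sum_add_distrib, ← Finset.mul_sum,
          hGd x hxE', mul_zero, zero_add, ← Finset.sum_neg_distrib]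
        exact Finset.sum_congr rfl fun i _ => by ring
    have hP : ∀ x ∈ tsupport φ, ∑ i, (pd i (fun x => χ x * F i x) x * φ x +
          pd i (fun x => (1 - χ x) * G i x) x * φ x) =
        - (∑ i, (G i x - F i x) * pd i χ x) * φ x := by
      intro x hx
      rw [Finset.sum_add_distrib, ← Finset.sum_mul, ← Finset.sum_mul, D1 x, D2 x hx]
      have h1 : ∑ i, (G i x - F i x) * pd i χ x = ∑ i, G i x * pd i χ x - ∑ i, F i x * pd i χ x := by
        rw [← Finset.sum_sub_distrib]
        exact Finset.sum_congr rfl fun i _ => by ring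
      rw [h1]
      ring
    -- the shell
    have hSc : IsCompact {x : EE d | r - e ≤ ‖x - c‖ ∧ ‖x - c‖ ≤ r} := by
      refine (isCompact_closedBall c r).of_isClosed_subset
        ((isClosed_le continuous_const hncont).inter (isClosed_le hncont continuous_const)) ?_
      intro x hx
      rw [mem_closedBall, dist_eq_norm]
      exact hx.2
    have hSfin := hSc.measure_lt_top (μ := (volume : Measure (EE d)))
    have hSv := hvol e he0 her
    have B1 : |∫ x, ∑ i, (pd i (fun x => χ x * F i x) x * φ x +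
          pd i (fun x => (1 - χ x) * G i x) x * φ x)| ≤ C1 / e * η * M * (C2 * e) := by
      refine w6_bound hSfin hSv (by positivity) (fun x hx => ?_) (fun x hx => ?_)
      · by_cases hxK : x ∈ tsupport φ
        · rw [hP x hxK, Finset.sum_eq_zero, neg_zero, zero_mul]
          intro i _
          rcases lt_or_ge ‖x - c‖ (r - e) with h1 | h1
          · rw [hp1 x i h1, mul_zero]
          · have h2 : r < ‖x - c‖ := by
              by_contra h3
              exact hx ⟨h1, not_lt.1 h3⟩
            rw [hp2 x i h2, mul_zero]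
        · refine Finset.sum_eq_zero fun i _ => ?_
          rw [image_eq_zero_of_notMem_tsupport hxK, mul_zero, mul_zero, add_zero]
      · by_cases hxK : x ∈ tsupport φ
        · obtain ⟨β, hβ1, hβ2⟩ := hβ x
          have h1 : ∑ i, (G i x - F i x) * pd i χ x =
              β * ∑ i, (G i x - F i x) * (x i - c i) := by
            rw [Finset.mul_sum]
            refine Finset.sum_congr rfl fun i _ => ?_
            rw [hβ2 i]
            ring
          have h2 := (hK2 x hxK (by linarith [hx.1]) hx.2).2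
          have h3 : |∑ i, (G i x - F i x) * (x i - c i)| ≤ η := by
            rw [abs_le]
            exact ⟨h2.1.le, h2.2.le⟩
          rw [hP x hxK, h1, abs_mul, abs_neg, abs_mul]
          have h4 : |β| * |∑ i, (G i x - F i x) * (x i - c i)| ≤ C1 / e * η :=
            mul_le_mul hβ1 h3 (abs_nonneg _) (by positivity)
          exact mul_le_mul h4 (hM' x) (abs_nonneg _) (by positivity)
        · rw [Finset.sum_eq_zero, abs_zero]
          · positivity
          · intro i _
            rw [image_eq_zero_of_notMem_tsupport hxK, mul_zero, mul_zero, add_zero]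
    have B2 : |∫ x, (∑ i, (if ‖x - c‖ < r then F i x else G i x) * pd i φ x -
        ∑ i, (χ x * F i x * pd i φ x + (1 - χ x) * G i x * pd i φ x))| ≤ |M2| * (C2 * e) := by
      refine w6_bound hSfin hSv (abs_nonneg _) (fun x hx => ?_) (fun x hx => ?_)
      · rw [← Finset.sum_sub_distrib]
        refine Finset.sum_eq_zero fun i _ => ?_
        rcases lt_or_ge ‖x - c‖ (r - e) with h1 | h1
        · rw [if_pos (by linarith), hχ1 x h1.le]
          ring
        · have h2 : r < ‖x - c‖ := by
            by_contra h3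
            exact hx ⟨h1, not_lt.1 h3⟩
          rw [if_neg (not_lt.2 h2.le), hχ0 x h2.le]
          ring
      · rw [← Finset.sum_sub_distrib]
        by_cases hxK : x ∈ tsupport φ
        · refine le_trans ?_ (hM2' x hxK (by linarith [hx.1]) hx.2)
          refine (Finset.abs_sum_le_sum_abs _ _).trans (Finset.sum_le_sum fun i _ => ?_)
          rcases lt_or_ge ‖x - c‖ r with h1 | h1
          · rw [if_pos h1]
            have h2 : F i x * pd i φ x - (χ x * F i x * pd i φ x + (1 - χ x) * G i x * pd i φ x) =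
                (1 - χ x) * ((F i x - G i x) * pd i φ x) := by ring
            rw [h2, abs_mul, abs_mul (F i x - G i x)]
            have h3 : |1 - χ x| ≤ 1 := by
              rw [abs_le]
              constructor <;> linarith [(hχ01 x).1, (hχ01 x).2]
            exact mul_le_of_le_one_left (by positivity) h3
          · rw [if_neg (not_lt.2 h1), hχ0 x h1]
            have h2 : G i x * pd i φ x - (0 * F i x * pd i φ x + (1 - 0) * G i x * pd i φ x) = 0 := by
              ring
            rw [h2, abs_zero]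
            positivity
        · rw [Finset.sum_eq_zero, abs_zero]
          · exact abs_nonneg _
          · intro i _
            have h1 : pd i φ x = 0 :=
              image_eq_zero_of_notMem_tsupport fun h2 => hxK (hpdt i h2)
            rw [h1]
            ring
    have hsplit : ∫ x, ∑ i, (if ‖x - c‖ < r then F i x else G i x) * pd i φ x =
        (∫ x, (∑ i, (if ‖x - c‖ < r then F i x else G i x) * pd i φ x -
          ∑ i, (χ x * F i x * pd i φ x + (1 - χ x) * G i x * pd i φ x))) +
        ∫ x, ∑ i, (χ x * F i x * pd i φ x + (1 - χ x) * G i x * pd i φ x) := by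
      rw [integral_sub hint hhint]
      ring
    rw [hsplit, hh]
    refine (abs_add_le _ _).trans ?_
    rw [abs_neg]
    have c1 : C1 / e * η * M * (C2 * e) = C1 * M * C2 * η := by
      field_simp
    have c2 : |M2| * (C2 * e) ≤ |M2| * (C2 * η) :=
      mul_le_mul_of_nonneg_left (mul_le_mul_of_nonneg_left heη hC2.le) (abs_nonneg _)
    have c3 : (C1 * M * C2 + |M2| * C2) * η = C1 * M * C2 * η + |M2| * (C2 * η) := by ring
    linarith
  by_contra hne
  have hpos : 0 < |∫ x, ∑ i, (if ‖x - c‖ < r then F i x else G i x) * pd i φ x| :=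
    abs_pos.2 hne
  obtain ⟨I, hI⟩ : ∃ I, I = |∫ x, ∑ i, (if ‖x - c‖ < r then F i x else G i x) * pd i φ x| :=
    ⟨_, rfl⟩
  rw [← hI] at hpos key
  obtain ⟨C0, hC0⟩ : ∃ C0, C0 = C1 * M * C2 + |M2| * C2 := ⟨_, rfl⟩
  rw [← hC0] at key
  have hC0' : 0 ≤ C0 := by rw [hC0]; positivity
  have h1 := key (I / (2 * (C0 + 1))) (by positivity)
  have h2 : C0 * (I / (2 * (C0 + 1))) ≤ I / 2 := by
    rw [mul_div_assoc', div_le_div_iff₀ (by positivity) (by norm_num)]
    nlinarith
  linarith

theorem glue_weq (Z : Cst d) {c : EE d} {r : ℝ} (hr : 0 < r) {V B E : Set (EE d)}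
    (hV : IsOpen V) (hB : IsOpen B) (hcB : closedBall c r ⊆ B) (hE : IsOpen E)
    (hVE : V \ ball c r ⊆ E) {f g : Fin d → EE d → ℝ} (hf : IsLame Z.kap' B f)
    (hg : IsLame Z.kap E g)
    (h : ∀ x ∈ V, ‖x - c‖ = r → ∀ k, ∑ i, (x i - c i) * sig Z.lam' Z.mu' (grd f) i k x =
      ∑ i, (x i - c i) * sig Z.lam Z.mu (grd g) i k x) :
    WEq Z (ball c r) V (fun k i => glue c r (grd f k i) (grd g k i)) := by
  intro φ hφ hφV k
  have hd : 1 ≤ d := by
    have := Z.hd
    omega
  simp only [w6_tau]
  refine w6_main (F := fun i => sig Z.lam' Z.mu' (grd f) i k)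
    (G := fun i => sig Z.lam Z.mu (grd g) i k) hr hd hB hcB hE hVE
    (fun i => w6_sig_smooth _ _ hB (fun j => lame_smooth hB hf j) i k)
    (fun i => w6_sig_smooth _ _ hE (fun j => lame_smooth hE hg j) i k)
    (fun x hx => stress_div hB Z.hmu'.ne' hf hx k)
    (fun x hx => stress_div hE Z.hmu.ne' hg hx k) (fun x hx hxr => ?_) hφ hφV
  have h1 := h x hx hxr k
  have h2 : ∑ i, (sig Z.lam Z.mu (grd g) i k x - sig Z.lam' Z.mu' (grd f) i k x) * (x i - c i) =
      ∑ i, (x i - c i) * sig Z.lam Z.mu (grd g) i k x -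
        ∑ i, (x i - c i) * sig Z.lam' Z.mu' (grd f) i k x := by
    rw [← Finset.sum_sub_distrib]
    exact Finset.sum_congr rfl fun i _ => by ring
  rw [h2, h1, sub_self]

end Pool.Agent.MP_0643f8_an.U
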