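import Mathlib
import Pool.Agent.Lib.MP_0643f8_an.U.M4a_Back
import Pool.Agent.Lib.MP_0643f8_an.U.W6_Glue

/-!
# The exterior field of a solution is the explicit one

Notation: `back c r f x = f (r⁻¹ • (x - c))` transports fields of the unit ball to the ball
`(c, r)`; `back = aff (-(r⁻¹ • c)) r⁻¹`.
-/

set_option autoImplicit false

open MeasureTheory Metric Set Filter Topology
open scoped ContDiff

namespace Pool.Agent.MP_0643f8_an.U
variable {d : ℕ} (Z : Cst d)

/-- the explicit weak solution near the ball: with `û` equal to `back fv` in the ball and to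
`H + back fw` outside, where `H = back fH` near the closed ball -/
theorem explicit_weak {ρ : ℝ} (hρ : 1 < ρ) {D : Dat d} (hD : D.On (ball 0 ρ)) (c : EE d)
    {r : ℝ} (hr : 0 < r) {V : Set (EE d)} (hV : IsOpen V) {H : Fin d → EE d → ℝ}
    (hH : IsLame Z.kap V H) (hHD : ∀ x ∈ ball c (r * ρ) ∩ V, ∀ k, H k x = back c r (fH Z D) k x) :
    (∀ k, WD V (glue c r (back c r (fv Z D) k) (fun x => H k x + back c r (fw Z D) k x))
      (fun i => glue c r (grd (back c r (fv Z D)) k i)
        (grd (fun k x => H k x + back c r (fw Z D) k x) k i))) ∧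
    WEq Z (ball c r) V (fun k i => glue c r (grd (back c r (fv Z D)) k i)
        (grd (fun k x => H k x + back c r (fw Z D) k x) k i)) := by
  have hA : IsOpen (ball (0 : EE d) ρ) := isOpen_ball
  have hcont : Continuous fun x : EE d => r⁻¹ • (x - c) := by fun_prop
  have hnorm : ∀ x : EE d, ‖r⁻¹ • (x - c)‖ = r⁻¹ * ‖x - c‖ := fun x => by
    rw [norm_smul, Real.norm_eq_abs, abs_of_pos (inv_pos.2 hr)]
  set B : Set (EE d) := {x : EE d | r⁻¹ • (x - c) ∈ ball (0 : EE d) ρ} with hBdef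
  set E : Set (EE d) := V ∩ {x : EE d | r⁻¹ • (x - c) ∈ RS (ball (0 : EE d) ρ)} with hEdef
  have hB : IsOpen B := hA.preimage hcont
  have hE1 : IsOpen {x : EE d | r⁻¹ • (x - c) ∈ RS (ball (0 : EE d) ρ)} :=
    (isOpen_RS hA).preimage hcont
  have hE : IsOpen E := hV.inter hE1
  have hcB : closedBall c r ⊆ B := by
    intro x hx
    rw [mem_closedBall, dist_eq_norm] at hx
    show r⁻¹ • (x - c) ∈ ball (0 : EE d) ρ
    rw [mem_ball_zero_iff, hnorm]
    calc r⁻¹ * ‖x - c‖ ≤ r⁻¹ * r := mul_le_mul_of_nonneg_left hx (inv_pos.2 hr).le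
      _ = 1 := inv_mul_cancel₀ hr.ne'
      _ < ρ := hρ
  have hVE : V \ ball c r ⊆ E := by
    intro x hx
    refine ⟨hx.1, ?_⟩
    have hx2 : r ≤ ‖x - c‖ := by
      have := hx.2
      rw [mem_ball, dist_eq_norm, not_lt] at this
      exact this
    have h1 : 1 ≤ ‖r⁻¹ • (x - c)‖ := by
      rw [hnorm]
      calc (1 : ℝ) = r⁻¹ * r := (inv_mul_cancel₀ hr.ne').symm
        _ ≤ r⁻¹ * ‖x - c‖ := mul_le_mul_of_nonneg_left hx2 (inv_pos.2 hr).le
    have h0 : r⁻¹ • (x - c) ≠ 0 := by
      intro h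
      rw [h, norm_zero] at h1
      linarith
    refine ⟨h0, ?_⟩
    set y : EE d := r⁻¹ • (x - c) with hy
    have hy0 : 0 < ‖y‖ := norm_pos_iff.2 h0
    rw [mem_ball_zero_iff]
    unfold inv
    rw [norm_smul, norm_inv, norm_pow, norm_norm]
    have h2 : (‖y‖ ^ 2)⁻¹ * ‖y‖ = ‖y‖⁻¹ := by
      field_simp
    rw [h2]
    exact (inv_le_one_of_one_le₀ h1).trans_lt hρ
  have hfv : IsLame Z.kap' B (back c r (fv Z D)) := lame_back hA (lame_fv Z hA hD) c hr.ne'
  have hfw : IsLame Z.kap {x : EE d | r⁻¹ • (x - c) ∈ RS (ball (0 : EE d) ρ)}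
      (back c r (fw Z D)) := lame_back (isOpen_RS hA) (lame_fw Z hA hD) c hr.ne'
  have hg : IsLame Z.kap E (fun k x => H k x + back c r (fw Z D) k x) :=
    lame_add hE (lame_mono hH inter_subset_left) (lame_mono hfw inter_subset_right)
  have hmem : ∀ x ∈ V, ‖x - c‖ = r → x ∈ ball c (r * ρ) ∩ V := by
    intro x hx hxr
    refine ⟨?_, hx⟩
    rw [mem_ball, dist_eq_norm, hxr]
    nlinarith
  constructor
  · intro k
    refine glue_wd (one_le_two.trans Z.hd) hr hV hB hcB hE hVE (lame_smooth hB hfv k)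
      (lame_smooth hE hg k) fun x hx hxr => ?_
    rw [(back_match Z hρ hD c hr hxr).1 k, hHD x (hmem x hx hxr) k]
  · refine glue_weq Z hr hV hB hcB hE hVE hfv hg fun x hx hxr k => ?_
    rw [(back_match Z hρ hD c hr hxr).2 k]
    refine Finset.sum_congr rfl fun i _ => ?_
    have hopen : IsOpen (ball c (r * ρ) ∩ V) := isOpen_ball.inter hV
    have hcg : ∀ k, (fun y => back c r (fH Z D) k y + back c r (fw Z D) k y) =ᶠ[𝓝 x]
        fun y => H k y + back c r (fw Z D) k y := fun k => by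
      filter_upwards [hopen.mem_nhds (hmem x hx hxr)] with y hy
      rw [hHD y hy k]
    have hgr : ∀ k i, grd (fun k y => back c r (fH Z D) k y + back c r (fw Z D) k y) k i x =
        grd (fun k x => H k x + back c r (fw Z D) k x) k i x := fun k i =>
      (pd_congr (hcg k) i).self_of_nhds
    unfold sig
    simp only [hgr]

end Pool.Agent.MP_0643f8_an.U
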