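import Mathlib
import Pool.Agent.Lib.MP_0643f8_an.U.R2_Lame
import Pool.Agent.Lib.MP_0643f8_an.U.E2_Ray

/-!
# Every Lame field on a star-shaped open set is of the form `fH`

* `θ = dv H` is harmonic; `γ = θ(0)/(d c₀)`.
* `s` with `(2μ A M)(E) s = θ - θ(0)` (`inv_exists`, `m = 1`, `roots_AM`), `q` with
  `P_W(E) q = s` (`roots_PW`).
* `Φ = H - c₀ γ x - inW P_W q` is a Lame field with zero divergence (`dv_inW`), so its components
  are harmonic; `h = Φ(0)`; `σ = x·(Φ - h)` is harmonic (`hm_xdot`), `O(|x|²)`; `b` with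
  `E b = σ` (`inv_exists`, `m = 2`, root `0`), `p` with `P_U(E) p = b` (`roots_PU`).
* `T̃ = Φ - h - ∇b` is harmonic with `x·T̃ = σ - E b = 0`, `∇·T̃ = 0`, `T̃(0) = 0`; `T k` with
  `P_T(E) (T k) = T̃ k` (`roots_PT`). As `P_T = a X + b'`, `f = x·T` satisfies
  `a (E f - f) + b' f = 0` and is `O(|x|²)`, so `f = 0` by `ray_zero_real`; `g = ∇·T` satisfies
  `a (E g + g) + b' g = 0`, so `g = 0` (`m = 0`).
-/

set_option autoImplicit false

open MeasureTheory Metric Set Filter Topology Polynomial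
open scoped ContDiff

namespace Pool.Agent.MP_0643f8_an.U

variable {d : ℕ} (Z : Cst d)

private theorem r7_PT (f : EE d → ℝ) (x : EE d) :
    pE Z.PT f x = (Z.mu' + Z.mu) * eul f x + (Z.mu * ((d : ℝ) - 1) - Z.mu') * f x := by
  unfold Cst.PT
  rw [pE_add_left, pE_C_mul, pE_C_mul, pE_sub_left, pE_add_left, pE_X, pE_C, pE_one]
  ring

/-- the Euler operator of `x · T` -/
private theorem r7_eul_xdot {T : Fin d → EE d → ℝ} {x : EE d}
    (hT : ∀ k, DifferentiableAt ℝ (T k) x) :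
    eul (fun y : EE d => ∑ k, y k * T k y) x = ∑ k, x k * eul (T k) x + ∑ k, x k * T k x := by
  have hc : ∀ k : Fin d, DifferentiableAt ℝ (fun y : EE d => y k) x := fun k => by fun_prop
  have h1 : ∀ k, DifferentiableAt ℝ (fun y : EE d => y k * T k y) x := fun k =>
    (hc k).mul (hT k)
  have h2 : eul (fun y : EE d => ∑ k, y k * T k y) x =
      ∑ k, eul (fun y : EE d => y k * T k y) x := by
    unfold eul
    rw [fderiv_fun_sum fun k _ => h1 k, sum_apply]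
  rw [h2, ← Finset.sum_add_distrib]
  refine Finset.sum_congr rfl fun k _ => ?_
  rw [eul_mul (hc k) (hT k), eul_coord]
  ring

/-- the divergence and the Euler operator -/
private theorem r7_dv_eul {T : Fin d → EE d → ℝ} {A : Set (EE d)} (hA : IsOpen A)
    (hT : ∀ k, Hm A (T k)) {x : EE d} (hx : x ∈ A) :
    dv (fun k => eul (T k)) x = eul (dv T) x + dv T x := by
  have h1 : ∀ k, DifferentiableAt ℝ (pd k (T k)) x := fun k =>
    hm_diffAt (hm_pd hA (hT k) k) hA hx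
  have h2 : eul (dv T) x = ∑ k, eul (pd k (T k)) x := by
    have h3 : dv T = fun y => ∑ k, pd k (T k) y := rfl
    rw [h3]
    unfold eul
    rw [fderiv_fun_sum fun k _ => h1 k, sum_apply]
  rw [h2]
  unfold dv
  rw [← Finset.sum_add_distrib]
  exact Finset.sum_congr rfl fun k _ => pd_eul (hm_contDiffAt2 (hT k) hA hx) k

private theorem r7_vanO_xdot {T : Fin d → EE d → ℝ} (hT : ∀ k, VanO 1 (T k)) :
    VanO 2 (fun y : EE d => ∑ k, y k * T k y) := by
  choose C δ hδ hC using hT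
  rcases isEmpty_or_nonempty (Fin d) with he | he
  · refine ⟨0, 1, one_pos, fun x _ => ?_⟩
    simp
  · refine ⟨∑ k, C k, Finset.univ.inf' Finset.univ_nonempty δ,
      (Finset.lt_inf'_iff _).2 fun k _ => hδ k, fun x hx => ?_⟩
    rw [Finset.sum_mul]
    refine (norm_sum_le _ _).trans (Finset.sum_le_sum fun k _ => ?_)
    have h1 : ‖x‖ < δ k := hx.trans_le (Finset.inf'_le _ (Finset.mem_univ k))
    have h2 := hC k x h1
    have h3 : ‖x k‖ ≤ ‖x‖ := PiLp.norm_apply_le x k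
    rw [norm_mul]
    calc ‖x k‖ * ‖T k x‖ ≤ ‖x‖ * (C k * ‖x‖ ^ 1) :=
          mul_le_mul h3 h2 (norm_nonneg _) (norm_nonneg _)
      _ = C k * ‖x‖ ^ 2 := by ring

private theorem r7_ev {A : Set (EE d)} (hA : IsOpen A) {x : EE d} (hx : x ∈ A) {f g : EE d → ℝ}
    (h : ∀ y ∈ A, f y = g y) : f =ᶠ[𝓝 x] g :=
  Filter.eventually_of_mem (hA.mem_nhds hx) h

/-- the toroidal part -/
theorem exists_tor {A : Set (EE d)} (hA : StarO A) {S : Fin d → EE d → ℝ}
    (hS : ∀ k, Hm A (S k)) (hS0 : ∀ k, S k 0 = 0) (hxS : ∀ x ∈ A, ∑ k, x k * S k x = 0)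
    (hdS : ∀ x ∈ A, dv S x = 0) :
    ∃ T : Fin d → EE d → ℝ, (∀ k, Hm A (T k)) ∧ (∀ k, T k 0 = 0) ∧
      (∀ x ∈ A, ∑ k, x k * T k x = 0) ∧ (∀ x ∈ A, dv T x = 0) ∧
      ∀ k, ∀ x ∈ A, pE Z.PT (T k) x = S k x := by
  have h0 : (0 : EE d) ∈ A := hA.2.1
  have hex : ∀ k, ∃ f : EE d → ℝ, Hm A f ∧ VanO 1 f ∧ ∀ x ∈ A, pE Z.PT f x = S k x := fun k =>
    inv_exists Z.hd hA (roots_PT Z) (hS k) (vanO_one (hm_contDiffAt (hS k) hA.1 h0) (hS0 k))
  choose T hT hv hP using hex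
  have ha : 0 < Z.mu' + Z.mu := add_pos Z.hmu' Z.hmu
  have hd2 : (2 : ℝ) ≤ d := by exact_mod_cast Z.hd
  have hdiff : ∀ k, ∀ x ∈ A, DifferentiableAt ℝ (T k) x := fun k x hx => hm_diffAt (hT k) hA.1 hx
  refine ⟨T, hT, fun k => zero_of_vanO_one (hv k), ?_, ?_, hP⟩
  · -- `x · T`
    refine ray_zero_real hA (f := fun y : EE d => ∑ k, y k * T k y) (fun x hx => ?_)
      ((2 * Z.mu' - Z.mu * ((d : ℝ) - 2)) / (Z.mu' + Z.mu)) (m := 2) ?_ (r7_vanO_xdot hv) ?_
    · exact DifferentiableAt.fun_sum fun k _ =>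
        DifferentiableAt.mul (by fun_prop) (hdiff k x hx)
    · rw [div_lt_iff₀ ha]
      have h1 := Z.hmu
      have h2 : 0 ≤ Z.mu * ((d : ℝ) - 2) := mul_nonneg Z.hmu.le (by linarith)
      push_cast
      linarith
    · intro x hx
      have h1 : ∑ k, x k * pE Z.PT (T k) x = 0 := by
        rw [← hxS x hx]
        exact Finset.sum_congr rfl fun k _ => by rw [hP k x hx]
      have h2 : ∑ k, x k * pE Z.PT (T k) x = (Z.mu' + Z.mu) * ∑ k, x k * eul (T k) x +
          (Z.mu * ((d : ℝ) - 1) - Z.mu') * ∑ k, x k * T k x := by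
        rw [Finset.mul_sum, Finset.mul_sum, ← Finset.sum_add_distrib]
        refine Finset.sum_congr rfl fun k _ => ?_
        rw [r7_PT]
        ring
      rw [h1] at h2
      have h3 := r7_eul_xdot (T := T) (x := x) fun k => hdiff k x hx
      rw [h3, div_mul_eq_mul_div, eq_div_iff ha.ne']
      linear_combination -h2
  · -- the divergence
    have hdT : Hm A (dv T) := by
      have := hm_sum (Finset.univ : Finset (Fin d)) hA.1 (F := fun k => pd k (T k))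
        fun k _ => hm_pd hA.1 (hT k) k
      exact this
    refine ray_zero_real hA (f := dv T) (fun x hx => hm_diffAt hdT hA.1 hx)
      (-(Z.mu * d) / (Z.mu' + Z.mu)) (m := 0) ?_ ?_ ?_
    · rw [div_lt_iff₀ ha]
      have h1 : 0 < Z.mu * d := mul_pos Z.hmu (by linarith)
      push_cast
      linarith
    · have hc : ContinuousAt (dv T) 0 := (hm_diffAt hdT hA.1 h0).continuousAt
      obtain ⟨δ, hδ, hb⟩ := Metric.continuousAt_iff.1 hc 1 one_pos
      refine ⟨‖dv T 0‖ + 1, δ, hδ, fun x hx => ?_⟩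
      rw [pow_zero, mul_one]
      have h1 := hb (x := x) (by rwa [dist_zero_right])
      rw [dist_eq_norm] at h1
      have h2 : ‖dv T x‖ ≤ ‖dv T x - dv T 0‖ + ‖dv T 0‖ := by
        have := norm_add_le (dv T x - dv T 0) (dv T 0)
        rwa [sub_add_cancel] at this
      linarith
    · intro x hx
      have h1 : dv S x = (Z.mu' + Z.mu) * dv (fun k => eul (T k)) x +
          (Z.mu * ((d : ℝ) - 1) - Z.mu') * dv T x := by
        unfold dv
        rw [Finset.mul_sum, Finset.mul_sum, ← Finset.sum_add_distrib]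
        refine Finset.sum_congr rfl fun k _ => ?_
        have h2 : S k =ᶠ[𝓝 x] fun y => (Z.mu' + Z.mu) * eul (T k) y +
            (Z.mu * ((d : ℝ) - 1) - Z.mu') * T k y :=
          r7_ev hA.1 hx fun y hy => by rw [← hP k y hy, r7_PT]
        have h3 : DifferentiableAt ℝ (eul (T k)) x := hm_diffAt (hm_eul hA.1 (hT k)) hA.1 hx
        rw [(pd_congr h2 k).self_of_nhds, pd_add (h3.const_mul _) ((hdiff k x hx).const_mul _),
          pd_cmul h3, pd_cmul (hdiff k x hx)]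
      rw [hdS x hx, r7_dv_eul hA.1 hT hx] at h1
      rw [div_mul_eq_mul_div, eq_div_iff ha.ne']
      linear_combination -h1

theorem exists_data {A : Set (EE d)} (hA : StarO A) {H : Fin d → EE d → ℝ}
    (hH : IsLame Z.kap A H) : ∃ D : Dat d, D.On A ∧ ∀ x ∈ A, ∀ k, H k x = fH Z D k x := by
  have h0 : (0 : EE d) ∈ A := hA.2.1
  have hAo : IsOpen A := hA.1
  have hθ : Hm A (dv H) := hm_dv hAo hH
  have hd0 : (d : ℝ) ≠ 0 := by
    have : 2 ≤ d := Z.hd
    exact_mod_cast (by omega : d ≠ 0)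
  have hc0 : Z.c0 ≠ 0 := (c0_pos Z).ne'
  -- `s` and `q`
  have hg0 : Hm A (fun x => dv H x - dv H 0) := hm_sub hAo hθ (hm_const A _)
  obtain ⟨s, hs, hsv, hse⟩ := inv_exists Z.hd hA (roots_AM Z) hg0
    (vanO_one (hm_contDiffAt hg0 hAo h0) (sub_self _))
  obtain ⟨q, hq, hqv, hqe⟩ := inv_exists Z.hd hA (roots_PW Z) hs hsv
  have hW : IsLame Z.kap A (inW Z.lam Z.mu Z.PW q) := lame_inW hAo hq Z.hmu.ne' Z.PW
  have hWd : ∀ x ∈ A, dv (inW Z.lam Z.mu Z.PW q) x = dv H x - dv H 0 := by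
    intro x hx
    rw [dv_inW hAo hq _ _ _ hx, pE_mul hAo hq.1 _ _ hx,
      (pE_congr (r7_ev hAo hx hqe) _).eq_of_nhds]
    exact hse x hx
  set γ : ℝ := dv H 0 / (d * Z.c0) with hγ
  -- `Φ`
  have hdil : IsLame Z.kap A (fun k (x : EE d) => (Z.c0 * γ) * x k) := lame_dil _
  set Φ : Fin d → EE d → ℝ := fun k x =>
    (H k x - (Z.c0 * γ) * x k) - inW Z.lam Z.mu Z.PW q k x with hΦ
  have hHd : ∀ x ∈ A, ∀ k, DifferentiableAt ℝ (H k) x := fun x hx k =>
    ((lame_smooth hAo hH k).contDiffAt (hAo.mem_nhds hx)).differentiableAt (by simp)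
  have hWdf : ∀ x ∈ A, ∀ k, DifferentiableAt ℝ (inW Z.lam Z.mu Z.PW q k) x := fun x hx k =>
    ((lame_smooth hAo hW k).contDiffAt (hAo.mem_nhds hx)).differentiableAt (by simp)
  have hΦL : IsLame Z.kap A Φ := lame_sub hAo (lame_sub hAo hH hdil) hW
  have hΦd : ∀ x ∈ A, dv Φ x = 0 := by
    intro x hx
    have hl : ∀ k : Fin d, DifferentiableAt ℝ (fun y : EE d => (Z.c0 * γ) * y k) x := fun k => by
      fun_prop
    have e1 : dv Φ x = dv (fun k y => H k y - (Z.c0 * γ) * y k) x -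
        dv (inW Z.lam Z.mu Z.PW q) x :=
      dv_sub (u := fun k y => H k y - (Z.c0 * γ) * y k) (fun k => (hHd x hx k).sub (hl k))
        (hWdf x hx)
    have e2 : dv (fun k y => H k y - (Z.c0 * γ) * y k) x = dv H x -
        dv (fun k (y : EE d) => (Z.c0 * γ) * y k) x :=
      dv_sub (v := fun k (y : EE d) => (Z.c0 * γ) * y k) (hHd x hx) hl
    rw [e1, e2, hWd x hx, dv_dil, hγ]
    field_simp
    ring
  have hΦh : ∀ k, Hm A (Φ k) := hm_of_lame hAo hΦL hΦd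
  -- `Ψ = Φ - h`
  set Ψ : Fin d → EE d → ℝ := fun k x => Φ k x - Φ k 0 with hΨ
  have hΨh : ∀ k, Hm A (Ψ k) := fun k => hm_sub hAo (hΦh k) (hm_const A _)
  have hΨd : ∀ x ∈ A, dv Ψ x = 0 := by
    intro x hx
    rw [← hΦd x hx]
    unfold dv
    refine Finset.sum_congr rfl fun k _ => ?_
    have h1 := pd_sub (hm_diffAt (hΦh k) hAo hx)
      (differentiableAt_const (Φ k 0) : DifferentiableAt ℝ (fun _ : EE d => Φ k 0) x) k
    rw [pd_const, sub_zero] at h1
    exact h1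
  have hΨ0 : ∀ k, Ψ k 0 = 0 := fun k => sub_self _
  have hΨv : ∀ k, VanO 1 (Ψ k) := fun k =>
    vanO_one (hm_contDiffAt (hΨh k) hAo h0) (hΨ0 k)
  have hσ : Hm A (fun x : EE d => ∑ k, x k * Ψ k x) := hm_xdot hAo hΨh hΨd
  have hσv : VanO 2 (fun x : EE d => ∑ k, x k * Ψ k x) := r7_vanO_xdot hΨv
  have hX : RootsLt 2 (X : ℝ[X]) := by
    refine ⟨X_ne_zero, fun z hz => ?_⟩
    rw [Polynomial.map_X, eval_X] at hz
    rw [hz]
    norm_num
  obtain ⟨b, hb, hbv, hbe⟩ := inv_exists Z.hd hA hX hσ hσv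
  obtain ⟨p, hp, hpv, hpe⟩ := inv_exists Z.hd hA (roots_PU Z) hb hbv
  -- the toroidal part
  set S : Fin d → EE d → ℝ := fun k x => Ψ k x - pd k b x with hS
  have hSh : ∀ k, Hm A (S k) := fun k => hm_sub hAo (hΨh k) (hm_pd hAo hb k)
  have hS0 : ∀ k, S k 0 = 0 := fun k => by
    simp only [hS]
    rw [hΨ0 k, (zero_of_vanO_two hbv).2 k, sub_zero]
  have hxS : ∀ x ∈ A, ∑ k, x k * S k x = 0 := by
    intro x hx
    have h1 := hbe x hx
    rw [pE_X, eul_eq_sum] at h1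
    have h2 : ∑ k, x k * S k x = ∑ k, x k * Ψ k x - ∑ k, x k * pd k b x := by
      rw [← Finset.sum_sub_distrib]
      exact Finset.sum_congr rfl fun k _ => by simp only [hS]; ring
    rw [h2, h1, sub_self]
  have hdS : ∀ x ∈ A, dv S x = 0 := by
    intro x hx
    have h1 : dv S x = dv Ψ x - dv (fun k => pd k b) x :=
      dv_sub (u := Ψ) (v := fun k => pd k b) (fun k => hm_diffAt (hΨh k) hAo hx)
        fun k => hm_diffAt (hm_pd hAo hb k) hAo hx
    rw [h1, hΨd x hx]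
    have h2 : dv (fun k => pd k b) x = 0 := hb.2 x hx
    rw [h2, sub_zero]
  obtain ⟨T, hT, hT0, hxT, hdT, hTe⟩ := exists_tor Z hA hSh hS0 hxS hdS
  refine ⟨⟨p, q, T, fun k => Φ k 0, γ⟩, ⟨hp, hq, hT, (zero_of_vanO_two hpv).1,
    (zero_of_vanO_two hpv).2, zero_of_vanO_one hqv, hT0, hxT, hdT⟩, fun x hx k => ?_⟩
  have e1 : pd k (pE Z.PU p) x = pd k b x :=
    (pd_congr (r7_ev hAo hx hpe) k).self_of_nhds
  have e2 : pE Z.PT (T k) x = Ψ k x - pd k b x := hTe k x hx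
  have e3 : Ψ k x = Φ k x - Φ k 0 := rfl
  have e4 : Φ k x = (H k x - (Z.c0 * γ) * x k) - inW Z.lam Z.mu Z.PW q k x := rfl
  have e5 : fH Z ⟨p, q, T, fun k => Φ k 0, γ⟩ k x = Φ k 0 + Z.c0 * γ * x k +
      pd k (pE Z.PU p) x + inW Z.lam Z.mu Z.PW q k x + pE Z.PT (T k) x := rfl
  rw [e5, e1, e2, e3, e4]
  ring

end Pool.Agent.MP_0643f8_an.U
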