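import Mathlib
import Pool.Agent.Lib.MP_0643f8_an.U.W8_Energy

/-!
# A Liouville theorem for the transmission problem in the whole space

Test with `ψ_k = η² (z_k - m'_k)`, `Ψ_ki = η² G_ki + 2 η (z_k - m'_k) ∂ᵢη`
(`wd_mul` twice, `wd_smooth` for the constant):
`∫ η² eng(G,G) = - 2 ∫ η eng(G, ((z_k - m'_k) ∂ᵢη)_ki)`, so with `A = ∫ η² stn G`
`c A ≤ C ∫ η |∇η| |z - m'| sqrt(stn G)`.

`energy_step`: Cauchy-Schwarz gives
`(∫ η² stn G)² ≤ C (∫_{supp ∇η} η² stn G) (∫ |∇η|² |z - m'|²)`.

Take `η = 1` on the ball of radius `2^k R₀`, `0` off the ball of radius `2^(k+1) R₀`,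
`|∇η| ≤ C / 2^k`. If `d ≥ 3`, `m' = 0` and `∫ |∇η|² |z|² ≤ C 2^{-2k} 2^{2k(2-d)} 2^{kd} ≤ C`; if
`d = 2`, `m' = m log(2^k R₀)` and `|z - m'| ≤ C` on the annulus. So with
`a_k = ∫_{|x| ≤ 2^k R₀} stn G`, `a_k² ≤ C (a_{k+1} - a_k)`. With `m' = 0` the same inequality gives
`a_k ≤ C (1 + k)²`. Conclude with `seq_zero`.
-/

set_option autoImplicit false

open MeasureTheory Metric Set Filter Topology
open scoped ContDiff

namespace Pool.Agent.MP_0643f8_an.U
variable {d : ℕ} (Z : Cst d)

/-- growth of exterior fields: `O(|x|^{2-d})`, for `d = 2` up to a multiple of `log |x|` -/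
def Grw (z : Fin d → EE d → ℝ) : Prop :=
  ∃ (m : Fin d → ℝ) (C R : ℝ), 0 < R ∧ ∀ x : EE d, R < ‖x‖ → ∀ k,
    |z k x - (if d = 2 then m k * Real.log ‖x‖ else 0)| ≤ C * (‖x‖ ^ (d - 2))⁻¹

private theorem w10a_memLp {f φ : EE d → ℝ} (hf : L2loc univ f) (hφ : Continuous φ)
    (hc : HasCompactSupport φ) : MemLp (fun x => φ x * f x) 2 (volume : Measure (EE d)) := by
  have h1 : MemLp f 2 (volume.restrict (tsupport φ)) := hf _ hc (subset_univ _)
  obtain ⟨M, hM⟩ := hc.exists_bound_of_continuous hφ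
  have h2 : MemLp (fun x => φ x * f x) 2 (volume.restrict (tsupport φ)) := by
    refine h1.of_le_mul (c := M) (hφ.aestronglyMeasurable.mul h1.aestronglyMeasurable) ?_
    filter_upwards with x
    rw [norm_mul]
    exact mul_le_mul_of_nonneg_right (hM x) (norm_nonneg _)
  rw [← memLp_indicator_iff_restrict (isClosed_tsupport φ).measurableSet] at h2
  have e : ((tsupport φ).indicator fun x => φ x * f x) = fun x => φ x * f x := by
    funext x
    by_cases hx : x ∈ tsupport φ
    · rw [indicator_of_mem hx]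
    · rw [indicator_of_notMem hx, image_eq_zero_of_notMem_tsupport hx, zero_mul]
  rw [e] at h2
  exact h2

private theorem w10a_coef {D : Set (EE d)} (hD : MeasurableSet D) (a b : ℝ) {f : EE d → ℝ}
    (hf : Integrable f) : Integrable fun x => coef D a b x * f x := by
  have hm : Measurable (coef D a b) := measurable_const.add (measurable_const.indicator hD)
  refine hf.bdd_mul (c := |a| + |b - a|) hm.aestronglyMeasurable ?_
  filter_upwards with x
  unfold coef
  rw [Real.norm_eq_abs]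
  refine (abs_add_le _ _).trans ?_
  by_cases hx : x ∈ D
  · rw [indicator_of_mem hx]
  · rw [indicator_of_notMem hx, abs_zero]
    have := abs_nonneg (b - a)
    linarith

private theorem w10a_mul {f g : EE d → ℝ} (hf : MemLp f 2 (volume : Measure (EE d)))
    (hg : MemLp g 2 (volume : Measure (EE d))) : Integrable fun x => f x * g x :=
  MemLp.integrable_mul hf hg

private theorem w10a_eng {D : Set (EE d)} (hD : MeasurableSet D)
    {g h : Fin d → Fin d → EE d → ℝ} (hg : ∀ k i, MemLp (g k i) 2 (volume : Measure (EE d)))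
    (hh : ∀ k i, MemLp (h k i) 2 (volume : Measure (EE d))) :
    Integrable (eng Z D g h) := by
  have e : eng Z D g h = fun x => coef D Z.lam Z.lam' x * ((∑ j, g j j x) * (∑ j, h j j x)) +
      coef D Z.mu Z.mu' x * ((1 / 2) * ∑ k, ∑ i, (g k i x + g i k x) * (h k i x + h i k x)) := by
    funext x
    unfold eng
    ring
  rw [e]
  refine (w10a_coef hD _ _ ?_).add (w10a_coef hD _ _ ?_)
  · exact w10a_mul (memLp_finset_sum _ fun j _ => hg j j) (memLp_finset_sum _ fun j _ => hh j j)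
  · apply Integrable.const_mul
    refine integrable_finset_sum _ fun k _ => integrable_finset_sum _ fun i _ => ?_
    exact w10a_mul ((hg k i).add (hg i k)) ((hh k i).add (hh i k))

private theorem w10a_stn {g : Fin d → Fin d → EE d → ℝ}
    (hg : ∀ k i, MemLp (g k i) 2 (volume : Measure (EE d))) :
    Integrable (stn g) := by
  have e : stn g = fun x => ∑ k, ∑ i, (g k i x + g i k x) * (g k i x + g i k x) := by
    funext x
    unfold stn
    simp only [sq]
  rw [e]
  refine integrable_finset_sum _ fun k _ => integrable_finset_sum _ fun i _ => ?_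
  exact w10a_mul ((hg k i).add (hg i k)) ((hg k i).add (hg i k))

private theorem w10a_stn_nonneg (g : Fin d → Fin d → EE d → ℝ) (x : EE d) : 0 ≤ stn g x := by
  unfold stn
  positivity

private theorem w10a_cs {f g : EE d → ℝ} (hf : MemLp f 2 (volume : Measure (EE d)))
    (hg : MemLp g 2 (volume : Measure (EE d))) :
    (∫ x, f x * g x) ^ 2 ≤ (∫ x, f x ^ 2) * ∫ x, g x ^ 2 := by
  have hff : Integrable fun x => f x ^ 2 := by
    simpa only [sq] using w10a_mul hf hf
  have hgg : Integrable fun x => g x ^ 2 := by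
    simpa only [sq] using w10a_mul hg hg
  have hfg : Integrable fun x => f x * g x := w10a_mul hf hg
  have key : ∀ t : ℝ, 0 ≤ (∫ x, f x ^ 2) * (t * t) + (-2 * ∫ x, f x * g x) * t +
      ∫ x, g x ^ 2 := by
    intro t
    have h1 : 0 ≤ ∫ x, (t * f x - g x) ^ 2 := integral_nonneg fun x => sq_nonneg _
    have h2 : ∫ x, (t * f x - g x) ^ 2 =
        ∫ x, ((t * t) * f x ^ 2 + (-2 * t) * (f x * g x)) + g x ^ 2 := by
      congr 1
      funext x
      ring
    have h3 : ∫ x, (((t * t) * f x ^ 2 + (-2 * t) * (f x * g x)) + g x ^ 2) =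
        (∫ x, ((t * t) * f x ^ 2 + (-2 * t) * (f x * g x))) + ∫ x, g x ^ 2 :=
      integral_add ((hff.const_mul _).add (hfg.const_mul _)) hgg
    have h4 : ∫ x, ((t * t) * f x ^ 2 + (-2 * t) * (f x * g x)) =
        (∫ x, (t * t) * f x ^ 2) + ∫ x, (-2 * t) * (f x * g x) :=
      integral_add (hff.const_mul _) (hfg.const_mul _)
    rw [h2, h3, h4, integral_const_mul, integral_const_mul] at h1
    linarith
  have h := discrim_le_zero key
  unfold discrim at h
  nlinarith

theorem energy_step {D : Set (EE d)} (hD : MeasurableSet D) {z : Fin d → EE d → ℝ}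
    {G : Fin d → Fin d → EE d → ℝ} (hz : ∀ k, WD univ (z k) (G k)) (hw : WEq Z D univ G) :
    ∃ C : ℝ, 0 < C ∧ ∀ (η : EE d → ℝ) (m : Fin d → ℝ), IsTest η →
      (∫ x, η x ^ 2 * stn G x) ^ 2 ≤ C *
        (∫ x in {x | ∃ i, pd i η x ≠ 0}, η x ^ 2 * stn G x) *
        ∫ x, (∑ i, pd i η x ^ 2) * ∑ k, (z k x - m k) ^ 2 := by
  obtain ⟨c₁, hc₁, hco⟩ := eng_coercive Z
  obtain ⟨c₂, hc₂, hbd⟩ := eng_bound Z
  refine ⟨16 * (c₂ / c₁) ^ 2, by positivity, fun η m hη => ?_⟩
  have hηc : Continuous η := hη.1.continuous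
  have hpdc : ∀ i, Continuous (pd i η) := by
    intro i
    have h1 : Continuous (fderiv ℝ η) := hη.1.continuous_fderiv (by simp)
    exact h1.clm_apply continuous_const
  have hpds : ∀ i, HasCompactSupport (pd i η) := by
    intro i
    have h1 : HasCompactSupport (fderiv ℝ η) := hη.2.fderiv ℝ
    refine h1.mono ?_
    intro x hx
    rw [Function.mem_support] at hx ⊢
    intro h
    apply hx
    show fderiv ℝ η x _ = 0
    rw [h]
    rfl
  -- the weak derivatives of the test field
  have hzm : ∀ k, WD univ (fun x => z k x - m k) (G k) := by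
    intro k
    have h1 := wd_sub (hz k) (wd_smooth (V := univ) isOpen_univ
      (contDiffOn_const (c := m k) (n := ∞)))
    have e : (fun i x => G k i x - pd i (fun _ : EE d => m k) x) = G k := by
      funext i x
      rw [pd_const, sub_zero]
    rw [e] at h1
    exact h1
  obtain ⟨g, hg⟩ : ∃ g : Fin d → Fin d → EE d → ℝ, g = fun k i x => η x * G k i x := ⟨_, rfl⟩
  obtain ⟨R, hR⟩ : ∃ R : Fin d → Fin d → EE d → ℝ, R = fun k i x => pd i η x * (z k x - m k) :=
    ⟨_, rfl⟩
  have hgL : ∀ k i, MemLp (g k i) 2 (volume : Measure (EE d)) := by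
    intro k i
    rw [hg]
    exact w10a_memLp ((hz k).2.1 i) hηc hη.2
  have hRL : ∀ k i, MemLp (R k i) 2 (volume : Measure (EE d)) := by
    intro k i
    rw [hR]
    exact w10a_memLp (hzm k).1 (hpdc i) (hpds i)
  have htest : ∫ x, eng Z D G (fun k i x => η x * (g k i x + 2 * R k i x)) x = 0 := by
    have hψ : ∀ k, WD univ (fun x => η x * (η x * (z k x - m k)))
        (fun i x => η x * (g k i x + 2 * R k i x)) := by
      intro k
      have h1 := wd_mul isOpen_univ (hzm k) hη (subset_univ _)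
      have h2 := wd_mul isOpen_univ h1 hη (subset_univ _)
      convert h2 using 1
      funext i x
      rw [hg, hR]
      ring
    refine weq_test Z hD isOpen_univ (fun k i => (hz k).2.1 i) hw (K := tsupport η) hη.2
      (subset_univ _) hψ ?_ ?_
    · intro k x hx
      rw [image_eq_zero_of_notMem_tsupport hx, zero_mul]
    · intro k i x hx
      rw [image_eq_zero_of_notMem_tsupport hx, zero_mul]
  have hsplit : ∀ x, eng Z D G (fun k i x => η x * (g k i x + 2 * R k i x)) x =
      eng Z D g g x + 2 * eng Z D g R x := by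
    intro x
    unfold eng
    have e1 : ∑ j, η x * (g j j x + 2 * R j j x) =
        η x * ∑ j, g j j x + 2 * (η x * ∑ j, R j j x) := by
      rw [← Finset.mul_sum, Finset.sum_add_distrib, ← Finset.mul_sum]
      ring
    have e2 : ∑ j, g j j x = η x * ∑ j, G j j x := by
      rw [Finset.mul_sum, hg]
    have e3 : ∑ k, ∑ i, (G k i x + G i k x) * (η x * (g k i x + 2 * R k i x) +
        η x * (g i k x + 2 * R i k x)) =
        ∑ k, ∑ i, (g k i x + g i k x) * (g k i x + g i k x) +
        2 * ∑ k, ∑ i, (g k i x + g i k x) * (R k i x + R i k x) := by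
      rw [Finset.mul_sum, ← Finset.sum_add_distrib]
      refine Finset.sum_congr rfl fun k _ => ?_
      rw [Finset.mul_sum, ← Finset.sum_add_distrib]
      refine Finset.sum_congr rfl fun i _ => ?_
      rw [hg]
      ring
    simp only
    rw [e1, e3, e2]
    ring
  have hgg := w10a_eng Z hD hgL hgL
  have hgR := w10a_eng Z hD hgL hRL
  have hid : ∫ x, eng Z D g g x = -2 * ∫ x, eng Z D g R x := by
    have h1 : ∫ x, (eng Z D g g x + 2 * eng Z D g R x) = 0 := by
      rw [← htest]
      congr 1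
      funext x
      rw [hsplit]
    rw [integral_add hgg (hgR.const_mul 2), integral_const_mul] at h1
    linarith
  -- the set where the gradient does not vanish
  obtain ⟨E, hE⟩ : ∃ E : Set (EE d), E = {x | ∃ i, pd i η x ≠ 0} := ⟨_, rfl⟩
  have hEm : MeasurableSet E := by
    have : E = ⋃ i, {x | pd i η x ≠ 0} := by
      rw [hE]
      ext x
      simp
    rw [this]
    refine MeasurableSet.iUnion fun i => ?_
    exact (isOpen_ne_fun (hpdc i) continuous_const).measurableSet
  have hstn : ∀ x, stn g x = η x ^ 2 * stn G x := by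
    intro x
    unfold stn
    rw [Finset.mul_sum]
    refine Finset.sum_congr rfl fun k _ => ?_
    rw [Finset.mul_sum]
    refine Finset.sum_congr rfl fun i _ => ?_
    rw [hg]
    ring
  have hsg := w10a_stn hgL
  have hsR := w10a_stn hRL
  have hA : (∫ x, η x ^ 2 * stn G x) = ∫ x, stn g x := by
    congr 1
    funext x
    rw [hstn]
  rw [← hE, hA]
  obtain ⟨f₁, hf₁⟩ : ∃ f₁ : EE d → ℝ, f₁ = E.indicator fun x => Real.sqrt (stn g x) := ⟨_, rfl⟩
  obtain ⟨f₂, hf₂⟩ : ∃ f₂ : EE d → ℝ, f₂ = fun x => Real.sqrt (stn R x) := ⟨_, rfl⟩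
  have hf₁sq : (fun x => f₁ x ^ 2) = E.indicator (stn g) := by
    funext x
    rw [hf₁]
    by_cases hx : x ∈ E
    · rw [indicator_of_mem hx, indicator_of_mem hx, Real.sq_sqrt (w10a_stn_nonneg g x)]
    · rw [indicator_of_notMem hx, indicator_of_notMem hx]
      ring
  have hf₂sq : (fun x => f₂ x ^ 2) = stn R := by
    funext x
    rw [hf₂]
    exact Real.sq_sqrt (w10a_stn_nonneg R x)
  have hf₁m : AEStronglyMeasurable f₁ (volume : Measure (EE d)) := by
    rw [hf₁]
    exact (Real.continuous_sqrt.comp_aestronglyMeasurable hsg.aestronglyMeasurable).indicator hEm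
  have hf₂m : AEStronglyMeasurable f₂ (volume : Measure (EE d)) := by
    rw [hf₂]
    exact Real.continuous_sqrt.comp_aestronglyMeasurable hsR.aestronglyMeasurable
  have hf₁L : MemLp f₁ 2 (volume : Measure (EE d)) := by
    rw [memLp_two_iff_integrable_sq hf₁m, hf₁sq]
    exact hsg.indicator hEm
  have hf₂L : MemLp f₂ 2 (volume : Measure (EE d)) := by
    rw [memLp_two_iff_integrable_sq hf₂m, hf₂sq]
    exact hsR
  have hcs := w10a_cs hf₁L hf₂L
  rw [hf₁sq, hf₂sq, integral_indicator hEm] at hcs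
  have hEint : ∫ x in E, stn g x = ∫ x in E, η x ^ 2 * stn G x := by
    congr 1
    funext x
    rw [hstn]
  -- pointwise bound
  have hpt : ∀ x, |eng Z D g R x| ≤ c₂ * (f₁ x * f₂ x) := by
    intro x
    by_cases hx : x ∈ E
    · rw [hf₁, hf₂, indicator_of_mem hx, ← mul_assoc]
      exact hbd D g R x
    · have hR0 : stn R x = 0 := by
        unfold stn
        refine Finset.sum_eq_zero fun k _ => Finset.sum_eq_zero fun i _ => ?_
        have h1 : ∀ i, pd i η x = 0 := by
          intro i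
          by_contra h
          apply hx
          rw [hE]
          exact ⟨i, h⟩
        rw [hR]
        simp only
        rw [h1, h1]
        ring
      have h1 := hbd D g R x
      rw [hR0, Real.sqrt_zero, mul_zero] at h1
      rw [hf₁, indicator_of_notMem hx, zero_mul, mul_zero]
      exact h1
  have habs : |∫ x, eng Z D g R x| ≤ c₂ * ∫ x, f₁ x * f₂ x := by
    refine (abs_integral_le_integral_abs).trans ?_
    rw [← integral_const_mul]
    exact integral_mono hgR.abs ((w10a_mul hf₁L hf₂L).const_mul _) hpt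
  have hcoer : c₁ * ∫ x, stn g x ≤ ∫ x, eng Z D g g x := by
    rw [← integral_const_mul]
    exact integral_mono (hsg.const_mul _) hgg fun x => hco D g x
  have hA0 : 0 ≤ ∫ x, stn g x := integral_nonneg fun x => w10a_stn_nonneg g x
  have hmain : c₁ * ∫ x, stn g x ≤ 2 * (c₂ * ∫ x, f₁ x * f₂ x) := by
    refine hcoer.trans ?_
    rw [hid]
    have := neg_abs_le (∫ x, eng Z D g R x)
    linarith
  have hRle : ∫ x, stn R x ≤ 4 * ∫ x, (∑ i, pd i η x ^ 2) * ∑ k, (z k x - m k) ^ 2 := by
    rw [← integral_const_mul]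
    have e : (fun x => 4 * ((∑ i, pd i η x ^ 2) * ∑ k, (z k x - m k) ^ 2)) =
        fun x => 4 * ∑ k, ∑ i, R k i x * R k i x := by
      funext x
      rw [mul_comm (∑ i, pd i η x ^ 2), Finset.sum_mul_sum]
      congr 1
      refine Finset.sum_congr rfl fun k _ => Finset.sum_congr rfl fun i _ => ?_
      rw [hR]
      ring
    rw [e]
    refine integral_mono hsR ?_ ?_
    · apply Integrable.const_mul
      exact integrable_finset_sum _ fun k _ => integrable_finset_sum _ fun i _ =>
        w10a_mul (hRL k i) (hRL k i)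
    · intro x
      have h1 := stn_le R x
      simp only [sq] at h1
      exact h1
  have hE0 : 0 ≤ ∫ x in E, η x ^ 2 * stn G x := by
    rw [← hEint]
    exact integral_nonneg fun x => w10a_stn_nonneg g x
  rw [hEint] at hcs
  obtain ⟨A, hAe⟩ : ∃ A, A = ∫ x, stn g x := ⟨_, rfl⟩
  obtain ⟨I, hIe⟩ : ∃ I, I = ∫ x, f₁ x * f₂ x := ⟨_, rfl⟩
  obtain ⟨P, hPe⟩ : ∃ P, P = ∫ x in E, η x ^ 2 * stn G x := ⟨_, rfl⟩
  obtain ⟨S, hSe⟩ : ∃ S, S = ∫ x, stn R x := ⟨_, rfl⟩
  obtain ⟨T, hTe⟩ : ∃ T, T = ∫ x, (∑ i, pd i η x ^ 2) * ∑ k, (z k x - m k) ^ 2 := ⟨_, rfl⟩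
  rw [← hAe, ← hIe] at hmain
  rw [← hIe, ← hPe, ← hSe] at hcs
  rw [← hSe, ← hTe] at hRle
  rw [← hPe] at hE0
  rw [← hAe] at hA0
  rw [← hAe, ← hPe, ← hTe]
  have h1 : A ≤ 2 * (c₂ / c₁) * I := by
    have : 2 * (c₂ / c₁) * I = (2 * (c₂ * I)) / c₁ := by ring
    rw [this, le_div_iff₀ hc₁]
    linarith
  have h2 : A ^ 2 ≤ (2 * (c₂ / c₁) * I) ^ 2 := pow_le_pow_left₀ hA0 h1 2
  have h3 : (2 * (c₂ / c₁) * I) ^ 2 = 4 * (c₂ / c₁) ^ 2 * I ^ 2 := by ring
  have h4 : 4 * (c₂ / c₁) ^ 2 * I ^ 2 ≤ 4 * (c₂ / c₁) ^ 2 * (P * S) :=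
    mul_le_mul_of_nonneg_left hcs (by positivity)
  have h5 : P * S ≤ P * (4 * T) := mul_le_mul_of_nonneg_left hRle hE0
  have h6 : 4 * (c₂ / c₁) ^ 2 * (P * S) ≤ 4 * (c₂ / c₁) ^ 2 * (P * (4 * T)) :=
    mul_le_mul_of_nonneg_left h5 (by positivity)
  calc A ^ 2 ≤ 4 * (c₂ / c₁) ^ 2 * (P * (4 * T)) := by linarith
    _ = 16 * (c₂ / c₁) ^ 2 * P * T := by ring

end Pool.Agent.MP_0643f8_an.U
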