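import Mathlib

/-!
# A sequence lemma

If `a k > 0` for some `k` then `a` is increasing, unbounded, `a (k+1) ≥ 2 a k` for large `k`, which
contradicts polynomial growth.
-/

set_option autoImplicit false

namespace Pool.Agent.MP_0643f8_an.U

theorem seq_zero {a : ℕ → ℝ} (ha : ∀ k, 0 ≤ a k) {C : ℝ} (hC : 0 < C)
    (h₁ : ∀ k, a k ^ 2 ≤ C * (a (k + 1) - a k)) (h₂ : ∀ k : ℕ, a k ≤ C * (1 + k) ^ 2) (k : ℕ) :
    a k = 0 := by
  by_contra hne
  have hpos : 0 < a k := lt_of_le_of_ne (ha k) (Ne.symm hne)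
  have step1 : ∀ j : ℕ, a k + j * (a k ^ 2 / C) ≤ a (k + j) := by
    intro j
    induction j with
    | zero => simp
    | succ j ih =>
      have h0 : 0 ≤ (j : ℝ) * (a k ^ 2 / C) := by positivity
      have h3 : a k ≤ a (k + j) := by linarith
      have h4 : a k ^ 2 ≤ a (k + j) ^ 2 := pow_le_pow_left₀ hpos.le h3 2
      have h5 := h₁ (k + j)
      have h6 : a k ^ 2 / C ≤ a (k + j + 1) - a (k + j) := by
        rw [div_le_iff₀ hC]
        linarith
      push_cast
      have h7 : k + (j + 1) = k + j + 1 := by ring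
      rw [h7]
      linarith
  have hq : 0 < a k ^ 2 / C := by positivity
  obtain ⟨j0, hj0⟩ := exists_nat_ge (C / (a k ^ 2 / C))
  have hK : C ≤ a (k + j0) := by
    have h1 := step1 j0
    have h2 : C ≤ j0 * (a k ^ 2 / C) := by
      rwa [div_le_iff₀ hq] at hj0
    linarith
  have step2 : ∀ j : ℕ, 2 ^ j * C ≤ a (k + j0 + j) := by
    intro j
    induction j with
    | zero => simpa using hK
    | succ j ih =>
      have h1 : (1 : ℝ) ≤ 2 ^ j := one_le_pow₀ (by norm_num)
      have h3 : C ≤ a (k + j0 + j) := by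
        have : C ≤ 2 ^ j * C := by nlinarith
        linarith
      have h5 := h₁ (k + j0 + j)
      have h6 : C * a (k + j0 + j) ≤ a (k + j0 + j) ^ 2 := by
        rw [pow_two]
        exact mul_le_mul_of_nonneg_right h3 (ha _)
      have h7 : a (k + j0 + j) ≤ a (k + j0 + j + 1) - a (k + j0 + j) := by
        have h8 : C * a (k + j0 + j) ≤ C * (a (k + j0 + j + 1) - a (k + j0 + j)) := h6.trans h5
        exact le_of_mul_le_mul_left h8 hC
      have h9 : k + j0 + (j + 1) = k + j0 + j + 1 := by ring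
      rw [h9, pow_succ]
      linarith
  have hT := tendsto_pow_const_div_const_pow_of_one_lt 2 (by norm_num : (1 : ℝ) < 2)
  have hev := hT.eventually (gt_mem_nhds (show (0 : ℝ) < 1 / 2 ^ (1 + (k + j0)) by positivity))
  obtain ⟨N, hN⟩ := hev.exists_forall_of_atTop
  have hN2 := hN (1 + (k + j0) + N) (by omega)
  have h3 : ((1 + (k + j0) + N : ℕ) : ℝ) ^ 2 < 2 ^ N := by
    have h4 : (2 : ℝ) ^ (1 + (k + j0) + N) = 2 ^ (1 + (k + j0)) * 2 ^ N := by
      rw [pow_add]
    rw [h4, div_lt_div_iff₀ (by positivity) (by positivity)] at hN2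
    have h5 : (0 : ℝ) < 2 ^ (1 + (k + j0)) := by positivity
    have h6 : ((1 + (k + j0) + N : ℕ) : ℝ) ^ 2 * 2 ^ (1 + (k + j0))
        < 2 ^ N * 2 ^ (1 + (k + j0)) := by
      linarith
    exact lt_of_mul_lt_mul_right h6 h5.le
  have h4 := step2 N
  have h5 := h₂ (k + j0 + N)
  have h6 : (1 + ((k + j0 + N : ℕ) : ℝ)) = ((1 + (k + j0) + N : ℕ) : ℝ) := by
    push_cast; ring
  rw [h6] at h5
  have h7 : C * ((1 + (k + j0) + N : ℕ) : ℝ) ^ 2 < C * 2 ^ N := mul_lt_mul_of_pos_left h3 hC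
  linarith

end Pool.Agent.MP_0643f8_an.U
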