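import Mathlib
import Pool.Agent.Lib.MP_0643f8_an.U.W10a_Step
import Pool.Agent.Lib.MP_0643f8_an.U.W9_Seq

/-!
# A Liouville theorem for the transmission problem in the whole space

Test with `ψ_k = η² (z_k - m'_k)`, `Ψ_ki = η² G_ki + 2 η (z_k - m'_k) ∂ᵢη`
(`wd_mul` twice, `wd_smooth` for the constant):
`∫ η² eng(G,G) = - 2 ∫ η eng(G, ((z_k - m'_k) ∂ᵢη)_ki)`, so with `A = ∫ η² stn G`
`c A ≤ C ∫ η |∇η| |z - m'| sqrt(stn G)`.

`energy_step`: Cauchy-Schwarz gives
`(∫ η² stn G)² ≤ C (∫_{supp ∇η} η² stn G) (∫ |∇η|² |z - m'|²)`.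

Take `η = 1` on the ball of radius `2^k R₀`, `0` off the ball of radius `2^(k+1) R₀`,
`|∇η| ≤ C / 2^k`. If `d ≥ 3`, `m' = 0` and `∫ |∇η|² |z|² ≤ C 2^{-2k} 2^{2k(2-d)} 2^{kd} ≤ C`; if
`d = 2`, `m' = m log(2^k R₀)` and `|z - m'| ≤ C` on the annulus. So with
`a_k = ∫_{|x| ≤ 2^k R₀} stn G`, `a_k² ≤ C (a_{k+1} - a_k)`. With `m' = 0` the same inequality gives
`a_k ≤ C (1 + k)²`. Conclude with `seq_zero`.
-/

set_option autoImplicit false

open MeasureTheory Metric Set Filter Topology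
open scoped ContDiff

namespace Pool.Agent.MP_0643f8_an.U
variable {d : ℕ} (Z : Cst d)

/-- cutoffs -/
private theorem liou_cut (d : ℕ) : ∃ M : ℝ, 0 < M ∧ ∀ ρ : ℝ, 1 ≤ ρ → ∃ η : EE d → ℝ,
    IsTest η ∧ (∀ x, 0 ≤ η x ∧ η x ≤ 1) ∧ (∀ x ∈ ball (0 : EE d) ρ, η x = 1) ∧
    (∀ x ∉ ball (0 : EE d) (2 * ρ), η x = 0) ∧
    (∀ i, ∀ x ∈ ball (0 : EE d) ρ, pd i η x = 0) ∧
    (∀ i, ∀ x ∉ closedBall (0 : EE d) (2 * ρ), pd i η x = 0) ∧
    ∀ i x, |pd i η x| ≤ M * ρ⁻¹ := by
  let χ : ContDiffBump (0 : EE d) := ⟨1, 2, by norm_num, by norm_num⟩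
  have hχ : ContDiff ℝ ∞ (χ : EE d → ℝ) := χ.contDiff
  have hcs : HasCompactSupport (χ : EE d → ℝ) := χ.hasCompactSupport
  obtain ⟨M, hM⟩ := (hχ.continuous_fderiv (by simp)).bounded_above_of_compact_support
    (hcs.fderiv ℝ)
  have hpd : ∀ (i : Fin d) (y : EE d), |pd i (χ : EE d → ℝ) y| ≤ |M| + 1 := by
    intro i y
    have h1 : |pd i (χ : EE d → ℝ) y| ≤ ‖fderiv ℝ (χ : EE d → ℝ) y‖ *
        ‖(EuclideanSpace.single i (1 : ℝ) : EE d)‖ :=
      (fderiv ℝ (χ : EE d → ℝ) y).le_opNorm _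
    have h2 : ‖(EuclideanSpace.single i (1 : ℝ) : EE d)‖ = 1 := by simp
    rw [h2, mul_one] at h1
    have h3 := hM y
    have h4 := le_abs_self M
    linarith
  refine ⟨|M| + 1, by positivity, fun ρ hρ => ?_⟩
  have hρ0 : 0 < ρ := by linarith
  have hρi : 0 < ρ⁻¹ := inv_pos.2 hρ0
  set η : EE d → ℝ := fun x => χ (0 + ρ⁻¹ • x) with hη
  have hηp : ∀ i x, pd i η x = ρ⁻¹ * pd i (χ : EE d → ℝ) (0 + ρ⁻¹ • x) := fun i x =>
    pd_affine ((hχ.differentiable (by simp)) _) i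
  have hηc : ContDiff ℝ ∞ η := by
    apply hχ.comp
    exact contDiff_const.add (contDiff_id.const_smul ρ⁻¹)
  have hη1 : ∀ x ∈ ball (0 : EE d) ρ, η x = 1 := by
    intro x hx
    apply χ.one_of_mem_closedBall
    rw [mem_closedBall_zero_iff, zero_add, norm_smul, Real.norm_eq_abs, abs_of_pos hρi]
    rw [mem_ball_zero_iff] at hx
    show ρ⁻¹ * ‖x‖ ≤ 1
    rw [inv_mul_le_iff₀ hρ0]
    linarith
  have hη0 : ∀ x ∉ ball (0 : EE d) (2 * ρ), η x = 0 := by
    intro x hx
    apply χ.zero_of_le_dist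
    rw [dist_zero_right, zero_add, norm_smul, Real.norm_eq_abs, abs_of_pos hρi]
    rw [mem_ball_zero_iff, not_lt] at hx
    show 2 ≤ ρ⁻¹ * ‖x‖
    rw [le_inv_mul_iff₀ hρ0]
    linarith
  have hp1 : ∀ i, ∀ x ∈ ball (0 : EE d) ρ, pd i η x = 0 := by
    intro i x hx
    have h1 : η =ᶠ[𝓝 x] fun _ => (1 : ℝ) := by
      filter_upwards [isOpen_ball.mem_nhds hx] with y hy
      exact hη1 y hy
    rw [(pd_congr h1 i).self_of_nhds, pd_const]
  have hp2 : ∀ i, ∀ x ∉ closedBall (0 : EE d) (2 * ρ), pd i η x = 0 := by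
    intro i x hx
    have h1 : η =ᶠ[𝓝 x] fun _ => (0 : ℝ) := by
      filter_upwards [isClosed_closedBall.isOpen_compl.mem_nhds hx] with y hy
      exact hη0 y fun h => hy (ball_subset_closedBall h)
    rw [(pd_congr h1 i).self_of_nhds, pd_const]
  refine ⟨η, ⟨hηc, ?_⟩, fun x => ⟨χ.nonneg, χ.le_one⟩, hη1, hη0, hp1, hp2, ?_⟩
  · apply HasCompactSupport.intro (isCompact_closedBall (0 : EE d) (2 * ρ))
    intro x hx
    exact hη0 x fun h => hx (ball_subset_closedBall h)
  · intro i x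
    rw [hηp, abs_mul, abs_of_pos hρi, mul_comm]
    exact mul_le_mul_of_nonneg_right (hpd _ _) hρi.le

private theorem stn_nonneg' (G : Fin d → Fin d → EE d → ℝ) (x : EE d) : 0 ≤ stn G x :=
  Finset.sum_nonneg fun _ _ => Finset.sum_nonneg fun _ _ => sq_nonneg _

private theorem stn_int {G : Fin d → Fin d → EE d → ℝ} (hG : ∀ k i, L2loc univ (G k i))
    (ρ : ℝ) : IntegrableOn (stn G) (closedBall (0 : EE d) ρ) := by
  have h1 : ∀ k i, MemLp (G k i) 2 (volume.restrict (closedBall (0 : EE d) ρ)) := fun k i =>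
    hG k i _ (isCompact_closedBall _ _) (subset_univ _)
  have h2 : ∀ k i, Integrable (fun x => (G k i x + G i k x) ^ 2)
      (volume.restrict (closedBall (0 : EE d) ρ)) := fun k i =>
    ((h1 k i).add (h1 i k)).integrable_sq
  exact integrable_finsetSum _ fun k _ => integrable_finsetSum _ fun i _ => h2 k i

private theorem liou_key {c : EE d} {r : ℝ} {z : Fin d → EE d → ℝ}
    {G : Fin d → Fin d → EE d → ℝ}
    (hz : ∀ k, WD univ (z k) (G k)) (hw : WEq Z (ball c r) univ G) :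
    ∃ K : ℝ, 0 < K ∧ ∀ (ρ : ℝ) (m : Fin d → ℝ) (B : ℝ), 1 ≤ ρ → 0 ≤ B →
    (∀ x : EE d, ρ ≤ ‖x‖ → ‖x‖ ≤ 2 * ρ → ∀ k, |z k x - m k| ≤ B * (ρ ^ (d - 2))⁻¹) →
    (∫ x in ball (0 : EE d) ρ, stn G x) ^ 2 ≤
      K * B ^ 2 * ((∫ x in ball (0 : EE d) (2 * ρ), stn G x) -
        ∫ x in ball (0 : EE d) ρ, stn G x) ∧
    (∫ x in ball (0 : EE d) ρ, stn G x) ≤ K * B ^ 2 := by
  obtain ⟨C, hC, hE⟩ := energy_step Z (measurableSet_ball (x := c) (ε := r)) hz hw
  obtain ⟨M, hM, hcut⟩ := liou_cut d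
  have hG : ∀ k i, L2loc univ (G k i) := fun k i => (hz k).2.1 i
  set v₁ : ℝ := volume.real (ball (0 : EE d) 1) with hv₁
  have hv₁0 : 0 ≤ v₁ := measureReal_nonneg
  set K₀ : ℝ := d * M ^ 2 * d * 2 ^ d * v₁ with hK₀
  have hK₀0 : 0 ≤ K₀ := by positivity
  refine ⟨C * (K₀ + 1), by positivity, fun ρ m B hρ hB hzB => ?_⟩
  have hρ0 : 0 < ρ := by linarith
  obtain ⟨η, hη, hη01, hη1, hη0, hp1, hp2, hpM⟩ := hcut ρ hρ
  have hE := hE η m hη
  -- the integral with the cutoff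
  have hI : (∫ x, (∑ i, pd i η x ^ 2) * ∑ k, (z k x - m k) ^ 2) ≤ K₀ * B ^ 2 := by
    set q : ℝ := (d * (M * ρ⁻¹) ^ 2) * (d * (B * (ρ ^ (d - 2))⁻¹) ^ 2) with hq
    have hq0 : 0 ≤ q := by positivity
    have h1 : ∀ x, (∑ i, pd i η x ^ 2) * ∑ k, (z k x - m k) ^ 2 ≤
        (closedBall (0 : EE d) (2 * ρ)).indicator (fun _ => q) x := by
      intro x
      by_cases hx : x ∈ closedBall (0 : EE d) (2 * ρ)
      · rw [indicator_of_mem hx]
        by_cases hx' : x ∈ ball (0 : EE d) ρ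
        · have h2 : ∑ i, pd i η x ^ 2 = 0 := Finset.sum_eq_zero fun i _ => by
            rw [hp1 i x hx']; norm_num
          rw [h2, zero_mul]
          exact hq0
        · rw [mem_ball_zero_iff, not_lt] at hx'
          rw [mem_closedBall_zero_iff] at hx
          have h2 : ∑ i, pd i η x ^ 2 ≤ d * (M * ρ⁻¹) ^ 2 := by
            have h3 : ∀ i ∈ (Finset.univ : Finset (Fin d)), pd i η x ^ 2 ≤ (M * ρ⁻¹) ^ 2 :=
              fun i _ => by
                rw [← sq_abs]
                exact pow_le_pow_left₀ (abs_nonneg _) (hpM i x) 2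
            have h4 := Finset.sum_le_card_nsmul _ _ _ h3
            simpa using h4
          have h5 : ∑ k, (z k x - m k) ^ 2 ≤ d * (B * (ρ ^ (d - 2))⁻¹) ^ 2 := by
            have h3 : ∀ k ∈ (Finset.univ : Finset (Fin d)), (z k x - m k) ^ 2 ≤
                (B * (ρ ^ (d - 2))⁻¹) ^ 2 :=
              fun k _ => by
                rw [← sq_abs]
                exact pow_le_pow_left₀ (abs_nonneg _) (hzB x hx' hx k) 2
            have h4 := Finset.sum_le_card_nsmul _ _ _ h3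
            simpa using h4
          exact mul_le_mul h2 h5 (Finset.sum_nonneg fun _ _ => sq_nonneg _) (by positivity)
      · rw [indicator_of_notMem hx]
        have h2 : ∑ i, pd i η x ^ 2 = 0 := Finset.sum_eq_zero fun i _ => by
          rw [hp2 i x hx]; norm_num
        rw [h2, zero_mul]
    have h0 : ∀ x, 0 ≤ (∑ i, pd i η x ^ 2) * ∑ k, (z k x - m k) ^ 2 := fun x =>
      mul_nonneg (Finset.sum_nonneg fun _ _ => sq_nonneg _)
        (Finset.sum_nonneg fun _ _ => sq_nonneg _)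
    have hint : Integrable ((closedBall (0 : EE d) (2 * ρ)).indicator (fun _ => q)) := by
      rw [integrable_indicator_iff measurableSet_closedBall]
      exact integrableOn_const (isCompact_closedBall _ _).measure_lt_top.ne
    have h2 := integral_mono_of_nonneg (Eventually.of_forall h0) hint (Eventually.of_forall h1)
    refine h2.trans ?_
    rw [integral_indicator measurableSet_closedBall, setIntegral_const, smul_eq_mul,
      Measure.addHaar_real_closedBall _ _ (by positivity), finrank_euclideanSpace_fin, ← hv₁]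
    obtain ⟨e, rfl⟩ : ∃ e, d = e + 2 := ⟨d - 2, by have := Z.hd; omega⟩
    rw [hq, hK₀]
    have h3 : e + 2 - 2 = e := by omega
    rw [h3]
    have hρe : 1 ≤ ρ ^ e := one_le_pow₀ hρ
    have hρe0 : 0 < ρ ^ e := by positivity
    have h4 : (2 * ρ) ^ (e + 2) * v₁ *
        (((e + 2 : ℕ) : ℝ) * (M * ρ⁻¹) ^ 2 * (((e + 2 : ℕ) : ℝ) * (B * (ρ ^ e)⁻¹) ^ 2)) =
        (((e + 2 : ℕ) : ℝ) * M ^ 2 * ((e + 2 : ℕ) : ℝ) * 2 ^ (e + 2) * v₁ * B ^ 2) *
          (ρ ^ e)⁻¹ := by
      rw [mul_pow 2 ρ, pow_add ρ]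
      field_simp
    rw [h4]
    apply mul_le_of_le_one_right (by positivity)
    exact inv_le_one_of_one_le₀ hρe
  -- integrals of the strain
  have hi2 : IntegrableOn (stn G) (ball (0 : EE d) (2 * ρ)) :=
    (stn_int hG (2 * ρ)).mono_set ball_subset_closedBall
  have hi1 : IntegrableOn (stn G) (ball (0 : EE d) ρ) :=
    (stn_int hG ρ).mono_set ball_subset_closedBall
  have hη2 : ∀ x, η x ^ 2 * stn G x ≤ (ball (0 : EE d) (2 * ρ)).indicator (stn G) x := by
    intro x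
    by_cases hx : x ∈ ball (0 : EE d) (2 * ρ)
    · rw [indicator_of_mem hx]
      have h1 : η x ^ 2 ≤ 1 := pow_le_one₀ (hη01 x).1 (hη01 x).2
      exact mul_le_of_le_one_left (stn_nonneg' G x) h1
    · rw [indicator_of_notMem hx, hη0 x hx]
      simp
  have hη3 : ∀ x, (ball (0 : EE d) ρ).indicator (stn G) x ≤ η x ^ 2 * stn G x := by
    intro x
    by_cases hx : x ∈ ball (0 : EE d) ρ
    · rw [indicator_of_mem hx, hη1 x hx]
      simp
    · rw [indicator_of_notMem hx]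
      exact mul_nonneg (sq_nonneg _) (stn_nonneg' G x)
  have hint2 : Integrable ((ball (0 : EE d) (2 * ρ)).indicator (stn G)) :=
    (integrable_indicator_iff measurableSet_ball).2 hi2
  have hηint : Integrable (fun x => η x ^ 2 * stn G x) := by
    have h1 : (fun x => η x ^ 2 * stn G x) =
        fun x => η x ^ 2 * (ball (0 : EE d) (2 * ρ)).indicator (stn G) x := by
      funext x
      by_cases hx : x ∈ ball (0 : EE d) (2 * ρ)
      · rw [indicator_of_mem hx]
      · rw [indicator_of_notMem hx, hη0 x hx]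
        simp
    rw [h1]
    refine hint2.bdd_mul (c := 1) (hη.1.continuous.pow 2).aestronglyMeasurable ?_
    refine Eventually.of_forall fun x => ?_
    rw [Real.norm_eq_abs, abs_of_nonneg (sq_nonneg _)]
    exact pow_le_one₀ (hη01 x).1 (hη01 x).2
  set A : ℝ := ∫ x, η x ^ 2 * stn G x with hA
  set S : Set (EE d) := {x | ∃ i, pd i η x ≠ 0} with hS
  have hSm : MeasurableSet S := by
    have h1 : S = ⋃ i, {x | pd i η x ≠ 0} := by
      ext x; simp [hS]
    rw [h1]
    refine MeasurableSet.iUnion fun i => ?_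
    have h2 : Continuous (pd i η) := by
      have h3 := hη.1.continuous_fderiv (by simp)
      exact h3.clm_apply continuous_const
    exact (isOpen_ne_fun h2 continuous_const).measurableSet
  set a₁ : ℝ := ∫ x in ball (0 : EE d) ρ, stn G x with ha₁
  set a₂ : ℝ := ∫ x in ball (0 : EE d) (2 * ρ), stn G x with ha₂
  have ha₁0 : 0 ≤ a₁ := setIntegral_nonneg measurableSet_ball fun x _ => stn_nonneg' G x
  have hA0 : 0 ≤ A := integral_nonneg fun x => mul_nonneg (sq_nonneg _) (stn_nonneg' G x)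
  have hA1 : a₁ ≤ A := by
    rw [ha₁, ← integral_indicator measurableSet_ball]
    exact integral_mono ((integrable_indicator_iff measurableSet_ball).2 hi1) hηint hη3
  have hT0 : 0 ≤ ∫ x in S, η x ^ 2 * stn G x :=
    setIntegral_nonneg hSm fun x _ => mul_nonneg (sq_nonneg _) (stn_nonneg' G x)
  have hTA : (∫ x in S, η x ^ 2 * stn G x) ≤ A :=
    setIntegral_le_integral hηint
      (Eventually.of_forall fun x => mul_nonneg (sq_nonneg _) (stn_nonneg' G x))
  have hTd : (∫ x in S, η x ^ 2 * stn G x) ≤ a₂ - a₁ := by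
    rw [ha₁, ha₂, ← integral_indicator measurableSet_ball, ← integral_indicator measurableSet_ball,
      ← integral_sub hint2 ((integrable_indicator_iff measurableSet_ball).2 hi1),
      ← integral_indicator hSm]
    refine integral_mono (hηint.indicator hSm)
      (hint2.sub ((integrable_indicator_iff measurableSet_ball).2 hi1)) fun x => ?_
    show S.indicator (fun x => η x ^ 2 * stn G x) x ≤
      (ball (0 : EE d) (2 * ρ)).indicator (stn G) x - (ball (0 : EE d) ρ).indicator (stn G) x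
    by_cases hx : x ∈ S
    · have h1 : x ∉ ball (0 : EE d) ρ := by
        intro h2
        obtain ⟨i, hi⟩ := hx
        exact hi (hp1 i x h2)
      rw [indicator_of_mem hx, indicator_of_notMem h1, sub_zero]
      exact hη2 x
    · rw [indicator_of_notMem hx]
      have h3 := (hη3 x).trans (hη2 x)
      linarith
  have hI0 : 0 ≤ ∫ x, (∑ i, pd i η x ^ 2) * ∑ k, (z k x - m k) ^ 2 :=
    integral_nonneg fun x => mul_nonneg (Finset.sum_nonneg fun _ _ => sq_nonneg _)
        (Finset.sum_nonneg fun _ _ => sq_nonneg _)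
  have hKK : C * (K₀ * B ^ 2) ≤ C * (K₀ + 1) * B ^ 2 := by
    have : 0 ≤ C * B ^ 2 := by positivity
    nlinarith
  constructor
  · calc a₁ ^ 2 ≤ A ^ 2 := pow_le_pow_left₀ ha₁0 hA1 2
      _ ≤ C * (∫ x in S, η x ^ 2 * stn G x) *
          ∫ x, (∑ i, pd i η x ^ 2) * ∑ k, (z k x - m k) ^ 2 := hE
      _ ≤ C * (a₂ - a₁) * (K₀ * B ^ 2) := by
          apply mul_le_mul _ hI hI0 (by have := hT0.trans hTd; positivity)
          exact mul_le_mul_of_nonneg_left hTd hC.le
      _ = C * (K₀ * B ^ 2) * (a₂ - a₁) := by ring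
      _ ≤ C * (K₀ + 1) * B ^ 2 * (a₂ - a₁) :=
          mul_le_mul_of_nonneg_right hKK (hT0.trans hTd)
  · have h1 : A ^ 2 ≤ C * A * (K₀ * B ^ 2) := by
      refine hE.trans ?_
      apply mul_le_mul _ hI hI0 (by positivity)
      exact mul_le_mul_of_nonneg_left hTA hC.le
    have h2 : A ≤ C * (K₀ * B ^ 2) := by
      rcases hA0.eq_or_lt with h | h
      · rw [← h]; positivity
      · have h3 : A * A ≤ (C * (K₀ * B ^ 2)) * A := by nlinarith
        exact le_of_mul_le_mul_right h3 h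
    linarith

theorem liou {c : EE d} {r : ℝ} {z : Fin d → EE d → ℝ} {G : Fin d → Fin d → EE d → ℝ}
    (hz : ∀ k, WD univ (z k) (G k)) (hw : WEq Z (ball c r) univ G) (hg : Grw z) :
    ∀ k i, ∀ᵐ x, G k i x + G i k x = 0 := by
  obtain ⟨K, hK, hkey⟩ := liou_key Z hz hw
  obtain ⟨m, C, R, hR, hgr⟩ := hg
  have hG : ∀ k i, L2loc univ (G k i) := fun k i => (hz k).2.1 i
  set R₀ : ℝ := R + 1 with hR₀
  have hR₀1 : 1 ≤ R₀ := by linarith
  set ρ : ℕ → ℝ := fun n => 2 ^ n * R₀ with hρ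
  have hρR : ∀ n, R₀ ≤ ρ n := fun n => by
    have h1 : (1 : ℝ) ≤ 2 ^ n := one_le_pow₀ (by norm_num)
    have : 0 < R₀ := by linarith
    show R₀ ≤ 2 ^ n * R₀
    nlinarith
  have hρ1 : ∀ n, 1 ≤ ρ n := fun n => hR₀1.trans (hρR n)
  have hρs : ∀ n, ρ (n + 1) = 2 * ρ n := fun n => by
    show 2 ^ (n + 1) * R₀ = 2 * (2 ^ n * R₀)
    rw [pow_succ]; ring
  set a : ℕ → ℝ := fun n => ∫ x in ball (0 : EE d) (ρ n), stn G x with ha
  have ha0 : ∀ n, 0 ≤ a n := fun n =>
    setIntegral_nonneg measurableSet_ball fun x _ => stn_nonneg' G x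
  set mm : ℝ := ∑ k, |m k| with hmm
  have hmk : ∀ k, |m k| ≤ mm := fun k =>
    Finset.single_le_sum (f := fun k => |m k|) (fun _ _ => abs_nonneg _) (Finset.mem_univ k)
  have hmm0 : 0 ≤ mm := Finset.sum_nonneg fun _ _ => abs_nonneg _
  have hlR : 0 ≤ Real.log R₀ := Real.log_nonneg hR₀1
  have hl2 : Real.log 2 ≤ 1 := by
    have := Real.log_two_lt_d9
    linarith
  have hl20 : 0 ≤ Real.log 2 := Real.log_nonneg (by norm_num)
  set B₁ : ℝ := |C| + mm with hB₁
  set B₂ : ℝ := |C| + mm * (1 + Real.log R₀) with hB₂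
  have hB₁0 : 0 ≤ B₁ := by positivity
  have hB₂0 : 0 ≤ B₂ := by positivity
  have hinv : ∀ n (x : EE d), ρ n ≤ ‖x‖ → C * (‖x‖ ^ (d - 2))⁻¹ ≤ |C| * (ρ n ^ (d - 2))⁻¹ := by
    intro n x hx
    have h0 : 0 < ρ n := by linarith [hρ1 n]
    have h1 : (‖x‖ ^ (d - 2))⁻¹ ≤ (ρ n ^ (d - 2))⁻¹ := by
      apply inv_anti₀ (by positivity)
      exact pow_le_pow_left₀ h0.le hx _
    have h2 : 0 ≤ (‖x‖ ^ (d - 2))⁻¹ := by positivity
    calc C * (‖x‖ ^ (d - 2))⁻¹ ≤ |C| * (‖x‖ ^ (d - 2))⁻¹ :=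
          mul_le_mul_of_nonneg_right (le_abs_self C) h2
      _ ≤ |C| * (ρ n ^ (d - 2))⁻¹ := mul_le_mul_of_nonneg_left h1 (abs_nonneg C)
  -- first estimate
  have hst1 : ∀ n, ∃ m' : Fin d → ℝ, ∀ x : EE d, ρ n ≤ ‖x‖ → ‖x‖ ≤ 2 * ρ n → ∀ k,
      |z k x - m' k| ≤ B₁ * (ρ n ^ (d - 2))⁻¹ := by
    intro n
    have h0 : 0 < ρ n := by linarith [hρ1 n]
    refine ⟨fun k => if d = 2 then m k * Real.log (ρ n) else 0, fun x hx1 hx2 k => ?_⟩
    have hxR : R < ‖x‖ := by linarith [hρR n]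
    have h1 := hgr x hxR k
    have h2 := hinv n x hx1
    by_cases hd : d = 2
    · simp only [hd, if_true] at h1 ⊢
      have h3 : d - 2 = 0 := by omega
      rw [h3] at h2
      simp only [Nat.sub_self, pow_zero, inv_one, mul_one] at h1 h2 ⊢
      have hx0 : 0 < ‖x‖ := by linarith
      have h4 : |Real.log ‖x‖ - Real.log (ρ n)| ≤ 1 := by
        have h5 : Real.log (ρ n) ≤ Real.log ‖x‖ := Real.log_le_log h0 hx1
        have h6 : Real.log ‖x‖ ≤ Real.log (2 * ρ n) := Real.log_le_log hx0 hx2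
        rw [Real.log_mul (by norm_num) h0.ne'] at h6
        rw [abs_of_nonneg (by linarith)]
        linarith
      have h5 : z k x - m k * Real.log (ρ n) =
          (z k x - m k * Real.log ‖x‖) + m k * (Real.log ‖x‖ - Real.log (ρ n)) := by ring
      rw [h5]
      refine (abs_add_le _ _).trans ?_
      rw [abs_mul]
      have h6 : |m k| * |Real.log ‖x‖ - Real.log (ρ n)| ≤ mm * 1 :=
        mul_le_mul (hmk k) h4 (abs_nonneg _) hmm0
      have h7 := le_abs_self C
      rw [hB₁]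
      linarith
    · simp only [hd, if_false] at h1 ⊢
      refine (h1.trans h2).trans ?_
      apply mul_le_mul_of_nonneg_right _ (by positivity)
      rw [hB₁]
      linarith
  -- second estimate
  have hst2 : ∀ n : ℕ, ∀ x : EE d, ρ n ≤ ‖x‖ → ‖x‖ ≤ 2 * ρ n → ∀ k,
      |z k x - 0| ≤ (B₂ * (1 + n)) * (ρ n ^ (d - 2))⁻¹ := by
    intro n x hx1 hx2 k
    have h0 : 0 < ρ n := by linarith [hρ1 n]
    have hxR : R < ‖x‖ := by linarith [hρR n]
    have h1 := hgr x hxR k
    have h2 := hinv n x hx1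
    have hn0 : (0 : ℝ) ≤ n := Nat.cast_nonneg n
    by_cases hd : d = 2
    · simp only [hd, if_true] at h1
      have h3 : d - 2 = 0 := by omega
      rw [h3] at h2 ⊢
      simp only [Nat.sub_self, pow_zero, inv_one, mul_one] at h1 h2 ⊢
      have hx0 : 0 < ‖x‖ := by linarith
      have h4 : |Real.log ‖x‖| ≤ (1 + Real.log R₀) * (1 + n) := by
        have h5 : 0 ≤ Real.log ‖x‖ := Real.log_nonneg (by linarith [hρ1 n])
        have h6 : Real.log ‖x‖ ≤ Real.log (2 * ρ n) := Real.log_le_log hx0 hx2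
        have h7 : Real.log (2 * ρ n) = (n + 1) * Real.log 2 + Real.log R₀ := by
          rw [← hρs n]
          show Real.log (2 ^ (n + 1) * R₀) = _
          rw [Real.log_mul (by positivity) (by linarith), Real.log_pow]
          push_cast
          ring
        rw [abs_of_nonneg h5]
        nlinarith
      have h5 : z k x - 0 = (z k x - m k * Real.log ‖x‖) + m k * Real.log ‖x‖ := by ring
      rw [h5]
      refine (abs_add_le _ _).trans ?_
      rw [abs_mul]
      have h6 : |m k| * |Real.log ‖x‖| ≤ mm * ((1 + Real.log R₀) * (1 + n)) :=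
        mul_le_mul (hmk k) h4 (abs_nonneg _) hmm0
      have h7 := le_abs_self C
      have h8 : 0 ≤ |C| * n := by positivity
      rw [hB₂]
      nlinarith
    · simp only [hd, if_false] at h1
      refine (h1.trans h2).trans ?_
      apply mul_le_mul_of_nonneg_right _ (by positivity)
      have h8 : 0 ≤ |C| * n := by positivity
      have h9 : 0 ≤ mm * (1 + Real.log R₀) * (1 + n) := by positivity
      rw [hB₂]
      nlinarith
  set T : ℝ := K * B₁ ^ 2 + K * B₂ ^ 2 + 1 with hT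
  have hT0 : 0 < T := by positivity
  have hs1 : ∀ n, a n ^ 2 ≤ T * (a (n + 1) - a n) := by
    intro n
    obtain ⟨m', hm'⟩ := hst1 n
    have h1 := (hkey (ρ n) m' B₁ (hρ1 n) hB₁0 hm').1
    have h2 : (∫ x in ball (0 : EE d) (2 * ρ n), stn G x) = a (n + 1) := by
      rw [← hρs n]
    rw [h2] at h1
    have h3 : 0 ≤ a (n + 1) - a n := by
      rw [sub_nonneg]
      refine setIntegral_mono_set ?_ (Eventually.of_forall fun x => stn_nonneg' G x) ?_
      · exact (stn_int hG _).mono_set ball_subset_closedBall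
      · exact (ball_subset_ball (by rw [hρs n]; linarith [hρ1 n])).eventuallyLE
    refine h1.trans (mul_le_mul_of_nonneg_right ?_ h3)
    have : 0 ≤ K * B₂ ^ 2 := by positivity
    linarith
  have hs2 : ∀ n : ℕ, a n ≤ T * (1 + n) ^ 2 := by
    intro n
    have h1 := (hkey (ρ n) (fun _ => 0) (B₂ * (1 + n)) (hρ1 n) (by positivity) (hst2 n)).2
    refine h1.trans ?_
    rw [mul_pow, ← mul_assoc]
    apply mul_le_mul_of_nonneg_right _ (by positivity)
    have : 0 ≤ K * B₁ ^ 2 := by positivity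
    linarith
  have haz : ∀ n, a n = 0 := seq_zero ha0 hT0 hs1 hs2
  -- conclusion
  have hae : ∀ n, ∀ᵐ x, x ∈ ball (0 : EE d) (ρ n) → stn G x = 0 := by
    intro n
    have h1 : IntegrableOn (stn G) (ball (0 : EE d) (ρ n)) :=
      (stn_int hG _).mono_set ball_subset_closedBall
    have h2 := (integral_eq_zero_iff_of_nonneg (fun x => stn_nonneg' G x) h1).1 (haz n)
    exact (ae_restrict_iff' measurableSet_ball).1 h2
  have hall : ∀ᵐ x, stn G x = 0 := by
    have h1 := ae_all_iff.2 hae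
    filter_upwards [h1] with x hx
    obtain ⟨n, hn⟩ := pow_unbounded_of_one_lt ‖x‖ (show (1 : ℝ) < 2 by norm_num)
    apply hx n
    rw [mem_ball_zero_iff]
    show ‖x‖ < 2 ^ n * R₀
    have h2 : (0 : ℝ) < 2 ^ n := by positivity
    nlinarith
  intro k i
  filter_upwards [hall] with x hx
  have h1 : (G k i x + G i k x) ^ 2 ≤ stn G x := by
    have h2 : (G k i x + G i k x) ^ 2 ≤ ∑ i, (G k i x + G i k x) ^ 2 :=
      Finset.single_le_sum (f := fun i => (G k i x + G i k x) ^ 2) (fun _ _ => sq_nonneg _)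
        (Finset.mem_univ i)
    exact h2.trans (Finset.single_le_sum (f := fun k => ∑ i, (G k i x + G i k x) ^ 2)
      (fun _ _ => Finset.sum_nonneg fun _ _ => sq_nonneg _) (Finset.mem_univ k))
  rw [hx] at h1
  exact pow_eq_zero_iff (two_ne_zero) |>.1 (le_antisymm h1 (sq_nonneg _))

end Pool.Agent.MP_0643f8_an.U
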