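import Mathlib
import Pool.Agent.Lib.MP_0643f8_an.U.M4b_Explicit
import Pool.Agent.Lib.MP_0643f8_an.U.W10_Liou
import Pool.Agent.Lib.MP_0643f8_an.U.R7_Exist
import Pool.Agent.Lib.MP_0643f8_an.U.M1_Topo
import Pool.Agent.Lib.MP_0643f8_an.U.W7_Local

/-!
# The exterior field of a solution is the explicit one

Notation: `back c r f x = f (r⁻¹ • (x - c))` transports fields of the unit ball to the ball
`(c, r)`; `back = aff (-(r⁻¹ • c)) r⁻¹`.
-/

set_option autoImplicit false

open MeasureTheory Metric Set Filter Topology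
open scoped ContDiff

namespace Pool.Agent.MP_0643f8_an.U
variable {d : ℕ} (Z : Cst d)

/-- linear growth against logarithmic growth -/
private theorem m4_lin {a m B c0 : ℝ} (hc : 0 ≤ c0)
    (h : ∀ᶠ T : ℝ in atTop, |a| * T ≤ |m| * Real.log (c0 + T) + B) : a = 0 := by
  by_contra ha
  have ha' : 0 < |a| := abs_pos.2 ha
  have hm : 0 ≤ |m| := abs_nonneg m
  have h1 : ∀ᶠ s : ℝ in atTop, |Real.log s| ≤ (|a| / (2 * (|m| + 1))) * |s| := by
    have := Real.isLittleO_log_id_atTop.def (c := |a| / (2 * (|m| + 1))) (by positivity)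
    simpa using this
  have h2 : Tendsto (fun T : ℝ => c0 + T) atTop atTop :=
    tendsto_atTop_add_const_left _ _ tendsto_id
  have h3 := h2.eventually h1
  have h4 : ∀ᶠ T : ℝ in atTop, (|a| * c0 / 2 + B) / (|a| / 2) < T ∧ 0 ≤ T :=
    (eventually_gt_atTop _).and (eventually_ge_atTop 0)
  obtain ⟨T, hT1, hT3, hT4, hT5⟩ := (h.and (h3.and h4)).exists
  rw [abs_of_nonneg (by linarith : 0 ≤ c0 + T)] at hT3
  have h5 : |m| * Real.log (c0 + T) ≤ |a| / 2 * (c0 + T) := by
    have h6 : |m| * Real.log (c0 + T) ≤ |m| * ((|a| / (2 * (|m| + 1))) * (c0 + T)) :=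
      mul_le_mul_of_nonneg_left ((le_abs_self _).trans hT3) hm
    have h7 : |m| * ((|a| / (2 * (|m| + 1))) * (c0 + T)) =
        (|m| / (|m| + 1)) * (|a| / 2 * (c0 + T)) := by
      field_simp
    have h8 : |m| / (|m| + 1) ≤ 1 := by
      rw [div_le_one (by positivity)]
      linarith
    rw [h7] at h6
    refine h6.trans ?_
    have h9 : 0 ≤ |a| / 2 * (c0 + T) := by
      have : 0 ≤ c0 + T := by linarith
      positivity
    calc |m| / (|m| + 1) * (|a| / 2 * (c0 + T)) ≤ 1 * (|a| / 2 * (c0 + T)) :=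
          mul_le_mul_of_nonneg_right h8 h9
      _ = |a| / 2 * (c0 + T) := one_mul _
  rw [div_lt_iff₀ (by positivity)] at hT4
  nlinarith

/-- a function with constant gradient off a ball and logarithmic growth has zero gradient -/
private theorem m4_zero {c : EE d} {r : ℝ} (hr : 0 < r) {f : EE d → ℝ}
    (hf : ContDiffOn ℝ ∞ f (closedBall c r)ᶜ) {i : Fin d} {a : ℝ}
    (ha : ∀ x ∈ (closedBall c r)ᶜ, pd i f x = a) {m B R : ℝ}
    (hg : ∀ x : EE d, R < ‖x‖ → |f x| ≤ |m| * Real.log ‖x‖ + B) : a = 0 := by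
  have hE : IsOpen (closedBall c r)ᶜ := isClosed_closedBall.isOpen_compl
  set e : EE d := EuclideanSpace.single i (1 : ℝ) with he
  have hen : ‖e‖ = 1 := by
    rw [he]
    simp
  have hmem : ∀ t : ℝ, r < t → c + t • e ∈ (closedBall c r)ᶜ := by
    intro t ht
    rw [mem_compl_iff, mem_closedBall, dist_eq_norm, add_sub_cancel_left, norm_smul, hen, mul_one,
      Real.norm_eq_abs, abs_of_pos (hr.trans ht)]
    linarith
  have hder : ∀ t : ℝ, r < t → HasDerivAt (fun s : ℝ => f (c + s • e)) a t := by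
    intro t ht
    have h1 : DifferentiableAt ℝ f (c + t • e) :=
      ((hf.contDiffAt (hE.mem_nhds (hmem t ht))).differentiableAt (by simp))
    have h2 : HasDerivAt (fun s : ℝ => c + s • e) ((1 : ℝ) • e) t :=
      ((hasDerivAt_id t).smul_const e).const_add c
    have h3 := h1.hasFDerivAt.comp_hasDerivAt t h2
    rw [one_smul] at h3
    have h4 : fderiv ℝ f (c + t • e) e = a := ha _ (hmem t ht)
    rw [h4] at h3
    exact h3
  have hconst : ∀ T : ℝ, 2 * r ≤ T → f (c + T • e) = f (c + (2 * r) • e) + a * (T - 2 * r) := by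
    intro T hT
    have h1 := constant_of_has_deriv_right_zero
      (f := fun s : ℝ => f (c + s • e) - a * s) (a := 2 * r) (b := T)
      (fun s hs => by
        have hs' : r < s := by
          have := hs.1
          linarith
        exact (((hder s hs').sub ((hasDerivAt_id s).const_mul a)).continuousAt).continuousWithinAt)
      (fun s hs => by
        have hs' : r < s := by
          have := hs.1
          linarith
        have h2 := (hder s hs').sub ((hasDerivAt_id s).const_mul a)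
        rw [mul_one, sub_self] at h2
        exact h2.hasDerivWithinAt)
      T ⟨hT, le_refl T⟩
    linarith
  refine m4_lin (m := m) (c0 := ‖c‖) (B := B + |f (c + (2 * r) • e)| + |a| * (2 * r))
    (norm_nonneg c) ?_
  filter_upwards [eventually_ge_atTop (2 * r), eventually_gt_atTop (R + ‖c‖),
    eventually_gt_atTop (‖c‖ + 1)] with T hT1 hT2 hT3
  have hn1 : ‖c + T • e‖ ≤ ‖c‖ + T := by
    refine (norm_add_le _ _).trans ?_
    rw [norm_smul, hen, mul_one, Real.norm_eq_abs, abs_of_pos (by linarith)]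
  have hn2 : T - ‖c‖ ≤ ‖c + T • e‖ := by
    have h1 := norm_sub_le (c + T • e) c
    rw [add_sub_cancel_left, norm_smul, hen, mul_one, Real.norm_eq_abs,
      abs_of_pos (by linarith)] at h1
    linarith
  have h1 := hg (c + T • e) (by linarith)
  have h2 : Real.log ‖c + T • e‖ ≤ Real.log (‖c‖ + T) :=
    Real.log_le_log (by linarith) hn1
  have h3 : |m| * Real.log ‖c + T • e‖ ≤ |m| * Real.log (‖c‖ + T) :=
    mul_le_mul_of_nonneg_left h2 (abs_nonneg m)
  have h4 := hconst T hT1
  have h5 : |a * (T - 2 * r)| ≤ |f (c + T • e)| + |f (c + (2 * r) • e)| := by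
    have e1 : a * (T - 2 * r) = f (c + T • e) - f (c + (2 * r) • e) := by linarith
    rw [e1]
    exact abs_sub _ _
  rw [abs_mul, abs_of_nonneg (by linarith : 0 ≤ T - 2 * r)] at h5
  nlinarith

/-- Let `(U, G)` be a weak solution near the closed ball, `U = H + w` outside the ball, `H` a Lame
field near the closed ball, `w` an exterior Lame field with moderate growth. Then `w` is the explicit
exterior field of data that represent `H`, up to a constant. (`exists_data` for `aff c r H` on a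
ball `ball 0 ρ`, `ρ > 1`. The function `z` equal to `U - back fv` in the ball and to
`w - back fw` outside is a weak solution on the whole space by `explicit_weak`, `wd_union`,
`weq_union`, `lame_weak`; `Grw z` by `fw_decay`; `liou`; outside the closed ball `z` is a Lame field
with zero strain, so its gradient is constant by `strain_zero`, and zero by the growth.) -/
theorem reflect {c : EE d} {r : ℝ} (hr : 0 < r) {V : Set (EE d)} (hV : IsOpen V)
    (hb : closedBall c r ⊆ V) {U : Fin d → EE d → ℝ} {G : Fin d → Fin d → EE d → ℝ}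
    (hU : ∀ k, WD V (U k) (G k)) (hG : WEq Z (ball c r) V G) {H w : Fin d → EE d → ℝ}
    (hH : IsLame Z.kap V H) (hw : IsLame Z.kap (closedBall c r)ᶜ w) (hg : Grw w)
    (he : ∀ k, ∀ᵐ x ∂(volume.restrict (V \ closedBall c r)), U k x = H k x + w k x) :
    ∃ (ρ : ℝ) (D : Dat d) (m : Fin d → ℝ), 1 < ρ ∧ D.On (ball 0 ρ) ∧
      ball c (r * ρ) ⊆ V ∧
      (∀ y ∈ ball (0 : EE d) ρ, ∀ k, aff c r H k y = fH Z D k y) ∧
      ∀ y : EE d, 1 < ‖y‖ → ∀ k, aff c r w k y = fw Z D k y + m k := by
  have hd : 2 ≤ d := Z.hd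
  have hne : Nonempty (Fin d) := ⟨⟨0, by omega⟩⟩
  -- the radius
  obtain ⟨δ, hδ, hδV⟩ := (isCompact_closedBall c r).exists_thickening_subset_open hV hb
  rw [thickening_closedBall hδ hr.le] at hδV
  obtain ⟨ρ, hρd⟩ : ∃ ρ : ℝ, ρ = 1 + δ / r := ⟨_, rfl⟩
  have hρ : 1 < ρ := by
    rw [hρd]
    have := div_pos hδ hr
    linarith
  have hrρ : r * ρ = δ + r := by
    rw [hρd]
    field_simp
    ring
  have hballV : ball c (r * ρ) ⊆ V := by rwa [hrρ]
  -- the data
  have hstar : StarO (ball (0 : EE d) ρ) := by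
    refine ⟨isOpen_ball, mem_ball_self (by linarith), fun x hx t ht0 ht1 => ?_⟩
    rw [mem_ball_zero_iff] at hx ⊢
    rw [norm_smul, Real.norm_eq_abs, abs_of_nonneg ht0]
    have := norm_nonneg x
    nlinarith
  have hAff : IsLame Z.kap (ball (0 : EE d) ρ) (aff c r H) := by
    refine lame_mono (lame_aff hV hH c hr.ne') fun y hy => ?_
    refine hballV ?_
    rw [mem_ball_zero_iff] at hy
    rw [mem_ball, dist_eq_norm, add_sub_cancel_left, norm_smul, Real.norm_eq_abs, abs_of_pos hr]
    exact mul_lt_mul_of_pos_left hy hr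
  obtain ⟨D, hD, hDH⟩ := exists_data Z hstar hAff
  have hHD : ∀ x ∈ ball c (r * ρ) ∩ V, ∀ k, H k x = back c r (fH Z D) k x := by
    intro x hx k
    have hy : r⁻¹ • (x - c) ∈ ball (0 : EE d) ρ := by
      have h1 := hx.1
      rw [mem_ball, dist_eq_norm] at h1
      rw [mem_ball_zero_iff, norm_smul, norm_inv, Real.norm_eq_abs, abs_of_pos hr,
        inv_mul_lt_iff₀ hr]
      exact h1
    have h2 := hDH _ hy k
    unfold aff at h2
    rw [smul_smul, mul_inv_cancel₀ hr.ne', one_smul, add_sub_cancel] at h2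
    exact h2
  obtain ⟨hex1, hex2⟩ := explicit_weak Z hρ hD c hr hV hH hHD
  -- the exterior domain
  obtain ⟨E, hEd⟩ : ∃ E : Set (EE d), E = (closedBall c r)ᶜ := ⟨_, rfl⟩
  have hE : IsOpen E := by rw [hEd]; exact isClosed_closedBall.isOpen_compl
  have hEmem : ∀ x : EE d, x ∈ E ↔ r < ‖x - c‖ := by
    intro x
    rw [hEd, mem_compl_iff, mem_closedBall, dist_eq_norm, not_le]
  have hE' : E = {x : EE d | r < ‖x - c‖} := by
    ext x
    exact hEmem x
  have hwE : IsLame Z.kap E w := by rw [hEd]; exact hw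
  have hbw : IsLame Z.kap E (back c r (fw Z D)) := by
    refine lame_mono (lame_back (isOpen_RS isOpen_ball) (lame_fw Z isOpen_ball hD) c hr.ne') ?_
    intro x hx
    rw [hEmem] at hx
    have h1 : 1 < ‖r⁻¹ • (x - c)‖ := by
      rw [norm_smul, norm_inv, Real.norm_eq_abs, abs_of_pos hr, lt_inv_mul_iff₀ hr, mul_one]
      exact hx
    have h2 : r⁻¹ • (x - c) ≠ 0 := by
      intro h0
      rw [h0, norm_zero] at h1
      linarith
    refine ⟨h2, ?_⟩
    rw [mem_ball_zero_iff, norm_inv' h2]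
    have h3 : (‖r⁻¹ • (x - c)‖)⁻¹ < 1 := inv_lt_one_of_one_lt₀ h1
    linarith
  -- the difference outside
  set zt : Fin d → EE d → ℝ := fun k x => w k x - back c r (fw Z D) k x with hztd
  have hzt : IsLame Z.kap E zt := lame_sub hE hwE hbw
  have hzts : ∀ k, ContDiffOn ℝ ∞ (zt k) E := fun k => lame_smooth hE hzt k
  obtain ⟨z, hzd⟩ : ∃ z : Fin d → EE d → ℝ,
    z = fun k => glue c r (fun x => U k x - back c r (fv Z D) k x) (zt k) := ⟨_, rfl⟩
  obtain ⟨Gz, hGzd⟩ : ∃ Gz : Fin d → Fin d → EE d → ℝ,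
    Gz = fun k i => glue c r (fun x => G k i x - grd (back c r (fv Z D)) k i x)
      (grd zt k i) := ⟨_, rfl⟩
  have hzin : ∀ k x, ‖x - c‖ < r → z k x = U k x - back c r (fv Z D) k x := by
    intro k x hx
    rw [hzd]
    simp only [glue, if_pos hx]
  have hzout : ∀ k, ∀ x ∈ E, z k x = zt k x := by
    intro k x hx
    rw [hEmem] at hx
    rw [hzd]
    simp only [glue, if_neg (not_lt.2 hx.le)]
  have hGin : ∀ k i x, ‖x - c‖ < r → Gz k i x = G k i x - grd (back c r (fv Z D)) k i x := by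
    intro k i x hx
    rw [hGzd]
    simp only [glue, if_pos hx]
  have hGout : ∀ k i, ∀ x ∈ E, Gz k i x = pd i (zt k) x := by
    intro k i x hx
    rw [hEmem] at hx
    rw [hGzd]
    simp only [glue, if_neg (not_lt.2 hx.le)]
    rfl
  -- on `V`
  have hVm : MeasurableSet V := hV.measurableSet
  have hVE : IsOpen (V \ closedBall c r) := hV.sdiff isClosed_closedBall
  have hVEm : MeasurableSet (V \ closedBall c r) := hVE.measurableSet
  have hsph : ∀ᵐ x : EE d, ‖x - c‖ ≠ r := by
    have h1 : volume (sphere c r) = 0 := Measure.addHaar_sphere_of_ne_zero volume c hr.ne'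
    have h2 : ∀ᵐ x : EE d, x ∉ sphere c r := measure_eq_zero_iff_ae_notMem.1 h1
    filter_upwards [h2] with x hx hn
    exact hx (by rw [mem_sphere, dist_eq_norm]; exact hn)
  have hVEsub : ∀ x, x ∈ V \ closedBall c r → x ∈ E := by
    intro x hx
    rw [hEd]
    exact hx.2
  have hHs : ∀ k, ∀ x ∈ V, DifferentiableAt ℝ (H k) x := fun k x hx =>
    ((lame_smooth hV hH k).contDiffAt (hV.mem_nhds hx)).differentiableAt (by simp)
  have hws : ∀ k, ∀ x ∈ E, DifferentiableAt ℝ (w k) x := fun k x hx =>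
    ((lame_smooth hE hwE k).contDiffAt (hE.mem_nhds hx)).differentiableAt (by simp)
  have hbws : ∀ k, ∀ x ∈ E, DifferentiableAt ℝ (back c r (fw Z D) k) x := fun k x hx =>
    ((lame_smooth hE hbw k).contDiffAt (hE.mem_nhds hx)).differentiableAt (by simp)
  have hGae : ∀ k i, ∀ᵐ x ∂(volume.restrict (V \ closedBall c r)),
      G k i x = pd i (fun y => H k y + w k y) x := by
    intro k i
    have hsm : ContDiffOn ℝ ∞ (fun y => H k y + w k y) (V \ closedBall c r) :=
      ((lame_smooth hV hH k).mono sdiff_subset).add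
        ((lame_smooth hE hwE k).mono fun x hx => hVEsub x hx)
    have h1 := wd_smooth hVE hsm
    have h2 : WD (V \ closedBall c r) (U k) (fun i => pd i (fun y => H k y + w k y)) :=
      wd_congr hVEm h1 (he k) fun i => Filter.Eventually.of_forall fun x => rfl
    exact wd_unique hVE (wd_mono (hU k) sdiff_subset) h2 i
  have hzV : ∀ k, ∀ᵐ x ∂(volume.restrict V), z k x = U k x -
      glue c r (back c r (fv Z D) k) (fun x => H k x + back c r (fw Z D) k x) x := by
    intro k
    have h1 := (ae_restrict_iff' hVEm).1 (he k)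
    rw [ae_restrict_iff' hVm]
    filter_upwards [h1, hsph] with x hx1 hx2 hxV
    rcases lt_or_gt_of_ne hx2 with h | h
    · rw [hzin k x h]
      simp only [glue, if_pos h]
    · have hxE : x ∈ E := (hEmem x).2 h
      have hxVE : x ∈ V \ closedBall c r := ⟨hxV, by rw [hEd] at hxE; exact hxE⟩
      rw [hzout k x hxE, hx1 hxVE]
      simp only [glue, if_neg (not_lt.2 h.le), hztd]
      ring
  have hGV : ∀ k i, ∀ᵐ x ∂(volume.restrict V), Gz k i x = G k i x -
      glue c r (grd (back c r (fv Z D)) k i)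
        (grd (fun k x => H k x + back c r (fw Z D) k x) k i) x := by
    intro k i
    have h1 := (ae_restrict_iff' hVEm).1 (hGae k i)
    rw [ae_restrict_iff' hVm]
    filter_upwards [h1, hsph] with x hx1 hx2 hxV
    rcases lt_or_gt_of_ne hx2 with h | h
    · rw [hGin k i x h]
      simp only [glue, if_pos h]
    · have hxE : x ∈ E := (hEmem x).2 h
      have hxVE : x ∈ V \ closedBall c r := ⟨hxV, by rw [hEd] at hxE; exact hxE⟩
      rw [hGout k i x hxE, hx1 hxVE]
      simp only [glue, if_neg (not_lt.2 h.le)]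
      have e1 : pd i (fun y => H k y + w k y) x = pd i (H k) x + pd i (w k) x :=
        pd_add (hHs k x hxV) (hws k x hxE) i
      have e2 : grd (fun k x => H k x + back c r (fw Z D) k x) k i x =
          pd i (H k) x + pd i (back c r (fw Z D) k) x :=
        pd_add (hHs k x hxV) (hbws k x hxE) i
      have e3 : pd i (zt k) x = pd i (w k) x - pd i (back c r (fw Z D) k) x :=
        pd_sub (hws k x hxE) (hbws k x hxE) i
      rw [e1, e2, e3]
      ring
  have hzWDV : ∀ k, WD V (z k) (Gz k) := fun k =>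
    wd_congr hVm (wd_sub (hU k) (hex1 k)) (hzV k) (hGV k)
  have hzWEV : WEq Z (ball c r) V Gz :=
    weq_congr Z hVm (weq_sub Z measurableSet_ball (fun k i => (hU k).2.1 i)
      (fun k i => (hex1 k).2.1 i) hG hex2) hGV
  -- on `E`
  have hEm : MeasurableSet E := hE.measurableSet
  have hzWDE : ∀ k, WD E (z k) (Gz k) := fun k =>
    wd_congr hEm (wd_smooth hE (hzts k))
      ((ae_restrict_iff' hEm).2 (Filter.Eventually.of_forall fun x hx => hzout k x hx))
      fun i => (ae_restrict_iff' hEm).2 (Filter.Eventually.of_forall fun x hx => hGout k i x hx)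
  have hzWEE : WEq Z (ball c r) E Gz := by
    have h1 : WEq Z (ball c r) E (grd zt) := by
      refine (weq_off Z (fun x hx hxb => ?_)).2 fun φ hφ hs k =>
        lame_weak hE Z.hmu.ne' hzt hφ hs k
      rw [hEmem] at hx
      rw [mem_ball, dist_eq_norm] at hxb
      linarith
    exact weq_congr Z hEm h1 fun k i =>
      (ae_restrict_iff' hEm).2 (Filter.Eventually.of_forall fun x hx => hGout k i x hx)
  -- the whole space
  have hcov : V ∪ E = univ := by
    ext x
    simp only [mem_union, mem_univ, iff_true]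
    by_cases hx : x ∈ closedBall c r
    · exact Or.inl (hb hx)
    · exact Or.inr (by rw [hEd]; exact hx)
  have hzWD : ∀ k, WD univ (z k) (Gz k) := fun k => by
    rw [← hcov]
    exact wd_union hV hE (hzWDV k) (hzWDE k)
  have hzWE : WEq Z (ball c r) univ Gz := by
    rw [← hcov]
    exact weq_union Z measurableSet_ball hV hE (fun k i => (hzWDV k).2.1 i)
      (fun k i => (hzWDE k).2.1 i) hzWEV hzWEE
  -- growth
  obtain ⟨m0, C0, R0, hR0, hgw⟩ := hg
  obtain ⟨c1, R1, hR1, hfw⟩ := fw_decay Z isOpen_ball (mem_ball_self (by linarith)) hD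
  have hc0 : 0 ≤ ‖c‖ := norm_nonneg c
  have hgz : ∀ x : EE d, R0 + 2 * ‖c‖ + r + r * R1 + 1 < ‖x‖ → ∀ k,
      |z k x - (if d = 2 then m0 k * Real.log ‖x‖ else 0)| ≤
        (C0 + |c1| * (2 * r) ^ (d - 1)) * (‖x‖ ^ (d - 2))⁻¹ := by
    intro x hx k
    have hrR : 0 < r * R1 := mul_pos hr hR1
    have hx1 : 1 < ‖x‖ := by linarith
    have hxc : ‖x‖ - ‖c‖ ≤ ‖x - c‖ := norm_sub_norm_le x c
    have hxE : x ∈ E := (hEmem x).2 (by linarith)
    rw [hzout k x hxE]
    have h1 := hgw x (by linarith) k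
    have hy : ‖r⁻¹ • (x - c)‖ = ‖x - c‖ / r := by
      rw [norm_smul, norm_inv, Real.norm_eq_abs, abs_of_pos hr]
      ring
    have h2 := hfw (r⁻¹ • (x - c)) (by
      rw [hy, lt_div_iff₀ hr]
      linarith [mul_comm r R1]) k
    rw [hy] at h2
    have h3 : ‖x‖ / (2 * r) ≤ ‖x - c‖ / r := by
      rw [div_le_div_iff₀ (by positivity) hr]
      nlinarith
    have h4 : ((‖x - c‖ / r) ^ (d - 1))⁻¹ ≤ (2 * r) ^ (d - 1) * (‖x‖ ^ (d - 2))⁻¹ := by
      have h5 : ((‖x - c‖ / r) ^ (d - 1))⁻¹ ≤ ((‖x‖ / (2 * r)) ^ (d - 1))⁻¹ :=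
        inv_anti₀ (by positivity) (pow_le_pow_left₀ (by positivity) h3 _)
      have h6 : ((‖x‖ / (2 * r)) ^ (d - 1))⁻¹ = (2 * r) ^ (d - 1) * (‖x‖ ^ (d - 1))⁻¹ := by
        rw [div_pow, inv_div, div_eq_mul_inv]
      have h7 : (‖x‖ ^ (d - 1))⁻¹ ≤ (‖x‖ ^ (d - 2))⁻¹ :=
        inv_anti₀ (by positivity) (pow_le_pow_right₀ hx1.le (by omega))
      rw [h6] at h5
      exact h5.trans (mul_le_mul_of_nonneg_left h7 (by positivity))
    have h5 : |fw Z D k (r⁻¹ • (x - c))| ≤ |c1| * (2 * r) ^ (d - 1) * (‖x‖ ^ (d - 2))⁻¹ := by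
      refine h2.trans ?_
      have h6 : c1 * ((‖x - c‖ / r) ^ (d - 1))⁻¹ ≤ |c1| * ((‖x - c‖ / r) ^ (d - 1))⁻¹ :=
        mul_le_mul_of_nonneg_right (le_abs_self c1) (by positivity)
      refine h6.trans ?_
      rw [mul_assoc]
      exact mul_le_mul_of_nonneg_left h4 (abs_nonneg c1)
    have h6 : zt k x - (if d = 2 then m0 k * Real.log ‖x‖ else 0) =
        (w k x - (if d = 2 then m0 k * Real.log ‖x‖ else 0)) - fw Z D k (r⁻¹ • (x - c)) := by
      simp only [hztd, back]
      ring
    rw [h6]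
    refine (abs_sub _ _).trans ?_
    rw [add_mul]
    exact add_le_add h1 h5
  have hgrow : Grw z := ⟨m0, _, R0 + 2 * ‖c‖ + r + r * R1 + 1, by positivity, hgz⟩
  -- zero strain outside
  have hliou := liou Z hzWD hzWE hgrow
  have hstr : ∀ x ∈ E, ∀ i k, pd i (zt k) x + pd k (zt i) x = 0 := by
    intro x hx i k
    have hc1 : ContinuousOn (fun x => pd i (zt k) x + pd k (zt i) x) E :=
      ((pd_contDiffOn hE (hzts k) i).continuousOn).add
        ((pd_contDiffOn hE (hzts i) k).continuousOn)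
    refine eq_of_ae_eq (g := fun _ => 0) hE hc1 continuousOn_const ?_ x hx
    rw [ae_restrict_iff' hEm]
    filter_upwards [hliou k i] with y hy hyE
    rw [← hGout k i y hyE, ← hGout i k y hyE]
    exact hy
  have hconn : IsPreconnected E := by rw [hE']; exact ext_conn hd c hr.le
  obtain ⟨a, ha⟩ := strain_zero hE hconn hzts hstr
  have ha0 : ∀ i k, a i k = 0 := by
    intro i k
    have hzE : ContDiffOn ℝ ∞ (zt k) (closedBall c r)ᶜ := by rw [← hEd]; exact hzts k
    refine m4_zero hr hzE (a := a i k) (fun x hx => ha x (by rw [hEd]; exact hx) i k)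
      (m := m0 k) (B := |C0 + |c1| * (2 * r) ^ (d - 1)|)
      (R := R0 + 2 * ‖c‖ + r + r * R1 + 1) fun x hx => ?_
    have hrR : 0 < r * R1 := mul_pos hr hR1
    have hx1 : 1 < ‖x‖ := by linarith
    have hxc : ‖x‖ - ‖c‖ ≤ ‖x - c‖ := norm_sub_norm_le x c
    have hxE : x ∈ E := (hEmem x).2 (by linarith)
    have h1 := hgz x hx k
    rw [hzout k x hxE] at h1
    have h2 : (C0 + |c1| * (2 * r) ^ (d - 1)) * (‖x‖ ^ (d - 2))⁻¹ ≤
        |C0 + |c1| * (2 * r) ^ (d - 1)| := by
      have h3 : (‖x‖ ^ (d - 2))⁻¹ ≤ 1 := inv_le_one_of_one_le₀ (one_le_pow₀ hx1.le)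
      have h4 : 0 ≤ (‖x‖ ^ (d - 2))⁻¹ := by positivity
      calc (C0 + |c1| * (2 * r) ^ (d - 1)) * (‖x‖ ^ (d - 2))⁻¹ ≤
            |C0 + |c1| * (2 * r) ^ (d - 1)| * (‖x‖ ^ (d - 2))⁻¹ :=
            mul_le_mul_of_nonneg_right (le_abs_self _) h4
        _ ≤ |C0 + |c1| * (2 * r) ^ (d - 1)| * 1 :=
            mul_le_mul_of_nonneg_left h3 (abs_nonneg _)
        _ = _ := mul_one _
    have h3 : |(if d = 2 then m0 k * Real.log ‖x‖ else 0 : ℝ)| ≤ |m0 k| * Real.log ‖x‖ := by
      have hlog : 0 ≤ Real.log ‖x‖ := Real.log_nonneg hx1.le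
      split_ifs
      · rw [abs_mul, abs_of_nonneg hlog]
      · rw [abs_zero]
        positivity
    have h4 : |zt k x| ≤ |zt k x - (if d = 2 then m0 k * Real.log ‖x‖ else 0)| +
        |(if d = 2 then m0 k * Real.log ‖x‖ else 0 : ℝ)| := by
      have := abs_add_le (zt k x - (if d = 2 then m0 k * Real.log ‖x‖ else 0))
        (if d = 2 then m0 k * Real.log ‖x‖ else 0)
      rwa [sub_add_cancel] at this
    linarith
  -- conclusion
  obtain ⟨i0⟩ := hne
  set x0 : EE d := c + (2 * r) • EuclideanSpace.single i0 (1 : ℝ) with hx0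
  have hx0E : x0 ∈ E := by
    rw [hEmem, hx0, add_sub_cancel_left, norm_smul, Real.norm_eq_abs,
      abs_of_pos (by linarith : 0 < 2 * r)]
    simp
    linarith
  refine ⟨ρ, D, fun k => zt k x0, hρ, hD, hballV, hDH, fun y hy k => ?_⟩
  have hxE : c + r • y ∈ E := by
    rw [hEmem, add_sub_cancel_left, norm_smul, Real.norm_eq_abs, abs_of_pos hr]
    have := mul_lt_mul_of_pos_left hy hr
    linarith
  have hconst : zt k (c + r • y) = zt k x0 := by
    refine hE.is_const_of_fderiv_eq_zero (𝕜 := ℝ) hconn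
      (fun x hx => (((hzts k).contDiffAt (hE.mem_nhds hx)).differentiableAt
        (by simp)).differentiableWithinAt) (fun x hx => ?_) hxE hx0E
    ext v
    rw [fderiv_eq_sum]
    simp [ha x hx, ha0]
  have h1 : zt k (c + r • y) = w k (c + r • y) - fw Z D k y := by
    simp only [hztd, back]
    rw [add_sub_cancel_left, smul_smul, inv_mul_cancel₀ hr.ne', one_smul]
  unfold aff
  linarith

end Pool.Agent.MP_0643f8_an.U
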