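import Mathlib
import Pool.Agent.Lib.MP_0643f8_an.U.R2_Lame
import Pool.Agent.Lib.MP_0643f8_an.U.R5_Match

/-!
# If the background field extends, the data extend

`D` is good near `0`, `H'` is a Lame field on the star-shaped set `A` equal to `fH D` near `0`.
* near `0`, `dv H' = d c₀ γ + (2μ A M P_W)(E) q` (`dv_inW`): `q` extends by `ext_exists`;
* `Φ = H' - c₀ γ x - h - inW P_W q'` has zero divergence near `0`, hence on `A` (`ident_star`), so
  it has harmonic components; near `0`, `x·Φ = E P_U(E) p`: `p` extends by `ext_exists` with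
  `X * P_U`;
* near `0`, `Φ - ∇ P_U(E) p' = P_T(E) T`: each `T k` extends.
The conditions at `0` are those of `D`; `∇·T'` and then `x·T'` are harmonic and vanish near `0`,
hence on `A`.
-/

set_option autoImplicit false

open MeasureTheory Metric Set Filter Topology Polynomial
open scoped ContDiff

namespace Pool.Agent.MP_0643f8_an.U

variable {d : ℕ} (Z : Cst d)

private theorem r8_dv_const (h : Fin d → ℝ) (x : EE d) : dv (fun k _ => h k) x = 0 := by
  unfold dv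
  exact Finset.sum_eq_zero fun k _ => pd_const _ _ _

/-- the divergence of the background field -/
private theorem r8_dv_fH {A : Set (EE d)} (hA : IsOpen A) {D : Dat d} (hD : D.On A) {x : EE d}
    (hx : x ∈ A) : dv (fH Z D) x =
      Z.c0 * D.γ * d + pE (C (2 * Z.mu) * pA d * pM d * Z.PW) D.q x := by
  have h1 : IsLame Z.kap A (fun k (_ : EE d) => D.h k) := lame_const _
  have h2 : IsLame Z.kap A (fun k (x : EE d) => Z.c0 * D.γ * x k) := lame_dil _
  have hU : Hm A (pE Z.PU D.p) := hm_pE hA hD.hp _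
  obtain ⟨h3, h3'⟩ := lame_grad (κ := Z.kap) hA hU
  have h4 : IsLame Z.kap A (inW Z.lam Z.mu Z.PW D.q) := lame_inW hA hD.hq Z.hmu.ne' _
  have hT : ∀ k, Hm A (pE Z.PT (D.T k)) := fun k => hm_pE hA (hD.hT k) _
  have hT' := (tor_pE hA hD.hT hD.xT hD.dT Z.PT).2 x hx
  have df : ∀ {u : Fin d → EE d → ℝ}, IsLame Z.kap A u → ∀ k, DifferentiableAt ℝ (u k) x :=
    fun hu k => ((lame_smooth hA hu k).contDiffAt (hA.mem_nhds hx)).differentiableAt (by simp)
  have e : fH Z D = fun k y => (((D.h k + Z.c0 * D.γ * y k) + pd k (pE Z.PU D.p) y) +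
      inW Z.lam Z.mu Z.PW D.q k y) + pE Z.PT (D.T k) y := rfl
  have a1 : IsLame Z.kap A (fun k (y : EE d) => D.h k + Z.c0 * D.γ * y k) := lame_add hA h1 h2
  have a2 : IsLame Z.kap A (fun k (y : EE d) => (D.h k + Z.c0 * D.γ * y k) +
      pd k (pE Z.PU D.p) y) := lame_add hA a1 h3
  have a3 : IsLame Z.kap A (fun k (y : EE d) => ((D.h k + Z.c0 * D.γ * y k) +
      pd k (pE Z.PU D.p) y) + inW Z.lam Z.mu Z.PW D.q k y) := lame_add hA a2 h4
  rw [e, dv_add (df a3) (fun k => hm_diffAt (hT k) hA hx), dv_add (df a2) (df h4),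
    dv_add (df a1) (df h3), dv_add (df h1) (df h2), r8_dv_const, dv_dil, h3' x hx,
    dv_inW hA hD.hq _ _ _ hx, hT']
  ring

theorem ext_of_H {A : Set (EE d)} (hA : StarO A) {D : Dat d} {δ : ℝ} (hδ : 0 < δ)
    (hD : D.On (ball 0 δ)) {H' : Fin d → EE d → ℝ} (hH : IsLame Z.kap A H')
    (h : ∀ k, H' k =ᶠ[𝓝 0] fH Z D k) : ∃ D' : Dat d, D'.On A ∧ D'.Eq D := by
  have hAo := hA.1
  have hA0 := hA.2.1
  have hball : ball (0 : EE d) δ ∈ 𝓝 (0 : EE d) := isOpen_ball.mem_nhds (mem_ball_self hδ)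
  -- extension of `q`
  have hθ : Hm A (dv H') := hm_dv hAo hH
  have hg1 : Hm A (fun x => dv H' x - Z.c0 * D.γ * d) := hm_sub hAo hθ (hm_const A _)
  have hP1 : C (2 * Z.mu) * pA d * pM d * Z.PW ≠ 0 :=
    mul_ne_zero (roots_AM Z).1 (roots_PW Z).1
  have hq1 : pE (C (2 * Z.mu) * pA d * pM d * Z.PW) D.q =ᶠ[𝓝 0]
      (fun x => dv H' x - Z.c0 * D.γ * d) := by
    filter_upwards [dv_congr h, hball] with x hx hxb
    rw [hx, r8_dv_fH Z isOpen_ball hD hxb]
    ring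
  obtain ⟨q', hq', hqe, hqA⟩ := ext_exists Z.hd hA hP1 hg1 hδ hD.hq hq1
  -- the field `Φ`
  set Φ : Fin d → EE d → ℝ := fun k x => (H' k x - (D.h k + Z.c0 * D.γ * x k)) -
    inW Z.lam Z.mu Z.PW q' k x with hΦ
  have l1 : IsLame Z.kap A (fun k (_ : EE d) => D.h k) := lame_const _
  have l2 : IsLame Z.kap A (fun k (x : EE d) => Z.c0 * D.γ * x k) := lame_dil _
  have l12 : IsLame Z.kap A (fun k (y : EE d) => D.h k + Z.c0 * D.γ * y k) := lame_add hAo l1 l2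
  have l3 : IsLame Z.kap A (fun k (y : EE d) => H' k y - (D.h k + Z.c0 * D.γ * y k)) :=
    lame_sub hAo hH l12
  have l4 : IsLame Z.kap A (inW Z.lam Z.mu Z.PW q') := lame_inW hAo hq' Z.hmu.ne' _
  have lΦ : IsLame Z.kap A Φ := lame_sub hAo l3 l4
  have df : ∀ {u : Fin d → EE d → ℝ}, IsLame Z.kap A u → ∀ x ∈ A,
      ∀ k, DifferentiableAt ℝ (u k) x :=
    fun hu x hx k => ((lame_smooth hAo hu k).contDiffAt (hAo.mem_nhds hx)).differentiableAt
      (by simp)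
  have dΦ : ∀ x ∈ A, dv Φ x = 0 := by
    intro x hx
    rw [hΦ, dv_sub (df l3 x hx) (df l4 x hx), dv_sub (df hH x hx) (df l12 x hx),
      dv_add (df l1 x hx) (df l2 x hx), r8_dv_const, dv_dil, dv_inW hAo hq' _ _ _ hx, hqA x hx]
    ring
  have hmΦ : ∀ k, Hm A (Φ k) := hm_of_lame hAo lΦ dΦ
  have eΦ : ∀ k, Φ k =ᶠ[𝓝 0] fun x => pd k (pE Z.PU D.p) x + pE Z.PT (D.T k) x := by
    intro k
    have hW : inW Z.lam Z.mu Z.PW q' k =ᶠ[𝓝 0] inW Z.lam Z.mu Z.PW D.q k :=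
      Wf_congr (pE_congr hqe _) (pE_congr hqe _) k
    filter_upwards [h k, hW] with x hx hWx
    have e1 : fH Z D k x = D.h k + Z.c0 * D.γ * x k + pd k (pE Z.PU D.p) x +
      inW Z.lam Z.mu Z.PW D.q k x + pE Z.PT (D.T k) x := rfl
    rw [hΦ]
    simp only
    rw [hx, hWx, e1]
    ring
  -- extension of `p`
  have hσ : Hm A (fun x => ∑ k, x k * Φ k x) := hm_xdot hAo hmΦ dΦ
  have hP2 : X * Z.PU ≠ 0 := mul_ne_zero X_ne_zero (roots_PU Z).1
  have hxT := (tor_pE isOpen_ball hD.hT hD.xT hD.dT Z.PT).1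
  have hp1 : pE (X * Z.PU) D.p =ᶠ[𝓝 0] (fun x => ∑ k, x k * Φ k x) := by
    filter_upwards [eventually_all.2 eΦ, hball] with x hx hxb
    rw [← eul_pE isOpen_ball hD.hp.1 _ hxb, eul_eq_sum]
    have e2 : ∑ k, x k * Φ k x = ∑ k, (x k * pd k (pE Z.PU D.p) x + x k * pE Z.PT (D.T k) x) :=
      Finset.sum_congr rfl fun k _ => by rw [hx k]; ring
    rw [e2, Finset.sum_add_distrib, hxT x hxb, add_zero]
  obtain ⟨p', hp', hpe, hpA⟩ := ext_exists Z.hd hA hP2 hσ hδ hD.hp hp1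
  -- extension of `T`
  have hmU : Hm A (pE Z.PU p') := hm_pE hAo hp' _
  have hT1 : ∀ k, ∃ T' : EE d → ℝ, Hm A T' ∧ T' =ᶠ[𝓝 0] D.T k ∧
      ∀ x ∈ A, pE Z.PT T' x = Φ k x - pd k (pE Z.PU p') x := by
    intro k
    refine ext_exists Z.hd hA (roots_PT Z).1 (hm_sub hAo (hmΦ k) (hm_pd hAo hmU k)) hδ
      (hD.hT k) ?_
    filter_upwards [eΦ k, pd_congr (pE_congr hpe Z.PU) k] with x hx hx'
    rw [hx, hx']
    ring
  choose T' hT' hTe hTA using hT1
  have hdT : ∀ x ∈ A, dv T' x = 0 := by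
    refine ident_star Z.hd hA ?_ ?_
    · unfold dv
      exact hm_sum _ hAo fun k _ => hm_pd hAo (hT' k) k
    · filter_upwards [dv_congr hTe, hball] with x hx hxb
      rw [hx, hD.dT x hxb]
  have hxT' : ∀ x ∈ A, ∑ k, x k * T' k x = 0 := by
    refine ident_star Z.hd hA (hm_xdot hAo hT' hdT) ?_
    filter_upwards [eventually_all.2 hTe, hball] with x hx hxb
    rw [← hD.xT x hxb]
    exact Finset.sum_congr rfl fun k _ => by rw [hx k]
  refine ⟨⟨p', q', T', D.h, D.γ⟩, ⟨hp', hq', hT', ?_, ?_, ?_, ?_, hxT', hdT⟩,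
    ⟨hpe, hqe, hTe, rfl, rfl⟩⟩
  · exact hpe.eq_of_nhds.trans hD.p0
  · exact fun i => (pd_congr hpe i).eq_of_nhds.trans (hD.p1 i)
  · exact hqe.eq_of_nhds.trans hD.q0
  · exact fun k => (hTe k).eq_of_nhds.trans (hD.T0 k)

end Pool.Agent.MP_0643f8_an.U
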