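import Mathlib
import Pool.Agent.Lib.MP_0643f8_an.U.R2_Lame

/-!
# If the exterior field extends, the data extend

`K` is compact, star-shaped about `0`, `0 ∈ K`; `w'` is a Lame field on the complement of `K` equal
to `fw D` near infinity; `A = {x | x = 0 ∨ inv x ∉ K}` is open and star-shaped and
`RS A = Kᶜ`.
* near infinity `dv w' = kel (R(E) p)` with `R = -(2μ X (2X+d-4) M P_D)` (`dv_exU`, `dv_pole`,
  harmonic gradients and the toroidal part have zero divergence). The function equal to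
  `kel (dv w')` off `0` and to `R(E) p` near `0` is harmonic on `A`: `p` extends (`ext_exists`).
* `w₁ = w' - exU P_D p'` has zero divergence near infinity, hence off `K` (`ident_out`), so its
  components and `x·w₁` (`hm_xdot`) are harmonic. Near infinity
  `x·w₁ = c₁ γ |x|^{2-d} + kel ((X+d-2) Q (E) q)` (`eul_kel`), so `kel (x·w₁) - c₁ γ` (completed
  at `0`) is harmonic on `A`: `q` extends.
* `w₂ = w₁ - pole + ∇ kel (Q(E) q')` is, near infinity, `kel (P_E(E) T)`: the `T k` extend.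
-/

set_option autoImplicit false

open MeasureTheory Metric Set Filter Topology Polynomial
open scoped ContDiff

namespace Pool.Agent.MP_0643f8_an.U

variable {d : ℕ} (Z : Cst d)

/-- the complement of the inverted set -/
def invC (K : Set (EE d)) : Set (EE d) := {x | x = 0 ∨ inv x ∉ K}

private theorem r9_inv_smul {t : ℝ} (ht : 0 < t) (x : EE d) : inv (t • x) = t⁻¹ • inv x := by
  unfold inv
  rw [norm_smul, Real.norm_of_nonneg ht.le, smul_smul, smul_smul]
  congr 1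
  rw [mul_pow, mul_inv]
  field_simp

theorem invC_star {K : Set (EE d)} (hK : IsCompact K) (h0 : (0 : EE d) ∈ K)
    (hs : ∀ x ∈ K, ∀ t : ℝ, 0 ≤ t → t ≤ 1 → t • x ∈ K) : StarO (invC K) ∧ RS (invC K) = Kᶜ := by
  refine ⟨⟨compl_inv_isOpen hK h0, Or.inl rfl, ?_⟩, ?_⟩
  · intro x hx t ht0 ht1
    rcases eq_or_lt_of_le ht0 with h | h
    · left
      rw [← h, zero_smul]
    · rcases hx with hx | hx
      · left
        rw [hx, smul_zero]
      · right
        rw [r9_inv_smul h]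
        intro hmem
        have h1 := hs _ hmem t ht0 ht1
        rw [smul_smul, mul_inv_cancel₀ h.ne', one_smul] at h1
        exact hx h1
  · ext x
    constructor
    · rintro ⟨hx, h1 | h1⟩
      · exact absurd h1 (inv_ne_zero' hx)
      · rw [inv_inv' hx] at h1
        exact h1
    · intro hx
      have hx0 : x ≠ 0 := fun h => hx (h ▸ h0)
      refine ⟨hx0, Or.inr ?_⟩
      rw [inv_inv' hx0]
      exact hx

private theorem r9_far {ε : ℝ} (hε : 0 < ε) {x : EE d} (hx : ε⁻¹ < ‖x‖) :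
    x ∈ RS (ball (0 : EE d) ε) := by
  have h1 : 0 < ‖x‖ := (inv_pos.mpr hε).trans hx
  have h2 : x ≠ 0 := norm_pos_iff.mp h1
  refine ⟨h2, ?_⟩
  rw [mem_ball_zero_iff, norm_inv' h2]
  exact inv_lt_of_inv_lt₀ hε hx

private theorem r9_on_mono {D : Dat d} {A B : Set (EE d)} (hD : D.On A) (h : B ⊆ A)
    (_h0 : (0 : EE d) ∈ B) : D.On B :=
  ⟨hm_mono hD.hp h, hm_mono hD.hq h, fun k => hm_mono (hD.hT k) h, hD.p0, hD.p1, hD.q0, hD.T0,
    fun x hx => hD.xT x (h hx), fun x hx => hD.dT x (h hx)⟩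

private theorem r9_eul_sum {ι : Type*} (s : Finset ι) {f : ι → EE d → ℝ} {x : EE d}
    (hf : ∀ j ∈ s, DifferentiableAt ℝ (f j) x) :
    eul (fun y => ∑ j ∈ s, f j y) x = ∑ j ∈ s, eul (f j) x := by
  rw [eul_eq_sum]
  simp only [eul_eq_sum]
  rw [Finset.sum_comm]
  refine Finset.sum_congr rfl fun i _ => ?_
  rw [pd_sum s hf i, Finset.mul_sum]

private theorem r9_tor_eul {A : Set (EE d)} (hA : IsOpen A) {S : Fin d → EE d → ℝ}
    (hS : ∀ k, Hm A (S k)) (hx : ∀ x ∈ A, ∑ k, x k * S k x = 0) (hdiv : ∀ x ∈ A, dv S x = 0) :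
    (∀ x ∈ A, ∑ k, x k * eul (S k) x = 0) ∧ ∀ x ∈ A, dv (fun k => eul (S k)) x = 0 := by
  refine ⟨fun x hxA => ?_, fun x hxA => ?_⟩
  · have h1 : eul (fun y : EE d => ∑ k, y k * S k y) x = 0 := by
      have h0 : (fun y : EE d => ∑ k, y k * S k y) =ᶠ[𝓝 x] fun _ => 0 := by
        filter_upwards [hA.mem_nhds hxA] with y hy using hx y hy
      rw [(eul_congr h0).self_of_nhds]
      unfold eul
      simp
    have hc : ∀ k : Fin d, DifferentiableAt ℝ (fun y : EE d => y k) x := fun k =>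
      (EuclideanSpace.proj k : EE d →L[ℝ] ℝ).differentiableAt
    rw [r9_eul_sum (f := fun (k : Fin d) (y : EE d) => y k * S k y) _
      (fun k _ => (hc k).mul (hm_diffAt (hS k) hA hxA))] at h1
    have h2 : ∀ k, eul (fun y : EE d => y k * S k y) x = x k * eul (S k) x + S k x * x k := by
      intro k
      rw [eul_mul (hc k) (hm_diffAt (hS k) hA hxA), eul_coord]
    simp only [h2, Finset.sum_add_distrib] at h1
    have h3 : ∑ k, S k x * x k = 0 := by
      rw [← hx x hxA]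
      exact Finset.sum_congr rfl fun k _ => mul_comm _ _
    linarith
  · have h1 : eul (dv S) x = 0 := by
      have h0 : dv S =ᶠ[𝓝 x] fun _ => 0 := by
        filter_upwards [hA.mem_nhds hxA] with y hy using hdiv y hy
      rw [(eul_congr h0).self_of_nhds]
      unfold eul
      simp
    have h2 : eul (dv S) x = ∑ k, eul (pd k (S k)) x :=
      r9_eul_sum (f := fun (k : Fin d) => pd k (S k)) _
        (fun k _ => hm_diffAt (hm_pd hA (hS k) k) hA hxA)
    have h3 : dv (fun k => eul (S k)) x = ∑ k, (eul (pd k (S k)) x + pd k (S k) x) :=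
      Finset.sum_congr rfl fun k _ => pd_eul (hm_contDiffAt2 (hS k) hA hxA) k
    rw [h3, Finset.sum_add_distrib, ← h2, h1, zero_add]
    exact hdiv x hxA

private theorem r9_tor_pE {A : Set (EE d)} (hA : IsOpen A) {S : Fin d → EE d → ℝ}
    (hS : ∀ k, Hm A (S k)) (hx : ∀ x ∈ A, ∑ k, x k * S k x = 0) (hdiv : ∀ x ∈ A, dv S x = 0)
    (P : ℝ[X]) : (∀ x ∈ A, ∑ k, x k * pE P (S k) x = 0) ∧
      ∀ x ∈ A, dv (fun k => pE P (S k)) x = 0 := by
  induction P using Polynomial.induction_on' with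
  | add p q hp hq =>
    refine ⟨fun x hxA => ?_, fun x hxA => ?_⟩
    · have h1 : ∀ k : Fin d, x k * pE (p + q) (S k) x = x k * pE p (S k) x + x k * pE q (S k) x := by
        intro k
        rw [pE_add_left, mul_add]
      rw [Finset.sum_congr rfl fun k _ => h1 k, Finset.sum_add_distrib, hp.1 x hxA, hq.1 x hxA,
        add_zero]
    · have h1 : (fun k => pE (p + q) (S k)) = fun k y => pE p (S k) y + pE q (S k) y := by
        funext k y
        exact pE_add_left p q (S k) y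
      rw [h1, dv_add (fun k => hm_diffAt (hm_pE hA (hS k) p) hA hxA)
        (fun k => hm_diffAt (hm_pE hA (hS k) q) hA hxA), hp.2 x hxA, hq.2 x hxA, add_zero]
  | monomial n a =>
    induction n with
    | zero =>
      refine ⟨fun x hxA => ?_, fun x hxA => ?_⟩
      · have h1 : ∀ k : Fin d, x k * pE (monomial 0 a) (S k) x = a * (x k * S k x) := by
          intro k
          rw [monomial_zero_left, pE_C]
          ring
        rw [Finset.sum_congr rfl fun k _ => h1 k, ← Finset.mul_sum, hx x hxA, mul_zero]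
      · have h1 : (fun k => pE (monomial 0 a) (S k)) = fun k y => a * S k y := by
          funext k y
          rw [monomial_zero_left, pE_C]
        rw [h1, dv_cmul (fun k => hm_diffAt (hS k) hA hxA), hdiv x hxA, mul_zero]
    | succ n ih =>
      obtain ⟨t1, t2⟩ := r9_tor_eul hA (fun k => hm_pE hA (hS k) (monomial n a)) ih.1 ih.2
      have h1 : ∀ k, ∀ y ∈ A, pE (monomial (n + 1) a) (S k) y =
          eul (pE (monomial n a) (S k)) y := by
        intro k y hy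
        rw [eul_pE hA (hS k).1 _ hy, X_mul_monomial]
      refine ⟨fun x hxA => ?_, fun x hxA => ?_⟩
      · rw [Finset.sum_congr rfl fun k _ => by rw [h1 k x hxA]]
        exact t1 x hxA
      · have h2 : dv (fun k => pE (monomial (n + 1) a) (S k)) =ᶠ[𝓝 x]
            dv (fun k => eul (pE (monomial n a) (S k))) := dv_congr fun k => by
          filter_upwards [hA.mem_nhds hxA] with y hy
          exact h1 k y hy
        rw [h2.self_of_nhds]
        exact t2 x hxA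

/-- the exterior field without the type U part -/
private noncomputable def r9_rest (D : Dat d) (k : Fin d) (x : EE d) : ℝ :=
  pole (Z.c1 * D.γ) k x - pd k (kel (pE Z.PQ D.q)) x + kel (pE Z.PE (D.T k)) x

private theorem r9_fw_eq (D : Dat d) (k : Fin d) (x : EE d) :
    fw Z D k x = r9_rest Z D k x + exU Z.lam Z.mu Z.PD D.p k x := by
  unfold fw r9_rest exU
  ring

private theorem r9_rest_diff {D : Dat d} {B : Set (EE d)} (hD : D.On B) (hB : IsOpen B)
    {x : EE d} (hx : x ∈ RS B) (k : Fin d) : DifferentiableAt ℝ (r9_rest Z D k) x := by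
  have hd := Z.hd
  have hRo := isOpen_RS hB
  have h1 : DifferentiableAt ℝ (pole (Z.c1 * D.γ) k : EE d → ℝ) x :=
    ((lame_smooth (κ := 0) isOpen_ne (lame_pole hd (Z.c1 * D.γ)) k).contDiffAt
      (isOpen_ne.mem_nhds hx.1)).differentiableAt (by simp)
  have h2 : DifferentiableAt ℝ (pd k (kel (pE Z.PQ D.q))) x :=
    hm_diffAt (hm_pd hRo (hm_kel hd hB (hm_pE hB hD.hq _)) k) hRo hx
  have h3 : DifferentiableAt ℝ (kel (pE Z.PE (D.T k))) x :=
    hm_diffAt (hm_kel hd hB (hm_pE hB (hD.hT k) _)) hRo hx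
  exact (h1.sub h2).add h3

private theorem r9_dv_rest {D : Dat d} {B : Set (EE d)} (hD : D.On B) (hB : IsOpen B)
    {x : EE d} (hx : x ∈ RS B) : dv (r9_rest Z D) x = 0 := by
  have hd := Z.hd
  have hRo := isOpen_RS hB
  have h1 : ∀ k, DifferentiableAt ℝ (pole (Z.c1 * D.γ) k : EE d → ℝ) x := fun k =>
    ((lame_smooth (κ := 0) isOpen_ne (lame_pole hd (Z.c1 * D.γ)) k).contDiffAt
      (isOpen_ne.mem_nhds hx.1)).differentiableAt (by simp)
  have hk := hm_kel hd hB (hm_pE hB hD.hq Z.PQ)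
  have h2 : ∀ k, DifferentiableAt ℝ (pd k (kel (pE Z.PQ D.q))) x := fun k =>
    hm_diffAt (hm_pd hRo hk k) hRo hx
  have h3 : ∀ k, DifferentiableAt ℝ (kel (pE Z.PE (D.T k))) x := fun k =>
    hm_diffAt (hm_kel hd hB (hm_pE hB (hD.hT k) _)) hRo hx
  have e1 : dv (r9_rest Z D) x = dv (fun k y => (pole (Z.c1 * D.γ) k y -
      pd k (kel (pE Z.PQ D.q)) y) + kel (pE Z.PE (D.T k)) y) x := rfl
  obtain ⟨t1, t2⟩ := r9_tor_pE hB hD.hT hD.xT hD.dT Z.PE
  have t3 := (kel_tor hd hB (fun k => hm_pE hB (hD.hT k) Z.PE) t1 t2).2 x hx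
  have h4 : ∀ k, DifferentiableAt ℝ (fun y => pole (Z.c1 * D.γ) k y -
      pd k (kel (pE Z.PQ D.q)) y) x := fun k => (h1 k).sub (h2 k)
  rw [e1, dv_add h4 h3, dv_sub h1 h2, dv_pole hd _ hx.1, t3,
    (lame_grad (κ := 0) hRo hk).2 x hx]
  ring

private theorem r9_dv_fw {D : Dat d} {B : Set (EE d)} (hD : D.On B) (hB : IsOpen B)
    {x : EE d} (hx : x ∈ RS B) : dv (fw Z D) x =
      kel (pE (-(C (2 * Z.mu) * (X * (2 * X + C ((d : ℝ) - 4))) * pM d * Z.PD)) D.p) x := by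
  have hd := Z.hd
  have hRo := isOpen_RS hB
  have e1 : fw Z D = fun k y => r9_rest Z D k y + exU Z.lam Z.mu Z.PD D.p k y := by
    funext k y
    exact r9_fw_eq Z D k y
  have h2 : ∀ k, DifferentiableAt ℝ (exU Z.lam Z.mu Z.PD D.p k) x := fun k =>
    ((lame_smooth hRo (lame_exU hd hB hD.hp Z.hmu.ne' Z.PD) k).contDiffAt
      (hRo.mem_nhds hx)).differentiableAt (by simp)
  rw [e1, dv_add (fun k => r9_rest_diff Z hD hB hx k) h2, r9_dv_rest Z hD hB hx, zero_add]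
  exact dv_exU hd hB hD.hp Z.lam Z.mu Z.PD hx

private theorem r9_xdot_rest {D : Dat d} {B : Set (EE d)} (hD : D.On B) (hB : IsOpen B)
    {x : EE d} (hx : x ∈ RS B) : ∑ k, x k * r9_rest Z D k x =
      kel (fun y => Z.c1 * D.γ + pE ((X + C ((d : ℝ) - 2)) * Z.PQ) D.q y) x := by
  have hd := Z.hd
  have hRo := isOpen_RS hB
  obtain ⟨t1, t2⟩ := r9_tor_pE hB hD.hT hD.xT hD.dT Z.PE
  have t3 := (kel_tor hd hB (fun k => hm_pE hB (hD.hT k) Z.PE) t1 t2).1 x hx
  have hq := hm_pE hB hD.hq Z.PQ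
  have e1 : ∑ k, x k * r9_rest Z D k x = Z.c1 * D.γ * (‖x‖ ^ 2 / ‖x‖ ^ d) -
      eul (kel (pE Z.PQ D.q)) x + ∑ k, x k * kel (pE Z.PE (D.T k)) x := by
    rw [eul_eq_sum, normsq_eq_sum, Finset.sum_div, Finset.mul_sum, ← Finset.sum_sub_distrib,
      ← Finset.sum_add_distrib]
    refine Finset.sum_congr rfl fun k _ => ?_
    unfold r9_rest pole
    ring
  have hx0 : 0 < ‖x‖ := norm_pos_iff.mpr hx.1
  have e2 : ‖x‖ ^ 2 / ‖x‖ ^ d = (‖x‖ ^ (d - 2))⁻¹ := by
    have : ‖x‖ ^ d = ‖x‖ ^ (d - 2) * ‖x‖ ^ 2 := by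
      rw [← pow_add]
      congr 1
      omega
    rw [this]
    field_simp
  have e3 : pE ((X + C ((d : ℝ) - 2)) * Z.PQ) D.q (inv x) =
      eul (pE Z.PQ D.q) (inv x) + ((d : ℝ) - 2) * pE Z.PQ D.q (inv x) := by
    rw [add_mul, pE_add_left, pE_C_mul, eul_pE hB hD.hq.1 _ hx.2]
  rw [e1, t3, add_zero, e2, eul_kel hd hx.1 (hm_diffAt hq hB hx.2)]
  simp only [kel]
  rw [e3]
  ring

private theorem r9_Rp_ne :
    (-(C (2 * Z.mu) * (X * (2 * X + C ((d : ℝ) - 4))) * pM d * Z.PD) : ℝ[X]) ≠ 0 := by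
  have h2 : ∀ a : ℝ, (2 * X + C a : ℝ[X]) ≠ 0 := by
    intro a h
    have h1 := congrArg (fun P : ℝ[X] => P.coeff 1) h
    have h3 : (2 * X + C a : ℝ[X]).coeff 1 = 2 := by
      have : (2 : ℝ[X]) = C 2 := rfl
      rw [this, coeff_add, coeff_C_mul, coeff_X_one, coeff_C_succ]
      norm_num
    simp only [coeff_zero] at h1
    rw [h3] at h1
    norm_num at h1
  refine neg_ne_zero.mpr (mul_ne_zero (mul_ne_zero (mul_ne_zero ?_ (mul_ne_zero X_ne_zero ?_)) ?_)
    (PD_ne Z))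
  · rw [Ne, C_eq_zero]
    have := Z.hmu
    positivity
  · exact h2 _
  · exact h2 _

/-- extension of `f` from the field `F = kel (c + P(E) f)` near infinity -/
private theorem r9_ext_kel (hd : 2 ≤ d) {A : Set (EE d)} (hA : StarO A) {P : ℝ[X]} (hP : P ≠ 0)
    {f : EE d → ℝ} {δ : ℝ} (hδ : 0 < δ) (hf : Hm (ball 0 δ) f) {F : EE d → ℝ}
    (hF : Hm (RS A) F) (c : ℝ) {R : ℝ}
    (h : ∀ x : EE d, R < ‖x‖ → F x = kel (fun y => c + pE P f y) x) :
    ∃ f' : EE d → ℝ, Hm A f' ∧ f' =ᶠ[𝓝 0] f := by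
  classical
  set R₁ : ℝ := max R 1 with hR₁
  have hR₁0 : 0 < R₁ := lt_of_lt_of_le one_pos (le_max_right _ _)
  set g : EE d → ℝ := fun y => if y = 0 then pE P f 0 else kel F y - c with hg
  have hnear : ∀ y : EE d, ‖y‖ < R₁⁻¹ → g y = pE P f y := by
    intro y hy
    by_cases hy0 : y = 0
    · rw [hy0]
      simp only [hg, if_true]
    · simp only [hg, if_neg hy0]
      have h1 : R < ‖inv y‖ := by
        rw [norm_inv' hy0]
        refine lt_of_le_of_lt (le_max_left R 1) ?_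
        exact lt_inv_of_lt_inv₀ (norm_pos_iff.mpr hy0) hy
      have h2 : kel F y = kel (kel (fun z => c + pE P f z)) y := by
        conv_lhs => unfold kel
        rw [h _ h1]
        rfl
      rw [h2, kel_kel hd hy0]
      ring
  have hgA : Hm A g := by
    refine hm_of_local fun x hx => ?_
    by_cases hx0 : x = 0
    · refine ⟨ball 0 (min δ R₁⁻¹), isOpen_ball, ?_, ?_⟩
      · rw [hx0]
        exact mem_ball_self (lt_min hδ (inv_pos.mpr hR₁0))
      · refine hm_congr (hm_mono (hm_pE isOpen_ball hf P)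
          (ball_subset_ball (min_le_left _ _))) isOpen_ball fun y hy => ?_
        rw [mem_ball_zero_iff] at hy
        exact hnear y (lt_of_lt_of_le hy (min_le_right _ _))
    · refine ⟨RS (RS A), isOpen_RS (isOpen_RS hA.1), ?_, ?_⟩
      · refine ⟨hx0, inv_ne_zero' hx0, ?_⟩
        rw [inv_inv' hx0]
        exact hx
      · have h1 : Hm (RS (RS A)) (fun y => kel F y - c) :=
          hm_sub (isOpen_RS (isOpen_RS hA.1)) (hm_kel hd (isOpen_RS hA.1) hF) (hm_const _ c)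
        refine hm_congr h1 (isOpen_RS (isOpen_RS hA.1)) fun y hy => ?_
        simp only [hg, if_neg hy.1]
  obtain ⟨f', h1, h2, -⟩ := ext_exists hd hA hP hgA hδ hf (by
    filter_upwards [isOpen_ball.mem_nhds (mem_ball_self (inv_pos.mpr hR₁0) :
      (0 : EE d) ∈ ball (0 : EE d) R₁⁻¹)] with y hy
    rw [mem_ball_zero_iff] at hy
    exact (hnear y hy).symm)
  exact ⟨f', h1, h2⟩

/-- extension of `p` -/
theorem ext_p {K : Set (EE d)} (hK : IsCompact K) (h0 : (0 : EE d) ∈ K)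
    (hs : ∀ x ∈ K, ∀ t : ℝ, 0 ≤ t → t ≤ 1 → t • x ∈ K) {D : Dat d} {δ : ℝ} (hδ : 0 < δ)
    (hD : D.On (ball 0 δ)) {w' : Fin d → EE d → ℝ} (hw : IsLame Z.kap Kᶜ w') {R : ℝ}
    (h : ∀ x : EE d, R < ‖x‖ → ∀ k, w' k x = fw Z D k x) :
    ∃ p' : EE d → ℝ, Hm (invC K) p' ∧ p' =ᶠ[𝓝 0] D.p := by
  have hd := Z.hd
  obtain ⟨hA, hRS⟩ := invC_star hK h0 hs
  set R₁ : ℝ := max R δ⁻¹ with hR₁
  have hV : ∀ x : EE d, R₁ < ‖x‖ → x ∈ RS (ball (0 : EE d) δ) := fun x hx =>
    r9_far hδ (lt_of_le_of_lt (le_max_right _ _) hx)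
  have hVo : IsOpen {x : EE d | R₁ < ‖x‖} := isOpen_lt continuous_const continuous_norm
  have hθ : Hm (RS (invC K)) (dv w') := by
    rw [hRS]
    exact hm_dv hK.isClosed.isOpen_compl hw
  refine r9_ext_kel hd hA (r9_Rp_ne Z) hδ hD.hp hθ 0 (R := R₁) fun x hx => ?_
  have h1 : dv w' x = dv (fw Z D) x := by
    refine (dv_congr fun k => ?_).self_of_nhds
    filter_upwards [hVo.mem_nhds hx] with y hy
    exact h y (lt_of_le_of_lt (le_max_left _ _) hy) k
  rw [h1, r9_dv_fw Z hD isOpen_ball (hV x hx)]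
  simp only [kel, zero_add]

theorem ext_of_w {K : Set (EE d)} (hK : IsCompact K) (h0 : (0 : EE d) ∈ K)
    (hs : ∀ x ∈ K, ∀ t : ℝ, 0 ≤ t → t ≤ 1 → t • x ∈ K) {D : Dat d} {δ : ℝ} (hδ : 0 < δ)
    (hD : D.On (ball 0 δ)) {w' : Fin d → EE d → ℝ} (hw : IsLame Z.kap Kᶜ w') {R : ℝ}
    (h : ∀ x : EE d, R < ‖x‖ → ∀ k, w' k x = fw Z D k x) :
    ∃ D' : Dat d, D'.On (invC K) ∧ D'.Eq D := by
  have hd := Z.hd
  obtain ⟨hA, hRS⟩ := invC_star hK h0 hs
  have hKo : IsOpen Kᶜ := hK.isClosed.isOpen_compl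
  have hKout : OutO Kᶜ := by
    refine ⟨hKo, fun x hx t ht hmem => ?_⟩
    have ht0 : 0 < t := by linarith
    have h1 := hs _ hmem t⁻¹ (by positivity) (inv_le_one_of_one_le₀ ht)
    rw [smul_smul, inv_mul_cancel₀ ht0.ne', one_smul] at h1
    exact hx h1
  have hK0 : (0 : EE d) ∉ Kᶜ := fun h => h h0
  obtain ⟨p', hp', hpe⟩ := ext_p Z hK h0 hs hδ hD hw h
  -- a small ball
  have hev : ∀ᶠ y in 𝓝 (0 : EE d), p' y = D.p y ∧ y ∈ ball (0 : EE d) δ ∧ y ∈ invC K := by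
    filter_upwards [hpe, isOpen_ball.mem_nhds (mem_ball_self hδ), hA.1.mem_nhds hA.2.1]
      with y h1 h2 h3
    exact ⟨h1, h2, h3⟩
  obtain ⟨ε, hε, hεb⟩ := Metric.eventually_nhds_iff_ball.mp hev
  have hDε : D.On (ball 0 ε) := r9_on_mono hD (fun y hy => (hεb y hy).2.1)
    (mem_ball_self hε)
  set R₁ : ℝ := max R ε⁻¹ with hR₁
  have hVo : IsOpen {x : EE d | R₁ < ‖x‖} := isOpen_lt continuous_const continuous_norm
  have hV : ∀ x : EE d, R₁ < ‖x‖ → x ∈ RS (ball (0 : EE d) ε) := fun x hx =>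
    r9_far hε (lt_of_le_of_lt (le_max_right _ _) hx)
  have hVK : ∀ x : EE d, R₁ < ‖x‖ → x ∈ Kᶜ := by
    intro x hx
    rw [← hRS]
    have h1 := hV x hx
    exact ⟨h1.1, (hεb _ h1.2).2.2⟩
  have hVw : ∀ x : EE d, R₁ < ‖x‖ → ∀ k, w' k x = fw Z D k x := fun x hx k =>
    h x (lt_of_le_of_lt (le_max_left _ _) hx) k
  -- subtract the type U part
  have hex : ∀ x : EE d, R₁ < ‖x‖ → ∀ k,
      exU Z.lam Z.mu Z.PD p' k x = exU Z.lam Z.mu Z.PD D.p k x := by
    intro x hx k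
    have hkel : ∀ P : ℝ[X], kel (pE P p') =ᶠ[𝓝 x] kel (pE P D.p) := by
      intro P
      filter_upwards [hVo.mem_nhds hx] with y hy
      unfold kel
      have h2 : p' =ᶠ[𝓝 (inv y)] D.p := by
        filter_upwards [isOpen_ball.mem_nhds (hV y hy).2] with z hz
        exact (hεb z hz).1
      rw [(pE_congr h2 P).self_of_nhds]
    exact (Wf_congr (hkel _) (hkel _) k).self_of_nhds
  have hexL : IsLame Z.kap Kᶜ (exU Z.lam Z.mu Z.PD p') := by
    rw [← hRS]
    exact lame_exU hd hA.1 hp' Z.hmu.ne' Z.PD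
  set w₁ : Fin d → EE d → ℝ := fun k x => w' k x - exU Z.lam Z.mu Z.PD p' k x with hw₁
  have hw₁L : IsLame Z.kap Kᶜ w₁ := lame_sub hKo hw hexL
  have hw₁V : ∀ x : EE d, R₁ < ‖x‖ → ∀ k, w₁ k x = r9_rest Z D k x := by
    intro x hx k
    simp only [hw₁]
    rw [hVw x hx k, hex x hx k, r9_fw_eq]
    ring
  have hdvw₁ : ∀ x ∈ Kᶜ, dv w₁ x = 0 := by
    refine ident_out hd hKout hK0 (hm_dv hKo hw₁L) (R := R₁) fun x _ hx => ?_
    have h2 : dv w₁ x = dv (r9_rest Z D) x := by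
      refine (dv_congr fun k => ?_).self_of_nhds
      filter_upwards [hVo.mem_nhds hx] with y hy
      exact hw₁V y hy k
    rw [h2]
    exact r9_dv_rest Z hDε isOpen_ball (hV x hx)
  have hw₁H : ∀ k, Hm Kᶜ (w₁ k) := hm_of_lame hKo hw₁L hdvw₁
  -- the data `q`
  have hF : Hm (RS (invC K)) (fun x => ∑ k, x k * w₁ k x) := by
    rw [hRS]
    exact hm_xdot hKo hw₁H hdvw₁
  have hQ : ((X + C ((d : ℝ) - 2)) * Z.PQ : ℝ[X]) ≠ 0 :=
    mul_ne_zero (X_add_C_ne_zero _) (PQ_ne Z)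
  obtain ⟨q', hq', hqe⟩ := r9_ext_kel hd hA hQ hε hDε.hq hF (Z.c1 * D.γ) (R := R₁)
    fun x hx => by
      have h2 : ∑ k, x k * w₁ k x = ∑ k, x k * r9_rest Z D k x :=
        Finset.sum_congr rfl fun k _ => by rw [hw₁V x hx k]
      show ∑ k, x k * w₁ k x = _
      rw [h2, r9_xdot_rest Z hDε isOpen_ball (hV x hx)]
  -- the data `T`
  obtain ⟨ε', hε', hεb'⟩ := Metric.eventually_nhds_iff_ball.mp hqe
  set R₂ : ℝ := max R₁ ε'⁻¹ with hR₂
  have hV'o : IsOpen {x : EE d | R₂ < ‖x‖} := isOpen_lt continuous_const continuous_norm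
  have hpole : ∀ k, Hm Kᶜ (pole (Z.c1 * D.γ) k : EE d → ℝ) := fun k =>
    hm_mono (hm_of_lame (κ := 0) isOpen_ne (lame_pole hd _) (fun x hx => dv_pole hd _ hx) k)
      fun x hx => fun h => hx (h ▸ h0)
  have hkq : Hm Kᶜ (kel (pE Z.PQ q')) := by
    rw [← hRS]
    exact hm_kel hd hA.1 (hm_pE hA.1 hq' _)
  have hT : ∀ k, ∃ T' : EE d → ℝ, Hm (invC K) T' ∧ T' =ᶠ[𝓝 0] D.T k := by
    intro k
    have hw₂ : Hm (RS (invC K)) (fun x => w₁ k x - pole (Z.c1 * D.γ) k x +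
        pd k (kel (pE Z.PQ q')) x) := by
      rw [hRS]
      exact hm_add hKo (hm_sub hKo (hw₁H k) (hpole k)) (hm_pd hKo hkq k)
    refine r9_ext_kel hd hA (PE_ne Z) hε (hDε.hT k) hw₂ 0 (R := R₂) fun x hx => ?_
    have hx1 : R₁ < ‖x‖ := lt_of_le_of_lt (le_max_left _ _) hx
    have h3 : kel (pE Z.PQ q') =ᶠ[𝓝 x] kel (pE Z.PQ D.q) := by
      filter_upwards [hV'o.mem_nhds hx] with y hy
      unfold kel
      have h2 : q' =ᶠ[𝓝 (inv y)] D.q := by
        have h4 := r9_far hε' (lt_of_le_of_lt (le_max_right _ _) hy)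
        filter_upwards [isOpen_ball.mem_nhds h4.2] with z hz
        exact hεb' z hz
      rw [(pE_congr h2 _).self_of_nhds]
    rw [hw₁V x hx1 k, (pd_congr h3 k).self_of_nhds]
    unfold r9_rest
    have h5 : kel (fun y => 0 + pE Z.PE (D.T k) y) x = kel (pE Z.PE (D.T k)) x := by
      simp only [kel, zero_add]
    rw [h5]
    ring
  choose T' hT' hTe using hT
  have hdT : ∀ x ∈ invC K, dv T' x = 0 := by
    have h1 : Hm (invC K) (dv T') := by
      have := hm_sum Finset.univ hA.1 (F := fun k => pd k (T' k)) fun k _ => hm_pd hA.1 (hT' k) k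
      exact this
    refine ident_star hd hA h1 ?_
    have h2 : dv T' =ᶠ[𝓝 0] dv D.T := dv_congr hTe
    filter_upwards [h2, isOpen_ball.mem_nhds (mem_ball_self hδ)] with y hy hyb
    rw [hy]
    exact hD.dT y hyb
  refine ⟨⟨p', q', T', D.h, D.γ⟩, ⟨hp', hq', hT', ?_, ?_, ?_, ?_, ?_, hdT⟩,
    ⟨hpe, hqe, hTe, rfl, rfl⟩⟩
  · exact hpe.self_of_nhds.trans hD.p0
  · intro i
    exact (pd_congr hpe i).self_of_nhds.trans (hD.p1 i)
  · exact hqe.self_of_nhds.trans hD.q0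
  · intro k
    exact (hTe k).self_of_nhds.trans (hD.T0 k)
  · refine ident_star hd hA (hm_xdot hA.1 hT' hdT) ?_
    have h2 : ∀ᶠ y in 𝓝 (0 : EE d), ∀ k, T' k y = D.T k y := by
      rw [eventually_all]
      exact hTe
    filter_upwards [h2, isOpen_ball.mem_nhds (mem_ball_self hδ)] with y hy hyb
    have h3 : ∑ k, y k * T' k y = ∑ k, y k * D.T k y :=
      Finset.sum_congr rfl fun k _ => by rw [hy k]
    rw [h3]
    exact hD.xT y hyb

end Pool.Agent.MP_0643f8_an.U
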