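import Mathlib
import Pool.Agent.Lib.MP_0643f8_an.U.R8_ExtH
import Pool.Agent.Lib.MP_0643f8_an.U.R9_ExtW
import Pool.Agent.Lib.MP_0643f8_an.U.L2_Ident

/-!
# The maximal star-shaped domain of the data

`Mx D` is the union of all star-shaped open sets to which the data extend. On it there are data
`D'` equal to `D` near `0` (define the functions at `x` through any star-shaped set containing
`x`; two such sets have a star-shaped intersection, so the values agree by `ident_star`).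
Outside: `Fx D = {x | x = 0 ∨ inv x ∉ Mx D}` is closed, bounded, star-shaped.
-/

set_option autoImplicit false

open MeasureTheory Metric Set Filter Topology Polynomial
open scoped ContDiff

namespace Pool.Agent.MP_0643f8_an.U

variable {d : ℕ} (Z : Cst d)

/-- the maximal domain -/
def Mx (D : Dat d) : Set (EE d) := {x | ∃ A : Set (EE d), StarO A ∧ x ∈ A ∧
  ∃ D' : Dat d, D'.On A ∧ D'.Eq D}

/-- its complement seen from the exterior -/
def Fx (D : Dat d) : Set (EE d) := {x | x = 0 ∨ inv x ∉ Mx D}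

private theorem r10_ball {δ : ℝ} (hδ : 0 < δ) : StarO (ball (0 : EE d) δ) := by
  refine ⟨isOpen_ball, mem_ball_self hδ, fun x hx t h0 h1 => ?_⟩
  rw [mem_ball_zero_iff] at hx ⊢
  rw [norm_smul, Real.norm_of_nonneg h0]
  exact lt_of_le_of_lt (mul_le_of_le_one_left (norm_nonneg x) h1) hx

private theorem r10_refl (D : Dat d) : D.Eq D :=
  ⟨EventuallyEq.rfl, EventuallyEq.rfl, fun _ => EventuallyEq.rfl, rfl, rfl⟩

private theorem r10_inv_smul {t : ℝ} (ht : 0 < t) (x : EE d) : inv (t • x) = t⁻¹ • inv x := by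
  unfold inv
  rw [norm_smul, Real.norm_of_nonneg ht.le, smul_smul, smul_smul]
  congr 1
  rw [mul_pow, mul_inv]
  field_simp

theorem mx_star {D : Dat d} {δ : ℝ} (hδ : 0 < δ) (hD : D.On (ball 0 δ)) :
    StarO (Mx D) ∧ ball 0 δ ⊆ Mx D := by
  refine ⟨⟨?_, ?_, ?_⟩, ?_⟩
  · rw [isOpen_iff_mem_nhds]
    rintro x ⟨A, hA, hxA, hD'⟩
    filter_upwards [hA.1.mem_nhds hxA] with y hy
    exact ⟨A, hA, hy, hD'⟩
  · exact ⟨ball 0 δ, r10_ball hδ, mem_ball_self hδ, D, hD, r10_refl D⟩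
  · rintro x ⟨A, hA, hxA, hD'⟩ t h0 h1
    exact ⟨A, hA, hA.2.2 x hxA t h0 h1, hD'⟩
  · intro x hx
    exact ⟨ball 0 δ, r10_ball hδ, hx, D, hD, r10_refl D⟩

/-- the data on the maximal domain -/
theorem mx_data (hd : 2 ≤ d) {D : Dat d} {δ : ℝ} (hδ : 0 < δ) (hD : D.On (ball 0 δ)) :
    ∃ D' : Dat d, D'.On (Mx D) ∧ D'.Eq D := by
  classical
  obtain ⟨hM, hbM⟩ := mx_star hδ hD
  have hex : ∀ x : EE d, ∃ P : Set (EE d) × Dat d, x ∈ Mx D →
      StarO P.1 ∧ x ∈ P.1 ∧ P.2.On P.1 ∧ P.2.Eq D := by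
    intro x
    by_cases hx : x ∈ Mx D
    · obtain ⟨A, hA, hxA, D', h1, h2⟩ := hx
      exact ⟨(A, D'), fun _ => ⟨hA, hxA, h1, h2⟩⟩
    · exact ⟨(∅, D), fun h => absurd h hx⟩
  choose P hP using hex
  -- the values do not depend on the choices
  have key : ∀ (F : Dat d → EE d → ℝ), (∀ (D' : Dat d) (A : Set (EE d)), D'.On A → Hm A (F D')) →
      (∀ D' : Dat d, D'.Eq D → F D' =ᶠ[𝓝 0] F D) →
      ∀ (A : Set (EE d)) (D'' : Dat d), StarO A → D''.On A → D''.Eq D →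
      ∀ x ∈ A, F (P x).2 x = F D'' x := by
    intro F hF hFe A D'' hA h1 h2 x hx
    obtain ⟨h3, h4, h5, h6⟩ := hP x ⟨A, hA, hx, D'', h1, h2⟩
    have hst : StarO ((P x).1 ∩ A) := ⟨h3.1.inter hA.1, ⟨h3.2.1, hA.2.1⟩,
      fun y hy t ht0 ht1 => ⟨h3.2.2 y hy.1 t ht0 ht1, hA.2.2 y hy.2 t ht0 ht1⟩⟩
    have hh : Hm ((P x).1 ∩ A) (fun y => F (P x).2 y - F D'' y) :=
      hm_sub hst.1 (hm_mono (hF _ _ h5) inter_subset_left) (hm_mono (hF _ _ h1) inter_subset_right)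
    have hz := ident_star hd hst hh (by
      filter_upwards [hFe _ h6, hFe _ h2] with y e1 e2
      rw [e1, e2, sub_self]) x ⟨h4, hx⟩
    exact sub_eq_zero.mp hz
  have keyp := key (fun D' => D'.p) (fun D' A h => h.hp) (fun D' h => h.p)
  have keyq := key (fun D' => D'.q) (fun D' A h => h.hq) (fun D' h => h.q)
  have keyT := fun k => key (fun D' => D'.T k) (fun D' A h => h.hT k) (fun D' h => h.T k)
  have hb := r10_ball (d := d) hδ
  have h0b : (0 : EE d) ∈ ball (0 : EE d) δ := mem_ball_self hδ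
  have evp : (fun x => (P x).2.p x) =ᶠ[𝓝 0] D.p := by
    filter_upwards [hb.1.mem_nhds h0b] with y hy
    exact keyp _ D hb hD (r10_refl D) y hy
  have evq : (fun x => (P x).2.q x) =ᶠ[𝓝 0] D.q := by
    filter_upwards [hb.1.mem_nhds h0b] with y hy
    exact keyq _ D hb hD (r10_refl D) y hy
  have evT : ∀ k, (fun x => (P x).2.T k x) =ᶠ[𝓝 0] D.T k := by
    intro k
    filter_upwards [hb.1.mem_nhds h0b] with y hy
    exact keyT k _ D hb hD (r10_refl D) y hy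
  refine ⟨⟨fun x => (P x).2.p x, fun x => (P x).2.q x, fun k x => (P x).2.T k x, D.h, D.γ⟩,
    ⟨?_, ?_, ?_, ?_, ?_, ?_, ?_, ?_, ?_⟩, ⟨evp, evq, evT, rfl, rfl⟩⟩
  · refine hm_of_local fun x hx => ?_
    obtain ⟨A, hA, hxA, D', h1, h2⟩ := hx
    exact ⟨A, hA.1, hxA, hm_congr h1.hp hA.1 fun y hy => keyp A D' hA h1 h2 y hy⟩
  · refine hm_of_local fun x hx => ?_
    obtain ⟨A, hA, hxA, D', h1, h2⟩ := hx
    exact ⟨A, hA.1, hxA, hm_congr h1.hq hA.1 fun y hy => keyq A D' hA h1 h2 y hy⟩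
  · intro k
    refine hm_of_local fun x hx => ?_
    obtain ⟨A, hA, hxA, D', h1, h2⟩ := hx
    exact ⟨A, hA.1, hxA, hm_congr (h1.hT k) hA.1 fun y hy => keyT k A D' hA h1 h2 y hy⟩
  · exact evp.self_of_nhds.trans hD.p0
  · intro i
    exact (pd_congr evp i).self_of_nhds.trans (hD.p1 i)
  · exact evq.self_of_nhds.trans hD.q0
  · intro k
    exact (evT k).self_of_nhds.trans (hD.T0 k)
  · intro x hx
    obtain ⟨A, hA, hxA, D', h1, h2⟩ := hx
    have e : ∀ k, (P x).2.T k x = D'.T k x := fun k => keyT k A D' hA h1 h2 x hxA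
    show ∑ k, x k * (P x).2.T k x = 0
    simp only [e]
    exact h1.xT x hxA
  · intro x hx
    obtain ⟨A, hA, hxA, D', h1, h2⟩ := hx
    have e : dv (fun k x => (P x).2.T k x) =ᶠ[𝓝 x] dv D'.T := dv_congr fun k => by
      filter_upwards [hA.1.mem_nhds hxA] with y hy
      exact keyT k A D' hA h1 h2 y hy
    exact e.self_of_nhds.trans (h1.dT x hxA)

/-- `Fx` is compact and star-shaped, `(Fx)ᶜ = RS (Mx)`, and it lies in a small ball -/
theorem fx_basic {D : Dat d} {δ : ℝ} (hδ : 0 < δ) (hD : D.On (ball 0 δ)) :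
    IsCompact (Fx D) ∧ (0 : EE d) ∈ Fx D ∧
      (∀ x ∈ Fx D, ∀ t : ℝ, 0 ≤ t → t ≤ 1 → t • x ∈ Fx D) ∧ RS (Mx D) = (Fx D)ᶜ ∧
      ∀ x ∈ Fx D, ‖x‖ ≤ δ⁻¹ := by
  obtain ⟨hM, hbM⟩ := mx_star hδ hD
  have hRS : RS (Mx D) = (Fx D)ᶜ := by
    ext x
    simp only [RS, Fx, mem_ofPred_eq, mem_compl_iff, not_or, not_not, ne_eq]
  have hclosed : IsClosed (Fx D) := by
    rw [← isOpen_compl_iff, ← hRS]
    exact isOpen_RS hM.1
  have hnorm : ∀ x ∈ Fx D, ‖x‖ ≤ δ⁻¹ := by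
    intro x hx
    by_cases h0 : x = 0
    · rw [h0, norm_zero]
      positivity
    · have h1 : inv x ∉ Mx D := hx.resolve_left h0
      have h2 : δ ≤ ‖inv x‖ := by
        by_contra hlt
        push Not at hlt
        exact h1 (hbM (by rw [mem_ball_zero_iff]; exact hlt))
      rw [norm_inv' h0] at h2
      have h3 : 0 < ‖x‖ := norm_pos_iff.mpr h0
      exact (le_inv_comm₀ hδ h3).mp h2
  refine ⟨?_, Or.inl rfl, ?_, hRS, hnorm⟩
  · refine Metric.isCompact_of_isClosed_isBounded hclosed ?_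
    refine (Metric.isBounded_closedBall (x := (0 : EE d)) (r := δ⁻¹)).subset fun x hx => ?_
    rw [mem_closedBall_zero_iff]
    exact hnorm x hx
  · intro x hx t ht0 ht1
    rcases eq_or_lt_of_le ht0 with h | h
    · left
      rw [← h, zero_smul]
    · by_cases hx0 : x = 0
      · left
        rw [hx0, smul_zero]
      · right
        rw [r10_inv_smul h]
        intro hmem
        have h1 := hM.2.2 _ hmem t ht0 ht1
        rw [smul_smul, mul_inv_cancel₀ h.ne', one_smul] at h1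
        exact (hx.resolve_left hx0) h1

/-- principle B: star-shaped sets on which the background field extends are in `Mx` -/
theorem mx_of_H {D : Dat d} {δ : ℝ} (hδ : 0 < δ) (hD : D.On (ball 0 δ)) {A : Set (EE d)}
    (hA : StarO A) {H' : Fin d → EE d → ℝ} (hH : IsLame Z.kap A H')
    (h : ∀ k, H' k =ᶠ[𝓝 0] fH Z D k) : A ⊆ Mx D := by
  obtain ⟨D', h1, h2⟩ := ext_of_H Z hA hδ hD hH h
  intro x hx
  exact ⟨A, hA, hx, D', h1, h2⟩

/-- principle A: if the exterior field extends to an open set `G` stable under dilations of ratio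
`≥ 1`, then `G` does not meet `Fx`. (Let `K = Fx D \ G`: compact, star-shaped, `0 ∈ K`. The
exterior field of the data on `Mx D` and the field on `G` agree on `(Fx D)ᶜ ∩ G` by
`lame_ident_out`, so they glue to a Lame field on `Kᶜ`; by `ext_of_w` the data extend to
`invC K`, so `invC K ⊆ Mx D`, that is `Fx D ⊆ K`.) -/
theorem fx_of_w {D : Dat d} {δ : ℝ} (hδ : 0 < δ) (hD : D.On (ball 0 δ)) {G : Set (EE d)}
    (hG : OutO G) (h0 : (0 : EE d) ∉ G) {w' : Fin d → EE d → ℝ} (hw : IsLame Z.kap G w')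
    {R : ℝ} (h : ∀ x ∈ G, R < ‖x‖ → ∀ k, w' k x = fw Z D k x) : ∀ x ∈ G, x ∉ Fx D := by
  classical
  have hd := Z.hd
  obtain ⟨hM, hbM⟩ := mx_star hδ hD
  obtain ⟨hFc, hF0, hFs, hRS, -⟩ := fx_basic hδ hD
  obtain ⟨D', hD'On, hD'Eq⟩ := mx_data hd hδ hD
  have hFo : IsOpen (Fx D)ᶜ := hFc.isClosed.isOpen_compl
  -- the remaining obstacle
  have hK : IsCompact (Fx D \ G) := hFc.diff hG.1
  have hK0 : (0 : EE d) ∈ Fx D \ G := ⟨hF0, h0⟩
  have hKs : ∀ x ∈ Fx D \ G, ∀ t : ℝ, 0 ≤ t → t ≤ 1 → t • x ∈ Fx D \ G := by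
    rintro x ⟨hx, hxG⟩ t ht0 ht1
    refine ⟨hFs x hx t ht0 ht1, fun hmem => ?_⟩
    rcases eq_or_lt_of_le ht0 with h | h
    · rw [← h, zero_smul] at hmem
      exact h0 hmem
    · have h1 := hG.2 _ hmem t⁻¹ ((one_le_inv₀ h).mpr ht1)
      rw [smul_smul, inv_mul_cancel₀ h.ne', one_smul] at h1
      exact hxG h1
  -- the two fields agree on the overlap
  have hfwL : IsLame Z.kap (Fx D)ᶜ (fw Z D') := by
    rw [← hRS]
    exact lame_fw Z hM.1 hD'On
  obtain ⟨R', hR'⟩ := fw_congr Z hD'Eq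
  have hOut : OutO ((Fx D)ᶜ ∩ G) := by
    refine ⟨hFo.inter hG.1, fun x hx t ht => ⟨?_, hG.2 x hx.2 t ht⟩⟩
    have hxR : x ∈ RS (Mx D) := by rw [hRS]; exact hx.1
    rw [← hRS]
    have ht0 : 0 < t := by linarith
    refine ⟨smul_ne_zero ht0.ne' hxR.1, ?_⟩
    rw [r10_inv_smul ht0]
    exact hM.2.2 _ hxR.2 t⁻¹ (by positivity) (inv_le_one_of_one_le₀ ht)
  have hagree : ∀ x ∈ (Fx D)ᶜ ∩ G, ∀ k, w' k x = fw Z D' k x :=
    lame_ident_out hd hOut (fun h => h0 h.2) (lame_mono hw inter_subset_right)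
      (lame_mono hfwL inter_subset_left) (R := max R R') (fun x hx hxR k => by
        rw [h x hx.2 (lt_of_le_of_lt (le_max_left _ _) hxR) k,
          hR' x (lt_of_le_of_lt (le_max_right _ _) hxR) k])
  -- glue
  set w'' : Fin d → EE d → ℝ := fun k x => if x ∈ G then w' k x else fw Z D' k x with hw''
  have hwG : ∀ x ∈ G, ∀ k, w'' k x = w' k x := fun x hx k => by simp only [hw'', if_pos hx]
  have hwF : ∀ x ∈ (Fx D)ᶜ, ∀ k, w'' k x = fw Z D' k x := by
    intro x hx k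
    by_cases hxG : x ∈ G
    · rw [hwG x hxG k, hagree x ⟨hx, hxG⟩ k]
    · simp only [hw'', if_neg hxG]
  have hL : IsLame Z.kap (Fx D \ G)ᶜ w'' := by
    refine lame_of_local hK.isClosed.isOpen_compl fun x hx => ?_
    by_cases hxG : x ∈ G
    · exact ⟨G, hG.1, hxG, lame_congr hG.1 hw hwG⟩
    · have hxF : x ∈ (Fx D)ᶜ := fun hxF => hx ⟨hxF, hxG⟩
      exact ⟨(Fx D)ᶜ, hFo, hxF, lame_congr hFo hfwL hwF⟩
  obtain ⟨D'', h1, h2⟩ := ext_of_w Z hK hK0 hKs hδ hD hL (R := max R R') (fun x hxR k => by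
    by_cases hxG : x ∈ G
    · rw [hwG x hxG k, h x hxG (lt_of_le_of_lt (le_max_left _ _) hxR) k]
    · simp only [hw'', if_neg hxG]
      exact hR' x (lt_of_le_of_lt (le_max_right _ _) hxR) k)
  have hst := (invC_star hK hK0 hKs).1
  intro x hxG hxF
  have hx0 : x ≠ 0 := fun h => h0 (h ▸ hxG)
  have hmem : inv x ∈ invC (Fx D \ G) := by
    right
    rw [inv_inv' hx0]
    exact fun h => h.2 hxG
  exact (hxF.resolve_left hx0) ⟨_, hst, hmem, D'', h1, h2⟩

end Pool.Agent.MP_0643f8_an.U
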