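import Mathlib
import Pool.Agent.Lib.MP_0643f8_an.U.R10_Max
import Pool.Agent.Lib.MP_0643f8_an.U.G1_Geo

/-!
# The sets `F₁`, `F₂` of two balls form a geometric configuration

Setting (`Two`): `H` is a Lame field on the open set `V`, which contains both closed balls, `w` is a
Lame field off the intersection of the closed balls, and for `j = 1, 2` the data `D_j` represent
`H` near the closed ball `j` and `w` outside it.
-/

set_option autoImplicit false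

open MeasureTheory Metric Set Filter Topology
open scoped ContDiff

namespace Pool.Agent.MP_0643f8_an.U

variable {d : ℕ} (Z : Cst d)

/-- one ball with its data -/
structure One (c : EE d) (r : ℝ) (H w : Fin d → EE d → ℝ) (V : Set (EE d)) (D : Dat d)
    (ρ : ℝ) : Prop where
  hr : 0 < r
  hρ : 1 < ρ
  on : D.On (ball 0 ρ)
  sub : ball c (r * ρ) ⊆ V
  eqH : ∀ y ∈ ball (0 : EE d) ρ, ∀ k, aff c r H k y = fH Z D k y
  eqw : ∀ y : EE d, 1 < ‖y‖ → ∀ k, aff c r w k y = fw Z D k y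

/-- the set `F` of a ball in the original coordinates -/
def FF (c : EE d) (r : ℝ) (D : Dat d) : Set (EE d) := {x | r⁻¹ • (x - c) ∈ Fx D}

variable {c₁ c₂ : EE d} {r₁ r₂ ρ₁ ρ₂ : ℝ} {H w : Fin d → EE d → ℝ} {V : Set (EE d)}
  {D₁ D₂ : Dat d}

private theorem m5a_back (c : EE d) (r : ℝ) (x : EE d) :
    -(r⁻¹ • c) + r⁻¹ • x = r⁻¹ • (x - c) := by
  rw [smul_sub]
  abel

private theorem m5a_fwd (c : EE d) {r : ℝ} (hr : 0 < r) (x : EE d) :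
    c + r • (r⁻¹ • (x - c)) = x := by
  rw [smul_smul, mul_inv_cancel₀ hr.ne', one_smul]
  abel

private theorem m5a_norm (c : EE d) {r : ℝ} (hr : 0 < r) (x : EE d) :
    ‖r⁻¹ • (x - c)‖ = ‖x - c‖ / r := by
  rw [norm_smul, Real.norm_of_nonneg (inv_nonneg.2 hr.le), inv_mul_eq_div]

private theorem m5a_iv {c x : EE d} {r : ℝ} (hr : 0 < r) (hx : x ≠ c) :
    r⁻¹ • (iv c r x - c) = inv (r⁻¹ • (x - c)) := by
  have hn : 0 < ‖x - c‖ := norm_pos_iff.2 (sub_ne_zero.2 hx)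
  unfold iv inv
  rw [m5a_norm c hr, add_sub_cancel_left, smul_smul, smul_smul]
  congr 1
  field_simp

/-- membership in `V₂` through the inversion -/
theorem ff_iv (h : One Z c₁ r₁ H w V D₁ ρ₁) {x : EE d} (hx : x ≠ c₁) :
    iv c₁ r₁ x ∈ FF c₁ r₁ D₁ ↔ r₁⁻¹ • (x - c₁) ∉ Mx D₁ := by
  have hr := h.hr
  have hy : r₁⁻¹ • (x - c₁) ≠ 0 := smul_ne_zero (inv_ne_zero hr.ne') (sub_ne_zero.2 hx)
  show r₁⁻¹ • (iv c₁ r₁ x - c₁) ∈ Fx D₁ ↔ _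
  rw [m5a_iv hr hx]
  show inv (r₁⁻¹ • (x - c₁)) = 0 ∨ inv (inv (r₁⁻¹ • (x - c₁))) ∉ Mx D₁ ↔ _
  rw [inv_inv' hy]
  constructor
  · rintro (h0 | h0)
    · exact absurd h0 (inv_ne_zero' hy)
    · exact h0
  · exact Or.inr

theorem ff_basic (h : One Z c₁ r₁ H w V D₁ ρ₁) : IsCompact (FF c₁ r₁ D₁) ∧ c₁ ∈ FF c₁ r₁ D₁ ∧
    (∀ x ∈ FF c₁ r₁ D₁, ∀ t : ℝ, 0 ≤ t → t ≤ 1 → c₁ + t • (x - c₁) ∈ FF c₁ r₁ D₁) ∧
    FF c₁ r₁ D₁ ⊆ ball c₁ r₁ := by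
  have hr := h.hr
  have hρ := h.hρ
  have hρ0 : 0 < ρ₁ := by linarith
  obtain ⟨hc, h0, hs, -, hn⟩ := fx_basic hρ0 h.on
  refine ⟨?_, ?_, ?_, ?_⟩
  · have himg : FF c₁ r₁ D₁ = (fun y : EE d => c₁ + r₁ • y) '' Fx D₁ := by
      ext x
      constructor
      · intro hx
        exact ⟨r₁⁻¹ • (x - c₁), hx, m5a_fwd c₁ hr x⟩
      · rintro ⟨y, hy, rfl⟩
        show r₁⁻¹ • (c₁ + r₁ • y - c₁) ∈ Fx D₁
        rw [add_sub_cancel_left, smul_smul, inv_mul_cancel₀ hr.ne', one_smul]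
        exact hy
    rw [himg]
    exact hc.image (by fun_prop)
  · show r₁⁻¹ • (c₁ - c₁) ∈ Fx D₁
    rw [sub_self, smul_zero]
    exact h0
  · intro x hx t ht0 ht1
    show r₁⁻¹ • (c₁ + t • (x - c₁) - c₁) ∈ Fx D₁
    rw [add_sub_cancel_left, smul_comm]
    exact hs _ hx t ht0 ht1
  · intro x hx
    have h1 := hn _ hx
    rw [m5a_norm c₁ hr, div_le_iff₀ hr] at h1
    rw [mem_ball, dist_eq_norm]
    have h2 : ρ₁⁻¹ * r₁ < 1 * r₁ := mul_lt_mul_of_pos_right (inv_lt_one_of_one_lt₀ hρ) hr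
    linarith

/-- the exterior field extends to the complement of `F₂` -/
theorem ff_ext_w (hd : 2 ≤ d) (h : One Z c₂ r₂ H w V D₂ ρ₂) :
    ∃ w₂ : Fin d → EE d → ℝ, IsLame Z.kap (FF c₂ r₂ D₂)ᶜ w₂ ∧
      ∀ x ∉ closedBall c₂ r₂, ∀ k, w₂ k x = w k x := by
  have hr := h.hr
  have hρ := h.hρ
  have hρ0 : 0 < ρ₂ := by linarith
  obtain ⟨hM, hbM⟩ := mx_star hρ0 h.on
  obtain ⟨-, -, -, hRS, -⟩ := fx_basic hρ0 h.on
  obtain ⟨D', hD', hE⟩ := mx_data hd hρ0 h.on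
  have hL : IsLame Z.kap (RS (Mx D₂)) (fw Z D') := lame_fw Z hM.1 hD'
  have hL2 : IsLame Z.kap (RS (ball (0 : EE d) ρ₂)) (fw Z D₂) := lame_fw Z isOpen_ball h.on
  refine ⟨aff (-(r₂⁻¹ • c₂)) r₂⁻¹ (fw Z D'), ?_, ?_⟩
  · refine lame_mono (lame_aff (isOpen_RS hM.1) hL (-(r₂⁻¹ • c₂)) (inv_ne_zero hr.ne')) ?_
    intro x hx
    show -(r₂⁻¹ • c₂) + r₂⁻¹ • x ∈ RS (Mx D₂)
    rw [m5a_back, hRS]
    exact hx
  · intro x hx k
    have hy1 : 1 < ‖r₂⁻¹ • (x - c₂)‖ := by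
      rw [m5a_norm c₂ hr, lt_div_iff₀ hr, one_mul]
      rw [mem_closedBall, dist_eq_norm, not_le] at hx
      exact hx
    have e1 : w k x = aff c₂ r₂ w k (r₂⁻¹ • (x - c₂)) := by
      show w k x = w k (c₂ + r₂ • (r₂⁻¹ • (x - c₂)))
      rw [m5a_fwd c₂ hr]
    have e2 : aff (-(r₂⁻¹ • c₂)) r₂⁻¹ (fw Z D') k x = fw Z D' k (r₂⁻¹ • (x - c₂)) := by
      show fw Z D' k (-(r₂⁻¹ • c₂) + r₂⁻¹ • x) = _
      rw [m5a_back]
    rw [e1, e2, h.eqw _ hy1 k]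
    obtain ⟨R', hR'⟩ := fw_congr Z hE
    have hO : OutO {y : EE d | 1 < ‖y‖} := by
      refine ⟨isOpen_lt continuous_const continuous_norm, fun y hy t ht => ?_⟩
      show 1 < ‖t • y‖
      rw [norm_smul, Real.norm_of_nonneg (by linarith)]
      have hy' : 1 < ‖y‖ := hy
      nlinarith
    have hsub : {y : EE d | 1 < ‖y‖} ⊆ RS (ball (0 : EE d) ρ₂) := by
      intro y hy
      have hy' : 1 < ‖y‖ := hy
      have hy0 : y ≠ 0 := by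
        intro h0
        rw [h0, norm_zero] at hy'
        linarith
      refine ⟨hy0, ?_⟩
      rw [mem_ball_zero_iff, norm_inv' hy0]
      exact (inv_lt_one_of_one_lt₀ hy').trans hρ
    have hsub2 : RS (ball (0 : EE d) ρ₂) ⊆ RS (Mx D₂) := fun y hy => ⟨hy.1, hbM hy.2⟩
    exact lame_ident_out hd hO (by
        show ¬ (1 < ‖(0 : EE d)‖)
        rw [norm_zero]
        norm_num) (lame_mono hL (hsub.trans hsub2)) (lame_mono hL2 hsub)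
      (R := R') (fun y _ hyR k => hR' y hyR k) _ hy1 k

/-- the background field extends to the complement of `V₂` -/
theorem ff_ext_H (hd : 2 ≤ d) (h : One Z c₂ r₂ H w V D₂ ρ₂) :
    ∃ H₂ : Fin d → EE d → ℝ, IsLame Z.kap {x | r₂⁻¹ • (x - c₂) ∈ Mx D₂} H₂ ∧
      ∀ x ∈ ball c₂ (r₂ * ρ₂), ∀ k, H₂ k x = H k x := by
  have hr := h.hr
  have hρ := h.hρ
  have hρ0 : 0 < ρ₂ := by linarith
  obtain ⟨hM, hbM⟩ := mx_star hρ0 h.on
  obtain ⟨D', hD', hE⟩ := mx_data hd hρ0 h.on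
  have hL : IsLame Z.kap (Mx D₂) (fH Z D') := lame_fH Z hM.1 hD'
  have hL2 : IsLame Z.kap (ball (0 : EE d) ρ₂) (fH Z D₂) := lame_fH Z isOpen_ball h.on
  refine ⟨aff (-(r₂⁻¹ • c₂)) r₂⁻¹ (fH Z D'), ?_, ?_⟩
  · refine lame_mono (lame_aff hM.1 hL (-(r₂⁻¹ • c₂)) (inv_ne_zero hr.ne')) ?_
    intro x hx
    show -(r₂⁻¹ • c₂) + r₂⁻¹ • x ∈ Mx D₂
    rw [m5a_back]
    exact hx
  · intro x hx k
    have hy1 : r₂⁻¹ • (x - c₂) ∈ ball (0 : EE d) ρ₂ := by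
      rw [mem_ball_zero_iff, m5a_norm c₂ hr, div_lt_iff₀ hr]
      rw [mem_ball, dist_eq_norm] at hx
      linarith
    have e1 : H k x = aff c₂ r₂ H k (r₂⁻¹ • (x - c₂)) := by
      show H k x = H k (c₂ + r₂ • (r₂⁻¹ • (x - c₂)))
      rw [m5a_fwd c₂ hr]
    have e2 : aff (-(r₂⁻¹ • c₂)) r₂⁻¹ (fH Z D') k x = fH Z D' k (r₂⁻¹ • (x - c₂)) := by
      show fH Z D' k (-(r₂⁻¹ • c₂) + r₂⁻¹ • x) = _
      rw [m5a_back]
    rw [e1, e2, h.eqH _ hy1 k]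
    have hst : StarO (ball (0 : EE d) ρ₂) := by
      refine ⟨isOpen_ball, mem_ball_self hρ0, fun y hy t h0 h1 => ?_⟩
      rw [mem_ball_zero_iff] at hy ⊢
      rw [norm_smul, Real.norm_of_nonneg h0]
      exact lt_of_le_of_lt (mul_le_of_le_one_left (norm_nonneg y) h1) hy
    exact lame_ident_star hd hst (lame_mono hL hbM) hL2 (fun k => fH_congr Z hE k) _ hy1 k

end Pool.Agent.MP_0643f8_an.U
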