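import Mathlib
import Pool.Agent.Lib.MP_0643f8_an.U.M5a_One

/-!
# The sets `F₁`, `F₂` of two balls form a geometric configuration

Setting (`Two`): `H` is a Lame field on the open set `V`, which contains both closed balls, `w` is a
Lame field off the intersection of the closed balls, and for `j = 1, 2` the data `D_j` represent
`H` near the closed ball `j` and `w` outside it.
-/

set_option autoImplicit false

open MeasureTheory Metric Set Filter Topology
open scoped ContDiff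

namespace Pool.Agent.MP_0643f8_an.U

variable {d : ℕ} (Z : Cst d)

variable {c₁ c₂ : EE d} {r₁ r₂ ρ₁ ρ₂ : ℝ} {H w : Fin d → EE d → ℝ} {V : Set (EE d)}
  {D₁ D₂ : Dat d}

/-- principle A in the original coordinates: if `w` extends to an open neighbourhood of the outward
ray from `x`, then `x ∉ F₁`. (Take `G` the set of all `c₁ + t (z - c₁)`, `t ≥ 1`, `z` near `x`; for
`z` near `x` these rays stay in the open set `O`: beyond a large ball because `Oᶜ` is bounded, inside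
by compactness.) -/
theorem principleA (h : One Z c₁ r₁ H w V D₁ ρ₁) {O : Set (EE d)} (hO : IsCompact Oᶜ)
    {w' : Fin d → EE d → ℝ} (hw' : IsLame Z.kap O w') {R : ℝ}
    (hww : ∀ x : EE d, R < ‖x‖ → ∀ k, w' k x = w k x) {x : EE d} (hx : x ≠ c₁)
    (hray : ∀ t : ℝ, 1 ≤ t → c₁ + t • (x - c₁) ∈ O) : x ∉ FF c₁ r₁ D₁ := by
  have hr := h.hr
  have hOo : IsOpen O := by
    have := hO.isClosed.isOpen_compl
    rwa [compl_compl] at this
  obtain ⟨ρ, hρ⟩ := hO.isBounded.subset_closedBall (0 : EE d)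
  set y₀ : EE d := r₁⁻¹ • (x - c₁) with hy₀
  have hy₀0 : y₀ ≠ 0 := smul_ne_zero (inv_ne_zero hr.ne') (sub_ne_zero.mpr hx)
  have hyp : 0 < ‖y₀‖ := norm_pos_iff.mpr hy₀0
  have hxy : x - c₁ = r₁ • y₀ := by
    rw [hy₀, smul_smul, mul_inv_cancel₀ hr.ne', one_smul]
  set T : ℝ := 2 * (‖c₁‖ + |ρ| + 1) / (r₁ * ‖y₀‖) with hT
  have ev1 : ∀ᶠ z in 𝓝 y₀, ∀ t ∈ Icc (1 : ℝ) T, c₁ + r₁ • (t • z) ∈ O := by
    refine isCompact_Icc.eventually_forall_of_forall_eventually fun t ht => ?_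
    have hc : Continuous fun q : EE d × ℝ => c₁ + r₁ • (q.2 • q.1) := by fun_prop
    have hm : c₁ + r₁ • (t • y₀) ∈ O := by
      have := hray t ht.1
      rwa [hxy, smul_comm] at this
    exact hc.continuousAt.eventually (hOo.mem_nhds hm)
  have ev2 : ∀ᶠ z in 𝓝 y₀, ‖y₀‖ / 2 < ‖z‖ :=
    continuous_norm.continuousAt.eventually (lt_mem_nhds (by linarith))
  obtain ⟨ε, hε, hball⟩ := Metric.eventually_nhds_iff_ball.mp (ev1.and ev2)
  let G : Set (EE d) := ⋃ (t : ℝ) (_ : 1 ≤ t), {y : EE d | t⁻¹ • y ∈ ball y₀ ε}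
  have hmemG : ∀ y, y ∈ G ↔ ∃ t : ℝ, 1 ≤ t ∧ t⁻¹ • y ∈ ball y₀ ε := by
    intro y
    simp only [G, mem_iUnion, exists_prop, mem_ofPred_eq]
  have hGo : IsOpen G := by
    refine isOpen_iUnion fun t => isOpen_iUnion fun _ => ?_
    exact isOpen_ball.preimage (by fun_prop : Continuous fun y : EE d => t⁻¹ • y)
  have hGout : OutO G := by
    refine ⟨hGo, fun y hy s hs => ?_⟩
    obtain ⟨t, ht, hty⟩ := (hmemG y).1 hy
    refine (hmemG _).2 ⟨s * t, by nlinarith, ?_⟩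
    have hs0 : s ≠ 0 := by linarith
    rw [smul_smul, mul_inv, mul_comm s⁻¹ t⁻¹, mul_assoc, inv_mul_cancel₀ hs0, mul_one]
    exact hty
  have hG0 : (0 : EE d) ∉ G := by
    intro h0
    obtain ⟨t, _, hty⟩ := (hmemG _).1 h0
    rw [smul_zero] at hty
    have := (hball 0 hty).2
    rw [norm_zero] at this
    linarith
  have hGO : G ⊆ {y : EE d | c₁ + r₁ • y ∈ O} := by
    intro y hy
    obtain ⟨t, ht, hty⟩ := (hmemG y).1 hy
    have ht0 : (0 : ℝ) < t := by linarith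
    have hyt : y = t • (t⁻¹ • y) := by
      rw [smul_smul, mul_inv_cancel₀ ht0.ne', one_smul]
    obtain ⟨h1, h2⟩ := hball _ hty
    show c₁ + r₁ • y ∈ O
    by_cases htT : t ≤ T
    · have := h1 t ⟨ht, htT⟩
      rwa [← hyt] at this
    · by_contra hnot
      have h3 := hρ hnot
      rw [mem_closedBall_zero_iff] at h3
      have h4 : ‖r₁ • y‖ ≤ ‖c₁ + r₁ • y‖ + ‖c₁‖ := by
        have := norm_sub_le (c₁ + r₁ • y) c₁
        rwa [add_sub_cancel_left] at this
      have h5 : ‖r₁ • y‖ = r₁ * (t * ‖t⁻¹ • y‖) := by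
        conv_lhs => rw [hyt]
        rw [norm_smul, norm_smul, Real.norm_of_nonneg hr.le, Real.norm_of_nonneg ht0.le]
      have h6 : T * (r₁ * ‖y₀‖) = 2 * (‖c₁‖ + |ρ| + 1) := by
        rw [hT]
        field_simp
      push Not at htT
      have h7 : T * (r₁ * ‖y₀‖) < t * (r₁ * ‖y₀‖) :=
        mul_lt_mul_of_pos_right htT (mul_pos hr hyp)
      have h8 : t * r₁ * (‖y₀‖ / 2) < t * r₁ * ‖t⁻¹ • y‖ :=
        mul_lt_mul_of_pos_left h2 (mul_pos ht0 hr)
      have h9 := le_abs_self ρ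
      nlinarith
  have hL : IsLame Z.kap G (aff c₁ r₁ w') := lame_mono (lame_aff hOo hw' c₁ hr.ne') hGO
  have hfar : ∀ y ∈ G, max 1 ((|R| + ‖c₁‖) / r₁) < ‖y‖ →
      ∀ k, aff c₁ r₁ w' k y = fw Z D₁ k y := by
    intro y _ hy k
    have h1 : 1 < ‖y‖ := lt_of_le_of_lt (le_max_left _ _) hy
    have h2 : (|R| + ‖c₁‖) / r₁ < ‖y‖ := lt_of_le_of_lt (le_max_right _ _) hy
    rw [div_lt_iff₀ hr] at h2
    have h3 : R < ‖c₁ + r₁ • y‖ := by
      have h4 : ‖r₁ • y‖ ≤ ‖c₁ + r₁ • y‖ + ‖c₁‖ := by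
        have := norm_sub_le (c₁ + r₁ • y) c₁
        rwa [add_sub_cancel_left] at this
      rw [norm_smul, Real.norm_of_nonneg hr.le] at h4
      have := le_abs_self R
      linarith
    rw [← h.eqw y h1 k]
    exact hww _ h3 k
  have hρ1 : 0 < ρ₁ := by linarith [h.hρ]
  have hfin := fx_of_w Z hρ1 h.on hGout hG0 hL hfar y₀
    ((hmemG _).2 ⟨1, le_rfl, by rw [inv_one, one_smul]; exact mem_ball_self hε⟩)
  intro hmem
  exact hfin hmem

end Pool.Agent.MP_0643f8_an.U
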