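import Mathlib
import Pool.Agent.Lib.MP_0643f8_an.U.M5a_One

/-!
# The sets `F₁`, `F₂` of two balls form a geometric configuration

Setting (`Two`): `H` is a Lame field on the open set `V`, which contains both closed balls, `w` is a
Lame field off the intersection of the closed balls, and for `j = 1, 2` the data `D_j` represent
`H` near the closed ball `j` and `w` outside it.
-/

set_option autoImplicit false

open MeasureTheory Metric Set Filter Topology
open scoped ContDiff

namespace Pool.Agent.MP_0643f8_an.U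

variable {d : ℕ} (Z : Cst d)

variable {c₁ c₂ : EE d} {r₁ r₂ ρ₁ ρ₂ : ℝ} {H w : Fin d → EE d → ℝ} {V : Set (EE d)}
  {D₁ D₂ : Dat d}

/-- principle B in the original coordinates: if `H` extends to an open neighbourhood of the segment
from `c₁` to `y`, then `y` is in the maximal domain. (Take the cone with vertex `c₁` over a small
ball around `y`, together with a small ball around `c₁`.) -/
theorem principleB (h : One Z c₁ r₁ H w V D₁ ρ₁) {O : Set (EE d)} (hO : IsOpen O)
    {H' : Fin d → EE d → ℝ} (hH' : IsLame Z.kap O H') (hHH : ∀ k, H' k =ᶠ[𝓝 c₁] H k)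
    {y : EE d} (hseg : ∀ t : ℝ, 0 ≤ t → t ≤ 1 → c₁ + t • (y - c₁) ∈ O) :
    r₁⁻¹ • (y - c₁) ∈ Mx D₁ := by
  have hr := h.hr
  let A : Set (EE d) := {z | ∀ t ∈ Icc (0 : ℝ) 1, c₁ + r₁ • (t • z) ∈ O}
  have hAo : IsOpen A := by
    rw [isOpen_iff_mem_nhds]
    intro z hz
    have ev : ∀ᶠ z' in 𝓝 z, ∀ t ∈ Icc (0 : ℝ) 1, c₁ + r₁ • (t • z') ∈ O := by
      refine isCompact_Icc.eventually_forall_of_forall_eventually fun t ht => ?_
      have hc : Continuous fun q : EE d × ℝ => c₁ + r₁ • (q.2 • q.1) := by fun_prop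
      exact hc.continuousAt.eventually (hO.mem_nhds (hz t ht))
    exact ev
  have hcO : c₁ ∈ O := by
    have := hseg 0 le_rfl zero_le_one
    rwa [zero_smul, add_zero] at this
  have hA : StarO A := by
    refine ⟨hAo, fun t _ => ?_, fun z hz s hs0 hs1 t ht => ?_⟩
    · rw [smul_zero, smul_zero, add_zero]
      exact hcO
    · have h2 := hz (t * s) ⟨mul_nonneg ht.1 hs0, mul_le_one₀ ht.2 hs0 hs1⟩
      rwa [mul_smul] at h2
  have hAO : A ⊆ {z : EE d | c₁ + r₁ • z ∈ O} := by
    intro z hz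
    have := hz 1 ⟨zero_le_one, le_rfl⟩
    rwa [one_smul] at this
  have hL : IsLame Z.kap A (aff c₁ r₁ H') := lame_mono (lame_aff hO hH' c₁ hr.ne') hAO
  have hρ1 : 0 < ρ₁ := by linarith [h.hρ]
  have hnear : ∀ k, aff c₁ r₁ H' k =ᶠ[𝓝 0] fH Z D₁ k := by
    intro k
    have hc : Filter.Tendsto (fun z : EE d => c₁ + r₁ • z) (𝓝 0) (𝓝 c₁) := by
      have h1 : Continuous fun z : EE d => c₁ + r₁ • z := by fun_prop
      have h2 := h1.tendsto 0
      rwa [smul_zero, add_zero] at h2
    filter_upwards [hc.eventually (hHH k), isOpen_ball.mem_nhds (mem_ball_self hρ1)] with z h1 h2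
    rw [← h.eqH z h2 k]
    exact h1
  refine mx_of_H Z hρ1 h.on hA hL hnear ?_
  intro t ht
  have h1 : c₁ + r₁ • t • r₁⁻¹ • (y - c₁) = c₁ + t • (y - c₁) := by
    rw [smul_comm r₁ t, smul_smul r₁ r₁⁻¹, mul_inv_cancel₀ hr.ne', one_smul]
  rw [h1]
  exact hseg t ht.1 ht.2

end Pool.Agent.MP_0643f8_an.U
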