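import Mathlib
import Pool.Agent.Lib.MP_0643f8_an.U.M5b_PrinA
import Pool.Agent.Lib.MP_0643f8_an.U.M5c_PrinB
import Pool.Agent.Lib.MP_0643f8_an.U.G4_Final
import Pool.Agent.Lib.MP_0643f8_an.U.M1_Topo
import Pool.Agent.Lib.MP_0643f8_an.U.L2_Ident

/-!
# The sets `F₁`, `F₂` of two balls form a geometric configuration

Setting (`Two`): `H` is a Lame field on the open set `V`, which contains both closed balls, `w` is a
Lame field off the intersection of the closed balls, and for `j = 1, 2` the data `D_j` represent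
`H` near the closed ball `j` and `w` outside it.
-/

set_option autoImplicit false

open MeasureTheory Metric Set Filter Topology
open scoped ContDiff

namespace Pool.Agent.MP_0643f8_an.U

variable {d : ℕ} (Z : Cst d)

variable {c₁ c₂ : EE d} {r₁ r₂ ρ₁ ρ₂ : ℝ} {H w : Fin d → EE d → ℝ} {V : Set (EE d)}
  {D₁ D₂ : Dat d}

/-- the configuration. `a`: `principleA` with `O` the complement of `F₂` and `ff_ext_w`; `a0`:
`principleA` with `O` the complement of the intersection of the closed balls; `b`: `principleB` with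
`O = {x | r₂⁻¹ • (x - c₂) ∈ Mx D₂}` and `ff_ext_H`: `H₂ = H` near `c₂`, and near `c₁` by
`lame_ident_conn` along the segment `[c₂, c₁]`, which is in `O` (star-shaped about `c₂`; `c₁ ∈ O` is the
point `t = 0`) and in the union of the closed balls, so in `V` (`segment_sub`); `b0`: `principleB`
with `O = V`. -/
theorem geo_of_two (hV : IsOpen V) (hH : IsLame Z.kap V H)
    (hb₁ : closedBall c₁ r₁ ⊆ V) (hb₂ : closedBall c₂ r₂ ⊆ V)
    (hw : IsLame Z.kap (closedBall c₁ r₁ ∩ closedBall c₂ r₂)ᶜ w)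
    (h₁ : One Z c₁ r₁ H w V D₁ ρ₁) (h₂ : One Z c₂ r₂ H w V D₂ ρ₂) :
    Geo c₁ c₂ r₁ r₂ (FF c₁ r₁ D₁) (FF c₂ r₂ D₂) := by
  have hd := Z.hd
  obtain ⟨hcpt, hmem, hstar, hsub⟩ := ff_basic Z h₁
  -- a point of `F₁` and its inversion
  have hinv : ∀ x ∈ FF c₁ r₁ D₁, x ≠ c₁ → r₁⁻¹ • (iv c₁ r₁ x - c₁) ∉ Mx D₁ := by
    intro x hx hxc
    have h := (ff_iv Z h₁ (iv_ne h₁.hr hxc)).1
    rw [iv_iv h₁.hr hxc] at h
    exact h hx
  refine ⟨h₁.hr, hcpt, hmem, hstar, hsub, ?_, ?_, ?_, ?_⟩
  · intro x hx hxc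
    by_contra hno
    push Not at hno
    obtain ⟨w₂, hw₂, hww⟩ := ff_ext_w Z hd h₂
    refine principleA Z h₁ (O := (FF c₂ r₂ D₂)ᶜ) ?_ hw₂ (R := ‖c₂‖ + r₂) ?_ hxc ?_ hx
    · rw [compl_compl]
      exact (ff_basic Z h₂).1
    · intro y hy k
      apply hww
      intro hmem
      rw [mem_closedBall, dist_eq_norm] at hmem
      have := norm_sub_norm_le y c₂
      linarith
    · intro t ht
      exact hno t ht
  · intro x hx hxc
    by_contra hno
    push Not at hno
    refine principleA Z h₁ (O := (closedBall c₁ r₁ ∩ closedBall c₂ r₂)ᶜ) ?_ hw (R := 0)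
      (fun _ _ _ => rfl) hxc ?_ hx
    · rw [compl_compl]
      exact (isCompact_closedBall c₁ r₁).inter (isCompact_closedBall c₂ r₂)
    · intro t ht
      exact hno t ht
  · intro hne x hx hxc
    by_contra hno
    push Not at hno
    obtain ⟨H₂, hH₂, hHH⟩ := ff_ext_H Z hd h₂
    have hMst : StarO (Mx D₂) := (mx_star (lt_trans one_pos h₂.hρ) h₂.on).1
    set O : Set (EE d) := {x | r₂⁻¹ • (x - c₂) ∈ Mx D₂} with hOdef
    have hOo : IsOpen O := hMst.1.preimage (by fun_prop)
    -- the segment is in `O`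
    have hseg : ∀ t : ℝ, 0 ≤ t → t ≤ 1 → c₁ + t • (iv c₁ r₁ x - c₁) ∈ O := by
      intro t ht0 ht1
      by_cases hc : c₁ + t • (iv c₁ r₁ x - c₁) = c₂
      · rw [hc, hOdef, mem_setOf_eq, sub_self, smul_zero]
        exact hMst.2.1
      · have h1 := hno t ht0 ht1 hc
        by_contra h2
        exact h1 ((ff_iv Z h₂ hc).2 h2)
    -- the centre `c₁` and the segment of the centres
    have hc₁O : c₁ ∈ O := by
      have := hseg 0 le_rfl zero_le_one
      rwa [zero_smul, add_zero] at this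
    have hsegO : segment ℝ c₂ c₁ ⊆ O := by
      intro z hz
      rw [segment_eq_image'] at hz
      obtain ⟨t, ht, rfl⟩ := hz
      have h1 := hMst.2.2 _ hc₁O t ht.1 ht.2
      rw [hOdef, mem_setOf_eq]
      have e : r₂⁻¹ • (c₂ + t • (c₁ - c₂) - c₂) = t • (r₂⁻¹ • (c₁ - c₂)) := by
        rw [add_sub_cancel_left, smul_comm]
      show r₂⁻¹ • (c₂ + t • (c₁ - c₂) - c₂) ∈ Mx D₂
      rw [e]
      exact h1
    have hsegV : segment ℝ c₂ c₁ ⊆ V := by
      intro z hz
      rw [segment_symm] at hz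
      rcases segment_sub h₁.hr h₂.hr hne hz with h | h
      · exact hb₁ h
      · exact hb₂ h
    have hH₂near : ∀ k, H₂ k =ᶠ[𝓝 c₁] H k := by
      refine fun k => lame_ident_conn hd (hOo.inter hV) (S := segment ℝ c₂ c₁)
        (subset_inter hsegO hsegV) (convex_segment c₂ c₁).isPreconnected
        (lame_mono hH₂ inter_subset_left) (lame_mono hH inter_subset_right)
        (left_mem_segment ℝ c₂ c₁) ?_ c₁ (right_mem_segment ℝ c₂ c₁) k
      intro k
      have hpos : 0 < r₂ * ρ₂ := mul_pos h₂.hr (lt_trans one_pos h₂.hρ)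
      filter_upwards [ball_mem_nhds c₂ hpos] with z hz
      exact hHH z hz k
    exact hinv x hx hxc (principleB Z h₁ hOo hH₂ hH₂near hseg)
  · intro x hx hxc
    by_contra hno
    push Not at hno
    refine hinv x hx hxc (principleB Z h₁ hV hH (fun _ => EventuallyEq.rfl) ?_)
    intro t ht0 ht1
    rcases hno t ht0 ht1 with h | h
    · exact hb₁ h
    · exact hb₂ h

end Pool.Agent.MP_0643f8_an.U
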