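import Mathlib
import Pool.Agent.Lib.MP_0643f8_an.U.M5d_Conf
import Pool.Agent.Lib.MP_0643f8_an.U.R6_Decay
import Pool.Agent.Lib.MP_0643f8_an.U.L6_Liou

/-!
# The sets `F₁`, `F₂` of two balls form a geometric configuration

Setting (`Two`): `H` is a Lame field on the open set `V`, which contains both closed balls, `w` is a
Lame field off the intersection of the closed balls, and for `j = 1, 2` the data `D_j` represent
`H` near the closed ball `j` and `w` outside it.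
-/

set_option autoImplicit false

open MeasureTheory Metric Set Filter Topology
open scoped ContDiff

namespace Pool.Agent.MP_0643f8_an.U

variable {d : ℕ} (Z : Cst d)

variable {c₁ c₂ : EE d} {r₁ r₂ ρ₁ ρ₂ : ℝ} {H w : Fin d → EE d → ℝ} {V : Set (EE d)}
  {D₁ D₂ : Dat d}

/-- if the balls are not nested the exterior field vanishes outside each closed ball: by
`geo_final`, `FF c_j r_j D_j = {c_j}`, so `w` extends to the complement of `c₁` and to the complement
of `c₂ ≠ c₁` (`ff_ext_w`); the extensions agree off `{c₁, c₂}` and glue to an entire Lame field,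
which is `O(1/|x|)` by `fw_decay`, hence `0` by `lame_liouville`. -/
theorem w_zero (hV : IsOpen V) (hH : IsLame Z.kap V H)
    (hb₁ : closedBall c₁ r₁ ⊆ V) (hb₂ : closedBall c₂ r₂ ⊆ V)
    (hw : IsLame Z.kap (closedBall c₁ r₁ ∩ closedBall c₂ r₂)ᶜ w)
    (h₁ : One Z c₁ r₁ H w V D₁ ρ₁) (h₂ : One Z c₂ r₂ H w V D₂ ρ₂)
    (hn₁ : r₁ < dist c₁ c₂ + r₂) (hn₂ : r₂ < dist c₁ c₂ + r₁) :
    ∀ x ∉ closedBall c₁ r₁, ∀ k, w k x = 0 := by
  classical
  have hd := Z.hd
  have hg := geo_of_two Z hV hH hb₁ hb₂ hw h₁ h₂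
  have hg' := geo_of_two Z hV hH hb₂ hb₁ (by rw [inter_comm]; exact hw) h₂ h₁
  obtain ⟨hF₁, hF₂⟩ := geo_final hg hg' hn₁ hn₂
  obtain ⟨w₁, hw₁, hww₁⟩ := ff_ext_w Z hd h₁
  obtain ⟨w₂, hw₂, hww₂⟩ := ff_ext_w Z hd h₂
  rw [hF₁] at hw₁
  rw [hF₂] at hw₂
  have hr₁ := h₁.hr
  have hr₂ := h₂.hr
  have hne : c₁ ≠ c₂ := by
    rintro rfl
    rw [dist_self] at hn₁ hn₂
    linarith
  have hout₁ : ∀ x : EE d, ‖c₁‖ + r₁ < ‖x‖ → x ∉ closedBall c₁ r₁ := by
    intro x hx hmem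
    rw [mem_closedBall, dist_eq_norm] at hmem
    have := norm_sub_norm_le x c₁
    linarith
  have hout₂ : ∀ x : EE d, ‖c₂‖ + r₂ < ‖x‖ → x ∉ closedBall c₂ r₂ := by
    intro x hx hmem
    rw [mem_closedBall, dist_eq_norm] at hmem
    have := norm_sub_norm_le x c₂
    linarith
  -- the two extensions agree off the centres
  have hopen : IsOpen (({c₁}ᶜ : Set (EE d)) ∩ {c₂}ᶜ) :=
    isOpen_compl_singleton.inter isOpen_compl_singleton
  have hagree : ∀ y : EE d, y ≠ c₁ → y ≠ c₂ → ∀ k, w₁ k y = w₂ k y := by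
    intro y hy₁ hy₂
    have hp₁ : 0 < ‖y - c₁‖ := norm_pos_iff.2 (sub_ne_zero.2 hy₁)
    have hp₂ : 0 < ‖y - c₂‖ := norm_pos_iff.2 (sub_ne_zero.2 hy₂)
    obtain ⟨v, hv, hray⟩ := ray_out hd (c₁ := c₁) (c₂ := c₂) (x := y)
      (r₁ := ‖y - c₁‖ / 2) (r₂ := ‖y - c₂‖ / 2) (by positivity) (by positivity)
      (by rw [mem_closedBall, dist_eq_norm]; linarith)
      (by rw [mem_closedBall, dist_eq_norm]; linarith)
    refine lame_ident_ray hd hopen (lame_mono hw₁ inter_subset_left)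
      (lame_mono hw₂ inter_subset_right) (R := max (‖c₁‖ + r₁) (‖c₂‖ + r₂)) ?_ hv ?_
    · intro x _ hx k
      rw [hww₁ x (hout₁ x (lt_of_le_of_lt (le_max_left _ _) hx)) k,
        hww₂ x (hout₂ x (lt_of_le_of_lt (le_max_right _ _) hx)) k]
    · intro t ht
      obtain ⟨q₁, q₂⟩ := hray t ht
      refine ⟨fun h => q₁ ?_, fun h => q₂ ?_⟩
      · rw [mem_singleton_iff] at h
        rw [h]
        exact mem_closedBall_self (by positivity)
      · rw [mem_singleton_iff] at h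
        rw [h]
        exact mem_closedBall_self (by positivity)
  -- the entire field
  set W : Fin d → EE d → ℝ := fun k x => if x = c₁ then w₂ k x else w₁ k x with hWdef
  have hWent : IsLame Z.kap univ W := by
    refine lame_of_local isOpen_univ fun x _ => ?_
    by_cases hx : x = c₁
    · refine ⟨{c₂}ᶜ, isOpen_compl_singleton, ?_, ?_⟩
      · rw [hx]
        exact hne
      · refine lame_congr isOpen_compl_singleton hw₂ fun y hy k => ?_
        by_cases hy₁ : y = c₁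
        · simp [hWdef, hy₁]
        · simp only [hWdef, if_neg hy₁]
          exact hagree y hy₁ hy k
    · refine ⟨{c₁}ᶜ, isOpen_compl_singleton, hx, ?_⟩
      refine lame_congr isOpen_compl_singleton hw₁ fun y hy k => ?_
      have hy' : y ≠ c₁ := hy
      simp only [hWdef, if_neg hy']
  -- decay
  obtain ⟨c, R, hR, hdec⟩ := fw_decay Z isOpen_ball
    (mem_ball_self (lt_trans one_pos h₁.hρ)) h₁.on
  have hWdec : ∀ x : EE d, max (r₁ * R + ‖c₁‖) (2 * ‖c₁‖ + 2 * r₁) < ‖x‖ → ∀ k,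
      |W k x| ≤ (|c| * (2 * r₁)) * ‖x‖⁻¹ := by
    intro x hx k
    have hx1 : r₁ * R + ‖c₁‖ < ‖x‖ := lt_of_le_of_lt (le_max_left _ _) hx
    have hx2 : 2 * ‖c₁‖ + 2 * r₁ < ‖x‖ := lt_of_le_of_lt (le_max_right _ _) hx
    have hn := norm_nonneg c₁
    have hxpos : 0 < ‖x‖ := by linarith
    have hsub := norm_sub_norm_le x c₁
    have hxc : x ∉ closedBall c₁ r₁ := hout₁ x (by linarith)
    have hxne : x ≠ c₁ := by
      rintro rfl
      exact hxc (mem_closedBall_self hr₁.le)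
    have hynorm : ‖r₁⁻¹ • (x - c₁)‖ = ‖x - c₁‖ / r₁ := by
      rw [norm_smul, Real.norm_of_nonneg (by positivity)]
      field_simp
    have hy1 : 1 < ‖r₁⁻¹ • (x - c₁)‖ := by
      rw [hynorm, lt_div_iff₀ hr₁]
      linarith
    have hyR : R < ‖r₁⁻¹ • (x - c₁)‖ := by
      rw [hynorm, lt_div_iff₀ hr₁]
      linarith
    have hyx : ‖x‖ / (2 * r₁) ≤ ‖r₁⁻¹ • (x - c₁)‖ := by
      rw [hynorm, div_le_div_iff₀ (by positivity) hr₁]
      nlinarith
    have e1 : W k x = fw Z D₁ k (r₁⁻¹ • (x - c₁)) := by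
      rw [← h₁.eqw _ hy1 k]
      simp only [hWdef, if_neg hxne]
      rw [hww₁ x hxc k]
      unfold aff
      rw [smul_smul, mul_inv_cancel₀ hr₁.ne', one_smul, add_sub_cancel]
    rw [e1]
    refine (hdec _ hyR k).trans ?_
    have hpow : ‖r₁⁻¹ • (x - c₁)‖ ≤ ‖r₁⁻¹ • (x - c₁)‖ ^ (d - 1) :=
      le_self_pow₀ hy1.le (by omega)
    have hpos : 0 < ‖r₁⁻¹ • (x - c₁)‖ := by linarith
    calc c * (‖r₁⁻¹ • (x - c₁)‖ ^ (d - 1))⁻¹
        ≤ |c| * (‖r₁⁻¹ • (x - c₁)‖ ^ (d - 1))⁻¹ :=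
          mul_le_mul_of_nonneg_right (le_abs_self c) (by positivity)
      _ ≤ |c| * (‖x‖ / (2 * r₁))⁻¹ := by
          apply mul_le_mul_of_nonneg_left _ (abs_nonneg c)
          apply inv_anti₀ (by positivity)
          exact hyx.trans hpow
      _ = (|c| * (2 * r₁)) * ‖x‖⁻¹ := by
          rw [inv_div]
          ring
  intro x hx k
  have h0 := lame_liouville hd hWent hWdec k x
  have hxne : x ≠ c₁ := by
    rintro rfl
    exact hx (mem_closedBall_self hr₁.le)
  simp only [hWdef, if_neg hxne] at h0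
  rw [← hww₁ x hx k]
  exact h0

end Pool.Agent.MP_0643f8_an.U
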