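import Mathlib
import Pool.Agent.Lib.MP_0643f8_an.U.H01_Bridge

/-!
# A truncated fundamental solution

`Pool.Agent.Lib.MP_47b33c_an.KK` is of class `C²`, `Δ KK = - d (d+2) max 0 (1 - |x|²)`, and for
`|x| ≥ 1`, `KK x = gK d (|x|²) = - ∫_1^{|x|²} t^{-d/2} dt`, which is `- 2 log |x|` for `d = 2` and
`(2/(d-2)) (|x|^{2-d} - 1)` for `d ≥ 3`. Rescale: `k x = c ε^{2-d} KK (x/ε)` with
`c = - 1 / (d (d+2) ∫ wt 1)`, so that `Δ k = ρ`, `ρ x = ε^{-d} wt 1 (x/ε) / ∫ wt 1`, and the mean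
value property (`mvp` with `k = 1`) says `ρ * h = h` for `h` harmonic.
-/

set_option autoImplicit false

open MeasureTheory Metric Set Filter Topology
open scoped ContDiff

namespace Pool.Agent.MP_0643f8_an.U
variable {d : ℕ}

/-- the fundamental solution up to normalisation -/
noncomputable def NN (d : ℕ) (x : EE d) : ℝ :=
  if d = 2 then Real.log ‖x‖ else (‖x‖ ^ (d - 2))⁻¹

private noncomputable def nnc (d : ℕ) : ℝ := if d = 2 then 1 else -((d : ℝ) - 2)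

private theorem nn_norm_fd {x : EE d} (hx : x ≠ 0) :
    HasFDerivAt (fun y : EE d => ‖y‖) (‖x‖⁻¹ • innerSL ℝ x) x := by
  have hx0 : 0 < ‖x‖ := norm_pos_iff.2 hx
  have h1 : HasFDerivAt (fun y : EE d => ‖y‖ ^ 2) (2 • (innerSL ℝ x)) x :=
    (hasStrictFDerivAt_norm_sq x).hasFDerivAt
  have h2 := h1.sqrt (by positivity)
  have h3 : (fun y : EE d => √(‖y‖ ^ 2)) = fun y : EE d => ‖y‖ :=
    funext fun y => Real.sqrt_sq (norm_nonneg y)
  rw [h3, Real.sqrt_sq (norm_nonneg x)] at h2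
  have h4 : (1 / (2 * ‖x‖)) • (2 • (innerSL ℝ x)) = ‖x‖⁻¹ • innerSL ℝ x := by
    ext v
    simp only [smul_apply, smul_eq_mul, nsmul_eq_mul]
    push_cast
    field_simp
  rwa [h4] at h2

private theorem nn_pow_fd (n : ℕ) {x : EE d} (hx : x ≠ 0) :
    HasFDerivAt (fun y : EE d => (‖y‖ ^ n)⁻¹)
      ((-(n : ℝ) * (‖x‖ ^ (n + 2))⁻¹) • innerSL ℝ x) x := by
  have hx0 : 0 < ‖x‖ := norm_pos_iff.2 hx
  have h1 : HasDerivAt (fun t : ℝ => (t ^ n)⁻¹) (-((n : ℝ) * ‖x‖ ^ (n - 1)) / (‖x‖ ^ n) ^ 2) ‖x‖ :=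
    (hasDerivAt_pow n ‖x‖).fun_inv (pow_ne_zero n hx0.ne')
  have h2 := h1.comp_hasFDerivAt x (nn_norm_fd hx)
  have h3 : (-((n : ℝ) * ‖x‖ ^ (n - 1)) / (‖x‖ ^ n) ^ 2) • (‖x‖⁻¹ • innerSL ℝ x) =
      (-(n : ℝ) * (‖x‖ ^ (n + 2))⁻¹) • innerSL ℝ x := by
    rw [smul_smul]
    congr 1
    rcases Nat.eq_zero_or_pos n with h | h
    · subst h; simp
    · obtain ⟨m, rfl⟩ := Nat.exists_eq_add_of_le' h
      rw [Nat.add_sub_cancel]
      field_simp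
      try ring
  rw [h3] at h2
  exact h2

private theorem nn_fd (hd : 2 ≤ d) {x : EE d} (hx : x ≠ 0) :
    HasFDerivAt (NN d) ((nnc d * (‖x‖ ^ d)⁻¹) • innerSL ℝ x) x := by
  have hx0 : 0 < ‖x‖ := norm_pos_iff.2 hx
  by_cases h2 : d = 2
  · subst h2
    have h1 : NN 2 = fun y : EE 2 => Real.log ‖y‖ := funext fun y => by simp [NN]
    have h3 := (Real.hasDerivAt_log hx0.ne').comp_hasFDerivAt x (nn_norm_fd hx)
    have h4 : ‖x‖⁻¹ • (‖x‖⁻¹ • innerSL ℝ x) = (nnc 2 * (‖x‖ ^ 2)⁻¹) • innerSL ℝ x := by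
      rw [smul_smul]
      congr 1
      simp only [nnc, if_true]
      field_simp
    rw [h4] at h3
    rw [h1]
    exact h3
  · have h1 : NN d = fun y : EE d => (‖y‖ ^ (d - 2))⁻¹ := funext fun y => by simp [NN, h2]
    have h3 := nn_pow_fd (d - 2) hx
    have h4 : (-((d - 2 : ℕ) : ℝ) * (‖x‖ ^ (d - 2 + 2))⁻¹) = nnc d * (‖x‖ ^ d)⁻¹ := by
      rw [Nat.sub_add_cancel hd, Nat.cast_sub hd]
      simp only [nnc, if_neg h2]
      push_cast
      ring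
    rw [h4] at h3
    rw [h1]
    exact h3

private theorem nn_pd (hd : 2 ≤ d) {x : EE d} (hx : x ≠ 0) (i : Fin d) :
    pd i (NN d) x = nnc d * ((‖x‖ ^ d)⁻¹ * x i) := by
  show fderiv ℝ (NN d) x (EuclideanSpace.single i (1 : ℝ)) = _
  rw [(nn_fd hd hx).fderiv]
  simp [innerSL_apply_apply, EuclideanSpace.inner_single_right, mul_assoc]

private theorem nn_pow_pd (n : ℕ) {x : EE d} (hx : x ≠ 0) (i : Fin d) :
    pd i (fun y : EE d => (‖y‖ ^ n)⁻¹) x = -(n : ℝ) * (‖x‖ ^ (n + 2))⁻¹ * x i := by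
  show fderiv ℝ (fun y : EE d => (‖y‖ ^ n)⁻¹) x (EuclideanSpace.single i (1 : ℝ)) = _
  rw [(nn_pow_fd n hx).fderiv]
  simp [innerSL_apply_apply, EuclideanSpace.inner_single_right, mul_assoc]

private theorem nn_open : IsOpen {x : EE d | x ≠ 0} := isOpen_ne

private theorem nn_pd2 (hd : 2 ≤ d) {x : EE d} (hx : x ≠ 0) (i : Fin d) :
    pd i (pd i (NN d)) x =
      nnc d * ((‖x‖ ^ d)⁻¹ - (d : ℝ) * (‖x‖ ^ (d + 2))⁻¹ * x i ^ 2) := by
  have h1 : pd i (NN d) =ᶠ[𝓝 x] fun y => nnc d * ((‖y‖ ^ d)⁻¹ * y i) := by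
    filter_upwards [nn_open.mem_nhds hx] with y hy
    exact nn_pd hd hy i
  have h2 : DifferentiableAt ℝ (fun y : EE d => (‖y‖ ^ d)⁻¹) x :=
    (nn_pow_fd d hx).differentiableAt
  have h3 : DifferentiableAt ℝ (fun y : EE d => y i) x :=
    ((EuclideanSpace.proj i : EE d →L[ℝ] ℝ).hasFDerivAt (x := x)).differentiableAt
  have h4 : DifferentiableAt ℝ (fun y : EE d => (‖y‖ ^ d)⁻¹ * y i) x := h2.mul h3
  rw [(pd_congr h1 i).self_of_nhds, pd_cmul h4, pd_mul h2 h3, nn_pow_pd d hx, pd_coord,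
    if_pos rfl]
  ring

theorem hm_NN (hd : 2 ≤ d) : Hm {x : EE d | x ≠ 0} (NN d) := by
  refine ⟨?_, ?_⟩
  · intro x hx
    refine ContDiffAt.contDiffWithinAt ?_
    have hx' : x ≠ 0 := hx
    have hx0 : 0 < ‖x‖ := norm_pos_iff.2 hx'
    have h1 : ContDiffAt ℝ ∞ (fun y : EE d => ‖y‖) x := contDiffAt_norm ℝ hx'
    by_cases h2 : d = 2
    · subst h2
      have h3 : NN 2 = fun y : EE 2 => Real.log ‖y‖ := funext fun y => by simp [NN]
      rw [h3]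
      exact h1.log hx0.ne'
    · have h3 : NN d = fun y : EE d => (‖y‖ ^ (d - 2))⁻¹ := funext fun y => by simp [NN, h2]
      rw [h3]
      exact (h1.pow (d - 2)).inv (pow_ne_zero _ hx0.ne')
  · intro x hx
    have hx' : x ≠ 0 := hx
    have hx0 : 0 < ‖x‖ := norm_pos_iff.2 hx'
    rw [Finset.sum_congr rfl fun i _ => nn_pd2 hd hx' i, ← Finset.mul_sum,
      Finset.sum_sub_distrib, ← Finset.mul_sum, ← normsq_eq_sum, Finset.sum_const,
      Finset.card_univ, Fintype.card_fin, nsmul_eq_mul]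
    have h1 : (‖x‖ ^ (d + 2))⁻¹ * ‖x‖ ^ 2 = (‖x‖ ^ d)⁻¹ := by
      rw [pow_add]
      field_simp
    rw [mul_assoc, h1, sub_self, mul_zero]

/-- the Euler operator on `NN`: `1` if `d = 2`, `-(d-2) NN` otherwise -/
theorem eul_NN (hd : 2 ≤ d) {x : EE d} (hx : x ≠ 0) :
    eul (NN d) x = if d = 2 then 1 else -((d : ℝ) - 2) * NN d x := by
  have hx0 : 0 < ‖x‖ := norm_pos_iff.2 hx
  unfold eul
  rw [(nn_fd hd hx).fderiv]
  have h1 : (innerSL ℝ x) x = ‖x‖ ^ 2 := by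
    rw [innerSL_apply_apply, real_inner_self_eq_norm_sq]
  rw [smul_apply, h1, smul_eq_mul]
  by_cases h2 : d = 2
  · subst h2
    simp only [nnc, if_true]
    field_simp
  · simp only [nnc, NN, if_neg h2]
    obtain ⟨m, rfl⟩ := Nat.exists_eq_add_of_le' hd
    rw [Nat.add_sub_cancel, pow_add]
    field_simp

private theorem nn_fd_norm (hd : 2 ≤ d) {x : EE d} (hx : x ≠ 0) :
    ‖(nnc d * (‖x‖ ^ d)⁻¹) • innerSL ℝ x‖ = |nnc d| * (‖x‖ ^ (d - 1))⁻¹ := by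
  have hx0 : 0 < ‖x‖ := norm_pos_iff.2 hx
  rw [norm_smul, innerSL_apply_norm, Real.norm_eq_abs, abs_mul, abs_of_pos (a := (‖x‖ ^ d)⁻¹)
    (by positivity), mul_assoc]
  congr 1
  obtain ⟨m, rfl⟩ := Nat.exists_eq_add_of_le' (show 1 ≤ d by omega)
  rw [Nat.add_sub_cancel, pow_succ]
  field_simp

theorem pd_NN_bound (hd : 2 ≤ d) : ∃ C : ℝ, ∀ x : EE d, x ≠ 0 → ∀ i,
    |pd i (NN d) x| ≤ C * (‖x‖ ^ (d - 1))⁻¹ := by
  refine ⟨|nnc d|, fun x hx i => ?_⟩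
  rw [← nn_fd_norm hd hx, ← (nn_fd hd hx).fderiv]
  have h1 := (fderiv ℝ (NN d) x).le_opNorm (EuclideanSpace.single i (1 : ℝ))
  rw [PiLp.norm_single, norm_one, mul_one, Real.norm_eq_abs] at h1
  exact h1

theorem NN_diff (hd : 2 ≤ d) : ∃ C : ℝ, 0 < C ∧ ∀ x y : EE d, x ≠ 0 → 2 * ‖y‖ ≤ ‖x‖ →
    |NN d (x - y) - NN d x| ≤ C * ‖y‖ * (‖x‖ ^ (d - 1))⁻¹ := by
  refine ⟨|nnc d| * 2 ^ (d - 1) + 1, by positivity, fun x y hx hy => ?_⟩
  have hx0 : 0 < ‖x‖ := norm_pos_iff.2 hx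
  have hz : ∀ z ∈ closedBall x ‖y‖, ‖x‖ / 2 ≤ ‖z‖ := by
    intro z hz
    rw [mem_closedBall, dist_eq_norm] at hz
    have h1 : ‖x‖ ≤ ‖z - x‖ + ‖z‖ := by
      calc ‖x‖ = ‖z - (z - x)‖ := by congr 1; abel
        _ ≤ ‖z‖ + ‖z - x‖ := norm_sub_le _ _
        _ = ‖z - x‖ + ‖z‖ := add_comm _ _
    linarith
  have hz0 : ∀ z ∈ closedBall x ‖y‖, z ≠ 0 := by
    intro z h h0
    have h1 := hz z h
    rw [h0, norm_zero] at h1
    linarith
  have h1 := Convex.norm_image_sub_le_of_norm_hasFDerivWithin_le (𝕜 := ℝ) (f := NN d)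
    (s := closedBall x ‖y‖) (x := x) (y := x - y)
    (f' := fun z => (nnc d * (‖z‖ ^ d)⁻¹) • innerSL ℝ z)
    (C := |nnc d| * 2 ^ (d - 1) * (‖x‖ ^ (d - 1))⁻¹)
    (fun z h => (nn_fd hd (hz0 z h)).hasFDerivWithinAt)
    (fun z h => by
      rw [nn_fd_norm hd (hz0 z h), mul_assoc]
      refine mul_le_mul_of_nonneg_left ?_ (abs_nonneg _)
      have h2 : (‖x‖ / 2) ^ (d - 1) ≤ ‖z‖ ^ (d - 1) :=
        pow_le_pow_left₀ (by positivity) (hz z h) _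
      have h3 := inv_anti₀ (by positivity) h2
      refine h3.trans (le_of_eq ?_)
      rw [div_pow]
      field_simp)
    (convex_closedBall x ‖y‖) (mem_closedBall_self (norm_nonneg y))
    (by rw [mem_closedBall, dist_eq_norm, sub_sub_cancel_left, norm_neg])
  rw [Real.norm_eq_abs, sub_sub_cancel_left, norm_neg] at h1
  refine h1.trans ?_
  have h2 : 0 ≤ ‖y‖ * (‖x‖ ^ (d - 1))⁻¹ := by positivity
  nlinarith

end Pool.Agent.MP_0643f8_an.U
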