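import Mathlib
import Pool.Agent.Lib.MP_0643f8_an.U.S1a_NN
import Pool.Agent.Lib.MP_47b33c_an.KernelB

/-!
# A truncated fundamental solution

`Pool.Agent.Lib.MP_47b33c_an.KK` is of class `C²`, `Δ KK = - d (d+2) max 0 (1 - |x|²)`, and for
`|x| ≥ 1`, `KK x = gK d (|x|²) = - ∫_1^{|x|²} t^{-d/2} dt`, which is `- 2 log |x|` for `d = 2` and
`(2/(d-2)) (|x|^{2-d} - 1)` for `d ≥ 3`. Rescale: `k x = c ε^{2-d} KK (x/ε)` with
`c = - 1 / (d (d+2) ∫ wt 1)`, so that `Δ k = ρ`, `ρ x = ε^{-d} wt 1 (x/ε) / ∫ wt 1`, and the mean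
value property (`mvp` with `k = 1`) says `ρ * h = h` for `h` harmonic.
-/

set_option autoImplicit false

open MeasureTheory Metric Set Filter Topology
open scoped ContDiff

namespace Pool.Agent.MP_0643f8_an.U
variable {d : ℕ}

open Pool.Agent.Lib.MP_47b33c_an in
private theorem s1_lap {f : EE d → ℝ} {x : EE d} (hf : ContDiffAt ℝ 2 f x) :
    Laplacian.laplacian f x = ∑ i, pd i (pd i f) x := by
  rw [a3_laplacian_eq]
  refine Finset.sum_congr rfl fun i _ => ?_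
  rw [a3_second f hf, EuclideanSpace.basisFun_apply]
  rfl

open Pool.Agent.Lib.MP_47b33c_an in
private theorem s1_gK (hd : 2 ≤ d) : ∃ a b : ℝ, ∀ s : ℝ, 1 ≤ s →
    gK d (s ^ 2) = a * (if d = 2 then Real.log s else (s ^ (d - 2))⁻¹) + b := by
  have h0 : ∀ s : ℝ, 1 ≤ s → gK d (s ^ 2) = -∫ t in (1 : ℝ)..(s ^ 2), t ^ (-(d : ℝ) / 2) := by
    intro s hs
    unfold gK
    by_cases h1 : s ^ 2 ≤ 1
    · have h2 : s ^ 2 = 1 := le_antisymm h1 (by nlinarith)
      rw [h2, if_pos le_rfl]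
      simp
    · rw [if_neg h1]
  by_cases h2 : d = 2
  · refine ⟨-2, 0, fun s hs => ?_⟩
    rw [h0 s hs, if_pos h2, h2]
    have e1 : (-((2 : ℕ) : ℝ) / 2) = -1 := by norm_num
    rw [e1]
    have hs2 : (1 : ℝ) ≤ s ^ 2 := by nlinarith
    have e2 : ∫ t in (1 : ℝ)..(s ^ 2), t ^ (-1 : ℝ) = Real.log (s ^ 2) := by
      have e3 : ∀ t : ℝ, t ^ (-1 : ℝ) = t⁻¹ := fun t => Real.rpow_neg_one t
      simp only [e3]
      rw [integral_inv_of_pos one_pos (by linarith), div_one]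
    rw [e2, Real.log_pow]
    push_cast
    ring
  · have hd3 : 3 ≤ d := by omega
    have hd2 : (0 : ℝ) < (d : ℝ) - 2 := by
      have : (3 : ℝ) ≤ d := by exact_mod_cast hd3
      linarith
    refine ⟨2 / ((d : ℝ) - 2), -(2 / ((d : ℝ) - 2)), fun s hs => ?_⟩
    rw [h0 s hs, if_neg h2]
    have hs0 : 0 < s := by linarith
    have hs2 : (1 : ℝ) ≤ s ^ 2 := by nlinarith
    rw [integral_rpow]
    · have e1 : (s ^ 2) ^ (-(d : ℝ) / 2 + 1) = (s ^ (d - 2))⁻¹ := by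
        rw [← Real.rpow_natCast s 2, ← Real.rpow_mul hs0.le, ← Real.rpow_natCast s (d - 2),
          ← Real.rpow_neg hs0.le]
        congr 1
        rw [Nat.cast_sub (by omega)]
        push_cast
        ring
      rw [e1, Real.one_rpow]
      have e2 : -(d : ℝ) / 2 + 1 = -(((d : ℝ) - 2) / 2) := by ring
      rw [e2]
      field_simp
      ring
    · right
      refine ⟨?_, ?_⟩
      · intro h
        have : (d : ℝ) - 2 = 0 := by linarith
        linarith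
      · rw [uIcc_of_le hs2]
        intro h
        linarith [h.1]

open Pool.Agent.Lib.MP_47b33c_an in
/-- the truncated kernel -/
theorem exists_kernel (hd : 2 ≤ d) {ε : ℝ} (hε : 0 < ε) :
    ∃ (k ρ : EE d → ℝ) (a b : ℝ), ContDiff ℝ 2 k ∧ Continuous ρ ∧
      (∀ x, ∑ i, pd i (pd i k) x = ρ x) ∧ (∀ x, ε ≤ ‖x‖ → ρ x = 0) ∧
      (∀ x, ε ≤ ‖x‖ → k x = a * NN d x + b) ∧
      ∀ (A : Set (EE d)) (h : EE d → ℝ) (x : EE d), IsOpen A → Hm A h →
        closedBall x ε ⊆ A → ∫ y, ρ (x - y) * h y = h x := by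
  obtain ⟨a0, b0, hab⟩ := s1_gK hd
  set I : ℝ := ∫ y : EE d, wt 1 y with hI
  have hI0 : 0 < I := wt_integral_pos hd 1 le_rfl
  have hd0 : (0 : ℝ) < d := by
    have : 0 < d := by omega
    exact_mod_cast this
  set C : ℝ := -(ε ^ 2 * (ε ^ d)⁻¹ * I⁻¹) / (d * (d + 2)) with hC
  have hKc : ContDiff ℝ 2 (KK : EE d → ℝ) := KK_contDiff hd
  have hKd : Differentiable ℝ (KK : EE d → ℝ) := hKc.differentiable (by norm_num)
  have hKpd : ∀ i, Differentiable ℝ (pd i (KK : EE d → ℝ)) := by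
    intro i
    have h1 : ContDiff ℝ 1 (fderiv ℝ (KK : EE d → ℝ)) := hKc.fderiv_right (by norm_num)
    have h2 : ContDiff ℝ 1 (pd i (KK : EE d → ℝ)) := h1.clm_apply contDiff_const
    exact h2.differentiable (by norm_num)
  -- the first derivative
  have hp1 : ∀ i, pd i (fun z : EE d => C * KK (0 + ε⁻¹ • z)) =
      fun z : EE d => (C * ε⁻¹) * pd i KK (0 + ε⁻¹ • z) := by
    intro i
    funext z
    rw [pd_cmul ?_ C i, pd_affine (hKd _) i]
    · ring
    · exact (hKd _).comp z (((differentiable_id.const_smul ε⁻¹).const_add 0) z)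
  have hp2 : ∀ i x, pd i (pd i (fun z : EE d => C * KK (0 + ε⁻¹ • z))) x =
      C * ε⁻¹ ^ 2 * pd i (pd i KK) (0 + ε⁻¹ • x) := by
    intro i x
    rw [hp1 i, pd_cmul ?_ _ i, pd_affine (hKpd i _) i]
    · ring
    · exact ((hKpd i) _).comp x (((differentiable_id.const_smul ε⁻¹).const_add 0) x)
  have hnorm : ∀ x : EE d, ‖ε⁻¹ • x‖ = ‖x‖ / ε := by
    intro x
    rw [norm_smul, Real.norm_eq_abs, abs_of_pos (inv_pos.2 hε)]
    ring
  refine ⟨fun z => C * KK (0 + ε⁻¹ • z), fun x => (ε ^ d)⁻¹ * I⁻¹ * wt 1 (ε⁻¹ • x),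
    if d = 2 then C * a0 else C * a0 * ε ^ (d - 2),
    if d = 2 then C * b0 - C * a0 * Real.log ε else C * b0, ?_, ?_, ?_, ?_, ?_, ?_⟩
  · exact contDiff_const.mul (hKc.comp (contDiff_const.add (contDiff_const_smul ε⁻¹)))
  · exact continuous_const.mul ((wt_continuous 1).comp (continuous_const_smul ε⁻¹))
  · intro x
    rw [Finset.sum_congr rfl fun i _ => hp2 i x, ← Finset.mul_sum, ← s1_lap hKc.contDiffAt,
      lap_KK hd, zero_add]
    simp only [wt, pow_one]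
    rw [hC]
    field_simp
  · intro x hx
    have h1 : 1 ≤ ‖ε⁻¹ • x‖ := by
      rw [hnorm, le_div_iff₀ hε, one_mul]
      exact hx
    show (ε ^ d)⁻¹ * I⁻¹ * wt 1 (ε⁻¹ • x) = 0
    rw [wt_eq_zero 1 le_rfl h1, mul_zero]
  · intro x hx
    have h1 : 1 ≤ ‖x‖ / ε := by
      rw [le_div_iff₀ hε, one_mul]
      exact hx
    have hx0 : 0 < ‖x‖ := lt_of_lt_of_le hε hx
    simp only [zero_add, KK, hnorm]
    rw [hab _ h1]
    unfold NN
    by_cases h2 : d = 2
    · simp only [if_pos h2]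
      rw [Real.log_div hx0.ne' hε.ne']
      ring
    · simp only [if_neg h2]
      rw [div_pow, inv_div]
      field_simp
  · intro A h x hA hh hsub
    have hharm := harmonic_of_hm hA hh
    have h1 := mvp hd 1 le_rfl hε.le (fun z hz => hharm z (hsub hz)) (x := x) (u := h)
    have h2 := MeasureTheory.Measure.integral_comp_smul (volume : Measure (EE d))
      (fun t => h (x + t) * wt 1 (ε⁻¹ • t)) ε
    have h3 : (∫ y : EE d, h (x + ε • y) * wt 1 y) =
        ∫ y : EE d, (fun t => h (x + t) * wt 1 (ε⁻¹ • t)) (ε • y) := by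
      refine integral_congr_ae (Eventually.of_forall fun y => ?_)
      simp only [smul_smul, inv_mul_cancel₀ hε.ne', one_smul]
    have h4 : ∫ y : EE d, (ε ^ d)⁻¹ * I⁻¹ * wt 1 (ε⁻¹ • (x - y)) * h y =
        (ε ^ d)⁻¹ * I⁻¹ * ∫ t : EE d, h (x + t) * wt 1 (ε⁻¹ • t) := by
      rw [← integral_add_left_eq_self (fun y : EE d => (ε ^ d)⁻¹ * I⁻¹ * wt 1 (ε⁻¹ • (x - y)) * h y) x,
        ← integral_const_mul]
      refine integral_congr_ae (Eventually.of_forall fun t => ?_)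
      have e1 : x - (x + t) = -t := by abel
      have e2 : (wt 1 (ε⁻¹ • -t) : ℝ) = wt 1 (ε⁻¹ • t) := by
        simp only [wt, smul_neg, norm_neg]
      simp only [e1, e2]
      ring
    show ∫ y : EE d, (ε ^ d)⁻¹ * I⁻¹ * wt 1 (ε⁻¹ • (x - y)) * h y = h x
    rw [h4]
    rw [h3, h2, finrank_euclideanSpace_fin, smul_eq_mul, abs_of_pos (by positivity), ← hI] at h1
    have hεd : 0 < ε ^ d := by positivity
    have h5 : (ε ^ d)⁻¹ * I⁻¹ * ∫ t : EE d, h (x + t) * wt 1 (ε⁻¹ • t) =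
        I⁻¹ * ((ε ^ d)⁻¹ * ∫ t : EE d, h (x + t) * wt 1 (ε⁻¹ • t)) := by ring
    rw [h5, h1]
    field_simp

end Pool.Agent.MP_0643f8_an.U
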