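import Mathlib
import Pool.Agent.Lib.MP_0643f8_an.U.S1_Kernel

/-!
# Convolution with the truncated fundamental solution

`F x = ∫ k (x - y) f y dy`, `f` continuous with compact support, `k` of class `C²`.
-/

set_option autoImplicit false

open MeasureTheory Metric Set Filter Topology InnerProductSpace
open scoped ContDiff

namespace Pool.Agent.MP_0643f8_an.U
variable {d : ℕ}

open ContinuousLinearMap in
private theorem s2_conv_eq (f g : EE d → ℝ) (x : EE d) :
    convolution f g (mul ℝ ℝ) volume x = ∫ y, g (x - y) * f y := by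
  rw [convolution_def]
  refine integral_congr_ae (Eventually.of_forall fun y => ?_)
  simp only [mul_apply']
  ring

open ContinuousLinearMap in
private theorem s2_contDiff_cpt {f g : EE d → ℝ} {n : ℕ∞} (hg : ContDiff ℝ n g)
    (hgc : HasCompactSupport g) (hf : Continuous f) :
    ContDiff ℝ n (fun x => ∫ y, g (x - y) * f y) := by
  have h := HasCompactSupport.contDiff_convolution_right (mul ℝ ℝ) hgc
    (μ := (volume : Measure (EE d))) hf.locallyIntegrable hg
  have e : convolution f g (mul ℝ ℝ) volume = fun x => ∫ y, g (x - y) * f y :=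
    funext fun x => s2_conv_eq f g x
  rwa [e] at h

open ContinuousLinearMap in
private theorem s2_pd_cpt {f g : EE d → ℝ} (hg : ContDiff ℝ 1 g)
    (hgc : HasCompactSupport g) (hf : Continuous f) (i : Fin d) (x : EE d) :
    pd i (fun x => ∫ y, g (x - y) * f y) x = ∫ y, pd i g (x - y) * f y := by
  have h := HasCompactSupport.hasFDerivAt_convolution_right (mul ℝ ℝ) hgc
    (μ := (volume : Measure (EE d))) hf.locallyIntegrable hg x
  have e : convolution f g (mul ℝ ℝ) volume = fun x => ∫ y, g (x - y) * f y :=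
    funext fun x => s2_conv_eq f g x
  rw [e] at h
  have h1 : pd i (fun x => ∫ y, g (x - y) * f y) x =
      fderiv ℝ (fun x => ∫ y, g (x - y) * f y) x (EuclideanSpace.single i (1 : ℝ)) := rfl
  rw [h1, h.fderiv, convolution_precompR_apply _ hf.locallyIntegrable (hgc.fderiv ℝ)
    (hg.continuous_fderiv one_ne_zero), s2_conv_eq]
  rfl

/-- localisation of the kernel -/
private theorem s2_local {k f : EE d → ℝ} {n : ℕ∞} (hk : ContDiff ℝ n k)
    (hc : HasCompactSupport f) (x₀ : EE d) :
    ∃ g : EE d → ℝ, ContDiff ℝ n g ∧ HasCompactSupport g ∧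
      ∀ x ∈ ball x₀ 1, ∀ y, f y ≠ 0 → g =ᶠ[𝓝 (x - y)] k := by
  obtain ⟨R₀, hR₀⟩ := hc.isCompact.isBounded.subset_ball (0 : EE d)
  set R : ℝ := max R₀ 0 + ‖x₀‖ + 1 with hR
  have hRpos : 0 < R := by positivity
  let χ : ContDiffBump (0 : EE d) := ⟨R, R + 1, hRpos, by linarith⟩
  refine ⟨fun z => χ z * k z, χ.contDiff.mul hk, χ.hasCompactSupport.mul_right, ?_⟩
  intro x hx y hy
  have hy1 : ‖y‖ < R₀ := by
    have := hR₀ (subset_tsupport f hy)
    simpa using this
  have hx1 : ‖x‖ < ‖x₀‖ + 1 := by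
    have h1 : ‖x - x₀‖ < 1 := by simpa [dist_eq_norm] using hx
    have h2 : ‖x‖ ≤ ‖x₀‖ + ‖x - x₀‖ := by
      have := norm_add_le x₀ (x - x₀)
      simpa using this
    linarith
  have hxy : x - y ∈ ball (0 : EE d) χ.rIn := by
    have h3 : ‖x - y‖ ≤ ‖x‖ + ‖y‖ := norm_sub_le x y
    have h4 : R₀ ≤ max R₀ 0 := le_max_left _ _
    have h5 : χ.rIn = R := rfl
    rw [mem_ball_zero_iff, h5, hR]
    linarith
  filter_upwards [χ.eventuallyEq_one_of_mem_ball hxy] with z hz
  rw [hz]
  simp

private theorem s2_congr {k g f : EE d → ℝ} {x : EE d}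
    (h : ∀ y, f y ≠ 0 → g (x - y) = k (x - y)) :
    ∫ y, g (x - y) * f y = ∫ y, k (x - y) * f y := by
  refine integral_congr_ae (Eventually.of_forall fun y => ?_)
  by_cases hy : f y = 0
  · simp [hy]
  · simp only [h y hy]

private theorem s2_contDiff {k f : EE d → ℝ} {n : ℕ∞} (hk : ContDiff ℝ n k)
    (hf : Continuous f) (hc : HasCompactSupport f) :
    ContDiff ℝ n (fun x => ∫ y, k (x - y) * f y) := by
  rw [contDiff_iff_contDiffAt]
  intro x₀
  obtain ⟨g, hg, hgc, hgk⟩ := s2_local hk hc x₀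
  refine (s2_contDiff_cpt hg hgc hf).contDiffAt.congr_of_eventuallyEq ?_
  filter_upwards [ball_mem_nhds x₀ one_pos] with x hx
  exact (s2_congr fun y hy => (hgk x hx y hy).eq_of_nhds).symm

private theorem s2_pd {k f : EE d → ℝ} (hk : ContDiff ℝ 1 k)
    (hf : Continuous f) (hc : HasCompactSupport f) (i : Fin d) (x : EE d) :
    pd i (fun x => ∫ y, k (x - y) * f y) x = ∫ y, pd i k (x - y) * f y := by
  obtain ⟨g, hg, hgc, hgk⟩ := s2_local (n := 1) hk hc x
  have h1 : (fun x => ∫ y, k (x - y) * f y) =ᶠ[𝓝 x] fun x => ∫ y, g (x - y) * f y := by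
    filter_upwards [ball_mem_nhds x one_pos] with z hz
    exact (s2_congr fun y hy => (hgk z hz y hy).eq_of_nhds).symm
  rw [(pd_congr h1 i).eq_of_nhds, s2_pd_cpt hg hgc hf]
  exact s2_congr fun y hy => (pd_congr (hgk x (mem_ball_self one_pos) y hy) i).eq_of_nhds

private theorem s2_contDiff_pd {k : EE d → ℝ} (hk : ContDiff ℝ 2 k) (i : Fin d) :
    ContDiff ℝ 1 (pd i k) := by
  have h1 : ContDiff ℝ 1 (fderiv ℝ k) := hk.fderiv_right (by norm_num)
  exact h1.clm_apply contDiff_const

private theorem s2_pd_cont {k : EE d → ℝ} (hk : ContDiff ℝ 1 k) (i : Fin d) :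
    Continuous (pd i k) := by
  have h1 : Continuous (fderiv ℝ k) := hk.continuous_fderiv one_ne_zero
  exact h1.clm_apply continuous_const

private theorem s2_pd2 {k f : EE d → ℝ} (hk : ContDiff ℝ 2 k)
    (hf : Continuous f) (hc : HasCompactSupport f) (i : Fin d) (x : EE d) :
    pd i (pd i (fun x => ∫ y, k (x - y) * f y)) x = ∫ y, pd i (pd i k) (x - y) * f y := by
  have h1 : pd i (fun x => ∫ y, k (x - y) * f y) = fun x => ∫ y, pd i k (x - y) * f y :=
    funext fun z => s2_pd (hk.of_le (by norm_num)) hf hc i z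
  rw [h1, s2_pd (s2_contDiff_pd hk i) hf hc i x]

private theorem s2_int {g f : EE d → ℝ} (hg : Continuous g) (hf : Continuous f)
    (hc : HasCompactSupport f) (x : EE d) : Integrable fun y => g (x - y) * f y := by
  have h1 : Continuous fun y => g (x - y) * f y :=
    (hg.comp (continuous_const.sub continuous_id)).mul hf
  exact h1.integrable_of_hasCompactSupport hc.mul_left

/-- second derivatives fall on the kernel -/
theorem conv_lap {k ρ f : EE d → ℝ} (hk : ContDiff ℝ 2 k)
    (hρ : ∀ x, ∑ i, pd i (pd i k) x = ρ x) (hf : Continuous f) (hc : HasCompactSupport f) :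
    ContDiff ℝ 2 (fun x => ∫ y, k (x - y) * f y) ∧
      ∀ x, ∑ i, pd i (pd i (fun x => ∫ y, k (x - y) * f y)) x = ∫ y, ρ (x - y) * f y := by
  refine ⟨s2_contDiff (n := 2) hk hf hc, fun x => ?_⟩
  rw [Finset.sum_congr rfl fun i _ => s2_pd2 hk hf hc i x, ← integral_finsetSum _ fun i _ =>
    s2_int (s2_pd_cont (s2_contDiff_pd hk i) i) hf hc x]
  refine integral_congr_ae (Eventually.of_forall fun y => ?_)
  simp only
  rw [← Finset.sum_mul, hρ]

private theorem s2_swap (k v : EE d → ℝ) (x : EE d) :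
    ∫ y, k (x - y) * v y = ∫ y, v (x - y) * k y := by
  have h := integral_sub_left_eq_self (fun y => k (x - y) * v y) (volume : Measure (EE d)) x
  rw [← h]
  refine integral_congr_ae (Eventually.of_forall fun y => ?_)
  simp only [sub_sub_cancel]
  ring

/-- or on the function, by integration by parts -/
theorem conv_lap' {k ρ v : EE d → ℝ} (hk : ContDiff ℝ 2 k)
    (hρ : ∀ x, ∑ i, pd i (pd i k) x = ρ x) (hv : IsTest v) (x : EE d) :
    ∫ y, k (x - y) * ∑ i, pd i (pd i v) y = ∫ y, ρ (x - y) * v y := by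
  have hv2 : ContDiff ℝ 2 v := hv.1.of_le (WithTop.coe_le_coe.2 le_top)
  have hvc : Continuous v := hv.1.continuous
  rw [← (conv_lap hk hρ hvc hv.2).2 x]
  have hpc : ∀ i, HasCompactSupport (pd i v) := fun i => by
    have h1 := hv.2.fderiv ℝ
    exact h1.comp_left (g := fun L : EE d →L[ℝ] ℝ => L (EuclideanSpace.single i (1 : ℝ))) rfl
  have hppc : ∀ i, HasCompactSupport (pd i (pd i v)) := fun i => by
    have h1 := (hpc i).fderiv ℝ
    exact h1.comp_left (g := fun L : EE d →L[ℝ] ℝ => L (EuclideanSpace.single i (1 : ℝ))) rfl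
  have hkc : Continuous k := hk.continuous
  have key : ∀ i, pd i (pd i (fun x => ∫ y, k (x - y) * v y)) x =
      ∫ y, k (x - y) * pd i (pd i v) y := by
    intro i
    have e1 : (fun x => ∫ y, k (x - y) * v y) = fun x => ∫ y, v (x - y) * k y :=
      funext fun z => s2_swap k v z
    have e2 : pd i (fun x => ∫ y, v (x - y) * k y) = fun x => ∫ y, pd i v (x - y) * k y :=
      funext fun z => s2_pd_cpt (hv2.of_le (by norm_num)) hv.2 hkc i z
    rw [e1, e2, s2_pd_cpt (s2_contDiff_pd hv2 i) (hpc i) hkc i x]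
    exact (s2_swap k (pd i (pd i v)) x).symm
  rw [Finset.sum_congr rfl fun i _ => key i, ← integral_finsetSum _ fun i _ =>
    s2_int hkc (s2_pd_cont (s2_contDiff_pd hv2 i) i) (hppc i) x]
  refine integral_congr_ae (Eventually.of_forall fun y => ?_)
  simp only
  rw [Finset.mul_sum]

open Pool.Agent.Lib.MP_47b33c_an in
/-- harmonicity away from the source -/
theorem conv_hm (hd : 2 ≤ d) {k ρ f : EE d → ℝ} {ε : ℝ} (hk : ContDiff ℝ 2 k)
    (hρ : ∀ x, ∑ i, pd i (pd i k) x = ρ x) (hρ0 : ∀ x, ε ≤ ‖x‖ → ρ x = 0)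
    (hf : Continuous f) (hc : HasCompactSupport f) :
    Hm (cthickening ε (tsupport f))ᶜ (fun x => ∫ y, k (x - y) * f y) := by
  have hA : IsOpen (cthickening ε (tsupport f))ᶜ := isClosed_cthickening.isOpen_compl
  obtain ⟨h1, h2⟩ := conv_lap hk hρ hf hc
  have hz : ∀ x ∈ (cthickening ε (tsupport f))ᶜ,
      ∑ i, pd i (pd i (fun x => ∫ y, k (x - y) * f y)) x = 0 := by
    intro x hx
    rw [h2 x]
    have h3 : ∀ y, ρ (x - y) * f y = 0 := by
      intro y
      by_cases hy : f y = 0
      · simp [hy]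
      · have hy2 : y ∈ tsupport f := subset_tsupport f hy
        have h4 : ε ≤ ‖x - y‖ := by
          by_contra hlt
          rw [not_le] at hlt
          exact hx (mem_cthickening_of_dist_le x y ε _ hy2 (by rw [dist_eq_norm]; exact hlt.le))
        rw [hρ0 _ h4, zero_mul]
    simp [h3]
  refine hm_of_harmonic hd hA fun x hx => ⟨h1.contDiffAt, ?_⟩
  filter_upwards [hA.mem_nhds hx] with y hy
  rw [a3_laplacian_eq]
  have h5 : ∑ i, pd i (pd i (fun x => ∫ y, k (x - y) * f y)) y = 0 := hz y hy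
  refine Eq.trans (Finset.sum_congr rfl fun i _ => ?_) h5
  rw [a3_second _ h1.contDiffAt, EuclideanSpace.basisFun_apply]
  rfl

end Pool.Agent.MP_0643f8_an.U
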