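import Mathlib
import Pool.Agent.Lib.MP_0643f8_an.U.S1a_NN

/-!
# Convolution with the truncated fundamental solution

`F x = ∫ k (x - y) f y dy`, `f` continuous with compact support, `k` of class `C²`.
-/

set_option autoImplicit false

open MeasureTheory Metric Set Filter Topology
open scoped ContDiff

namespace Pool.Agent.MP_0643f8_an.U
variable {d : ℕ}

/-- behaviour at infinity -/
theorem conv_asym (hd : 2 ≤ d) {k f : EE d → ℝ} {ε a b : ℝ} (hε : 0 < ε)
    (hk : Continuous k) (hk1 : ∀ x, ε ≤ ‖x‖ → k x = a * NN d x + b)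
    (hf : Continuous f) (hc : HasCompactSupport f) :
    ∃ C R : ℝ, 0 < R ∧ ∀ x : EE d, R < ‖x‖ →
      |(∫ y, k (x - y) * f y) - (a * ∫ y, f y) * NN d x - b * ∫ y, f y| ≤
        C * (‖x‖ ^ (d - 1))⁻¹ := by
  obtain ⟨C₀, hC₀, hN⟩ := NN_diff (d := d) hd
  obtain ⟨M₀, hM₀⟩ := hc.isCompact.isBounded.exists_norm_le
  set M : ℝ := max M₀ 1 with hM
  have hM1 : 1 ≤ M := le_max_right _ _
  have hsupp : ∀ y : EE d, f y ≠ 0 → ‖y‖ ≤ M := fun y hy =>
    (hM₀ y (subset_tsupport f (Function.mem_support.2 hy))).trans (le_max_left _ _)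
  have hfi : Integrable f := hf.integrable_of_hasCompactSupport hc
  refine ⟨|a| * (C₀ * M) * ∫ y, |f y|, 2 * M + ε, by positivity, fun x hx => ?_⟩
  have hx0 : x ≠ 0 := by
    rintro rfl
    rw [norm_zero] at hx
    nlinarith
  have h1 : Integrable (fun y => k (x - y) * f y) := by
    refine Continuous.integrable_of_hasCompactSupport (by fun_prop) ?_
    exact hc.mul_left
  have hint : (∫ y, k (x - y) * f y) - (a * ∫ y, f y) * NN d x - b * ∫ y, f y =
      ∫ y, (k (x - y) * f y - (a * NN d x + b) * f y) := by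
    rw [integral_sub h1 (hfi.const_mul _), integral_const_mul]
    ring
  rw [hint]
  have hbound : ∀ y, ‖k (x - y) * f y - (a * NN d x + b) * f y‖ ≤
      (|a| * (C₀ * M) * (‖x‖ ^ (d - 1))⁻¹) * |f y| := by
    intro y
    by_cases hy : f y = 0
    · simp [hy]
    · have hyM := hsupp y hy
      have h2 : ε ≤ ‖x - y‖ := by
        have := norm_sub_norm_le x y
        linarith
      rw [hk1 _ h2, ← sub_mul, norm_mul, Real.norm_eq_abs, Real.norm_eq_abs]
      refine mul_le_mul_of_nonneg_right ?_ (abs_nonneg _)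
      have h3 : a * NN d (x - y) + b - (a * NN d x + b) = a * (NN d (x - y) - NN d x) := by ring
      rw [h3, abs_mul, mul_assoc]
      refine mul_le_mul_of_nonneg_left ?_ (abs_nonneg _)
      refine (hN x y hx0 (by linarith)).trans ?_
      refine mul_le_mul_of_nonneg_right ?_ (by positivity)
      exact mul_le_mul_of_nonneg_left hyM hC₀.le
  have h4 := norm_integral_le_of_norm_le (hfi.abs.const_mul _) (Eventually.of_forall hbound)
  rw [Real.norm_eq_abs, integral_const_mul] at h4
  refine h4.trans (le_of_eq ?_)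
  ring

end Pool.Agent.MP_0643f8_an.U
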