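import Mathlib
import Pool.Agent.Lib.MP_0643f8_an.U.S2_Conv
import Pool.Agent.Lib.MP_0643f8_an.U.S2b_Asym
import Pool.Agent.Lib.MP_0643f8_an.U.H05_Ident2

/-!
# Splitting a harmonic function into an interior and an exterior part

Put `L' = L ∪ Cc`. Choose `ε > 0` and smooth cut-offs `χ₁, χ₂` with values in `[0,1]` and compact
support in `Ω`, `χ₁ = 1` near `cthickening ε L'`, `χ₂ = 1` near `cthickening (2 * ε) (tsupport χ₁)` (and
`cthickening ε (tsupport χ₂) ⊆ Ω`). With the truncated kernel `k` for this `ε` (`exists_kernel`) put,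
for `h` harmonic on `Ω \ L`, `f_j = Δ((1-χ_j) h)` on `Ω`, `0` elsewhere (smooth with compact support
in `tsupport χ_j` minus the interior of `{χ_j = 1}`), and `F_j x = ∫ k (x - y) f_j y dy`. Then
* `Ω' = {x | closedBall x ε ⊆ interior {χ₂ = 1}}` (open, contains `L'`; or any open set between),
  `hi = - F₂` on `Ω'`;
* `he = F₁` on `(cthickening ε (tsupport χ₁))ᶜ`, `he = h + F₂` on `Ω' \ L`.
These two open sets cover the complement of `L`; on the overlap
`F₁ - F₂ = ∫ k(x-y) Δ((χ₂-χ₁) h) = ∫ ρ(x-y) ((χ₂-χ₁) h)(y) dy = h x` by `conv_lap'` and the mean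
value property (`χ₂ = 1`, `χ₁ = 0` on the closed ball of radius `ε`, or use that it is `h` there).
The asymptotics is `conv_asym`; the constant `b ∫ f` is moved from `he` to `hi`.
-/

set_option autoImplicit false

open MeasureTheory Metric Set Filter Topology
open scoped ContDiff

namespace Pool.Agent.MP_0643f8_an.U
variable {d : ℕ}

private theorem s3_cut {K U : Set (EE d)} (hK : IsCompact K) (hU : IsOpen U) (hKU : K ⊆ U) :
    ∃ χ : EE d → ℝ, ∃ W : Set (EE d), IsTest χ ∧ IsOpen W ∧ K ⊆ W ∧ (∀ x ∈ W, χ x = 1) ∧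
      tsupport χ ⊆ U := by
  obtain ⟨K', hK', hKK', hK'U⟩ := exists_compact_between hK hU hKU
  obtain ⟨f, h1, h0, -⟩ := exists_contMDiffMap_one_nhds_of_subset_interior
    (modelWithCornersSelf ℝ (EE d)) (n := ⊤) hK.isClosed hKK'
  rw [eventually_nhdsSet_iff_exists] at h1
  obtain ⟨W, hWo, hKW, hW⟩ := h1
  have hs : tsupport (f : EE d → ℝ) ⊆ K' := by
    refine closure_minimal (fun x hx => ?_) hK'.isClosed
    by_contra hxK
    exact hx (h0 x hxK)
  refine ⟨f, W, ⟨f.contMDiff.contDiff, HasCompactSupport.of_support_subset_isCompact hK'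
    ((subset_tsupport _).trans hs)⟩, hWo, hKW, hW, hs.trans hK'U⟩

private noncomputable def s3D (χ h : EE d → ℝ) (x : EE d) : ℝ :=
  -((∑ i, pd i (pd i χ) x) * h x) - 2 * ∑ i, pd i χ x * pd i h x

private theorem s3_pd_ev {χ : EE d → ℝ} {c : ℝ} {x : EE d} (h : χ =ᶠ[𝓝 x] fun _ => c) (i : Fin d) :
    pd i χ =ᶠ[𝓝 x] fun _ => 0 := by
  refine (pd_congr h i).trans ?_
  filter_upwards with y
  exact pd_const c i y

private theorem s3D_zero {χ h : EE d → ℝ} {c : ℝ} {x : EE d} (hc : χ =ᶠ[𝓝 x] fun _ => c) :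
    s3D χ h x = 0 := by
  have h1 : ∀ i : Fin d, pd i χ x = 0 := fun i => (s3_pd_ev hc i).self_of_nhds
  have h2 : ∀ i : Fin d, pd i (pd i χ) x = 0 := fun i =>
    (s3_pd_ev (s3_pd_ev hc i) i).self_of_nhds
  simp only [s3D, h1, h2, Finset.sum_const_zero, zero_mul, neg_zero, mul_zero, sub_zero]

private theorem s3D_ev {χ h : EE d → ℝ} {c : ℝ} {x : EE d} (hc : χ =ᶠ[𝓝 x] fun _ => c) :
    s3D χ h =ᶠ[𝓝 x] fun _ => 0 := by
  filter_upwards [hc.eventuallyEq_nhds] with y hy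
  exact s3D_zero hy

private theorem s3_off {χ : EE d → ℝ} {x : EE d} (hx : x ∉ tsupport χ) :
    χ =ᶠ[𝓝 x] fun _ => 0 := notMem_tsupport_iff_eventuallyEq.1 hx

private theorem s3D_cont {Ω L W : Set (EE d)} (hΩ : IsOpen Ω) (hL : IsClosed L)
    {χ h : EE d → ℝ} (hχ : IsTest χ) (hW : IsOpen W) (hLW : L ⊆ W) (hW1 : ∀ x ∈ W, χ x = 1)
    (hs : tsupport χ ⊆ Ω) (hh : Hm (Ω \ L) h) : Continuous (s3D χ h) := by
  rw [continuous_iff_continuousAt]
  intro x
  by_cases hxW : x ∈ W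
  · have : χ =ᶠ[𝓝 x] fun _ => 1 := by
      filter_upwards [hW.mem_nhds hxW] with y hy using hW1 y hy
    exact continuousAt_const.congr (s3D_ev this).symm
  by_cases hxs : x ∈ tsupport χ
  · have hxA : x ∈ Ω \ L := ⟨hs hxs, fun h => hxW (hLW h)⟩
    have hA : IsOpen (Ω \ L) := hΩ.sdiff hL
    have c1 : ∀ i : Fin d, ContinuousAt (pd i χ) x := fun i =>
      ((pd_contDiffOn isOpen_univ hχ.1.contDiffOn i).contDiffAt
        (isOpen_univ.mem_nhds (mem_univ x))).continuousAt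
    have c2 : ∀ i : Fin d, ContinuousAt (pd i (pd i χ)) x := fun i =>
      ((pd_contDiffOn isOpen_univ (pd_contDiffOn isOpen_univ hχ.1.contDiffOn i) i).contDiffAt
        (isOpen_univ.mem_nhds (mem_univ x))).continuousAt
    have c3 : ContinuousAt h x := (hh.1.contDiffAt (hA.mem_nhds hxA)).continuousAt
    have c4 : ∀ i : Fin d, ContinuousAt (pd i h) x := fun i =>
      ((pd_contDiffOn hA hh.1 i).contDiffAt (hA.mem_nhds hxA)).continuousAt
    have c5 : ContinuousAt (fun y => ∑ i, pd i (pd i χ) y) x :=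
      tendsto_finsetSum _ fun i _ => c2 i
    have c6 : ContinuousAt (fun y => ∑ i, pd i χ y * pd i h y) x :=
      tendsto_finsetSum _ fun i _ => (c1 i).mul (c4 i)
    exact ((c5.mul c3).neg).sub (continuousAt_const.mul c6)
  · exact continuousAt_const.congr (s3D_ev (s3_off hxs)).symm

private theorem s3D_tsupp {χ h : EE d → ℝ} : tsupport (s3D χ h) ⊆ tsupport χ := by
  refine closure_minimal (fun x hx => ?_) (isClosed_tsupport χ)
  by_contra hxs
  exact hx (s3D_zero (s3_off hxs))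

private theorem s3D_tsuppW {χ h : EE d → ℝ} {W : Set (EE d)} (hW : IsOpen W)
    (hW1 : ∀ x ∈ W, χ x = 1) : tsupport (s3D χ h) ⊆ Wᶜ := by
  refine closure_minimal (fun x hx => ?_) hW.isClosed_compl
  intro hxW
  have : χ =ᶠ[𝓝 x] fun _ => 1 := by
    filter_upwards [hW.mem_nhds hxW] with y hy using hW1 y hy
  exact hx (s3D_zero this)

private theorem s3_lap {Ω L W₁ W₂ : Set (EE d)} (hΩ : IsOpen Ω) (hL : IsClosed L)
    {χ₁ χ₂ h : EE d → ℝ} (h1 : IsTest χ₁) (h2 : IsTest χ₂) (hW₁ : IsOpen W₁) (hW₂ : IsOpen W₂)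
    (hLW₁ : L ⊆ W₁) (hLW₂ : L ⊆ W₂) (hW11 : ∀ x ∈ W₁, χ₁ x = 1) (hW21 : ∀ x ∈ W₂, χ₂ x = 1)
    (hs₁ : tsupport χ₁ ⊆ Ω) (hs₂ : tsupport χ₂ ⊆ Ω) (hh : Hm (Ω \ L) h) :
    IsTest (fun y => (χ₂ y - χ₁ y) * h y) ∧
      ∀ x, ∑ i, pd i (pd i (fun y => (χ₂ y - χ₁ y) * h y)) x = s3D χ₁ h x - s3D χ₂ h x := by
  have hA : IsOpen (Ω \ L) := hΩ.sdiff hL
  have hcase : ∀ x : EE d, x ∈ Ω \ L ∨ ((∃ c : ℝ, (χ₁ =ᶠ[𝓝 x] fun _ => c) ∧
      (χ₂ =ᶠ[𝓝 x] fun _ => c))) := by
    intro x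
    by_cases hxL : x ∈ L
    · right
      refine ⟨1, ?_, ?_⟩
      · filter_upwards [hW₁.mem_nhds (hLW₁ hxL)] with y hy using hW11 y hy
      · filter_upwards [hW₂.mem_nhds (hLW₂ hxL)] with y hy using hW21 y hy
    · by_cases hxΩ : x ∈ Ω
      · exact Or.inl ⟨hxΩ, hxL⟩
      · exact Or.inr ⟨0, s3_off fun h => hxΩ (hs₁ h), s3_off fun h => hxΩ (hs₂ h)⟩
  have hzero : ∀ x : EE d, (∃ c : ℝ, (χ₁ =ᶠ[𝓝 x] fun _ => c) ∧ (χ₂ =ᶠ[𝓝 x] fun _ => c)) →
      (fun y => (χ₂ y - χ₁ y) * h y) =ᶠ[𝓝 x] fun _ => 0 := by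
    rintro x ⟨c, e1, e2⟩
    filter_upwards [e1, e2] with y hy1 hy2
    rw [hy1, hy2, sub_self, zero_mul]
  refine ⟨⟨?_, ?_⟩, fun x => ?_⟩
  · rw [contDiff_iff_contDiffAt]
    intro x
    rcases hcase x with hx | hx
    · exact (h2.1.contDiffAt.sub h1.1.contDiffAt).mul (hh.1.contDiffAt (hA.mem_nhds hx))
    · exact contDiffAt_const.congr_of_eventuallyEq (hzero x hx)
  · exact HasCompactSupport.mul_right (h2.2.sub h1.2)
  · rcases hcase x with hx | hx
    · have d1 : ContDiffAt ℝ 2 χ₁ x := h1.1.contDiffAt.of_le (by norm_cast)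
      have d2 : ContDiffAt ℝ 2 χ₂ x := h2.1.contDiffAt.of_le (by norm_cast)
      have dh : ContDiffAt ℝ 2 h x := (hh.1.contDiffAt (hA.mem_nhds hx)).of_le (by norm_cast)
      have e1 : ∀ i : Fin d, ∀ y, pd i (fun z => χ₂ z - χ₁ z) y = pd i χ₂ y - pd i χ₁ y :=
        fun i y => pd_sub (h2.1.differentiable (by simp) y) (h1.1.differentiable (by simp) y) i
      have e2 : ∀ i : Fin d, pd i (pd i (fun z => χ₂ z - χ₁ z)) x =
          pd i (pd i χ₂) x - pd i (pd i χ₁) x := by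
        intro i
        have : pd i (fun z => χ₂ z - χ₁ z) = fun y => pd i χ₂ y - pd i χ₁ y := funext (e1 i)
        rw [this]
        have a1 : ∀ χ : EE d → ℝ, IsTest χ → DifferentiableAt ℝ (pd i χ) x := fun χ hχ =>
          ((pd_contDiffOn isOpen_univ hχ.1.contDiffOn i).contDiffAt
            (isOpen_univ.mem_nhds (mem_univ x))).differentiableAt (by simp)
        exact pd_sub (a1 _ h2) (a1 _ h1) i
      rw [lap_mul (d2.sub d1) dh, hh.2 x hx, mul_zero, zero_add]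
      simp only [e1, e2, s3D, Finset.sum_sub_distrib, sub_mul]
      ring
    · have hz := hzero x hx
      have h3 : ∀ i : Fin d, pd i (pd i (fun y => (χ₂ y - χ₁ y) * h y)) x = 0 := fun i =>
        (s3_pd_ev (s3_pd_ev hz i) i).self_of_nhds
      obtain ⟨c, e1, e2⟩ := hx
      rw [s3D_zero e1, s3D_zero e2, Finset.sum_eq_zero fun i _ => h3 i, sub_zero]

theorem split (hd : 2 ≤ d) {Ω L Cc : Set (EE d)} (hΩ : IsOpen Ω) (hL : IsCompact L)
    (hLΩ : L ⊆ Ω) (hC : IsCompact Cc) (hCΩ : Cc ⊆ Ω) :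
    ∃ Ω' : Set (EE d), IsOpen Ω' ∧ L ∪ Cc ⊆ Ω' ∧ Ω' ⊆ Ω ∧
      ∀ h : EE d → ℝ, Hm (Ω \ L) h → ∃ (hi he : EE d → ℝ) (m C R : ℝ),
        Hm Ω' hi ∧ Hm Lᶜ he ∧ (∀ x ∈ Ω' \ L, h x = hi x + he x) ∧ 0 < R ∧
        ∀ x : EE d, R < ‖x‖ → |he x - m * NN d x| ≤ C * (‖x‖ ^ (d - 1))⁻¹ := by
  have hL' : IsCompact (L ∪ Cc) := hL.union hC
  obtain ⟨δ, hδ, hδΩ⟩ := hL'.exists_cthickening_subset_open hΩ (union_subset hLΩ hCΩ)
  set ε : ℝ := δ / 4 with hε4
  have hε : 0 < ε := by positivity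
  obtain ⟨χ₁, W₁, ht₁, hWo₁, hLW₁, hW11, hs₁⟩ := s3_cut hL' (isOpen_thickening (δ := 2 * ε))
    (self_subset_thickening (by positivity) (L ∪ Cc))
  have hs₁c : tsupport χ₁ ⊆ cthickening (2 * ε) (L ∪ Cc) :=
    hs₁.trans (thickening_subset_cthickening _ _)
  have hK2 : IsCompact (cthickening (2 * ε) (tsupport χ₁)) := ht₁.2.isCompact.cthickening
  have hK2Ω : cthickening (2 * ε) (tsupport χ₁) ⊆ Ω := by
    refine (cthickening_subset_of_subset _ hs₁c).trans ?_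
    refine (cthickening_cthickening_subset (by positivity) (by positivity) _).trans ?_
    have : 2 * ε + 2 * ε = δ := by rw [hε4]; ring
    rw [this]
    exact hδΩ
  have hs₁Ω : tsupport χ₁ ⊆ Ω := (self_subset_cthickening _).trans hK2Ω
  obtain ⟨χ₂, W₂, ht₂, hWo₂, hKW₂, hW21, hs₂⟩ := s3_cut hK2 hΩ hK2Ω
  have hL1 : L ∪ Cc ⊆ tsupport χ₁ := fun x hx =>
    subset_tsupport _ (by rw [Function.mem_support, hW11 x (hLW₁ hx)]; exact one_ne_zero)
  have hs12 : tsupport χ₁ ⊆ W₂ := (self_subset_cthickening _).trans hKW₂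
  have hW₂s : W₂ ⊆ tsupport χ₂ := fun x hx =>
    subset_tsupport _ (by rw [Function.mem_support, hW21 x hx]; exact one_ne_zero)
  set Ω' : Set (EE d) := (cthickening ε W₂ᶜ)ᶜ with hΩ'
  have hΩ'o : IsOpen Ω' := isClosed_cthickening.isOpen_compl
  have hball : ∀ x ∈ Ω', closedBall x ε ⊆ W₂ := by
    intro x hx y hy
    by_contra hyW
    exact hx (mem_cthickening_of_dist_le x y ε _ hyW (by rw [dist_comm]; exact hy))
  have hΩ'W : Ω' ⊆ W₂ := fun x hx => hball x hx (mem_closedBall_self hε.le)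
  have hΩ'Ω : Ω' ⊆ Ω := (hΩ'W.trans hW₂s).trans hs₂
  have hcov : cthickening ε (tsupport χ₁) ⊆ Ω' := by
    intro x hx hx2
    rw [(isClosed_tsupport χ₁).cthickening_eq_biUnion_closedBall hε.le] at hx
    rw [hWo₂.isClosed_compl.cthickening_eq_biUnion_closedBall hε.le] at hx2
    simp only [mem_iUnion, exists_prop] at hx hx2
    obtain ⟨z, hz, hxz⟩ := hx
    obtain ⟨w, hw, hxw⟩ := hx2
    refine hw (hKW₂ (mem_cthickening_of_dist_le w z (2 * ε) _ hz ?_))
    have h1 := dist_triangle w x z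
    rw [mem_closedBall] at hxz hxw
    rw [dist_comm w x] at h1
    linarith
  obtain ⟨k, ρ, a, b, hk, hρc, hkρ, hρ0, hk1, hmv⟩ := exists_kernel hd hε
  refine ⟨Ω', hΩ'o, fun x hx => hcov (self_subset_cthickening _ (hL1 hx)), hΩ'Ω, ?_⟩
  intro h hh
  have hLc : IsClosed L := hL.isClosed
  have hA : IsOpen (Ω \ L) := hΩ.sdiff hLc
  have hLW₁' : L ⊆ W₁ := subset_union_left.trans hLW₁
  have hLW₂' : L ⊆ W₂ := (subset_union_left.trans hL1).trans hs12
  set f₁ : EE d → ℝ := s3D χ₁ h with hf₁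
  set f₂ : EE d → ℝ := s3D χ₂ h with hf₂
  have hc₁ : Continuous f₁ := s3D_cont hΩ hLc ht₁ hWo₁ hLW₁' hW11 hs₁Ω hh
  have hc₂ : Continuous f₂ := s3D_cont hΩ hLc ht₂ hWo₂ hLW₂' hW21 hs₂ hh
  have hk₁ : HasCompactSupport f₁ := ht₁.2.mono' ((subset_tsupport _).trans s3D_tsupp)
  have hk₂ : HasCompactSupport f₂ := ht₂.2.mono' ((subset_tsupport _).trans s3D_tsupp)
  obtain ⟨hvt, hvl⟩ := s3_lap hΩ hLc ht₁ ht₂ hWo₁ hWo₂ hLW₁' hLW₂' hW11 hW21 hs₁Ω hs₂ hh
  set F₁ : EE d → ℝ := fun x => ∫ y, k (x - y) * f₁ y with hF₁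
  set F₂ : EE d → ℝ := fun x => ∫ y, k (x - y) * f₂ y with hF₂
  have hH₁ : Hm (cthickening ε (tsupport f₁))ᶜ F₁ := conv_hm hd hk hkρ hρ0 hc₁ hk₁
  have hH₂ : Hm (cthickening ε (tsupport f₂))ᶜ F₂ := conv_hm hd hk hkρ hρ0 hc₂ hk₂
  have hH₂' : Hm Ω' F₂ := hm_mono hH₂ (compl_subset_compl.2
    (cthickening_subset_of_subset _ (s3D_tsuppW hWo₂ hW21)))
  have hH₁' : Hm (cthickening ε (tsupport χ₁))ᶜ F₁ := hm_mono hH₁ (compl_subset_compl.2
    (cthickening_subset_of_subset _ s3D_tsupp))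
  have hint : ∀ (f : EE d → ℝ), Continuous f → HasCompactSupport f → ∀ x : EE d,
      Integrable (fun y => k (x - y) * f y) := by
    intro f hf hfc x
    have hkc : Continuous fun y => k (x - y) := hk.continuous.comp (continuous_const.sub continuous_id)
    exact (hkc.mul hf).integrable_of_hasCompactSupport hfc.mul_left
  have hover : ∀ x ∈ Ω', x ∉ cthickening ε (tsupport χ₁) → h x = F₁ x - F₂ x := by
    intro x hx hx1
    have e1 : F₁ x - F₂ x = ∫ y, ρ (x - y) * ((χ₂ y - χ₁ y) * h y) := by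
      rw [← conv_lap' hk hkρ hvt x, hF₁, hF₂]
      simp only
      rw [← integral_sub (hint _ hc₁ hk₁ x) (hint _ hc₂ hk₂ x)]
      refine integral_congr_ae (Eventually.of_forall fun y => ?_)
      simp only
      rw [hvl y, mul_sub]
    have hb1 : ∀ y ∈ closedBall x ε, y ∉ tsupport χ₁ := by
      intro y hy hyt
      exact hx1 (mem_cthickening_of_dist_le x y ε _ hyt (by rw [dist_comm]; exact hy))
    have e2 : ∫ y, ρ (x - y) * ((χ₂ y - χ₁ y) * h y) = ∫ y, ρ (x - y) * h y := by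
      refine integral_congr_ae (Eventually.of_forall fun y => ?_)
      simp only
      by_cases hy : y ∈ closedBall x ε
      · rw [hW21 y (hball x hx hy), image_eq_zero_of_notMem_tsupport (hb1 y hy), sub_zero, one_mul]
      · have : ε ≤ ‖x - y‖ := by
          rw [mem_closedBall, not_le, dist_comm, dist_eq_norm] at hy
          exact hy.le
        rw [hρ0 _ this, zero_mul, zero_mul]
    rw [e1, e2]
    refine (hmv (Ω \ L) h x hA hh fun y hy => ⟨?_, fun hyL => ?_⟩).symm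
    · exact hs₂ (hW₂s (hball x hx hy))
    · exact hb1 y hy (hL1 (Or.inl hyL))
  set c : ℝ := b * ∫ y, f₁ y with hc
  classical
  set he : EE d → ℝ := fun x => if x ∈ cthickening ε (tsupport χ₁) then h x + F₂ x - c
    else F₁ x - c with hhe
  have hheΩ : ∀ x ∈ Ω', he x = h x + F₂ x - c := by
    intro x hx
    simp only [hhe]
    split_ifs with h1
    · rfl
    · rw [hover x hx h1]; ring
  have hheo : ∀ x ∉ cthickening ε (tsupport χ₁), he x = F₁ x - c := by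
    intro x hx
    simp only [hhe, if_neg hx]
  obtain ⟨C, R, hR, hCR⟩ := conv_asym hd hε hk.continuous hk1 hc₁ hk₁
  obtain ⟨R', hR'⟩ := (ht₁.2.isCompact.cthickening (r := ε)).isBounded.subset_closedBall
    (0 : EE d)
  refine ⟨fun x => c - F₂ x, he, a * ∫ y, f₁ y, C, max R R', ?_, ?_, ?_, ?_, ?_⟩
  · exact hm_sub hΩ'o (hm_const _ c) hH₂'
  · refine hm_of_local fun x hx => ?_
    by_cases hx1 : x ∈ cthickening ε (tsupport χ₁)
    · refine ⟨Ω' \ L, hΩ'o.sdiff hLc, ⟨hcov hx1, hx⟩, ?_⟩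
      have hoo : IsOpen (Ω' \ L) := hΩ'o.sdiff hLc
      refine hm_congr (hm_sub hoo (hm_add hoo (hm_mono hh (sdiff_subset_sdiff_left hΩ'Ω))
        (hm_mono hH₂' sdiff_subset)) (hm_const _ c)) hoo fun y hy => hheΩ y hy.1
    · refine ⟨(cthickening ε (tsupport χ₁))ᶜ, isClosed_cthickening.isOpen_compl, hx1, ?_⟩
      have hoo : IsOpen (cthickening ε (tsupport χ₁))ᶜ := isClosed_cthickening.isOpen_compl
      exact hm_congr (hm_sub hoo hH₁' (hm_const _ c)) hoo fun y hy => hheo y hy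
  · intro x hx
    rw [hheΩ x hx.1]
    ring
  · exact lt_max_of_lt_left hR
  · intro x hx
    have hx1 : x ∉ cthickening ε (tsupport χ₁) := by
      intro hxc
      have := hR' hxc
      rw [mem_closedBall, dist_zero_right] at this
      exact absurd (lt_of_le_of_lt (le_max_right R R') hx) (not_lt.2 this)
    rw [hheo x hx1]
    have h1 := hCR x (lt_of_le_of_lt (le_max_left R R') hx)
    have h2 : F₁ x - c - (a * ∫ y, f₁ y) * NN d x =
        (∫ y, k (x - y) * f₁ y) - (a * ∫ y, f₁ y) * NN d x - b * ∫ y, f₁ y := by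
      rw [hF₁, hc]; ring
    rw [h2]
    exact h1

end Pool.Agent.MP_0643f8_an.U
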