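import Mathlib
import Pool.Agent.Lib.MP_0643f8_an.U.H03_Grad

/-!
# Splitting a harmonic function into an interior and an exterior part

Put `L' = L ∪ Cc`. Choose `ε > 0` and smooth cut-offs `χ₁, χ₂` with values in `[0,1]` and compact
support in `Ω`, `χ₁ = 1` near `cthickening ε L'`, `χ₂ = 1` near `cthickening (2 * ε) (tsupport χ₁)` (and
`cthickening ε (tsupport χ₂) ⊆ Ω`). With the truncated kernel `k` for this `ε` (`exists_kernel`) put,
for `h` harmonic on `Ω \ L`, `f_j = Δ((1-χ_j) h)` on `Ω`, `0` elsewhere (smooth with compact support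
in `tsupport χ_j` minus the interior of `{χ_j = 1}`), and `F_j x = ∫ k (x - y) f_j y dy`. Then
* `Ω' = {x | closedBall x ε ⊆ interior {χ₂ = 1}}` (open, contains `L'`; or any open set between),
  `hi = - F₂` on `Ω'`;
* `he = F₁` on `(cthickening ε (tsupport χ₁))ᶜ`, `he = h + F₂` on `Ω' \ L`.
These two open sets cover the complement of `L`; on the overlap
`F₁ - F₂ = ∫ k(x-y) Δ((χ₂-χ₁) h) = ∫ ρ(x-y) ((χ₂-χ₁) h)(y) dy = h x` by `conv_lap'` and the mean
value property (`χ₂ = 1`, `χ₁ = 0` on the closed ball of radius `ε`, or use that it is `h` there).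
The asymptotics is `conv_asym`; the constant `b ∫ f` is moved from `he` to `hi`.
-/

set_option autoImplicit false

open MeasureTheory Metric Set Filter Topology
open scoped ContDiff

namespace Pool.Agent.MP_0643f8_an.U
variable {d : ℕ}

/-- gradients of functions that are small at infinity -/
theorem asym_grad (hd : 2 ≤ d) {f : EE d → ℝ} {C R : ℝ} {n : ℕ} (hR : 0 < R)
    (hf : Hm {x : EE d | R < ‖x‖} f) (h : ∀ x : EE d, R < ‖x‖ → |f x| ≤ C * (‖x‖ ^ n)⁻¹) :
    ∃ C' : ℝ, ∀ x : EE d, 2 * R < ‖x‖ → ∀ i, |pd i f x| ≤ C' * (‖x‖ ^ (n + 1))⁻¹ := by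
  obtain ⟨C₀, hC₀, hC⟩ := grad_est hd
  have hopen : IsOpen {x : EE d | R < ‖x‖} := isOpen_lt continuous_const continuous_norm
  refine ⟨C₀ * |C| * 2 ^ (n + 1), fun x hx i => ?_⟩
  have hx0 : 0 < ‖x‖ := by linarith
  have hr : 0 < ‖x‖ / 2 := by linarith
  have hlow : ∀ y ∈ closedBall x (‖x‖ / 2), ‖x‖ / 2 ≤ ‖y‖ := by
    intro y hy
    rw [mem_closedBall, dist_eq_norm] at hy
    have h1 : ‖x‖ ≤ ‖y‖ + ‖y - x‖ := by
      have h2 : x = y - (y - x) := by abel
      calc ‖x‖ = ‖y - (y - x)‖ := by rw [← h2]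
        _ ≤ ‖y‖ + ‖y - x‖ := norm_sub_le _ _
    linarith
  have hsub : closedBall x (‖x‖ / 2) ⊆ {x : EE d | R < ‖x‖} := by
    intro y hy
    have h1 := hlow y hy
    show R < ‖y‖
    linarith
  have hM : ∀ y ∈ closedBall x (‖x‖ / 2), |f y| ≤ |C| * ((‖x‖ / 2) ^ n)⁻¹ := by
    intro y hy
    have h1 := hlow y hy
    refine (h y (hsub hy)).trans ?_
    have h2 : ((‖y‖ : ℝ) ^ n)⁻¹ ≤ ((‖x‖ / 2) ^ n)⁻¹ :=
      inv_anti₀ (pow_pos hr n) (pow_le_pow_left₀ hr.le h1 n)
    exact mul_le_mul (le_abs_self C) h2 (by positivity) (abs_nonneg C)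
  have h1 := hC _ f x (‖x‖ / 2) _ hopen hf hr hsub hM
  have h2 : |pd i f x| ≤ ‖fderiv ℝ f x‖ := by
    have h3 := (fderiv ℝ f x).le_opNorm (EuclideanSpace.single i (1 : ℝ))
    rw [EuclideanSpace.norm_single, norm_one, mul_one] at h3
    exact h3
  refine h2.trans (h1.trans (le_of_eq ?_))
  rw [div_pow]
  field_simp
  ring


end Pool.Agent.MP_0643f8_an.U
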