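import Mathlib
import Pool.Agent.Lib.MP_0643f8_an.U.S3_Split
import Pool.Agent.Lib.MP_0643f8_an.U.S3a_Grad
import Pool.Agent.Lib.MP_0643f8_an.U.W10_Liou
import Pool.Agent.Lib.MP_0643f8_an.U.L6_Liou

/-!
# Splitting a Lame field

`u = Φ - κ x θ` on `Ω \ L`, `θ = dv u`. Split `θ = θ_i + θ_e`, `Φ_k = Φ_{i,k} + Φ_{e,k}` with the
same `Ω'` (`split`) and put `H = Φ_i - κ x θ_i`, `w = Φ_e - κ x θ_e`. On `Ω' \ L`,
`dv H - θ_i = - (dv w - θ_e)`, so these two harmonic functions are restrictions of one entire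
harmonic function
`D = (1 + κ d) θ_e + κ E θ_e - dv Φ_e`. With `θ_e = m NN + O(|x|^{1-d})` and the same for the
derivatives (`asym_grad`): for `d ≥ 3`, `D → 0`, so `D = 0` by Liouville, and then
`D = (1 + 2κ) m |x|^{2-d} + O(|x|^{1-d})` gives `m = 0`; for `d = 2`,
`D = (1 + 2κ) m log |x| + O(1)` has logarithmic growth, so it is constant, `m = 0`, and `D → 0`.
So `D = 0`, `H` and `w` are Lame fields, `θ_e = O(|x|^{1-d})` and `Grw w`.
-/

set_option autoImplicit false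

open MeasureTheory Metric Set Filter Topology
open scoped ContDiff

namespace Pool.Agent.MP_0643f8_an.U

variable {d : ℕ}

/-- the divergence of `Φ - κ x θ` -/
private theorem s4_dv {κ : ℝ} {θ : EE d → ℝ} {Φ : Fin d → EE d → ℝ} {x : EE d}
    (hθ : DifferentiableAt ℝ θ x) (hΦ : ∀ k, DifferentiableAt ℝ (Φ k) x) :
    dv (fun k y => Φ k y - κ * (y k * θ y)) x =
      dv Φ x - κ * (d * θ x + eul θ x) := by
  have h1 : ∀ k : Fin d, pd k (fun y => Φ k y - κ * (y k * θ y)) x =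
      pd k (Φ k) x - κ * (θ x + x k * pd k θ x) := by
    intro k
    have hc : DifferentiableAt ℝ (fun y : EE d => y k) x := by fun_prop
    have hm : DifferentiableAt ℝ (fun y : EE d => y k * θ y) x := hc.fun_mul hθ
    rw [pd_sub (hΦ k) (hm.const_mul κ), pd_cmul hm, pd_mul hc hθ, pd_coord]
    simp only [if_true]
    ring
  unfold dv
  rw [Finset.sum_congr rfl fun k _ => h1 k, Finset.sum_sub_distrib, eul_eq_sum, ← Finset.mul_sum,
    Finset.sum_add_distrib, Finset.sum_const, Finset.card_univ, Fintype.card_fin, nsmul_eq_mul]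

private theorem s4_hm_dv {A : Set (EE d)} (hA : IsOpen A) {Φ : Fin d → EE d → ℝ}
    (hΦ : ∀ k, Hm A (Φ k)) : Hm A (dv Φ) :=
  hm_sum Finset.univ hA fun k _ => hm_pd hA (hΦ k) k

private theorem s4_zero {c K R : ℝ} (h : ∀ t : ℝ, R < t → |c| ≤ K / t) : c = 0 := by
  by_contra hc
  have h1 : 0 < |c| := abs_pos.mpr hc
  set t : ℝ := max R (max (K / |c|) 0) + 1 with ht
  have h2 : R < t := by
    have := le_max_left R (max (K / |c|) 0)
    linarith
  have h3 : K / |c| < t := by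
    have h4 := le_max_left (K / |c|) 0
    have h5 := le_max_right R (max (K / |c|) 0)
    linarith
  have h0 : 0 < t := by
    have h4 := le_max_right (K / |c|) 0
    have h5 := le_max_right R (max (K / |c|) 0)
    linarith
  have h6 := h t h2
  rw [le_div_iff₀ h0] at h6
  rw [div_lt_iff₀ h1] at h3
  nlinarith

/-- the radial profile of `NN` -/
private noncomputable def s4N (d : ℕ) (t : ℝ) : ℝ := if d = 2 then Real.log t else (t ^ (d - 2))⁻¹

private theorem s4_NN (x : EE d) : NN d x = s4N d ‖x‖ := rfl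

/-- the radial profile of the leading term of `D` -/
private noncomputable def s4g (d : ℕ) (κ t : ℝ) : ℝ :=
  (1 + κ * d) * s4N d t + κ * (if d = 2 then 1 else -((d : ℝ) - 2) * s4N d t)

/-- the constant and the coefficient vanish -/
private theorem s4_const (hd : 2 ≤ d) {κ : ℝ} (hκ : 0 < κ) {c m C R : ℝ}
    (h : ∀ t : ℝ, R < t → |c - m * s4g d κ t| ≤ C * (t ^ (d - 1))⁻¹) : m = 0 ∧ c = 0 := by
  rcases Nat.eq_or_lt_of_le hd with h2 | h3
  · subst h2
    have h1 : ∀ t : ℝ, R < t → |c - m * ((1 + 2 * κ) * Real.log t + κ)| ≤ C * t⁻¹ := by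
      intro t ht
      have := h t ht
      unfold s4g s4N at this
      simp only [if_true] at this
      have e : (1 + κ * ((2 : ℕ) : ℝ)) * Real.log t + κ * 1 = (1 + 2 * κ) * Real.log t + κ := by
        push_cast
        ring
      rw [e] at this
      simpa using this
    have hm : m = 0 := by
      have h4 : m * (1 + 2 * κ) = 0 := by
        refine s4_zero (K := |c| + |m| * κ + |C|) (R := max (Real.log (max R 1)) 0) ?_
        intro s hs
        have hs0 : 0 < s := lt_of_le_of_lt (le_max_right _ _) hs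
        have hs1 : Real.log (max R 1) < s := lt_of_le_of_lt (le_max_left _ _) hs
        have hR1 : 0 < max R 1 := lt_of_lt_of_le one_pos (le_max_right _ _)
        have h5 : max R 1 < Real.exp s := (Real.log_lt_iff_lt_exp hR1).mp hs1
        have h6 : R < Real.exp s := lt_of_le_of_lt (le_max_left _ _) h5
        have h7 : 1 < Real.exp s := lt_of_le_of_lt (le_max_right _ _) h5
        have h8 := h1 _ h6
        rw [Real.log_exp] at h8
        have h9 : C * (Real.exp s)⁻¹ ≤ |C| := by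
          have h10 : (Real.exp s)⁻¹ ≤ 1 := inv_le_one_of_one_le₀ h7.le
          have h11 : 0 ≤ (Real.exp s)⁻¹ := by positivity
          calc C * (Real.exp s)⁻¹ ≤ |C| * (Real.exp s)⁻¹ :=
                mul_le_mul_of_nonneg_right (le_abs_self C) h11
            _ ≤ |C| * 1 := mul_le_mul_of_nonneg_left h10 (abs_nonneg C)
            _ = |C| := mul_one _
        have h12 : |m * (1 + 2 * κ) * s| ≤ |c| + |m| * κ + |C| := by
          have e : m * (1 + 2 * κ) * s = c - m * κ - (c - m * ((1 + 2 * κ) * s + κ)) := by ring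
          rw [e]
          have a1 := abs_sub (c - m * κ) (c - m * ((1 + 2 * κ) * s + κ))
          have a2 := abs_sub c (m * κ)
          rw [abs_mul m κ, abs_of_pos hκ] at a2
          linarith
        rw [abs_mul, abs_of_pos hs0] at h12
        rw [le_div_iff₀ hs0]
        exact h12
      have h5 : (1 + 2 * κ) ≠ 0 := by positivity
      exact (mul_eq_zero.mp h4).resolve_right h5
    refine ⟨hm, s4_zero (K := |C|) (R := max R 0) ?_⟩
    intro t ht
    have ht0 : 0 < t := lt_of_le_of_lt (le_max_right _ _) ht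
    have h4 := h1 t (lt_of_le_of_lt (le_max_left _ _) ht)
    rw [hm, zero_mul, sub_zero] at h4
    rw [div_eq_mul_inv]
    exact h4.trans (mul_le_mul_of_nonneg_right (le_abs_self C) (by positivity))
  · have hne : d ≠ 2 := by omega
    obtain ⟨e, he⟩ : ∃ e, d = e + 3 := ⟨d - 3, by omega⟩
    subst he
    have h1 : ∀ t : ℝ, R < t → |c - m * ((1 + 2 * κ) * (t ^ (e + 1))⁻¹)| ≤ C * (t ^ (e + 2))⁻¹ := by
      intro t ht
      have := h t ht
      unfold s4g s4N at this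
      rw [if_neg hne, if_neg hne] at this
      have e1 : e + 3 - 2 = e + 1 := by omega
      have e2 : e + 3 - 1 = e + 2 := by omega
      rw [e1, e2] at this
      have e3 : (1 + κ * ((e + 3 : ℕ) : ℝ)) * (t ^ (e + 1))⁻¹ +
          κ * (-(((e + 3 : ℕ) : ℝ) - 2) * (t ^ (e + 1))⁻¹) = (1 + 2 * κ) * (t ^ (e + 1))⁻¹ := by
        push_cast
        ring
      rw [e3] at this
      exact this
    have hc : c = 0 := by
      refine s4_zero (K := |m| * (1 + 2 * κ) + |C|) (R := max R 1) ?_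
      intro t ht
      have ht1 : 1 < t := lt_of_le_of_lt (le_max_right _ _) ht
      have ht0 : 0 < t := by linarith
      have h4 := h1 t (lt_of_le_of_lt (le_max_left _ _) ht)
      have p1 : (t ^ (e + 1))⁻¹ ≤ t⁻¹ := by
        apply inv_anti₀ ht0
        calc t = t ^ 1 := (pow_one t).symm
          _ ≤ t ^ (e + 1) := pow_le_pow_right₀ ht1.le (by omega)
      have p2 : (t ^ (e + 2))⁻¹ ≤ t⁻¹ := by
        apply inv_anti₀ ht0
        calc t = t ^ 1 := (pow_one t).symm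
          _ ≤ t ^ (e + 2) := pow_le_pow_right₀ ht1.le (by omega)
      have q1 : |m * ((1 + 2 * κ) * (t ^ (e + 1))⁻¹)| ≤ |m| * (1 + 2 * κ) * t⁻¹ := by
        rw [abs_mul, abs_of_nonneg (by positivity : 0 ≤ (1 + 2 * κ) * (t ^ (e + 1))⁻¹), mul_assoc]
        exact mul_le_mul_of_nonneg_left (mul_le_mul_of_nonneg_left p1 (by positivity)) (abs_nonneg m)
      have q2 : C * (t ^ (e + 2))⁻¹ ≤ |C| * t⁻¹ :=
        mul_le_mul (le_abs_self C) p2 (by positivity) (abs_nonneg C)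
      have e4 : c = (c - m * ((1 + 2 * κ) * (t ^ (e + 1))⁻¹)) +
          m * ((1 + 2 * κ) * (t ^ (e + 1))⁻¹) := by ring
      have a1 := abs_add_le (c - m * ((1 + 2 * κ) * (t ^ (e + 1))⁻¹))
        (m * ((1 + 2 * κ) * (t ^ (e + 1))⁻¹))
      rw [← e4] at a1
      rw [div_eq_mul_inv, add_mul]
      linarith
    refine ⟨?_, hc⟩
    have h4 : m * (1 + 2 * κ) = 0 := by
      refine s4_zero (K := |C|) (R := max R 0) ?_
      intro t ht
      have ht0 : 0 < t := lt_of_le_of_lt (le_max_right _ _) ht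
      have h5 := h1 t (lt_of_le_of_lt (le_max_left _ _) ht)
      rw [hc, zero_sub, abs_neg, ← mul_assoc, abs_mul,
        abs_of_nonneg (by positivity : 0 ≤ (t ^ (e + 1))⁻¹)] at h5
      have h6 : C * (t ^ (e + 2))⁻¹ = C * t⁻¹ * (t ^ (e + 1))⁻¹ := by
        rw [pow_succ t (e + 1), mul_inv]
        ring
      rw [h6] at h5
      have h7 : |m * (1 + 2 * κ)| ≤ C * t⁻¹ := le_of_mul_le_mul_right h5 (by positivity)
      rw [div_eq_mul_inv]
      exact h7.trans (mul_le_mul_of_nonneg_right (le_abs_self C) (by positivity))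
    have h5 : (1 + 2 * κ) ≠ 0 := by positivity
    exact (mul_eq_zero.mp h4).resolve_right h5

private theorem s4_N_bound (hd : 2 ≤ d) {t : ℝ} (ht : 1 ≤ t) :
    |s4N d t| ≤ 1 + Real.log (1 + t) := by
  have h0 : 0 ≤ Real.log (1 + t) := Real.log_nonneg (by linarith)
  unfold s4N
  split_ifs with h
  · rw [abs_of_nonneg (Real.log_nonneg ht)]
    have := Real.log_le_log (by linarith : 0 < t) (by linarith : t ≤ 1 + t)
    linarith
  · have h1 : 0 < t ^ (d - 2) := by positivity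
    rw [abs_of_nonneg (by positivity)]
    have h2 : (t ^ (d - 2))⁻¹ ≤ 1 := inv_le_one_of_one_le₀ (one_le_pow₀ ht)
    linarith

theorem splitV (hd : 2 ≤ d) {κ : ℝ} (hκ : 0 < κ) {Ω L Cc : Set (EE d)} (hΩ : IsOpen Ω)
    (hL : IsCompact L) (hLΩ : L ⊆ Ω) (hC : IsCompact Cc) (hCΩ : Cc ⊆ Ω) :
    ∃ Ω' : Set (EE d), IsOpen Ω' ∧ L ∪ Cc ⊆ Ω' ∧ Ω' ⊆ Ω ∧
      ∀ u : Fin d → EE d → ℝ, IsLame κ (Ω \ L) u → ∃ H w : Fin d → EE d → ℝ,
        IsLame κ Ω' H ∧ IsLame κ Lᶜ w ∧ (∀ x ∈ Ω' \ L, ∀ k, u k x = H k x + w k x) ∧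
        Grw w := by
  obtain ⟨Ω', hΩ', hLC, hsub, hsplit⟩ := split hd hΩ hL hLΩ hC hCΩ
  refine ⟨Ω', hΩ', hLC, hsub, ?_⟩
  rintro u ⟨θ, Φ, hθ, hΦ, hu, hdv⟩
  obtain ⟨θi, θe, m, C0, R0, hθi, hθe, hθs, hR0, hθa⟩ := hsplit θ hθ
  choose Φi Φe mk Ck Rk hΦi hΦe hΦs hRk hΦa using fun k => hsplit (Φ k) (hΦ k)
  have hLc : IsOpen Lᶜ := hL.isClosed.isOpen_compl
  have hdiff : IsOpen (Ω' \ L) := hΩ'.sdiff hL.isClosed
  have hdsub : Ω' \ L ⊆ Ω \ L := diff_subset_diff_left hsub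
  set H : Fin d → EE d → ℝ := fun k x => Φi k x - κ * (x k * θi x) with hH
  set w : Fin d → EE d → ℝ := fun k x => Φe k x - κ * (x k * θe x) with hw
  have hsum : ∀ x ∈ Ω' \ L, ∀ k, u k x = H k x + w k x := by
    intro x hx k
    rw [hu x (hdsub hx) k, hΦs k x hx, hθs x hx, hH, hw]
    ring
  -- divergences
  have hdvH : ∀ x ∈ Ω', dv H x = dv Φi x - κ * (d * θi x + eul θi x) := fun x hx =>
    s4_dv (hm_diffAt hθi hΩ' hx) fun k => hm_diffAt (hΦi k) hΩ' hx
  have hdvw : ∀ x ∈ Lᶜ, dv w x = dv Φe x - κ * (d * θe x + eul θe x) := fun x hx =>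
    s4_dv (hm_diffAt hθe hLc hx) fun k => hm_diffAt (hΦe k) hLc hx
  set Di : EE d → ℝ := fun x => (dv Φi x - κ * (d * θi x + eul θi x)) - θi x with hDi
  set De : EE d → ℝ := fun x => θe x - (dv Φe x - κ * (d * θe x + eul θe x)) with hDe
  have hDiH : Hm Ω' Di := by
    refine hm_sub hΩ' (hm_sub hΩ' (s4_hm_dv hΩ' hΦi) (hm_cmul hΩ' (hm_add hΩ'
      (hm_cmul hΩ' hθi _) (hm_eul hΩ' hθi)) _)) hθi
  have hDeH : Hm Lᶜ De := by
    refine hm_sub hLc hθe (hm_sub hLc (s4_hm_dv hLc hΦe) (hm_cmul hLc (hm_add hLc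
      (hm_cmul hLc hθe _) (hm_eul hLc hθe)) _))
  have hHd : ∀ x ∈ Ω', ∀ k, DifferentiableAt ℝ (H k) x := by
    intro x hx k
    have h1 := hm_diffAt (hΦi k) hΩ' hx
    have h2 := hm_diffAt hθi hΩ' hx
    have h3 : DifferentiableAt ℝ (fun y : EE d => y k) x := by fun_prop
    exact h1.sub ((h3.fun_mul h2).const_mul κ)
  have hwd : ∀ x ∈ Lᶜ, ∀ k, DifferentiableAt ℝ (w k) x := by
    intro x hx k
    have h1 := hm_diffAt (hΦe k) hLc hx
    have h2 := hm_diffAt hθe hLc hx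
    have h3 : DifferentiableAt ℝ (fun y : EE d => y k) x := by fun_prop
    exact h1.sub ((h3.fun_mul h2).const_mul κ)
  have hDD : ∀ x ∈ Ω' \ L, De x = Di x := by
    intro x hx
    have h1 : dv u x = dv (fun k y => H k y + w k y) x := by
      refine (dv_congr fun k => ?_).self_of_nhds
      filter_upwards [hdiff.mem_nhds hx] with y hy
      exact hsum y hy k
    rw [dv_add (hHd x hx.1) (hwd x hx.2), hdvH x hx.1, hdvw x hx.2, hdv x (hdsub hx),
      hθs x hx] at h1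
    simp only [hDi, hDe]
    linarith
  classical
  set D : EE d → ℝ := fun x => if x ∈ L then Di x else De x with hD
  have hDe' : ∀ x ∈ Lᶜ, D x = De x := fun x hx => if_neg hx
  have hDi' : ∀ x ∈ Ω', D x = Di x := by
    intro x hx
    by_cases hxL : x ∈ L
    · exact if_pos hxL
    · rw [hDe' x hxL]
      exact hDD x ⟨hx, hxL⟩
  have hDH : Hm univ D := by
    refine hm_of_local fun x _ => ?_
    by_cases hxL : x ∈ L
    · exact ⟨Ω', hΩ', hLC (Or.inl hxL), hm_congr hDiH hΩ' hDi'⟩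
    · exact ⟨Lᶜ, hLc, hxL, hm_congr hDeH hLc hDe'⟩
  -- asymptotics
  obtain ⟨ML, hML⟩ := hL.isBounded.exists_norm_le
  obtain ⟨CN, hCN⟩ := pd_NN_bound (d := d) hd
  set R : ℝ := max (max R0 (∑ k, |Rk k|)) (max ML 1) with hR
  have hR1 : 1 ≤ R := le_trans (le_max_right _ _) (le_max_right _ _)
  have hRR0 : R0 ≤ R := le_trans (le_max_left _ _) (le_max_left _ _)
  have hRRk : ∀ k, Rk k ≤ R := fun k => by
    refine le_trans ?_ (le_trans (le_max_right R0 (∑ k, |Rk k|)) (le_max_left _ _))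
    exact (le_abs_self _).trans (Finset.single_le_sum (f := fun k => |Rk k|)
      (fun j _ => abs_nonneg _) (Finset.mem_univ k))
  have hRML : ML ≤ R := le_trans (le_max_left _ _) (le_max_right _ _)
  have hRpos : 0 < R := by linarith
  have hout : {x : EE d | R < ‖x‖} ⊆ Lᶜ := by
    intro x hx hxL
    have h1 := hML x hxL
    have h2 : R < ‖x‖ := hx
    linarith
  have hout0 : {x : EE d | R < ‖x‖} ⊆ {x : EE d | x ≠ 0} := by
    intro x hx h0
    have h2 : R < ‖x‖ := hx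
    rw [h0, norm_zero] at h2
    linarith
  have hopen : IsOpen {x : EE d | R < ‖x‖} := isOpen_lt continuous_const continuous_norm
  have hNNo : Hm {x : EE d | R < ‖x‖} (NN d) := hm_mono (hm_NN hd) hout0
  -- general estimate for the derivatives
  have hgrad : ∀ (f : EE d → ℝ) (a Cf : ℝ), Hm Lᶜ f →
      (∀ x : EE d, R < ‖x‖ → |f x - a * NN d x| ≤ Cf * (‖x‖ ^ (d - 1))⁻¹) →
      ∃ C' : ℝ, 0 ≤ C' ∧ ∀ x : EE d, 2 * R < ‖x‖ → ∀ i,
        |pd i f x - a * pd i (NN d) x| ≤ C' * (‖x‖ ^ d)⁻¹ := by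
    intro f a Cf hf hfa
    have h1 : Hm {x : EE d | R < ‖x‖} (fun x => f x - a * NN d x) :=
      hm_sub hopen (hm_mono hf hout) (hm_cmul hopen hNNo a)
    obtain ⟨C', hC'⟩ := asym_grad hd hRpos h1 hfa
    refine ⟨|C'|, abs_nonneg _, fun x hx i => ?_⟩
    have hx' : R < ‖x‖ := by linarith
    have hd1 : DifferentiableAt ℝ f x := hm_diffAt hf hLc (hout hx')
    have hd2 : DifferentiableAt ℝ (NN d) x := hm_diffAt hNNo hopen hx'
    have h2 := hC' x hx i
    rw [pd_sub hd1 (hd2.const_mul a), pd_cmul hd2] at h2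
    have e : d - 1 + 1 = d := by omega
    rw [e] at h2
    refine h2.trans (mul_le_mul_of_nonneg_right (le_abs_self C') (by positivity))
  obtain ⟨Cθ, hCθ0, hCθ⟩ := hgrad θe m C0 hθe fun x hx => hθa x (by linarith)
  choose CΦ hCΦ0 hCΦ using fun k => hgrad (Φe k) (mk k) (Ck k) (hΦe k)
    fun x hx => hΦa k x (lt_of_le_of_lt (hRRk k) hx)
  -- the error constant
  have hxi : ∀ (x : EE d) (i : Fin d), |x i| ≤ ‖x‖ := fun x i => by
    have := EuclideanSpace.norm_eq x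
    have h1 : ‖x i‖ ≤ ‖x‖ := PiLp.norm_apply_le x i
    rwa [Real.norm_eq_abs] at h1
  have hpow : ∀ x : EE d, 2 * R < ‖x‖ → ‖x‖ * (‖x‖ ^ d)⁻¹ = (‖x‖ ^ (d - 1))⁻¹ := by
    intro x hx
    have h0 : ‖x‖ ≠ 0 := by
      intro h
      rw [h] at hx
      linarith
    have e : ‖x‖ ^ d = ‖x‖ ^ (d - 1) * ‖x‖ := by
      rw [← pow_succ]
      congr 1
      omega
    rw [e, mul_inv]
    field_simp
  have heul : ∀ x : EE d, 2 * R < ‖x‖ →
      |eul θe x - m * eul (NN d) x| ≤ d * Cθ * (‖x‖ ^ (d - 1))⁻¹ := by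
    intro x hx
    rw [eul_eq_sum, eul_eq_sum, Finset.mul_sum, ← Finset.sum_sub_distrib]
    refine (Finset.abs_sum_le_sum_abs _ _).trans ?_
    have h1 : ∀ i ∈ (Finset.univ : Finset (Fin d)),
        |x i * pd i θe x - m * (x i * pd i (NN d) x)| ≤ Cθ * (‖x‖ ^ (d - 1))⁻¹ := by
      intro i _
      have e : x i * pd i θe x - m * (x i * pd i (NN d) x) =
          x i * (pd i θe x - m * pd i (NN d) x) := by ring
      rw [e, abs_mul, ← hpow x hx]
      calc |x i| * |pd i θe x - m * pd i (NN d) x| ≤ ‖x‖ * (Cθ * (‖x‖ ^ d)⁻¹) :=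
            mul_le_mul (hxi x i) (hCθ x hx i) (abs_nonneg _) (norm_nonneg _)
        _ = Cθ * (‖x‖ * (‖x‖ ^ d)⁻¹) := by ring
    refine (Finset.sum_le_sum h1).trans ?_
    rw [Finset.sum_const, Finset.card_univ, Fintype.card_fin, nsmul_eq_mul, mul_assoc]
  have hdvΦ : ∀ x : EE d, 2 * R < ‖x‖ →
      |dv Φe x| ≤ (∑ k, (CΦ k + |mk k| * |CN|)) * (‖x‖ ^ (d - 1))⁻¹ := by
    intro x hx
    unfold dv
    refine (Finset.abs_sum_le_sum_abs _ _).trans ?_
    rw [Finset.sum_mul]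
    refine Finset.sum_le_sum fun k _ => ?_
    have hx1 : 1 ≤ ‖x‖ := by linarith
    have hx0 : x ≠ 0 := hout0 (show R < ‖x‖ by linarith)
    have h1 := hCΦ k x hx k
    have h2 := hCN x hx0 k
    have h3 : (‖x‖ ^ d)⁻¹ ≤ (‖x‖ ^ (d - 1))⁻¹ :=
      inv_anti₀ (by positivity) (pow_le_pow_right₀ hx1 (by omega))
    have h4 : |mk k * pd k (NN d) x| ≤ |mk k| * |CN| * (‖x‖ ^ (d - 1))⁻¹ := by
      rw [abs_mul, mul_assoc]
      refine mul_le_mul_of_nonneg_left (h2.trans ?_) (abs_nonneg _)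
      exact mul_le_mul_of_nonneg_right (le_abs_self _) (by positivity)
    have h5 : |pd k (Φe k) x| ≤ |pd k (Φe k) x - mk k * pd k (NN d) x| +
        |mk k * pd k (NN d) x| := by
      have := abs_add_le (pd k (Φe k) x - mk k * pd k (NN d) x) (mk k * pd k (NN d) x)
      rwa [sub_add_cancel] at this
    have h6 : CΦ k * (‖x‖ ^ d)⁻¹ ≤ CΦ k * (‖x‖ ^ (d - 1))⁻¹ :=
      mul_le_mul_of_nonneg_left h3 (hCΦ0 k)
    rw [add_mul]
    linarith
  obtain ⟨CD, hCDdef⟩ : ∃ CD : ℝ, CD = (1 + κ * d) * |C0| + κ * (d * Cθ) +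
      ∑ k, (CΦ k + |mk k| * |CN|) := ⟨_, rfl⟩
  have hasy : ∀ x : EE d, 2 * R < ‖x‖ →
      |D x - m * s4g d κ ‖x‖| ≤ CD * (‖x‖ ^ (d - 1))⁻¹ := by
    intro x hx
    have hxR : R < ‖x‖ := by linarith
    have hx0 : x ≠ 0 := hout0 hxR
    rw [hDe' x (hout hxR)]
    have h1 := hθa x (by linarith)
    have h2 := heul x hx
    have h3 := hdvΦ x hx
    have hinv : 0 ≤ (‖x‖ ^ (d - 1))⁻¹ := by positivity
    have h1' : |θe x - m * NN d x| ≤ |C0| * (‖x‖ ^ (d - 1))⁻¹ :=
      h1.trans (mul_le_mul_of_nonneg_right (le_abs_self _) hinv)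
    rw [eul_NN hd hx0] at h2
    have e : De x - m * s4g d κ ‖x‖ = (1 + κ * d) * (θe x - m * NN d x) +
        κ * (eul θe x - m * (if d = 2 then 1 else -((d : ℝ) - 2) * NN d x)) - dv Φe x := by
      simp only [hDe]
      unfold s4g
      rw [s4_NN]
      ring
    rw [e, hCDdef]
    have hk1 : 0 ≤ 1 + κ * d := by positivity
    have a1 := abs_sub ((1 + κ * d) * (θe x - m * NN d x) +
        κ * (eul θe x - m * (if d = 2 then 1 else -((d : ℝ) - 2) * NN d x))) (dv Φe x)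
    have a2 := abs_add_le ((1 + κ * d) * (θe x - m * NN d x))
        (κ * (eul θe x - m * (if d = 2 then 1 else -((d : ℝ) - 2) * NN d x)))
    rw [abs_mul (1 + κ * d), abs_mul κ, abs_of_nonneg hk1, abs_of_pos hκ] at a2
    have a3 := mul_le_mul_of_nonneg_left h1' hk1
    have a4 := mul_le_mul_of_nonneg_left h2 hκ.le
    have e2 : ((1 + κ * d) * |C0| + κ * (d * Cθ) + ∑ k, (CΦ k + |mk k| * |CN|)) *
        (‖x‖ ^ (d - 1))⁻¹ = (1 + κ * d) * (|C0| * (‖x‖ ^ (d - 1))⁻¹) +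
        κ * (d * Cθ * (‖x‖ ^ (d - 1))⁻¹) +
        (∑ k, (CΦ k + |mk k| * |CN|)) * (‖x‖ ^ (d - 1))⁻¹ := by ring
    rw [e2]
    linarith
  -- growth and Liouville
  have hDc : ContinuousOn D (closedBall 0 (2 * R)) :=
    (hDH.1.continuousOn).mono (subset_univ _)
  obtain ⟨CB, hCB⟩ := (isCompact_closedBall (0 : EE d) (2 * R)).exists_bound_of_continuousOn hDc
  have hg_bound : ∀ t : ℝ, 1 ≤ t →
      |s4g d κ t| ≤ ((1 + κ * d) + κ * (1 + d)) * (1 + Real.log (1 + t)) := by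
    intro t ht
    have h0 : 0 ≤ Real.log (1 + t) := Real.log_nonneg (by linarith)
    have h1 := s4_N_bound hd ht
    have hd2 : (0 : ℝ) ≤ (d : ℝ) - 2 := by
      have : (2 : ℝ) ≤ d := by exact_mod_cast hd
      linarith
    have h2 : |(if d = 2 then 1 else -((d : ℝ) - 2) * s4N d t : ℝ)| ≤
        (1 + d) * (1 + Real.log (1 + t)) := by
      split_ifs with h
      · rw [abs_one]
        have : (0 : ℝ) ≤ d := by positivity
        nlinarith
      · rw [abs_mul, abs_neg, abs_of_nonneg hd2]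
        exact mul_le_mul (by linarith) h1 (abs_nonneg _) (by positivity)
    unfold s4g
    have hk1 : 0 ≤ 1 + κ * d := by positivity
    have a1 := abs_add_le ((1 + κ * d) * s4N d t)
      (κ * (if d = 2 then 1 else -((d : ℝ) - 2) * s4N d t))
    rw [abs_mul (1 + κ * d), abs_mul κ, abs_of_nonneg hk1, abs_of_pos hκ] at a1
    have a2 := mul_le_mul_of_nonneg_left h1 hk1
    have a3 := mul_le_mul_of_nonneg_left h2 hκ.le
    nlinarith
  have hgrowth : ∀ x, |D x| ≤ (|CB| + |m| * ((1 + κ * d) + κ * (1 + d)) + |CD|) *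
      (1 + Real.log (1 + ‖x‖)) := by
    intro x
    have hl0 : 0 ≤ Real.log (1 + ‖x‖) := Real.log_nonneg (by linarith [norm_nonneg x])
    have hp : 0 ≤ |m| * ((1 + κ * d) + κ * (1 + d)) := by positivity
    rcases le_or_gt ‖x‖ (2 * R) with h | h
    · have h1 := hCB x (by rw [mem_closedBall, dist_zero_right]; exact h)
      rw [Real.norm_eq_abs] at h1
      have h2 := le_abs_self CB
      have h3 := abs_nonneg CD
      have h4 := abs_nonneg CB
      nlinarith [mul_nonneg (add_nonneg (add_nonneg h4 hp) h3) hl0]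
    · have h1 := hasy x h
      have hx1 : 1 ≤ ‖x‖ := by linarith
      have h2 := hg_bound ‖x‖ hx1
      have h3 : CD * (‖x‖ ^ (d - 1))⁻¹ ≤ |CD| := by
        have h4 : (‖x‖ ^ (d - 1))⁻¹ ≤ 1 := inv_le_one_of_one_le₀ (one_le_pow₀ hx1)
        calc CD * (‖x‖ ^ (d - 1))⁻¹ ≤ |CD| * (‖x‖ ^ (d - 1))⁻¹ :=
              mul_le_mul_of_nonneg_right (le_abs_self _) (by positivity)
          _ ≤ |CD| * 1 := mul_le_mul_of_nonneg_left h4 (abs_nonneg _)
          _ = |CD| := mul_one _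
      have h5 : |D x| ≤ |D x - m * s4g d κ ‖x‖| + |m * s4g d κ ‖x‖| := by
        have := abs_add_le (D x - m * s4g d κ ‖x‖) (m * s4g d κ ‖x‖)
        rwa [sub_add_cancel] at this
      rw [abs_mul] at h5
      have h6 := mul_le_mul_of_nonneg_left h2 (abs_nonneg m)
      have h7 := abs_nonneg CD
      have h8 := abs_nonneg CB
      nlinarith [mul_nonneg h7 hl0, mul_nonneg h8 hl0]
  have hDconst : ∀ x, D x = D 0 := fun x => hm_liouville hd hDH hgrowth x 0
  have hkey : m = 0 ∧ D 0 = 0 := by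
    refine s4_const hd hκ (C := CD) (R := 2 * R) fun t ht => ?_
    have ht0 : 0 < t := by linarith
    set x : EE d := t • (EuclideanSpace.single ⟨0, by omega⟩ (1 : ℝ) : EE d) with hx
    have hxn : ‖x‖ = t := by
      rw [hx, norm_smul, EuclideanSpace.norm_single, Real.norm_eq_abs, abs_of_pos ht0]
      simp
    have h1 := hasy x (by rw [hxn]; exact ht)
    rw [hxn, hDconst x] at h1
    exact h1
  obtain ⟨hm0, hD0⟩ := hkey
  have hDzero : ∀ x, D x = 0 := fun x => by rw [hDconst x, hD0]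
  have hdvH' : ∀ x ∈ Ω', dv H x = θi x := by
    intro x hx
    have h1 := hDzero x
    rw [hDi' x hx] at h1
    simp only [hDi] at h1
    rw [hdvH x hx]
    linarith
  have hdvw' : ∀ x ∈ Lᶜ, dv w x = θe x := by
    intro x hx
    have h1 := hDzero x
    rw [hDe' x hx] at h1
    simp only [hDe] at h1
    rw [hdvw x hx]
    linarith
  refine ⟨H, w, ⟨θi, Φi, hθi, hΦi, fun x _ k => rfl, hdvH'⟩,
    ⟨θe, Φe, hθe, hΦe, fun x _ k => rfl, hdvw'⟩, hsum, ?_⟩
  -- growth of w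
  refine ⟨mk, (∑ k, (|Ck k| + |mk k|)) + κ * |C0|, R, hRpos, fun x hx k => ?_⟩
  have hx1 : 1 ≤ ‖x‖ := by linarith
  have h1 := hΦa k x (lt_of_le_of_lt (hRRk k) hx)
  have h2 := hθa x (by linarith)
  rw [hm0, zero_mul, sub_zero] at h2
  have hp2 : ‖x‖ * (‖x‖ ^ (d - 1))⁻¹ = (‖x‖ ^ (d - 2))⁻¹ := by
    have h0 : ‖x‖ ≠ 0 := by
      intro h
      rw [h] at hx1
      linarith
    have e : ‖x‖ ^ (d - 1) = ‖x‖ ^ (d - 2) * ‖x‖ := by
      rw [← pow_succ]
      congr 1
      omega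
    rw [e, mul_inv]
    field_simp
  have h3 : |x k * θe x| ≤ |C0| * (‖x‖ ^ (d - 2))⁻¹ := by
    rw [abs_mul, ← hp2]
    calc |x k| * |θe x| ≤ ‖x‖ * (|C0| * (‖x‖ ^ (d - 1))⁻¹) := by
          refine mul_le_mul (hxi x k) (h2.trans ?_) (abs_nonneg _) (norm_nonneg _)
          exact mul_le_mul_of_nonneg_right (le_abs_self _) (by positivity)
      _ = |C0| * (‖x‖ * (‖x‖ ^ (d - 1))⁻¹) := by ring
  have h4 : (‖x‖ ^ (d - 1))⁻¹ ≤ (‖x‖ ^ (d - 2))⁻¹ :=
    inv_anti₀ (by positivity) (pow_le_pow_right₀ hx1 (by omega))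
  have h5 : |Φe k x - (if d = 2 then mk k * Real.log ‖x‖ else 0)| ≤
      (|Ck k| + |mk k|) * (‖x‖ ^ (d - 2))⁻¹ := by
    have h6 : Ck k * (‖x‖ ^ (d - 1))⁻¹ ≤ |Ck k| * (‖x‖ ^ (d - 2))⁻¹ :=
      mul_le_mul (le_abs_self _) h4 (by positivity) (abs_nonneg _)
    have h7 : 0 ≤ |mk k| * (‖x‖ ^ (d - 2))⁻¹ := by positivity
    by_cases h : d = 2
    · have e : NN d x = Real.log ‖x‖ := by
        unfold NN
        rw [if_pos h]
      rw [if_pos h, ← e, add_mul]
      linarith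
    · have e : NN d x = (‖x‖ ^ (d - 2))⁻¹ := by
        unfold NN
        rw [if_neg h]
      rw [if_neg h, sub_zero, add_mul]
      have h8 : |Φe k x| ≤ |Φe k x - mk k * NN d x| + |mk k * NN d x| := by
        have := abs_add_le (Φe k x - mk k * NN d x) (mk k * NN d x)
        rwa [sub_add_cancel] at this
      have h9 : |mk k * NN d x| = |mk k| * (‖x‖ ^ (d - 2))⁻¹ := by
        rw [abs_mul, e, abs_of_nonneg (by positivity : 0 ≤ (‖x‖ ^ (d - 2))⁻¹)]
      linarith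
  have h6 : (|Ck k| + |mk k|) ≤ ∑ k, (|Ck k| + |mk k|) :=
    Finset.single_le_sum (f := fun k => |Ck k| + |mk k|) (fun j _ => by positivity)
      (Finset.mem_univ k)
  have h7 := mul_le_mul_of_nonneg_right h6 (by positivity : 0 ≤ (‖x‖ ^ (d - 2))⁻¹)
  have e : w k x - (if d = 2 then mk k * Real.log ‖x‖ else 0) =
      (Φe k x - (if d = 2 then mk k * Real.log ‖x‖ else 0)) - κ * (x k * θe x) := by
    simp only [hw]
    ring
  rw [e]
  have a1 := abs_sub (Φe k x - (if d = 2 then mk k * Real.log ‖x‖ else 0)) (κ * (x k * θe x))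
  rw [abs_mul κ, abs_of_pos hκ] at a1
  have a2 := mul_le_mul_of_nonneg_left h3 hκ.le
  rw [add_mul, mul_assoc κ]
  linarith

end Pool.Agent.MP_0643f8_an.U
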