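import Mathlib
import Pool.Agent.Lib.MP_0643f8_an.U.W4_Lreg
import Pool.Agent.Lib.MP_0643f8_an.U.W7_Local
import Pool.Agent.Lib.MP_0643f8_an.U.S4_SplitV
import Pool.Agent.Lib.MP_0643f8_an.U.M1_Topo

/-!
# Uniqueness
-/

set_option autoImplicit false

open MeasureTheory Metric Set Filter Topology
open scoped ContDiff

namespace Pool.Agent.MP_0643f8_an.U
variable {d : ℕ} (Z : Cst d)

private theorem m6a_pos : 0 < Z.lam + Z.mu ∧ 0 < Z.lam + 2 * Z.mu := by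
  have h2 : (2 : ℝ) ≤ d := by exact_mod_cast Z.hd
  have hmu := Z.hmu
  have hl := Z.hlam
  have h : 0 < Z.lam + Z.mu := by
    by_contra hc
    push Not at hc
    nlinarith
  exact ⟨h, by linarith⟩

private theorem m6a_kap : 0 < Z.kap := div_pos (m6a_pos Z).1 (by linarith [Z.hmu])

private theorem m6a_reg {Ω : Set (EE d)} (hΩ : IsOpen Ω) {c : EE d} {r : ℝ}
    {u : Fin d → EE d → ℝ} {G : Fin d → Fin d → EE d → ℝ}
    (hu : ∀ k, WD Ω (u k) (G k)) (hw : WEq Z (ball c r) Ω G) :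
    ∃ v : Fin d → EE d → ℝ, IsLame Z.kap (Ω \ closedBall c r) v ∧
      ∀ k, ∀ᵐ x ∂(volume.restrict (Ω \ closedBall c r)), u k x = v k x := by
  have hV : IsOpen (Ω \ closedBall c r) := hΩ.sdiff isClosed_closedBall
  have h1 : WEq Z (ball c r) (Ω \ closedBall c r) G := weq_mono Z hw sdiff_subset
  have h2 := (weq_off Z (D := ball c r) (V := Ω \ closedBall c r)
    (fun x hx hb => hx.2 (ball_subset_closedBall hb))).1 h1
  obtain ⟨v, hv, huv, -⟩ := lreg Z.hd hV Z.hmu (m6a_pos Z).2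
    (fun k => wd_mono (hu k) sdiff_subset) h2
  exact ⟨v, hv, huv⟩

/-- Step 2, not nested: there are `V`, `H`, `w` with `U_j = H + w` outside the `j`-th closed ball.
`u₁` is a Lame field `v₁` on `Ω \ closedBall c₁ r₁`, `u₂` a Lame field `v₂` on
`Ω \ closedBall c₂ r₂` (`lreg`, `weq_off`), equal off both balls (`eq_of_ae_eq`); glue them to a Lame
field on `Ω \ L`, `L` the intersection of the closed balls, and apply `splitV` with `Cc` the union. -/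
theorem exists_split {Ω : Set (EE d)} (hΩ : IsOpen Ω) {c₁ c₂ : EE d} {r₁ r₂ : ℝ}
    (hr₁ : 0 < r₁) (hr₂ : 0 < r₂) (hb₁ : closedBall c₁ r₁ ⊆ Ω) (hb₂ : closedBall c₂ r₂ ⊆ Ω)
    {u₁ u₂ : Fin d → EE d → ℝ} {G₁ G₂ : Fin d → Fin d → EE d → ℝ}
    (hu₁ : ∀ k, WD Ω (u₁ k) (G₁ k)) (hu₂ : ∀ k, WD Ω (u₂ k) (G₂ k))
    (hw₁ : WEq Z (ball c₁ r₁) Ω G₁) (hw₂ : WEq Z (ball c₂ r₂) Ω G₂)
    (he : ∀ k, ∀ᵐ x ∂(volume.restrict (Ω \ (closedBall c₁ r₁ ∪ closedBall c₂ r₂))),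
      u₁ k x = u₂ k x) :
    ∃ (V : Set (EE d)) (H w : Fin d → EE d → ℝ), IsOpen V ∧ V ⊆ Ω ∧ closedBall c₁ r₁ ⊆ V ∧
      closedBall c₂ r₂ ⊆ V ∧ IsLame Z.kap V H ∧
      IsLame Z.kap (closedBall c₁ r₁ ∩ closedBall c₂ r₂)ᶜ w ∧ Grw w ∧
      (∀ k, ∀ᵐ x ∂(volume.restrict (V \ closedBall c₁ r₁)), u₁ k x = H k x + w k x) ∧
      ∀ k, ∀ᵐ x ∂(volume.restrict (V \ closedBall c₂ r₂)), u₂ k x = H k x + w k x := by
  classical
  obtain ⟨v₁, hv₁, huv₁⟩ := m6a_reg Z hΩ hu₁ hw₁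
  obtain ⟨v₂, hv₂, huv₂⟩ := m6a_reg Z hΩ hu₂ hw₂
  have hV₁ : IsOpen (Ω \ closedBall c₁ r₁) := hΩ.sdiff isClosed_closedBall
  have hV₂ : IsOpen (Ω \ closedBall c₂ r₂) := hΩ.sdiff isClosed_closedBall
  have hV₀ : IsOpen (Ω \ (closedBall c₁ r₁ ∪ closedBall c₂ r₂)) :=
    hΩ.sdiff (isClosed_closedBall.union isClosed_closedBall)
  have hs₁ : Ω \ (closedBall c₁ r₁ ∪ closedBall c₂ r₂) ⊆ Ω \ closedBall c₁ r₁ :=
    sdiff_subset_sdiff_right subset_union_left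
  have hs₂ : Ω \ (closedBall c₁ r₁ ∪ closedBall c₂ r₂) ⊆ Ω \ closedBall c₂ r₂ :=
    sdiff_subset_sdiff_right subset_union_right
  -- the two fields agree off both balls
  have heq : ∀ k, ∀ x ∈ Ω \ (closedBall c₁ r₁ ∪ closedBall c₂ r₂), v₁ k x = v₂ k x := by
    intro k
    refine eq_of_ae_eq hV₀ ((lame_smooth hV₁ hv₁ k).continuousOn.mono hs₁)
      ((lame_smooth hV₂ hv₂ k).continuousOn.mono hs₂) ?_
    filter_upwards [he k, ae_restrict_of_ae_restrict_of_subset hs₁ (huv₁ k),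
      ae_restrict_of_ae_restrict_of_subset hs₂ (huv₂ k)] with x h1 h2 h3
    rw [← h2, ← h3, h1]
  -- glue
  obtain ⟨v, hvdef⟩ : ∃ v : Fin d → EE d → ℝ, v = fun k x =>
    if x ∈ closedBall c₁ r₁ then v₂ k x else v₁ k x := ⟨_, rfl⟩
  have hvv₁ : ∀ x ∈ Ω \ closedBall c₁ r₁, ∀ k, v k x = v₁ k x := by
    intro x hx k
    rw [hvdef]
    exact if_neg hx.2
  have hvv₂ : ∀ x ∈ Ω \ closedBall c₂ r₂, ∀ k, v k x = v₂ k x := by
    intro x hx k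
    rw [hvdef]
    by_cases h : x ∈ closedBall c₁ r₁
    · exact if_pos h
    · exact (if_neg h).trans (heq k x ⟨hx.1, fun h' => h'.elim h hx.2⟩)
  have hvL : IsLame Z.kap (Ω \ (closedBall c₁ r₁ ∩ closedBall c₂ r₂)) v := by
    refine lame_of_local (hΩ.sdiff (isClosed_closedBall.inter isClosed_closedBall)) ?_
    intro x hx
    by_cases h : x ∈ closedBall c₁ r₁
    · exact ⟨_, hV₂, ⟨hx.1, fun h' => hx.2 ⟨h, h'⟩⟩, lame_congr hV₂ hv₂ hvv₂⟩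
    · exact ⟨_, hV₁, ⟨hx.1, h⟩, lame_congr hV₁ hv₁ hvv₁⟩
  obtain ⟨Ω', hΩ', hsub, hΩ'Ω, hsplit⟩ := splitV Z.hd (m6a_kap Z) hΩ
    ((isCompact_closedBall c₁ r₁).inter (isCompact_closedBall c₂ r₂))
    (inter_subset_left.trans hb₁) ((isCompact_closedBall c₁ r₁).union (isCompact_closedBall c₂ r₂))
    (union_subset hb₁ hb₂)
  obtain ⟨H, w, hH, hw, hHw, hg⟩ := hsplit v hvL
  refine ⟨Ω', H, w, hΩ', hΩ'Ω, ?_, ?_, hH, hw, hg, ?_, ?_⟩
  · exact (subset_union_left.trans subset_union_right).trans hsub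
  · exact (subset_union_right.trans subset_union_right).trans hsub
  · intro k
    have hsub1 : Ω' \ closedBall c₁ r₁ ⊆ Ω \ closedBall c₁ r₁ := sdiff_subset_sdiff_left hΩ'Ω
    filter_upwards [ae_restrict_of_ae_restrict_of_subset hsub1 (huv₁ k),
      ae_restrict_mem (hΩ'.sdiff isClosed_closedBall).measurableSet] with x h1 h2
    rw [h1, ← hvv₁ x (hsub1 h2) k]
    exact hHw x ⟨h2.1, fun h => h2.2 h.1⟩ k
  · intro k
    have hsub2 : Ω' \ closedBall c₂ r₂ ⊆ Ω \ closedBall c₂ r₂ := sdiff_subset_sdiff_left hΩ'Ω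
    filter_upwards [ae_restrict_of_ae_restrict_of_subset hsub2 (huv₂ k),
      ae_restrict_mem (hΩ'.sdiff isClosed_closedBall).measurableSet] with x h1 h2
    rw [h1, ← hvv₂ x (hsub2 h2) k]
    exact hHw x ⟨h2.1, fun h => h2.2 h.2⟩ k

end Pool.Agent.MP_0643f8_an.U
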