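import Mathlib
import Pool.Agent.Lib.MP_0643f8_an.U.M6a_Split
import Pool.Agent.Lib.MP_0643f8_an.U.M4_Refl
import Pool.Agent.Lib.MP_0643f8_an.U.M5_Geo

/-!
# Uniqueness
-/

set_option autoImplicit false

open MeasureTheory Metric Set Filter Topology
open scoped ContDiff

namespace Pool.Agent.MP_0643f8_an.U
variable {d : ℕ} (Z : Cst d)

private theorem m6b_lim {c : EE d} {r : ℝ} (hr : 0 < r) {A : Set (EE d)} (hA : IsOpen A)
    (h0 : (0 : EE d) ∈ A) {D : Dat d} (hD : D.On A) {w : Fin d → EE d → ℝ} {m : Fin d → ℝ}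
    (h : ∀ y : EE d, 1 < ‖y‖ → ∀ k, aff c r w k y = fw Z D k y + m k) (k : Fin d) {ε : ℝ}
    (hε : 0 < ε) : ∃ R : ℝ, ∀ x : EE d, R < ‖x‖ → |w k x - m k| < ε := by
  have hd := Z.hd
  obtain ⟨C, R₀, hR₀, hC⟩ := fw_decay Z hA h0 hD
  set M : ℝ := max (max 1 R₀) (|C| / ε) with hM
  refine ⟨‖c‖ + r * M, fun x hx => ?_⟩
  set y : EE d := r⁻¹ • (x - c) with hy
  have hxy : c + r • y = x := by
    rw [hy, smul_smul, mul_inv_cancel₀ hr.ne', one_smul]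
    abel
  have hn : M < ‖y‖ := by
    have h1 : ‖x‖ ≤ ‖c‖ + ‖x - c‖ := by
      have h2 : x = c + (x - c) := by abel
      calc ‖x‖ = ‖c + (x - c)‖ := by rw [← h2]
        _ ≤ ‖c‖ + ‖x - c‖ := norm_add_le _ _
    rw [hy, norm_smul, Real.norm_of_nonneg (inv_nonneg.2 hr.le), inv_mul_eq_div, lt_div_iff₀ hr]
    linarith
  have h1 : 1 < ‖y‖ := lt_of_le_of_lt ((le_max_left _ _).trans (le_max_left _ _)) hn
  have h2 : R₀ < ‖y‖ := lt_of_le_of_lt ((le_max_right _ _).trans (le_max_left _ _)) hn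
  have h3 : |C| / ε < ‖y‖ := lt_of_le_of_lt (le_max_right _ _) hn
  have hy0 : 0 < ‖y‖ := by linarith
  have e1 : w k x - m k = fw Z D k y := by
    have h4 := h y h1 k
    unfold aff at h4
    rw [hxy] at h4
    linarith
  rw [e1]
  refine lt_of_le_of_lt (hC y h2 k) ?_
  have h5 : (‖y‖ ^ (d - 1))⁻¹ ≤ ‖y‖⁻¹ := by
    refine inv_anti₀ hy0 ?_
    exact le_self_pow₀ h1.le (by omega)
  have h6 : C * (‖y‖ ^ (d - 1))⁻¹ ≤ |C| * ‖y‖⁻¹ :=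
    mul_le_mul (le_abs_self C) h5 (by positivity) (abs_nonneg C)
  refine lt_of_le_of_lt h6 ?_
  rw [← div_eq_mul_inv, div_lt_iff₀ hy0]
  rw [div_lt_iff₀ hε] at h3
  linarith

private theorem m6b_eq (hd : 2 ≤ d) {w : Fin d → EE d → ℝ} {m₁ m₂ : Fin d → ℝ} (k : Fin d)
    (h₁ : ∀ ε : ℝ, 0 < ε → ∃ R : ℝ, ∀ x : EE d, R < ‖x‖ → |w k x - m₁ k| < ε)
    (h₂ : ∀ ε : ℝ, 0 < ε → ∃ R : ℝ, ∀ x : EE d, R < ‖x‖ → |w k x - m₂ k| < ε) : m₁ k = m₂ k := by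
  by_contra hne
  have hpos : 0 < |m₁ k - m₂ k| / 2 := by
    have h := abs_pos.2 (sub_ne_zero.2 hne)
    linarith
  obtain ⟨R₁, h3⟩ := h₁ _ hpos
  obtain ⟨R₂, h4⟩ := h₂ _ hpos
  set t : ℝ := max 0 (max R₁ R₂) + 1 with ht
  have ht0 : 0 < t := by
    have := le_max_left (0 : ℝ) (max R₁ R₂)
    linarith
  have hn : ‖EuclideanSpace.single (⟨0, by omega⟩ : Fin d) t‖ = t := by
    rw [EuclideanSpace.norm_single, Real.norm_of_nonneg ht0.le]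
  have h5 := h3 (EuclideanSpace.single (⟨0, by omega⟩ : Fin d) t) (by
    rw [hn, ht]
    have := (le_max_left R₁ R₂).trans (le_max_right (0 : ℝ) (max R₁ R₂))
    linarith)
  have h6 := h4 (EuclideanSpace.single (⟨0, by omega⟩ : Fin d) t) (by
    rw [hn, ht]
    have := (le_max_right R₁ R₂).trans (le_max_right (0 : ℝ) (max R₁ R₂))
    linarith)
  set a := w k (EuclideanSpace.single (⟨0, by omega⟩ : Fin d) t)
  have h7 : |m₁ k - m₂ k| ≤ |a - m₁ k| + |a - m₂ k| := by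
    have h8 : m₁ k - m₂ k = (a - m₂ k) - (a - m₁ k) := by ring
    rw [h8]
    have h9 := abs_sub (a - m₂ k) (a - m₁ k)
    linarith
  linarith

private theorem m6b_on {D : Dat d} {A : Set (EE d)} (hD : D.On A) (m : Fin d → ℝ) :
    ({ D with h := fun k => D.h k + m k } : Dat d).On A :=
  ⟨hD.hp, hD.hq, hD.hT, hD.p0, hD.p1, hD.q0, hD.T0, hD.xT, hD.dT⟩

private theorem m6b_fH (D : Dat d) (m : Fin d → ℝ) (k : Fin d) (x : EE d) :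
    fH Z ({ D with h := fun k => D.h k + m k } : Dat d) k x = fH Z D k x + m k := by
  unfold fH
  ring

private theorem m6b_fw (D : Dat d) (m : Fin d → ℝ) (k : Fin d) (x : EE d) :
    fw Z ({ D with h := fun k => D.h k + m k } : Dat d) k x = fw Z D k x := rfl

/-- Step 3: after a change of `H` and `w` by a constant, the data of both balls represent `H` and
`w`. (`reflect` for both balls gives constants `m₁`, `m₂`; `w → m₁` and `w → m₂` at infinity by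
`fw_decay`, so `m₁ = m₂ = m`. Replace `w` by `w - m`, `H` by `H + m` and `D_j.h` by `D_j.h + m`.) -/
theorem exists_two {Ω : Set (EE d)} (hΩ : IsOpen Ω) {c₁ c₂ : EE d} {r₁ r₂ : ℝ}
    (hr₁ : 0 < r₁) (hr₂ : 0 < r₂) (hb₁ : closedBall c₁ r₁ ⊆ Ω) (hb₂ : closedBall c₂ r₂ ⊆ Ω)
    {u₁ u₂ : Fin d → EE d → ℝ} {G₁ G₂ : Fin d → Fin d → EE d → ℝ}
    (hu₁ : ∀ k, WD Ω (u₁ k) (G₁ k)) (hu₂ : ∀ k, WD Ω (u₂ k) (G₂ k))
    (hw₁ : WEq Z (ball c₁ r₁) Ω G₁) (hw₂ : WEq Z (ball c₂ r₂) Ω G₂)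
    (he : ∀ k, ∀ᵐ x ∂(volume.restrict (Ω \ (closedBall c₁ r₁ ∪ closedBall c₂ r₂))),
      u₁ k x = u₂ k x) :
    ∃ (V : Set (EE d)) (H w : Fin d → EE d → ℝ) (D₁ D₂ : Dat d) (ρ₁ ρ₂ : ℝ), IsOpen V ∧
      V ⊆ Ω ∧ closedBall c₁ r₁ ⊆ V ∧ closedBall c₂ r₂ ⊆ V ∧ IsLame Z.kap V H ∧
      IsLame Z.kap (closedBall c₁ r₁ ∩ closedBall c₂ r₂)ᶜ w ∧
      One Z c₁ r₁ H w V D₁ ρ₁ ∧ One Z c₂ r₂ H w V D₂ ρ₂ ∧
      ∀ k, ∀ᵐ x ∂(volume.restrict (V \ closedBall c₁ r₁)), u₁ k x = H k x + w k x := by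
  have hd := Z.hd
  obtain ⟨V, H, w, hV, hVΩ, hV₁, hV₂, hH, hw, hg, he₁, he₂⟩ :=
    exists_split Z hΩ hr₁ hr₂ hb₁ hb₂ hu₁ hu₂ hw₁ hw₂ he
  obtain ⟨ρ₁, D₁, m₁, hρ₁, hD₁, hs₁, hH₁, hwe₁⟩ := reflect Z hr₁ hV hV₁
    (fun k => wd_mono (hu₁ k) hVΩ) (weq_mono Z hw₁ hVΩ) hH
    (lame_mono hw (compl_subset_compl.2 inter_subset_left)) hg he₁
  obtain ⟨ρ₂, D₂, m₂, hρ₂, hD₂, hs₂, hH₂, hwe₂⟩ := reflect Z hr₂ hV hV₂
    (fun k => wd_mono (hu₂ k) hVΩ) (weq_mono Z hw₂ hVΩ) hH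
    (lame_mono hw (compl_subset_compl.2 inter_subset_right)) hg he₂
  have hm : ∀ k, m₁ k = m₂ k := fun k => m6b_eq hd k
    (fun ε hε => m6b_lim Z hr₁ isOpen_ball (mem_ball_self (by linarith)) hD₁ hwe₁ k hε)
    (fun ε hε => m6b_lim Z hr₂ isOpen_ball (mem_ball_self (by linarith)) hD₂ hwe₂ k hε)
  have hLo : IsOpen (closedBall c₁ r₁ ∩ closedBall c₂ r₂)ᶜ :=
    (isClosed_closedBall.inter isClosed_closedBall).isOpen_compl
  refine ⟨V, fun k x => H k x + m₁ k, fun k x => w k x - m₁ k,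
    { D₁ with h := fun k => D₁.h k + m₁ k }, { D₂ with h := fun k => D₂.h k + m₁ k }, ρ₁, ρ₂, hV,
    hVΩ, hV₁, hV₂, lame_add hV hH (lame_const m₁), lame_sub hLo hw (lame_const m₁),
    ⟨hr₁, hρ₁, m6b_on hD₁ m₁, hs₁, fun y hy k => ?_, fun y hy k => ?_⟩,
    ⟨hr₂, hρ₂, m6b_on hD₂ m₁, hs₂, fun y hy k => ?_, fun y hy k => ?_⟩, fun k => ?_⟩
  · rw [m6b_fH, ← hH₁ y hy k]
    rfl
  · rw [m6b_fw]
    have h1 := hwe₁ y hy k
    unfold aff at h1 ⊢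
    linarith
  · rw [m6b_fH, ← hH₂ y hy k]
    rfl
  · rw [m6b_fw]
    have h1 := hwe₂ y hy k
    rw [← hm k] at h1
    unfold aff at h1 ⊢
    linarith
  · filter_upwards [he₁ k] with x hx
    rw [hx]
    ring

end Pool.Agent.MP_0643f8_an.U
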