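import Mathlib
import Pool.Agent.Lib.MP_0643f8_an.U.M3_Nested

/-!
# Uniqueness
-/

set_option autoImplicit false

open MeasureTheory Metric Set Filter Topology
open scoped ContDiff

namespace Pool.Agent.MP_0643f8_an.U
variable {d : ℕ} (Z : Cst d)

/-- Step 4: if `w = 0` outside the first closed ball, the strain of the first solution vanishes
(`nest` with `A = ∅`, `B = ball c₁ r₁`, `V`, `uA = H`; then `spread`, the strain of `H` vanishes on a
ball larger than `closedBall c₁ r₁` by `strain_ident`) -/
theorem invisible {Ω V : Set (EE d)} (hΩ : IsOpen Ω) (hc : IsPreconnected Ω) (hV : IsOpen V)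
    (hVΩ : V ⊆ Ω) {c : EE d} {r : ℝ} (hr : 0 < r) (hb : closedBall c r ⊆ V)
    {u : Fin d → EE d → ℝ} {G : Fin d → Fin d → EE d → ℝ} (hu : ∀ k, WD Ω (u k) (G k))
    (hw : WEq Z (ball c r) Ω G) {H : Fin d → EE d → ℝ} (hH : IsLame Z.kap V H)
    (he : ∀ k, ∀ᵐ x ∂(volume.restrict (V \ closedBall c r)), u k x = H k x) :
    ∀ k i, ∀ᵐ x ∂(volume.restrict Ω), G k i x + G i k x = 0 := by
  have hVc : IsOpen (V \ closedBall c r) := hV.sdiff isClosed_closedBall
  have hHs : ∀ k, ContDiffOn ℝ ∞ (H k) V := fun k => lame_smooth hV hH k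
  have hHW : ∀ k, WD V (H k) (grd H k) := fun k => wd_smooth hV (hHs k)
  have huV : ∀ k, WD V (u k) (G k) := fun k => wd_mono (hu k) hVΩ
  have hwH : WEq Z ∅ V (grd H) := by
    rw [weq_off Z (fun x _ => notMem_empty x)]
    intro φ hφ hs k
    exact lame_weak hV Z.hmu.ne' hH hφ hs k
  -- the gradients agree off the closed ball
  have heG : ∀ k i, ∀ᵐ x ∂(volume.restrict (V \ closedBall c r)), grd H k i x = G k i x := by
    intro k i
    have h1 : WD (V \ closedBall c r) (u k) (G k) := wd_mono (huV k) sdiff_subset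
    have h2 : WD (V \ closedBall c r) (H k) (grd H k) := wd_mono (hHW k) sdiff_subset
    have h3 : WD (V \ closedBall c r) (u k) (grd H k) :=
      wd_congr hVc.measurableSet h2 (he k) (fun i => Eventually.of_forall fun x => rfl)
    exact wd_unique hVc h3 h1 i
  have heH : ∀ k, ∀ᵐ x ∂(volume.restrict (V \ closedBall c r)), H k x = u k x := fun k => by
    filter_upwards [he k] with x hx using hx.symm
  obtain ⟨h1, h2⟩ := nest Z hV (isCompact_closedBall c r) hb MeasurableSet.empty
    measurableSet_ball (empty_subset _) ball_subset_closedBall hHW huV hwH (weq_mono Z hw hVΩ)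
    heH heG
  rw [sdiff_empty] at h2
  -- the strain of `H` vanishes on the ball
  have hballV : ball c r ⊆ V := ball_subset_closedBall.trans hb
  have hcont : ∀ k i, ContinuousOn (fun x => grd H k i x + grd H i k x) V := fun k i =>
    (pd_contDiffOn hV (hHs k) i).continuousOn.add (pd_contDiffOn hV (hHs i) k).continuousOn
  have h3 : ∀ k i, ∀ x ∈ ball c r, grd H k i x + grd H i k x = 0 := fun k i =>
    eq_of_ae_eq isOpen_ball ((hcont k i).mono hballV) continuousOn_const (h2 k i)
  -- a larger ball
  obtain ⟨δ, hδ, hδV⟩ := (isCompact_closedBall c r).exists_cthickening_subset_open hV hb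
  rw [cthickening_closedBall hδ.le hr.le] at hδV
  have hSV : ball c (δ + r) ⊆ V := ball_subset_closedBall.trans hδV
  have h4 : ∀ x ∈ ball c (δ + r), ∀ i k, ∀ᶠ y in 𝓝 x, pd i (H k) y + pd k (H i) y = 0 := by
    refine strain_ident Z.hd hV hSV (convex_ball _ _).isPreconnected hH
      (mem_ball_self (by linarith) : c ∈ ball c (δ + r)) fun i k => ?_
    filter_upwards [isOpen_ball.mem_nhds (mem_ball_self hr : c ∈ ball c r)] with x hx
    exact h3 k i x hx
  -- the strain of `G` on the ball and on the shell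
  have h5 : ∀ k i, ∀ᵐ x ∂(volume.restrict (ball c (δ + r))), G k i x + G i k x = 0 := by
    intro k i
    have h6 := ae_restrict_of_ae_restrict_of_subset hSV (h1 k i)
    filter_upwards [h6, ae_restrict_mem measurableSet_ball] with x hx hxb
    rw [← hx]
    exact (h4 x hxb i k).self_of_nhds
  have hΩb : closedBall c r ⊆ Ω := hb.trans hVΩ
  refine spread Z hΩ hc hr hΩb hu hw (fun k i => ?_) (O := ball c (δ + r) \ closedBall c r)
    (isOpen_ball.sdiff isClosed_closedBall) ?_ ?_ fun k i => ?_
  · exact ae_restrict_of_ae_restrict_of_subset (ball_subset_ball (by linarith)) (h5 k i)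
  · have hd0 : 0 < d := by have := Z.hd; omega
    have hn : ‖EuclideanSpace.single (⟨0, hd0⟩ : Fin d) (1 : ℝ)‖ = 1 := by simp
    refine ⟨c + (r + δ / 2) • EuclideanSpace.single (⟨0, hd0⟩ : Fin d) (1 : ℝ), ?_, ?_⟩
    · rw [mem_ball, dist_eq_norm, add_sub_cancel_left, norm_smul, hn, Real.norm_eq_abs,
        abs_of_pos (by positivity)]
      linarith
    · rw [mem_closedBall, dist_eq_norm, add_sub_cancel_left, norm_smul, hn, Real.norm_eq_abs,
        abs_of_pos (by positivity)]
      linarith
  · exact sdiff_subset_sdiff_left (hSV.trans hVΩ)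
  · exact ae_restrict_of_ae_restrict_of_subset sdiff_subset (h5 k i)

end Pool.Agent.MP_0643f8_an.U
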