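import Mathlib
import Pool.Agent.Lib.MP_0643f8_an.U.M6b_Two
import Pool.Agent.Lib.MP_0643f8_an.U.M6c_Invis
import Pool.Agent.Lib.MP_0643f8_an.U.M2b_Agree
import Pool.Agent.Lib.MP_0643f8_an.U.M3_Nested
import Pool.Agent.Lib.MP_0643f8_an.U.M5_Geo

/-!
# Uniqueness
-/

set_option autoImplicit false

open MeasureTheory Metric Set Filter Topology
open scoped ContDiff

namespace Pool.Agent.MP_0643f8_an.U
variable {d : ℕ} (Z : Cst d)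

/-- uniqueness of the ball -/
theorem uniqueness {Ω : Set (EE d)} (hΩ : IsOpen Ω) (hb : Bornology.IsBounded Ω)
    (hc : IsConnected Ω) {c₁ c₂ : EE d} {r₁ r₂ : ℝ} (hr₁ : 0 < r₁) (hr₂ : 0 < r₂)
    (hb₁ : closedBall c₁ r₁ ⊆ Ω) (hb₂ : closedBall c₂ r₂ ⊆ Ω)
    {σ : Measure (EE d)} [IsFiniteMeasure σ] (hσ : σ (frontier Ω)ᶜ = 0)
    {g : Fin d → EE d → ℝ} (hg : ∀ k, MemLp (g k) 2 σ) (hg0 : ¬ ∀ k, g k =ᵐ[σ] 0)
    {u₁ u₂ : Fin d → EE d → ℝ} {G₁ G₂ : Fin d → Fin d → EE d → ℝ}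
    (s₁ : IsWeakSolution Ω (ball c₁ r₁) Z.lam Z.mu Z.lam' Z.mu' σ g u₁ G₁)
    (s₂ : IsWeakSolution Ω (ball c₂ r₂) Z.lam Z.mu Z.lam' Z.mu' σ g u₂ G₂)
    (ht : SameTrace Ω u₁ G₁ u₂ G₂) : c₁ = c₂ ∧ r₁ = r₂ := by
  by_contra hne
  have hpc : IsPreconnected Ω := hc.isPreconnected
  have hu₁ : ∀ k, WD Ω (u₁ k) (G₁ k) := fun k => wd_of_w12 hΩ s₁.w12 k
  have hu₂ : ∀ k, WD Ω (u₂ k) (G₂ k) := fun k => wd_of_w12 hΩ s₂.w12 k
  have hw₁ : WEq Z (ball c₁ r₁) Ω G₁ := weq_of_sol Z hΩ hσ s₁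
  have hw₂ : WEq Z (ball c₂ r₂) Ω G₂ := weq_of_sol Z hΩ hσ s₂
  obtain ⟨he, heG⟩ := agree_out Z hΩ hb hr₁ hr₂ hb₁ hb₂ s₁ s₂ ht
  by_cases hn1 : dist c₁ c₂ + r₁ ≤ r₂
  · -- the first ball is in the second one
    have hsub : closedBall c₁ r₁ ⊆ closedBall c₂ r₂ :=
      closedBall_subset_closedBall' (by rw [add_comm]; exact hn1)
    have hun : closedBall c₁ r₁ ∪ closedBall c₂ r₂ = closedBall c₂ r₂ :=
      union_eq_self_of_subset_left hsub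
    rw [hun] at he heG
    have h0 := nested Z hΩ hpc hr₁ hr₂ hb₂ hn1 hne hu₁ hu₂ hw₁ hw₂ he heG
    exact hg0 fun k => datum_zero Z hΩ hg s₁ h0 k
  by_cases hn2 : dist c₁ c₂ + r₂ ≤ r₁
  · -- the second ball is in the first one
    have hsub : closedBall c₂ r₂ ⊆ closedBall c₁ r₁ :=
      closedBall_subset_closedBall' (by rw [dist_comm, add_comm]; exact hn2)
    have hun : closedBall c₁ r₁ ∪ closedBall c₂ r₂ = closedBall c₁ r₁ :=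
      union_eq_self_of_subset_right hsub
    rw [hun] at he heG
    have he' : ∀ k, ∀ᵐ x ∂(volume.restrict (Ω \ closedBall c₁ r₁)), u₂ k x = u₁ k x := by
      intro k
      filter_upwards [he k] with x hx using hx.symm
    have heG' : ∀ k i, ∀ᵐ x ∂(volume.restrict (Ω \ closedBall c₁ r₁)),
        G₂ k i x = G₁ k i x := by
      intro k i
      filter_upwards [heG k i] with x hx using hx.symm
    have hne' : ¬ (c₂ = c₁ ∧ r₂ = r₁) := fun h => hne ⟨h.1.symm, h.2.symm⟩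
    have h0 := nested Z hΩ hpc hr₂ hr₁ hb₁ (by rw [dist_comm]; exact hn2) hne' hu₂ hu₁ hw₂ hw₁
      he' heG'
    exact hg0 fun k => datum_zero Z hΩ hg s₂ h0 k
  -- not nested
  rw [not_le] at hn1 hn2
  obtain ⟨V, H, w, D₁, D₂, ρ₁, ρ₂, hV, hVΩ, hV₁, hV₂, hH, hw, h₁, h₂, heq⟩ :=
    exists_two Z hΩ hr₁ hr₂ hb₁ hb₂ hu₁ hu₂ hw₁ hw₂ he
  have hw0 := w_zero Z hV hH hV₁ hV₂ hw h₁ h₂ hn2 hn1
  have he0 : ∀ k, ∀ᵐ x ∂(volume.restrict (V \ closedBall c₁ r₁)), u₁ k x = H k x := by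
    intro k
    have hm : MeasurableSet (V \ closedBall c₁ r₁) :=
      hV.measurableSet.diff measurableSet_closedBall
    filter_upwards [heq k, ae_restrict_mem hm] with x hx hxV
    rw [hx, hw0 x hxV.2 k, add_zero]
  have h0 := invisible Z hΩ hpc hV hVΩ hr₁ hV₁ hu₁ hw₁ hH he0
  exact hg0 fun k => datum_zero Z hΩ hg s₁ h0 k

end Pool.Agent.MP_0643f8_an.U
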